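import Pool.Agent.Lib.MP_108739_an.F.Ent1

/-! Laws, the total variation norm and a weak Pinsker inequality. -/

open Finset

namespace Pool.Agent.Lib.MP_108739_an.F
open Classical

variable {Ω α β γ δ ι : Type} [Fintype Ω] {w : Ω → ℝ}

lemma law_apply (f : Ω → α) (v : α) : law w f v = tot (res w fun o => f o = v) := by
  simp only [law, tot, res, Finsupp.finsetSum_apply, Finsupp.single_apply]
lemma lw_apply (f : Ω → α) (g : Ω → β) (o : Ω) (v : α) :
    lw w f g o v = tot (res w fun o' => f o' = v ∧ g o' = g o) / ms w g o := by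
  rw [lw, Finsupp.smul_apply, law_apply, res_res, smul_eq_mul, div_eq_inv_mul,
    res_congr fun o' => and_comm]
lemma lw_self (f : Ω → α) (g : Ω → β) (o : Ω) :
    lw w f g o (f o) = ms w (pr f g) o / ms w g o := by
  rw [lw_apply, ms_eq_tot (pr f g), res_congr (B := fun o' => pr f g o' = pr f g o)
    fun o' => by simp [pr]]
lemma lw_nonneg (hw : Nn w) (f : Ω → α) (g : Ω → β) (o : Ω) (v : α) : 0 ≤ lw w f g o v := by
  rw [lw_apply]
  exact div_nonneg (tot_nonneg (hw.res _)) (ms_nonneg hw _ _)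
lemma lw_det (f : Ω → α) (g : Ω → β) : Det g (lw w f g) := by
  intro o o' h
  rw [lw, lw, ms_det g o o' h, h]
lemma lw_congr (f : Ω → α) {g : Ω → β} {g' : Ω → γ} (h : Det g g') (h' : Det g' g) :
    lw w f g = lw w f g' := by
  funext o
  rw [lw, lw, ms_congr h h', res_congr (B := fun o' => g' o' = g' o)
    fun o' => ⟨h o' o, h' o' o⟩]
lemma n1_nonneg (F : α →₀ ℝ) : 0 ≤ n1 F := sum_nonneg fun _ _ => abs_nonneg _
lemma n1_eq_sum (F : α →₀ ℝ) {s : Finset α} (h : F.support ⊆ s) : n1 F = ∑ v ∈ s, |F v| :=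
  sum_subset h fun v _ hv => by rw [Finsupp.notMem_support_iff.1 hv, abs_zero]
lemma n1_add_le (F G : α →₀ ℝ) : n1 (F + G) ≤ n1 F + n1 G := by
  rw [n1_eq_sum (F + G) Finsupp.support_add, n1_eq_sum F (subset_union_left (s₂ := G.support)),
    n1_eq_sum G (subset_union_right (s₁ := F.support)), ← sum_add_distrib]
  exact sum_le_sum fun v _ => abs_add_le _ _
lemma n1_neg (F : α →₀ ℝ) : n1 (-F) = n1 F := by simp [n1]
lemma n1_sub_comm (F G : α →₀ ℝ) : n1 (F - G) = n1 (G - F) := by rw [← n1_neg, neg_sub]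
lemma n1_tri (F G K : α →₀ ℝ) : n1 (F - K) ≤ n1 (F - G) + n1 (G - K) := by
  have := n1_add_le (F - G) (G - K)
  rwa [sub_add_sub_cancel] at this
lemma n1_smul (c : ℝ) (F : α →₀ ℝ) : n1 (c • F) = |c| * n1 F := by
  rw [n1_eq_sum (c • F) Finsupp.support_smul, n1, mul_sum]
  exact sum_congr rfl fun v _ => by rw [Finsupp.smul_apply, smul_eq_mul, abs_mul]
lemma law_support (f : Ω → α) {s : Finset α} (h : ∀ o, f o ∈ s) : (law w f).support ⊆ s := by
  intro v hv
  by_contra hn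
  refine Finsupp.mem_support_iff.1 hv ?_
  rw [law_apply]
  exact sum_eq_zero fun o _ => if_neg fun e : f o = v => hn (e ▸ h o)
lemma n1_law (hw : Nn w) (f : Ω → α) : n1 (law w f) = tot w := by
  have h : ∀ o, f o ∈ univ.image f := fun o => mem_image_of_mem f (mem_univ o)
  rw [n1_eq_sum _ (law_support f h), tot_split h]
  exact sum_congr rfl fun v _ => by rw [law_apply, abs_of_nonneg (tot_nonneg (hw.res _))]
lemma n1_lw_eq (hw : Nn w) (f : Ω → α) (g : Ω → β) (o : Ω) :
    n1 (lw w f g o) = (ms w g o)⁻¹ * ms w g o := by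
  rw [lw, n1_smul, n1_law (hw.res _), ← ms_eq_tot, abs_of_nonneg (inv_nonneg.2 (ms_nonneg hw _ _))]
lemma n1_lw_le (hw : Nn w) (f : Ω → α) (g : Ω → β) (o : Ω) : n1 (lw w f g o) ≤ 1 := by
  rw [n1_lw_eq hw]
  exact inv_mul_le_one
lemma sum_mul_le_n1 (F : α →₀ ℝ) (s : Finset α) (φ : α → ℝ) {c : ℝ} (hc : 0 ≤ c)
    (h : ∀ v ∈ s, |φ v| ≤ c) : ∑ v ∈ s, F v * φ v ≤ c * n1 F := by
  rw [n1_eq_sum F (subset_union_right (s₁ := s)), mul_sum]
  calc ∑ v ∈ s, F v * φ v ≤ ∑ v ∈ s, c * |F v| := sum_le_sum fun v hv => by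
        refine (le_abs_self _).trans ?_
        rw [abs_mul, mul_comm]
        exact mul_le_mul_of_nonneg_right (h v hv) (abs_nonneg _)
    _ ≤ _ := sum_le_sum_of_subset_of_nonneg subset_union_left fun _ _ _ => by positivity
lemma E_eq_law (f : Ω → α) (φ : α → ℝ) {s : Finset α} (h : ∀ o, f o ∈ s) :
    E w (fun o => φ (f o)) = ∑ v ∈ s, law w f v * φ v := by
  simp only [law_apply, tot, res, sum_mul, E]
  rw [sum_comm]
  refine sum_congr rfl fun o _ => ?_
  rw [sum_eq_single (f o) (fun v _ hv => by rw [if_neg (Ne.symm hv), zero_mul])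
    (fun hn => absurd (h o) hn), if_pos rfl]
/-- two weights on different spaces with close laws -/
lemma E_sub_le_n1 {Ω' : Type} [Fintype Ω'] (w' : Ω' → ℝ) (f : Ω → α) (f' : Ω' → α) (φ : α → ℝ)
    {c : ℝ} (hc : 0 ≤ c) (h : ∀ v, |φ v| ≤ c) :
    E w (fun o => φ (f o)) - E w' (fun o => φ (f' o)) ≤ c * n1 (law w f - law w' f') := by
  rw [E_eq_law f φ (s := univ.image f ∪ univ.image f')
      fun o => mem_union_left _ (mem_image_of_mem f (mem_univ o)),
    E_eq_law f' φ (s := univ.image f ∪ univ.image f')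
      fun o => mem_union_right _ (mem_image_of_mem f' (mem_univ o)), ← sum_sub_distrib]
  refine le_trans (le_of_eq (sum_congr rfl fun v _ => ?_))
    (sum_mul_le_n1 _ _ φ hc fun v _ => h v)
  rw [Finsupp.sub_apply, sub_mul]
lemma sh_apply (d : ℤ) (F : ℤ →₀ ℝ) (v : ℤ) : sh d F v = F (v - d) := by
  have := Finsupp.mapDomain_apply (add_left_injective d) F (v - d)
  rwa [sub_add_cancel] at this
lemma sh_zero (F : ℤ →₀ ℝ) : sh 0 F = F := by ext v; rw [sh_apply, sub_zero]
lemma sh_sh (d e : ℤ) (F : ℤ →₀ ℝ) : sh d (sh e F) = sh (d + e) F := by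
  ext v; rw [sh_apply, sh_apply, sh_apply, sub_sub]
lemma sh_sub (d : ℤ) (F G : ℤ →₀ ℝ) : sh d (F - G) = sh d F - sh d G := by
  ext v; simp only [sh_apply, Finsupp.sub_apply]
lemma sh_smul (d : ℤ) (c : ℝ) (F : ℤ →₀ ℝ) : sh d (c • F) = c • sh d F := by
  ext v; simp only [sh_apply, Finsupp.smul_apply]
lemma n1_sh (d : ℤ) (F : ℤ →₀ ℝ) : n1 (sh d F) = n1 F := by
  rw [n1_eq_sum (sh d F) Finsupp.mapDomain_support,
    sum_image fun a _ b _ e => add_left_injective d e, n1]
  exact sum_congr rfl fun v _ => by rw [sh_apply, add_sub_cancel_right]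
lemma law_add (R : Ω → ℤ) (d : ℤ) : law w (fun o => R o + d) = sh d (law w R) := by
  ext v
  rw [sh_apply, law_apply, law_apply, res_congr fun o => eq_sub_iff_add_eq.symm]
lemma lw_add (R d : Ω → ℤ) {g : Ω → β} (h : Det g d) (o : Ω) :
    lw w (fun o => R o + d o) g o = sh (d o) (lw w R g o) := by
  ext v
  rw [sh_apply, lw_apply, lw_apply, res_congr (B := fun o' => R o' = v - d o ∧ g o' = g o)
    fun o' => and_congr_left fun e => by rw [h o' o e, eq_sub_iff_add_eq]]

lemma mul_sqrt_div {a b : ℝ} (hb : 0 ≤ b) : a * √(b / a) = √a * √b ∨ a < 0 := by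
  rcases lt_or_ge a 0 with h | h
  · exact Or.inr h
  · left
    rw [Real.sqrt_div hb, mul_div_left_comm, Real.div_sqrt, mul_comm]

lemma hellinger (s : Finset α) (P Q : α → ℝ) (hP : ∀ v, 0 ≤ P v) (hQ : ∀ v, 0 ≤ Q v)
    (h1 : ∑ v ∈ s, P v = 1) (h2 : ∑ v ∈ s, Q v = 1) :
    0 ≤ 2 - 2 * ∑ v ∈ s, P v * √(Q v / P v) ∧
      ∑ v ∈ s, |P v - Q v| ≤ 2 * √(2 - 2 * ∑ v ∈ s, P v * √(Q v / P v)) := by
  have e : ∀ v, P v * √(Q v / P v) = √(P v) * √(Q v) := fun v =>
    (mul_sqrt_div (hQ v)).resolve_right (not_lt.2 (hP v))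
  simp only [e]
  have a1 : ∑ v ∈ s, |√(P v) - √(Q v)| ^ 2 = 2 - 2 * ∑ v ∈ s, √(P v) * √(Q v) := by
    have : ∀ v, |√(P v) - √(Q v)| ^ 2 = P v + Q v - 2 * (√(P v) * √(Q v)) := fun v => by
      rw [sq_abs]; nlinarith [Real.mul_self_sqrt (hP v), Real.mul_self_sqrt (hQ v)]
    simp only [this, sum_sub_distrib, sum_add_distrib, ← mul_sum, h1, h2]
    ring
  have a2 : ∑ v ∈ s, (√(P v) + √(Q v)) ^ 2 ≤ 2 ^ 2 := by
    calc ∑ v ∈ s, (√(P v) + √(Q v)) ^ 2 ≤ ∑ v ∈ s, 2 * (P v + Q v) := sum_le_sum fun v _ => by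
          nlinarith [Real.mul_self_sqrt (hP v), Real.mul_self_sqrt (hQ v),
            sq_nonneg (√(P v) - √(Q v))]
      _ = 2 ^ 2 := by rw [← mul_sum, sum_add_distrib, h1, h2]; norm_num
  rw [← a1]
  refine ⟨sum_nonneg fun _ _ => by positivity, ?_⟩
  calc ∑ v ∈ s, |P v - Q v| = ∑ v ∈ s, (√(P v) + √(Q v)) * |√(P v) - √(Q v)| := by
        refine sum_congr rfl fun v _ => ?_
        rw [← abs_of_nonneg (by positivity : 0 ≤ √(P v) + √(Q v)), ← abs_mul]
        congr 1
        nlinarith [Real.mul_self_sqrt (hP v), Real.mul_self_sqrt (hQ v)]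
    _ ≤ √(∑ v ∈ s, (√(P v) + √(Q v)) ^ 2) * √(∑ v ∈ s, |√(P v) - √(Q v)| ^ 2) :=
        Real.sum_mul_le_sqrt_mul_sqrt _ _ _
    _ ≤ _ := by
        gcongr
        exact Real.sqrt_le_iff.2 ⟨by norm_num, a2⟩

lemma lw_support (f : Ω → α) (g : Ω → β) (o : Ω) : (lw w f g o).support ⊆ univ.image f :=
  Finsupp.support_smul.trans (law_support f fun o => mem_image_of_mem f (mem_univ o))

lemma sum_lw (hw : Nn w) (f : Ω → α) (g : Ω → β) {o : Ω} (ho : 0 < w o) :
    ∑ v ∈ univ.image f, lw w f g o v = 1 := by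
  have := n1_lw_eq hw f g o
  rw [inv_mul_cancel₀ (ms_pos hw g ho).ne', n1_eq_sum _ (lw_support f g o)] at this
  rw [← this]
  exact sum_congr rfl fun v _ => (abs_of_nonneg (lw_nonneg hw f g o v)).symm

/-- weak Pinsker inequality -/
theorem pinsker (hw : Nn w) (f : Ω → α) {g : Ω → β} {g' : Ω → γ} (h : Det g' g) :
    E w (fun o => n1 (lw w f g' o - lw w f g o)) ≤ 2 * √(tot w * I w f g' g) := by
  set B : Ω → ℝ := fun o =>
    ∑ v ∈ univ.image f, lw w f g' o v * √(lw w f g o v / lw w f g' o v) with hB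
  have hel := fun o (ho : 0 < w o) => hellinger (univ.image f) (lw w f g' o) (lw w f g o)
    (lw_nonneg hw f g' o) (lw_nonneg hw f g o) (sum_lw hw f g' ho) (sum_lw hw f g ho)
  have a1 : E w (fun o => n1 (lw w f g' o - lw w f g o)) ≤ 2 * E w fun o => √(2 - 2 * B o) := by
    rw [← E_mul]
    refine E_mono hw fun o ho => ?_
    rw [n1_eq_sum _ (Finsupp.support_sub.trans (union_subset (lw_support f g' o) (lw_support f g o)))]
    exact (hel o ho).2
  have a2 : E w (fun o => √(2 - 2 * B o)) ≤ √(tot w * E w fun o => 2 - 2 * B o) :=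
    E_sqrt_le hw fun o ho => (hel o ho).1
  have a3 : E w B = E w fun o => √(lw w f g o (f o) / lw w f g' o (f o)) := by
    rw [← E_fib hw g' fun o => √(lw w f g o (f o) / lw w f g' o (f o))]
    refine E_congr hw fun o _ => ?_
    rw [E_congr (hw.res _) (G := fun o' => (fun v => √(lw w f g o v / lw w f g' o v)) (f o'))
      fun o' ho' => by
        rw [lw_det f g' o' o (res_pos ho').1, lw_det f g o' o (h o' o (res_pos ho').1)],
      E_eq_law f (fun v => √(lw w f g o v / lw w f g' o v))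
        fun o => mem_image_of_mem f (mem_univ o), sum_div]
    refine sum_congr rfl fun v _ => ?_
    rw [mul_div_right_comm, div_eq_inv_mul (law _ f v)]
    rfl
  have hl : 0 < Real.log 2 := Real.log_pos (by norm_num)
  have a4 : E w (fun o => 2 - 2 * B o) ≤ Real.log 2 * I w f g' g := by
    rw [E_sub, E_mul, a3, ← E_mul, ← E_sub, I, H, H, ← E_sub, ← E_mul,
      ms_congr (w := w) (g := pr g' g) (f := g') Det.fst (Det.pr Det.rfl h),
      ms_congr (w := w) (g := pr f (pr g' g)) (f := pr f g')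
        (Det.pr Det.fst (Det.snd.trans Det.fst))
        (Det.pr Det.fst (Det.pr Det.snd (Det.snd.trans h)))]
    refine E_mono hw fun o ho => ?_
    rw [lw_self, lw_self]
    have p1 := ms_pos hw g ho
    have p2 := ms_pos hw (pr f g) ho
    have p3 := ms_pos hw g' ho
    have p4 := ms_pos hw (pr f g') ho
    set t := ms w (pr f g) o / ms w g o / (ms w (pr f g') o / ms w g' o) with ht
    have tp : 0 < t := by positivity
    have e : Real.log 2 * (lg (ms w g o / ms w (pr f g) o) - lg (ms w g' o / ms w (pr f g') o)) =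
        -Real.log t := by
      rw [ht, lg, lg, Real.logb, Real.logb]
      simp only [Real.log_div, p1.ne', p2.ne', p3.ne', p4.ne', ne_eq, not_false_eq_true,
        div_eq_zero_iff, or_self]
      field_simp
      ring
    rw [e]
    have k1 := Real.log_le_sub_one_of_pos (Real.sqrt_pos.2 tp)
    rw [Real.log_sqrt tp.le] at k1
    linarith
  have a5 : Real.log 2 * I w f g' g ≤ I w f g' g :=
    mul_le_of_le_one_left (I_nonneg hw _ _ _) (by linarith [Real.log_two_lt_d9])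
  refine a1.trans (mul_le_mul_of_nonneg_left (a2.trans (Real.sqrt_le_sqrt ?_)) (by norm_num))
  exact mul_le_mul_of_nonneg_left (a4.trans a5) (tot_nonneg hw)

end Pool.Agent.Lib.MP_108739_an.F
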