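import Pool.Agent.Lib.MP_108739_an.F.AbcDefs
import Pool.Agent.Lib.MP_108739_an.F.Ent3

/-! The mass of the bad event of a triple of levels. -/

open Finset

namespace Pool.Agent.Lib.MP_108739_an.F
open Classical

lemma bad_far {s t a : ℕ} (ha : 0 < a) (h : 2 ≤ |((s / a : ℕ) : ℤ) - (t / a : ℕ)|) :
    (a : ℤ) ≤ |(s : ℤ) - t| := by
  have h1 : (a : ℤ) * (s / a : ℕ) + (s % a : ℕ) = s := by exact_mod_cast Nat.div_add_mod s a
  have h2 : (a : ℤ) * (t / a : ℕ) + (t % a : ℕ) = t := by exact_mod_cast Nat.div_add_mod t a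
  have h3 : ((s % a : ℕ) : ℤ) < a := by exact_mod_cast Nat.mod_lt s ha
  have h4 : ((t % a : ℕ) : ℤ) < a := by exact_mod_cast Nat.mod_lt t ha
  have h5 : (0 : ℤ) ≤ (s % a : ℕ) := Int.natCast_nonneg _
  have h6 : (0 : ℤ) ≤ (t % a : ℕ) := Int.natCast_nonneg _
  have h7 : (0 : ℤ) < a := by exact_mod_cast ha
  generalize ((s / a : ℕ) : ℤ) = x at *
  generalize ((t / a : ℕ) : ℤ) = y at *
  generalize ((s % a : ℕ) : ℤ) = x' at *
  generalize ((t % a : ℕ) : ℤ) = y' at *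
  rcases le_abs.1 h with h | h
  · exact le_abs.2 (Or.inl (by nlinarith))
  · exact le_abs.2 (Or.inr (by nlinarith))

lemma bad_near {s t a : ℕ} (ha : 0 < a) (h : s / a = t / a) : |(s : ℤ) - t| ≤ a := by
  have h1 := Nat.div_add_mod s a
  have h2 := Nat.div_add_mod t a
  have h3 := Nat.mod_lt s ha
  have h4 := Nat.mod_lt t ha
  rw [h] at h1
  rw [abs_le]
  omega

lemma bad_div {D : ℕ} (hD : 0 < D) (W : ℕ) {b c : ℕ} (h : b ≤ c) :
    D ^ b * (W / D ^ b) / D ^ c = W / D ^ c := by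
  obtain ⟨m, rfl⟩ := Nat.exists_eq_add_of_le h
  rw [pow_add, Nat.mul_div_mul_left _ _ (pow_pos hD b), Nat.div_div_eq_div_mul]

namespace Ab
variable {Ω : Type} [Fintype Ω] (A : Ab Ω) {w : Ω → ℝ}

omit [Fintype Ω] in
lemma bad_O {x j u : ℕ} {p p' : Ω} (h : A.O x j u p = A.O x j u p') :
    A.W p / A.D ^ (A.n - j) = A.W p' / A.D ^ (A.n - j) ∧
      A.Y p / A.D ^ (A.n - x) = A.Y p' / A.D ^ (A.n - x) ∧ A.C x j u p = A.C x j u p' :=
  ⟨congrArg (fun z => z.1.1) h, congrArg (fun z => z.1.2) h, congrArg (fun z => z.2) h⟩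

omit [Fintype Ω] in
lemma bad_det1 (x j u : ℕ) : Det (pr (A.O x j u) A.Y) (A.kap u) := by
  intro p p' h
  obtain ⟨h1, -, h3⟩ := A.bad_O (congrArg Prod.fst h)
  have h4 : A.Y p = A.Y p' := congrArg Prod.snd h
  refine Prod.ext h4 ?_
  simp only [C, tW, rY, h1, h4] at h3
  show A.X p - A.ζ u p = A.X p' - A.ζ u p'
  linarith

omit [Fintype Ω] in
lemma bad_det2 (hD : 0 < A.D) (x j u : ℕ) :
    Det (pr (A.kap u) (A.tW (j + A.r))) (pr (A.O x j u) A.Y) := by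
  intro p p' h
  have h1 : A.Y p = A.Y p' := congrArg (fun z => z.1.1) h
  have h2 : A.X p - A.ζ u p = A.X p' - A.ζ u p' := congrArg (fun z => z.1.2) h
  have h3 : A.tW (j + A.r) p = A.tW (j + A.r) p' := congrArg Prod.snd h
  have h4 : A.W p / A.D ^ (A.n - j) = A.W p' / A.D ^ (A.n - j) := by
    have h5 : A.n - (j + A.r) ≤ A.n - j := by omega
    rw [← bad_div hD (A.W p) h5, ← bad_div hD (A.W p') h5]
    exact congrArg (· / A.D ^ (A.n - j)) (Int.natCast_inj.1 h3)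
  refine Prod.ext (Prod.ext (Prod.ext h4 ?_) ?_) h1
  · show A.Y p / _ = A.Y p' / _
    rw [h1]
  · show A.C x j u p = A.C x j u p'
    simp only [C, tW, rY, h1, h4]
    linarith

/-- a small shift defect at a pair of far partners gives a full digit -/
lemma bad_full (hF : FullStmt) (ok : A.Ok w) {x j u o : ℕ} (ho : o ≤ 2) (hv : x + j + o = u + A.r)
    (hn : u + A.r ≤ A.n) {p p' p'' : Ω} (hp : 0 < w p) (h1 : A.O x j u p' = A.O x j u p)
    (h2 : A.O x j u p'' = A.O x j u p)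
    (f1 : 2 ≤ |(cl A.D A.n (x + 1) A.Y p' : ℤ) - cl A.D A.n (x + 1) A.Y p|)
    (f2 : 2 ≤ |(cl A.D A.n (j + 1) A.W p'' : ℤ) - cl A.D A.n (j + 1) A.W p|)
    (hs : n1 (lw w (A.R (u + A.r)) (A.kap u) p - sh ((A.tW (j + A.r) p - A.tW (j + A.r) p'') *
      (A.rY x p - A.rY x p')) (lw w (A.R (u + A.r)) (A.kap u) p)) ≤ 1 / (2 * (A.D : ℝ) ^ 6)) :
    A.Full w (u + A.r) p := by
  have hD2 := ok.hD
  have hr := ok.hr
  have hD : 0 < A.D := by omega
  obtain ⟨-, a1, -⟩ := A.bad_O h1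
  obtain ⟨a2, -, -⟩ := A.bad_O h2
  have e1 : A.rY x p - A.rY x p' = (A.Y p : ℤ) - A.Y p' := by
    have b1 := Nat.div_add_mod (A.Y p) (A.D ^ (A.n - x))
    have b2 := Nat.div_add_mod (A.Y p') (A.D ^ (A.n - x))
    rw [a1] at b2
    simp only [rY]
    omega
  have y1 := bad_far (pow_pos hD _) f1
  have y2 := bad_near (pow_pos hD _) a1
  have l1 : A.n - (j + A.r) ≤ A.n - (j + 1) := by omega
  have l2 : A.n - (j + A.r) ≤ A.n - j := by omega
  have q1 : ((A.D ^ (A.n - (j + 1)) : ℕ) : ℤ) ≤ |A.tW (j + A.r) p'' - A.tW (j + A.r) p| := by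
    refine bad_far (pow_pos hD _) ?_
    rw [bad_div hD _ l1, bad_div hD _ l1]
    exact f2
  have q2 : |A.tW (j + A.r) p'' - A.tW (j + A.r) p| ≤ ((A.D ^ (A.n - j) : ℕ) : ℤ) := by
    refine bad_near (pow_pos hD _) ?_
    rw [bad_div hD _ l2, bad_div hD _ l2]
    exact a2
  rw [abs_sub_comm] at y1 y2 q1 q2
  rw [← e1] at y1 y2
  set d := (A.tW (j + A.r) p - A.tW (j + A.r) p'') * (A.rY x p - A.rY x p') with hd
  have hDz : (1 : ℤ) ≤ A.D := by exact_mod_cast hD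
  have d1 : |d| ≤ (A.hh (u + A.r - 2) : ℕ) := by
    rw [hd, abs_mul]
    refine (mul_le_mul q2 y2 (abs_nonneg _) (Int.natCast_nonneg _)).trans ?_
    simp only [hh, Nat.cast_pow, ← pow_add]
    exact pow_le_pow_right₀ hDz (by omega)
  have d2 : ((A.hh (u + A.r - 2) : ℕ) : ℤ) ≤ (A.D : ℤ) ^ 4 * |d| := by
    rw [hd, abs_mul]
    refine le_trans ?_ (mul_le_mul_of_nonneg_left
      (mul_le_mul q1 y1 (Int.natCast_nonneg _) (abs_nonneg _)) (by positivity))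
    simp only [hh, Nat.cast_pow, ← pow_add]
    exact pow_le_pow_right₀ hDz (by omega)
  have m := ms_pos ok.nn (A.kap u) hp
  have key := hF Ω (res w fun o' => A.kap u o' = A.kap u p) (A.R (u + A.r)) A.D
    (A.hh (u + A.r - 2)) d (ok.nn.res _) hD2 (pow_pos hD _) d1 d2 (by
      rw [← ms_eq_tot]
      unfold lw at hs
      rw [sh_smul, ← smul_sub, n1_smul, abs_of_pos (inv_pos.2 m), inv_mul_le_iff₀ m] at hs
      rw [div_eq_mul_one_div]
      exact hs)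
  have e2 : A.D * A.hh (u + A.r - 2) = A.hh (u + A.r - 3) := by
    simp only [hh]
    rw [← pow_succ']
    congr 1
    omega
  rw [e2, ← ms_eq_tot] at key
  refine ⟨Nat.le_add_left _ _, ?_⟩
  rw [Nat.add_sub_cancel]
  exact key

end Ab

theorem bad (hR : RectStmt) (hFar : FarStmt) (hF : FullStmt) (h14 : D14Stmt) (h3 : D3Stmt) :
    BadStmt := by
  intro Ω _ A w ok x j u o ho hv hn
  have hw := ok.nn
  have hD2 := ok.hD
  have hD : 0 < A.D := by omega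
  have hDr : (0 : ℝ) < A.D := by exact_mod_cast hD
  have t0 := tot_nonneg hw
  have sq : ∀ {a b : ℝ}, a ≤ b → √(tot w * a) ≤ √(tot w * b) := fun h =>
    Real.sqrt_le_sqrt (mul_le_mul_of_nonneg_left h t0)
  obtain ⟨-, i1, i2, -⟩ := h14 Ω A w ok
  have i3 := (h3 Ω A w ok).2 x j u o ho hv hn
  have fY := hFar Ω _ w (A.O x j u) A.D A.n x A.Y hw fun p p' h => (A.bad_O h).2.1
  have fW := hFar Ω _ w (A.O x j u) A.D A.n j A.W hw fun p p' h => (A.bad_O h).1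
  have fY' := fY.trans (mul_le_mul_of_nonneg_left (sq i3) (by norm_num))
  have fW' := fW.trans (mul_le_mul_of_nonneg_left (sq (i2 x j u)) (by norm_num))
  let B : Ω → Prop := fun p => 0 < w p ∧
    ms w (A.O x j u) p / 4 ≤ tot (res w fun p' => A.O x j u p' = A.O x j u p ∧
      2 ≤ |(cl A.D A.n (x + 1) A.Y p' : ℤ) - cl A.D A.n (x + 1) A.Y p|) ∧
    ms w (A.O x j u) p / 4 ≤ tot (res w fun p' => A.O x j u p' = A.O x j u p ∧
      2 ≤ |(cl A.D A.n (j + 1) A.W p' : ℤ) - cl A.D A.n (j + 1) A.W p|) ∧ ¬ A.Full w (u + A.r) p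
  have r := hR Ω _ _ _ w (A.O x j u) (A.kap u) A.Y (A.rY x) (A.tW (j + A.r)) (A.R (u + A.r)) B
    (fun p p' => 2 ≤ |(cl A.D A.n (x + 1) A.Y p' : ℤ) - cl A.D A.n (x + 1) A.Y p|)
    (fun p p' => 2 ≤ |(cl A.D A.n (j + 1) A.W p' : ℤ) - cl A.D A.n (j + 1) A.W p|)
    (1 / (2 * (A.D : ℝ) ^ 6)) hw (by positivity)
    (fun p p' h => by simp only [Ab.rY, h]) (A.bad_det1 x j u) (A.bad_det2 hD x j u)
    (fun p hB _ => ⟨hB.2.1, hB.2.2.1, fun p' p'' h1 h2 f1 f2 => le_of_not_gt fun hlt =>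
      hB.2.2.2 (A.bad_full hF ok ho hv hn hB.1 h1 h2 f1 f2 hlt.le)⟩)
  have e : (fun o => A.R (u + A.r) o + A.tW (j + A.r) o * A.rY x o) =
      A.C x (j + A.r) (u + A.r) := by
    funext p
    simp only [Ab.R, Ab.C]
    ring
  rw [e] at r
  have i4 : I w (A.R (u + A.r)) (A.tW (j + A.r)) (A.kap u) ≤ A.d4 w u :=
    I_mono hw Det.fst fun p p' h => by
      have : A.W p = A.W p' := congrArg Prod.fst h
      simp only [Ab.tW, this]
  have r1 := sq i4
  have r2 := sq (i1 x j u)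
  have r3 : tot (res w B) ≤ 32 * (A.D : ℝ) ^ 6 * (8 * √(tot w * A.d2 w x j u) +
      8 * √(tot w * A.d4 w u) + 12 * √(tot w * A.d1 w j)) := by
    have e2 : tot (res w B) =
        32 * (A.D : ℝ) ^ 6 * (1 / (2 * (A.D : ℝ) ^ 6) / 16 * tot (res w B)) := by
      field_simp
      ring
    rw [e2]
    refine mul_le_mul_of_nonneg_left (r.trans ?_) (by positivity)
    unfold Ab.d2
    linarith
  refine le_trans (tot_res_mono hw ?_) (((tot_res_or hw _ _).trans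
    (add_le_add ((tot_res_or hw _ _).trans (add_le_add r3 fY')) fW')))
  rintro p hp ⟨b1, b2, b3⟩
  by_contra hc
  exact hc (Or.inl (Or.inl ⟨hp, by_contra fun h => hc (Or.inl (Or.inr ⟨b1, h⟩)),
    by_contra fun h => hc (Or.inr ⟨b2, h⟩), b3⟩))

end Pool.Agent.Lib.MP_108739_an.F
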