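import Pool.Agent.Lib.MP_108739_an.F.Ent1

/-! The log-sum bound for maxima and the ratios to which it is applied. -/

open Finset

namespace Pool.Agent.Lib.MP_108739_an.F
open Classical

variable {Ω α β γ δ ι : Type} [Fintype Ω] {w : Ω → ℝ}

/-- comparison of two weights on the fibres of `g` -/
lemma ratio_two {w' : Ω → ℝ} (hw : Nn w) (g : Ω → α) :
    E w' (fun o => ms w g o / ms w' g o) ≤ tot w := by
  have h1 : E w' (fun o => ms w g o / ms w' g o) = ∑ o', w o' * (ms w' g o' / ms w' g o') := by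
    have h2 : ∀ o, w' o * (ms w g o / ms w' g o) =
        ∑ o', w o' * ((if g o = g o' then w' o else 0) / ms w' g o') := fun o => by
      rw [ms, sum_div, mul_sum]
      refine sum_congr rfl fun o' _ => ?_
      by_cases h : g o' = g o
      · rw [if_pos h, if_pos h.symm, ms_det g o' o h]; ring
      · rw [if_neg h, if_neg (Ne.symm h)]; simp
    rw [E, sum_congr rfl fun o _ => h2 o, sum_comm]
    refine sum_congr rfl fun o' _ => ?_
    rw [← mul_sum, ← sum_div]; rfl
  rw [h1]
  exact sum_le_sum fun o _ => mul_le_of_le_one_right (hw o) (div_self_le_one _)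

lemma jensen_lg (hw : Nn w) (r : Ω → ℝ) (h0 : ∀ o, 0 < w o → 0 < r o) {K : ℝ} (hK : 0 < K)
    (h1 : E w r ≤ K * tot w) : E w (fun o => lg (r o)) ≤ lg K * tot w := by
  have hl : 0 < Real.log 2 := Real.log_pos (by norm_num)
  have h2 : E w (fun o => lg (r o)) ≤
      E w (fun o => (lg K - (Real.log 2)⁻¹) + (K * Real.log 2)⁻¹ * r o) := by
    refine E_mono hw fun o ho => ?_
    have a1 := lg_le_sub (div_pos (h0 o ho) hK)
    rw [lg_div (h0 o ho) hK] at a1
    have a2 : (r o / K - 1) / Real.log 2 = (K * Real.log 2)⁻¹ * r o - (Real.log 2)⁻¹ := by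
      field_simp
    linarith
  rw [E_add, E_const, E_mul] at h2
  have h3 : (K * Real.log 2)⁻¹ * E w r ≤ (K * Real.log 2)⁻¹ * (K * tot w) :=
    mul_le_mul_of_nonneg_left h1 (by positivity)
  have h4 : (K * Real.log 2)⁻¹ * (K * tot w) = (Real.log 2)⁻¹ * tot w := by field_simp
  nlinarith

/-- a kernel given by weights that depend only on the value of `g` -/
lemma E_kerW (hw : Nn w) (f : Ω → α) (g : Ω → β) (μ : Ω → Ω → ℝ) (hd : Det g μ)
    (h0 : ∀ o, Nn (μ o)) (h1 : ∀ o, tot (μ o) ≤ 1) :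
    E w (fun o => ms (μ o) f o * ms w g o / ms w (pr f g) o) ≤ tot w := by
  let Q : α → β → ℝ := fun v k =>
    if h : ∃ o, g o = k then tot (res (μ h.choose) fun o' => f o' = v) else 0
  have hQ : ∀ v o, Q v (g o) = tot (res (μ o) fun o' => f o' = v) := fun v o => by
    have h : ∃ o', g o' = g o := ⟨o, rfl⟩
    simp only [Q, dif_pos h]
    rw [hd _ _ h.choose_spec]
  have := E_ker hw f g Q (fun v k => by
    simp only [Q]
    split_ifs
    · exact tot_nonneg ((h0 _).res _)
    · exact le_rfl) (fun o _ => by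
    simp only [hQ]
    refine le_trans ?_ (h1 o)
    simp only [tot, res]
    rw [sum_comm]
    refine sum_le_sum fun o' _ => ?_
    rw [sum_ite_eq]
    split_ifs
    · exact le_rfl
    · exact h0 o o')
  simpa only [hQ, ← ms_eq_tot] using this

lemma ls (hw : Nn w) (J : Finset ι) (r : ι → Ω → ℝ) (h0 : ∀ i ∈ J, ∀ o, 0 ≤ r i o)
    (h1 : ∀ i ∈ J, E w (r i) ≤ tot w) :
    E w (fun o => mx J fun i => lg (r i o)) ≤ lg (#J + 1) * tot w := by
  have hs : ∀ o, 0 ≤ ∑ i ∈ J, r i o := fun o => sum_nonneg fun i hi => h0 i hi o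
  refine le_trans (E_mono hw fun o _ => ?_)
    (jensen_lg hw (fun o => 1 + ∑ i ∈ J, r i o) (fun o _ => by linarith [hs o]) (by positivity) ?_)
  · have a1 : 0 ≤ lg (1 + ∑ i ∈ J, r i o) := lg_nonneg (by linarith [hs o])
    refine mx_le a1 fun i hi => ?_
    rcases (h0 i hi o).eq_or_lt with h | h
    · rw [← h]; simpa [lg] using a1
    · have := single_le_sum (f := fun i => r i o) (fun i hi => h0 i hi o) hi
      exact lg_mono h (by linarith)
  · rw [E_add, E_const, E_sum]
    have := sum_le_card_nsmul J _ _ h1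
    rw [nsmul_eq_mul] at this
    linarith
lemma ls_one (hw : Nn w) (r : Ω → ℝ) (h0 : ∀ o, 0 ≤ r o) (h1 : E w r ≤ tot w) :
    E w (fun o => max 0 (lg (r o))) ≤ tot w := by
  have := ls hw {()} (fun _ => r) (fun _ _ => h0) fun _ _ => h1
  rw [card_singleton, Nat.cast_one, one_add_one_eq_two, lg_two, one_mul] at this
  exact le_trans (E_mono hw fun o _ => max_le (mx_nonneg _ _)
    (le_mx (fun _ : Unit => lg (r o)) (mem_singleton_self ()))) this
/-- Markov for ratios -/
lemma ratio_tail (hw : Nn w) (r : Ω → ℝ) (h0 : ∀ o, 0 ≤ r o) (h1 : E w r ≤ tot w) (u : ℝ) :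
    tot (res w fun o => u ≤ lg (r o) ∧ 0 < r o) ≤ (2 : ℝ) ^ (-u) * tot w := by
  have a1 := markov hw (F := r) (fun o _ => h0 o) ((2 : ℝ) ^ u)
  have a2 : tot (res w fun o => u ≤ lg (r o) ∧ 0 < r o) ≤ tot (res w fun o => (2 : ℝ) ^ u ≤ r o) :=
    tot_res_mono hw fun o _ h => by
      rw [← two_rpow_lg h.2]
      exact Real.rpow_le_rpow_of_exponent_le (by norm_num) h.1
  have a3 : (0 : ℝ) < 2 ^ u := by positivity
  rw [Real.rpow_neg (by norm_num), le_inv_mul_iff₀ a3]
  nlinarith
/-- few values -/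
lemma ratio_card (hw : Nn w) {f : Ω → α} {g : Ω → β} {K : ℝ} (hK : 0 < K)
    (h : ∀ o, 0 < w o → (#(vals w f g o) : ℝ) ≤ K) :
    E w (fun o => ms w g o / (K * ms w (pr f g) o)) ≤ tot w := by
  have := E_ker hw f g (fun _ _ => K⁻¹) (fun _ _ => by positivity) fun o ho => by
    rw [sum_const, nsmul_eq_mul, mul_inv_le_iff₀ hK, one_mul]; exact h o ho
  refine le_of_eq_of_le (congrArg _ (funext fun o => ?_)) this
  rw [div_eq_mul_inv, div_eq_mul_inv, mul_inv]; ring
/-- coarsening the condition from `g'` to `g`; `c` refines `b` -/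
lemma ratio_coarse (hw : Nn w) {g : Ω → α} {g' : Ω → β} {b : Ω → γ} {c : Ω → δ} (h : Det g' g)
    (h' : Det (pr c g) b) :
    E w (fun o => ms w (pr c g) o * ms w (pr b g') o / (ms w (pr b g) o * ms w (pr c g') o))
      ≤ tot w := by
  have d1 : Det (pr b g') (pr b g) := Det.pr Det.fst (Det.snd.trans h)
  have := E_kerW hw c (pr b g')
    (fun o o' => (ms w (pr b g) o)⁻¹ * res w (fun o'' => pr b g o'' = pr b g o) o')
    (fun o o' e => by beta_reduce; rw [ms_det _ o o' (d1 o o' e), d1 o o' e])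
    (fun o o' => mul_nonneg (inv_nonneg.2 (ms_nonneg hw _ _)) (hw.res _ o'))
    (fun o => by
      rw [tot, ← mul_sum, ← tot, ← ms_eq_tot]
      exact inv_mul_le_one)
  refine le_of_eq_of_le (congrArg _ (funext fun o => ?_)) this
  have e1 : ms w (pr c (pr b g')) = ms w (pr c g') :=
    ms_congr (Det.pr Det.fst (Det.snd.trans Det.snd))
      (Det.pr Det.fst (Det.pr ((Det.pr Det.fst (Det.snd.trans h)).trans h') Det.snd))
  have e2 : ms w (pr c (pr b g)) = ms w (pr c g) :=
    ms_congr (Det.pr Det.fst (Det.snd.trans Det.snd)) (Det.pr Det.fst (Det.pr h' Det.snd))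
  have e3 : ms (fun o' => (ms w (pr b g) o)⁻¹ * res w (fun o'' => pr b g o'' = pr b g o) o') c o =
      (ms w (pr b g) o)⁻¹ * ms w (pr c g) o := by
    rw [← e2, ← ms_res_eq (pr b g) c o]
    generalize (ms w (pr b g) o)⁻¹ = z
    rw [ms, ms, mul_sum]
    refine sum_congr rfl fun o' _ => ?_
    split_ifs <;> simp
  rw [e1, e3, div_eq_mul_inv, div_eq_mul_inv, mul_inv]; ring
/-- classes, with a variable that may depend on the class -/
lemma ratio_class (hw : Nn w) {τ : Ω → ι} {T : Finset ι} (h : ∀ o, τ o ∈ T) (g : ι → Ω → α) :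
    E w (fun o => ms w (g (τ o)) o / (#T * ms (res w fun o' => τ o' = τ o) (g (τ o)) o))
      ≤ tot w := by
  rw [E_split h]
  have a1 : ∀ t ∈ T, E (res w fun o => τ o = t) (fun o =>
      ms w (g (τ o)) o / (#T * ms (res w fun o' => τ o' = τ o) (g (τ o)) o)) ≤
        (#T : ℝ)⁻¹ * tot w := fun t _ => by
    refine le_trans (le_of_eq ?_) (mul_le_mul_of_nonneg_left
      (ratio_two (w' := res w fun o => τ o = t) hw (g t)) (by positivity))
    rw [← E_mul]
    refine E_congr (hw.res _) fun o ho => ?_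
    rw [(res_pos ho).1, div_eq_mul_inv, div_eq_mul_inv, mul_inv]; ring
  refine (sum_le_card_nsmul _ _ _ a1).trans ?_
  rw [nsmul_eq_mul, ← mul_assoc]
  exact mul_le_of_le_one_left (tot_nonneg hw) mul_inv_le_one
lemma ratio_event (hw : Nn w) (A : Ω → Prop) (g : Ω → α) :
    E (res w A) (fun o => ms w g o / ms (res w A) g o) ≤ tot w := ratio_two hw g
lemma cost_class (hw : Nn w) {τ : Ω → ι} {T : Finset ι} (h : ∀ o, τ o ∈ T) (g : ι → Ω → α) :
    ∑ t ∈ T, E (res w fun o => τ o = t)
      (fun o => lg (ms w (g t) o / ms (res w fun o => τ o = t) (g t) o)) ≤ lg #T * tot w := by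
  have a1 : ∑ t ∈ T, E (res w fun o => τ o = t)
      (fun o => lg (ms w (g t) o / ms (res w fun o => τ o = t) (g t) o)) =
      E w fun o => lg (ms w (g (τ o)) o / ms (res w fun o' => τ o' = τ o) (g (τ o)) o) := by
    rw [E_split h]
    exact sum_congr rfl fun t _ => E_congr (hw.res _) fun o ho => by rw [(res_pos ho).1]
  rw [a1]
  rcases T.eq_empty_or_nonempty with rfl | hT
  · have : IsEmpty Ω := ⟨fun o => by simpa using h o⟩
    simp [E, tot]
  have hT' : (0 : ℝ) < #T := by exact_mod_cast hT.card_pos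
  refine jensen_lg hw _ (fun o ho => div_pos (ms_pos hw _ ho)
    (ms_pos (hw.res _) _ (by simpa [res] using ho))) hT' ?_
  refine le_trans (le_of_eq ?_) (mul_le_mul_of_nonneg_left (ratio_class hw h g) hT'.le)
  rw [← E_mul]
  refine congrArg _ (funext fun o => ?_)
  rw [div_eq_mul_inv, div_eq_mul_inv, mul_inv]; field_simp
lemma cost_class_mx (hw : Nn w) {τ : Ω → ι} {T : Finset ι} (h : ∀ o, τ o ∈ T) (J : Finset γ)
    (g : ι → γ → Ω → α) : ∑ t ∈ T, E (res w fun o => τ o = t) (fun o => mx J fun j =>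
      lg (ms w (g t j) o / ms (res w fun o => τ o = t) (g t j) o))
        ≤ (lg #T + lg (#J + 1)) * tot w := by
  have a1 : ∑ t ∈ T, E (res w fun o => τ o = t) (fun o => mx J fun j =>
      lg (ms w (g t j) o / ms (res w fun o => τ o = t) (g t j) o)) =
      E w fun o => mx J fun j =>
        lg (ms w (g (τ o) j) o / ms (res w fun o' => τ o' = τ o) (g (τ o) j) o) := by
    rw [E_split h]
    exact sum_congr rfl fun t _ => E_congr (hw.res _) fun o ho => by rw [(res_pos ho).1]
  have a2 := ls hw J (fun j o => ms w (g (τ o) j) o /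
      (#T * ms (res w fun o' => τ o' = τ o) (g (τ o) j) o))
    (fun j _ o => div_nonneg (ms_nonneg hw _ _)
      (mul_nonneg (Nat.cast_nonneg _) (ms_nonneg (hw.res _) _ _)))
    fun j _ => ratio_class hw h fun t => g t j
  rw [a1, add_mul, ← E_const (lg #T), add_comm]
  refine le_trans ?_ (add_le_add a2 le_rfl)
  rw [← E_add]
  refine E_mono hw fun o ho => ?_
  have hT : (1 : ℝ) ≤ #T := by exact_mod_cast card_pos.2 ⟨_, h o⟩
  refine mx_le_add (lg_nonneg hT) fun j _ => ?_
  have b1 := ms_pos hw (g (τ o) j) ho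
  have b2 := ms_pos (hw.res fun o' => τ o' = τ o) (g (τ o) j) (o := o) (by simpa [res] using ho)
  rw [lg_div b1 b2, lg_div b1 (by positivity), lg_mul (by positivity) b2]
  linarith
lemma cost_event (hw : Nn w) (A : Ω → Prop) (g : Ω → α) :
    E (res w A) (fun o => lg (ms w g o / ms (res w A) g o)) ≤ tot w :=
  le_trans (E_mono (hw.res A) fun _ _ =>
    lg_le_self (div_nonneg (ms_nonneg hw _ _) (ms_nonneg (hw.res A) _ _))) (ratio_event hw A g)
lemma cost_event_mx (hw : Nn w) (A : Ω → Prop) (J : Finset γ) (g : γ → Ω → α) :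
    E (res w A) (fun o => mx J fun j => lg (ms w (g j) o / ms (res w A) (g j) o))
      ≤ (1 + lg (#J + 1)) * tot w := by
  have a1 := cost_class_mx hw (τ := fun o => decide (A o)) (T := univ) (fun _ => mem_univ _) J
    fun _ => g
  have a2 : res w (fun o => decide (A o) = true) = res w A := res_congr fun o => by simp
  rw [card_univ, Fintype.card_bool, Nat.cast_ofNat, lg_two, Fintype.sum_bool, a2] at a1
  have a3 := E_nonneg (hw.res fun o => decide (A o) = false) (F := fun o => mx J fun j =>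
    lg (ms w (g j) o / ms (res w fun o => decide (A o) = false) (g j) o)) fun o _ => mx_nonneg _ _
  linarith
/-- few points lie in fibres that the event fills sparsely -/
lemma sparse_event (hw : Nn w) (A : Ω → Prop) (g : Ω → α) {θ : ℝ} (h : 0 ≤ θ) :
    tot (res w fun o => A o ∧ ms (res w A) g o ≤ θ * ms w g o) ≤ θ * tot w := by
  rw [← res_res, ← E_ind]
  refine le_trans ?_ (mul_le_mul_of_nonneg_left (ratio_event hw A g) h)
  rw [← E_mul]
  refine E_mono (hw.res A) fun o ho => ?_
  have b1 := ms_pos (hw.res A) g ho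
  have b2 := ms_nonneg hw g o
  split_ifs with h1
  · rw [← mul_div_assoc, le_div_iff₀ b1, one_mul]; exact h1
  · positivity
/-- the entropy is carried by the points with a small conditional mass -/
lemma H_le_tail (hw : Nn w) {f : Ω → α} {g : Ω → β} {K r : ℝ} (hK : 1 ≤ K) (hr : 0 ≤ r)
    (h : ∀ o, 0 < w o → (#(vals w f g o) : ℝ) ≤ K) : H w f g ≤ (r + 1) * tot w +
      lg K * tot (res w fun o => (2 : ℝ) ^ r * ms w (pr f g) o ≤ ms w g o) := by
  have hK0 : 0 < K := by linarith
  have a1 := ls_one hw _ (fun o => div_nonneg (ms_nonneg hw g o)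
    (mul_nonneg hK0.le (ms_nonneg hw (pr f g) o))) (ratio_card hw hK0 h)
  have a2 : H w f g ≤ E w fun o => r + lg K *
      (if (2 : ℝ) ^ r * ms w (pr f g) o ≤ ms w g o then 1 else 0) +
        max 0 (lg (ms w g o / (K * ms w (pr f g) o))) := by
    refine E_mono hw fun o ho => ?_
    have b1 := ms_pos hw g ho
    have b2 := ms_pos hw (pr f g) ho
    split_ifs with h1
    · have b3 := le_max_right 0 (lg (ms w g o / (K * ms w (pr f g) o)))
      rw [lg_div b1 (by positivity), lg_mul hK0 b2] at b3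
      rw [lg_div b1 b2, lg_div b1 (by positivity), lg_mul hK0 b2]
      linarith
    · have b3 := le_max_left 0 (lg (ms w g o / (K * ms w (pr f g) o)))
      have b4 : lg (ms w g o / ms w (pr f g) o) ≤ r :=
        lg_le_of_le_rpow (div_pos b1 b2) (by rw [div_le_iff₀ b2]; exact (not_le.1 h1).le)
      linarith
  rw [E_add, E_add, E_const, E_mul, E_ind] at a2
  linarith
/-- positive part of the pointwise mutual information -/
lemma pmi_pos (hw : Nn w) (f : Ω → α) (g : Ω → β) (k : Ω → γ) :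
    E w (fun o => max 0 (lg (ms w (pr f (pr g k)) o * ms w k o /
      (ms w (pr g k) o * ms w (pr f k) o)))) ≤ I w f g k + tot w := by
  have a1 := ratio_coarse hw (g := k) (g' := pr g k) (b := un) (c := f) Det.snd Det.un
  rw [ms_congr (g := pr un (pr g k)) (f := pr g k) Det.snd (Det.pr Det.un Det.rfl),
    ms_congr (g := pr un k) (f := k) Det.snd (Det.pr Det.un Det.rfl)] at a1
  have a2 := ls_one hw _ (fun o => div_nonneg (mul_nonneg (ms_nonneg hw _ o) (ms_nonneg hw _ o))
    (mul_nonneg (ms_nonneg hw _ o) (ms_nonneg hw _ o))) a1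
  refine le_trans ?_ (add_le_add le_rfl a2)
  rw [I, H, H, ← E_sub, ← E_add]
  refine E_mono hw fun o ho => ?_
  have b1 := ms_pos hw k ho
  have b2 := ms_pos hw (pr f k) ho
  have b3 := ms_pos hw (pr g k) ho
  have b4 := ms_pos hw (pr f (pr g k)) ho
  rw [lg_div (mul_pos b4 b1) (mul_pos b3 b2), lg_div (mul_pos b2 b3) (mul_pos b1 b4),
    lg_div b1 b2, lg_div b3 b4, lg_mul b4 b1, lg_mul b3 b2, lg_mul b2 b3, lg_mul b1 b4]
  refine max_le ?_ ?_
  · have := le_max_right 0 (lg (ms w (pr f k) o) + lg (ms w (pr g k) o) -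
      (lg (ms w k o) + lg (ms w (pr f (pr g k)) o)))
    linarith
  · have := le_max_left 0 (lg (ms w (pr f k) o) + lg (ms w (pr g k) o) -
      (lg (ms w k o) + lg (ms w (pr f (pr g k)) o)))
    linarith

end Pool.Agent.Lib.MP_108739_an.F
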