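import Pool.Agent.Lib.MP_108739_an.F.AbcDefs
import Pool.Agent.Lib.MP_108739_an.F.Ent2

/-! Pointwise count of branching levels. -/

open Finset

namespace Pool.Agent.Lib.MP_108739_an.F
open Classical

namespace BranchAux

variable {Ω : Type} [Fintype Ω] {w : Ω → ℝ}

omit [Fintype Ω] in
lemma cl_succ (D n x : ℕ) (Y : Ω → ℕ) (hx : x < n) (o : Ω) :
    cl D n x Y o = cl D n (x + 1) Y o / D := by
  unfold cl
  rw [Nat.div_div_eq_div_mul, ← pow_succ]
  congr 2
  omega

lemma near (hw : Nn w) (D n x : ℕ) (Y : Ω → ℕ) {o1 o2 : Ω}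
    (e : cl D n x Y o2 = cl D n x Y o1) (h1 : ¬ Br w D n Y x o1) (h2 : ¬ Br w D n Y x o2) :
    |(cl D n (x + 1) Y o2 : ℤ) - cl D n (x + 1) Y o1| ≤ 2 := by
  by_contra hc
  unfold Br at h1 h2
  rw [not_le] at h1 h2
  rw [ms_det _ o2 o1 e, e] at h2
  have : tot (res w fun o' => cl D n x Y o' = cl D n x Y o1 ∧
        |(cl D n (x + 1) Y o' : ℤ) - cl D n (x + 1) Y o1| ≤ 1) +
      tot (res w fun o' => cl D n x Y o' = cl D n x Y o1 ∧
        |(cl D n (x + 1) Y o' : ℤ) - cl D n (x + 1) Y o2| ≤ 1) ≤ ms w (cl D n x Y) o1 := by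
    unfold tot ms res
    rw [← sum_add_distrib]
    refine sum_le_sum fun o _ => ?_
    have p := hw o
    by_cases a : cl D n x Y o = cl D n x Y o1
    · by_cases b : |(cl D n (x + 1) Y o : ℤ) - cl D n (x + 1) Y o1| ≤ 1
      · have c : ¬ |(cl D n (x + 1) Y o : ℤ) - cl D n (x + 1) Y o2| ≤ 1 := fun c => hc (by
          rw [abs_le] at b c ⊢
          omega)
        simp [a, b, c]
      · by_cases c : |(cl D n (x + 1) Y o : ℤ) - cl D n (x + 1) Y o2| ≤ 1 <;> simp [a, b, c, p]
    · simp [a]
  linarith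

lemma level (hw : Nn w) (T n x : ℕ) (Y : Ω → ℕ) (hT : 1 ≤ T) (hx : x < n) :
    E w (fun o => max 0 (lg (ms w (cl (2 ^ T) n x Y) o / ms w (cl (2 ^ T) n (x + 1) Y) o) -
      if Br w (2 ^ T) n Y x o then (T : ℝ) else 0)) ≤ 4 * tot w := by
  set D := 2 ^ T with hD
  have hD2 : 2 ≤ D := by
    calc 2 = 2 ^ 1 := by norm_num
      _ ≤ 2 ^ T := Nat.pow_le_pow_right (by norm_num) hT
  have hDr : (2 : ℝ) ≤ D := by exact_mod_cast hD2
  have hD0 : (0 : ℝ) < D := by linarith
  set g := cl D n x Y with hg
  set f := cl D n (x + 1) Y with hf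
  have hfg : Det f g := fun o o' h => by
    rw [hg, cl_succ D n x Y hx, cl_succ D n x Y hx, ← hf, h]
  let P : ℕ → Ω → Prop := fun v o => ∃ o', g o' = g o ∧ f o' = v ∧ ¬ Br w D n Y x o'
  let Q : ℕ → Ω → ℝ := fun v o => 1 / (4 * D) + if P v o then 1 / 8 else 0
  have hQ : ∀ v, Det g (Q v) := fun v o o' h => by simp only [Q, P, h]
  have hQ0 : ∀ v o, 1 / (4 * (D : ℝ)) ≤ Q v o := fun v o => by
    simp only [Q]; split_ifs <;> linarith
  have h4 : 0 < 1 / (4 * (D : ℝ)) := by positivity
  have hs : ∀ o, 0 < w o → ∑ v ∈ vals w f g o, Q v o ≤ 1 := fun o _ => by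
    have c1 : #(vals w f g o) ≤ D := by
      have : vals w f g o ⊆ Ico (D * g o) (D * g o + D) := fun v hv => by
        obtain ⟨o', _, e, rfl⟩ := mem_vals.1 hv
        rw [← e, hg, cl_succ D n x Y hx, ← hf, mem_Ico]
        exact ⟨Nat.mul_div_le _ _, Nat.lt_mul_div_succ _ (by omega)⟩
      simpa using card_le_card this
    have c2 : #((vals w f g o).filter fun v => P v o) ≤ 5 := by
      rcases ((vals w f g o).filter fun v => P v o).eq_empty_or_nonempty with h | ⟨v1, h⟩
      · simp [h]
      obtain ⟨o1, e1, rfl, b1⟩ := (mem_filter.1 h).2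
      have : ((vals w f g o).filter fun v => P v o) ⊆ Icc (f o1 - 2) (f o1 + 2) := fun v hv => by
        obtain ⟨o2, e2, rfl, b2⟩ := (mem_filter.1 hv).2
        have := near hw D n x Y (e2.trans e1.symm) b1 b2
        rw [← hf, abs_le] at this
        rw [mem_Icc]
        omega
      have := card_le_card this
      rw [Nat.card_Icc] at this
      omega
    simp only [Q]
    rw [sum_add_distrib, sum_const, ← sum_filter, sum_const, nsmul_eq_mul, nsmul_eq_mul]
    have d1 : (#(vals w f g o) : ℝ) ≤ D := by exact_mod_cast c1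
    have d2 : (#((vals w f g o).filter fun v => P v o) : ℝ) ≤ 5 := by exact_mod_cast c2
    have d3 : (#(vals w f g o) : ℝ) * (1 / (4 * D)) ≤ D * (1 / (4 * D)) :=
      mul_le_mul_of_nonneg_right d1 h4.le
    have d4 : (D : ℝ) * (1 / (4 * D)) = 1 / 4 := by field_simp
    linarith
  have k := E_ker' hw f g Q hQ hs
  have hm : ms w (pr f g) = ms w f := ms_congr Det.fst (Det.rfl.pr hfg)
  rw [hm] at k
  have k2 := ls_one hw _ (fun o => div_nonneg (mul_nonneg (h4.le.trans (hQ0 _ o))
    (ms_nonneg hw g o)) (ms_nonneg hw f o)) k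
  have l8 : lg 8 = 3 := by
    have := lg_two_pow 3
    norm_num at this
    exact this
  have l4 : lg (4 * D) = 2 + T := by
    have := lg_two_pow (2 + T)
    rw [pow_add] at this
    rw [hD]
    push_cast at this ⊢
    norm_num at this
    exact this
  refine le_trans (E_mono hw (G := fun o => max 0 (lg (Q (f o) o * ms w g o / ms w f o)) + 3)
    fun o p => ?_) ?_
  · have a := div_pos (ms_pos hw g p) (ms_pos hw f p)
    have q := h4.trans_le (hQ0 (f o) o)
    rw [mul_div_assoc, lg_mul q a]
    refine max_le (by positivity) ?_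
    have m := le_max_right 0 (lg (Q (f o) o) + lg (ms w g o / ms w f o))
    split_ifs with b
    · have := lg_mono h4 (hQ0 (f o) o)
      rw [lg_div one_pos (by positivity), lg_one, l4] at this
      linarith
    · have h8 : 1 / (8 : ℝ) ≤ Q (f o) o := by
        simp only [Q]
        rw [if_pos ⟨o, rfl, rfl, b⟩]
        linarith
      have := lg_mono (by norm_num) h8
      rw [lg_div one_pos (by norm_num), lg_one, l8] at this
      linarith
  · rw [E_add, E_const]
    linarith

end BranchAux

open BranchAux in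
theorem branch : BranchStmt := by
  intro Ω _ w T n Y e b hw hT hn he hY
  set D := 2 ^ T with hD
  let G : ℕ → Ω → ℝ := fun x o => max 0 (lg (ms w (cl D n x Y) o / ms w (cl D n (x + 1) Y) o) -
    if Br w D n Y x o then (T : ℝ) else 0)
  let P : Ω → ℝ := fun o => mx (range (n + 1)) fun y =>
    b * y * T - e * n * T - lg (ms w un o / ms w (pr (cl D n y Y) un) o)
  have hG : ∀ x o, 0 ≤ G x o := fun x o => le_max_left _ _
  have hTr : (0 : ℝ) < T := by exact_mod_cast hT
  have hnr : (0 : ℝ) < n := by exact_mod_cast hn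
  have hE : E w (fun o => ∑ x ∈ range n, G x o + P o) ≤ 4 * n * tot w + Pen w un T n e b Y := by
    rw [E_add, E_sum]
    have : ∑ x ∈ range n, E w (G x) ≤ ∑ x ∈ range n, 4 * tot w :=
      sum_le_sum fun x hx => level hw T n x Y hT (mem_range.1 hx)
    rw [sum_const, card_range, nsmul_eq_mul] at this
    have h2 : E w P = Pen w un T n e b Y := rfl
    linarith
  have hM := markov hw (F := fun o => ∑ x ∈ range n, G x o + P o)
    (fun o _ => add_nonneg (sum_nonneg fun x _ => hG x o) (mx_nonneg _ _)) (e * n * T)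
  have hpos : 0 < e * n * T := by positivity
  refine le_trans (tot_res_mono hw
    (B := fun o => e * n * T ≤ ∑ x ∈ range n, G x o + P o) fun o p h => ?_) ?_
  · obtain ⟨y, hy, h⟩ := h
    have t : ∀ z, lg (tot w / ms w (cl D n z Y) o) ≤ ∑ x ∈ range z, G x o +
        T * (#((range z).filter fun x => Br w D n Y x o) : ℝ) := fun z => by
      induction z with
      | zero =>
        have : ms w (cl D n 0 Y) o = tot w := by
          unfold ms tot cl
          refine sum_congr rfl fun o' _ => ?_
          rw [if_pos]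
          rw [Nat.sub_zero, Nat.div_eq_of_lt (hY o'), Nat.div_eq_of_lt (hY o)]
        rw [this, div_self ((ms_pos hw un p).trans_eq (ms_un o)).ne', lg_one]
        simp
      | succ z ih =>
        have a0 : 0 < tot w := (ms_pos hw un p).trans_eq (ms_un o)
        have a1 := ms_pos hw (cl D n z Y) p
        have a2 := ms_pos hw (cl D n (z + 1) Y) p
        have m := le_max_right 0 (lg (ms w (cl D n z Y) o / ms w (cl D n (z + 1) Y) o) -
          if Br w D n Y z o then (T : ℝ) else 0)
        rw [lg_div a0 a1] at ih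
        rw [lg_div a0 a2, sum_range_succ, range_add_one, filter_insert]
        change _ ≤ G z o at m
        rw [lg_div a1 a2] at m
        split_ifs at m ⊢ with c
        · rw [card_insert_of_notMem (by simp)]
          push_cast
          linarith
        · linarith
    have e1 : ((range (n + 1)).filter fun x => Br w D n Y x o).filter (fun x => x < y) =
        (range y).filter fun x => Br w D n Y x o := by
      ext x
      simp only [mem_filter, mem_range]
      exact ⟨fun q => ⟨q.2, q.1.2⟩, fun q => ⟨⟨by omega, q.2⟩, q.1⟩⟩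
    rw [e1] at h
    have t1 := t y
    have t2 : ∑ x ∈ range y, G x o ≤ ∑ x ∈ range n, G x o :=
      sum_le_sum_of_subset_of_nonneg (range_subset_range.2 hy) fun x _ _ => hG x o
    have t3 : b * y * T - e * n * T - lg (ms w un o / ms w (pr (cl D n y Y) un) o) ≤ P o :=
      le_mx (fun y : ℕ => b * y * T - e * n * T - lg (ms w un o / ms w (pr (cl D n y Y) un) o))
        (mem_range.2 (by omega))
    rw [ms_un, ms_congr (g := pr (cl D n y Y) un) Det.fst (Det.rfl.pr Det.un)] at t3
    have t4 := mul_lt_mul_of_pos_left h hTr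
    nlinarith
  · have : 4 * tot w / (e * T) + Pen w un T n e b Y / (e * n * T) =
        (4 * n * tot w + Pen w un T n e b Y) / (e * n * T) := by field_simp
    rw [this, le_div_iff₀ hpos]
    linarith

end Pool.Agent.Lib.MP_108739_an.F
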