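import Pool.Agent.Lib.MP_108739_an.F.Defs

/-! Basic calculus of masses, expectations and entropies. -/

set_option linter.unusedSectionVars false
set_option linter.unusedVariables false

open Finset

namespace Pool.Agent.Lib.MP_108739_an.F
open Classical

variable {Ω α β γ δ ι : Type} [Fintype Ω] {w : Ω → ℝ}

/-! ### lg, mx -/
lemma lg_one : lg 1 = 0 := by simp [lg]
lemma lg_two : lg 2 = 1 := by simp [lg]
lemma lg_mul {x y : ℝ} (hx : 0 < x) (hy : 0 < y) : lg (x * y) = lg x + lg y := Real.logb_mul hx.ne' hy.ne'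
lemma lg_div {x y : ℝ} (hx : 0 < x) (hy : 0 < y) : lg (x / y) = lg x - lg y := Real.logb_div hx.ne' hy.ne'
lemma lg_mono {x y : ℝ} (hx : 0 < x) (h : x ≤ y) : lg x ≤ lg y := Real.logb_le_logb_of_le one_lt_two hx h
lemma lg_nonneg {x : ℝ} (h : 1 ≤ x) : 0 ≤ lg x := Real.logb_nonneg one_lt_two h
lemma lg_two_pow (n : ℕ) : lg (2 ^ n) = n := by simp [lg, Real.logb_pow]
lemma lg_two_rpow (x : ℝ) : lg ((2 : ℝ) ^ x) = x := Real.logb_rpow two_pos (by norm_num)
lemma two_rpow_lg {x : ℝ} (hx : 0 < x) : (2 : ℝ) ^ lg x = x := Real.rpow_logb two_pos (by norm_num) hx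
lemma lg_le_of_le_rpow {x y : ℝ} (hx : 0 < x) (h : x ≤ (2 : ℝ) ^ y) : lg x ≤ y := (lg_mono hx h).trans_eq (lg_two_rpow y)
lemma lg_le_sub {x : ℝ} (hx : 0 < x) : lg x ≤ (x - 1) / Real.log 2 := by
  unfold lg Real.logb
  exact div_le_div_of_nonneg_right (Real.log_le_sub_one_of_pos hx) (Real.log_nonneg one_le_two)
lemma lg_le_self {x : ℝ} (hx : 0 ≤ x) : lg x ≤ x := by
  rcases hx.eq_or_lt with h | h
  · simp [← h, lg]
  have h2 := Real.log_two_gt_d9
  have h3 := Real.log_le_sub_one_of_pos (half_pos h)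
  rw [Real.log_div h.ne' two_ne_zero] at h3
  have h4 := Real.log_two_lt_d9
  unfold lg Real.logb
  rw [div_le_iff₀ (by linarith)]
  nlinarith
lemma lg_one_add_le {x : ℝ} (hx : 0 ≤ x) : lg (1 + x) ≤ 2 * x := by
  have h2 := Real.log_two_gt_d9
  refine (lg_le_sub (by linarith)).trans ?_
  rw [div_le_iff₀ (by linarith)]
  nlinarith

lemma mx_nonneg (s : Finset ι) (F : ι → ℝ) : 0 ≤ mx s F := (le_fold_max _).2 (Or.inl le_rfl)
lemma le_mx {s : Finset ι} (F : ι → ℝ) {i : ι} (h : i ∈ s) : F i ≤ mx s F := (le_fold_max _).2 (Or.inr ⟨i, h, le_rfl⟩)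
lemma mx_le {s : Finset ι} {F : ι → ℝ} {c : ℝ} (h0 : 0 ≤ c) (h : ∀ i ∈ s, F i ≤ c) :
    mx s F ≤ c := (fold_max_le _).2 ⟨h0, h⟩
lemma mx_cases (s : Finset ι) (F : ι → ℝ) : mx s F = 0 ∨ ∃ i ∈ s, mx s F = F i := by
  rcases (le_fold_max (mx s F)).1 (le_refl (mx s F)) with h | ⟨i, hi, h⟩
  · exact Or.inl (le_antisymm h (mx_nonneg s F))
  · exact Or.inr ⟨i, hi, le_antisymm h (le_mx F hi)⟩
lemma mx_le_add {s : Finset ι} {F G : ι → ℝ} {c : ℝ} (h0 : 0 ≤ c) (h : ∀ i ∈ s, F i ≤ G i + c) :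
    mx s F ≤ mx s G + c :=
  mx_le (add_nonneg (mx_nonneg _ _) h0) fun i hi => (h i hi).trans (by linarith [le_mx G hi])
lemma mx_add_le {s : Finset ι} {F G K : ι → ℝ} (h : ∀ i ∈ s, F i ≤ G i + K i) :
    mx s F ≤ mx s G + mx s K :=
  mx_le (add_nonneg (mx_nonneg _ _) (mx_nonneg _ _)) fun i hi =>
    (h i hi).trans (add_le_add (le_mx G hi) (le_mx K hi))

/-! ### determination -/
omit [Fintype Ω] in
lemma Det.rfl {f : Ω → α} : Det f f := fun _ _ h => h
omit [Fintype Ω] in
lemma Det.trans {f : Ω → α} {g : Ω → β} {k : Ω → γ} (h1 : Det f g) (h2 : Det g k) : Det f k :=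
  fun o o' h => h2 o o' (h1 o o' h)
omit [Fintype Ω] in
lemma Det.fst {f : Ω → α} {g : Ω → β} : Det (pr f g) f := fun _ _ h => congrArg Prod.fst h
omit [Fintype Ω] in
lemma Det.snd {f : Ω → α} {g : Ω → β} : Det (pr f g) g := fun _ _ h => congrArg Prod.snd h
omit [Fintype Ω] in
lemma Det.pr {f : Ω → α} {g : Ω → β} {k : Ω → γ} (h1 : Det k f) (h2 : Det k g) :
    Det k (pr f g) := fun o o' h => Prod.ext (h1 o o' h) (h2 o o' h)
omit [Fintype Ω] in
lemma Det.un {f : Ω → α} : Det f un := fun _ _ _ => Eq.refl _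
omit [Fintype Ω] in
lemma Det.comp {f : Ω → α} (u : α → β) : Det f fun o => u (f o) := fun _ _ h => congrArg u h

/-! ### weights, expectations, masses -/
lemma Nn.res (hw : Nn w) (A : Ω → Prop) : Nn (res w A) := fun o => by
  unfold F.res; split_ifs; exacts [hw o, le_rfl]
lemma res_le (hw : Nn w) (A : Ω → Prop) (o : Ω) : res w A o ≤ w o := by
  unfold res; split_ifs; exacts [le_rfl, hw o]
lemma res_res (A B : Ω → Prop) : res (res w A) B = res w fun o => A o ∧ B o := by
  funext o; unfold res; by_cases a : A o <;> by_cases b : B o <;> simp [a, b]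
lemma res_pos {A : Ω → Prop} {o : Ω} (h : 0 < res w A o) : A o ∧ 0 < w o := by
  unfold res at h; split_ifs at h with a; exacts [⟨a, h⟩, absurd h (lt_irrefl _)]
lemma res_congr {A B : Ω → Prop} (h : ∀ o, A o ↔ B o) : res w A = res w B := by
  funext o; unfold res; simp only [h o]
lemma tot_nonneg (hw : Nn w) : 0 ≤ tot w := sum_nonneg fun o _ => hw o
lemma tot_res_le (hw : Nn w) (A : Ω → Prop) : tot (res w A) ≤ tot w := sum_le_sum fun o _ => res_le hw A o
lemma tot_res_mono (hw : Nn w) {A B : Ω → Prop} (h : ∀ o, 0 < w o → A o → B o) :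
    tot (res w A) ≤ tot (res w B) := sum_le_sum fun o _ => by
  rcases (hw.res A o).eq_or_lt with e | e
  · rw [← e]; exact hw.res B o
  · obtain ⟨a, p⟩ := res_pos e
    simp [res, a, h o p a]
lemma tot_res_add (A : Ω → Prop) : tot (res w A) + tot (res w fun o => ¬ A o) = tot w := by
  unfold tot res; rw [← sum_add_distrib]
  exact sum_congr rfl fun o _ => by by_cases a : A o <;> simp [a]
lemma tot_res_or (hw : Nn w) (A B : Ω → Prop) :
    tot (res w fun o => A o ∨ B o) ≤ tot (res w A) + tot (res w B) := by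
  unfold tot res; rw [← sum_add_distrib]
  refine sum_le_sum fun o _ => ?_
  by_cases a : A o <;> by_cases b : B o <;> simp [a, b, hw o]
lemma tot_res_exists (hw : Nn w) (s : Finset ι) (A : ι → Ω → Prop) :
    tot (res w fun o => ∃ i ∈ s, A i o) ≤ ∑ i ∈ s, tot (res w (A i)) := by
  unfold tot; rw [sum_comm]
  refine sum_le_sum fun o _ => ?_
  by_cases e : ∃ i ∈ s, A i o
  · obtain ⟨i, hi, a⟩ := id e
    refine le_trans ?_ (single_le_sum (f := fun i => res w (A i) o) (fun j _ => hw.res _ o) hi)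
    simp [res, a, e]
  · simp only [res, e, if_false]
    exact sum_nonneg fun j _ => hw.res (A j) o
lemma tot_split {τ : Ω → ι} {T : Finset ι} (h : ∀ o, τ o ∈ T) :
    tot w = ∑ t ∈ T, tot (res w fun o => τ o = t) := by
  unfold tot res; rw [sum_comm]
  exact sum_congr rfl fun o _ => by simp [h o]
lemma E_const (c : ℝ) : E w (fun _ => c) = c * tot w := by unfold E tot; rw [← sum_mul, mul_comm]
lemma E_add (F G : Ω → ℝ) : E w (fun o => F o + G o) = E w F + E w G := by
  unfold E; simp only [mul_add, sum_add_distrib]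
lemma E_sub (F G : Ω → ℝ) : E w (fun o => F o - G o) = E w F - E w G := by
  unfold E; simp only [mul_sub, sum_sub_distrib]
lemma E_mul (c : ℝ) (F : Ω → ℝ) : E w (fun o => c * F o) = c * E w F := by
  unfold E; rw [mul_sum]; exact sum_congr rfl fun o _ => by ring
lemma E_sum (s : Finset ι) (F : ι → Ω → ℝ) :
    E w (fun o => ∑ i ∈ s, F i o) = ∑ i ∈ s, E w (F i) := by
  unfold E; simp only [mul_sum]; rw [sum_comm]
lemma E_mono (hw : Nn w) {F G : Ω → ℝ} (h : ∀ o, 0 < w o → F o ≤ G o) : E w F ≤ E w G :=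
  sum_le_sum fun o _ => by
    rcases (hw o).eq_or_lt with e | e
    · simp [← e]
    · exact mul_le_mul_of_nonneg_left (h o e) e.le
lemma E_congr (hw : Nn w) {F G : Ω → ℝ} (h : ∀ o, 0 < w o → F o = G o) : E w F = E w G :=
  le_antisymm (E_mono hw fun o p => (h o p).le) (E_mono hw fun o p => (h o p).ge)
lemma E_nonneg (hw : Nn w) {F : Ω → ℝ} (h : ∀ o, 0 < w o → 0 ≤ F o) : 0 ≤ E w F := by
  simpa [E_const] using E_mono hw (F := fun _ => 0) h
lemma E_le_const (hw : Nn w) {F : Ω → ℝ} {c : ℝ} (h : ∀ o, 0 < w o → F o ≤ c) :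
    E w F ≤ c * tot w := (E_mono hw h).trans_eq (E_const c)
lemma E_res_le (hw : Nn w) (A : Ω → Prop) {F : Ω → ℝ} (h : ∀ o, 0 < w o → 0 ≤ F o) :
    E (res w A) F ≤ E w F := sum_le_sum fun o _ => by
  rcases (hw o).eq_or_lt with e | e
  · simp [res, ← e]
  · exact mul_le_mul_of_nonneg_right (res_le hw A o) (h o e)
lemma E_res_add (A : Ω → Prop) (F : Ω → ℝ) :
    E (res w A) F + E (res w fun o => ¬ A o) F = E w F := by
  unfold E res; rw [← sum_add_distrib]
  exact sum_congr rfl fun o _ => by by_cases a : A o <;> simp [a]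
lemma E_split {τ : Ω → ι} {T : Finset ι} (h : ∀ o, τ o ∈ T) (F : Ω → ℝ) :
    E w F = ∑ t ∈ T, E (res w fun o => τ o = t) F := by
  unfold E res; rw [sum_comm]
  exact sum_congr rfl fun o _ => by simp [h o]
lemma E_ind (A : Ω → Prop) : E w (fun o => if A o then 1 else 0) = tot (res w A) := by
  unfold E tot res; exact sum_congr rfl fun o _ => by by_cases a : A o <;> simp [a]
lemma markov (hw : Nn w) {F : Ω → ℝ} (h : ∀ o, 0 < w o → 0 ≤ F o) (c : ℝ) :
    c * tot (res w fun o => c ≤ F o) ≤ E w F := by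
  rw [← E_const]
  exact (E_mono (hw.res _) fun o p => (res_pos p).1).trans (E_res_le hw _ h)
lemma E_sqrt_le (hw : Nn w) {F : Ω → ℝ} (h : ∀ o, 0 < w o → 0 ≤ F o) :
    E w (fun o => √(F o)) ≤ √(tot w * E w F) := by
  refine Real.le_sqrt_of_sq_le ?_
  have := sum_mul_sq_le_sq_mul_sq univ (fun o => √(w o)) fun o => √(w o) * √(F o)
  have e1 : ∀ o, √(w o) * (√(w o) * √(F o)) = w o * √(F o) := fun o => by
    rw [← mul_assoc, Real.mul_self_sqrt (hw o)]
  have e2 : ∀ o, √(w o) ^ 2 = w o := fun o => Real.sq_sqrt (hw o)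
  have e3 : ∀ o, (√(w o) * √(F o)) ^ 2 = w o * F o := fun o => by
    rw [mul_pow, e2]
    rcases (hw o).eq_or_lt with e | e
    · simp [← e]
    · rw [Real.sq_sqrt (h o e)]
  simp only [e1, e2, e3] at this
  exact this

lemma ms_eq_tot (f : Ω → α) (o : Ω) : ms w f o = tot (res w fun o' => f o' = f o) := rfl
lemma ms_nonneg (hw : Nn w) (f : Ω → α) (o : Ω) : 0 ≤ ms w f o := tot_nonneg (hw.res _)
lemma le_ms (hw : Nn w) (f : Ω → α) (o : Ω) : w o ≤ ms w f o := by
  have := single_le_sum (f := res w fun o' => f o' = f o) (fun j _ => hw.res _ j) (mem_univ o)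
  rw [res, if_pos rfl] at this
  exact this
lemma ms_pos (hw : Nn w) (f : Ω → α) {o : Ω} (h : 0 < w o) : 0 < ms w f o := h.trans_le (le_ms hw f o)
lemma ms_le_tot (hw : Nn w) (f : Ω → α) (o : Ω) : ms w f o ≤ tot w := tot_res_le hw _
lemma ms_un (o : Ω) : ms w un o = tot w := by simp [ms, tot]
lemma ms_det (f : Ω → α) : Det f (ms w f) := fun o o' h => by unfold ms; rw [h]
lemma ms_mono (hw : Nn w) {f : Ω → α} {g : Ω → β} (h : Det g f) (o : Ω) :
    ms w g o ≤ ms w f o := tot_res_mono hw fun o' _ e => h o' o e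
lemma ms_congr {f : Ω → α} {g : Ω → β} (h : Det g f) (h' : Det f g) : ms w g = ms w f := by
  funext o
  rw [ms_eq_tot, ms_eq_tot, res_congr fun o' => ⟨h o' o, h' o' o⟩]
lemma ms_res_le (hw : Nn w) (A : Ω → Prop) (f : Ω → α) (o : Ω) :
    ms (res w A) f o ≤ ms w f o := by
  rw [ms_eq_tot, res_res]; exact tot_res_mono hw fun _ _ e => e.2
/-- restriction to a class of `τ` is conditioning on `τ` -/
lemma ms_res_eq (τ : Ω → ι) (f : Ω → α) (o : Ω) :
    ms (res w fun o' => τ o' = τ o) f o = ms w (pr f τ) o := by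
  rw [ms_eq_tot, res_res, ms_eq_tot]
  exact congrArg tot (res_congr fun o' => by simp [pr, and_comm])
lemma ms_res_det {A : Ω → Prop} {f : Ω → α} (h : Det f A) {o : Ω} (ho : A o) :
    ms (res w A) f o = ms w f o := by
  rw [ms_eq_tot, res_res, ms_eq_tot]
  exact congrArg tot (res_congr fun o' => ⟨fun e => e.2, fun e => ⟨(h o' o e).symm ▸ ho, e⟩⟩)
/-- averaging over the fibres of `g` -/
lemma E_fib (hw : Nn w) (g : Ω → β) (F : Ω → ℝ) :
    E w (fun o => E (res w fun o' => g o' = g o) F / ms w g o) = E w F := by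
  have : ∀ o, w o * (E (res w fun o' => g o' = g o) F / ms w g o) =
      ∑ o', if g o = g o' then w o * (w o' * F o' / ms w g o') else 0 := fun o => by
    unfold E res
    rw [sum_div, mul_sum]
    refine sum_congr rfl fun o' _ => ?_
    by_cases e : g o' = g o
    · simp [e, ms_det g o' o e]
    · simp [e, Ne.symm e]
  unfold E at this ⊢
  simp only [this]
  rw [sum_comm]
  refine sum_congr rfl fun o' _ => ?_
  have : ∑ o, (if g o = g o' then w o * (w o' * F o' / ms w g o') else 0) =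
      ms w g o' * (w o' * F o' / ms w g o') := by
    conv_rhs => rw [ms, sum_mul]
    exact sum_congr rfl fun o _ => by split_ifs <;> simp [ms]
  rw [this]
  rcases (hw o').eq_or_lt with e | e
  · simp [← e]
  · have := (ms_pos hw g e).ne'
    field_simp
/-- a kernel with total mass at most one -/
lemma mem_vals {f : Ω → α} {g : Ω → β} {o : Ω} {v : α} :
    v ∈ vals w f g o ↔ ∃ o', 0 < w o' ∧ g o' = g o ∧ f o' = v := by
  simp only [vals, mem_image, mem_filter, mem_univ, true_and, and_assoc]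

lemma E_div_ms (hw : Nn w) (φ : Ω → α) (F : α → ℝ) :
    E w (fun o => F (φ o) / ms w φ o) = ∑ v ∈ (univ.filter fun o => 0 < w o).image φ, F v := by
  have h1 : E w (fun o => F (φ o) / ms w φ o) =
      ∑ o ∈ univ.filter fun o => 0 < w o, w o * (F (φ o) / ms w φ o) := by
    unfold E
    refine (sum_filter_of_ne fun o _ h => ?_).symm
    exact lt_of_le_of_ne (hw o) fun e => h (by rw [← e, zero_mul])
  rw [h1, ← sum_fiberwise_of_maps_to (g := φ) fun o ho => mem_image_of_mem φ ho]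
  refine sum_congr rfl fun v hv => ?_
  obtain ⟨o, ho, rfl⟩ := mem_image.1 hv
  have p := (mem_filter.1 ho).2
  rw [sum_congr rfl (g := fun o' => w o' * (F (φ o) / ms w φ o)) fun o' h' => by
    rw [ms_det φ o' o (mem_filter.1 h').2, (mem_filter.1 h').2], ← sum_mul]
  have : ∑ o' ∈ (univ.filter fun o => 0 < w o).filter fun o' => φ o' = φ o, w o' = ms w φ o := by
    rw [filter_comm, sum_filter_of_ne fun o' _ h => lt_of_le_of_ne (hw o') (Ne.symm h), sum_filter]
    rfl
  rw [this]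
  have := (ms_pos hw φ p).ne'
  field_simp

lemma E_ker' (hw : Nn w) (f : Ω → α) (g : Ω → β) (Q : α → Ω → ℝ) (hQ : ∀ v, Det g (Q v))
    (h1 : ∀ o, 0 < w o → ∑ v ∈ vals w f g o, Q v o ≤ 1) :
    E w (fun o => Q (f o) o * ms w g o / ms w (pr f g) o) ≤ tot w := by
  rw [← E_fib hw g, ← one_mul (tot w)]
  refine E_le_const hw fun o p => ?_
  rw [div_le_one (ms_pos hw _ p), E_congr (hw.res _)
    (G := fun o' => Q (f o') o * ms w g o / ms (res w fun o' => g o' = g o) f o'),
    E_div_ms (hw.res _) f fun v => Q v o * ms w g o, ← sum_mul]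
  · refine mul_le_of_le_one_left (ms_nonneg hw _ _) (le_trans (le_of_eq ?_) (h1 o p))
    unfold vals
    congr 2
    ext o'
    simp only [mem_filter, mem_univ, true_and]
    exact ⟨fun q => (res_pos q).symm, fun q => by simp [res, q.1, q.2]⟩
  · intro o' q
    have e := (res_pos q).1
    rw [hQ _ o' o e, ms_det g o' o e, ← e, ms_res_eq]

lemma sum_mass_le (hw : Nn w) (f : Ω → α) (g : Ω → β) (s : Finset α) (o : Ω) :
    ∑ v ∈ s, tot (res w fun o' => f o' = v ∧ g o' = g o) ≤ ms w g o := by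
  unfold tot ms res
  rw [sum_comm]
  refine sum_le_sum fun o' _ => ?_
  by_cases e : g o' = g o
  · simp only [e, and_true, if_true, sum_ite_eq]
    split_ifs; exacts [le_rfl, hw o']
  · simp [e]

lemma E_ker (hw : Nn w) (f : Ω → α) (g : Ω → β) (Q : α → β → ℝ) (h0 : ∀ v k, 0 ≤ Q v k)
    (h1 : ∀ o, 0 < w o → ∑ v ∈ vals w f g o, Q v (g o) ≤ 1) :
    E w (fun o => Q (f o) (g o) * ms w g o / ms w (pr f g) o) ≤ tot w := E_ker' hw f g (fun v o => Q v (g o)) (fun v _ _ e => congrArg (Q v) e) h1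

/-! ### entropy -/
lemma H_nonneg (hw : Nn w) (f : Ω → α) (g : Ω → β) : 0 ≤ H w f g := E_nonneg hw fun o p =>
  lg_nonneg ((one_le_div (ms_pos hw _ p)).2 (ms_mono hw Det.snd o))
lemma H_chain (hw : Nn w) (f : Ω → α) (g : Ω → β) (k : Ω → γ) :
    H w (pr f g) k = H w f k + H w g (pr f k) := by
  unfold H
  rw [← E_add, ms_congr (g := pr (pr f g) k) (f := pr g (pr f k))
    ((Det.fst.trans Det.snd).pr ((Det.fst.trans Det.fst).pr Det.snd))
    (((Det.snd.trans Det.fst).pr Det.fst).pr (Det.snd.trans Det.snd))]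
  refine E_congr hw fun o p => ?_
  rw [lg_div (ms_pos hw _ p) (ms_pos hw _ p), lg_div (ms_pos hw _ p) (ms_pos hw _ p),
    lg_div (ms_pos hw _ p) (ms_pos hw _ p)]
  ring
lemma H_congr {f : Ω → α} {f' : Ω → β} {g : Ω → γ} {g' : Ω → δ} (h1 : Det (pr f g) f')
    (h2 : Det (pr f' g') f) (h3 : Det g g') (h4 : Det g' g) : H w f g = H w f' g' := by
  unfold H
  rw [ms_congr h3 h4, ms_congr (h1.pr (Det.snd.trans h3)) (h2.pr (Det.snd.trans h4))]
lemma H_det {f : Ω → α} {g : Ω → β} (hw : Nn w) (h : Det g f) : H w f g = 0 := by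
  unfold H
  rw [ms_congr (g := pr f g) Det.snd (h.pr Det.rfl), E_congr hw (G := fun _ => 0), E_const,
    zero_mul]
  intro o p
  rw [div_self (ms_pos hw _ p).ne', lg_one]
lemma gibbs' (hw : Nn w) (f : Ω → α) (g : Ω → β) (Q : α → Ω → ℝ) (hQ : ∀ v, Det g (Q v))
    (hp : ∀ o, 0 < w o → 0 < Q (f o) o) (h1 : ∀ o, 0 < w o → ∑ v ∈ vals w f g o, Q v o ≤ 1) :
    H w f g ≤ E w fun o => - lg (Q (f o) o) := by
  have k := E_ker' hw f g Q hQ h1
  have l2 : 0 < Real.log 2 := Real.log_pos one_lt_two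
  have : H w f g ≤ E w fun o => - lg (Q (f o) o) + (Real.log 2)⁻¹ *
      (Q (f o) o * ms w g o / ms w (pr f g) o - 1) := E_mono hw fun o p => by
    have a := div_pos (ms_pos hw g p) (ms_pos hw (pr f g) p)
    have b := lg_le_sub (mul_pos (hp o p) a)
    rw [lg_mul (hp o p) a, div_eq_inv_mul _ (Real.log 2)] at b
    rw [mul_div_assoc]
    linarith
  rw [E_add, E_mul, E_sub, E_const] at this
  have := mul_nonpos_of_nonneg_of_nonpos (inv_pos.2 l2).le (sub_nonpos.2 k)
  linarith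
lemma H_le_cross {w' : Ω → ℝ} (hw : Nn w) (hw' : Nn w') (hs : ∀ o, 0 < w o → 0 < w' o) (f : Ω → α)
    {g : Ω → β} {g' : Ω → γ} (h : Det g g') :
    H w f g ≤ E w fun o => lg (ms w' g' o / ms w' (pr f g') o) := by
  have e : ∀ o, tot (res w' fun o' => f o' = f o ∧ g' o' = g' o) = ms w' (pr f g') o := fun o =>
    congrArg tot (res_congr fun o' => by simp [pr])
  refine (gibbs' hw f g (fun v o => tot (res w' fun o' => f o' = v ∧ g' o' = g' o) / ms w' g' o)
    (fun v o o' e => by simp only [h o o' e, ms_det g' o o' (h o o' e)]) (fun o p => ?_)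
    fun o p => ?_).trans_eq (E_congr hw fun o p => ?_)
  · rw [e]; exact div_pos (ms_pos hw' _ (hs o p)) (ms_pos hw' _ (hs o p))
  · rw [← sum_div, div_le_one (ms_pos hw' _ (hs o p))]; exact sum_mass_le hw' f g' _ o
  · rw [e, lg_div (ms_pos hw' _ (hs o p)) (ms_pos hw' _ (hs o p)),
      lg_div (ms_pos hw' _ (hs o p)) (ms_pos hw' _ (hs o p))]
    ring
lemma gibbs (hw : Nn w) (f : Ω → α) (g : Ω → β) (Q : α → β → ℝ) (h0 : ∀ v k, 0 ≤ Q v k)
    (hp : ∀ o, 0 < w o → 0 < Q (f o) (g o))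
    (h1 : ∀ o, 0 < w o → ∑ v ∈ vals w f g o, Q v (g o) ≤ 1) :
    H w f g ≤ E w fun o => - lg (Q (f o) (g o)) := gibbs' hw f g (fun v o => Q v (g o)) (fun v _ _ e => congrArg (Q v) e) hp h1
/-- less information on the left, more information on the right -/
lemma H_mono (hw : Nn w) {f : Ω → α} {f' : Ω → β} {g : Ω → γ} {g' : Ω → δ}
    (h1 : Det (pr f' g) f) (h2 : Det g g') : H w f g ≤ H w f' g' := by
  refine le_trans (b := H w f' g) (E_mono hw fun o p => ?_) ?_
  · exact lg_mono (div_pos (ms_pos hw _ p) (ms_pos hw _ p)) (div_le_div_of_nonneg_left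
      (ms_nonneg hw _ o) (ms_pos hw _ p) (ms_mono hw (h1.pr Det.snd) o))
  · exact H_le_cross hw hw (fun _ p => p) f' h2
lemma H_tri (hw : Nn w) (f : Ω → α) (g : Ω → β) (k : Ω → γ) :
    H w f k ≤ H w g k + H w f (pr g k) := by
  rw [← H_chain hw]
  exact H_mono hw (Det.fst.trans Det.snd) Det.rfl
lemma H_le_card (hw : Nn w) {f : Ω → α} {g : Ω → β} {K : ℝ} (hK : 1 ≤ K)
    (h : ∀ o, 0 < w o → (#(vals w f g o) : ℝ) ≤ K) : H w f g ≤ lg K * tot w := by
  have k0 : 0 < K := by linarith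
  refine (gibbs hw f g (fun _ _ => 1 / K) (fun _ _ => by positivity) (fun _ _ => by positivity)
    fun o p => ?_).trans_eq ?_
  · rw [sum_const, nsmul_eq_mul, mul_one_div, div_le_one k0]; exact h o p
  · rw [E_const, lg_div one_pos k0, lg_one]; ring
lemma H_le_int (hw : Nn w) {F G : Ω → ℤ} {g : Ω → β} {K : ℕ} (hK : 1 ≤ K) (hG : Det g G)
    (h : ∀ o, 0 < w o → G o ≤ F o ∧ F o < G o + K) : H w F g ≤ lg K * tot w := by
  refine H_le_card hw (by exact_mod_cast hK) fun o _ => ?_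
  have : vals w F g o ⊆ Ico (G o) (G o + K) := by
    intro v hv
    obtain ⟨o', p, e, rfl⟩ := mem_vals.1 hv
    rw [← hG o' o e]; exact mem_Ico.2 (h o' p)
  have := card_le_card this
  simp only [Int.card_Ico, add_sub_cancel_left, Int.toNat_natCast] at this
  exact_mod_cast this
lemma H_le_mem (hw : Nn w) {τ : Ω → ι} {T : Finset ι} (h : ∀ o, τ o ∈ T) (g : Ω → β) :
    H w τ g ≤ lg #T * tot w := by
  rcases T.eq_empty_or_nonempty with rfl | hT
  · have : IsEmpty Ω := ⟨fun o => by simpa using h o⟩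
    simp [H, E, tot]
  refine H_le_card hw (by exact_mod_cast hT.card_pos) fun o _ => ?_
  exact_mod_cast card_le_card fun v hv => by
    obtain ⟨o', _, rfl⟩ := mem_image.1 hv
    exact h o'
lemma H_ge (hw : Nn w) {f : Ω → α} {g : Ω → β} {c : ℝ}
    (h : ∀ o, 0 < w o → (2 : ℝ) ^ c * ms w (pr f g) o ≤ ms w g o) : c * tot w ≤ H w f g := by
  rw [← E_const]
  refine E_mono hw fun o p => ?_
  rw [← lg_two_rpow c]
  exact lg_mono (by positivity) ((le_div_iff₀ (ms_pos hw _ p)).2 (h o p))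
lemma H_split {τ : Ω → ι} {T : Finset ι} (h : ∀ o, τ o ∈ T) (f : Ω → α) (g : Ω → β) :
    H w f (pr g τ) = ∑ t ∈ T, H (res w fun o => τ o = t) f g := by
  unfold H
  rw [E_split h]
  refine sum_congr rfl fun t _ => sum_congr rfl fun o _ => ?_
  by_cases e : τ o = t
  · subst e
    beta_reduce
    rw [ms_res_eq, ms_res_eq, ms_congr (g := pr (pr f g) τ) (f := pr f (pr g τ))
      ((Det.fst.trans Det.fst).pr ((Det.fst.trans Det.snd).pr Det.snd))
      ((Det.fst.pr (Det.snd.trans Det.fst)).pr (Det.snd.trans Det.snd))]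
  · simp [res, e]
lemma H_le_split (hw : Nn w) {τ : Ω → ι} {T : Finset ι} (h : ∀ o, τ o ∈ T) (f : Ω → α)
    (g : Ω → β) : H w f g ≤ ∑ t ∈ T, H (res w fun o => τ o = t) f g + lg #T * tot w := by
  rw [← H_split h]
  have h1 := H_tri hw f τ g
  have h2 := H_le_mem hw h g
  have h3 : H w f (pr τ g) ≤ H w f (pr g τ) := H_mono hw Det.fst (Det.snd.pr Det.fst)
  linarith
lemma H_split_ev (A : Ω → Prop) (f : Ω → α) (g : Ω → β) :
    H w f (pr g A) = H (res w A) f g + H (res w fun o => ¬ A o) f g := by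
  rw [H_split (τ := A) (T := {True, False}) fun o => by by_cases a : A o <;> simp [a],
    sum_pair (by simp), res_congr (B := A) fun o => by simp,
    res_congr (A := fun o => A o = False) (B := fun o => ¬ A o) fun o => by simp]
lemma H_res_add_le (hw : Nn w) (A : Ω → Prop) (f : Ω → α) (g : Ω → β) :
    H (res w A) f g + H (res w fun o => ¬ A o) f g ≤ H w f g := by
  rw [← H_split_ev]; exact H_mono hw Det.fst Det.fst
lemma H_le_res_add (hw : Nn w) (A : Ω → Prop) (f : Ω → α) (g : Ω → β) :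
    H w f g ≤ H (res w A) f g + H (res w fun o => ¬ A o) f g + tot w := by
  rw [← H_split_ev]
  have h1 := H_tri hw f A g
  have h2 := H_le_mem hw (τ := A) (T := {True, False}) (fun o => by
    by_cases a : A o <;> simp [a]) g
  have h3 : H w f (pr A g) ≤ H w f (pr g A) := H_mono hw Det.fst (Det.snd.pr Det.fst)
  rw [card_pair (by simp), Nat.cast_ofNat, lg_two] at h2
  linarith
/-- the entropy on an event is at most the cross entropy with the original masses -/
lemma H_res_le_E (hw : Nn w) (A : Ω → Prop) (f : Ω → α) (g : Ω → β) :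
    H (res w A) f g ≤ E (res w A) fun o => lg (ms w g o / ms w (pr f g) o) :=
  H_le_cross (hw.res A) hw (fun _ p => (res_pos p).2) f Det.rfl
/-- conditioning on `k` is averaging over its fibres -/
lemma H_fib (hw : Nn w) (f : Ω → α) (g : Ω → β) (k : Ω → γ) :
    H w f (pr g k) = E w fun o => H (res w fun o' => k o' = k o) f g / ms w k o := by
  unfold H
  rw [← E_fib hw k]
  refine E_congr hw fun o _ => ?_
  congr 1
  refine E_congr (hw.res _) fun o' p => ?_
  rw [← (res_pos p).1, ms_res_eq, ms_res_eq, ms_congr (g := pr (pr f g) k) (f := pr f (pr g k))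
    ((Det.fst.trans Det.fst).pr ((Det.fst.trans Det.snd).pr Det.snd))
    ((Det.fst.pr (Det.snd.trans Det.fst)).pr (Det.snd.trans Det.snd))]

lemma I_nonneg (hw : Nn w) (f : Ω → α) (g : Ω → β) (k : Ω → γ) : 0 ≤ I w f g k := sub_nonneg.2 (H_mono hw Det.fst Det.snd)
lemma I_symm (hw : Nn w) (f : Ω → α) (g : Ω → β) (k : Ω → γ) : I w f g k = I w g f k := by
  have h1 := H_chain hw f g k
  have h2 := H_chain hw g f k
  have h3 : H w (pr f g) k = H w (pr g f) k :=
    H_congr (Det.fst.trans (Det.snd.pr Det.fst)) (Det.fst.trans (Det.snd.pr Det.fst)) Det.rfl Det.rfl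
  unfold I; linarith
lemma I_le_H (hw : Nn w) (f : Ω → α) (g : Ω → β) (k : Ω → γ) : I w f g k ≤ H w f k := sub_le_self _ (H_nonneg hw _ _)
lemma I_chain (hw : Nn w) (f : Ω → α) (g : Ω → β) (g' : Ω → γ) (k : Ω → δ) :
    I w f (pr g g') k = I w f g k + I w f g' (pr g k) := by
  have : H w f (pr (pr g g') k) = H w f (pr g' (pr g k)) := H_congr Det.fst Det.fst
    ((Det.fst.trans Det.snd).pr ((Det.fst.trans Det.fst).pr Det.snd))
    (((Det.snd.trans Det.fst).pr Det.fst).pr (Det.snd.trans Det.snd))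
  unfold I; linarith
/-- data processing in both arguments -/
lemma I_mono (hw : Nn w) {α' β' : Type} {f : Ω → α} {f' : Ω → α'} {g : Ω → β} {g' : Ω → β'}
    {k : Ω → γ} (h1 : Det (pr f' k) f) (h2 : Det (pr g' k) g) : I w f g k ≤ I w f' g' k := by
  have a : I w f g k ≤ I w f g' k := sub_le_sub_left (H_mono hw Det.fst (h2.pr Det.snd)) _
  have b : I w g' f k ≤ I w g' f' k := sub_le_sub_left (H_mono hw Det.fst (h1.pr Det.snd)) _
  rw [I_symm hw g' f, I_symm hw g' f'] at b
  exact a.trans b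
lemma I_congr {f : Ω → α} {g : Ω → β} {k : Ω → γ} {k' : Ω → δ} (h : Det k k') (h' : Det k' k) :
    I w f g k = I w f g k' := by
  unfold I
  rw [H_congr (f := f) (f' := f) Det.fst Det.fst h h', H_congr (f := f) (f' := f) (g := pr g k)
    (g' := pr g k') Det.fst Det.fst (Det.fst.pr (Det.snd.trans h)) (Det.fst.pr (Det.snd.trans h'))]
/-- one may condition on more if it is a function of the second argument -/
lemma I_cond_le (hw : Nn w) {f : Ω → α} {g : Ω → β} {k : Ω → γ} {k' : Ω → δ} (h : Det k' k)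
    (h' : Det (pr g k) k') : I w f g k' ≤ I w f g k :=
  sub_le_sub (H_mono hw Det.fst h) (H_mono hw Det.fst (Det.fst.pr h'))
lemma I_split {τ : Ω → ι} {T : Finset ι} (h : ∀ o, τ o ∈ T) (f : Ω → α) (g : Ω → β) (k : Ω → γ) :
    I w f g (pr k τ) = ∑ t ∈ T, I (res w fun o => τ o = t) f g k := by
  unfold I
  rw [sum_sub_distrib, ← H_split h, ← H_split h]
  congr 1
  exact H_congr Det.fst Det.fst ((Det.fst.pr (Det.snd.trans Det.fst)).pr (Det.snd.trans Det.snd))
    ((Det.fst.trans Det.fst).pr ((Det.fst.trans Det.snd).pr Det.snd))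
/-- events that depend on the first argument -/
lemma I_res_le (hw : Nn w) {A : Ω → Prop} {f : Ω → α} (g : Ω → β) {k : Ω → γ}
    (h : Det (pr f k) A) : I (res w A) f g k ≤ I w f g k := by
  have h1 : I w g f (pr k A) ≤ I w g f k := I_cond_le hw Det.fst (Det.snd.pr h)
  have h2 : I w g f (pr k A) = I (res w A) g f k + I (res w fun o => ¬ A o) g f k := by
    have a := H_split_ev (w := w) A g k
    have b := H_split_ev (w := w) A g (pr f k)
    have c : H w g (pr f (pr k A)) = H w g (pr (pr f k) A) := H_congr Det.fst Det.fst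
      ((Det.fst.pr (Det.snd.trans Det.fst)).pr (Det.snd.trans Det.snd))
      ((Det.fst.trans Det.fst).pr ((Det.fst.trans Det.snd).pr Det.snd))
    unfold I; linarith
  have h3 := I_nonneg (hw.res fun o => ¬ A o) g f k
  rw [I_symm (hw.res A), I_symm hw f]
  linarith

end Pool.Agent.Lib.MP_108739_an.F
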