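import Pool.Agent.Lib.MP_108739_an.F.AbcDefs
import Pool.Agent.Lib.MP_108739_an.F.Ent1

/-! The ABC estimate in the presence of noise variables. -/

open Finset

namespace Pool.Agent.Lib.MP_108739_an.F
open Classical

lemma abc_Pen_nonneg {Ω β : Type} [Fintype Ω] {w : Ω → ℝ} (hw : Nn w) (g : Ω → β) (T n : ℕ)
    (e b : ℝ) (Y : Ω → ℕ) : 0 ≤ Pen w g T n e b Y :=
  E_nonneg hw fun _ _ => mx_nonneg _ _

/-- on a good point most levels are full -/
lemma abc_point {Ω : Type} [Fintype Ω] (A : Ab Ω) (w : Ω → ℝ) (b c m e ρ : ℝ) (p : Ω)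
    (hrm : ∀ (S₁ S₂ V : Finset ℕ),
      S₁ ⊆ range (A.n + 1) → S₂ ⊆ range (A.n + 1) → V ⊆ range (A.n + 1) →
      (∀ y : ℕ, y ≤ A.n → b * y - 3 * e * A.n ≤ ((S₁.filter (fun x => x < y)).card : ℝ)) →
      (∀ y : ℕ, y ≤ A.n → c * y - 3 * e * A.n ≤ ((S₂.filter (fun x => x < y)).card : ℝ)) →
      ((((S₁ ×ˢ S₂).filter (fun z => z.1 + z.2 + 1 ∈ V ∨ z.1 + z.2 + 2 ∈ V)).card : ℝ)
        ≤ ρ * (A.n : ℝ) ^ 2) → m * A.n ≤ ((range (A.n + 1) \ V).card : ℝ))
    (h1 : ¬ ∃ y : ℕ, y ≤ A.n ∧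
      (#(((range (A.n + 1)).filter fun x => Br w A.D A.n A.Y x p).filter fun x => x < y) : ℝ) <
        b * y - 3 * e * A.n)
    (h2 : ¬ ∃ y : ℕ, y ≤ A.n ∧
      (#(((range (A.n + 1)).filter fun x => Br w A.D A.n A.W x p).filter fun x => x < y) : ℝ) <
        c * y - 3 * e * A.n)
    (h3 : ¬ ρ * (A.n : ℝ) ^ 2 ≤ (#((range (A.n + 1) ×ˢ range (A.n + 1)).filter fun z =>
      Br w A.D A.n A.Y z.1 p ∧ Br w A.D A.n A.W z.2 p ∧
      ((z.1 + z.2 + 1 ≤ A.n ∧ ¬ A.Full w (z.1 + z.2 + 1) p) ∨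
        (z.1 + z.2 + 2 ≤ A.n ∧ ¬ A.Full w (z.1 + z.2 + 2) p))) : ℝ)) :
    m * A.n ≤ (#((range (A.n + 1)).filter fun v => A.Full w v p) : ℝ) := by
  have key := hrm ((range (A.n + 1)).filter fun x => Br w A.D A.n A.Y x p)
    ((range (A.n + 1)).filter fun x => Br w A.D A.n A.W x p)
    ((range (A.n + 1)).filter fun v => ¬ A.Full w v p)
    (filter_subset _ _) (filter_subset _ _) (filter_subset _ _)
    (fun y hy => by
      by_contra hc
      exact h1 ⟨y, hy, lt_of_not_ge hc⟩)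
    (fun y hy => by
      by_contra hc
      exact h2 ⟨y, hy, lt_of_not_ge hc⟩)
    (by
      refine le_trans ?_ (le_of_lt (lt_of_not_ge h3))
      refine Nat.cast_le.2 (card_le_card ?_)
      intro z hz
      simp only [mem_filter, mem_product, mem_range] at hz ⊢
      obtain ⟨⟨⟨a1, a2⟩, a3, a4⟩, a5⟩ := hz
      refine ⟨⟨a1, a3⟩, a2, a4, ?_⟩
      rcases a5 with ⟨a5, a6⟩ | ⟨a5, a6⟩
      · exact Or.inl ⟨by omega, a6⟩
      · exact Or.inr ⟨by omega, a6⟩)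
  refine le_trans key (le_of_eq ?_)
  congr 2
  ext v
  simp only [mem_sdiff, mem_filter, not_and, not_not]
  constructor
  · rintro ⟨a1, a2⟩; exact ⟨a1, a2 a1⟩
  · rintro ⟨a1, a2⟩; exact ⟨a1, fun _ => a2⟩

theorem core (hS : SumStmt) (hB : BranchStmt) (hE : EndStmt) (hR : RmStmt) : CoreStmt := by
  intro b₀ ε hb hε
  obtain ⟨e', ρ', he', hρ', hrm⟩ := hR b₀ (ε / 4) hb (by positivity)
  set e : ℝ := e' / 3 with he_def
  have he : 0 < e := by positivity
  obtain ⟨T, hT⟩ := exists_nat_ge (max 4 (max (160 / (e * ε)) (10 / ε)))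
  have hT4 : (4 : ℝ) ≤ T := le_trans (le_max_left _ _) hT
  have hTa : 160 / (e * ε) ≤ T := le_trans (le_trans (le_max_left _ _) (le_max_right _ _)) hT
  have hTb : 10 / ε ≤ T := le_trans (le_trans (le_max_right _ _) (le_max_right _ _)) hT
  have hT1 : 1 ≤ T := by
    have : (1 : ℝ) ≤ T := by linarith
    exact_mod_cast this
  have hT0 : (0 : ℝ) < T := by linarith
  have hD2 : 2 ≤ 2 ^ T := by
    calc 2 = 2 ^ 1 := by norm_num
      _ ≤ 2 ^ T := Nat.pow_le_pow_right (by norm_num) hT1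
  obtain ⟨r, n₀, η, hr, hη, hsum⟩ := hS (2 ^ T) (ρ' * (ε / 40)) hD2 (by positivity)
  set η' : ℝ := min 1 (min η (e * ε / 40)) with hη'_def
  have hη' : 0 < η' := lt_min one_pos (lt_min hη (by positivity))
  have hη1 : η' ≤ 1 := min_le_left _ _
  have hη2 : η' ≤ η := le_trans (min_le_right _ _) (min_le_left _ _)
  have hη3 : η' ≤ e * ε / 40 := le_trans (min_le_right _ _) (min_le_right _ _)
  have hK1 : 1 ≤ (T : ℝ) / η' := by
    rw [le_div_iff₀ hη']; linarith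
  refine ⟨T, r, e, T / η', 3 + (n₀ + 1) * T, hT1, hr, he, by positivity, by positivity, ?_⟩
  intro Ω _ A w b c hA hAD hAr hb0 hc0
  have hw := hA.nn
  have ht := tot_nonneg hw
  have hH := H_nonneg hw A.Z A.W
  have hJ1 : 0 ≤ A.J1 w := I_nonneg hw _ _ _
  have hJ2 : 0 ≤ A.J2 w := I_nonneg hw _ _ _
  have hP1 := abc_Pen_nonneg hw un T A.n e b A.Y
  have hP2 := abc_Pen_nonneg hw un T A.n e c A.W
  set m : ℝ := min 1 (b + c) with hm_def
  have hm1 : m ≤ 1 := min_le_left _ _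
  have hn0 : (0 : ℝ) ≤ A.n := Nat.cast_nonneg _
  set Bk : ℝ := A.J1 w + A.J2 w + Pen w un T A.n e b A.Y + Pen w un T A.n e c A.W with hBk
  have hBk0 : 0 ≤ Bk := by positivity
  have htriv : (m - ε) * A.n * T * tot w ≤ A.n * T * tot w := by
    have h0 : 0 ≤ (A.n : ℝ) * T * tot w := by positivity
    nlinarith
  have hC0 : 0 ≤ (3 + ((n₀ : ℝ) + 1) * T) * tot w := by positivity
  have hKB : 0 ≤ (T : ℝ) / η' * Bk := by positivity
  by_cases hcase : η' * A.n * tot w ≤ Bk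
  · have h1 : (A.n : ℝ) * T * tot w ≤ T / η' * Bk := by
      calc (A.n : ℝ) * T * tot w = T / η' * (η' * A.n * tot w) := by field_simp
        _ ≤ T / η' * Bk := mul_le_mul_of_nonneg_left hcase (by positivity)
    linarith
  push Not at hcase
  by_cases hn : A.n < n₀ + 1
  · have h1 : (A.n : ℝ) ≤ n₀ + 1 := by exact_mod_cast hn.le
    have h2 : (A.n : ℝ) * T * tot w ≤ (3 + ((n₀ : ℝ) + 1) * T) * tot w := by
      refine mul_le_mul_of_nonneg_right ?_ ht
      nlinarith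
    linarith
  push Not at hn
  have hn1 : 1 ≤ A.n := by omega
  have hnpos : (0 : ℝ) < A.n := by exact_mod_cast hn1
  have hnt : 0 ≤ (A.n : ℝ) * tot w := by positivity
  have hJ1' : A.J1 w ≤ η * A.n * tot w := by nlinarith
  have hJ2' : A.J2 w ≤ η * A.n * tot w := by nlinarith
  have hs := hsum Ω A w hA hAD hAr (by omega) hJ1' hJ2'
  have hbY := hB Ω w T A.n A.Y e b hw hT1 hn1 he (fun o => by rw [← hAD]; exact hA.hY o)
  have hbW := hB Ω w T A.n A.W e c hw hT1 hn1 he (fun o => by rw [← hAD]; exact hA.hW o)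
  rw [← hAD] at hbY hbW
  have hq1 : 4 * tot w / (e * T) ≤ ε / 40 * tot w := by
    rw [div_le_iff₀ (by positivity)]
    have h1 : 160 ≤ (T : ℝ) * (e * ε) := by rwa [div_le_iff₀ (by positivity)] at hTa
    nlinarith
  have hq2 : ∀ P : ℝ, P ≤ η' * A.n * tot w → P / (e * A.n * T) ≤ ε / 40 * tot w := by
    intro P hP
    rw [div_le_iff₀ (by positivity)]
    have h1 : η' * (A.n * tot w) ≤ e * ε / 40 * (A.n * tot w) :=
      mul_le_mul_of_nonneg_right hη3 hnt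
    have h2 : e * ε / 40 * (A.n * tot w) * 1 ≤ e * ε / 40 * (A.n * tot w) * T :=
      mul_le_mul_of_nonneg_left (by linarith) (by positivity)
    nlinarith
  have hbY' := le_trans hbY (add_le_add hq1 (hq2 _ (by linarith)))
  have hbW' := le_trans hbW (add_le_add hq1 (hq2 _ (by linarith)))
  set cnt : Ω → ℝ := fun p => (#((range (A.n + 1) ×ˢ range (A.n + 1)).filter fun z =>
      Br w A.D A.n A.Y z.1 p ∧ Br w A.D A.n A.W z.2 p ∧
      ((z.1 + z.2 + 1 ≤ A.n ∧ ¬ A.Full w (z.1 + z.2 + 1) p) ∨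
        (z.1 + z.2 + 2 ≤ A.n ∧ ¬ A.Full w (z.1 + z.2 + 2) p))) : ℝ) with hcnt
  have hmk := markov hw (F := cnt) (fun o _ => Nat.cast_nonneg _) (ρ' * (A.n : ℝ) ^ 2)
  have hb3 : tot (res w fun o => ρ' * (A.n : ℝ) ^ 2 ≤ cnt o) ≤ ε / 40 * tot w := by
    have h1 : ρ' * (A.n : ℝ) ^ 2 * tot (res w fun o => ρ' * (A.n : ℝ) ^ 2 ≤ cnt o) ≤
        ρ' * (A.n : ℝ) ^ 2 * (ε / 40 * tot w) := by
      refine le_trans (le_trans hmk hs) (le_of_eq ?_)
      ring
    exact le_of_mul_le_mul_left h1 (by positivity)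
  set B1 : Ω → Prop := fun p => ∃ y : ℕ, y ≤ A.n ∧
      (#(((range (A.n + 1)).filter fun x => Br w A.D A.n A.Y x p).filter fun x => x < y) : ℝ) <
        b * y - 3 * e * A.n with hB1
  set B2 : Ω → Prop := fun p => ∃ y : ℕ, y ≤ A.n ∧
      (#(((range (A.n + 1)).filter fun x => Br w A.D A.n A.W x p).filter fun x => x < y) : ℝ) <
        c * y - 3 * e * A.n with hB2
  set B3 : Ω → Prop := fun o => ρ' * (A.n : ℝ) ^ 2 ≤ cnt o with hB3
  have hbad : tot (res w fun o => B1 o ∨ (B2 o ∨ B3 o)) ≤ ε / 8 * tot w := by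
    have h1 := tot_res_or hw B1 (fun o => B2 o ∨ B3 o)
    have h2 := tot_res_or hw B2 B3
    linarith
  obtain ⟨Bd, hBd⟩ : ∃ Bd : Ω → Prop, Bd = fun o => B1 o ∨ (B2 o ∨ B3 o) := ⟨_, rfl⟩
  rw [← hBd] at hbad
  have hpt : ∀ p, (m - ε / 4) * A.n + (-(A.n : ℝ)) * (if Bd p then 1 else 0) ≤
      (#((range (A.n + 1)).filter fun v => A.Full w v p) : ℝ) := by
    intro p
    by_cases hp : Bd p
    · rw [if_pos hp]
      have h0 : (0 : ℝ) ≤ #((range (A.n + 1)).filter fun v => A.Full w v p) := Nat.cast_nonneg _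
      nlinarith
    · rw [if_neg hp, mul_zero, add_zero]
      rw [hBd] at hp
      simp only [not_or] at hp
      refine abc_point A w b c (m - ε / 4) e ρ' p ?_ hp.1 hp.2.1 hp.2.2
      intro S₁ S₂ V a1 a2 a3 a4 a5 a6
      have h3 : 3 * e = e' := by rw [he_def]; ring
      exact hrm A.n hn1 b c hb0 hc0 S₁ S₂ V a1 a2 a3 (by simpa [h3] using a4)
        (by simpa [h3] using a5) a6
  have hEf : (m - 3 * ε / 8) * A.n * tot w ≤
      E w (fun p => (#((range (A.n + 1)).filter fun v => A.Full w v p) : ℝ)) := by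
    have h1 := E_mono hw (fun p _ => hpt p)
    rw [E_add, E_const, E_mul, E_ind] at h1
    have h2 := mul_le_mul_of_nonneg_left hbad hn0
    nlinarith
  have hend := hE Ω A w hA
  have hlg : lg (A.D : ℝ) = T := by
    rw [hAD]; push_cast; exact lg_two_pow T
  rw [hlg] at hend
  have h4 : ((T : ℝ) - 4) * ((m - 3 * ε / 8) * A.n * tot w) ≤
      H w A.Z A.W + A.J1 w + (2 * A.n + 3) * tot w :=
    le_trans (mul_le_mul_of_nonneg_left hEf (by linarith)) hend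
  have h5 : A.J1 w ≤ T / η' * Bk := by
    have : A.J1 w ≤ Bk := by rw [hBk]; linarith
    nlinarith
  have h6 : 10 ≤ (T : ℝ) * ε := by rwa [div_le_iff₀ hε] at hTb
  have h7 : 10 * (A.n * tot w) ≤ T * ε * (A.n * tot w) := mul_le_mul_of_nonneg_right h6 hnt
  have h8 : (m - 3 * ε / 8) * (A.n * tot w) ≤ 1 * (A.n * tot w) :=
    mul_le_mul_of_nonneg_right (by linarith) hnt
  have h9 : 0 ≤ ((n₀ : ℝ) + 1) * T * tot w := by positivity
  nlinarith

end Pool.Agent.Lib.MP_108739_an.F
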