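import Pool.Agent.Lib.MP_108739_an.F.Ent1

/-! Uniform noise. -/

open Finset

namespace Pool.Agent.Lib.MP_108739_an.F
open Classical

variable {Ω α β γ δ ι : Type} [Fintype Ω] {w : Ω → ℝ}

/-- every value of the noise carries the same mass on each fibre -/
lemma Unif.key {ξ : Ω → ℤ} {h : ℕ} {G : Ω → α} (hw : Nn w) (u : Unif w ξ h G) (o : Ω)
    {v : ℤ} (hv : 0 ≤ v ∧ v < h) :
    ∑ o', (if ξ o' = v ∧ G o' = G o then w o' else 0) = ms w G o / h := by
  have hpos : (0 : ℝ) < h := by
    have : (0 : ℤ) < h := lt_of_le_of_lt hv.1 hv.2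
    exact_mod_cast this
  set M : ℤ → ℝ := fun v => ∑ o', (if ξ o' = v ∧ G o' = G o then w o' else 0) with hM
  have hle : ∀ v ∈ Finset.Ico (0 : ℤ) h, M v ≤ ms w G o / h := by
    intro v _
    by_cases hex : ∃ o1, ξ o1 = v ∧ G o1 = G o
    · obtain ⟨o1, h1, h2⟩ := hex
      have e1 := u.2 o1
      have e2 : ms w G o1 = ms w G o := by simp only [ms, h2]
      have e3 : ms w (pr ξ G) o1 = M v := by
        simp only [ms, pr, hM, Prod.mk.injEq, h1, h2]
      rw [← e3, e1, e2]
    · have : M v = 0 := by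
        refine Finset.sum_eq_zero fun o' _ => ?_
        rw [if_neg fun hh => hex ⟨o', hh⟩]
      rw [this]
      exact div_nonneg (ms_nonneg hw G o) hpos.le
  have hsum : ∑ v ∈ Finset.Ico (0 : ℤ) h, M v = ∑ _v ∈ Finset.Ico (0 : ℤ) h, ms w G o / h := by
    rw [Finset.sum_const, Int.card_Ico, nsmul_eq_mul]
    have e1 : (((h : ℤ) - 0).toNat : ℝ) = h := by simp
    rw [e1, mul_div_cancel₀ _ hpos.ne']
    simp only [hM]
    rw [Finset.sum_comm]
    unfold ms
    refine Finset.sum_congr rfl fun o' _ => ?_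
    by_cases hg : G o' = G o
    · simp only [hg, and_true, if_true]
      rw [Finset.sum_ite_eq]
      rw [if_pos (Finset.mem_Ico.2 (u.1 o'))]
    · simp only [hg, and_false, if_false, Finset.sum_const_zero]
  exact (Finset.sum_eq_sum_iff_of_le hle).1 hsum v (Finset.mem_Ico.2 hv)

lemma Unif.mono {ξ : Ω → ℤ} {h : ℕ} {G : Ω → α} {G' : Ω → β} (hw : Nn w) (u : Unif w ξ h G)
    (d : Det G G') : Unif w ξ h G' := by
  refine ⟨u.1, fun o => ?_⟩
  have e1 : ms w (pr ξ G') o =
      E w (fun o' => if ξ o' = ξ o ∧ G' o' = G' o then 1 else 0) := by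
    simp only [ms, E, pr, Prod.mk.injEq]
    refine Finset.sum_congr rfl fun o' _ => ?_
    by_cases hc : ξ o' = ξ o ∧ G' o' = G' o
    · rw [if_pos hc, if_pos hc, mul_one]
    · rw [if_neg hc, if_neg hc, mul_zero]
  have e2 : ms w G' o / h = E w (fun o' => (h : ℝ)⁻¹ * if G' o' = G' o then 1 else 0) := by
    rw [E_mul, div_eq_inv_mul]
    congr 1
    simp only [ms, E]
    refine Finset.sum_congr rfl fun o' _ => ?_
    by_cases hc : G' o' = G' o
    · rw [if_pos hc, if_pos hc, mul_one]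
    · rw [if_neg hc, if_neg hc, mul_zero]
  rw [e1, e2, ← E_fib hw G]
  refine E_congr hw fun o1 h1 => ?_
  have hm := ms_pos hw G h1
  by_cases hc : G' o1 = G' o
  · rw [if_pos hc, mul_one]
    have e3 : E (res w fun o' => G o' = G o1)
        (fun o' => if ξ o' = ξ o ∧ G' o' = G' o then 1 else 0) = ms w G o1 / h := by
      rw [← u.key hw o1 (u.1 o)]
      simp only [E, res]
      refine Finset.sum_congr rfl fun o' _ => ?_
      by_cases hg : G o' = G o1
      · have hg' : G' o' = G' o := (d _ _ hg).trans hc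
        by_cases hx : ξ o' = ξ o <;> simp [hg, hg', hx]
      · simp [hg]
    rw [e3]
    field_simp
  · rw [if_neg hc, mul_zero]
    have e3 : E (res w fun o' => G o' = G o1)
        (fun o' => if ξ o' = ξ o ∧ G' o' = G' o then 1 else 0) = 0 := by
      simp only [E, res]
      refine Finset.sum_eq_zero fun o' _ => ?_
      by_cases hg : G o' = G o1
      · have hg' : ¬ G' o' = G' o := fun hh => hc ((d _ _ hg).symm.trans hh)
        simp [hg']
      · simp [hg]
    rw [e3, zero_div]

lemma Unif.H_self {ξ : Ω → ℤ} {h : ℕ} {G : Ω → α} (hw : Nn w) (u : Unif w ξ h G) :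
    H w ξ G = lg h * tot w := by
  rw [← E_const]
  unfold H
  refine E_congr hw fun o ho => ?_
  have hm := ms_pos hw G ho
  have hpos : (0 : ℝ) < h := by
    have : (0 : ℤ) < h := lt_of_le_of_lt (u.1 o).1 (u.1 o).2
    exact_mod_cast this
  rw [u.2 o]
  congr 1
  field_simp

lemma Unif.H_eq {ξ V : Ω → ℤ} {h : ℕ} {G : Ω → α} (hw : Nn w) (u : Unif w ξ h G) (d : Det G V) :
    H w (fun o => V o - ξ o) G = lg h * tot w := by
  rw [← u.H_self hw]
  refine H_congr ?_ ?_ Det.rfl Det.rfl
  · intro o o' hh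
    have h1 : V o - ξ o = V o' - ξ o' := congrArg Prod.fst hh
    have h2 : V o = V o' := d _ _ (congrArg Prod.snd hh)
    omega
  · intro o o' hh
    have h1 : ξ o = ξ o' := congrArg Prod.fst hh
    have h2 : V o = V o' := d _ _ (congrArg Prod.snd hh)
    show V o - ξ o = V o' - ξ o'
    omega

lemma Unif.I_eq {ξ : Ω → ℤ} {h : ℕ} {G : Ω → α} {f : Ω → β} {k : Ω → γ} (hw : Nn w)
    (u : Unif w ξ h G) (d : Det G f) (d' : Det G k) : I w f ξ k = 0 := by
  rw [I_symm hw]
  unfold I
  rw [(u.mono hw d').H_self hw, (u.mono hw (d.pr d')).H_self hw, sub_self]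

/-- the leak lemma -/
theorem leak {ξ s lo : Ω → ℤ} {h : ℕ} {A : Ω → α} {V : Ω → β} {G : Ω → γ} {ρ : ℝ} (hw : Nn w)
    (u : Unif w ξ h A) (dV : Det A V) (dG : Det A G) (ds : Det A s) (dl : Det G lo) (hρ : 0 ≤ ρ)
    (hs : ∀ o, lo o ≤ s o ∧ (s o : ℝ) ≤ lo o + ρ * h) :
    I w V (fun o => s o - ξ o) G ≤ lg (1 + ρ) * tot w := by
  rcases Nat.eq_zero_or_pos h with h0 | hpos
  · have he : IsEmpty Ω := ⟨fun o => by
      have := u.1 o
      rw [h0] at this
      omega⟩
    simp [I, H, E, tot]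
  have hR : (0 : ℝ) < h := by exact_mod_cast hpos
  rw [I_symm hw]
  unfold I
  have h1 : lg h * tot w ≤ H w (fun o => s o - ξ o) (pr V G) := by
    rw [← u.H_eq hw ds]
    exact H_mono hw Det.fst (dV.pr dG)
  have hK : 1 ≤ h + ⌊ρ * h⌋₊ := by omega
  have h2 : H w (fun o => s o - ξ o) G ≤ lg ((h + ⌊ρ * h⌋₊ : ℕ) : ℝ) * tot w := by
    refine H_le_int hw (G := fun o => lo o - h + 1) hK ?_ ?_
    · intro o o' hh
      show lo o - h + 1 = lo o' - h + 1
      rw [dl _ _ hh]
    · intro o _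
      have a1 := u.1 o
      have a2 := (hs o).1
      have a3 : s o - lo o ≤ (⌊ρ * h⌋₊ : ℤ) := by
        have b1 : ((s o - lo o : ℤ) : ℝ) ≤ ρ * h := by
          push_cast
          linarith [(hs o).2]
        have b2 : s o - lo o ≤ ⌊ρ * h⌋ := Int.le_floor.2 b1
        rwa [← Int.natCast_floor_eq_floor (by positivity)] at b2
      push_cast
      constructor <;> omega
  have h3 : lg ((h + ⌊ρ * h⌋₊ : ℕ) : ℝ) ≤ lg h + lg (1 + ρ) := by
    rw [← lg_mul hR (by linarith)]
    refine lg_mono (by exact_mod_cast hK) ?_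
    have := Nat.floor_le (show 0 ≤ ρ * h by positivity)
    push_cast
    nlinarith
  have h4 := mul_le_mul_of_nonneg_right h3 (tot_nonneg hw)
  nlinarith

/-- a fibre with a parametrisation -/
lemma ms_param [Fintype ι] (G : Ω → α) (p : Ω) (e : ι → Ω) (r : Ω → ι)
    (h1 : ∀ v, G (e v) = G p) (h2 : ∀ q, G q = G p → e (r q) = q) (h3 : ∀ v, r (e v) = v) :
    ms w G p = ∑ v, w (e v) := by
  unfold ms
  rw [← Finset.sum_filter]
  refine Finset.sum_bij' (fun q _ => r q) (fun v _ => e v) ?_ ?_ ?_ ?_ ?_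
  · intro q _
    exact Finset.mem_univ _
  · intro v _
    exact Finset.mem_filter.2 ⟨Finset.mem_univ _, h1 v⟩
  · intro q hq
    exact h2 q (Finset.mem_filter.1 hq).2
  · intro v _
    exact h3 v
  · intro q hq
    rw [h2 q (Finset.mem_filter.1 hq).2]

/-- extension of a weight by independent uniform coordinates -/
noncomputable def ext (w : Ω → ℝ) {κ : Type} [Fintype κ] [DecidableEq κ] (h : κ → ℕ) :
    Ω × (∀ k, Fin (h k)) → ℝ := fun p => w p.1 / ∏ k, (h k : ℝ)

section
variable {κ : Type} [Fintype κ] [DecidableEq κ] {h : κ → ℕ}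

omit [DecidableEq κ] in
lemma prod_h_pos (hh : ∀ k, 0 < h k) : (0 : ℝ) < ∏ k, (h k : ℝ) :=
  Finset.prod_pos fun k _ => by exact_mod_cast hh k

lemma sum_ext (hh : ∀ k, 0 < h k) (F : Ω → ℝ) :
    ∑ p : Ω × ∀ k, Fin (h k), F p.1 / ∏ k, (h k : ℝ) = ∑ o, F o := by
  rw [Fintype.sum_prod_type]
  refine Finset.sum_congr rfl fun o _ => ?_
  simp only
  rw [Finset.sum_const, Finset.card_univ, Fintype.card_pi, nsmul_eq_mul]
  simp only [Fintype.card_fin]
  push_cast
  exact mul_div_cancel₀ _ (prod_h_pos hh).ne'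

set_option linter.unusedSectionVars false in
lemma Nn.ext (hw : Nn w) : Nn (ext w h) := fun p =>
  div_nonneg (hw p.1) (Finset.prod_nonneg fun _ _ => Nat.cast_nonneg _)
lemma tot_ext (hh : ∀ k, 0 < h k) : tot (ext w h) = tot w := sum_ext hh w
lemma E_ext (hh : ∀ k, 0 < h k) (F : Ω → ℝ) : E (ext w h) (fun p => F p.1) = E w F := by
  unfold E
  rw [← sum_ext hh fun o => w o * F o]
  refine Finset.sum_congr rfl fun p _ => ?_
  unfold ext
  ring
lemma ms_ext (hh : ∀ k, 0 < h k) (f : Ω → α) (p : Ω × ∀ k, Fin (h k)) :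
    ms (ext w h) (fun p => f p.1) p = ms w f p.1 := by
  unfold ms
  rw [← sum_ext hh fun o' => if f o' = f p.1 then w o' else 0]
  refine Finset.sum_congr rfl fun q _ => ?_
  unfold ext
  by_cases hc : f q.1 = f p.1
  · rw [if_pos hc, if_pos hc]
  · rw [if_neg hc, if_neg hc, zero_div]
lemma H_ext (hh : ∀ k, 0 < h k) (f : Ω → α) (g : Ω → β) :
    H (ext w h) (fun p => f p.1) (fun p => g p.1) = H w f g := by
  unfold H
  rw [← E_ext hh fun o => lg (ms w g o / ms w (pr f g) o)]
  congr 1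
  funext p
  rw [ms_ext hh g p, ← ms_ext hh (pr f g) p]
  rfl
/-- mass of a fibre on which the noise is fixed -/
lemma ms_ext_noise (g : Ω → β) (p : Ω × ∀ k, Fin (h k)) :
    ms (ext w h) (pr (fun p => g p.1) fun p => p.2) p = ms w g p.1 / ∏ k, (h k : ℝ) := by
  unfold ms
  rw [Fintype.sum_prod_type, Finset.sum_div]
  refine Finset.sum_congr rfl fun o _ => ?_
  rw [Finset.sum_eq_single p.2]
  · simp only [pr, ext, Prod.mk.injEq, and_true]
    by_cases hc : g o = g p.1
    · rw [if_pos hc, if_pos hc]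
    · rw [if_neg hc, if_neg hc, zero_div]
  · intro x _ hx
    rw [if_neg]
    intro hc
    exact hx (congrArg Prod.snd hc)
  · intro hx
    exact absurd (Finset.mem_univ _) hx
lemma H_ext_noise (hh : ∀ k, 0 < h k) (f : Ω → α) (g : Ω → β) :
    H (ext w h) (fun p => f p.1) (pr (fun p => g p.1) fun p => p.2) = H w f g := by
  unfold H
  rw [← E_ext hh fun o => lg (ms w g o / ms w (pr f g) o)]
  congr 1
  funext p
  have e : ms (ext w h) (pr (fun p => f p.1) (pr (fun p => g p.1) fun p => p.2)) =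
      ms (ext w h) (pr (fun p : Ω × ∀ k, Fin (h k) => pr f g p.1) fun p => p.2) := by
    refine ms_congr ?_ ?_
    · intro a b hab
      simp only [pr, Prod.mk.injEq] at hab ⊢
      tauto
    · intro a b hab
      simp only [pr, Prod.mk.injEq] at hab ⊢
      tauto
  rw [e, ms_ext_noise, ms_ext_noise, div_div_div_cancel_right₀ (prod_h_pos hh).ne']
lemma unif_ext (hh : ∀ k, 0 < h k) (k : κ) :
    Unif (ext w h) (fun p => ((p.2 k : ℕ) : ℤ)) (h k)
      fun p => (p.1, fun i => if i = k then 0 else (p.2 i : ℕ)) := by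
  refine ⟨fun p => ⟨Int.natCast_nonneg _, Int.ofNat_lt.2 (p.2 k).2⟩, fun p => ?_⟩
  have hk : (0 : ℝ) < h k := by exact_mod_cast hh k
  have hiff : ∀ q : Ω × ∀ k, Fin (h k),
      ((q.1, fun i => if i = k then 0 else (q.2 i : ℕ)) : Ω × (κ → ℕ)) =
        (p.1, fun i => if i = k then 0 else (p.2 i : ℕ)) ↔
      q = (p.1, Function.update p.2 k (q.2 k)) := by
    intro q
    constructor
    · intro hq
      obtain ⟨h1, h2⟩ := Prod.mk.inj hq
      refine Prod.ext h1 (funext fun i => ?_)
      by_cases hi : i = k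
      · subst hi
        simp
      · have := congrFun h2 i
        simp only [hi, if_false] at this
        simp only [Function.update_of_ne hi]
        exact Fin.ext this
    · intro hq
      have hq1 : q.1 = p.1 := (Prod.ext_iff.1 hq).1
      refine Prod.ext hq1 (funext fun i => ?_)
      by_cases hi : i = k
      · simp [hi]
      · have := congrFun (congrArg Prod.snd hq) i
        simp only [Function.update_of_ne hi] at this
        simp only [hi, if_false, this]
  have e1 : ms (ext w h) (pr (fun p : Ω × ∀ k, Fin (h k) => ((p.2 k : ℕ) : ℤ))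
      fun p => (p.1, fun i => if i = k then 0 else (p.2 i : ℕ))) p = ext w h p := by
    unfold ms
    rw [Finset.sum_eq_single p]
    · rw [if_pos rfl]
    · intro q _ hq
      rw [if_neg]
      intro hc
      obtain ⟨h1, h2⟩ := Prod.mk.inj hc
      have h3 : q.2 k = p.2 k := Fin.ext (Int.ofNat_inj.1 h1)
      have h4 := (hiff q).1 h2
      rw [h3, Function.update_eq_self] at h4
      exact hq h4
    · intro hx
      exact absurd (Finset.mem_univ _) hx
  have e2 : ms (ext w h) (fun p : Ω × ∀ k, Fin (h k) =>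
      ((p.1, fun i => if i = k then 0 else (p.2 i : ℕ)) : Ω × (κ → ℕ))) p =
        ∑ _v : Fin (h k), ext w h p := by
    refine ms_param _ p (fun v => (p.1, Function.update p.2 k v)) (fun q => q.2 k) ?_ ?_ ?_
    · intro v
      refine (hiff _).2 ?_
      simp
    · intro q hq
      exact ((hiff q).1 hq).symm
    · intro v
      simp
  rw [e1, e2, Finset.sum_const, Finset.card_univ, Fintype.card_fin, nsmul_eq_mul]
  field_simp
end

end Pool.Agent.Lib.MP_108739_an.F
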