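import Pool.Agent.Lib.MP_108739_an.F.AbcDefs
import Pool.Agent.Lib.MP_108739_an.F.Ent1
import Pool.Agent.Lib.MP_108739_an.F.Ent4

/-! The defects `d1` and `d4` of the ABC step: both sums are telescopes. -/

open Finset

namespace Pool.Agent.Lib.MP_108739_an.F
open Classical

namespace D14

lemma tele (g : ℕ → ℝ) (J : ℝ) (h0 : ∀ j, 0 ≤ g j) (h1 : ∀ j, g j ≤ J) (m r : ℕ) :
    ∑ j ∈ range m, (g (j + r) - g j) ≤ r * J := by
  have e1 := Finset.sum_range_add g m r
  have e2 := Finset.sum_range_add g r m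
  have e3 : ∑ j ∈ range m, g (r + j) = ∑ j ∈ range m, g (j + r) :=
    Finset.sum_congr rfl fun j _ => by rw [add_comm]
  have e4 : ∑ i ∈ range r, g (m + i) ≤ r * J := by
    calc ∑ i ∈ range r, g (m + i) ≤ ∑ _i ∈ range r, J := Finset.sum_le_sum fun i _ => h1 _
      _ = r * J := by simp
  have e5 : 0 ≤ ∑ i ∈ range r, g i := Finset.sum_nonneg fun i _ => h0 _
  rw [add_comm r m] at e2
  rw [Finset.sum_sub_distrib]
  linarith

variable {Ω : Type}

lemma cl_det (D n : ℕ) (Y : Ω → ℕ) {i j : ℕ} (h : i ≤ j) : Det (cl D n j Y) (cl D n i Y) := by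
  intro o o' e
  have hn : n - i = (n - j) + (n - i - (n - j)) := by omega
  simp only [cl] at e ⊢
  rw [hn, pow_add, ← Nat.div_div_eq_div_mul, ← Nat.div_div_eq_div_mul, e]

lemma self_cl (D n : ℕ) (Y : Ω → ℕ) (j : ℕ) : Det Y (cl D n j Y) := by
  intro o o' e
  simp only [cl, e]

variable (A : Ab Ω)

lemma cW_tW (j : ℕ) : Det (A.cW j) (A.tW j) := by
  intro o o' e
  simp only [Ab.cW, cl] at e
  simp only [Ab.tW, e]

lemma V_X : Det A.V A.X := fun _ _ e => congrArg (fun p => p.1.1) e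
lemma V_Y : Det A.V A.Y := fun _ _ e => congrArg (fun p => p.1.2) e
lemma V_z (u : ℕ) : Det A.V (A.ζ u) := fun _ _ e => congrArg (fun p => p.2 u) e

lemma V_R (u : ℕ) : Det A.V (A.R u) := by
  intro o o' e
  simp only [Ab.R, V_X A o o' e, V_z A u o o' e]

lemma O_cW (x j u : ℕ) : Det (A.O x j u) (A.cW j) := fun _ _ e => congrArg (fun p => p.1.1) e

lemma VW_O (x j u : ℕ) : Det (pr A.V (A.cW j)) (A.O x j u) := by
  intro o o' e
  have e1 : A.V o = A.V o' := congrArg Prod.fst e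
  have e2 : A.cW j o = A.cW j o' := congrArg Prod.snd e
  have hY := V_Y A o o' e1
  have a1 : A.cY x o = A.cY x o' := self_cl A.D A.n A.Y x o o' hY
  have a2 : A.C x j u o = A.C x j u o' := by
    simp only [Ab.C, Ab.rY, V_X A o o' e1, V_z A u o o' e1, cW_tW A j o o' e2, hY]
  simp only [Ab.O, pr, e2, a1, a2]

variable [Fintype Ω] {w : Ω → ℝ}

lemma d1_eq (hw : Nn w) (j : ℕ) :
    A.d1 w j = I w A.V (A.cW (j + A.r)) un - I w A.V (A.cW j) un := by
  have hd : Det (A.cW (j + A.r)) (A.cW j) := cl_det A.D A.n A.W (Nat.le_add_right _ _)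
  have c1 := I_chain hw A.V (A.cW j) (A.cW (j + A.r)) (un : Ω → Unit)
  have c2 : I w A.V (pr (A.cW j) (A.cW (j + A.r))) un = I w A.V (A.cW (j + A.r)) un :=
    le_antisymm (I_mono hw Det.fst (Det.pr (Det.fst.trans hd) Det.fst))
      (I_mono hw Det.fst (Det.fst.trans Det.snd))
  have c3 : I w A.V (A.cW (j + A.r)) (pr (A.cW j) un) = I w A.V (A.cW (j + A.r)) (A.cW j) :=
    I_congr Det.fst (Det.pr Det.rfl Det.un)
  rw [Ab.d1, I_symm hw]
  linarith

lemma d4_le (h : A.Ok w) {u : ℕ} (hu : u ≤ A.n) :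
    A.d4 w u ≤ I w A.W (A.R (u + A.r)) A.Y - I w A.W (A.R u) A.Y := by
  have hw := h.nn
  have c1 := I_chain hw A.W (A.R u) (A.R (u + A.r)) A.Y
  have c2 := I_chain hw A.W (A.R (u + A.r)) (A.R u) A.Y
  have c3 : I w A.W (pr (A.R u) (A.R (u + A.r))) A.Y ≤
      I w A.W (pr (A.R (u + A.r)) (A.R u)) A.Y :=
    I_mono hw Det.fst (Det.pr (Det.fst.trans Det.snd) (Det.fst.trans Det.fst))
  have c4 : I w A.W (A.R (u + A.r)) (pr (A.R u) A.Y) = I w A.W (A.R (u + A.r)) (A.kap u) :=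
    I_congr (Det.pr Det.snd Det.fst) (Det.pr Det.snd Det.fst)
  have dk : Det (pr (pr A.X (pr A.Y A.W)) (A.ζ (u + A.r))) (pr (A.R (u + A.r)) A.Y) := by
    intro o o' e
    have e1 : A.X o = A.X o' := congrArg (fun p => p.1.1) e
    have e2 : A.Y o = A.Y o' := congrArg (fun p => p.1.2.1) e
    have e3 : A.ζ (u + A.r) o = A.ζ (u + A.r) o' := congrArg (fun p => p.2) e
    simp only [pr, Ab.R, e1, e2, e3]
  have dW : Det (pr (pr A.X (pr A.Y A.W)) (A.ζ (u + A.r))) A.W :=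
    fun _ _ e => congrArg (fun p => p.1.2.2) e
  have c5 := Unif.I_eq hw (h.unif u hu) dW dk
  have c6 : I w A.W (A.R u) (pr (A.R (u + A.r)) A.Y) ≤
      I w A.W (fun o => A.ζ u o - A.ζ (u + A.r) o) (pr (A.R (u + A.r)) A.Y) := by
    refine I_mono hw Det.fst ?_
    intro o o' e
    have e1 : A.ζ u o - A.ζ (u + A.r) o = A.ζ u o' - A.ζ (u + A.r) o' := congrArg Prod.fst e
    have e2 : A.X o - A.ζ (u + A.r) o = A.X o' - A.ζ (u + A.r) o' :=
      congrArg (fun p => p.2.1) e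
    show A.X o - A.ζ u o = A.X o' - A.ζ u o'
    omega
  rw [Ab.d4, I_symm hw]
  linarith

end D14

open D14 in
theorem d14 : D14Stmt := by
  intro Ω _ A w h
  have hw := h.nn
  refine ⟨?_, ?_, ?_, ?_⟩
  · rw [Finset.sum_congr rfl fun j _ => d1_eq A hw j]
    refine tele (fun j => I w A.V (A.cW j) un) _ (fun j => I_nonneg hw _ _ _) (fun j => ?_) _ _
    rw [Ab.J1, I_symm hw A.W]
    exact I_mono hw Det.fst (Det.fst.trans (self_cl A.D A.n A.W j))
  · intro x j u
    rw [I_symm hw]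
    calc I w (A.tW (j + A.r)) A.Y (A.O x j u) ≤ I w (A.cW (j + A.r)) A.V (A.O x j u) :=
          I_mono hw (Det.fst.trans (cW_tW A _)) (Det.fst.trans (V_Y A))
      _ ≤ A.d1 w j := I_cond_le hw (O_cW A x j u) (VW_O A x j u)
  · intro x j u
    have hr := h.hr
    exact I_mono hw (Det.fst.trans (cl_det A.D A.n A.W (by omega))) (VW_O A x j u)
  · have hs : (range (A.n + 1)).filter (fun u => u + A.r ≤ A.n) = range (A.n + 1 - A.r) := by
      ext u
      simp only [mem_filter, mem_range]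
      omega
    rw [hs]
    refine le_trans (Finset.sum_le_sum fun u hu => d4_le A h ?_) ?_
    · have := mem_range.1 hu
      omega
    refine tele (fun u => I w A.W (A.R u) A.Y) _ (fun j => I_nonneg hw _ _ _) (fun u => ?_) _ _
    calc I w A.W (A.R u) A.Y ≤ I w A.W A.V A.Y := I_mono hw Det.fst (Det.fst.trans (V_R A u))
      _ ≤ A.J1 w := I_cond_le hw Det.un (Det.fst.trans (V_Y A))

end Pool.Agent.Lib.MP_108739_an.F
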