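import Pool.Agent.Lib.MP_108739_an.F.AbcD14

/-! The defect `d2` of the ABC step. -/

open Finset

namespace Pool.Agent.Lib.MP_108739_an.F
open Classical

namespace D2

lemma tw_bd {D n j r : ℕ} (hD : 0 < D) (W : ℕ) :
    ((D ^ (n - j) * (W / D ^ (n - j)) : ℕ) : ℤ) ≤
      ((D ^ (n - (j + r)) * (W / D ^ (n - (j + r))) : ℕ) : ℤ) ∧
    ((D ^ (n - (j + r)) * (W / D ^ (n - (j + r))) : ℕ) : ℤ) ≤
      ((D ^ (n - j) * (W / D ^ (n - j)) : ℕ) : ℤ) + ((D ^ (n - j) : ℕ) : ℤ) := by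
  have h1 : D ^ (n - j) * (W / D ^ (n - j)) ≤ D ^ (n - (j + r)) * (W / D ^ (n - (j + r))) := by
    have e : n - j = (n - (j + r)) + (n - j - (n - (j + r))) := by omega
    rw [e, pow_add, ← Nat.div_div_eq_div_mul, mul_assoc]
    exact Nat.mul_le_mul_left _ (Nat.mul_div_le _ _)
  have h2 : D ^ (n - (j + r)) * (W / D ^ (n - (j + r))) ≤ W := Nat.mul_div_le _ _
  have h3 := Nat.mod_add_div W (D ^ (n - j))
  have h4 : W % D ^ (n - j) < D ^ (n - j) := Nat.mod_lt _ (by positivity)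
  constructor
  · exact_mod_cast h1
  · have : D ^ (n - (j + r)) * (W / D ^ (n - (j + r))) ≤
        D ^ (n - j) * (W / D ^ (n - j)) + D ^ (n - j) := by omega
    exact_mod_cast this

lemma arith {D n x j k : ℕ} (hD : 2 ≤ D) (hk : n ≤ k) (e : (n - j) + (n - x) ≤ k) (X z : ℤ)
    (Y W : ℕ) (h0 : 0 ≤ z) (h1 : z ≤ 2 * (D : ℤ) ^ k) :
    let s : ℤ := X + ((D ^ (n - j) * (W / D ^ (n - j)) : ℕ) : ℤ) * ((Y % D ^ (n - x) : ℕ) : ℤ) - z
    let lo : ℤ := (D : ℤ) ^ n * ((X + (W : ℤ) * (Y : ℤ)) / (D : ℤ) ^ n) -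
      (W : ℤ) * ((D : ℤ) ^ (n - x) * ((Y / D ^ (n - x) : ℕ) : ℤ)) - 3 * (D : ℤ) ^ k
    lo ≤ s ∧ s ≤ lo + 4 * (D : ℤ) ^ k := by
  intro s lo
  have hD0 : 0 < D := by omega
  have hDz : (1 : ℤ) ≤ D := by exact_mod_cast hD0
  have hn : (0 : ℤ) < (D : ℤ) ^ n := by positivity
  have a1 := Int.emod_add_mul_ediv (X + (W : ℤ) * (Y : ℤ)) ((D : ℤ) ^ n)
  have a2 := Int.emod_nonneg (X + (W : ℤ) * (Y : ℤ)) hn.ne'
  have a3 := Int.emod_lt_of_pos (X + (W : ℤ) * (Y : ℤ)) hn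
  have b1 : ((Y % D ^ (n - x) : ℕ) : ℤ) + (D : ℤ) ^ (n - x) * ((Y / D ^ (n - x) : ℕ) : ℤ) = Y := by
    exact_mod_cast Nat.mod_add_div Y (D ^ (n - x))
  have c1 : ((W % D ^ (n - j) : ℕ) : ℤ) + ((D ^ (n - j) * (W / D ^ (n - j)) : ℕ) : ℤ) = W := by
    exact_mod_cast Nat.mod_add_div W (D ^ (n - j))
  have p1 : (W % D ^ (n - j)) * (Y % D ^ (n - x)) ≤ D ^ k := by
    refine le_trans ?_ (Nat.pow_le_pow_right hD0 e)
    rw [pow_add]
    exact Nat.mul_le_mul (Nat.mod_lt _ (by positivity)).le (Nat.mod_lt _ (by positivity)).le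
  have p2 : ((W % D ^ (n - j) : ℕ) : ℤ) * ((Y % D ^ (n - x) : ℕ) : ℤ) ≤ (D : ℤ) ^ k := by
    exact_mod_cast p1
  have p3 : (0 : ℤ) ≤ ((W % D ^ (n - j) : ℕ) : ℤ) * ((Y % D ^ (n - x) : ℕ) : ℤ) := by positivity
  have q1 : (D : ℤ) ^ n ≤ (D : ℤ) ^ k := pow_le_pow_right₀ hDz hk
  have key : s - lo = (X + (W : ℤ) * (Y : ℤ)) % (D : ℤ) ^ n -
      ((W % D ^ (n - j) : ℕ) : ℤ) * ((Y % D ^ (n - x) : ℕ) : ℤ) - z + 3 * (D : ℤ) ^ k := by
    simp only [s, lo]
    generalize ((W % D ^ (n - j) : ℕ) : ℤ) = rw' at *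
    generalize ((Y % D ^ (n - x) : ℕ) : ℤ) = ry at *
    generalize ((D ^ (n - j) * (W / D ^ (n - j)) : ℕ) : ℤ) = tw at *
    generalize (D : ℤ) ^ (n - x) * ((Y / D ^ (n - x) : ℕ) : ℤ) = ty at *
    generalize (X + (W : ℤ) * (Y : ℤ)) % (D : ℤ) ^ n = m at *
    generalize (D : ℤ) ^ n * ((X + (W : ℤ) * (Y : ℤ)) / (D : ℤ) ^ n) = t at *
    linear_combination -a1 + (W : ℤ) * b1 + ry * c1
  constructor <;> linarith

variable {Ω : Type} (A : Ab Ω)

lemma C_eq (x j u : ℕ) : A.C x j u = fun p => (A.X p + A.tW j p * A.rY x p - A.ζ (u + A.r) p) -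
    (A.ζ u p - A.ζ (u + A.r) p) := by
  funext p
  simp only [Ab.C]
  ring

lemma tW_cW (hD : 0 < A.D) (j : ℕ) : Det (A.tW j) (A.cW j) := by
  intro o o' e
  simp only [Ab.tW, Nat.cast_inj] at e
  exact Nat.eq_of_mul_eq_mul_left (by positivity) e

lemma G_X (v : ℕ) : Det (pr (pr A.X (pr A.Y A.W)) (A.ζ v)) A.X := Det.fst.trans Det.fst
lemma G_Y (v : ℕ) : Det (pr (pr A.X (pr A.Y A.W)) (A.ζ v)) A.Y :=
  Det.fst.trans (Det.snd.trans Det.fst)
lemma G_W (v : ℕ) : Det (pr (pr A.X (pr A.Y A.W)) (A.ζ v)) A.W :=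
  Det.fst.trans (Det.snd.trans Det.snd)
lemma G_z (v : ℕ) : Det (pr (pr A.X (pr A.Y A.W)) (A.ζ v)) (A.ζ v) := Det.snd

lemma G_s (x j v : ℕ) : Det (pr (pr A.X (pr A.Y A.W)) (A.ζ v))
    fun p => A.X p + A.tW j p * A.rY x p - A.ζ v p := by
  intro p q h
  simp only [Ab.tW, Ab.rY, G_X A v p q h, G_Y A v p q h, G_W A v p q h, G_z A v p q h]

lemma O_cY (x j u : ℕ) : Det (A.O x j u) (A.cY x) := Det.fst.trans Det.snd
lemma O_C (x j u : ℕ) : Det (A.O x j u) (A.C x j u) := Det.snd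

variable [Fintype Ω] {w : Ω → ℝ}

lemma step (hA : A.Ok w) {x j u o : ℕ} (ho : o ≤ 2) (e : x + j + o = u + A.r)
    (hu : u + A.r ≤ A.n) : A.d2 w x j u ≤
      H w A.Y (A.O x j u) - H w A.Y (A.O x (j + A.r) (u + A.r)) + A.lk * tot w := by
  have hw := hA.nn
  have hD := hA.hD
  have hD0 : 0 < A.D := by omega
  have h1 : H w A.Y (pr (A.O x j u) (A.tW (j + A.r))) ≤ H w A.Y (A.O x j u) :=
    H_mono hw Det.fst Det.fst
  have h2 : H w A.Y (pr (A.C x j u) (A.O x (j + A.r) (u + A.r))) ≤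
      H w A.Y (pr (A.C x (j + A.r) (u + A.r)) (pr (A.O x j u) (A.tW (j + A.r)))) := by
    refine H_mono hw Det.fst (Det.pr (Det.snd.trans (O_C A _ _ _)) (Det.pr (Det.pr (Det.pr ?_
      (Det.snd.trans (O_cY A _ _ _))) Det.fst) ?_))
    · exact (Det.snd.trans (D14.O_cW A _ _ _)).trans
        (D14.cl_det A.D A.n A.W (Nat.le_add_right _ _))
    · exact (Det.snd.trans (D14.O_cW A _ _ _)).trans (D14.cW_tW A _)
  have h3 : I w A.Y (A.C x j u) (A.O x (j + A.r) (u + A.r)) ≤ A.lk * tot w := by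
    rw [C_eq]
    refine leak (lo := fun p => A.C x (j + A.r) (u + A.r) p - (A.D : ℤ) ^ (A.n - j + (A.n - x)))
      hw (hA.unif u (by omega)) (G_Y A _)
      (Det.pr (Det.pr ((G_W A _).trans (D14.self_cl A.D A.n A.W _))
        ((G_Y A _).trans (D14.self_cl A.D A.n A.Y _))) (G_s A x (j + A.r) (u + A.r)))
      (G_s A x j _) (fun p q h => ?_) (by positivity) fun p => ?_
    · simp only [O_C A _ _ _ p q h]
    · obtain ⟨t1, t2⟩ := tw_bd (n := A.n) (j := j) (r := A.r) hD0 (A.W p)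
      have y0 : 0 ≤ A.rY x p := Int.natCast_nonneg _
      have y1 : A.rY x p ≤ (A.D : ℤ) ^ (A.n - x) := by
        have : A.Y p % A.D ^ (A.n - x) ≤ A.D ^ (A.n - x) := (Nat.mod_lt _ (by positivity)).le
        simp only [Ab.rY]
        exact_mod_cast this
      have t1' : 0 ≤ A.tW (j + A.r) p - A.tW j p := sub_nonneg.2 t1
      have t2' : A.tW (j + A.r) p - A.tW j p ≤ (A.D : ℤ) ^ (A.n - j) := by
        have : ((A.D ^ (A.n - j) : ℕ) : ℤ) = (A.D : ℤ) ^ (A.n - j) := by push_cast; rfl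
        rw [← this]
        exact sub_le_iff_le_add'.2 t2
      have m0 := mul_nonneg t1' y0
      have m1 : (A.tW (j + A.r) p - A.tW j p) * A.rY x p ≤
          (A.D : ℤ) ^ (A.n - j + (A.n - x)) := by
        rw [pow_add]
        exact mul_le_mul t2' y1 y0 (by positivity)
      obtain ⟨k, hk⟩ : ∃ k, k = 2 * A.n - (u + A.r) := ⟨_, rfl⟩
      have hDz : (1 : ℤ) ≤ A.D := by exact_mod_cast hD0
      have m2 : (A.D : ℤ) ^ (A.n - j + (A.n - x)) ≤ (A.D : ℤ) ^ 2 * (A.D : ℤ) ^ k := by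
        rw [← pow_add]
        exact pow_le_pow_right₀ hDz (by omega)
      have m3 : (0 : ℤ) ≤ (A.D : ℤ) ^ 2 * (A.D : ℤ) ^ k := by positivity
      have hDr : (0 : ℝ) < A.D := by exact_mod_cast hD0
      have e2 : 4 * (A.D : ℝ) ^ 2 / (A.D : ℝ) ^ A.r * (A.hh u : ℝ) =
          ((4 * (A.D : ℤ) ^ 2 * (A.D : ℤ) ^ k : ℤ) : ℝ) := by
        have : 2 * A.n - u = k + A.r := by omega
        rw [Ab.hh, this]
        push_cast
        rw [pow_add]
        field_simp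
      rw [e2, ← Int.cast_add, Int.cast_le]
      simp only [Ab.C]
      constructor <;> linarith
  rw [Ab.d2, I_symm hw]
  simp only [I] at h3 ⊢
  linarith

lemma low (hA : A.Ok w) {x j u o : ℕ} (ho : o ≤ 2) (e : x + j + o = u + A.r) (hu : u ≤ A.n)
    (hx : x ≤ A.n) :
    H w A.Y (pr (pr A.W A.Z) (A.cY x)) - 3 * tot w ≤ H w A.Y (A.O x j u) := by
  have hw := hA.nn
  have hD := hA.hD
  have hr := hA.hr
  have h1 : H w A.Y (pr (A.C x j u) (pr (pr A.W A.Z) (A.cY x))) ≤ H w A.Y (A.O x j u) :=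
    H_mono hw Det.fst (Det.pr (Det.pr ((Det.snd.trans (Det.fst.trans Det.fst)).trans
      (D14.self_cl A.D A.n A.W _)) (Det.snd.trans Det.snd)) Det.fst)
  have h2 : I w A.Y (A.C x j u) (pr (pr A.W A.Z) (A.cY x)) ≤ lg (1 + 4) * tot w := by
    rw [C_eq]
    refine leak (lo := fun p => (A.D : ℤ) ^ A.n * A.Z p -
      (A.W p : ℤ) * ((A.D : ℤ) ^ (A.n - x) * (A.cY x p : ℤ)) - 3 * (A.D : ℤ) ^ (2 * A.n - u))
      hw (hA.unif u hu) (G_Y A _)
      (Det.pr (Det.pr (G_W A _) fun p q h => ?_) ((G_Y A _).trans (D14.self_cl A.D A.n A.Y _)))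
      (G_s A x j _) (fun p q h => ?_) (by norm_num) fun p => ?_
    · simp only [Ab.Z, Zc, G_X A _ p q h, G_Y A _ p q h, G_W A _ p q h]
    · have a : A.W p = A.W q := congrArg (fun t => t.1.1) h
      have b : A.Z p = A.Z q := congrArg (fun t => t.1.2) h
      have c : A.cY x p = A.cY x q := congrArg (fun t => t.2) h
      simp only [a, b, c]
    · have hb := hA.bd (u + A.r) p
      have hz : A.ζ (u + A.r) p ≤ 2 * (A.D : ℤ) ^ (2 * A.n - u) := by
        have h3 : A.hh (u + A.r) ≤ A.D ^ (2 * A.n - u) :=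
          Nat.pow_le_pow_right (by omega) (by omega)
        have h4 : (A.hh (u + A.r) : ℤ) ≤ (A.D : ℤ) ^ (2 * A.n - u) := by exact_mod_cast h3
        linarith [hb.2]
      have h := arith (n := A.n) (x := x) (j := j) (k := 2 * A.n - u) hD (by omega) (by omega)
        (A.X p) (A.ζ (u + A.r) p) (A.Y p) (A.W p) hb.1 hz
      refine ⟨h.1, ?_⟩
      have e2 : (4 : ℝ) * (A.hh u : ℝ) = ((4 * (A.D : ℤ) ^ (2 * A.n - u) : ℤ) : ℝ) := by
        rw [Ab.hh]
        push_cast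
        rfl
      rw [e2, ← Int.cast_add, Int.cast_le]
      exact h.2
  have h3 : lg (1 + 4) ≤ 3 := by
    have := lg_mono (x := 1 + 4) (y := 2 ^ 3) (by norm_num) (by norm_num)
    rw [lg_two_pow] at this
    exact_mod_cast this
  have h4 := mul_le_mul_of_nonneg_right h3 (tot_nonneg hw)
  simp only [I] at h2
  linarith

lemma gap (hw : Nn w) (x : ℕ) :
    H w A.Y (A.cY x) - H w A.Y (pr (pr A.W A.Z) (A.cY x)) ≤ A.J1 w + A.J2 w := by
  have h1 : I w (pr A.W A.Z) A.Y (A.cY x) ≤ I w (pr A.W A.Z) A.Y un :=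
    I_cond_le hw Det.un (Det.fst.trans (D14.self_cl A.D A.n A.Y x))
  rw [I_symm hw, I_symm hw (pr A.W A.Z), I_chain hw A.Y A.W A.Z un] at h1
  have h2 : I w A.Y A.W un ≤ A.J1 w := by
    rw [I_symm hw]
    exact I_mono hw Det.fst (Det.fst.trans (D14.V_Y A))
  have h3 : I w A.Y A.Z (pr A.W un) = A.J2 w := I_congr Det.fst (Det.pr Det.rfl Det.un)
  have h4 : I w A.Y (pr A.W A.Z) (A.cY x) =
      H w A.Y (A.cY x) - H w A.Y (pr (pr A.W A.Z) (A.cY x)) := rfl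
  linarith

end D2

open D2 in
theorem d2 : D2Stmt := by
  intro Ω _ A w hA x o ho
  have hw := hA.nn
  have ht := tot_nonneg hw
  have hJ : 0 ≤ A.J1 w + A.J2 w + 3 * tot w := by
    have a : 0 ≤ A.J1 w := I_nonneg hw _ _ _
    have b : 0 ≤ A.J2 w := I_nonneg hw _ _ _
    linarith
  have hlk : 0 ≤ A.lk := lg_nonneg (le_add_of_nonneg_right (by positivity))
  have hs : (range (A.n + 1)).filter (fun j => A.r ≤ x + j + o ∧ x + j + o ≤ A.n) =
      Ico (A.r - (x + o)) (A.n + 1 - (x + o)) := by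
    ext j
    simp only [mem_filter, mem_range, mem_Ico]
    omega
  rw [hs, Finset.sum_Ico_eq_sum_range]
  obtain ⟨a, ha⟩ : ∃ a, a = A.r - (x + o) := ⟨_, rfl⟩
  obtain ⟨m, hm⟩ : ∃ m, m = A.n + 1 - (x + o) - a := ⟨_, rfl⟩
  rw [← ha, ← hm]
  let g : ℕ → ℝ := fun i => if x + (a + i) + o ≤ A.n + A.r ∧ x ≤ A.n then
    H w A.Y (A.cY x) - H w A.Y (A.O x (a + i) (x + (a + i) + o - A.r)) else 0
  have hg := D14.tele g (A.J1 w + A.J2 w + 3 * tot w) (fun i => ?_) (fun i => ?_) m A.r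
  · have h1 : ∀ i ∈ range m, A.d2 w x (a + i) (x + (a + i) + o - A.r) ≤
        (g (i + A.r) - g i) + A.lk * tot w := by
      intro i hi
      have hi' := mem_range.1 hi
      have h2 := step A hA (x := x) (j := a + i) (u := x + (a + i) + o - A.r) ho (by omega)
        (by omega)
      have e1 : a + (i + A.r) = a + i + A.r := by omega
      have e2 : x + (a + i + A.r) + o - A.r = x + (a + i) + o - A.r + A.r := by omega
      simp only [g]
      rw [if_pos (by omega), if_pos (by omega), e1, e2]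
      linarith
    refine (Finset.sum_le_sum h1).trans ?_
    rw [Finset.sum_add_distrib, Finset.sum_const, card_range, nsmul_eq_mul]
    have h3 : (m : ℝ) ≤ A.n + 1 := by exact_mod_cast (by omega : m ≤ A.n + 1)
    have h4 := mul_le_mul_of_nonneg_right h3 (mul_nonneg hlk ht)
    linarith
  · simp only [g]
    split_ifs
    · exact sub_nonneg.2 (H_mono hw Det.fst (O_cY A _ _ _))
    · exact le_rfl
  · simp only [g]
    split_ifs with hc
    · have h1 := low A hA (x := x) (j := a + i) (u := x + (a + i) + o - A.r) ho (by omega)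
        (by omega) hc.2
      have h2 := gap A hw x
      linarith
    · exact hJ

end Pool.Agent.Lib.MP_108739_an.F
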