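import Pool.Agent.Lib.MP_108739_an.F.AbcDefs
import Pool.Agent.Lib.MP_108739_an.F.Ent4

/-! The defect `d3` of the ABC step. -/

open Finset

namespace Pool.Agent.Lib.MP_108739_an.F
open Classical

namespace D3

variable {Ω : Type}

lemma cl_det (D n x : ℕ) (Y : Ω → ℕ) : Det (cl D n (x + 1) Y) (cl D n x Y) := by
  intro o o' h
  have e : n - x = (n - (x + 1)) + (n - x - (n - (x + 1))) := by omega
  unfold cl at h ⊢
  rw [e, pow_add, ← Nat.div_div_eq_div_mul, ← Nat.div_div_eq_div_mul, h]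

variable [Fintype Ω] {w : Ω → ℝ}

/-- telescoping along the cells of `Y` -/
lemma tele {α : Type} (hw : Nn w) (D n : ℕ) (Y : Ω → ℕ) (hY : ∀ o, Y o < D ^ n) (G : Ω → α) :
    ∑ x ∈ range (n + 1), I w (cl D n (x + 1) Y) G (cl D n x Y) = I w Y G un := by
  have h1 : ∀ x, I w (cl D n (x + 1) Y) G (cl D n x Y) =
      H w G (cl D n x Y) - H w G (cl D n (x + 1) Y) := by
    intro x
    rw [I_symm hw, I]
    congr 1
    exact H_congr Det.fst Det.fst Det.fst (Det.pr Det.rfl (cl_det D n x Y))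
  rw [Finset.sum_congr rfl fun x _ => h1 x,
    Finset.sum_range_sub' (fun x => H w G (cl D n x Y)), I_symm hw, I]
  congr 1
  · refine H_congr Det.fst Det.fst Det.un fun o o' _ => ?_
    simp only [cl, Nat.sub_zero, Nat.div_eq_of_lt (hY _)]
  · have e : cl D n (n + 1) Y = Y := by
      funext o
      simp [cl]
    rw [e]
    exact H_congr Det.fst Det.fst (Det.pr Det.rfl Det.un) Det.fst

/-- the arithmetic of the leak -/
lemma arith {D n x j o k : ℕ} (hD : 2 ≤ D) (ho : o ≤ 2) (hk : n ≤ k)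
    (e : (n - j) + (n - x) = k + o) (X z : ℤ) (Y W : ℕ) (h0 : 0 ≤ z) (h1 : z < 2 * ((D ^ k : ℕ) : ℤ)) :
    let s : ℤ := X + ((D ^ (n - j) * (W / D ^ (n - j)) : ℕ) : ℤ) * ((Y % D ^ (n - x) : ℕ) : ℤ) - z
    let lo : ℤ := (D : ℤ) ^ n * ((X + (W : ℤ) * (Y : ℤ)) / (D : ℤ) ^ n) -
      (W : ℤ) * ((D : ℤ) ^ (n - x) * ((Y / D ^ (n - x) : ℕ) : ℤ)) - (D : ℤ) ^ (k + o) -
      2 * (D : ℤ) ^ k
    lo ≤ s ∧ s ≤ lo + 4 * (D : ℤ) ^ 2 * (D : ℤ) ^ k := by
  intro s lo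
  have hD0 : 0 < D := by omega
  have hDz : (1 : ℤ) ≤ D := by exact_mod_cast hD0
  have hn : (0 : ℤ) < (D : ℤ) ^ n := by positivity
  have a1 := Int.emod_add_mul_ediv (X + (W : ℤ) * (Y : ℤ)) ((D : ℤ) ^ n)
  have a2 := Int.emod_nonneg (X + (W : ℤ) * (Y : ℤ)) hn.ne'
  have a3 := Int.emod_lt_of_pos (X + (W : ℤ) * (Y : ℤ)) hn
  have b1 : ((Y % D ^ (n - x) : ℕ) : ℤ) + (D : ℤ) ^ (n - x) * ((Y / D ^ (n - x) : ℕ) : ℤ) = Y := by
    exact_mod_cast Nat.mod_add_div Y (D ^ (n - x))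
  have c1 : ((W % D ^ (n - j) : ℕ) : ℤ) + ((D ^ (n - j) * (W / D ^ (n - j)) : ℕ) : ℤ) = W := by
    exact_mod_cast Nat.mod_add_div W (D ^ (n - j))
  have p1 : (W % D ^ (n - j)) * (Y % D ^ (n - x)) ≤ D ^ (k + o) := by
    rw [← e, pow_add]
    exact Nat.mul_le_mul (Nat.mod_lt _ (by positivity)).le (Nat.mod_lt _ (by positivity)).le
  have p2 : ((W % D ^ (n - j) : ℕ) : ℤ) * ((Y % D ^ (n - x) : ℕ) : ℤ) ≤ (D : ℤ) ^ (k + o) := by
    exact_mod_cast p1
  have p3 : (0 : ℤ) ≤ ((W % D ^ (n - j) : ℕ) : ℤ) * ((Y % D ^ (n - x) : ℕ) : ℤ) := by positivity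
  have q1 : (D : ℤ) ^ n ≤ (D : ℤ) ^ k := pow_le_pow_right₀ hDz hk
  have q2 : (D : ℤ) ^ (k + o) ≤ (D : ℤ) ^ 2 * (D : ℤ) ^ k := by
    rw [← pow_add]
    exact pow_le_pow_right₀ hDz (by omega)
  have q3 : (D : ℤ) ^ k ≤ (D : ℤ) ^ 2 * (D : ℤ) ^ k := by
    rw [← pow_add]
    exact pow_le_pow_right₀ hDz (by omega)
  have h1' : z < 2 * (D : ℤ) ^ k := by exact_mod_cast h1
  have key : s - lo = (X + (W : ℤ) * (Y : ℤ)) % (D : ℤ) ^ n -
      ((W % D ^ (n - j) : ℕ) : ℤ) * ((Y % D ^ (n - x) : ℕ) : ℤ) - z + (D : ℤ) ^ (k + o) +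
      2 * (D : ℤ) ^ k := by
    simp only [s, lo]
    generalize ((W % D ^ (n - j) : ℕ) : ℤ) = rw' at *
    generalize ((Y % D ^ (n - x) : ℕ) : ℤ) = ry at *
    generalize ((D ^ (n - j) * (W / D ^ (n - j)) : ℕ) : ℤ) = tw at *
    generalize (D : ℤ) ^ (n - x) * ((Y / D ^ (n - x) : ℕ) : ℤ) = ty at *
    generalize (X + (W : ℤ) * (Y : ℤ)) % (D : ℤ) ^ n = m at *
    generalize (D : ℤ) ^ n * ((X + (W : ℤ) * (Y : ℤ)) / (D : ℤ) ^ n) = t at *
    linear_combination -a1 + (W : ℤ) * b1 + ry * c1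
  constructor <;> linarith

end D3

theorem d3 : D3Stmt := by
  intro Ω _ A w hA
  have hw := hA.nn
  refine ⟨?_, fun x j u o ho e hu => ?_⟩
  · have h := D3.tele hw A.D A.n A.Y hA.hY (pr A.W A.Z)
    have h1 : I w A.Y A.W un ≤ A.J1 w := by
      rw [I_symm hw]
      exact I_mono hw Det.fst (Det.fst.trans (Det.fst.trans Det.snd))
    have h2 : I w A.Y A.Z (pr A.W un) = A.J2 w := I_congr Det.fst (Det.pr Det.rfl Det.un)
    rw [I_chain hw] at h
    calc ∑ x ∈ range (A.n + 1), A.d3 w x = _ := h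
      _ ≤ _ := by linarith
  · have hD := hA.hD
    obtain ⟨k, hk⟩ : ∃ k, k = 2 * A.n - (u + A.r) := ⟨_, rfl⟩
    have h1 : I w (A.cY (x + 1)) (A.O x j u) (A.cY x) ≤
        I w (A.cY (x + 1)) (pr (pr A.W A.Z) (A.C x j u)) (A.cY x) := by
      refine I_mono hw Det.fst (Det.pr (Det.pr ?_ Det.snd) (Det.fst.trans Det.snd))
      exact (Det.fst.trans (Det.fst.trans Det.fst)).trans (Det.comp fun a => a / A.D ^ (A.n - j))
    rw [I_chain hw] at h1
    refine h1.trans (add_le_add le_rfl ?_)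
    have hC : A.C x j u = fun p => (A.X p + A.tW j p * A.rY x p - A.ζ (u + A.r) p) -
        (A.ζ u p - A.ζ (u + A.r) p) := by
      funext p
      simp only [Ab.C]
      ring
    rw [hC]
    have hX : Det (pr (pr A.X (pr A.Y A.W)) (A.ζ (u + A.r))) A.X := Det.fst.trans Det.fst
    have hY : Det (pr (pr A.X (pr A.Y A.W)) (A.ζ (u + A.r))) A.Y :=
      Det.fst.trans (Det.snd.trans Det.fst)
    have hW : Det (pr (pr A.X (pr A.Y A.W)) (A.ζ (u + A.r))) A.W :=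
      Det.fst.trans (Det.snd.trans Det.snd)
    have hz : Det (pr (pr A.X (pr A.Y A.W)) (A.ζ (u + A.r))) (A.ζ (u + A.r)) := Det.snd
    refine leak (lo := fun p => (A.D : ℤ) ^ A.n * A.Z p -
      (A.W p : ℤ) * ((A.D : ℤ) ^ (A.n - x) * (A.cY x p : ℤ)) - (A.D : ℤ) ^ (k + o) -
      2 * (A.D : ℤ) ^ k) hw (hA.unif u (by omega))
      (hY.trans (Det.comp fun a => a / A.D ^ (A.n - (x + 1))))
      (Det.pr (Det.pr hW fun p q h => ?_) (hY.trans (Det.comp fun a => a / A.D ^ (A.n - x))))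
      (fun p q h => ?_) (fun p q h => ?_) (by positivity) fun p => ?_
    · simp only [Ab.Z, Zc, hX p q h, hY p q h, hW p q h]
    · simp only [Ab.tW, Ab.rY, hX p q h, hY p q h, hW p q h, hz p q h]
    · have a : A.W p = A.W q := congrArg (fun t => t.1.1) h
      have b : A.Z p = A.Z q := congrArg (fun t => t.1.2) h
      have c : A.cY x p = A.cY x q := congrArg (fun t => t.2) h
      simp only [a, b, c]
    · have hb := hA.bd (u + A.r) p
      rw [Ab.hh, ← hk] at hb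
      have h := D3.arith (n := A.n) (x := x) (j := j) (o := o) (k := k) hD ho (by omega) (by omega)
        (A.X p) (A.ζ (u + A.r) p) (A.Y p) (A.W p) hb.1 hb.2
      refine ⟨h.1, ?_⟩
      have hD0 : (0 : ℝ) < A.D := by exact_mod_cast (by omega : 0 < A.D)
      have e2 : 4 * (A.D : ℝ) ^ 2 / (A.D : ℝ) ^ A.r * (A.hh u : ℝ) =
          ((4 * (A.D : ℤ) ^ 2 * (A.D : ℤ) ^ k : ℤ) : ℝ) := by
        have : 2 * A.n - u = k + A.r := by omega
        rw [Ab.hh, this]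
        push_cast
        rw [pow_add]
        field_simp
      rw [e2, ← Int.cast_add, Int.cast_le]
      exact h.2

end Pool.Agent.Lib.MP_108739_an.F
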