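import Pool.Agent.Lib.MP_108739_an.F.AbcDefs
import Pool.Agent.Lib.MP_108739_an.F.Ent1

/-! Full digits give entropy. -/

open Finset

namespace Pool.Agent.Lib.MP_108739_an.F
open Classical

namespace En

lemma div_two {h a b : ℤ} (hh : 0 < h) (h1 : a ≤ b) (h2 : b < a + h) :
    a / h ≤ b / h ∧ b / h < a / h + (2 : ℕ) := by
  refine ⟨Int.ediv_le_ediv hh h1, ?_⟩
  have h3 : b / h ≤ (a + h) / h := Int.ediv_le_ediv hh h2.le
  have h4 : (a + h) / h = a / h + 1 := by
    have := Int.add_mul_ediv_right a 1 hh.ne'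
    simpa using this
  push_cast
  omega

variable {Ω : Type} [Fintype Ω] {w : Ω → ℝ}

lemma two_val {β : Type} (hw : Nn w) {F G : Ω → ℤ} {g : Ω → β} (hG : Det g G)
    (h : ∀ o, G o ≤ F o ∧ F o < G o + (2 : ℕ)) : H w F g ≤ tot w := by
  have := H_le_int (K := 2) hw (by norm_num) hG fun o _ => h o
  have e : lg ((2 : ℕ) : ℝ) = 1 := by simpa using lg_two
  rw [e] at this
  simpa using this

/-- replacing both arguments by neighbours costs two bits -/
lemma near {κ : Type} (hw : Nn w) (X R : Ω → ℤ) (k : Ω → κ) {h h' : ℤ} (hh : 0 < h) (hh' : h ≤ h')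
    (hd : ∀ o, R o ≤ X o ∧ X o < R o + h) :
    H w (fun o => R o / h) (pr (fun o => R o / h') k) ≤
      H w (fun o => X o / h) (pr (fun o => X o / h') k) + 2 * tot w := by
  have hp' : 0 < h' := lt_of_lt_of_le hh hh'
  have s1 := H_tri hw (fun o => R o / h) (fun o => X o / h') (pr (fun o => R o / h') k)
  have s2 := H_tri hw (fun o => R o / h) (fun o => X o / h)
    (pr (fun o => X o / h') (pr (fun o => R o / h') k))
  have s3 : H w (fun o => X o / h') (pr (fun o => R o / h') k) ≤ tot w :=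
    two_val hw (G := fun o => R o / h') Det.fst fun o =>
      div_two hp' (hd o).1 (by have := (hd o).2; omega)
  have s4 : H w (fun o => X o / h) (pr (fun o => X o / h') (pr (fun o => R o / h') k)) ≤
      H w (fun o => X o / h) (pr (fun o => X o / h') k) :=
    H_mono hw Det.fst (Det.pr Det.fst (Det.trans Det.snd Det.snd))
  have s5 : H w (fun o => R o / h) (pr (fun o => X o / h)
      (pr (fun o => X o / h') (pr (fun o => R o / h') k))) ≤ tot w := by
    refine two_val hw (G := fun o => X o / h - 1) ?_ fun o => ?_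
    · exact Det.trans Det.fst (Det.comp fun z => z - 1)
    · have := div_two hh (hd o).1 (hd o).2
      push_cast at this ⊢
      omega
  linarith

variable (A : Ab Ω)

/-- the digits of `X` down to level `k` -/
def Xk (k : ℕ) : Ω → ℤ := fun o => A.X o / (A.hh k : ℤ)

omit [Fintype Ω] in
lemma hh_pos (hD : 2 ≤ A.D) (k : ℕ) : (0 : ℤ) < A.hh k := by
  have : 0 < A.hh k := by unfold Ab.hh; positivity
  exact_mod_cast this

omit [Fintype Ω] in
lemma Xk_det (hD : 2 ≤ A.D) {a b : ℕ} (h : a ≤ b) : Det (Xk A b) (Xk A a) := by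
  intro o o' e
  obtain ⟨c, hc⟩ : A.hh b ∣ A.hh a := pow_dvd_pow _ (by omega)
  have hp := hh_pos A hD b
  have : ∀ z : ℤ, z / (A.hh a : ℤ) = z / (A.hh b : ℤ) / (c : ℤ) := by
    intro z
    rw [hc, Nat.cast_mul, Int.ediv_ediv_of_nonneg hp.le]
  unfold Xk at e ⊢
  rw [this, this, e]

lemma tele (hw : Nn w) (hD : 2 ≤ A.D) (m : ℕ) :
    ∑ a ∈ range m, H w (Xk A (a + 1)) (pr (Xk A a) A.Y) ≤ H w (Xk A m) A.Y := by
  induction m with
  | zero => simpa using H_nonneg hw _ _
  | succ m ih =>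
    rw [sum_range_succ]
    have s1 := H_chain hw (Xk A m) (Xk A (m + 1)) A.Y
    have s2 : H w (pr (Xk A m) (Xk A (m + 1))) A.Y ≤ H w (Xk A (m + 1)) A.Y :=
      H_mono hw (Det.pr (Det.trans Det.fst (Xk_det A hD (by omega))) Det.fst) Det.rfl
    linarith

lemma top (hA : A.Ok w) : H w (Xk A A.n) A.Y ≤ H w A.Z A.W + A.J1 w + tot w := by
  have hw := hA.nn
  have hp : (0 : ℤ) < (A.D : ℤ) ^ A.n := by
    have := hA.hD
    positivity
  have e : (A.hh A.n : ℤ) = (A.D : ℤ) ^ A.n := by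
    unfold Ab.hh
    rw [show 2 * A.n - A.n = A.n by omega]
    push_cast
    rfl
  have s1 := H_tri hw (Xk A A.n) A.Z (pr A.W A.Y)
  have s2 : H w A.Z (pr A.W A.Y) ≤ H w A.Z A.W := H_mono hw Det.fst Det.fst
  have s3 : H w (Xk A A.n) (pr A.Z (pr A.W A.Y)) ≤ tot w := by
    refine two_val hw
      (G := fun o => (A.Z o * (A.D : ℤ) ^ A.n - (A.W o : ℤ) * (A.Y o : ℤ)) / (A.D : ℤ) ^ A.n)
      (Det.comp fun z : ℤ × ℕ × ℕ =>
        (z.1 * (A.D : ℤ) ^ A.n - (z.2.1 : ℤ) * (z.2.2 : ℤ)) / (A.D : ℤ) ^ A.n) fun o => ?_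
    unfold Xk
    rw [e]
    have h1 : A.Z o * (A.D : ℤ) ^ A.n ≤ A.X o + (A.W o : ℤ) * (A.Y o : ℤ) :=
      Int.ediv_mul_le _ hp.ne'
    have h2 : A.X o + (A.W o : ℤ) * (A.Y o : ℤ) < (A.Z o + 1) * (A.D : ℤ) ^ A.n :=
      Int.lt_ediv_add_one_mul_self _ hp
    exact div_two hp (by linarith) (by linarith)
  have s4 : I w (Xk A A.n) A.W A.Y ≤ A.J1 w := by
    rw [I_symm hw]
    have hV : Det A.V (Xk A A.n) :=
      Det.comp fun z : (ℤ × ℕ) × (ℕ → ℤ) => z.1.1 / (A.hh A.n : ℤ)
    have hY : Det A.V A.Y := Det.comp fun z : (ℤ × ℕ) × (ℕ → ℤ) => z.1.2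
    have t1 : I w A.W (Xk A A.n) A.Y ≤ I w A.W A.V A.Y :=
      I_mono hw Det.fst (Det.trans Det.fst hV)
    have t2 : I w A.W A.V A.Y ≤ I w A.W A.V un :=
      I_cond_le hw Det.un (Det.trans Det.fst hY)
    exact t1.trans t2
  unfold I at s4
  linarith

lemma lev (hA : A.Ok w) {v : ℕ} (hv : v ≤ A.n) (h3 : 3 ≤ v) :
    (lg A.D - 4) * tot (res w (A.Full w v)) ≤
      H w (Xk A (v - 3 + 1)) (pr (Xk A (v - 3)) A.Y) + 2 * tot w := by
  have hw := hA.nn
  have hD := hA.hD
  have e : v - 3 + 1 = v - 2 := by omega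
  rw [e]
  have hle : (A.hh (v - 2) : ℤ) ≤ A.hh (v - 3) := by
    have : A.hh (v - 2) ≤ A.hh (v - 3) := Nat.pow_le_pow_right (by omega) (by omega)
    exact_mod_cast this
  have h2 : 2 * (A.hh v : ℤ) ≤ A.hh (v - 2) := by
    have : 2 * A.hh v ≤ A.hh (v - 2) := by
      unfold Ab.hh
      calc 2 * A.D ^ (2 * A.n - v) ≤ A.D * A.D ^ (2 * A.n - v) := Nat.mul_le_mul_right _ hD
        _ = A.D ^ (2 * A.n - v + 1) := by ring
        _ ≤ _ := Nat.pow_le_pow_right (by omega) (by omega)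
    exact_mod_cast this
  have s1 := near hw A.X (A.R v) (A.kap (v - A.r)) (hh_pos A hD (v - 2)) hle fun o => by
    have := hA.bd v o
    unfold Ab.R
    constructor <;> omega
  have s2 : H w (Xk A (v - 2)) (pr (Xk A (v - 3)) (A.kap (v - A.r))) ≤
      H w (Xk A (v - 2)) (pr (Xk A (v - 3)) A.Y) :=
    H_mono hw Det.fst (Det.pr Det.fst (Det.trans Det.snd Det.fst))
  have s3 : (lg A.D - 4) * tot (res w (A.Full w v)) ≤
      H w (fun o => A.R v o / (A.hh (v - 2) : ℤ))
        (pr (fun o => A.R v o / (A.hh (v - 3) : ℤ)) (A.kap (v - A.r))) := by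
    rw [H_fib hw, ← E_ind, ← E_mul]
    refine E_mono hw fun o ho => ?_
    have hm := ms_pos hw (A.kap (v - A.r)) ho
    rw [le_div_iff₀ hm]
    split_ifs with hf
    · simpa using hf.2
    · simpa using H_nonneg (hw.res _) _ _
  exact s3.trans (s1.trans (by unfold Xk at s2; unfold Xk; linarith))

end En

open En in
theorem endd : EndStmt := by
  intro Ω _ A w hA
  have hw := hA.nn
  have ht := tot_nonneg hw
  have e1 : E w (fun p => (#((range (A.n + 1)).filter fun v => A.Full w v p) : ℝ)) =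
      ∑ v ∈ range (A.n + 1), tot (res w (A.Full w v)) := by
    simp only [← E_ind]
    rw [← E_sum]
    congr 1
    funext p
    rw [card_filter]
    push_cast
    rfl
  rw [e1, mul_sum]
  have s1 : ∑ v ∈ range (A.n + 1), (lg A.D - 4) * tot (res w (A.Full w v)) ≤
      ∑ v ∈ range (A.n + 1), ((if 3 ≤ v then H w (Xk A (v - 3 + 1)) (pr (Xk A (v - 3)) A.Y)
        else 0) + 2 * tot w) := by
    refine sum_le_sum fun v hv => ?_
    have hv' : v ≤ A.n := by simpa [Nat.lt_succ_iff] using hv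
    split_ifs with h3
    · exact lev A hA hv' h3
    · have : tot (res w (A.Full w v)) = 0 := by
        unfold tot res
        refine sum_eq_zero fun o _ => if_neg fun hf => ?_
        have := hf.1
        have := hA.hr
        omega
      rw [this]
      linarith
  have s2 : ∑ v ∈ range (A.n + 1), (if 3 ≤ v then H w (Xk A (v - 3 + 1)) (pr (Xk A (v - 3)) A.Y)
      else 0) ≤ ∑ a ∈ range A.n, H w (Xk A (a + 1)) (pr (Xk A a) A.Y) := by
    rw [← sum_filter]
    have hi : ∑ v ∈ (range (A.n + 1)).filter (fun v => 3 ≤ v),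
        H w (Xk A (v - 3 + 1)) (pr (Xk A (v - 3)) A.Y) =
        ∑ a ∈ ((range (A.n + 1)).filter (fun v => 3 ≤ v)).image (fun v => v - 3),
          H w (Xk A (a + 1)) (pr (Xk A a) A.Y) := by
      rw [sum_image]
      intro a ha b hb hab
      simp only [coe_filter, Set.mem_ofPred_eq] at ha hb
      have h1 := ha.2
      have h2 := hb.2
      simp only at hab
      omega
    rw [hi]
    refine sum_le_sum_of_subset_of_nonneg ?_ fun a _ _ => H_nonneg hw _ _
    intro a ha
    simp only [mem_image, mem_filter, mem_range] at ha ⊢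
    obtain ⟨v, ⟨h1, h2⟩, rfl⟩ := ha
    omega
  have s3 := tele A hw hA.hD A.n
  have s4 := top A hA
  rw [sum_add_distrib, sum_const, card_range, nsmul_eq_mul] at s1
  push_cast at s1
  linarith

end Pool.Agent.Lib.MP_108739_an.F
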