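import Pool.Agent.Lib.MP_108739_an.F.AbcDefs

/-! Extension of the space by noise variables. -/

open Finset

namespace Pool.Agent.Lib.MP_108739_an.F

noncomputable section
open Classical

namespace Xt

variable {Ω : Type} [Fintype Ω]

/-- sizes of the noise coordinates -/
def hh (D n : ℕ) (k : Fin (n + 1)) : ℕ := D ^ (2 * n - k)

abbrev Nz (D n : ℕ) : Type := ∀ k : Fin (n + 1), Fin (hh D n k)

def wt (w : Ω → ℝ) (D n : ℕ) : Ω × Nz D n → ℝ := fun p => w p.1 / (Fintype.card (Nz D n) : ℝ)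

def xi (D n : ℕ) (k : ℕ) (z : Nz D n) : ℤ :=
  if h : k < n + 1 then ((z ⟨k, h⟩ : ℕ) : ℤ) else 0

def ze (D n r : ℕ) (v : ℕ) (z : Nz D n) : ℤ :=
  ∑ k ∈ (range (n + 1)).filter (fun k => v ≤ k ∧ r ∣ k - v), xi D n k z

lemma hh_pos {D n : ℕ} (hD : 2 ≤ D) (k : Fin (n + 1)) : 0 < hh D n k :=
  pow_pos (by omega) _

lemma card_pos {D n : ℕ} (hD : 2 ≤ D) : (0 : ℝ) < (Fintype.card (Nz D n) : ℝ) := by
  have : Nonempty (Nz D n) := ⟨fun k => ⟨0, hh_pos hD k⟩⟩
  exact_mod_cast Fintype.card_pos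

lemma xi_nonneg (D n k : ℕ) (z : Nz D n) : 0 ≤ xi D n k z := by
  unfold xi; split_ifs <;> positivity

lemma xi_lt {D n k : ℕ} (hk : k ≤ n) (z : Nz D n) : xi D n k z < ((D ^ (2 * n - k) : ℕ) : ℤ) := by
  unfold xi
  rw [dif_pos (by omega)]
  exact_mod_cast (z ⟨k, by omega⟩).2

lemma ze_big {D n r v : ℕ} (hv : n < v) (z : Nz D n) : ze D n r v z = 0 := by
  unfold ze
  refine sum_eq_zero fun k hk => ?_
  simp only [mem_filter, mem_range] at hk
  omega

lemma ze_rec {D n r v : ℕ} (hr : 1 ≤ r) (hv : v ≤ n) (z : Nz D n) :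
    ze D n r v z = xi D n v z + ze D n r (v + r) z := by
  unfold ze
  have : (range (n + 1)).filter (fun k => v ≤ k ∧ r ∣ k - v) =
      insert v ((range (n + 1)).filter fun k => v + r ≤ k ∧ r ∣ k - (v + r)) := by
    ext k
    simp only [mem_filter, mem_range, mem_insert]
    constructor
    · rintro ⟨h1, h2, h3⟩
      by_cases hk : k = v
      · exact Or.inl hk
      · have hpos : 0 < k - v := by omega
        have hle := Nat.le_of_dvd hpos h3
        refine Or.inr ⟨h1, by omega, ?_⟩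
        have : k - (v + r) = k - v - r := by omega
        rw [this]
        exact Nat.dvd_sub h3 dvd_rfl
    · rintro (rfl | ⟨h1, h2, h3⟩)
      · exact ⟨by omega, le_rfl, by simp⟩
      · refine ⟨h1, by omega, ?_⟩
        have : k - v = k - (v + r) + r := by omega
        rw [this]
        exact Nat.dvd_add h3 dvd_rfl
  rw [this, sum_insert]
  simp only [mem_filter, mem_range]
  omega

lemma ze_nonneg (D n r v : ℕ) (z : Nz D n) : 0 ≤ ze D n r v z :=
  sum_nonneg fun k _ => xi_nonneg D n k z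

lemma ze_lt {D n r : ℕ} (hD : 2 ≤ D) (hr : 1 ≤ r) (z : Nz D n) :
    ∀ m v : ℕ, n < v + m → ze D n r v z < 2 * ((D ^ (2 * n - v) : ℕ) : ℤ) := by
  have hp : ∀ j : ℕ, (0 : ℤ) < ((D ^ j : ℕ) : ℤ) := fun j => by
    exact_mod_cast pow_pos (by omega : 0 < D) j
  intro m
  induction m with
  | zero =>
    intro v hv
    rw [ze_big (by omega)]
    have := hp (2 * n - v)
    omega
  | succ m ih =>
    intro v hv
    by_cases h : n < v
    · rw [ze_big h]
      have := hp (2 * n - v)
      omega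
    · rw [ze_rec hr (by omega)]
      have h1 := xi_lt (D := D) (show v ≤ n by omega) z
      by_cases h2 : n < v + r
      · rw [ze_big h2]
        have := hp (2 * n - v)
        omega
      · have h3 := ih (v + r) (by omega)
        have h4 : 2 * D ^ (2 * n - (v + r)) ≤ D ^ (2 * n - v) := by
          calc 2 * D ^ (2 * n - (v + r)) ≤ D * D ^ (2 * n - (v + r)) := Nat.mul_le_mul_right _ hD
            _ = D ^ (2 * n - (v + r) + 1) := by rw [pow_succ, mul_comm]
            _ ≤ D ^ (2 * n - v) := Nat.pow_le_pow_right (by omega) (by omega)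
        have h5 : 2 * ((D ^ (2 * n - (v + r)) : ℕ) : ℤ) ≤ ((D ^ (2 * n - v) : ℕ) : ℤ) := by
          exact_mod_cast h4
        omega

lemma ze_inj {D n r : ℕ} (hr : 1 ≤ r) {z z' : Nz D n}
    (h : (fun v => ze D n r v z) = fun v => ze D n r v z') : z = z' := by
  funext k
  have h1 := congrFun h k
  have h2 := congrFun h (k + r)
  have hk : (k : ℕ) ≤ n := by have := k.2; omega
  rw [ze_rec hr hk, ze_rec hr hk z', h2] at h1
  have h3 : xi D n k z = xi D n k z' := by omega
  unfold xi at h3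
  rw [dif_pos k.2, dif_pos k.2] at h3
  exact Fin.ext (by exact_mod_cast h3)

lemma ze_update {D n r v : ℕ} (k : Fin (n + 1)) (hk : (k : ℕ) < v) (z : Nz D n)
    (a : Fin (hh D n k)) : ze D n r v (Function.update z k a) = ze D n r v z := by
  unfold ze
  refine sum_congr rfl fun j hj => ?_
  simp only [mem_filter, mem_range] at hj
  unfold xi
  rw [dif_pos hj.1, dif_pos hj.1, Function.update_of_ne]
  intro h
  have := congrArg Fin.val h
  simp only at this
  omega

lemma E_wt {D n : ℕ} (hD : 2 ≤ D) (w F : Ω → ℝ) :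
    E (wt w D n) (fun p => F p.1) = E w F := by
  have hc := card_pos (n := n) hD
  unfold E wt
  rw [Fintype.sum_prod_type]
  refine sum_congr rfl fun o _ => ?_
  simp only [sum_const, card_univ, nsmul_eq_mul]
  field_simp

lemma ms_noise {D n : ℕ} {α : Type} (w : Ω → ℝ) (f : Ω → α) {γ : Type} (G : Ω × Nz D n → γ)
    (hG : ∀ p p', G p' = G p ↔ f p'.1 = f p.1 ∧ p'.2 = p.2) (p : Ω × Nz D n) :
    ms (wt w D n) G p = ms w f p.1 / (Fintype.card (Nz D n) : ℝ) := by
  unfold ms wt
  rw [Fintype.sum_prod_type, sum_div]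
  refine sum_congr rfl fun o _ => ?_
  simp only [hG]
  by_cases h : f o = f p.1
  · simp [h]
  · simp [h]

/-- swap of two values of one coordinate -/
def sw {D n : ℕ} (k : Fin (n + 1)) (a b : Fin (hh D n k)) (p : Ω × Nz D n) : Ω × Nz D n :=
  (p.1, Function.update p.2 k (Equiv.swap a b (p.2 k)))

omit [Fintype Ω] in
lemma sw_sw {D n : ℕ} (k : Fin (n + 1)) (a b : Fin (hh D n k)) :
    Function.Involutive (sw (Ω := Ω) k a b) := by
  intro p
  simp [sw]

lemma ms_coord {D n : ℕ} (hD : 2 ≤ D) (w : Ω → ℝ) (k : Fin (n + 1)) {γ : Type}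
    (G : Ω × Nz D n → γ) (hG : ∀ p a, G (p.1, Function.update p.2 k a) = G p)
    (ξ : Ω × Nz D n → ℤ) (hξ : ∀ p, ξ p = ((p.2 k : ℕ) : ℤ)) (p : Ω × Nz D n) :
    ms (wt w D n) (pr ξ G) p = ms (wt w D n) G p / (hh D n k : ℝ) := by
  set S : Fin (hh D n k) → ℝ := fun a =>
    ∑ p' : Ω × Nz D n, if p'.2 k = a ∧ G p' = G p then wt w D n p' else 0 with hS
  have h1 : ∀ a b, S a = S b := by
    intro a b
    simp only [hS]
    rw [← Equiv.sum_comp (sw_sw k a b).toPerm]
    refine sum_congr rfl fun p' _ => ?_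
    have e1 : G (sw k a b p') = G p' := hG p' _
    have e2 : wt w D n (sw k a b p') = wt w D n p' := rfl
    have e3 : (sw k a b p').2 k = a ↔ p'.2 k = b := by
      simp only [sw, Function.update_self]
      rw [Equiv.swap_apply_eq_iff, Equiv.swap_apply_left]
    simp only [Function.Involutive.coe_toPerm, e1, e2, e3]
  have h2 : ms (wt w D n) G p = ∑ a, S a := by
    simp only [hS]
    rw [sum_comm]
    unfold ms
    refine sum_congr rfl fun p' _ => ?_
    by_cases h : G p' = G p
    · simp [h]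
    · simp [h]
  have h3 : ms (wt w D n) (pr ξ G) p = S (p.2 k) := by
    simp only [hS]
    unfold ms
    refine sum_congr rfl fun p' _ => ?_
    have : pr ξ G p' = pr ξ G p ↔ p'.2 k = p.2 k ∧ G p' = G p := by
      simp only [pr, Prod.mk.injEq, hξ, Nat.cast_inj, Fin.ext_iff]
    simp only [this]
  have h4 : ∑ a, S a = (hh D n k : ℝ) * S (p.2 k) := by
    rw [sum_congr rfl fun a _ => h1 a (p.2 k)]
    simp
  have hp : (0 : ℝ) < (hh D n k : ℝ) := by exact_mod_cast hh_pos hD k
  rw [h2, h3, h4]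
  field_simp

end Xt

open Xt in
theorem abcExt : ExtStmt := by
  intro Ω _ w D n r hw hD hr
  have hc := card_pos (n := n) hD
  refine ⟨Ω × Nz D n, inferInstance, Prod.fst, wt w D n, fun v p => ze D n r v p.2,
    fun p => div_nonneg (hw _) hc.le, fun F => E_wt hD w F, fun u hu => ?_, fun v p => ?_,
    fun α β f g => ?_⟩
  · have hξ : ∀ p : Ω × Nz D n, ze D n r u p.2 - ze D n r (u + r) p.2 = xi D n u p.2 := by
      intro p
      rw [ze_rec hr hu]; ring
    refine ⟨fun p => ?_, fun p => ?_⟩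
    · simp only [hξ]
      exact ⟨xi_nonneg _ _ _ _, xi_lt hu _⟩
    · refine ms_coord hD w ⟨u, by omega⟩ _ (fun p a => ?_) _ (fun p => ?_) p
      · simp only [pr]
        rw [ze_update _ (by simp only; omega)]
      · rw [hξ]
        unfold xi
        rw [dif_pos (by omega)]
  · exact ⟨ze_nonneg _ _ _ _ _, ze_lt hD hr _ (n + 1) v (by omega)⟩
  · unfold H
    rw [← E_wt (n := n) hD w]
    congr 1
    funext p
    rw [ms_noise w g _ (fun p p' => ?_) p, ms_noise w (pr f g) _ (fun p p' => ?_) p,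
      div_div_div_cancel_right₀ hc.ne']
    · simp only [pr, Prod.mk.injEq, and_assoc]
      exact and_congr_right fun _ => and_congr_right fun _ =>
        ⟨fun h => ze_inj hr h, fun h => by rw [h]⟩
    · simp only [pr, Prod.mk.injEq]
      exact and_congr_right fun _ => ⟨fun h => ze_inj hr h, fun h => by rw [h]⟩

end

end Pool.Agent.Lib.MP_108739_an.F
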