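import Pool.Agent.Lib.MP_108739_an.F.AbcDefs
import Pool.Agent.Lib.MP_108739_an.F.Ent3

/-! A branching point with a typical local law has many far partners. -/

open Finset

namespace Pool.Agent.Lib.MP_108739_an.F
open Classical

lemma far_lw_sum {Ω α β : Type} [Fintype Ω] (w : Ω → ℝ) (f : Ω → α) (g : Ω → β) (o : Ω)
    (P : α → Prop) (s : Finset α) (hs : ∀ o', f o' ∈ s ↔ P (f o')) : ∑ v ∈ s, lw w f g o v =
      tot (res w fun o' => g o' = g o ∧ P (f o')) / ms w g o := by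
  simp only [lw_apply]
  rw [← Finset.sum_div]
  congr 1
  unfold tot res
  rw [Finset.sum_comm]
  refine Finset.sum_congr rfl fun o' _ => ?_
  by_cases h : g o' = g o ∧ P (f o')
  · rw [if_pos h, Finset.sum_eq_single (f o')]
    · rw [if_pos ⟨rfl, h.1⟩]
    · intro v _ hv
      rw [if_neg fun h' => hv h'.1.symm]
    · intro hn
      exact absurd ((hs o').2 h.2) hn
  · rw [if_neg h]
    refine Finset.sum_eq_zero fun v hv => ?_
    rw [if_neg]
    rintro ⟨rfl, h2⟩
    exact h ⟨h2, (hs o').1 hv⟩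

theorem far : FarStmt := by
  intro Ω α _ w O D n x Y hw hd
  have hp := pinsker hw (cl D n (x + 1) Y) hd
  have hm := markov hw (F := fun o => n1 (lw w (cl D n (x + 1) Y) O o -
    lw w (cl D n (x + 1) Y) (cl D n x Y) o)) (fun o _ => n1_nonneg _) (1 / 4)
  refine le_trans (tot_res_mono hw (B := fun o => 1 / 4 ≤ n1 (lw w (cl D n (x + 1) Y) O o -
    lw w (cl D n (x + 1) Y) (cl D n x Y) o)) ?_) (by linarith)
  rintro p hp0 ⟨hb, hf⟩
  set c1 := cl D n (x + 1) Y with hc1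
  let P : ℕ → Prop := fun v => |(v : ℤ) - c1 p| ≤ 1
  obtain ⟨s, hs⟩ : ∃ s : Finset ℕ, ∀ o', c1 o' ∈ s ↔ P (c1 o') :=
    ⟨(univ.image c1).filter P, fun o' => by simp⟩
  have h1 := far_lw_sum w c1 O p P s hs
  have h2 := far_lw_sum w c1 (cl D n x Y) p P s hs
  have h3 := sum_mul_le_n1 (lw w c1 O p - lw w c1 (cl D n x Y) p) s
    (fun _ => 1) (c := 1) zero_le_one (fun _ _ => by simp)
  simp only [Finsupp.sub_apply, mul_one, one_mul, Finset.sum_sub_distrib] at h3
  rw [h1, h2] at h3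
  have m1 := ms_pos hw O hp0
  have m2 := ms_pos hw (cl D n x Y) hp0
  have h4 : tot (res w fun o' => cl D n x Y o' = cl D n x Y p ∧ P (c1 o')) /
      ms w (cl D n x Y) p ≤ 1 / 2 := by
    rw [div_le_iff₀ m2]
    have : tot (res w fun o' => cl D n x Y o' = cl D n x Y p ∧ P (c1 o')) ≤
      ms w (cl D n x Y) p / 2 := hb
    linarith
  have h5 : 3 / 4 ≤ tot (res w fun o' => O o' = O p ∧ P (c1 o')) / ms w O p := by
    rw [le_div_iff₀ m1]
    have h6 : tot (res w fun o' => O o' = O p) ≤ tot (res w fun o' => (O o' = O p ∧ P (c1 o')) ∨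
        (O o' = O p ∧ 2 ≤ |(c1 o' : ℤ) - c1 p|)) := by
      refine tot_res_mono hw fun o _ h => ?_
      by_cases hP : P (c1 o)
      · exact Or.inl ⟨h, hP⟩
      · exact Or.inr ⟨h, by have := not_le.1 hP; omega⟩
    have h7 := tot_res_or hw (fun o' => O o' = O p ∧ P (c1 o'))
      (fun o' => O o' = O p ∧ 2 ≤ |(c1 o' : ℤ) - c1 p|)
    rw [← ms_eq_tot] at h6
    have h8 := not_le.1 hf
    linarith
  linarith

end Pool.Agent.Lib.MP_108739_an.F
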