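import Pool.Agent.Lib.MP_108739_an.F.AbcDefs
import Pool.Agent.Lib.MP_108739_an.F.Ent3

/-! The rectangle argument of the ABC step. -/

open Finset

namespace Pool.Agent.Lib.MP_108739_an.F
open Classical

variable {Ω α β γ : Type} [Fintype Ω] {w : Ω → ℝ}

/-- average of `K` over the fibre of `g` through `p` -/
noncomputable def rectAv (w : Ω → ℝ) (g : Ω → α) (p : Ω) (K : Ω → ℝ) : ℝ :=
  E (res w fun o => g o = g p) K / ms w g p

lemma rectAv_mono (hw : Nn w) (g : Ω → α) (p : Ω) {K L : Ω → ℝ}
    (h : ∀ o, g o = g p → K o ≤ L o) : rectAv w g p K ≤ rectAv w g p L := by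
  unfold rectAv
  exact div_le_div_of_nonneg_right
    (E_mono (hw.res _) fun o ho => h o (res_pos ho).1) (ms_nonneg hw g p)

lemma rectAv_congr (hw : Nn w) (g : Ω → α) (p : Ω) {K L : Ω → ℝ}
    (h : ∀ o, g o = g p → K o = L o) : rectAv w g p K = rectAv w g p L :=
  le_antisymm (rectAv_mono hw g p fun o ho => (h o ho).le)
    (rectAv_mono hw g p fun o ho => (h o ho).ge)

lemma rectAv_add (g : Ω → α) (p : Ω) (K L : Ω → ℝ) :
    rectAv w g p (fun o => K o + L o) = rectAv w g p K + rectAv w g p L := by
  unfold rectAv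
  rw [E_add, add_div]

lemma rectAv_const (hw : Nn w) (g : Ω → α) {p : Ω} (hp : 0 < w p) (c : ℝ) :
    rectAv w g p (fun _ => c) = c := by
  unfold rectAv
  rw [E_const, ← ms_eq_tot]
  exact mul_div_cancel_right₀ c (ms_pos hw g hp).ne'

lemma rectAv_nonneg (hw : Nn w) (g : Ω → α) (p : Ω) {K : Ω → ℝ} (h : ∀ o, 0 ≤ K o) :
    0 ≤ rectAv w g p K :=
  div_nonneg (E_nonneg (hw.res _) fun o _ => h o) (ms_nonneg hw g p)

lemma rectAv_base (g : Ω → α) {p p' : Ω} (h : g p' = g p) (K : Ω → ℝ) :
    rectAv w g p' K = rectAv w g p K := by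
  unfold rectAv
  rw [ms_det g p' p h, h]

lemma rectAv_fib (hw : Nn w) (g : Ω → α) (K : Ω → ℝ) :
    E w (fun p => rectAv w g p K) = E w K := E_fib hw g K

lemma rectAv_symm (g : Ω → α) (K : Ω → Ω → ℝ) :
    E w (fun p => rectAv w g p fun o => K p o) = E w (fun p => rectAv w g p fun o => K o p) := by
  unfold rectAv E res
  simp only [Finset.sum_div, Finset.mul_sum]
  rw [Finset.sum_comm]
  refine Finset.sum_congr rfl fun p _ => Finset.sum_congr rfl fun o _ => ?_
  by_cases h : g p = g o
  · rw [if_pos h, if_pos h.symm, ms_det g p o h]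
    ring
  · rw [if_neg h, if_neg fun h' => h h'.symm]
    simp

lemma rectAv_low (hw : Nn w) (g : Ω → α) {p : Ω} (hp : 0 < w p) {A : Ω → Prop} {K : Ω → ℝ}
    {c : ℝ} (hc : 0 ≤ c) (hA : ms w g p / 4 ≤ tot (res w fun o => g o = g p ∧ A o))
    (h0 : ∀ o, 0 ≤ K o) (h1 : ∀ o, g o = g p → A o → c ≤ K o) : c / 4 ≤ rectAv w g p K := by
  have hm := ms_pos hw g hp
  have h2 : rectAv w g p (fun o => c * if A o then 1 else 0) ≤ rectAv w g p K := by
    refine rectAv_mono hw g p fun o ho => ?_
    by_cases ha : A o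
    · rw [if_pos ha, mul_one]
      exact h1 o ho ha
    · rw [if_neg ha, mul_zero]
      exact h0 o
  refine le_trans ?_ h2
  unfold rectAv
  rw [E_mul, E_ind, res_res, le_div_iff₀ hm]
  nlinarith [mul_le_mul_of_nonneg_left hA hc]

/-- a bounded test function sees the distance of two conditional laws -/
lemma rectAv_sub (f : Ω → γ) (g : Ω → α) (g' : Ω → β) (p : Ω) (φ : γ → ℝ) {c : ℝ} (hc : 0 ≤ c)
    (h : ∀ v, |φ v| ≤ c) :
    rectAv w g p (fun o => φ (f o)) - rectAv w g' p (fun o => φ (f o)) ≤
      c * n1 (lw w f g p - lw w f g' p) := by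
  have hl : ∀ (a : ℝ) (u : Ω → ℝ), law (fun o => a * u o) f = a • law u f := by
    intro a u
    unfold law
    rw [Finset.smul_sum]
    refine Finset.sum_congr rfl fun o _ => ?_
    rw [Finsupp.smul_single, smul_eq_mul]
  have he : ∀ (a : ℝ) (u K : Ω → ℝ), E (fun o => a⁻¹ * u o) K = E u K / a := by
    intro a u K
    unfold E
    rw [Finset.sum_div]
    refine Finset.sum_congr rfl fun o _ => ?_
    ring
  have := E_sub_le_n1 (w := fun o => (ms w g p)⁻¹ * res w (fun o => g o = g p) o)
    (fun o => (ms w g' p)⁻¹ * res w (fun o => g' o = g' p) o) f f φ hc h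
  rw [hl, hl, he, he] at this
  exact this

lemma rect_four (F G N N' : ℤ →₀ ℝ) (a b c d : ℤ) :
    n1 (F - sh (a - b - c + d) F) ≤
      n1 (sh a F - N) + n1 (sh b G - N) + n1 (sh c F - N') + n1 (sh d G - N') := by
  have h1 : n1 (F - sh (a - b - c + d) F) = n1 (sh c F - sh (d - b + a) F) := by
    rw [← n1_sh c, sh_sub, sh_sh]
    congr 3
    ring
  have h2 : n1 (sh d G - sh (d - b) N) = n1 (sh b G - N) := by
    rw [← n1_sh (d - b) (sh b G - N), sh_sub, sh_sh, sub_add_cancel]
  have h3 : n1 (sh (d - b) N - sh (d - b + a) F) = n1 (sh a F - N) := by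
    rw [n1_sub_comm (sh a F), ← n1_sh (d - b) (N - sh a F), sh_sub, sh_sh]
  have h4 := n1_tri (sh c F) N' (sh (d - b + a) F)
  have h5 := n1_tri N' (sh d G) (sh (d - b + a) F)
  have h6 := n1_tri (sh d G) (sh (d - b) N) (sh (d - b + a) F)
  have h7 := n1_sub_comm N' (sh d G)
  linarith

lemma rect_pinsker (hw : Nn w) {δ α' : Type} (f : Ω → α) (f' : Ω → α') (g : Ω → β) (k : Ω → γ)
    {g' : Ω → δ} (hf : Det (pr f' k) f) (h1 : Det g' (pr g k)) (h2 : Det (pr g k) g') :
    E w (fun o => n1 (lw w f g' o - lw w f k o)) ≤ 2 * √(tot w * I w f' g k) := by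
  refine (pinsker hw f (h1.trans Det.snd)).trans ?_
  have : I w f g' k ≤ I w f' g k := I_mono hw hf h2
  have := Real.sqrt_le_sqrt (mul_le_mul_of_nonneg_left this (tot_nonneg hw))
  linarith

theorem rect : RectStmt := by
  intro Ω α κ μ _ w O k Y y q R B fY fq τ hw hτ hy hk hq hB
  set S : Ω → ℤ := fun o => R o + q o * y o with hS
  set e : Ω → Ω → ℝ := fun p1 p2 =>
    n1 (sh (q p2 * y p1) (lw w R k p1) - lw w S (pr O q) p2) with he
  have e0 : ∀ p1 p2, 0 ≤ e p1 p2 := fun _ _ => n1_nonneg _
  have e2 : ∀ p1 p2, e p1 p2 ≤ 2 := by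
    intro p1 p2
    have h1 := n1_add_le (sh (q p2 * y p1) (lw w R k p1)) (-lw w S (pr O q) p2)
    rw [n1_neg, n1_sh, ← sub_eq_add_neg] at h1
    have h2 := n1_lw_le hw R k p1
    have h3 := n1_lw_le hw S (pr O q) p2
    simp only [he]
    linarith
  have dO : Det (pr k q) O := hq.trans Det.fst
  have dY : Det (pr k q) Y := hq.trans Det.snd
  have dqy : Det (pr k q) fun o => q o * y o := by
    intro o o' h
    have h1 : q o = q o' := Det.snd o o' h
    have h2 : y o = y o' := hy o o' (dY o o' h)
    simp only [h1, h2]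
  -- the diagonal
  have hd : E w (fun p => e p p) ≤
      2 * √(tot w * I w S Y (pr O q)) + 2 * √(tot w * I w R q k) := by
    have h1 := rect_pinsker hw S S Y (pr O q) (g' := pr k q) Det.fst
      (dY.pr (dO.pr Det.snd))
      ((Det.trans ((Det.snd.trans Det.fst).pr Det.fst) hk).pr (Det.snd.trans Det.snd))
    have h2 := rect_pinsker hw R R q k (g' := pr k q) Det.fst (Det.snd.pr Det.fst)
      (Det.snd.pr Det.fst)
    refine le_trans ?_ (add_le_add h1 h2)
    rw [← E_add]
    refine E_mono hw fun p _ => ?_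
    have h3 := n1_tri (sh (q p * y p) (lw w R k p)) (lw w S (pr k q) p) (lw w S (pr O q) p)
    have h4 : n1 (sh (q p * y p) (lw w R k p) - lw w S (pr k q) p) =
        n1 (lw w R (pr k q) p - lw w R k p) := by
      rw [hS, lw_add R _ dqy p, ← sh_sub, n1_sh, n1_sub_comm]
    simp only [he]
    linarith
  -- independent pairs
  have hi : E w (fun p => rectAv w O p fun o => e o p) ≤
      E w (fun p => e p p) + 4 * √(tot w * I w Y q O) := by
    have df : Det (pr Y O) (pr y (lw w R k)) :=
      (Det.fst.trans hy).pr (((Det.snd.pr Det.fst).trans hk).trans (lw_det R k))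
    have h1 := rect_pinsker hw (pr y (lw w R k)) Y q O (g' := pr O q) df (Det.snd.pr Det.fst)
      (Det.snd.pr Det.fst)
    have h2 : E w (fun p => rectAv w O p fun o => e o p) ≤
        E w fun p => rectAv w (pr O q) p (fun o => e o o) +
          2 * n1 (lw w (pr y (lw w R k)) (pr O q) p - lw w (pr y (lw w R k)) O p) := by
      refine E_mono hw fun p _ => ?_
      have h3 := rectAv_sub (w := w) (pr y (lw w R k)) O (pr O q) p
        (fun v => min 2 (n1 (sh (q p * v.1) v.2 - lw w S (pr O q) p))) (c := 2) (by norm_num)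
        (fun v => by
          rw [abs_of_nonneg (le_min (by norm_num) (n1_nonneg _))]
          exact min_le_left _ _)
      have h4 : (fun o => min 2 (n1 (sh (q p * (pr y (lw w R k) o).1) (pr y (lw w R k) o).2 -
          lw w S (pr O q) p))) = fun o => e o p := funext fun o => min_eq_right (e2 o p)
      rw [h4, n1_sub_comm] at h3
      have h5 : rectAv w (pr O q) p (fun o => e o p) = rectAv w (pr O q) p fun o => e o o := by
        refine rectAv_congr hw _ p fun o ho => ?_
        have h6 : q o = q p := Det.snd o p ho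
        simp only [he]
        rw [lw_det S (pr O q) o p ho, h6]
      linarith
    rw [E_add, E_mul, rectAv_fib hw] at h2
    linarith
  have hi' : E w (fun p => rectAv w O p fun o => e p o) ≤
      E w (fun p => e p p) + 4 * √(tot w * I w Y q O) := by
    rw [rectAv_symm]
    exact hi
  -- the average over triples
  set X : Ω → ℝ := fun p => rectAv w O p fun p' => rectAv w O p fun p'' =>
    n1 (lw w R k p - sh ((q p - q p'') * (y p - y p')) (lw w R k p)) with hX
  have hlow : τ / 16 * tot (res w B) ≤ E w X := by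
    rw [← E_ind, ← E_mul]
    refine E_mono hw fun p hp => ?_
    by_cases hb : B p
    · obtain ⟨h1, h2, h3⟩ := hB p hb hp
      rw [if_pos hb, mul_one, show τ / 16 = τ / 4 / 4 by ring]
      refine rectAv_low hw O hp (by positivity) h1
        (fun o => rectAv_nonneg hw O p fun _ => n1_nonneg _) fun p' ho ha => ?_
      exact rectAv_low hw O hp hτ h2 (fun _ => n1_nonneg _) fun p'' ho' ha' =>
        h3 p' p'' ho ho' ha ha'
    · rw [if_neg hb, mul_zero]
      exact rectAv_nonneg hw O p fun _ => rectAv_nonneg hw O p fun _ => n1_nonneg _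
  have hup : E w X ≤ E w fun p => e p p + (rectAv w O p fun o => e o p) +
      (rectAv w O p fun o => e p o) + rectAv w O p fun p' => rectAv w O p' fun o => e p' o := by
    refine E_mono hw fun p hp => ?_
    have h1 : X p ≤ rectAv w O p fun p' => (e p p + e p' p + rectAv w O p fun o => e p o) +
        rectAv w O p' fun o => e p' o := by
      refine rectAv_mono hw O p fun p' ho => ?_
      have h2 : (rectAv w O p fun p'' =>
          n1 (lw w R k p - sh ((q p - q p'') * (y p - y p')) (lw w R k p))) ≤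
          rectAv w O p fun p'' => (e p p + e p' p + e p p'') + e p' p'' := by
        refine rectAv_mono hw O p fun p'' _ => ?_
        have := rect_four (lw w R k p) (lw w R k p') (lw w S (pr O q) p) (lw w S (pr O q) p'')
          (q p * y p) (q p * y p') (q p'' * y p) (q p'' * y p')
        rw [show q p * y p - q p * y p' - q p'' * y p + q p'' * y p' =
          (q p - q p'') * (y p - y p') by ring] at this
        exact this
      rw [rectAv_add, rectAv_add, rectAv_const hw O hp] at h2
      rw [rectAv_base O ho]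
      exact h2
    rw [rectAv_add, rectAv_add, rectAv_add, rectAv_const hw O hp, rectAv_const hw O hp] at h1
    exact h1
  rw [E_add, E_add, E_add, rectAv_fib hw] at hup
  linarith

end Pool.Agent.Lib.MP_108739_an.F
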