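import Pool.Agent.Lib.MP_108739_an.F.AbcDefs
import Pool.Agent.Lib.MP_108739_an.F.Ent1

/-! The sum of the masses of the bad events. -/

open Finset

namespace Pool.Agent.Lib.MP_108739_an.F
open Classical

lemma sm_amgm {t d a : ℝ} (ht : 0 ≤ t) (hd : 0 ≤ d) (ha : 0 < a) : √(t * d) ≤ a * t + d / a := by
  have h1 : 0 ≤ a * t := by positivity
  have h2 : 0 ≤ d / a := by positivity
  have h3 : a * t * (d / a) = t * d := by field_simp
  refine Real.sqrt_le_iff.2 ⟨by positivity, ?_⟩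
  nlinarith [mul_nonneg h1 h2, sq_nonneg (a * t), sq_nonneg (d / a)]

lemma sm_ite (N r : ℕ) {c : ℝ} (hc : 0 ≤ c) :
    ∑ j ∈ range N, (if j < r then c else 0) ≤ r * c := by
  rw [← sum_filter, sum_const, nsmul_eq_mul]
  have : #((range N).filter fun j => j < r) ≤ r := by
    refine le_trans (card_le_card fun j hj => ?_) (card_range r).le
    exact mem_range.2 (mem_filter.1 hj).2
  gcongr

lemma sm_lk {Ω : Type} [Fintype Ω] (A : Ab Ω) : 0 ≤ A.lk :=
  lg_nonneg (le_add_of_nonneg_right (by positivity))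

lemma sm_bad {Ω : Type} [Fintype Ω] (A : Ab Ω) {w : Ω → ℝ} (h : A.Ok w) {a : ℝ} (ha : 0 < a)
    (x j u : ℕ) : A.bad w x j u ≤ 1408 * (A.D : ℝ) ^ 6 *
      (a * tot w + (A.d2 w x j u + A.d4 w u + A.d1 w j + A.d3 w x + A.lk * tot w) / a) := by
  have ht := tot_nonneg h.nn
  have h1 : 0 ≤ A.d1 w j := I_nonneg h.nn _ _ _
  have h2 : 0 ≤ A.d2 w x j u := I_nonneg h.nn _ _ _
  have h3 : 0 ≤ A.d3 w x := I_nonneg h.nn _ _ _
  have h4 : 0 ≤ A.d4 w u := I_nonneg h.nn _ _ _
  have h5 : 0 ≤ A.lk * tot w := mul_nonneg (sm_lk A) ht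
  have hD : (1 : ℝ) ≤ (A.D : ℝ) ^ 6 := one_le_pow₀ (by exact_mod_cast le_trans one_le_two h.hD)
  set S := a * tot w + (A.d2 w x j u + A.d4 w u + A.d1 w j + A.d3 w x + A.lk * tot w) / a with hS
  have k : ∀ d, 0 ≤ d → d ≤ A.d2 w x j u + A.d4 w u + A.d1 w j + A.d3 w x + A.lk * tot w →
      √(tot w * d) ≤ S := fun d p q => (sm_amgm ht p ha).trans (by rw [hS]; gcongr)
  have k1 := k _ h1 (by linarith)
  have k2 := k _ h2 (by linarith)
  have k3 := k _ (add_nonneg h3 h5) (by linarith)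
  have k4 := k _ h4 (by linarith)
  have hS0 : 0 ≤ S := (Real.sqrt_nonneg _).trans k1
  unfold Ab.bad
  calc _ ≤ 32 * (A.D : ℝ) ^ 6 * (8 * S + 8 * S + 12 * S) + 8 * S + 8 * S := by gcongr
    _ ≤ _ := by nlinarith

lemma sm_one (hB : BadStmt) (h14 : D14Stmt) (h3 : D3Stmt) (h2 : D2Stmt) {Ω : Type} [Fintype Ω]
    (A : Ab Ω) {w : Ω → ℝ} (h : A.Ok w) {a : ℝ} (ha : 0 < a) (o : ℕ) (ho : o ≤ 2) :
    ∑ x ∈ range (A.n + 1), ∑ j ∈ range (A.n + 1), tot (res w fun p =>
      Br w A.D A.n A.Y x p ∧ Br w A.D A.n A.W j p ∧ x + j + o ≤ A.n ∧ ¬ A.Full w (x + j + o) p) ≤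
    A.r * (A.r * tot w) + 1408 * (A.D : ℝ) ^ 6 * (((A.n : ℝ) + 1) * ((A.n + 1) * (a * tot w)) +
      (A.n + 1) * (A.r * (A.J1 w + A.J2 w + 3 * tot w) + (A.n + 1) * A.lk * tot w + A.r * A.J1 w +
        A.r * A.J1 w + (A.J1 w + A.J2 w) + (A.n + 1) * (A.lk * tot w)) / a) := by
  have ht := tot_nonneg h.nn
  have hlk : 0 ≤ A.lk * tot w := mul_nonneg (sm_lk A) ht
  set G : ℝ := 1408 * (A.D : ℝ) ^ 6 with hG
  have hG0 : 0 ≤ G := by positivity
  have hr0 : (0 : ℝ) ≤ A.r := Nat.cast_nonneg _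
  obtain ⟨s1, -, -, s4⟩ := h14 Ω A w h
  obtain ⟨s3, -⟩ := h3 Ω A w h
  have s2 := fun x => h2 Ω A w h x o ho
  have hcard : ∀ (P : ℕ → Prop) [DecidablePred P] (c : ℝ), 0 ≤ c →
      ∑ _j ∈ (range (A.n + 1)).filter P, c ≤ ((A.n : ℝ) + 1) * c := by
    intro P _ c hc
    rw [sum_const, nsmul_eq_mul]
    have : (#((range (A.n + 1)).filter P) : ℝ) ≤ (A.n : ℝ) + 1 := by
      exact_mod_cast (card_filter_le _ _).trans (card_range _).le
    gcongr
  have row : ∀ x, ∑ j ∈ range (A.n + 1), tot (res w fun p =>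
      Br w A.D A.n A.Y x p ∧ Br w A.D A.n A.W j p ∧ x + j + o ≤ A.n ∧ ¬ A.Full w (x + j + o) p) ≤
      (if x < A.r then A.r * tot w else 0) + G * (((A.n : ℝ) + 1) * (a * tot w) +
        (A.r * (A.J1 w + A.J2 w + 3 * tot w) + (A.n + 1) * A.lk * tot w + A.r * A.J1 w +
          A.r * A.J1 w + (A.n + 1) * A.d3 w x + (A.n + 1) * (A.lk * tot w)) / a) := by
    intro x
    have term : ∀ j, tot (res w fun p => Br w A.D A.n A.Y x p ∧ Br w A.D A.n A.W j p ∧
        x + j + o ≤ A.n ∧ ¬ A.Full w (x + j + o) p) ≤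
        (if j < A.r then (if x < A.r then tot w else 0) else 0) +
        (if A.r ≤ x + j + o ∧ x + j + o ≤ A.n then A.bad w x j (x + j + o - A.r) else 0) := by
      intro j
      have p0 : (0 : ℝ) ≤ if j < A.r then (if x < A.r then tot w else 0) else 0 := by
        split_ifs <;> first | exact ht | exact le_rfl
      by_cases c : A.r ≤ x + j + o ∧ x + j + o ≤ A.n
      · rw [if_pos c]
        have e : x + j + o = x + j + o - A.r + A.r := by omega
        have := hB Ω A w h x j (x + j + o - A.r) o ho e (by omega)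
        rw [← e] at this
        refine le_trans ?_ (le_add_of_nonneg_left p0)
        exact le_trans (tot_res_mono h.nn fun p _ q => ⟨q.1, q.2.1, q.2.2.2⟩) this
      · rw [if_neg c, add_zero]
        by_cases c' : x + j + o ≤ A.n
        · rw [if_pos (by omega), if_pos (by omega)]
          exact tot_res_le h.nn _
        · refine le_trans (le_of_eq ?_) p0
          unfold tot res
          exact sum_eq_zero fun p _ => if_neg fun q => c' q.2.2.1
    refine (sum_le_sum fun j _ => term j).trans ?_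
    rw [sum_add_distrib]
    refine add_le_add ?_ ?_
    · refine (sm_ite _ _ (by split_ifs <;> first | exact ht | exact le_rfl)).trans ?_
      split_ifs <;> simp
    rw [← sum_filter]
    refine (sum_le_sum fun j _ => sm_bad A h ha x j _).trans ?_
    rw [← mul_sum, sum_add_distrib, ← sum_div, sum_add_distrib, sum_add_distrib, sum_add_distrib,
      sum_add_distrib]
    have t4 : ∑ j ∈ (range (A.n + 1)).filter (fun j => A.r ≤ x + j + o ∧ x + j + o ≤ A.n),
        A.d4 w (x + j + o - A.r) ≤ A.r * A.J1 w := by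
      refine le_trans ?_ s4
      rw [← sum_image (s := (range (A.n + 1)).filter fun j => A.r ≤ x + j + o ∧ x + j + o ≤ A.n)
        (g := fun j => x + j + o - A.r) (f := fun u => A.d4 w u)]
      · refine sum_le_sum_of_subset_of_nonneg (fun u hu => ?_) fun u _ _ => I_nonneg h.nn _ _ _
        obtain ⟨j, hj, rfl⟩ := mem_image.1 hu
        have := (mem_filter.1 hj).2
        exact mem_filter.2 ⟨mem_range.2 (by omega), by omega⟩
      · intro j hj j' hj' e
        have a1 := (mem_filter.1 (mem_coe.1 hj)).2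
        have a2 := (mem_filter.1 (mem_coe.1 hj')).2
        simp only at e
        omega
    have t1 : ∑ j ∈ (range (A.n + 1)).filter (fun j => A.r ≤ x + j + o ∧ x + j + o ≤ A.n),
        A.d1 w j ≤ A.r * A.J1 w :=
      le_trans (sum_le_sum_of_subset_of_nonneg (filter_subset _ _)
        fun u _ _ => I_nonneg h.nn _ _ _) s1
    have t3 := hcard (fun j => A.r ≤ x + j + o ∧ x + j + o ≤ A.n) (A.d3 w x) (I_nonneg h.nn _ _ _)
    have t5 := hcard (fun j => A.r ≤ x + j + o ∧ x + j + o ≤ A.n) _ hlk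
    have t0 := hcard (fun j => A.r ≤ x + j + o ∧ x + j + o ≤ A.n) (a * tot w) (by positivity)
    have t2 := s2 x
    gcongr
  refine (sum_le_sum fun x _ => row x).trans ?_
  rw [sum_add_distrib]
  refine add_le_add (sm_ite _ _ (by positivity)) ?_
  rw [← mul_sum, sum_add_distrib, ← sum_div, sum_add_distrib, sum_add_distrib, ← mul_sum]
  simp only [sum_const, card_range, nsmul_eq_mul]
  push_cast
  have hn : (0 : ℝ) ≤ (A.n : ℝ) + 1 := by positivity
  have := mul_le_mul_of_nonneg_left s3 hn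
  rw [mul_sum] at this
  gcongr G * (_ + ?_ / a)
  linarith

theorem sumb (hB : BadStmt) (h14 : D14Stmt) (h3 : D3Stmt) (h2 : D2Stmt) : SumStmt := by
  intro D ρ hD hρ
  have hD1 : (1 : ℝ) < D := by exact_mod_cast hD
  set G : ℝ := 1408 * (D : ℝ) ^ 6 with hG
  have hG0 : 0 < G := by positivity
  set a : ℝ := ρ / (40 * G) with had
  have ha : 0 < a := by positivity
  set b : ℝ := ρ * a / G with hbd
  have hb : 0 < b := by positivity
  obtain ⟨m, hm⟩ := pow_unbounded_of_one_lt (640 * (D : ℝ) ^ 2 / b) hD1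
  have hr0 : (0 : ℝ) < (m + 3 : ℕ) := by positivity
  have hr1 : (1 : ℝ) ≤ (m + 3 : ℕ) := by exact_mod_cast (by omega : 1 ≤ m + 3)
  refine ⟨m + 3, ⌈60 * ((m + 3 : ℕ) : ℝ) / b + 10 * ((m + 3 : ℕ) : ℝ) ^ 2 / ρ + 1⌉₊,
    b / (120 * (m + 3 : ℕ)), by omega, by positivity, ?_⟩
  intro Ω _ A w h eD er hn j1 j2
  have ht := tot_nonneg h.nn
  have hlk0 := sm_lk A
  have hlk : A.lk ≤ b / 80 := by
    unfold Ab.lk
    rw [eD, er]
    refine (lg_one_add_le (by positivity)).trans ?_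
    have e1 : (D : ℝ) ^ m ≤ (D : ℝ) ^ (m + 3) := pow_le_pow_right₀ hD1.le (by omega)
    have e2 : 640 * (D : ℝ) ^ 2 ≤ (D : ℝ) ^ (m + 3) * b := (div_le_iff₀ hb).1 (hm.le.trans e1)
    rw [← mul_div_assoc, div_le_div_iff₀ (by positivity) (by norm_num)]
    linarith
  rw [← er] at hn j1 j2 hr0 hr1
  have hn' := (Nat.ceil_le.1 hn)
  have p1 : 0 ≤ 60 * (A.r : ℝ) / b := by positivity
  have p2 : 0 ≤ 10 * (A.r : ℝ) ^ 2 / ρ := by positivity
  have n1 : (1 : ℝ) ≤ A.n := by linarith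
  have n2 : 60 * (A.r : ℝ) ≤ A.n * b := (div_le_iff₀ hb).1 (by linarith)
  have n3 : 10 * (A.r : ℝ) ^ 2 ≤ A.n * ρ := (div_le_iff₀ hρ).1 (by linarith)
  have J10 : 0 ≤ A.J1 w := I_nonneg h.nn _ _ _
  have J20 : 0 ≤ A.J2 w := I_nonneg h.nn _ _ _
  set t := tot w with htd
  set n : ℝ := (A.n : ℝ) with hnd
  set r : ℝ := (A.r : ℝ) with hrd
  have q1 : r * A.J1 w ≤ b / 120 * (n * t) := by
    calc r * A.J1 w ≤ r * (b / (120 * r) * n * t) := by gcongr
      _ = _ := by field_simp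
  have q2 : r * A.J2 w ≤ b / 120 * (n * t) := by
    calc r * A.J2 w ≤ r * (b / (120 * r) * n * t) := by gcongr
      _ = _ := by field_simp
  have q3 : A.J1 w ≤ r * A.J1 w := le_mul_of_one_le_left J10 hr1
  have q4 : A.J2 w ≤ r * A.J2 w := le_mul_of_one_le_left J20 hr1
  have q5 : (n + 1) * (A.lk * t) ≤ b / 40 * (n * t) := by
    calc (n + 1) * (A.lk * t) ≤ (2 * n) * (b / 80 * t) := by gcongr; linarith
      _ = _ := by ring
  have q6 : 3 * r * t ≤ b / 20 * (n * t) := by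
    have := mul_le_mul_of_nonneg_right n2 ht
    linarith
  have one : ∀ o, o ≤ 2 → ∑ x ∈ range (A.n + 1), ∑ j ∈ range (A.n + 1), tot (res w fun p =>
      Br w A.D A.n A.Y x p ∧ Br w A.D A.n A.W j p ∧ x + j + o ≤ A.n ∧ ¬ A.Full w (x + j + o) p) ≤
      ρ * n ^ 2 * t / 2 := by
    intro o ho
    refine (sm_one hB h14 h3 h2 A h ha o ho).trans ?_
    have eG : 1408 * (A.D : ℝ) ^ 6 = G := by rw [eD]
    rw [eG, ← htd, ← hnd, ← hrd]
    have u1 : r * (r * t) ≤ ρ * n ^ 2 * t / 10 := by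
      have e1 := mul_le_mul_of_nonneg_right n3 ht
      have e2 : n * ρ * t ≤ n * (n * ρ * t) := le_mul_of_one_le_left (by positivity) n1
      nlinarith
    have u2 : G * ((n + 1) * ((n + 1) * (a * t))) ≤ ρ * n ^ 2 * t / 10 := by
      calc G * ((n + 1) * ((n + 1) * (a * t))) ≤ G * ((2 * n) * ((2 * n) * (a * t))) := by
            gcongr <;> linarith
        _ = _ := by rw [had]; field_simp; ring
    have u3 : G * ((n + 1) * (r * (A.J1 w + A.J2 w + 3 * t) + (n + 1) * A.lk * t + r * A.J1 w +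
        r * A.J1 w + (A.J1 w + A.J2 w) + (n + 1) * (A.lk * t)) / a) ≤ 3 * (ρ * n ^ 2 * t) / 10 := by
      have v : r * (A.J1 w + A.J2 w + 3 * t) + (n + 1) * A.lk * t + r * A.J1 w +
          r * A.J1 w + (A.J1 w + A.J2 w) + (n + 1) * (A.lk * t) ≤ 3 * b / 20 * (n * t) := by
        linarith
      calc _ ≤ G * ((2 * n) * (3 * b / 20 * (n * t)) / a) := by
            gcongr
            linarith
        _ = _ := by rw [hbd]; field_simp; ring
    rw [mul_add]
    linarith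
  have o1 := one 1 (by norm_num)
  have o2 := one 2 le_rfl
  refine le_trans ?_ ((add_le_add o1 o2).trans (le_of_eq (by ring)))
  simp only [card_filter]
  push_cast
  rw [E_sum, sum_product, ← sum_add_distrib]
  refine sum_le_sum fun x _ => ?_
  rw [← sum_add_distrib]
  refine sum_le_sum fun j _ => ?_
  refine le_trans ?_ (tot_res_or h.nn _ _)
  rw [← E_ind]
  refine E_mono h.nn fun p _ => ?_
  split_ifs with c1 c2
  · exact le_rfl
  · exact absurd (c1.2.2.imp (fun q => ⟨c1.1, c1.2.1, q⟩) fun q => ⟨c1.1, c1.2.1, q⟩) c2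
  · exact zero_le_one
  · exact le_rfl

end Pool.Agent.Lib.MP_108739_an.F
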