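import Pool.Agent.Lib.MP_108739_an.F.AddDefs

/-! Mann's theorem in Dyson's form, by the Dyson transform. -/

namespace Pool.Agent.Lib.MP_108739_an.F

open Finset

namespace MannAux

/-- Number of elements in `[1, m]`. -/
def cnt (S : Finset ℕ) (m : ℕ) : ℕ := (S.filter (fun a => 1 ≤ a ∧ a ≤ m)).card

/-- Number of sums in `[1, m]`. -/
def sm (A B : Finset ℕ) (m : ℕ) : ℕ :=
  ((Finset.Icc 1 m).filter (fun k => ∃ a ∈ A, ∃ b ∈ B, a + b = k)).card

/-- The statement for one length. -/
def Full (g : ℝ) (M : ℕ) : Prop :=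
  ∀ A B : Finset ℕ, 0 ∈ A → 0 ∈ B → (∀ m : ℕ, m ≤ M → g * m ≤ (cnt A m : ℝ) + (cnt B m : ℝ)) →
    g * M ≤ (sm A B M : ℝ)

theorem cnt_mono {A A' : Finset ℕ} (h : A ⊆ A') (m : ℕ) : cnt A m ≤ cnt A' m :=
  card_le_card (filter_subset_filter _ h)

theorem sm_le_of {A B A' B' : Finset ℕ} (m : ℕ)
    (h : ∀ a ∈ A', ∀ b ∈ B', a + b ≤ m → ∃ x ∈ A, ∃ y ∈ B, x + y = a + b) :
    sm A' B' m ≤ sm A B m := by
  refine card_le_card ?_
  intro k hk
  rw [mem_filter] at hk ⊢
  obtain ⟨h1, a, ha, b, hb, rfl⟩ := hk
  exact ⟨h1, h a ha b hb (mem_Icc.1 h1).2⟩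

theorem sm_le_cnt {A B : Finset ℕ} (m : ℕ) (h : ∀ a ∈ A, a ≤ m → ∀ b ∈ B, a + b ∈ A) :
    sm A B m ≤ cnt A m := by
  refine card_le_card ?_
  intro k hk
  rw [mem_filter] at hk ⊢
  obtain ⟨h1, a, ha, b, hb, rfl⟩ := hk
  have := mem_Icc.1 h1
  exact ⟨h a ha (by omega) b hb, this.1, this.2⟩

theorem cnt_le_sm {A B : Finset ℕ} (m : ℕ) (h0 : 0 ∈ B) : cnt A m ≤ sm A B m := by
  refine card_le_card ?_
  intro k hk
  rw [mem_filter] at hk ⊢
  exact ⟨mem_Icc.2 hk.2, k, hk.1, 0, h0, rfl⟩

theorem cnt_range (A : Finset ℕ) {m M : ℕ} (h : m ≤ M) :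
    cnt (A ∩ range (M + 1)) m = cnt A m := by
  unfold cnt
  congr 1
  ext a
  simp only [mem_filter, mem_inter, mem_range]
  constructor
  · rintro ⟨⟨h1, _⟩, h2⟩
    exact ⟨h1, h2⟩
  · rintro ⟨h1, h2⟩
    exact ⟨⟨h1, by omega⟩, h2⟩

/-- The transform loses only elements of `B` in `(m - e, m]`. -/
theorem transform_cnt (A B : Finset ℕ) (e m M : ℕ) (hem : e ≤ m) (hm : m ≤ M) :
    cnt A m + cnt B (m - e) ≤
      cnt (A ∪ (B.image (fun b => e + b)).filter (fun x => x ≤ M)) m +
        cnt (B.filter (fun b => e + b ∈ A)) m := by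
  have s1 : cnt B (m - e) ≤ cnt (B.filter (fun b => e + b ∈ A)) m +
      ((B.filter (fun b => e + b ∉ A)).filter (fun a => 1 ≤ a ∧ a ≤ m - e)).card := by
    unfold cnt
    refine le_trans (card_le_card ?_) (card_union_le _ _)
    intro b hb
    rw [mem_filter] at hb
    rw [mem_union]
    by_cases hA : e + b ∈ A
    · exact Or.inl (mem_filter.2 ⟨mem_filter.2 ⟨hb.1, hA⟩, hb.2.1, by omega⟩)
    · exact Or.inr (mem_filter.2 ⟨mem_filter.2 ⟨hb.1, hA⟩, hb.2⟩)
  have s2 : cnt A m + ((B.filter (fun b => e + b ∉ A)).filter (fun a => 1 ≤ a ∧ a ≤ m - e)).card ≤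
      cnt (A ∪ (B.image (fun b => e + b)).filter (fun x => x ≤ M)) m := by
    unfold cnt
    rw [← card_image_of_injective
      ((B.filter (fun b => e + b ∉ A)).filter (fun a => 1 ≤ a ∧ a ≤ m - e))
      (add_right_injective e), ← card_union_of_disjoint]
    · refine card_le_card ?_
      intro x hx
      rw [mem_union] at hx
      rcases hx with hx | hx
      · rw [mem_filter] at hx
        exact mem_filter.2 ⟨mem_union_left _ hx.1, hx.2⟩
      · obtain ⟨b, hb, rfl⟩ := mem_image.1 hx
        rw [mem_filter, mem_filter] at hb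
        refine mem_filter.2 ⟨mem_union_right _ (mem_filter.2 ⟨mem_image_of_mem _ hb.1.1, ?_⟩), ?_⟩
        · show e + b ≤ M
          omega
        · show 1 ≤ e + b ∧ e + b ≤ m
          omega
    · rw [disjoint_left]
      intro x hx hx'
      obtain ⟨b, hb, rfl⟩ := mem_image.1 hx'
      rw [mem_filter, mem_filter] at hb
      exact hb.1.2 (mem_filter.1 hx).1
  omega

theorem shift_cnt (A : Finset ℕ) (b k : ℕ) (hb : 1 ≤ b) (h0 : 0 ∈ A)
    (h : ∀ a ∈ A, a ≤ k → a + b ∈ A) : cnt A (b - 1) + cnt A k + 1 ≤ cnt A (b + k) := by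
  have e1 : (A.filter (fun a => a ≤ k)).card = cnt A k + 1 := by
    unfold cnt
    rw [← card_insert_of_notMem (a := 0) (by simp)]
    congr 1
    ext a
    simp only [mem_filter, mem_insert]
    constructor
    · rintro ⟨h1, h2⟩
      rcases Nat.eq_zero_or_pos a with h3 | h3
      · exact Or.inl h3
      · exact Or.inr ⟨h1, h3, h2⟩
    · rintro (h1 | ⟨h1, _, h2⟩)
      · subst h1
        exact ⟨h0, Nat.zero_le _⟩
      · exact ⟨h1, h2⟩
  rw [add_assoc, ← e1]
  unfold cnt
  rw [← card_image_of_injective (A.filter (fun a => a ≤ k)) (add_left_injective b),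
    ← card_union_of_disjoint]
  · refine card_le_card ?_
    intro x hx
    rw [mem_union] at hx
    rcases hx with hx | hx
    · rw [mem_filter] at hx
      exact mem_filter.2 ⟨hx.1, hx.2.1, by omega⟩
    · obtain ⟨a, ha, rfl⟩ := mem_image.1 hx
      rw [mem_filter] at ha
      refine mem_filter.2 ⟨h a ha.1 ha.2, ?_⟩
      show 1 ≤ a + b ∧ a + b ≤ b + k
      omega
  · rw [disjoint_left]
    intro x hx hx'
    obtain ⟨a, ha, rfl⟩ := mem_image.1 hx'
    have := (mem_filter.1 hx).2
    have h2 : a + b ≤ b - 1 := this.2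
    omega

theorem inner (g : ℝ) (hg : g ≤ 1) (M : ℕ) (ih : ∀ k, k < M → Full g k) :
    ∀ (c : ℕ) (A B : Finset ℕ), B.card = c → A ⊆ range (M + 1) → 0 ∈ A → 0 ∈ B →
      (∀ m : ℕ, m ≤ M → g * m ≤ (cnt A m : ℝ) + (cnt B m : ℝ)) → g * M ≤ (sm A B M : ℝ) := by
  intro c
  induction c using Nat.strong_induction_on with
  | _ c ihc =>
    intro A B hc hA hA0 hB0 hyp
    by_cases hex : ∃ e, e ∈ A ∧ ∃ b ∈ B, e + b ∉ A
    · classical
      obtain ⟨he, b1, hb1, hb1'⟩ := Nat.find_spec hex
      have hmin : ∀ a ∈ A, a < Nat.find hex → ∀ b ∈ B, a + b ∈ A := by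
        intro a ha hlt b hb
        by_contra hn
        exact Nat.find_min hex hlt ⟨ha, b, hb, hn⟩
      generalize Nat.find hex = e at he hb1' hmin
      have heM : e ≤ M := Nat.lt_succ_iff.1 (mem_range.1 (hA he))
      have small : ∀ k, k < e → g * k ≤ (cnt A k : ℝ) := by
        intro k hk
        have h1 := ih k (by omega) A B hA0 hB0 (fun m hm => hyp m (by omega))
        have h2 : (sm A B k : ℝ) ≤ cnt A k := by
          exact_mod_cast sm_le_cnt k (fun a ha hak => hmin a ha (by omega))
        linarith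
      have hlt : (B.filter (fun b => e + b ∈ A)).card < c := by
        rw [← hc]
        refine card_lt_card ⟨filter_subset _ _, fun hs => hb1' (mem_filter.1 (hs hb1)).2⟩
      have key := ihc _ hlt (A ∪ (B.image (fun b => e + b)).filter (fun x => x ≤ M))
        (B.filter (fun b => e + b ∈ A)) rfl
        (by
          intro x hx
          rcases mem_union.1 hx with hx | hx
          · exact hA hx
          · exact mem_range.2 (Nat.lt_succ_iff.2 (mem_filter.1 hx).2))
        (mem_union_left _ hA0) (mem_filter.2 ⟨hB0, by simpa using he⟩) ?_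
      · refine key.trans ?_
        exact_mod_cast sm_le_of M (by
          intro a ha b hb _
          rw [mem_filter] at hb
          rcases mem_union.1 ha with ha | ha
          · exact ⟨a, ha, b, hb.1, rfl⟩
          · obtain ⟨y, hy, rfl⟩ := mem_image.1 (mem_filter.1 ha).1
            exact ⟨e + b, hb.2, y, hy, by omega⟩)
      · intro m hm
        rcases lt_or_ge m e with hme | hme
        · have h1 := small m hme
          have h2 : (cnt A m : ℝ) ≤
              cnt (A ∪ (B.image (fun b => e + b)).filter (fun x => x ≤ M)) m := by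
            exact_mod_cast cnt_mono subset_union_left m
          have h3 : (0 : ℝ) ≤ cnt (B.filter (fun b => e + b ∈ A)) m := Nat.cast_nonneg _
          linarith
        · have h1 : (cnt A m : ℝ) + cnt B (m - e) ≤
              cnt (A ∪ (B.image (fun b => e + b)).filter (fun x => x ≤ M)) m +
                cnt (B.filter (fun b => e + b ∈ A)) m := by
            exact_mod_cast transform_cnt A B e m M hme hm
          refine le_trans ?_ h1
          by_cases hb : ∃ b, b ∈ B ∧ m - e < b ∧ b ≤ m
          · obtain ⟨hb0, hb2, hb3⟩ := Nat.find_spec hb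
            have hbmin : ∀ b ∈ B, b < Nat.find hb → b ≤ m - e := by
              intro b hbB hlt'
              by_contra hn
              exact Nat.find_min hb hlt' ⟨hbB, by omega, by omega⟩
            generalize Nat.find hb = b0 at hb0 hb2 hb3 hbmin
            have c1 : cnt B (b0 - 1) ≤ cnt B (m - e) := by
              refine card_le_card ?_
              intro b hb'
              rw [mem_filter] at hb' ⊢
              exact ⟨hb'.1, hb'.2.1, hbmin b hb'.1 (by omega)⟩
            have c2 := shift_cnt A b0 (m - b0) (by omega) hA0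
              (fun a ha hak => hmin a ha (by omega) b0 hb0)
            have e1 : b0 + (m - b0) = m := by omega
            rw [e1] at c2
            have c3 := small (m - b0) (by omega)
            have c4 := hyp (b0 - 1) (by omega)
            have c1' : (cnt B (b0 - 1) : ℝ) ≤ cnt B (m - e) := by exact_mod_cast c1
            have c2' : (cnt A (b0 - 1) : ℝ) + cnt A (m - b0) + 1 ≤ cnt A m := by exact_mod_cast c2
            have e2 : (m : ℝ) = ((b0 - 1 : ℕ) : ℝ) + ((m - b0 : ℕ) : ℝ) + 1 := by
              have : m = (b0 - 1) + (m - b0) + 1 := by omega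
              exact_mod_cast this
            have e3 : g * m = g * ((b0 - 1 : ℕ) : ℝ) + g * ((m - b0 : ℕ) : ℝ) + g := by
              rw [e2]; ring
            linarith
          · have c1 : cnt B m ≤ cnt B (m - e) := by
              refine card_le_card ?_
              intro b hb'
              rw [mem_filter] at hb' ⊢
              refine ⟨hb'.1, hb'.2.1, ?_⟩
              by_contra hn
              exact hb ⟨b, hb'.1, by omega, hb'.2.2⟩
            have c1' : (cnt B m : ℝ) ≤ cnt B (m - e) := by exact_mod_cast c1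
            have := hyp m hm
            linarith
    · have hz : ∀ b ∈ B, b = 0 := by
        intro b hb
        by_contra hn
        have hne : A.Nonempty := ⟨0, hA0⟩
        apply hex
        refine ⟨A.max' hne, max'_mem _ _, b, hb, fun hh => ?_⟩
        have := le_max' A _ hh
        omega
      have c0 : cnt B M = 0 := by
        unfold cnt
        rw [card_eq_zero, filter_eq_empty_iff]
        intro b hb hh
        have := hz b hb
        omega
      have h1 := hyp M le_rfl
      have h2 : (cnt A M : ℝ) ≤ sm A B M := by exact_mod_cast cnt_le_sm M hB0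
      rw [c0] at h1
      push_cast at h1
      linarith

theorem full (g : ℝ) (hg : g ≤ 1) (M : ℕ) : Full g M := by
  induction M using Nat.strong_induction_on with
  | _ M ih =>
    intro A B hA0 hB0 hyp
    have key := inner g hg M ih _ (A ∩ range (M + 1)) B rfl inter_subset_right
      (mem_inter.2 ⟨hA0, mem_range.2 (Nat.succ_pos _)⟩) hB0
      (fun m hm => by rw [cnt_range A hm]; exact hyp m hm)
    refine key.trans ?_
    exact_mod_cast sm_le_of M (fun a ha b hb _ => ⟨a, (mem_inter.1 ha).1, b, hb, rfl⟩)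

end MannAux

theorem mann : MannStmt := by
  intro M A B g hg hA hB hyp
  refine MannAux.full g hg M A B hA hB ?_
  intro m hm
  rcases Nat.eq_zero_or_pos m with h0 | h0
  · subst h0
    have h1 : (0 : ℝ) ≤ (MannAux.cnt A 0 : ℝ) + (MannAux.cnt B 0 : ℝ) := by positivity
    simpa using h1
  · exact hyp m h0 hm

end Pool.Agent.Lib.MP_108739_an.F
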