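import Pool.Agent.Lib.MP_108739_an.F.AddDefs

/-! Arithmetic removal for `x + j = u`, from the triangle removal lemma. -/

namespace Pool.Agent.Lib.MP_108739_an.F

open Finset

namespace RemAux

variable {G : Type} [AddCommGroup G] [Fintype G] [DecidableEq G]

/-- The oriented relation of the tripartite sum graph. -/
def rel (A B C : Finset G) (p q : Fin 3 × G) : Prop :=
  (p.1 = 0 ∧ q.1 = 1 ∧ q.2 - p.2 ∈ A) ∨ (p.1 = 1 ∧ q.1 = 2 ∧ q.2 - p.2 ∈ B) ∨
    (p.1 = 0 ∧ q.1 = 2 ∧ q.2 - p.2 ∈ C)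

/-- The tripartite sum graph. -/
def gr (A B C : Finset G) : SimpleGraph (Fin 3 × G) := SimpleGraph.fromRel (rel A B C)

omit [Fintype G] [DecidableEq G] in
theorem adj_iff (A B C : Finset G) (p q : Fin 3 × G) :
    (gr A B C).Adj p q ↔ p ≠ q ∧ (rel A B C p q ∨ rel A B C q p) := by
  unfold gr
  exact SimpleGraph.fromRel_adj _ _ _

omit [Fintype G] in
theorem tri_form (A B C : Finset G) (a b c : Fin 3 × G) (hab : (gr A B C).Adj a b)
    (hac : (gr A B C).Adj a c) (hbc : (gr A B C).Adj b c) :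
    ∃ g x y : G, x ∈ A ∧ y ∈ B ∧ x + y ∈ C ∧
      ({a, b, c} : Finset (Fin 3 × G)) = {(0, g), (1, g + x), (2, g + x + y)} := by
  have key : ∀ u v w : G, v - u ∈ A → w - v ∈ B → w - u ∈ C →
      ∃ g x y : G, x ∈ A ∧ y ∈ B ∧ x + y ∈ C ∧
        ({(0, u), (1, v), (2, w)} : Finset (Fin 3 × G)) = {(0, g), (1, g + x), (2, g + x + y)} := by
    intro u v w h1 h2 h3
    refine ⟨u, v - u, w - v, h1, h2, ?_, ?_⟩
    · have : v - u + (w - v) = w - u := by abel
      rw [this]; exact h3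
    · have e1 : u + (v - u) = v := by abel
      have e2 : v + (w - v) = w := by abel
      rw [e1, e2]
  obtain ⟨i, u⟩ := a
  obtain ⟨j, v⟩ := b
  obtain ⟨k, w⟩ := c
  rw [adj_iff] at hab hac hbc
  replace hab := hab.2
  replace hac := hac.2
  replace hbc := hbc.2
  unfold rel at hab hac hbc
  fin_cases i <;> fin_cases j <;> fin_cases k <;> simp at hab hac hbc
  · exact key u v w hab hbc hac
  · obtain ⟨g, x, y, h1, h2, h3, h4⟩ := key u w v hac hbc hab
    refine ⟨g, x, y, h1, h2, h3, ?_⟩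
    rw [← h4]; ext z; simp; tauto
  · obtain ⟨g, x, y, h1, h2, h3, h4⟩ := key v u w hab hac hbc
    refine ⟨g, x, y, h1, h2, h3, ?_⟩
    rw [← h4]; ext z; simp; tauto
  · obtain ⟨g, x, y, h1, h2, h3, h4⟩ := key w u v hac hab hbc
    refine ⟨g, x, y, h1, h2, h3, ?_⟩
    rw [← h4]; ext z; simp; tauto
  · obtain ⟨g, x, y, h1, h2, h3, h4⟩ := key v w u hbc hac hab
    refine ⟨g, x, y, h1, h2, h3, ?_⟩
    rw [← h4]; ext z; simp; tauto
  · obtain ⟨g, x, y, h1, h2, h3, h4⟩ := key w v u hbc hab hac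
    refine ⟨g, x, y, h1, h2, h3, ?_⟩
    rw [← h4]; ext z; simp; tauto

theorem card_tri (A B C : Finset G) [DecidableRel (gr A B C).Adj] :
    ((gr A B C).cliqueFinset 3).card ≤
      Fintype.card G * ((A ×ˢ B).filter (fun z => z.1 + z.2 ∈ C)).card := by
  have hsub : (gr A B C).cliqueFinset 3 ⊆
      ((univ : Finset G) ×ˢ ((A ×ˢ B).filter (fun z => z.1 + z.2 ∈ C))).image
        (fun t => ({(0, t.1), (1, t.1 + t.2.1), (2, t.1 + t.2.1 + t.2.2)} : Finset (Fin 3 × G))) := by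
    intro s hs
    rw [SimpleGraph.mem_cliqueFinset_iff, SimpleGraph.is3Clique_iff] at hs
    obtain ⟨a, b, c, hab, hac, hbc, rfl⟩ := hs
    obtain ⟨g, x, y, h1, h2, h3, h4⟩ := tri_form A B C a b c hab hac hbc
    rw [mem_image]
    refine ⟨(g, x, y), ?_, h4.symm⟩
    simp [h1, h2, h3]
  calc _ ≤ _ := card_le_card hsub
    _ ≤ _ := card_image_le
    _ = _ := by rw [card_product, card_univ]

/-- The base points whose edge of difference `x` between the layers `i`, `j` lies in `D`. -/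
def bad (D : Finset (Sym2 (Fin 3 × G))) (i j : Fin 3) (x : G) : Finset G :=
  univ.filter (fun g => s((i, g), (j, g + x)) ∈ D)

/-- The differences that lose a third of their edges. -/
def heavy (D : Finset (Sym2 (Fin 3 × G))) (i j : Fin 3) : Finset G :=
  univ.filter (fun x => Fintype.card G ≤ 3 * (bad D i j x).card)

theorem heavy_card (D : Finset (Sym2 (Fin 3 × G))) (i j : Fin 3) (hij : i ≠ j) :
    (heavy D i j).card * Fintype.card G ≤ 3 * D.card := by
  have h1 : ∑ x : G, (bad D i j x).card ≤ D.card := by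
    rw [← card_sigma]
    refine card_le_card_of_injOn (fun t => s((i, t.2), (j, t.2 + t.1))) ?_ ?_
    · intro t ht
      have := (mem_sigma.1 (mem_coe.1 ht)).2
      unfold bad at this
      exact mem_coe.2 (mem_filter.1 this).2
    · rintro ⟨x, g⟩ _ ⟨y, h⟩ _ he
      simp only [Sym2.eq_iff, Prod.mk.injEq] at he
      rcases he with ⟨⟨_, h2⟩, _, h3⟩ | ⟨⟨h2, _⟩, _⟩
      · subst h2
        have : x = y := add_left_cancel h3
        subst this
        rfl
      · exact absurd h2 hij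
  calc (heavy D i j).card * Fintype.card G = ∑ _x ∈ heavy D i j, Fintype.card G := by
        rw [sum_const, smul_eq_mul]
    _ ≤ ∑ x ∈ heavy D i j, 3 * (bad D i j x).card :=
        sum_le_sum fun x hx => (mem_filter.1 hx).2
    _ ≤ ∑ x : G, 3 * (bad D i j x).card := sum_le_sum_of_subset (subset_univ _)
    _ = 3 * ∑ x : G, (bad D i j x).card := by rw [mul_sum]
    _ ≤ 3 * D.card := Nat.mul_le_mul_left 3 h1

theorem rem_group (ε : ℝ) (hε : 0 < ε) (A B C : Finset G)
    (h : (((A ×ˢ B).filter (fun z => z.1 + z.2 ∈ C)).card : ℝ) ≤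
      SimpleGraph.triangleRemovalBound ε * (Fintype.card G : ℝ) ^ 2) :
    ∃ R₁ R₂ R₃ : Finset G, (R₁.card : ℝ) ≤ 27 * ε * Fintype.card G ∧
      (R₂.card : ℝ) ≤ 27 * ε * Fintype.card G ∧ (R₃.card : ℝ) ≤ 27 * ε * Fintype.card G ∧
      ∀ x ∈ A, x ∉ R₁ → ∀ y ∈ B, y ∉ R₂ → x + y ∈ C → x + y ∈ R₃ := by
  classical
  have hN : (0 : ℝ) < Fintype.card G := Nat.cast_pos.2 Fintype.card_pos
  have hb := SimpleGraph.triangleRemovalBound_pos hε
  have hc : (Fintype.card (Fin 3 × G) : ℝ) = 3 * Fintype.card G := by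
    rw [Fintype.card_prod, Fintype.card_fin]; push_cast; ring
  have hlt : (((gr A B C).cliqueFinset 3).card : ℝ) <
      SimpleGraph.triangleRemovalBound ε * (Fintype.card (Fin 3 × G) : ℝ) ^ 3 := by
    have h1 : (((gr A B C).cliqueFinset 3).card : ℝ) ≤
        Fintype.card G * (((A ×ˢ B).filter (fun z => z.1 + z.2 ∈ C)).card : ℝ) := by
      exact_mod_cast card_tri A B C
    have h2 := mul_le_mul_of_nonneg_left h hN.le
    have h3 : 0 < SimpleGraph.triangleRemovalBound ε * (Fintype.card G : ℝ) ^ 3 := by positivity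
    rw [hc]
    nlinarith
  obtain ⟨H, hle, inst, hD, hfree⟩ := SimpleGraph.triangle_removal hlt
  set D : Finset (Sym2 (Fin 3 × G)) := (gr A B C).edgeFinset \ H.edgeFinset with hDdef
  have hsub : H.edgeFinset ⊆ (gr A B C).edgeFinset := SimpleGraph.edgeFinset_mono hle
  have hDc : (D.card : ℝ) ≤ 9 * ε * (Fintype.card G : ℝ) ^ 2 := by
    have e1 : (D.card : ℝ) = ((gr A B C).edgeFinset.card : ℝ) - (H.edgeFinset.card : ℝ) := by
      rw [hDdef, card_sdiff_of_subset hsub, Nat.cast_sub (card_le_card hsub)]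
    rw [e1]
    have e2 : ((Fintype.card (Fin 3 × G) ^ 2 : ℕ) : ℝ) = 9 * (Fintype.card G : ℝ) ^ 2 := by
      rw [Nat.cast_pow, hc]; ring
    rw [e2] at hD
    linarith
  have hH : ∀ i j : Fin 3, i ≠ j → ((heavy D i j).card : ℝ) ≤ 27 * ε * Fintype.card G := by
    intro i j hij
    have h1 : ((heavy D i j).card : ℝ) * Fintype.card G ≤ 3 * (D.card : ℝ) := by
      exact_mod_cast heavy_card D i j hij
    refine le_of_mul_le_mul_right ?_ hN
    nlinarith
  refine ⟨heavy D 0 1, heavy D 1 2, heavy D 0 2, hH _ _ (by decide), hH _ _ (by decide),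
    hH _ _ (by decide), ?_⟩
  intro x hx hx1 y hy hy2 hxy
  by_contra h3
  have l1 : 3 * (bad D 0 1 x).card < Fintype.card G := by
    by_contra hh
    exact hx1 (mem_filter.2 ⟨mem_univ _, not_lt.1 hh⟩)
  have l2 : 3 * (bad D 1 2 y).card < Fintype.card G := by
    by_contra hh
    exact hy2 (mem_filter.2 ⟨mem_univ _, not_lt.1 hh⟩)
  have l3 : 3 * (bad D 0 2 (x + y)).card < Fintype.card G := by
    by_contra hh
    exact h3 (mem_filter.2 ⟨mem_univ _, not_lt.1 hh⟩)
  have hcard : (bad D 0 1 x ∪ (bad D 1 2 y).image (fun g => g - x) ∪ bad D 0 2 (x + y)).card <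
      (univ : Finset G).card := by
    have a1 := card_union_le (bad D 0 1 x ∪ (bad D 1 2 y).image (fun g => g - x))
      (bad D 0 2 (x + y))
    have a2 := card_union_le (bad D 0 1 x) ((bad D 1 2 y).image (fun g => g - x))
    have a3 : ((bad D 1 2 y).image (fun g => g - x)).card ≤ (bad D 1 2 y).card := card_image_le
    rw [card_univ]
    omega
  obtain ⟨g, -, hg⟩ := exists_mem_notMem_of_card_lt_card hcard
  rw [mem_union, mem_union, not_or, not_or] at hg
  obtain ⟨⟨g1, g2⟩, g3⟩ := hg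
  have keep : ∀ p q : Fin 3 × G, (gr A B C).Adj p q → s(p, q) ∉ D → H.Adj p q := by
    intro p q hpq hn
    by_contra hh
    apply hn
    rw [hDdef, mem_sdiff, SimpleGraph.mem_edgeFinset, SimpleGraph.mem_edgeFinset]
    exact ⟨hpq, hh⟩
  have e01 : H.Adj (0, g) (1, g + x) := by
    refine keep _ _ ?_ (fun hh => g1 (mem_filter.2 ⟨mem_univ _, hh⟩))
    rw [adj_iff]
    refine ⟨fun hh => absurd (congrArg Prod.fst hh) (by simp), Or.inl (Or.inl ⟨rfl, rfl, ?_⟩)⟩
    simpa using hx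
  have e12 : H.Adj (1, g + x) (2, g + x + y) := by
    refine keep _ _ ?_ (fun hh => g2 (mem_image.2 ⟨g + x, mem_filter.2 ⟨mem_univ _, hh⟩, by simp⟩))
    rw [adj_iff]
    refine ⟨fun hh => absurd (congrArg Prod.fst hh) (by simp),
      Or.inl (Or.inr (Or.inl ⟨rfl, rfl, ?_⟩))⟩
    simpa using hy
  have e02 : H.Adj (0, g) (2, g + x + y) := by
    refine keep _ _ ?_ (fun hh => g3 (mem_filter.2 ⟨mem_univ _, by rwa [← add_assoc]⟩))
    rw [adj_iff]
    refine ⟨fun hh => absurd (congrArg Prod.fst hh) (by simp),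
      Or.inl (Or.inr (Or.inr ⟨rfl, rfl, ?_⟩))⟩
    have : g + x + y - g = x + y := by abel
    show g + x + y - g ∈ C
    rw [this]; exact hxy
  exact hfree {(0, g), (1, g + x), (2, g + x + y)}
    (SimpleGraph.is3Clique_iff.2 ⟨_, _, _, e01, e02, e12, rfl⟩)

end RemAux

theorem rem : RemStmt := by
  intro e he
  refine ⟨SimpleGraph.triangleRemovalBound (e / 81),
    SimpleGraph.triangleRemovalBound_pos (by positivity), ?_⟩
  intro n hn S₁ S₂ V h1 h2 hV hc
  classical
  have hinj : ∀ a b : ℕ, a ≤ 2 * n → b ≤ 2 * n →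
      ((a : ZMod (2 * n + 1)) = (b : ZMod (2 * n + 1))) → a = b := by
    intro a b ha hb hab
    have := (ZMod.natCast_eq_natCast_iff' a b (2 * n + 1)).1 hab
    rwa [Nat.mod_eq_of_lt (by omega), Nat.mod_eq_of_lt (by omega)] at this
  have hle : ∀ S : Finset ℕ, S ⊆ range (n + 1) → ∀ a ∈ S, a ≤ n := fun S hS a ha =>
    Nat.lt_succ_iff.1 (mem_range.1 (hS ha))
  have hcard : (Fintype.card (ZMod (2 * n + 1)) : ℝ) = 2 * n + 1 := by
    rw [ZMod.card]; push_cast; ring
  have hn' : (1 : ℝ) ≤ n := by exact_mod_cast hn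
  have hb := SimpleGraph.triangleRemovalBound_pos (ε := e / 81) (by positivity)
  have hT : ((((S₁.image (Nat.cast : ℕ → ZMod (2 * n + 1))) ×ˢ
        (S₂.image (Nat.cast : ℕ → ZMod (2 * n + 1)))).filter
        (fun z => z.1 + z.2 ∈ V.image (Nat.cast : ℕ → ZMod (2 * n + 1)))).card : ℝ) ≤
      SimpleGraph.triangleRemovalBound (e / 81) * (Fintype.card (ZMod (2 * n + 1)) : ℝ) ^ 2 := by
    have hsub : ((S₁.image (Nat.cast : ℕ → ZMod (2 * n + 1))) ×ˢ
        (S₂.image (Nat.cast : ℕ → ZMod (2 * n + 1)))).filter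
        (fun z => z.1 + z.2 ∈ V.image (Nat.cast : ℕ → ZMod (2 * n + 1))) ⊆
        ((S₁ ×ˢ S₂).filter (fun z => z.1 + z.2 ∈ V)).image
          (fun z => ((z.1 : ZMod (2 * n + 1)), (z.2 : ZMod (2 * n + 1)))) := by
      rintro ⟨p, q⟩ hz
      rw [mem_filter, mem_product] at hz
      obtain ⟨⟨hp, hq⟩, hv⟩ := hz
      obtain ⟨a, ha, rfl⟩ := mem_image.1 hp
      obtain ⟨b, hb', rfl⟩ := mem_image.1 hq
      obtain ⟨u, hu, huv⟩ := mem_image.1 hv
      have a1 := hle _ h1 a ha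
      have a2 := hle _ h2 b hb'
      have a3 := hle _ hV u hu
      have : u = a + b := hinj u (a + b) (by omega) (by omega) (by rw [huv]; push_cast; rfl)
      exact mem_image.2 ⟨(a, b), mem_filter.2 ⟨mem_product.2 ⟨ha, hb'⟩, this ▸ hu⟩, rfl⟩
    have c1 := (card_le_card hsub).trans card_image_le
    have c2 : ((((S₁.image (Nat.cast : ℕ → ZMod (2 * n + 1))) ×ˢ
        (S₂.image (Nat.cast : ℕ → ZMod (2 * n + 1)))).filter
        (fun z => z.1 + z.2 ∈ V.image (Nat.cast : ℕ → ZMod (2 * n + 1)))).card : ℝ) ≤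
        (((S₁ ×ˢ S₂).filter (fun z => z.1 + z.2 ∈ V)).card : ℝ) := by exact_mod_cast c1
    refine c2.trans (hc.trans ?_)
    rw [hcard]
    refine mul_le_mul_of_nonneg_left ?_ hb.le
    nlinarith
  obtain ⟨R₁, R₂, R₃, r1, r2, r3, hR⟩ := RemAux.rem_group (e / 81) (by positivity) _ _ _ hT
  have pull : ∀ R : Finset (ZMod (2 * n + 1)),
      (R.card : ℝ) ≤ 27 * (e / 81) * Fintype.card (ZMod (2 * n + 1)) →
      (((range (n + 1)).filter (fun a : ℕ => (a : ZMod (2 * n + 1)) ∈ R)).card : ℝ) ≤ e * n := by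
    intro R hRc
    have c1 : ((range (n + 1)).filter (fun a : ℕ => (a : ZMod (2 * n + 1)) ∈ R)).card ≤ R.card := by
      refine card_le_card_of_injOn (fun a : ℕ => (a : ZMod (2 * n + 1))) ?_ ?_
      · intro a ha
        exact mem_coe.2 (mem_filter.1 (mem_coe.1 ha)).2
      · intro a ha b hb' hab
        have a1 := mem_range.1 (mem_filter.1 (mem_coe.1 ha)).1
        have a2 := mem_range.1 (mem_filter.1 (mem_coe.1 hb')).1
        exact hinj a b (by omega) (by omega) hab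
    have c2 : (((range (n + 1)).filter (fun a : ℕ => (a : ZMod (2 * n + 1)) ∈ R)).card : ℝ) ≤
        (R.card : ℝ) := by exact_mod_cast c1
    rw [hcard] at hRc
    nlinarith
  refine ⟨_, _, _, pull R₁ r1, pull R₂ r2, pull R₃ r3, ?_⟩
  intro x hx hx1 j hj hj2 hv
  have m1 : (x : ZMod (2 * n + 1)) ∉ R₁ := fun hh => hx1 (mem_filter.2 ⟨h1 hx, hh⟩)
  have m2 : (j : ZMod (2 * n + 1)) ∉ R₂ := fun hh => hj2 (mem_filter.2 ⟨h2 hj, hh⟩)
  have m3 := hR _ (mem_image_of_mem _ hx) m1 _ (mem_image_of_mem _ hj) m2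
    (mem_image.2 ⟨x + j, hv, by push_cast; rfl⟩)
  refine mem_filter.2 ⟨hV hv, ?_⟩
  push_cast
  exact m3

end Pool.Agent.Lib.MP_108739_an.F
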