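import Pool.Agent.Lib.MP_108739_an.F.AddDefs

/-! Robust Mann theorem from Mann's theorem and arithmetic removal. -/

namespace Pool.Agent.Lib.MP_108739_an.F

open Finset

namespace Rm

/-- Shift to the minimum of the count minus a linear function. -/
theorem shift (n : ℕ) (S : Finset ℕ) (β e2 E : ℝ) (h2 : e2 < β)
    (hS : ∀ y : ℕ, y ≤ n → β * y - E ≤ ((S.filter (fun x => x < y)).card : ℝ)) :
    ∃ (y0 : ℕ) (A : Finset ℕ), e2 * y0 ≤ E ∧ 0 ∈ A ∧
      (∀ m : ℕ, y0 + m ≤ n →
        (β - e2) * m ≤ ((A.filter (fun a => 1 ≤ a ∧ a ≤ m)).card : ℝ)) ∧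
      (∀ a ∈ A, y0 + 1 ≤ n → ∃ x ∈ S, (a = 0 ∧ x = y0) ∨ (1 ≤ a ∧ x + 1 = y0 + a)) := by
  classical
  obtain ⟨y0, hy0, hmin⟩ := Finset.exists_min_image (range (n + 1))
    (fun y : ℕ => ((S.filter (fun x => x < y)).card : ℝ) - (β - e2) * y) ⟨0, by simp⟩
  have hy0n : y0 ≤ n := by have := mem_range.1 hy0; omega
  have hsplit : ∀ m : ℕ, ((S.filter (fun x => x < y0 + m)).card : ℝ) =
      ((S.filter (fun x => x < y0)).card : ℝ) +
        ((S.filter (fun x => y0 ≤ x ∧ x < y0 + m)).card : ℝ) := by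
    intro m
    have hd : Disjoint (S.filter (fun x => x < y0)) (S.filter (fun x => y0 ≤ x ∧ x < y0 + m)) := by
      rw [Finset.disjoint_left]
      intro x hx hx'
      have h1 := (mem_filter.1 hx).2
      have h2 := (mem_filter.1 hx').2
      omega
    have hu : S.filter (fun x => x < y0 + m) =
        S.filter (fun x => x < y0) ∪ S.filter (fun x => y0 ≤ x ∧ x < y0 + m) := by
      ext x
      simp only [mem_filter, mem_union]
      constructor
      · rintro ⟨hx, h⟩
        by_cases hc : x < y0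
        · exact Or.inl ⟨hx, hc⟩
        · exact Or.inr ⟨hx, by omega, h⟩
      · rintro (⟨hx, h⟩ | ⟨hx, _, h⟩)
        · exact ⟨hx, by omega⟩
        · exact ⟨hx, h⟩
    rw [hu, card_union_of_disjoint hd]
    push_cast
    rfl
  have hmid : ∀ m : ℕ, y0 + m ≤ n →
      (β - e2) * m ≤ ((S.filter (fun x => y0 ≤ x ∧ x < y0 + m)).card : ℝ) := by
    intro m hm
    have h := hmin (y0 + m) (mem_range.2 (by omega))
    have h' := hsplit m
    push_cast at h
    nlinarith
  refine ⟨y0, insert 0 ((Icc 1 n).filter (fun i => y0 + i - 1 ∈ S)), ?_, mem_insert_self _ _,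
    ?_, ?_⟩
  · have h := hmin 0 (by simp)
    have h' := hS y0 hy0n
    simp only [Nat.not_lt_zero, filter_false, card_empty, Nat.cast_zero, mul_zero,
      sub_zero] at h
    nlinarith
  · intro m hm
    refine (hmid m hm).trans ?_
    have : (S.filter (fun x => y0 ≤ x ∧ x < y0 + m)).card ≤
        ((insert 0 ((Icc 1 n).filter (fun i => y0 + i - 1 ∈ S))).filter
          (fun a => 1 ≤ a ∧ a ≤ m)).card := by
      refine card_le_card_of_injOn (fun x => x + 1 - y0) ?_ ?_
      · intro x hx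
        have hx' := mem_filter.1 (mem_coe.1 hx)
        obtain ⟨hxS, h1, h2⟩ := hx'
        refine mem_coe.2 (mem_filter.2 ⟨mem_insert_of_mem (mem_filter.2 ⟨mem_Icc.2 ⟨?_, ?_⟩, ?_⟩),
          ?_, ?_⟩)
        · show 1 ≤ x + 1 - y0
          omega
        · show x + 1 - y0 ≤ n
          omega
        · have : y0 + (x + 1 - y0) - 1 = x := by omega
          show y0 + (x + 1 - y0) - 1 ∈ S
          rw [this]; exact hxS
        · show 1 ≤ x + 1 - y0
          omega
        · show x + 1 - y0 ≤ m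
          omega
      · intro x hx x' hx' hxx
        have h1 := (mem_filter.1 (mem_coe.1 hx)).2
        have h2 := (mem_filter.1 (mem_coe.1 hx')).2
        have : x + 1 - y0 = x' + 1 - y0 := hxx
        omega
    exact_mod_cast this
  · intro a ha hy
    rcases mem_insert.1 ha with rfl | ha
    · have h := hmid 1 hy
      have hpos : 0 < (S.filter (fun x => y0 ≤ x ∧ x < y0 + 1)).card := by
        have : (0 : ℝ) < ((S.filter (fun x => y0 ≤ x ∧ x < y0 + 1)).card : ℝ) := by
          refine lt_of_lt_of_le ?_ h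
          push_cast
          linarith
        exact_mod_cast this
      obtain ⟨x, hx⟩ := card_pos.1 hpos
      obtain ⟨hxS, h1, h2⟩ := mem_filter.1 hx
      exact ⟨x, hxS, Or.inl ⟨rfl, by omega⟩⟩
    · obtain ⟨h1, h2⟩ := mem_filter.1 ha
      have h3 := mem_Icc.1 h1
      exact ⟨y0 + a - 1, h2, Or.inr ⟨h3.1, by omega⟩⟩

/-- Removing a small set lowers every count by at most its size. -/
theorem cnt_sdiff (S R : Finset ℕ) (y : ℕ) :
    ((S.filter (fun x => x < y)).card : ℝ) - (R.card : ℝ) ≤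
      (((S \ R).filter (fun x => x < y)).card : ℝ) := by
  have hsub : S.filter (fun x => x < y) ⊆ (S \ R).filter (fun x => x < y) ∪ R := by
    intro x hx
    obtain ⟨h1, h2⟩ := mem_filter.1 hx
    by_cases hc : x ∈ R
    · exact mem_union_right _ hc
    · exact mem_union_left _ (mem_filter.2 ⟨mem_sdiff.2 ⟨h1, hc⟩, h2⟩)
  have h := (card_le_card hsub).trans (card_union_le _ _)
  have h' : ((S.filter (fun x => x < y)).card : ℝ) ≤
      (((S \ R).filter (fun x => x < y)).card : ℝ) + (R.card : ℝ) := by exact_mod_cast h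
  linarith

end Rm

theorem rm (hM : MannStmt) (hR : RemStmt) : RmStmt := by
  classical
  intro b₀ ε hb hε
  set e2 : ℝ := min (b₀ / 2) (ε / 8) with he2
  have he2pos : 0 < e2 := lt_min (by linarith) (by linarith)
  have he2b : e2 ≤ b₀ / 2 := min_le_left _ _
  have he2e : e2 ≤ ε / 8 := min_le_right _ _
  set e : ℝ := min (e2 * ε / 16) (ε / 8) with he
  have hepos : 0 < e := lt_min (by positivity) (by linarith)
  have he1 : e ≤ e2 * ε / 16 := min_le_left _ _
  have he3 : e ≤ ε / 8 := min_le_right _ _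
  obtain ⟨ρ, hρ, hrem⟩ := hR e hepos
  refine ⟨e, ρ, hepos, hρ, ?_⟩
  intro n hn β γ hβ hγ S₁ S₂ V h1 h2 hV hc1 hc2 hpairs
  have hn0 : (0 : ℝ) ≤ n := Nat.cast_nonneg n
  set V' : Finset ℕ := (range (n + 1)).filter (fun u => u + 1 ∈ V ∨ u + 2 ∈ V) with hV'
  have hp : ((((S₁ ×ˢ S₂).filter (fun z => z.1 + z.2 ∈ V')).card : ℝ) ≤ ρ * (n : ℝ) ^ 2) := by
    refine le_trans ?_ hpairs
    have : ((S₁ ×ˢ S₂).filter (fun z => z.1 + z.2 ∈ V')).card ≤
        ((S₁ ×ˢ S₂).filter (fun z => z.1 + z.2 + 1 ∈ V ∨ z.1 + z.2 + 2 ∈ V)).card := by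
      refine card_le_card ?_
      intro z hz
      obtain ⟨hz1, hz2⟩ := mem_filter.1 hz
      exact mem_filter.2 ⟨hz1, (mem_filter.1 hz2).2⟩
    exact_mod_cast this
  obtain ⟨R₁, R₂, R₃, hR1, hR2, hR3, hsol⟩ :=
    hrem n hn S₁ S₂ V' h1 h2 (filter_subset _ _) hp
  obtain ⟨y0, A, hy0, hA0, hAc, hAx⟩ := Rm.shift n (S₁ \ R₁) β e2 (2 * e * n) (by linarith)
    (fun y hy => by
      have := Rm.cnt_sdiff S₁ R₁ y
      have := hc1 y hy
      linarith)
  obtain ⟨y1, B, hy1, hB0, hBc, hBx⟩ := Rm.shift n (S₂ \ R₂) γ e2 (2 * e * n) (by linarith)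
    (fun y hy => by
      have := Rm.cnt_sdiff S₂ R₂ y
      have := hc2 y hy
      linarith)
  set g : ℝ := min 1 (β + γ - 2 * e2) with hg
  have hg1 : g ≤ 1 := min_le_left _ _
  have hg2 : g ≤ β + γ - 2 * e2 := min_le_right _ _
  have hg0 : 0 ≤ g := le_min (by norm_num) (by linarith)
  have hg3 : min 1 (β + γ) - 2 * e2 ≤ g := by
    refine le_min ?_ ?_
    · have := min_le_left (1 : ℝ) (β + γ)
      linarith
    · have := min_le_right (1 : ℝ) (β + γ)
      linarith
  set M : ℕ := n - y0 - y1 with hMdef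
  have hmann := hM M A B g hg1 hA0 hB0 (fun m hm1 hmM => by
    have ha := hAc m (by omega)
    have hb' := hBc m (by omega)
    have hm0 : (0 : ℝ) ≤ m := Nat.cast_nonneg m
    nlinarith)
  set K : Finset ℕ := (Finset.Icc 1 M).filter (fun k => ∃ a ∈ A, ∃ b ∈ B, a + b = k) with hK
  have hsub : K.image (fun k => y0 + y1 + k) ⊆
      (range (n + 1) \ V) ∪ (R₃.image (fun u => u + 1) ∪ R₃.image (fun u => u + 2)) := by
    intro v hv
    obtain ⟨k, hk, rfl⟩ := mem_image.1 hv
    obtain ⟨hk1, a, ha, b, hb', hab⟩ := mem_filter.1 hk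
    have hk2 := mem_Icc.1 hk1
    by_cases hvV : y0 + y1 + k ∈ V
    · refine mem_union_right _ ?_
      obtain ⟨x, hx, hxa⟩ := hAx a ha (by omega)
      obtain ⟨j, hj, hjb⟩ := hBx b hb' (by omega)
      obtain ⟨hx1, hx2⟩ := mem_sdiff.1 hx
      obtain ⟨hj1, hj2⟩ := mem_sdiff.1 hj
      have hcase : x + j + 1 = y0 + y1 + k ∨ x + j + 2 = y0 + y1 + k := by omega
      have hmem : x + j ∈ V' := by
        refine mem_filter.2 ⟨mem_range.2 (by omega), ?_⟩
        rcases hcase with h | h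
        · left; rw [h]; exact hvV
        · right; rw [h]; exact hvV
      have h3 := hsol x hx1 hx2 j hj1 hj2 hmem
      rcases hcase with h | h
      · exact mem_union_left _ (mem_image.2 ⟨x + j, h3, h⟩)
      · exact mem_union_right _ (mem_image.2 ⟨x + j, h3, h⟩)
    · exact mem_union_left _ (mem_sdiff.2 ⟨mem_range.2 (by omega), hvV⟩)
  have hcardK : (K.image (fun k => y0 + y1 + k)).card = K.card :=
    card_image_of_injective _ (fun a b h => by simpa using h)
  have hle : K.card ≤ (range (n + 1) \ V).card + (R₃.card + R₃.card) := by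
    rw [← hcardK]
    refine (card_le_card hsub).trans ((card_union_le _ _).trans ?_)
    refine Nat.add_le_add_left ((card_union_le _ _).trans ?_) _
    exact Nat.add_le_add card_image_le card_image_le
  have hle' : (K.card : ℝ) ≤ ((range (n + 1) \ V).card : ℝ) + ((R₃.card : ℝ) + (R₃.card : ℝ)) := by
    exact_mod_cast hle
  have hMge : (n : ℝ) - y0 - y1 ≤ M := by
    have : n ≤ M + y0 + y1 := by omega
    have h' : (n : ℝ) ≤ (M : ℝ) + y0 + y1 := by exact_mod_cast this
    linarith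
  have hy0' : (y0 : ℝ) ≤ ε / 8 * n := by
    have h : e2 * y0 ≤ e2 * (ε / 8 * n) := by nlinarith
    exact le_of_mul_le_mul_left h he2pos
  have hy1' : (y1 : ℝ) ≤ ε / 8 * n := by
    have h : e2 * y1 ≤ e2 * (ε / 8 * n) := by nlinarith
    exact le_of_mul_le_mul_left h he2pos
  have hy00 : (0 : ℝ) ≤ y0 := Nat.cast_nonneg _
  have hy10 : (0 : ℝ) ≤ y1 := Nat.cast_nonneg _
  have hA1 : g * ((n : ℝ) - y0 - y1) ≤ g * M := mul_le_mul_of_nonneg_left hMge hg0
  have hA2 : g * y0 ≤ y0 := by nlinarith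
  have hA3 : g * y1 ≤ y1 := by nlinarith
  have hA4 : (min 1 (β + γ) - 2 * e2) * n ≤ g * n := mul_le_mul_of_nonneg_right hg3 hn0
  have hA5 : e2 * n ≤ ε / 8 * n := mul_le_mul_of_nonneg_right he2e hn0
  have hA6 : e * n ≤ ε / 8 * n := mul_le_mul_of_nonneg_right he3 hn0
  have hA7 : 0 ≤ ε * n := by positivity
  nlinarith

end Pool.Agent.Lib.MP_108739_an.F
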