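import Pool.Agent.Lib.MP_108739_an.F.Abc0
import Pool.Agent.Lib.MP_108739_an.F.AbcCore
import Pool.Agent.Lib.MP_108739_an.F.AbcBad
import Pool.Agent.Lib.MP_108739_an.F.AbcBranch
import Pool.Agent.Lib.MP_108739_an.F.AbcD14
import Pool.Agent.Lib.MP_108739_an.F.AbcD2
import Pool.Agent.Lib.MP_108739_an.F.AbcD3
import Pool.Agent.Lib.MP_108739_an.F.AbcEnd
import Pool.Agent.Lib.MP_108739_an.F.AbcExt
import Pool.Agent.Lib.MP_108739_an.F.AbcFar
import Pool.Agent.Lib.MP_108739_an.F.AbcFull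
import Pool.Agent.Lib.MP_108739_an.F.AbcRect
import Pool.Agent.Lib.MP_108739_an.F.AbcSum
import Pool.Agent.Lib.MP_108739_an.F.Mann
import Pool.Agent.Lib.MP_108739_an.F.Rem
import Pool.Agent.Lib.MP_108739_an.F.Rm

/-! The ABC estimate. -/

namespace Pool.Agent.Lib.MP_108739_an.F

theorem abc : AbcSlackStmt :=
  abc_of (abc0 (core (sumb (bad rect far full d14 d3) d14 d3 d2) branch endd (rm mann rem)) abcExt)

end Pool.Agent.Lib.MP_108739_an.F
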