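import Pool.Agent.Lib.MP_108739_an.F.AbcDefs
import Pool.Agent.Lib.MP_108739_an.F.Ent4

/-! Removal of the noise variables and the label. -/

open Finset

namespace Pool.Agent.Lib.MP_108739_an.F
open Classical

section push
variable {Ω Ω' α β : Type} [Fintype Ω] [Fintype Ω'] {w : Ω → ℝ} {w' : Ω' → ℝ} {π : Ω' → Ω}

lemma push_tot (h : ∀ F : Ω → ℝ, E w' (fun o => F (π o)) = E w F) : tot w' = tot w := by
  have := h fun _ => 1
  rwa [E_const, E_const, one_mul, one_mul] at this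

lemma push_ms (h : ∀ F : Ω → ℝ, E w' (fun o => F (π o)) = E w F) (f : Ω → α) (o : Ω') :
    ms w' (fun o => f (π o)) o = ms w f (π o) := by
  have := h fun o' => if f o' = f (π o) then 1 else 0
  simpa [E, ms] using this

lemma push_H (h : ∀ F : Ω → ℝ, E w' (fun o => F (π o)) = E w F) (f : Ω → α) (g : Ω → β) :
    H w' (fun o => f (π o)) (fun o => g (π o)) = H w f g := by
  unfold H
  rw [← h]
  congr 1
  funext o
  rw [push_ms h g o, ← push_ms h (pr f g) o]
  rfl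

lemma push_Pen (h : ∀ F : Ω → ℝ, E w' (fun o => F (π o)) = E w F) (T n : ℕ) (e b : ℝ)
    (Y : Ω → ℕ) : Pen w' un T n e b (fun o => Y (π o)) = Pen w un T n e b Y := by
  unfold Pen
  rw [← h]
  congr 1
  funext o
  congr 1
  funext y
  rw [← push_ms h un o, ← push_ms h (pr (cl (2 ^ T) n y Y) un) o]
  rfl

end push

theorem abc0 (hC : CoreStmt) (hX : ExtStmt) : Abc0Stmt := by
  intro b₀ ε hb hε
  obtain ⟨T, r, e, K, C, hT, hr, he, hK, hC0, hc⟩ := hC b₀ ε hb hε
  refine ⟨T, e, K, C, hT, he, hK, hC0, ?_⟩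
  intro Ω _ w n X Y W b c hw hb0 hc0 hY hW
  have hD2 : 2 ≤ 2 ^ T := by
    calc 2 = 2 ^ 1 := by norm_num
      _ ≤ 2 ^ T := Nat.pow_le_pow_right (by norm_num) hT
  obtain ⟨Ω', inst, π, w', ζ, hw', hE, hU, hbd, hH⟩ := hX Ω w (2 ^ T) n r hw hD2 (by omega)
  let A : Ab Ω' := ⟨2 ^ T, n, r, fun o => X (π o), fun o => Y (π o), fun o => W (π o), ζ⟩
  have hA : A.Ok w' := by
    refine ⟨hw', hD2, hr, fun o => hY _, fun o => hW _, fun u hu => ?_, hbd⟩
    refine Unif.mono hw' (hU u hu) ?_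
    intro o o' h
    have h1 : π o = π o' := congrArg Prod.fst h
    have h2 : ζ (u + r) o = ζ (u + r) o' := congrArg Prod.snd h
    simp only [pr, A, h1, h2]
  have key := hc Ω' A w' b c hA rfl rfl hb0 hc0
  have e1 : H w' A.Z A.W = H w (Zc (2 ^ T) n X Y W) W := push_H hE (Zc (2 ^ T) n X Y W) W
  have e2 : A.J1 w' = I w W (pr X Y) un := by
    have a1 : H w' A.W un = H w W un := push_H hE W un
    have a2 : H w' A.W (pr A.V un) = H w W (pr (pr X Y) un) := by
      rw [← hH _ _ W (pr (pr X Y) un)]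
      refine H_congr Det.fst Det.fst ?_ ?_
      · intro o o' h
        simp only [pr, Ab.V, A, Prod.mk.injEq] at h ⊢
        exact ⟨⟨h.1.1, trivial⟩, h.1.2⟩
      · intro o o' h
        simp only [pr, Ab.V, A, Prod.mk.injEq] at h ⊢
        exact ⟨⟨h.1.1, h.2⟩, trivial⟩
    unfold Ab.J1 I
    rw [a1, a2]
  have e3 : A.J2 w' = I w Y (Zc (2 ^ T) n X Y W) W := by
    have a1 : H w' A.Y A.W = H w Y W := push_H hE Y W
    have a2 : H w' A.Y (pr A.Z A.W) = H w Y (pr (Zc (2 ^ T) n X Y W) W) :=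
      push_H hE Y (pr (Zc (2 ^ T) n X Y W) W)
    unfold Ab.J2 I
    rw [a1, a2]
  have e4 : Pen w' un T A.n e b A.Y = Pen w un T n e b Y := push_Pen hE T n e b Y
  have e5 : Pen w' un T A.n e c A.W = Pen w un T n e c W := push_Pen hE T n e c W
  rw [e1, e2, e3, e4, e5, push_tot hE] at key
  exact key

lemma Pen_split {Ω β : Type} [Fintype Ω] {w : Ω → ℝ} (hw : Nn w) {g : Ω → β} {S : Finset β}
    (h : ∀ o, g o ∈ S) (T n : ℕ) (e b : ℝ) (Y : Ω → ℕ) :
    Pen w g T n e b Y = ∑ t ∈ S, Pen (res w fun o => g o = t) un T n e b Y := by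
  unfold Pen
  rw [E_split h]
  refine sum_congr rfl fun t _ => E_congr (hw.res _) fun o ho => ?_
  obtain rfl : g o = t := (res_pos ho).1
  congr 1
  funext y
  rw [ms_res_eq g un o, ms_res_eq g (pr (cl (2 ^ T) n y Y) un) o]
  have a1 : ms w (pr un g) = ms w g := ms_congr Det.snd (Det.pr Det.un Det.rfl)
  have a2 : ms w (pr (pr (cl (2 ^ T) n y Y) un) g) = ms w (pr (cl (2 ^ T) n y Y) g) :=
    ms_congr (Det.pr (Det.trans Det.fst Det.fst) Det.snd) (Det.pr (Det.pr Det.fst Det.un) Det.snd)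
  rw [a1, a2]

theorem abc_of (h0 : Abc0Stmt) : AbcSlackStmt := by
  intro b₀ ε hb hε
  obtain ⟨T, e, K, C, hT, he, hK, hC0, hc⟩ := h0 b₀ ε hb hε
  refine ⟨T, e, K, C, hT, he, hK, hC0, ?_⟩
  intro Ω β _ w g n X Y W b c hw hb0 hc0 hY hW
  have hS : ∀ o, g o ∈ univ.image g := fun o => mem_image_of_mem g (mem_univ o)
  have e2 : I w W (pr X Y) g = I w W (pr X Y) (pr un g) :=
    I_congr (Det.pr Det.un Det.rfl) Det.snd
  rw [e2, I_split hS, I_split hS, H_split hS, Pen_split hw hS, Pen_split hw hS, tot_split hS]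
  simp only [mul_sum, ← sum_add_distrib]
  exact sum_le_sum fun t _ => hc Ω _ n X Y W b c (hw.res _) hb0 hc0 hY hW

end Pool.Agent.Lib.MP_108739_an.F
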