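import Mathlib

/-! Additive combinatorics statements used in the ABC step (Mann, arithmetic removal, robust Mann). -/

namespace Pool.Agent.Lib.MP_108739_an.F

open Finset

/-- Mann's theorem in Dyson's form. -/
def MannStmt : Prop :=
  ∀ (M : ℕ) (A B : Finset ℕ) (g : ℝ), g ≤ 1 → 0 ∈ A → 0 ∈ B →
    (∀ m : ℕ, 1 ≤ m → m ≤ M →
      g * m ≤ ((A.filter (fun a => 1 ≤ a ∧ a ≤ m)).card : ℝ) +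
        ((B.filter (fun b => 1 ≤ b ∧ b ≤ m)).card : ℝ)) →
    g * M ≤ (((Finset.Icc 1 M).filter (fun k => ∃ a ∈ A, ∃ b ∈ B, a + b = k)).card : ℝ)

/-- Arithmetic removal for the equation `x + j = u`. -/
def RemStmt : Prop :=
  ∀ e : ℝ, 0 < e → ∃ ρ : ℝ, 0 < ρ ∧ ∀ (n : ℕ), 1 ≤ n → ∀ (S₁ S₂ V : Finset ℕ),
    S₁ ⊆ range (n + 1) → S₂ ⊆ range (n + 1) → V ⊆ range (n + 1) →
    ((((S₁ ×ˢ S₂).filter (fun z => z.1 + z.2 ∈ V)).card : ℝ) ≤ ρ * (n : ℝ) ^ 2) →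
    ∃ R₁ R₂ R₃ : Finset ℕ, (R₁.card : ℝ) ≤ e * n ∧ (R₂.card : ℝ) ≤ e * n ∧ (R₃.card : ℝ) ≤ e * n ∧
      ∀ x ∈ S₁, x ∉ R₁ → ∀ j ∈ S₂, j ∉ R₂ → x + j ∈ V → x + j ∈ R₃

/-- Robust Mann theorem with offsets one and two. -/
def RmStmt : Prop :=
  ∀ b₀ ε : ℝ, 0 < b₀ → 0 < ε → ∃ e ρ : ℝ, 0 < e ∧ 0 < ρ ∧
    ∀ (n : ℕ), 1 ≤ n → ∀ (β γ : ℝ), b₀ ≤ β → b₀ ≤ γ → ∀ (S₁ S₂ V : Finset ℕ),
    S₁ ⊆ range (n + 1) → S₂ ⊆ range (n + 1) → V ⊆ range (n + 1) →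
    (∀ y : ℕ, y ≤ n → β * y - e * n ≤ ((S₁.filter (fun x => x < y)).card : ℝ)) →
    (∀ y : ℕ, y ≤ n → γ * y - e * n ≤ ((S₂.filter (fun x => x < y)).card : ℝ)) →
    ((((S₁ ×ˢ S₂).filter (fun z => z.1 + z.2 + 1 ∈ V ∨ z.1 + z.2 + 2 ∈ V)).card : ℝ)
        ≤ ρ * (n : ℝ) ^ 2) →
    (min 1 (β + γ) - ε) * n ≤ ((range (n + 1) \ V).card : ℝ)

end Pool.Agent.Lib.MP_108739_an.F
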