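import Pool.Agent.Lib.MP_108739_an.F.Defs
import Pool.Agent.Lib.MP_108739_an.F.AddDefs

/-! The ABC step: definitions and the statements of all pieces. -/

open Finset

namespace Pool.Agent.Lib.MP_108739_an.F

noncomputable section
open Classical

/-- coarse value of `X + W Y` -/
def Zc {Ω : Type} (D n : ℕ) (X : Ω → ℤ) (Y W : Ω → ℕ) : Ω → ℤ :=
  fun o => (X o + (W o : ℤ) * (Y o : ℤ)) / (D : ℤ) ^ n

/-- The ABC estimate, conditioned on a label `g`. -/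
def AbcSlackStmt : Prop :=
  ∀ b₀ ε : ℝ, 0 < b₀ → 0 < ε → ∃ (T : ℕ) (e K C : ℝ), 1 ≤ T ∧ 0 < e ∧ 0 ≤ K ∧ 0 ≤ C ∧
    ∀ (Ω β : Type) [Fintype Ω] (w : Ω → ℝ) (g : Ω → β) (n : ℕ) (X : Ω → ℤ) (Y W : Ω → ℕ)
      (b c : ℝ), Nn w → b₀ ≤ b → b₀ ≤ c → (∀ o, Y o < (2 ^ T) ^ n) → (∀ o, W o < (2 ^ T) ^ n) →
      (min 1 (b + c) - ε) * n * T * tot w ≤ H w (Zc (2 ^ T) n X Y W) (pr W g) +
        K * (I w W (pr X Y) g + I w Y (Zc (2 ^ T) n X Y W) (pr W g) +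
          Pen w g T n e b Y + Pen w g T n e c W) + C * tot w

/-- The ABC estimate without label. -/
def Abc0Stmt : Prop :=
  ∀ b₀ ε : ℝ, 0 < b₀ → 0 < ε → ∃ (T : ℕ) (e K C : ℝ), 1 ≤ T ∧ 0 < e ∧ 0 ≤ K ∧ 0 ≤ C ∧
    ∀ (Ω : Type) [Fintype Ω] (w : Ω → ℝ) (n : ℕ) (X : Ω → ℤ) (Y W : Ω → ℕ)
      (b c : ℝ), Nn w → b₀ ≤ b → b₀ ≤ c → (∀ o, Y o < (2 ^ T) ^ n) → (∀ o, W o < (2 ^ T) ^ n) →
      (min 1 (b + c) - ε) * n * T * tot w ≤ H w (Zc (2 ^ T) n X Y W) W +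
        K * (I w W (pr X Y) un + I w Y (Zc (2 ^ T) n X Y W) W +
          Pen w un T n e b Y + Pen w un T n e c W) + C * tot w

/-- data of the ABC step together with noise variables `ζ` -/
structure Ab (Ω : Type) where
  D : ℕ
  n : ℕ
  r : ℕ
  X : Ω → ℤ
  Y : Ω → ℕ
  W : Ω → ℕ
  ζ : ℕ → Ω → ℤ

namespace Ab
variable {Ω : Type} [Fintype Ω] (A : Ab Ω)

/-- the scale of level `k` -/
def hh (k : ℕ) : ℕ := A.D ^ (2 * A.n - k)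

structure Ok (w : Ω → ℝ) : Prop where
  nn : Nn w
  hD : 2 ≤ A.D
  hr : 3 ≤ A.r
  hY : ∀ o, A.Y o < A.D ^ A.n
  hW : ∀ o, A.W o < A.D ^ A.n
  unif : ∀ u, u ≤ A.n → Unif w (fun o => A.ζ u o - A.ζ (u + A.r) o) (A.hh u)
    (pr (pr A.X (pr A.Y A.W)) (A.ζ (u + A.r)))
  bd : ∀ v o, 0 ≤ A.ζ v o ∧ A.ζ v o < 2 * (A.hh v : ℤ)

def Z : Ω → ℤ := Zc A.D A.n A.X A.Y A.W
def cY (x : ℕ) : Ω → ℕ := cl A.D A.n x A.Y
def cW (j : ℕ) : Ω → ℕ := cl A.D A.n j A.W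
/-- `W` rounded down to level `j` -/
def tW (j : ℕ) : Ω → ℤ := fun o => ((A.D ^ (A.n - j) * (A.W o / A.D ^ (A.n - j)) : ℕ) : ℤ)
/-- the part of `Y` below level `x` -/
def rY (x : ℕ) : Ω → ℤ := fun o => ((A.Y o % A.D ^ (A.n - x) : ℕ) : ℤ)
def R (v : ℕ) : Ω → ℤ := fun o => A.X o - A.ζ v o
def C (x j u : ℕ) : Ω → ℤ := fun o => A.X o + A.tW j o * A.rY x o - A.ζ u o
def O (x j u : ℕ) : Ω → (ℕ × ℕ) × ℤ := pr (pr (A.cW j) (A.cY x)) (A.C x j u)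
def kap (u : ℕ) : Ω → ℕ × ℤ := pr A.Y (A.R u)
/-- everything except `W` -/
def V : Ω → (ℤ × ℕ) × (ℕ → ℤ) := pr (pr A.X A.Y) fun o v => A.ζ v o

def J1 (w : Ω → ℝ) : ℝ := I w A.W A.V un
def J2 (w : Ω → ℝ) : ℝ := I w A.Y A.Z A.W
def lk : ℝ := lg (1 + 4 * (A.D : ℝ) ^ 2 / (A.D : ℝ) ^ A.r)

def d1 (w : Ω → ℝ) (j : ℕ) : ℝ := I w (A.cW (j + A.r)) A.V (A.cW j)
def d2 (w : Ω → ℝ) (x j u : ℕ) : ℝ :=
  I w (A.C x (j + A.r) (u + A.r)) A.Y (pr (A.O x j u) (A.tW (j + A.r)))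
def d3 (w : Ω → ℝ) (x : ℕ) : ℝ := I w (A.cY (x + 1)) (pr A.W A.Z) (A.cY x)
def d4 (w : Ω → ℝ) (u : ℕ) : ℝ := I w (A.R (u + A.r)) A.W (A.kap u)

/-- level `v` is a full digit of the conditional law of `R v` at the point `o` -/
def Full (w : Ω → ℝ) (v : ℕ) (o : Ω) : Prop := A.r ≤ v ∧
  (lg A.D - 4) * ms w (A.kap (v - A.r)) o ≤
    H (res w fun o' => A.kap (v - A.r) o' = A.kap (v - A.r) o)
      (fun o' => A.R v o' / (A.hh (v - 2) : ℤ)) (fun o' => A.R v o' / (A.hh (v - 3) : ℤ))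

/-- the bound for the mass of the bad event of the triple `(x, j, u)` -/
def bad (w : Ω → ℝ) (x j u : ℕ) : ℝ :=
  32 * (A.D : ℝ) ^ 6 * (8 * √(tot w * A.d2 w x j u) + 8 * √(tot w * A.d4 w u) +
    12 * √(tot w * A.d1 w j)) + 8 * √(tot w * (A.d3 w x + A.lk * tot w)) + 8 * √(tot w * A.d1 w j)

end Ab

/-- defects `d1`, `d4` -/
def D14Stmt : Prop := ∀ (Ω : Type) [Fintype Ω] (A : Ab Ω) (w : Ω → ℝ), A.Ok w →
  (∑ j ∈ range (A.n + 1), A.d1 w j ≤ A.r * A.J1 w) ∧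
  (∀ x j u, I w A.Y (A.tW (j + A.r)) (A.O x j u) ≤ A.d1 w j) ∧
  (∀ x j u, I w (A.cW (j + 1)) (A.O x j u) (A.cW j) ≤ A.d1 w j) ∧
  (∑ u ∈ (range (A.n + 1)).filter (fun u => u + A.r ≤ A.n), A.d4 w u ≤ A.r * A.J1 w)

/-- defect `d3` -/
def D3Stmt : Prop := ∀ (Ω : Type) [Fintype Ω] (A : Ab Ω) (w : Ω → ℝ), A.Ok w →
  (∑ x ∈ range (A.n + 1), A.d3 w x ≤ A.J1 w + A.J2 w) ∧
  (∀ x j u o : ℕ, o ≤ 2 → x + j + o = u + A.r → u + A.r ≤ A.n →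
    I w (A.cY (x + 1)) (A.O x j u) (A.cY x) ≤ A.d3 w x + A.lk * tot w)

/-- defect `d2` -/
def D2Stmt : Prop := ∀ (Ω : Type) [Fintype Ω] (A : Ab Ω) (w : Ω → ℝ), A.Ok w →
  ∀ x o : ℕ, o ≤ 2 →
    ∑ j ∈ (range (A.n + 1)).filter (fun j => A.r ≤ x + j + o ∧ x + j + o ≤ A.n),
      A.d2 w x j (x + j + o - A.r) ≤
      A.r * (A.J1 w + A.J2 w + 3 * tot w) + (A.n + 1) * A.lk * tot w

/-- almost invariance under one shift gives a full digit -/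
def FullStmt : Prop := ∀ (Ω : Type) [Fintype Ω] (w : Ω → ℝ) (R : Ω → ℤ) (D h : ℕ) (d : ℤ),
  Nn w → 2 ≤ D → 0 < h → |d| ≤ h → (h : ℤ) ≤ (D : ℤ) ^ 4 * |d| →
  n1 (law w R - sh d (law w R)) ≤ tot w / (2 * (D : ℝ) ^ 6) →
  (lg D - 4) * tot w ≤ H w (fun o => R o / (h : ℤ)) (fun o => R o / ((D * h : ℕ) : ℤ))

/-- the rectangle argument -/
def RectStmt : Prop := ∀ (Ω α κ μ : Type) [Fintype Ω] (w : Ω → ℝ) (O : Ω → α) (k : Ω → κ)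
  (Y : Ω → μ) (y q R : Ω → ℤ) (B : Ω → Prop) (fY fq : Ω → Ω → Prop) (τ : ℝ),
  Nn w → 0 ≤ τ → Det Y y → Det (pr O Y) k → Det (pr k q) (pr O Y) →
  (∀ p, B p → 0 < w p →
    ms w O p / 4 ≤ tot (res w fun p' => O p' = O p ∧ fY p p') ∧
    ms w O p / 4 ≤ tot (res w fun p' => O p' = O p ∧ fq p p') ∧
    ∀ p' p'', O p' = O p → O p'' = O p → fY p p' → fq p p'' →
      τ ≤ n1 (lw w R k p - sh ((q p - q p'') * (y p - y p')) (lw w R k p))) →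
  τ / 16 * tot (res w B) ≤ 8 * √(tot w * I w (fun o => R o + q o * y o) Y (pr O q)) +
    8 * √(tot w * I w R q k) + 12 * √(tot w * I w Y q O)

/-- a branching point whose local law is typical has many far partners -/
def FarStmt : Prop := ∀ (Ω α : Type) [Fintype Ω] (w : Ω → ℝ) (O : Ω → α) (D n x : ℕ)
  (Y : Ω → ℕ), Nn w → Det O (cl D n x Y) →
  tot (res w fun p => Br w D n Y x p ∧ ¬ (ms w O p / 4 ≤ tot (res w fun p' => O p' = O p ∧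
      2 ≤ |(cl D n (x + 1) Y p' : ℤ) - cl D n (x + 1) Y p|))) ≤
    8 * √(tot w * I w (cl D n (x + 1) Y) O (cl D n x Y))

/-- the mass of the bad event -/
def BadStmt : Prop := ∀ (Ω : Type) [Fintype Ω] (A : Ab Ω) (w : Ω → ℝ), A.Ok w →
  ∀ x j u o : ℕ, o ≤ 2 → x + j + o = u + A.r → u + A.r ≤ A.n →
    tot (res w fun p => Br w A.D A.n A.Y x p ∧ Br w A.D A.n A.W j p ∧ ¬ A.Full w (u + A.r) p) ≤
      A.bad w x j u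

/-- sum of the bad masses -/
def SumStmt : Prop := ∀ (D : ℕ) (ρ : ℝ), 2 ≤ D → 0 < ρ → ∃ (r n₀ : ℕ) (η : ℝ), 3 ≤ r ∧ 0 < η ∧
  ∀ (Ω : Type) [Fintype Ω] (A : Ab Ω) (w : Ω → ℝ), A.Ok w → A.D = D → A.r = r → n₀ ≤ A.n →
    A.J1 w ≤ η * A.n * tot w → A.J2 w ≤ η * A.n * tot w →
    E w (fun p => (#((range (A.n + 1) ×ˢ range (A.n + 1)).filter fun z =>
      Br w A.D A.n A.Y z.1 p ∧ Br w A.D A.n A.W z.2 p ∧
      ((z.1 + z.2 + 1 ≤ A.n ∧ ¬ A.Full w (z.1 + z.2 + 1) p) ∨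
        (z.1 + z.2 + 2 ≤ A.n ∧ ¬ A.Full w (z.1 + z.2 + 2) p))) : ℝ)) ≤
      ρ * (A.n : ℝ) ^ 2 * tot w

/-- pointwise count of branching levels -/
def BranchStmt : Prop := ∀ (Ω : Type) [Fintype Ω] (w : Ω → ℝ) (T n : ℕ) (Y : Ω → ℕ) (e b : ℝ),
  Nn w → 1 ≤ T → 1 ≤ n → 0 < e → (∀ o, Y o < (2 ^ T) ^ n) →
  tot (res w fun p => ∃ y : ℕ, y ≤ n ∧
      (#(((range (n + 1)).filter fun x => Br w (2 ^ T) n Y x p).filter fun x => x < y) : ℝ) <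
        b * y - 3 * e * n) ≤
    4 * tot w / (e * T) + Pen w un T n e b Y / (e * n * T)

/-- full digits give entropy -/
def EndStmt : Prop := ∀ (Ω : Type) [Fintype Ω] (A : Ab Ω) (w : Ω → ℝ), A.Ok w →
  (lg A.D - 4) * E w (fun p => (#((range (A.n + 1)).filter fun v => A.Full w v p) : ℝ)) ≤
    H w A.Z A.W + A.J1 w + (2 * A.n + 3) * tot w

/-- the ABC estimate in the presence of noise variables -/
def CoreStmt : Prop :=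
  ∀ b₀ ε : ℝ, 0 < b₀ → 0 < ε → ∃ (T r : ℕ) (e K C : ℝ), 1 ≤ T ∧ 3 ≤ r ∧ 0 < e ∧ 0 ≤ K ∧ 0 ≤ C ∧
    ∀ (Ω : Type) [Fintype Ω] (A : Ab Ω) (w : Ω → ℝ) (b c : ℝ), A.Ok w → A.D = 2 ^ T → A.r = r →
      b₀ ≤ b → b₀ ≤ c →
      (min 1 (b + c) - ε) * A.n * T * tot w ≤ H w A.Z A.W +
        K * (A.J1 w + A.J2 w + Pen w un T A.n e b A.Y + Pen w un T A.n e c A.W) + C * tot w

/-- extension of the space by noise variables -/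
def ExtStmt : Prop := ∀ (Ω : Type) [Fintype Ω] (w : Ω → ℝ) (D n r : ℕ), Nn w → 2 ≤ D → 1 ≤ r →
  ∃ (Ω' : Type) (_ : Fintype Ω') (π : Ω' → Ω) (w' : Ω' → ℝ) (ζ : ℕ → Ω' → ℤ), Nn w' ∧
    (∀ F : Ω → ℝ, E w' (fun o => F (π o)) = E w F) ∧
    (∀ u, u ≤ n → Unif w' (fun o => ζ u o - ζ (u + r) o) (D ^ (2 * n - u)) (pr π (ζ (u + r)))) ∧
    (∀ v o, 0 ≤ ζ v o ∧ ζ v o < 2 * ((D ^ (2 * n - v) : ℕ) : ℤ)) ∧
    (∀ (α β : Type) (f : Ω → α) (g : Ω → β),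
      H w' (fun o => f (π o)) (pr (fun o => g (π o)) fun o v => ζ v o) = H w f g)

end

end Pool.Agent.Lib.MP_108739_an.F
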