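import Pool.Agent.Lib.MP_108739_an.F.AbcDefs

/-! Almost invariance under one shift gives a full digit. -/

open Finset

namespace Pool.Agent.Lib.MP_108739_an.F
open Classical

namespace FullAux

variable {Ω : Type} [Fintype Ω]

lemma lc_law (w : Ω → ℝ) (R : Ω → ℤ) (φ : ℤ → ℝ) :
    Finsupp.linearCombination ℝ φ (law w R) = ∑ o, w o * φ (R o) := by
  unfold law
  rw [map_sum]
  simp [Finsupp.linearCombination_single]

lemma lc_le (F : ℤ →₀ ℝ) (φ : ℤ → ℝ) {c : ℝ} (h : ∀ v, |φ v| ≤ c) :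
    |Finsupp.linearCombination ℝ φ F| ≤ c * n1 F := by
  rw [Finsupp.linearCombination_apply, Finsupp.sum, n1, mul_sum]
  refine (abs_sum_le_sum_abs _ _).trans (sum_le_sum fun v _ => ?_)
  rw [smul_eq_mul, abs_mul, mul_comm]
  exact mul_le_mul_of_nonneg_right (h v) (abs_nonneg _)

lemma step (w : Ω → ℝ) (R : Ω → ℤ) (d : ℤ) (φ : ℤ → ℝ) {c : ℝ} (h : ∀ v, |φ v| ≤ c) :
    ∑ o, w o * φ (R o + d) ≤ ∑ o, w o * φ (R o) + c * n1 (law w R - sh d (law w R)) := by
  have h1 := lc_le (law w R - sh d (law w R)) φ h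
  have h2 : Finsupp.linearCombination ℝ φ (sh d (law w R)) = ∑ o, w o * φ (R o + d) := by
    unfold sh
    rw [Finsupp.linearCombination_mapDomain, lc_law]
    rfl
  rw [map_sub, h2, lc_law] at h1
  have := (abs_le.1 h1).1
  linarith

lemma steps (w : Ω → ℝ) (R : Ω → ℤ) (d : ℤ) (φ : ℤ → ℝ) {c : ℝ} (h : ∀ v, |φ v| ≤ c) (u : ℕ) :
    ∑ o, w o * φ (R o + d * u) ≤
      ∑ o, w o * φ (R o) + u * (c * n1 (law w R - sh d (law w R))) := by
  induction u with
  | zero => simp
  | succ u ih =>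
    have h1 := step w R d (fun v => φ (v + d * u)) (c := c) fun v => h _
    have h2 : ∀ o, R o + d * ((u + 1 : ℕ) : ℤ) = R o + d + d * u := fun o => by push_cast; ring
    simp only [h2]
    push_cast
    linarith

lemma mult (z d c : ℤ) (h L : ℕ) (hh : 0 < h) (hd : 0 < d.natAbs) :
    #((range L).filter fun u : ℕ => (z + d * u) / (h : ℤ) = c) ≤ h / d.natAbs + 1 := by
  set S := (range L).filter fun u : ℕ => (z + d * u) / (h : ℤ) = c with hS
  rcases S.eq_empty_or_nonempty with h0 | h0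
  · simp [h0]
  have hm := S.min'_mem h0
  set u0 := S.min' h0
  have hsub : S ⊆ Icc u0 (u0 + h / d.natAbs) := by
    intro u hu
    have h1 : u0 ≤ u := S.min'_le u hu
    obtain ⟨k, rfl⟩ := Nat.exists_eq_add_of_le h1
    rw [mem_Icc]
    refine ⟨h1, Nat.add_le_add_left ?_ _⟩
    rw [Nat.le_div_iff_mul_le hd]
    have a1 := (mem_filter.1 hu).2
    have a2 := (mem_filter.1 hm).2
    have hz : (0 : ℤ) < h := by exact_mod_cast hh
    have b1 := Int.emod_add_mul_ediv (z + d * ((u0 + k : ℕ) : ℤ)) h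
    have b2 := Int.emod_add_mul_ediv (z + d * (u0 : ℤ)) h
    have c1 := Int.emod_nonneg (z + d * ((u0 + k : ℕ) : ℤ)) hz.ne'
    have c2 := Int.emod_nonneg (z + d * (u0 : ℤ)) hz.ne'
    have e1 := Int.emod_lt_of_pos (z + d * ((u0 + k : ℕ) : ℤ)) hz
    have e2 := Int.emod_lt_of_pos (z + d * (u0 : ℤ)) hz
    rw [a1] at b1
    rw [a2] at b2
    have f : d * ((u0 + k : ℕ) : ℤ) = d * u0 + d * k := by push_cast; ring
    have g : |d * k| ≤ h := by
      rw [abs_le]
      constructor <;> linarith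
    rw [abs_mul, Nat.abs_cast] at g
    have : ((k * d.natAbs : ℕ) : ℤ) ≤ h := by
      push_cast
      linarith
    exact_mod_cast this
  have := card_le_card hsub
  rw [Nat.card_Icc] at this
  generalize h / d.natAbs = m at this ⊢
  omega

/-- mass of a cell of length `g` -/
noncomputable def cm (w : Ω → ℝ) (R : Ω → ℤ) (g : ℤ) (c : ℤ) : ℝ :=
  ∑ o, if R o / g = c then w o else 0

lemma cm_nonneg {w : Ω → ℝ} (hw : Nn w) (R : Ω → ℤ) (g c : ℤ) : 0 ≤ cm w R g c :=
  sum_nonneg fun o _ => by split_ifs; exacts [hw o, le_rfl]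

lemma dd (z : ℤ) (D h : ℕ) : z / ((D * h : ℕ) : ℤ) = z / (h : ℤ) / (D : ℤ) := by
  rw [Int.ediv_ediv_of_nonneg (by positivity)]
  push_cast
  rw [mul_comm]

lemma cm_le {w : Ω → ℝ} (hw : Nn w) (R : Ω → ℤ) (D h : ℕ) (z : ℤ) :
    cm w R h (z / (h : ℤ)) ≤ cm w R ((D * h : ℕ) : ℤ) (z / ((D * h : ℕ) : ℤ)) := by
  refine sum_le_sum fun o _ => ?_
  by_cases h1 : R o / (h : ℤ) = z / (h : ℤ)
  · rw [if_pos h1, if_pos (by rw [dd, dd, h1])]
  · rw [if_neg h1]
    split_ifs
    exacts [hw o, le_rfl]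

lemma cells (w : Ω → ℝ) (R : Ω → ℤ) (g : ℤ) (T : Finset ℤ) :
    ∑ o, (if R o / g ∈ T then w o / cm w R g (R o / g) else 0) ≤ #T := by
  have h1 : ∑ o, (if R o / g ∈ T then w o / cm w R g (R o / g) else 0) =
      ∑ C ∈ T, cm w R g C / cm w R g C := by
    have : ∀ C, cm w R g C / cm w R g C =
        ∑ o, if R o / g = C then w o / cm w R g (R o / g) else 0 := by
      intro C
      conv_lhs => enter [1]; unfold cm
      rw [sum_div]
      refine sum_congr rfl fun o _ => ?_
      split_ifs with h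
      · rw [h]
      · simp
    simp only [this]
    rw [sum_comm]
    refine sum_congr rfl fun o _ => ?_
    rw [sum_ite_eq]
  rw [h1]
  have : ∑ C ∈ T, cm w R g C / cm w R g C ≤ ∑ _C ∈ T, (1 : ℝ) :=
    sum_le_sum fun C _ => div_self_le_one _
  simpa using this

lemma avg {w : Ω → ℝ} (hw : Nn w) (R : Ω → ℤ) (D h : ℕ) (d : ℤ) (hD : 2 ≤ D) (hh : 0 < h)
    (h1 : |d| ≤ h) (h2 : (h : ℤ) ≤ (D : ℤ) ^ 4 * |d|) (z : ℤ) :
    ∑ u ∈ range (2 * D ^ 5), cm w R h ((z + d * u) / (h : ℤ)) /
      cm w R ((D * h : ℕ) : ℤ) ((z + d * u) / ((D * h : ℕ) : ℤ)) ≤ 12 * (D : ℝ) ^ 4 := by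
  set L := 2 * D ^ 5 with hL
  set g : ℤ := ((D * h : ℕ) : ℤ) with hg
  set e := d.natAbs with he
  have hed : (e : ℤ) = |d| := Int.natCast_natAbs d
  have he0 : 0 < e := by
    rcases Nat.eq_zero_or_pos e with h0 | h0
    · rw [← hed, h0] at h2
      simp at h2
      omega
    · exact h0
  have hg0 : 0 < g := by
    rw [hg]
    have : 0 < D * h := by positivity
    exact_mod_cast this
  set T := Icc ((z - L * e) / g) ((z + L * e) / g) with hT
  have hmem : ∀ u ∈ range L, (z + d * u) / g ∈ T := by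
    intro u hu
    have hu' : (u : ℤ) ≤ L := by exact_mod_cast (mem_range.1 hu).le
    have a : |d * u| ≤ L * e := by
      rw [abs_mul, Nat.abs_cast, ← hed]
      nlinarith [Int.natCast_nonneg e]
    rw [abs_le] at a
    rw [hT, mem_Icc]
    exact ⟨Int.ediv_le_ediv hg0 (by linarith), Int.ediv_le_ediv hg0 (by linarith)⟩
  have key : ∑ u ∈ range L, cm w R h ((z + d * u) / (h : ℤ)) / cm w R g ((z + d * u) / g) ≤
      ((h / e + 1 : ℕ) : ℝ) * #T := by
    have a1 : ∀ u ∈ range L, cm w R h ((z + d * u) / (h : ℤ)) / cm w R g ((z + d * u) / g) =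
        ∑ o, if (z + d * u) / (h : ℤ) = R o / (h : ℤ) then
          (if R o / g ∈ T then w o / cm w R g (R o / g) else 0) else 0 := by
      intro u hu
      conv_lhs => enter [1]; unfold cm
      rw [sum_div]
      refine sum_congr rfl fun o _ => ?_
      by_cases hc : R o / (h : ℤ) = (z + d * u) / (h : ℤ)
      · have hc' : R o / g = (z + d * u) / g := by rw [hg, dd, dd, hc]
        rw [if_pos hc, if_pos hc.symm, hc', if_pos (hmem u hu)]
      · rw [if_neg hc, if_neg fun x => hc x.symm]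
        simp
    rw [sum_congr rfl a1, sum_comm]
    refine le_trans ?_ (mul_le_mul_of_nonneg_left (cells w R g T) (by positivity))
    rw [mul_sum]
    refine sum_le_sum fun o _ => ?_
    rw [← sum_filter, sum_const, nsmul_eq_mul]
    refine mul_le_mul_of_nonneg_right ?_ ?_
    · exact_mod_cast mult z d _ h L hh he0
    · split_ifs
      exacts [div_nonneg (hw o) (cm_nonneg hw _ _ _), le_rfl]
  refine key.trans ?_
  have b1 : ((h / e + 1 : ℕ) : ℤ) * e ≤ 2 * h := by
    have := Nat.div_mul_le_self h e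
    have h3 : ((h / e * e : ℕ) : ℤ) ≤ h := by exact_mod_cast this
    rw [Nat.cast_add, Nat.cast_one]
    rw [Nat.cast_mul] at h3
    nlinarith
  have b2 : (#T : ℤ) * g ≤ 2 * (L * e) + 2 * g := by
    have hle : (z - L * e) / g ≤ (z + L * e) / g :=
      Int.ediv_le_ediv hg0 (by nlinarith [Int.natCast_nonneg e, Int.natCast_nonneg L])
    rw [hT, Int.card_Icc, Int.toNat_of_nonneg (by linarith)]
    have c1 := Int.ediv_mul_le (z + L * e) hg0.ne'
    have c2 := Int.lt_ediv_add_one_mul_self (z - L * e) hg0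
    nlinarith
  have b3 : ((h / e + 1 : ℕ) : ℤ) * #T ≤ 12 * (D : ℤ) ^ 4 := by
    have he1 : (0 : ℤ) < e := by exact_mod_cast he0
    have hh1 : (0 : ℤ) < h := by exact_mod_cast hh
    have hD1 : (0 : ℤ) < D := by exact_mod_cast (by omega : 0 < D)
    have hgg : g = D * h := by rw [hg]; push_cast; ring
    have hLL : (L : ℤ) = 2 * (D : ℤ) ^ 5 := by rw [hL]; push_cast; ring
    have c1 : (((h / e + 1 : ℕ) : ℤ) * e) * ((#T : ℤ) * g) ≤ (2 * h) * (2 * (L * e) + 2 * g) :=
      mul_le_mul b1 b2 (by positivity) (by positivity)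
    rw [← hed] at h2
    have c2 : (2 * h) * (2 * (L * e) + 2 * g) ≤ 12 * (D : ℤ) ^ 4 * (e * g) := by
      rw [hgg, hLL]
      have : (D : ℤ) * h * h ≤ D * h * ((D : ℤ) ^ 4 * e) :=
        mul_le_mul_of_nonneg_left h2 (by positivity)
      nlinarith
    have c3 : (((h / e + 1 : ℕ) : ℤ) * #T) * (e * g) ≤ 12 * (D : ℤ) ^ 4 * (e * g) := by
      nlinarith
    exact le_of_mul_le_mul_right c3 (by positivity)
  exact_mod_cast b3

end FullAux

open FullAux in
theorem full : FullStmt := by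
  intro Ω _ w R D h d hw hD hh h1 h2 hn
  have hD0 : (2 : ℝ) ≤ D := by exact_mod_cast hD
  have hl2 : 0 < Real.log 2 := Real.log_pos one_lt_two
  have ht : 0 ≤ tot w := sum_nonneg fun o _ => hw o
  set g : ℤ := ((D * h : ℕ) : ℤ) with hg
  set r : ℤ → ℝ := fun z => cm w R h (z / (h : ℤ)) / cm w R g (z / g) with hr
  have r0 : ∀ z, 0 ≤ r z := fun z => div_nonneg (cm_nonneg hw _ _ _) (cm_nonneg hw _ _ _)
  have r1 : ∀ z, r z ≤ 1 := fun z => div_le_one_of_le₀ (cm_le hw R D h z) (cm_nonneg hw _ _ _)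
  set Q : ℤ → ℝ := fun z => r z / 2 + 1 / (2 * D) with hQ
  have q0 : (0 : ℝ) < 1 / (2 * D) := by positivity
  have q1 : (1 : ℝ) / (2 * D) ≤ 1 / 2 := one_div_le_one_div_of_le (by norm_num) (by linarith)
  have Q0 : ∀ z, 1 / (2 * (D : ℝ)) ≤ Q z := fun z => by have := r0 z; simp only [hQ]; linarith
  have Q1 : ∀ z, Q z ≤ 1 := fun z => by have := r1 z; simp only [hQ]; linarith
  set φ : ℤ → ℝ := fun z => -lg (Q z) with hφ
  have lgD : lg (2 * D) ≤ D := by
    have a : 2 * D ≤ 2 ^ D := Nat.mul_le_pow (by norm_num) D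
    have b : (2 * D : ℝ) ≤ 2 ^ D := by exact_mod_cast a
    unfold lg
    rw [Real.logb_le_iff_le_rpow one_lt_two (by positivity), Real.rpow_natCast]
    exact b
  have φb : ∀ z, |φ z| ≤ D := by
    intro z
    have a : lg (Q z) ≤ 0 := Real.logb_nonpos one_lt_two (q0.le.trans (Q0 z)) (Q1 z)
    have b : lg (1 / (2 * D)) ≤ lg (Q z) := Real.logb_le_logb_of_le one_lt_two q0 (Q0 z)
    have c : lg (1 / (2 * D)) = -lg (2 * D) := by unfold lg; rw [one_div, Real.logb_inv]
    rw [abs_le]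
    simp only [hφ]
    constructor <;> linarith
  -- the cross entropy is at most the entropy plus one
  have s1 : ∑ o, w o * φ (R o) ≤ H w (fun o => R o / (h : ℤ)) (fun o => R o / g) + tot w := by
    unfold H E tot
    rw [← sum_add_distrib]
    refine sum_le_sum fun o _ => ?_
    rcases (hw o).eq_or_lt with h0 | h0
    · simp [← h0]
    have e1 : ms w (fun o => R o / g) o = cm w R g (R o / g) := by
      unfold ms cm
      exact sum_congr rfl fun o' _ => by congr
    have e2 : ms w (pr (fun o => R o / (h : ℤ)) fun o => R o / g) o = cm w R h (R o / (h : ℤ)) := by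
      unfold ms cm pr
      refine sum_congr rfl fun o' _ => ?_
      by_cases hc : R o' / (h : ℤ) = R o / (h : ℤ)
      · have hc' : R o' / g = R o / g := by rw [hg, dd, dd, hc]
        rw [if_pos hc, if_pos (Prod.ext hc hc')]
      · rw [if_neg hc, if_neg fun x => hc (congrArg Prod.fst x)]
    have p0 : 0 < cm w R h (R o / (h : ℤ)) := by
      refine lt_of_lt_of_le h0 ?_
      have := single_le_sum (f := fun o' => if R o' / (h : ℤ) = R o / (h : ℤ) then w o' else 0)
        (fun o' _ => by split_ifs; exacts [hw o', le_rfl]) (mem_univ o)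
      simpa [cm] using this
    have P0 : 0 < cm w R g (R o / g) := lt_of_lt_of_le p0 (cm_le hw R D h _)
    have rp : 0 < r (R o) := div_pos p0 P0
    have a : lg (r (R o) / 2) ≤ lg (Q (R o)) :=
      Real.logb_le_logb_of_le one_lt_two (by positivity) (by simp only [hQ]; linarith)
    have b : lg (r (R o) / 2) = -lg (cm w R g (R o / g) / cm w R h (R o / (h : ℤ))) - 1 := by
      unfold lg
      rw [Real.logb_div rp.ne' (by norm_num), Real.logb_self_eq_one one_lt_two, ← Real.logb_inv,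
        inv_div]
    beta_reduce
    rw [e1, e2]
    have c : φ (R o) ≤ lg (cm w R g (R o / g) / cm w R h (R o / (h : ℤ))) + 1 := by
      simp only [hφ]; linarith
    nlinarith [mul_le_mul_of_nonneg_left c h0.le]
  -- the average along the progression
  set L := 2 * D ^ 5 with hL
  have hLL : (L : ℝ) = 2 * (D : ℝ) ^ 5 := by rw [hL]; push_cast; ring
  have s2 : ∀ z, (L : ℝ) * (lg D - 2) ≤ ∑ u ∈ range L, φ (z + d * u) := by
    intro z
    have a := avg hw R D h d hD hh h1 h2 z
    have b : ∀ v, lg D - 2 + (1 - Q v * D / 4) / Real.log 2 ≤ φ v := by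
      intro v
      have Qp : 0 < Q v := q0.trans_le (Q0 v)
      have c := Real.log_le_sub_one_of_pos (x := Q v * D / 4) (by positivity)
      have c4 : Real.log 4 = 2 * Real.log 2 := by
        rw [show (4 : ℝ) = 2 ^ 2 by norm_num, Real.log_pow]; norm_num
      rw [Real.log_div (by positivity) (by norm_num), Real.log_mul Qp.ne' (by positivity), c4] at c
      simp only [hφ]
      unfold lg Real.logb
      have : Real.log D / Real.log 2 - 2 + (1 - Q v * D / 4) / Real.log 2 +
          Real.log (Q v) / Real.log 2 =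
          (Real.log D - 2 * Real.log 2 + (1 - Q v * D / 4) + Real.log (Q v)) / Real.log 2 := by
        field_simp
      have c5 : (Real.log D - 2 * Real.log 2 + (1 - Q v * D / 4) + Real.log (Q v)) /
          Real.log 2 ≤ 0 := div_nonpos_of_nonpos_of_nonneg (by linarith) hl2.le
      linarith
    refine le_trans ?_ (sum_le_sum fun u _ => b _)
    rw [sum_add_distrib, sum_const, card_range, nsmul_eq_mul, ← sum_div]
    have c : 0 ≤ ∑ u ∈ range L, (1 - Q (z + d * u) * D / 4) := by
      have c1 : ∀ u ∈ range L, (1 - Q (z + d * u) * D / 4) = 7 / 8 - D / 8 * r (z + d * u) := by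
        intro u _
        simp only [hQ]
        field_simp
        ring
      rw [sum_congr rfl c1, sum_sub_distrib, sum_const, card_range, nsmul_eq_mul, ← mul_sum, hLL]
      have c2 : (D : ℝ) / 8 * ∑ u ∈ range L, r (z + d * u) ≤ D / 8 * (12 * (D : ℝ) ^ 4) :=
        mul_le_mul_of_nonneg_left a (by positivity)
      have c3 : (0 : ℝ) ≤ (D : ℝ) ^ 5 := by positivity
      nlinarith
    have := div_nonneg c hl2.le
    linarith
  have s3 : (L : ℝ) * (lg D - 2) * tot w ≤ ∑ u ∈ range L, ∑ o, w o * φ (R o + d * u) := by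
    rw [sum_comm, tot, mul_sum]
    refine sum_le_sum fun o _ => ?_
    rw [← mul_sum, mul_comm]
    exact mul_le_mul_of_nonneg_left (s2 _) (hw o)
  have s4 : ∀ u ∈ range L, ∑ o, w o * φ (R o + d * u) ≤ ∑ o, w o * φ (R o) + tot w := by
    intro u hu
    have a := steps w R d φ φb u
    have hu' : (u : ℝ) ≤ L := by exact_mod_cast (mem_range.1 hu).le
    have b : (D : ℝ) * n1 (law w R - sh d (law w R)) ≤ D * (tot w / (2 * (D : ℝ) ^ 6)) :=
      mul_le_mul_of_nonneg_left hn (by positivity)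
    have c : (u : ℝ) * (D * n1 (law w R - sh d (law w R))) ≤
        u * (D * (tot w / (2 * (D : ℝ) ^ 6))) := mul_le_mul_of_nonneg_left b (by positivity)
    have e : (u : ℝ) * (D * (tot w / (2 * (D : ℝ) ^ 6))) ≤ L * (D * (tot w / (2 * (D : ℝ) ^ 6))) :=
      mul_le_mul_of_nonneg_right hu' (by positivity)
    have f : (L : ℝ) * (D * (tot w / (2 * (D : ℝ) ^ 6))) = tot w := by
      rw [hLL]; field_simp
    linarith
  have s5 := sum_le_sum s4
  rw [sum_const, card_range, nsmul_eq_mul] at s5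
  have hL0 : (0 : ℝ) < L := by rw [hLL]; positivity
  have s6 : (L : ℝ) * ((lg D - 2) * tot w) ≤ L * (∑ o, w o * φ (R o) + tot w) := by
    linarith
  have s7 := le_of_mul_le_mul_left s6 hL0
  linarith

end Pool.Agent.Lib.MP_108739_an.F
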