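import Pool.Agent.Lib.MP_108739_an.F.TDefs
import Pool.Agent.Lib.MP_108739_an.F.Ent1

/-! Mass of the flags with many squares near the local tube. -/

open Finset

namespace Pool.Agent.Lib.MP_108739_an.F
open Classical

namespace Ca
variable {Ω α β : Type} [Fintype Ω] {w w1 : Ω → ℝ}

/-- a bound on every fibre that carries `w1` sums up -/
lemma fib_le (hw : Nn w) (h1 : Nn w1) (g : Ω → α) {θ K : ℝ} (hK : 0 ≤ K)
    (h : ∀ o, 0 < w1 o → θ * ms w1 g o ≤ K * ms w g o) : θ * tot w1 ≤ K * tot w := by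
  have m : ∀ o, g o ∈ univ.image g := fun o => mem_image_of_mem g (mem_univ o)
  rw [tot_split (w := w) m, tot_split (w := w1) m, mul_sum, mul_sum]
  refine sum_le_sum fun v _ => ?_
  by_cases e : ∃ o, 0 < w1 o ∧ g o = v
  · obtain ⟨o, p, rfl⟩ := e
    exact h o p
  · have z : tot (res w1 fun o => g o = v) = 0 := sum_eq_zero fun o _ => by
      rcases (h1.res (fun o => g o = v) o).eq_or_lt with q | q
      · exact q.symm
      · exact absurd ⟨o, (res_pos q).2, (res_pos q).1⟩ e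
    rw [z, mul_zero]
    exact mul_nonneg hK (tot_nonneg (hw.res _))

lemma ms_le_ms (h : ∀ o, w1 o ≤ w o) (g : Ω → α) (o : Ω) : ms w1 g o ≤ ms w g o :=
  sum_le_sum fun o' _ => by split_ifs; exacts [h o', le_rfl]

/-- representatives of the values of `φ` on the part of a fibre that carries `w1` -/
lemma reps (h1 : Nn w1) (g : Ω → α) (φ : Ω → β) (o0 : Ω) : ∃ S : Finset Ω,
    (∀ o ∈ S, 0 < w1 o ∧ g o = g o0) ∧ Set.InjOn φ S ∧ ms w1 g o0 ≤ ∑ o ∈ S, ms w1 φ o := by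
  obtain ⟨S, hS, hI, hE⟩ := Finset.exists_subset_injOn_image_eq_of_surjOn (f := φ)
    {o | 0 < w1 o ∧ g o = g o0} ((univ.filter fun o => 0 < w1 o ∧ g o = g o0).image φ)
    (fun v hv => by
      obtain ⟨o, ho, rfl⟩ := mem_image.1 (mem_coe.1 hv)
      exact ⟨o, (mem_filter.1 ho).2, rfl⟩)
  refine ⟨S, fun o ho => hS (mem_coe.2 ho), hI, ?_⟩
  refine le_trans ?_ (tot_res_exists h1 S fun o o' => φ o' = φ o)
  refine tot_res_mono h1 fun o' p e => ?_
  have : φ o' ∈ S.image φ := hE ▸ mem_image_of_mem φ (mem_filter.2 ⟨mem_univ _, p, e⟩)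
  obtain ⟨o, ho, q⟩ := mem_image.1 this
  exact ⟨o, ho, q.symm⟩

omit [Fintype Ω] in
lemma pk_top (c : Cfg Ω β) (k : ℕ) : Det (c.pk c.n) (c.pk k) := fun o o' h => by
  simp only [Cfg.pk, Cfg.xk, Cfg.yk, Nat.sub_self, pow_zero, Nat.div_one, Prod.mk.injEq] at h ⊢
  rw [h.1, h.2.1, h.2.2]
  exact ⟨rfl, rfl, rfl⟩

/-- `w1`-mass of a square with a slope against the mass of the square -/
lemma sq_dir {c : Cfg Ω β} {s U V : ℝ} {f : ℕ → ℝ} (G : c.Gd w w1 s f U V) (y : ℕ) {j : ℕ}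
    (hj : j ≤ c.n) (o : Ω) :
    ms w1 (pr (c.pk y) (c.ak j)) o ≤ (2 : ℝ) ^ (V - s * j) * ms w (c.pk y) o := by
  have := fib_le (θ := 1) (K := (2 : ℝ) ^ (V - s * j)) (G.nn.res fun o' => c.pk y o' = c.pk y o)
    (G.n1.res fun o' => pr (c.pk y) (c.ak j) o' = pr (c.pk y) (c.ak j) o) (c.pk c.n)
    (by positivity) fun o' p => by
      obtain ⟨e, q⟩ := res_pos p
      have e1 : c.pk y o' = c.pk y o := congrArg Prod.fst e
      have e2 : c.ak j o' = c.ak j o := congrArg Prod.snd e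
      have d : Det (c.pk c.n) fun o' => c.pk y o' = c.pk y o := fun a b h => by
        beta_reduce; rw [pk_top c y a b h]
      rw [one_mul, ms_res_det d e1]
      refine le_trans ?_ (G.dir o' q j hj)
      refine le_trans ?_ (ms_le_ms G.le _ o')
      rw [ms_eq_tot, res_res]
      exact tot_res_mono G.n1 fun a _ h => Prod.ext ((congrArg Prod.snd h.1).trans e2.symm) h.2
  rw [one_mul] at this
  exact this

end Ca

open Ca in
theorem ca (hP : PairStmt) : CaStmt := by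
  obtain ⟨C, hC, hP⟩ := hP
  refine ⟨C, hC, fun Ω β _ c w w1 s f U V θ i y m G hi hy hm h => ?_⟩
  have C0 : 0 ≤ C * (c.n + 1) := by positivity
  rcases le_total θ 0 with h0 | h0
  · exact (mul_nonpos_of_nonpos_of_nonneg h0 (tot_nonneg G.n1)).trans
      (mul_nonneg (by positivity) (tot_nonneg G.nn))
  refine fib_le G.nn G.n1 (c.pk i) (by positivity) fun o0 _ => ?_
  obtain ⟨S, hS, hI, hM⟩ := reps G.n1 (c.pk i) (pr (c.pk y) (c.ak (y - i))) o0
  have hp := hP Ω β c w f U i y m o0 S G.cov hi hy hm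
    (fun o ho => ⟨(hS o ho).1.trans_le (G.le o), (hS o ho).2, (h o (hS o ho).1).1⟩) hI
  have m0 := ms_nonneg G.nn (c.pk i) o0
  set M : ℝ := (2 : ℝ) ^ (V - s * ((y - i : ℕ) : ℝ)) * ((2 : ℝ) ^ (V - (f y - f i)) *
    ms w (c.pk i) o0) with hMd
  have M0 : 0 ≤ M := by positivity
  have k : ∀ o ∈ S, θ * ms w1 (pr (c.pk y) (c.ak (y - i))) o ≤ (c.Rc w i y 8 o : ℝ) * M :=
    fun o ho => by
      refine mul_le_mul (h o (hS o ho).1).2 ?_ (ms_nonneg G.n1 _ _) (Nat.cast_nonneg _)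
      refine (sq_dir G y (by omega) o).trans (mul_le_mul_of_nonneg_left ?_ (by positivity))
      rw [← ms_det (w := w) (c.pk i) o o0 (hS o ho).2]
      exact G.dfn o (hS o ho).1 i y hi hy
  calc θ * ms w1 (c.pk i) o0 ≤ θ * ∑ o ∈ S, ms w1 (pr (c.pk y) (c.ak (y - i))) o :=
        mul_le_mul_of_nonneg_left hM h0
    _ ≤ (∑ o ∈ S, (c.Rc w i y 8 o : ℝ)) * M := by
        rw [mul_sum, sum_mul]; exact sum_le_sum k
    _ ≤ C * (c.n + 1) * (2 : ℝ) ^ (3 * m + ((y : ℝ) - i) + (f y - f i) + U) * M :=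
        mul_le_mul_of_nonneg_right hp M0
    _ = _ := by
        have : 2 * V + U + 3 * m + (1 - s) * ((y : ℝ) - i) =
            (3 * m + ((y : ℝ) - i) + (f y - f i) + U) + ((V - s * ((y - i : ℕ) : ℝ)) +
              (V - (f y - f i))) := by rw [Nat.cast_sub hi]; ring
        rw [this, Real.rpow_add two_pos (3 * m + ((y : ℝ) - i) + (f y - f i) + U),
          Real.rpow_add two_pos (V - s * ((y - i : ℕ) : ℝ)), hMd]
        ring

end Pool.Agent.Lib.MP_108739_an.F
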