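import Pool.Agent.Lib.MP_108739_an.F.GeoA
import Pool.Agent.Lib.MP_108739_an.F.Ent1

/-! The second counting case of the tent estimate. -/

open Finset

namespace Pool.Agent.Lib.MP_108739_an.F
open Classical

namespace Cb

variable {Ω α β γ : Type} [Fintype Ω]

omit [Fintype Ω] in
lemma fib_sum (S : Finset Ω) (φ : Ω → α) (w1 G : Ω → ℝ) (ρ : ℝ)
    (h : ∀ o ∈ S, ∀ T ⊆ S, (∀ o' ∈ T, φ o' = φ o) → ρ * ∑ o' ∈ T, w1 o' ≤ G o) :
    ∃ R ⊆ S, Set.InjOn φ R ∧ ρ * ∑ o ∈ S, w1 o ≤ ∑ o ∈ R, G o := by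
  obtain ⟨R, h1, h2, h3⟩ := exists_subset_injOn_image_eq_of_surjOn (f := φ) (S : Set Ω)
    (S.image φ) (by rw [coe_image]; exact Set.surjOn_image _ _)
  refine ⟨R, h1, h2, ?_⟩
  rw [← sum_fiberwise_of_maps_to (g := φ) (t := S.image φ) fun o ho => mem_image_of_mem _ ho,
    ← h3, sum_image h2, mul_sum]
  exact sum_le_sum fun o ho => h o (h1 ho) _ (filter_subset _ _) fun o' ho' => (mem_filter.1 ho').2

lemma rep_mass {w : Ω → ℝ} (hw : Nn w) {R : Finset Ω} {φ : Ω → α} {g : Ω → γ} {o0 : Ω}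
    (hR : Set.InjOn φ R) (hg : ∀ o ∈ R, g o = g o0) (hd : Det φ g) :
    ∑ o ∈ R, ms w φ o ≤ ms w g o0 := by
  refine le_trans (le_of_eq ?_) (sum_mass_le hw φ g (R.image φ) o0)
  rw [sum_image hR]
  refine sum_congr rfl fun o ho => ?_
  rw [ms_eq_tot]
  exact congrArg tot (res_congr fun o' => ⟨fun e => ⟨e, (hd o' o e).trans (hg o ho)⟩, And.left⟩)

lemma sum_le_ms {w w1 : Ω → ℝ} (hw : Nn w) (hle : ∀ o, w1 o ≤ w o) {S : Finset Ω} {φ : Ω → α}
    {o : Ω} (h : ∀ o' ∈ S, φ o' = φ o) : ∑ o' ∈ S, w1 o' ≤ ms w φ o := by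
  unfold ms
  refine le_trans (sum_le_sum fun o' ho' => ?_) (sum_le_sum_of_subset_of_nonneg (subset_univ S)
    fun o' _ _ => by split_ifs; exacts [hw o', le_rfl])
  rw [if_pos (h o' ho')]
  exact hle o'

variable (c : Cfg Ω β)

omit [Fintype Ω] in
lemma pk_det {i y : ℕ} (hi : i ≤ y) (hy : y ≤ c.n) : Det (c.pk y) (c.pk i) := by
  intro o o' h
  simp only [Cfg.pk, Prod.mk.injEq] at h ⊢
  rw [geoA_xk c hi hy o, geoA_xk c hi hy o', geoA_yk c hi hy o, geoA_yk c hi hy o', h.1, h.2.1]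
  exact ⟨rfl, rfl, h.2.2⟩

lemma rc_det (w : Ω → ℝ) {i y : ℕ} (hi : i ≤ y) (hy : y ≤ c.n) (W : ℕ) {o o' : Ω}
    (h : c.pk y o = c.pk y o') (ha : c.ak (y - i) o = c.ak (y - i) o') :
    c.Rc w i y W o = c.Rc w i y W o' := by
  have h1 := pk_det c hi hy o o' h
  simp only [Cfg.pk, Prod.mk.injEq] at h h1
  have e1 : c.nb w i o = c.nb w i o' := by unfold Cfg.nb; rw [h1.1, h1.2.1, h1.2.2]
  have e2 : c.lq i y o = c.lq i y o' := by funext z; unfold Cfg.lq; rw [h1.1]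
  have e3 : c.lq i y o' o = c.lq i y o' o' := by unfold Cfg.lq; rw [h.1, h.2.1]
  unfold Cfg.Rc Cfg.sqs Cfg.lt
  rw [e1, e2, e3, ha]

end Cb

open Cb in
theorem cb (hP : PairStmt) (hD : GeoD) : CbStmt := by
  obtain ⟨C, hC, hP⟩ := hP
  refine ⟨3 * C, by linarith, ?_⟩
  intro Ω β _ c w w1 s f U V ρ i y m g hi hy hm h
  have hw := g.nn
  have htot := tot_nonneg hw
  rcases le_or_gt ρ 0 with hρ | hρ
  · refine (mul_nonpos_of_nonpos_of_nonneg hρ (tot_nonneg g.n1)).trans (by positivity)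
  set j := c.n - (i + m) with hj
  set S1 : Finset Ω := univ.filter fun o => 0 < w1 o with hS1
  have m1 : ∀ o ∈ S1, 0 < w1 o := fun o ho => (mem_filter.1 ho).2
  set A : ℝ := 3 * (2 : ℝ) ^ (f c.n - f y + U) * (2 : ℝ) ^ (V - s * j) with hA
  have hA0 : 0 ≤ A := by positivity
  have s1 : ∀ (o0 : Ω) (S : Finset Ω), S ⊆ S1 →
      (∀ o ∈ S, c.pk c.n o = c.pk c.n o0 ∧ c.ak (y - i) o = c.ak (y - i) o0) →
      ρ * ∑ o ∈ S, w1 o ≤ A * c.Rc w i y 8 o0 * ms w (c.pk c.n) o0 := by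
    intro o0 S hS hS'
    have k1 := hD Ω β c w f U ρ i y m o0 S g.cov hi hy fun o ho =>
      ⟨(hS' o ho).1, (hS' o ho).2, (h o (m1 o (hS ho))).2⟩
    obtain ⟨R, r1, r2, r3⟩ := fib_sum S (c.ak j) w1
      (fun _ => (2 : ℝ) ^ (V - s * j) * ms w (c.pk c.n) o0) 1 fun o ho T hT hT' => by
        rw [one_mul, ← ms_det _ _ _ (hS' o ho).1]
        refine le_trans (sum_le_ms hw g.le fun o' ho' => ?_)
          (g.dir o (m1 o (hS ho)) j (by omega))
        exact Prod.ext (hT' o' ho') ((hS' o' (hT ho')).1.trans (hS' o ho).1.symm)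
    rw [one_mul, sum_const, nsmul_eq_mul] at r3
    have k2 : (#R : ℝ) ≤ #(S.image (c.ak j)) := by
      rw [← card_image_of_injOn r2]
      exact_mod_cast card_le_card (image_subset_image r1)
    have k3 : 0 ≤ (2 : ℝ) ^ (V - s * j) * ms w (c.pk c.n) o0 :=
      mul_nonneg (by positivity) (ms_nonneg hw _ _)
    calc ρ * ∑ o ∈ S, w1 o
        ≤ ρ * (#(S.image (c.ak j)) * ((2 : ℝ) ^ (V - s * j) * ms w (c.pk c.n) o0)) :=
          mul_le_mul_of_nonneg_left (r3.trans (mul_le_mul_of_nonneg_right k2 k3)) hρ.le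
      _ = ρ * #(S.image (c.ak j)) * ((2 : ℝ) ^ (V - s * j) * ms w (c.pk c.n) o0) := by ring
      _ ≤ _ := (mul_le_mul_of_nonneg_right k1 k3).trans_eq (by rw [hA]; ring)
  have s2 : ∀ (o0 : Ω) (S : Finset Ω), S ⊆ S1 →
      (∀ o ∈ S, c.pk y o = c.pk y o0 ∧ c.ak (y - i) o = c.ak (y - i) o0) →
      ρ * ∑ o ∈ S, w1 o ≤ A * c.Rc w i y 8 o0 * ms w (c.pk y) o0 := by
    intro o0 S hS hS'
    obtain ⟨R, r1, r2, r3⟩ := fib_sum S (c.pk c.n) w1
      (fun o => A * c.Rc w i y 8 o0 * ms w (c.pk c.n) o) ρ fun o ho T hT hT' => by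
        rw [← rc_det c w hi hy 8 (hS' o ho).1 (hS' o ho).2]
        exact s1 o T (hT.trans hS) fun o' ho' =>
          ⟨hT' o' ho', (hS' o' (hT ho')).2.trans (hS' o ho).2.symm⟩
    rw [← mul_sum] at r3
    exact r3.trans (mul_le_mul_of_nonneg_left
      (rep_mass hw r2 (fun o ho => (hS' o (r1 ho)).1) (pk_det c hy le_rfl)) (by positivity))
  set B : ℝ := A * (2 : ℝ) ^ (V - (f y - f i)) *
    (C * (c.n + 1) * (2 : ℝ) ^ (3 * m + ((y : ℝ) - i) + (f y - f i) + U)) with hB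
  have s3 : ∀ (o0 : Ω) (S : Finset Ω), S ⊆ S1 → (∀ o ∈ S, c.pk i o = c.pk i o0) →
      ρ * ∑ o ∈ S, w1 o ≤ B * ms w (c.pk i) o0 := by
    intro o0 S hS hS'
    have k0 := ms_nonneg hw (c.pk i) o0
    obtain ⟨R, r1, r2, r3⟩ := fib_sum S (pr (c.pk y) (c.ak (y - i))) w1
      (fun o => A * (2 : ℝ) ^ (V - (f y - f i)) * ms w (c.pk i) o0 * c.Rc w i y 8 o) ρ
      fun o ho T hT hT' => by
        refine (s2 o T (hT.trans hS) fun o' ho' => ?_).trans ?_
        · exact Prod.ext_iff.1 (hT' o' ho')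
        · have k1 := g.dfn o (m1 o (hS ho)) i y hi hy
          rw [ms_det _ _ _ (hS' o ho)] at k1
          exact (mul_le_mul_of_nonneg_left k1 (by positivity)).trans_eq (by ring)
    rw [← mul_sum] at r3
    have k2 := hP Ω β c w f U i y m o0 R g.cov hi hy hm (fun o ho =>
      ⟨(m1 o (hS (r1 ho))).trans_le (g.le o), hS' o (r1 ho), (h o (m1 o (hS (r1 ho)))).1⟩) r2
    exact r3.trans ((mul_le_mul_of_nonneg_left k2 (by positivity)).trans_eq (by rw [hB]; ring))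
  obtain ⟨R, r1, r2, r3⟩ := fib_sum S1 (c.pk i) w1 (fun o => B * ms w (c.pk i) o) ρ
    fun o _ T hT hT' => s3 o T hT hT'
  have e1 : tot w1 = ∑ o ∈ S1, w1 o := by
    rw [hS1, sum_filter]
    refine sum_congr rfl fun o _ => ?_
    split_ifs with a
    · rfl
    · exact le_antisymm (not_lt.1 a) (g.n1 o)
  have k4 : ∑ o ∈ R, ms w (c.pk i) o ≤ tot w := by
    rcases R.eq_empty_or_nonempty with rfl | ⟨o0, -⟩
    · simpa using htot
    · rw [← ms_un o0]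
      exact rep_mass hw r2 (fun _ _ => rfl) Det.un
  have hB0 : 0 ≤ B := by positivity
  rw [← mul_sum] at r3
  rw [e1]
  refine r3.trans ((mul_le_mul_of_nonneg_left k4 hB0).trans
    (mul_le_mul_of_nonneg_right ?_ htot))
  have k5 : (c.n : ℝ) - i - m ≤ j := by
    have : c.n ≤ j + (i + m) := by omega
    have : (c.n : ℝ) ≤ j + (i + m) := by exact_mod_cast this
    linarith
  have k6 : B = 3 * C * (c.n + 1) * (2 : ℝ) ^ (f c.n - f y + U + (V - s * j) + (V - (f y - f i)) +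
      (3 * m + ((y : ℝ) - i) + (f y - f i) + U)) := by
    have : ∀ a b d e : ℝ, (2 : ℝ) ^ (a + b + d + e) = 2 ^ a * 2 ^ b * 2 ^ d * 2 ^ e :=
      fun a b d e => by simp only [Real.rpow_add two_pos]
    rw [hB, hA, this (f c.n - f y + U)]
    ring
  rw [k6]
  refine mul_le_mul_of_nonneg_left (Real.rpow_le_rpow_of_exponent_le one_le_two ?_)
    (by positivity)
  nlinarith [mul_le_mul_of_nonneg_left k5 g.s0]

end Pool.Agent.Lib.MP_108739_an.F
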