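import Mathlib

/-! Grid cuts, enumeration of cut points and the energy pigeonhole. -/

open Finset

namespace Pool.Agent.Lib.MP_108739_an.F.Dg

lemma argmin (U : ℕ → ℝ) (a b : ℕ) (h : a ≤ b) :
    ∃ y, a ≤ y ∧ y ≤ b ∧ ∀ z, a ≤ z → z ≤ b → U y ≤ U z := by
  obtain ⟨y, hy, hm⟩ := exists_min_image (Icc a b) U ⟨a, by simp [h]⟩
  rw [mem_Icc] at hy
  exact ⟨y, hy.1, hy.2, fun z h1 h2 => hm z (mem_Icc.2 ⟨h1, h2⟩)⟩

lemma cut (U V : ℕ → ℝ) (N : ℕ) (hUV : ∀ a z, a ≤ z → V a ≤ V z → U a ≤ U z) :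
    ∃ (a0 a1 : ℕ) (G : Finset ℕ), a0 ≤ a1 ∧ a1 ≤ N ∧ a0 ∈ G ∧ a1 ∈ G ∧
      (∀ g ∈ G, a0 ≤ g ∧ g ≤ a1) ∧ (∀ y, y ≤ N → U a0 ≤ U y) ∧
      (∀ y, a0 ≤ y → y ≤ N → V a1 ≤ V y) ∧
      (∀ i ∈ G, ∀ k ∈ G, i ≤ k → U i ≤ U k ∧ V k ≤ V i) ∧
      (∀ i ∈ G, ∀ k ∈ G, (∀ g ∈ G, g ≤ i ∨ k ≤ g) → ∀ y, i ≤ y → y ≤ k →
        V i ≤ V y ∨ U k ≤ U y) := by
  classical
  obtain ⟨a0, -, h0N, h0⟩ := argmin U 0 N (Nat.zero_le _)
  obtain ⟨a1, h01, h1N, h1⟩ := argmin V a0 N h0N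
  set G := (Icc a0 a1).filter fun y =>
    (∀ z, y ≤ z → z ≤ a1 → U y ≤ U z) ∧ ∀ z, a0 ≤ z → z ≤ y → V y ≤ V z with hG
  have mem : ∀ y, y ∈ G ↔ (a0 ≤ y ∧ y ≤ a1) ∧
      (∀ z, y ≤ z → z ≤ a1 → U y ≤ U z) ∧ ∀ z, a0 ≤ z → z ≤ y → V y ≤ V z := by
    intro y; rw [hG, mem_filter, mem_Icc]
  refine ⟨a0, a1, G, h01, h1N, ?_, ?_, fun g hg => ((mem g).1 hg).1,
    fun y hy => h0 y (Nat.zero_le _) hy, h1, ?_, ?_⟩
  · refine (mem _).2 ⟨⟨le_rfl, h01⟩, fun z _ hz => h0 z (Nat.zero_le _) (hz.trans h1N), ?_⟩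
    intro z a b
    rw [le_antisymm b a]
  · refine (mem _).2 ⟨⟨h01, le_rfl⟩, ?_, fun z a b => h1 z a (b.trans h1N)⟩
    intro z a b
    rw [le_antisymm b a]
  · intro i hi k hk hik
    obtain ⟨⟨hi0, _⟩, hiU, _⟩ := (mem i).1 hi
    obtain ⟨⟨_, hk1⟩, _, hkV⟩ := (mem k).1 hk
    exact ⟨hiU k hik hk1, hkV i hi0 hik⟩
  · intro i hi k hk hgap y hiy hyk
    by_contra hcon
    rw [not_or, not_le, not_le] at hcon
    obtain ⟨hv, hu⟩ := hcon
    obtain ⟨⟨hi0, _⟩, _, hiV⟩ := (mem i).1 hi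
    obtain ⟨⟨_, hk1⟩, hkU, _⟩ := (mem k).1 hk
    obtain ⟨y1, hy1, hy1k, m1⟩ := argmin U y k hyk
    obtain ⟨y2, hy2, hy21, m2⟩ := argmin V i y1 (hiy.trans hy1)
    have u1 : U y1 < U k := lt_of_le_of_lt (m1 y le_rfl hyk) hu
    have v2 : V y2 < V i := lt_of_le_of_lt (m2 y hiy hy1) hv
    have u21 : U y2 ≤ U y1 := hUV _ _ hy21 (m2 y1 (hiy.trans hy1) le_rfl)
    have hm : y2 ∈ G := by
      refine (mem _).2 ⟨⟨hi0.trans hy2, (hy21.trans hy1k).trans hk1⟩, ?_, ?_⟩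
      · intro z a b
        rcases le_total z y1 with c | c
        · exact hUV _ _ a (m2 z (hy2.trans a) c)
        · rcases le_total z k with d | d
          · exact u21.trans (m1 z (hy1.trans c) d)
          · exact u21.trans (u1.le.trans (hkU z d b))
      · intro z a b
        rcases le_total z i with c | c
        · exact v2.le.trans (hiV z a c)
        · exact m2 z c (b.trans hy21)
    rcases hgap y2 hm with c | c
    · rw [le_antisymm c hy2] at v2; exact lt_irrefl _ v2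
    · rw [le_antisymm hy1k (c.trans hy21)] at u1; exact lt_irrefl _ u1

lemma enum (C : Finset ℕ) (n : ℕ) (h0 : 0 ∈ C) (hn : n ∈ C) (hle : ∀ x ∈ C, x ≤ n) :
    ∃ (M : ℕ) (c : ℕ → ℕ), c 0 = 0 ∧ c M = n ∧ M + 1 = #C ∧ (∀ i j, i < j → j ≤ M → c i < c j) ∧
      (∀ m, m ≤ M → c m ∈ C) ∧ ∀ m, m < M → ∀ x ∈ C, x ≤ c m ∨ c (m + 1) ≤ x := by
  classical
  obtain ⟨M, hM⟩ : ∃ M, #C = M + 1 := ⟨#C - 1, by have := card_pos.2 ⟨0, h0⟩; omega⟩
  let e := C.orderEmbOfFin hM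
  let c : ℕ → ℕ := fun m => if h : m < M + 1 then e ⟨m, h⟩ else n
  have hc : ∀ m (h : m < M + 1), c m = e ⟨m, h⟩ := fun m h => dif_pos h
  have hmem : ∀ m, m ≤ M → c m ∈ C := fun m h => by
    rw [hc m (by omega)]; exact orderEmbOfFin_mem _ _ _
  have hs : ∀ x ∈ C, ∃ m, m ≤ M ∧ c m = x := fun x hx => by
    have : x ∈ Set.range e := by rw [range_orderEmbOfFin]; exact hx
    obtain ⟨j, hj⟩ := this
    exact ⟨j, by have := j.2; omega, by rw [hc j j.2]; exact hj⟩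
  have hlt : ∀ i j, i < j → j ≤ M → c i < c j := fun i j a b => by
    rw [hc i (by omega), hc j (by omega)]
    exact e.strictMono (Fin.mk_lt_mk.2 a)
  have hmono : ∀ i j, i ≤ j → j ≤ M → c i ≤ c j := fun i j a b => by
    rcases a.eq_or_lt with h | h
    · rw [h]
    · exact (hlt i j h b).le
  refine ⟨M, c, ?_, ?_, hM.symm, hlt, hmem, ?_⟩
  · obtain ⟨m, a, b⟩ := hs 0 h0
    have := hmono 0 m (Nat.zero_le _) a
    omega
  · obtain ⟨m, a, b⟩ := hs n hn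
    have := hmono m M a le_rfl
    have := hle _ (hmem M le_rfl)
    omega
  · intro m hm x hx
    obtain ⟨j, a, b⟩ := hs x hx
    rcases le_or_gt j m with h | h
    · left; rw [← b]; exact hmono j m h hm.le
    · right; rw [← b]; exact hmono _ j h a

lemma loc (a : ℕ → ℝ) (K : ℕ) (hK : 0 < K) (j : ℕ) (hj : j ≤ K) :
    (∑ i ∈ range j, a i - j * ((∑ i ∈ range K, a i) / K)) ^ 2 ≤
      K * (∑ i ∈ range K, a i ^ 2 - (∑ i ∈ range K, a i) ^ 2 / K) := by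
  set S := ∑ i ∈ range K, a i with hS
  have hK' : (0 : ℝ) < K := by exact_mod_cast hK
  have e1 : ∑ i ∈ range j, a i - j * (S / K) = ∑ i ∈ range j, (a i - S / K) := by
    rw [sum_sub_distrib]; simp
  have e2 : ∑ i ∈ range K, (a i - S / K) ^ 2 = ∑ i ∈ range K, a i ^ 2 - S ^ 2 / K := by
    have : ∀ i, (a i - S / K) ^ 2 = a i ^ 2 - 2 * (S / K) * a i + (S / K) ^ 2 := fun i => by ring
    simp only [this, sum_add_distrib, sum_sub_distrib, ← mul_sum, sum_const, card_range,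
      nsmul_eq_mul, ← hS]
    field_simp
    ring
  rw [e1, ← e2]
  refine (sq_sum_le_card_mul_sum_sq).trans ?_
  rw [card_range]
  refine mul_le_mul (by exact_mod_cast hj) ?_ (sum_nonneg fun _ _ => sq_nonneg _) hK'.le
  exact sum_le_sum_of_subset_of_nonneg (range_mono hj) fun _ _ _ => sq_nonneg _

/-- energy of `f` on a grid -/
noncomputable def En (f : ℕ → ℝ) (q N : ℕ) : ℝ :=
  ∑ j ∈ range N, (f ((j + 1) * q) - f (j * q)) ^ 2 / q

/-- loss of energy on one large cell -/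
noncomputable def df (f : ℕ → ℝ) (q K σ : ℕ) : ℝ :=
  ∑ j ∈ range K, (f ((σ * K + j + 1) * q) - f ((σ * K + j) * q)) ^ 2 / q -
    (f ((σ + 1) * (K * q)) - f (σ * (K * q))) ^ 2 / (K * q : ℕ)

lemma en_sub (f : ℕ → ℝ) (q K N : ℕ) :
    En f q (N * K) - En f (K * q) N = ∑ σ ∈ range N, df f q K σ := by
  induction N with
  | zero => simp [En]
  | succ N ih =>
    rw [sum_range_succ, ← ih]
    unfold En df
    rw [Nat.succ_mul, sum_range_add, sum_range_succ]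
    ring

lemma tele (f : ℕ → ℝ) (q x j : ℕ) :
    ∑ i ∈ range j, (f ((x + i + 1) * q) - f ((x + i) * q)) = f ((x + j) * q) - f (x * q) :=
  sum_range_sub (fun i => f ((x + i) * q)) j

lemma df_bound (f : ℕ → ℝ) (q K σ : ℕ) (hq : 0 < q) (hK : 0 < K) (j : ℕ) (hj : j ≤ K) :
    (f ((σ * K + j) * q) - f (σ * K * q) -
      j * ((f ((σ * K + K) * q) - f (σ * K * q)) / K)) ^ 2 ≤ K * q * df f q K σ := by
  have h := loc (fun i => f ((σ * K + i + 1) * q) - f ((σ * K + i) * q)) K hK j hj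
  rw [tele, tele] at h
  refine h.trans (le_of_eq ?_)
  unfold df
  have hq' : (0 : ℝ) < q := by exact_mod_cast hq
  have hK' : (0 : ℝ) < K := by exact_mod_cast hK
  have e1 : (σ + 1) * (K * q) = (σ * K + K) * q := by ring
  have e2 : σ * (K * q) = σ * K * q := by ring
  rw [e1, e2, ← sum_div]
  push_cast
  field_simp

lemma df_nonneg (f : ℕ → ℝ) (q K σ : ℕ) (hq : 0 < q) (hK : 0 < K) : 0 ≤ df f q K σ := by
  have h := (sq_nonneg _).trans (df_bound f q K σ hq hK 0 (Nat.zero_le _))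
  have : (0 : ℝ) < K * q := by positivity
  exact nonneg_of_mul_nonneg_right h this

lemma scale (f : ℕ → ℝ) (q K R : ℕ) (A : ℝ) (hR : 0 < R) (hA : En f q (K ^ R) ≤ A) :
    ∃ r, r < R ∧ ∑ σ ∈ range (K ^ (R - r - 1)), df f (K ^ r * q) K σ ≤ A / R := by
  by_contra hcon
  push Not at hcon
  have h1 : ∑ r ∈ range R, A / R < ∑ r ∈ range R,
      (En f (K ^ r * q) (K ^ (R - r)) - En f (K ^ (r + 1) * q) (K ^ (R - (r + 1)))) := by
    refine sum_lt_sum_of_nonempty ⟨0, mem_range.2 hR⟩ fun r hr => ?_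
    have hr := mem_range.1 hr
    have e1 : K ^ (R - r) = K ^ (R - r - 1) * K := by
      rw [← pow_succ]; congr 1; omega
    have e2 : K ^ (r + 1) * q = K * (K ^ r * q) := by ring
    rw [e1, e2, ← Nat.sub_sub, en_sub]
    exact hcon r hr
  rw [sum_range_sub' (fun r => En f (K ^ r * q) (K ^ (R - r))) R] at h1
  have h2 : 0 ≤ En f (K ^ R * q) (K ^ (R - R)) := sum_nonneg fun _ _ => by positivity
  have hR' : (0 : ℝ) < R := by exact_mod_cast hR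
  have h3 : ∑ r ∈ range R, A / R = A := by
    rw [sum_const, card_range, nsmul_eq_mul]; field_simp
  rw [h3, pow_zero, one_mul, Nat.sub_zero] at h1
  linarith

end Pool.Agent.Lib.MP_108739_an.F.Dg
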