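import Pool.Agent.Lib.MP_108739_an.F.DecDefs
import Pool.Agent.Lib.MP_108739_an.F.DecG

/-! Decomposition of a branching function into tents, linear pieces and a small rest. -/

open Finset

namespace Pool.Agent.Lib.MP_108739_an.F

namespace Dg

lemma tent_of (f : ℕ → ℝ) (s η : ℝ) (n q a b : ℕ) (hs0 : 0 ≤ s) (hs1 : s ≤ 1) (hq : 0 < q)
    (hb : b * q ≤ n) (hmono : ∀ i k, i ≤ k → k ≤ n → f i ≤ f k)
    (hlen : 2 * (q : ℝ) ≤ η * (((b * q : ℕ) : ℝ) - (a * q : ℕ)))
    (hg : ∀ y, a ≤ y → y ≤ b →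
      f (a * q) - (2 - s) * (a * q : ℕ) ≤ f (y * q) - (2 - s) * (y * q : ℕ) ∨
      f (b * q) - s * (b * q : ℕ) ≤ f (y * q) - s * (y * q : ℕ)) :
    Tent f s η (a * q) (b * q) := by
  intro y h1 h2
  have g1 : y / q * q ≤ y := Nat.div_mul_le_self y q
  have g2 : y < y / q * q + q := Nat.lt_div_mul_add hq
  have g3 : a ≤ y / q := (Nat.le_div_iff_mul_le hq).2 h1
  have g4 : y / q ≤ b := Nat.div_le_of_le_mul (by rw [mul_comm]; exact h2)
  have m := hmono _ _ g1 (h2.trans hb)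
  have r1 : ((y / q * q : ℕ) : ℝ) ≤ y := by exact_mod_cast g1
  have r2 : (y : ℝ) ≤ (y / q * q : ℕ) + q := by exact_mod_cast g2.le
  rcases hg _ g3 g4 with h | h
  · refine le_trans (sub_le_sub_right (min_le_left _ _) _) ?_
    nlinarith [mul_nonneg hs0 (sub_nonneg.2 r1)]
  · refine le_trans (sub_le_sub_right (min_le_right _ _) _) ?_
    nlinarith [mul_nonneg (sub_nonneg.2 hs1) (sub_nonneg.2 r1), Nat.cast_nonneg (α := ℝ) q]

lemma lin_of (f : ℕ → ℝ) (s η e T x : ℝ) (i k : ℕ) (hik : i < k)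
    (h1 : f i - s * i ≤ f k - s * k) (h2 : f k - (2 - s) * k ≤ f i - (2 - s) * i)
    (he : 2 * e ≤ η * ((k : ℝ) - i)) (hl : ∀ y, i ≤ y → y ≤ k → |f y - x - T * y| ≤ e) :
    Lin f s η i k := by
  have hd : (0 : ℝ) < (k : ℝ) - i := sub_pos.2 (by exact_mod_cast hik)
  refine ⟨(f k - f i) / ((k : ℝ) - i), ?_, ?_, by field_simp, ?_⟩
  · rw [le_div_iff₀ hd]; linarith
  · rw [div_le_iff₀ hd]; linarith
  · intro y a b
    have a' : (i : ℝ) ≤ y := by exact_mod_cast a
    have b' : (y : ℝ) ≤ k := by exact_mod_cast b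
    set l := ((y : ℝ) - i) / ((k : ℝ) - i) with hl'
    have l0 : 0 ≤ l := div_nonneg (sub_nonneg.2 a') hd.le
    have l1 : l ≤ 1 := by rw [hl', div_le_one hd]; linarith
    have e1 : f y - f i - (f k - f i) / ((k : ℝ) - i) * ((y : ℝ) - i) =
        (f y - x - T * y) - (1 - l) * (f i - x - T * i) - l * (f k - x - T * k) := by
      rw [hl']; field_simp; ring
    have p := abs_le.1 (hl y a b)
    have pi := abs_le.1 (hl i le_rfl hik.le)
    have pk := abs_le.1 (hl k hik.le le_rfl)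
    rw [e1, abs_le]
    constructor
    · nlinarith [mul_le_mul_of_nonneg_left pi.2 (sub_nonneg.2 l1), mul_le_mul_of_nonneg_left pk.2 l0]
    · nlinarith [mul_le_mul_of_nonneg_left pi.1 (sub_nonneg.2 l1), mul_le_mul_of_nonneg_left pk.1 l0]

lemma le_mx' {ι : Type} (s : Finset ι) (F : ι → ℝ) (k : ι) (hk : k ∈ s) : F k ≤ mx s F :=
  (le_fold_max _).2 (Or.inr ⟨k, hk, le_rfl⟩)

theorem core (f : ℕ → ℝ) (s η : ℝ) (n q B N' L : ℕ) (bad : Finset ℕ) (hs0 : 0 ≤ s) (hs1 : s ≤ 1)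
    (hη : 0 < η) (hL : 2 ≤ η * L) (hq : 0 < q) (hB : 0 < B) (hn1 : B * N' * q ≤ n)
    (hn2 : n ≤ B * N' * q + q) (hmono : ∀ i k, i ≤ k → k ≤ n → f i ≤ f k)
    (hlin : ∀ σ, σ < N' → σ ∉ bad → ∃ T x : ℝ, ∀ y, σ * B * q ≤ y → y ≤ (σ + 1) * B * q →
      |f y - x - T * y| ≤ η * q / 2) :
    ∃ (M : ℕ) (c : ℕ → ℕ) (J : Finset ℕ), c 0 = 0 ∧ c M = n ∧
      (∀ i j, i < j → j ≤ M → c i < c j) ∧ M ≤ B * N' + 3 ∧ J ⊆ range M ∧
      ∑ m ∈ J, ((c (m + 1) : ℝ) - c m) ≤ (3 + bad.card * B + N' * L : ℕ) * ((L : ℝ) * q) ∧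
      (∀ m ∈ range M \ J, (q : ℝ) ≤ (c (m + 1) : ℝ) - c m ∧
        (Tent f s η (c m) (c (m + 1)) ∨ Lin f s η (c m) (c (m + 1)))) ∧
      ∀ t, s ≤ t → t ≤ 2 - s → ∑ m ∈ range M \ J, phi f s (c m) (c (m + 1)) ≤
        mx (range (n + 1)) (fun k => f n - f k - t * ((n : ℝ) - k)) + (t - s) * n / 2 + 2 * q := by
  classical
  set N := B * N' with hN
  have hL1 : 1 ≤ L := by
    rcases Nat.eq_zero_or_pos L with h | h
    · rw [h] at hL; norm_num at hL
    · exact h
  have hq' : (0 : ℝ) < q := by exact_mod_cast hq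
  obtain ⟨a0, a1, G, h01, h1N, g0, g1, hG, hU, hV, hch, hgap⟩ :=
    cut (fun a => f (a * q) - s * (a * q : ℕ)) (fun a => f (a * q) - (2 - s) * (a * q : ℕ)) N (by
      intro a z haz h
      have : ((a * q : ℕ) : ℝ) ≤ (z * q : ℕ) := by exact_mod_cast Nat.mul_le_mul_right q haz
      nlinarith [mul_nonneg (sub_nonneg.2 hs1) (sub_nonneg.2 this)])
  have m01 : a0 * q ≤ a1 * q := Nat.mul_le_mul_right q h01
  have m1N : a1 * q ≤ N * q := Nat.mul_le_mul_right q h1N
  have mG : ∀ g ∈ G, a0 * q ≤ g * q ∧ g * q ≤ a1 * q := fun g hg =>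
    ⟨Nat.mul_le_mul_right q (hG g hg).1, Nat.mul_le_mul_right q (hG g hg).2⟩
  set C : Finset ℕ := insert 0 (insert (N * q) (insert n (G.image (· * q)))) with hC
  have mem : ∀ x, x ∈ C ↔ x = 0 ∨ x = N * q ∨ x = n ∨ ∃ g ∈ G, g * q = x := by
    intro x; simp only [hC, mem_insert, mem_image]
  obtain ⟨M, c, c0, cM, hM, hlt, hcm, hcg⟩ := enum C n ((mem _).2 (Or.inl rfl))
    ((mem _).2 (Or.inr (Or.inr (Or.inl rfl)))) (by
      intro x hx
      rcases (mem x).1 hx with h | h | h | ⟨g, hg, h⟩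
      · omega
      · omega
      · omega
      · have := mG g hg; omega)
  have cls : ∀ m, m < M → (c m = N * q ∧ c (m + 1) = n ∧ N * q < n) ∨
      ∃ a b, a < b ∧ b ≤ N ∧ c m = a * q ∧ c (m + 1) = b * q ∧
        ((a = 0 ∧ b = a0) ∨ (a ∈ G ∧ b ∈ G ∧ ∀ g ∈ G, g ≤ a ∨ b ≤ g) ∨ (a = a1 ∧ b = N)) := by
    intro m hm
    have lt := hlt m (m + 1) (Nat.lt_succ_self _) hm
    have hi := (mem _).1 (hcm m hm.le)
    have hk := (mem _).1 (hcm (m + 1) hm)
    have q0 := hcg m hm (a0 * q) ((mem _).2 (Or.inr (Or.inr (Or.inr ⟨a0, g0, rfl⟩))))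
    have q1 := hcg m hm (a1 * q) ((mem _).2 (Or.inr (Or.inr (Or.inr ⟨a1, g1, rfl⟩))))
    have qN := hcg m hm (N * q) ((mem _).2 (Or.inr (Or.inl rfl)))
    have hi' : c m = 0 ∨ c m = N * q ∨ c m = n ∨ (a0 * q ≤ c m ∧ c m ≤ a1 * q) := by
      rcases hi with h | h | h | ⟨g, hg, h⟩
      · omega
      · omega
      · omega
      · have := mG g hg; omega
    have hk' : c (m + 1) = 0 ∨ c (m + 1) = N * q ∨ c (m + 1) = n ∨
        (a0 * q ≤ c (m + 1) ∧ c (m + 1) ≤ a1 * q) := by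
      rcases hk with h | h | h | ⟨g, hg, h⟩
      · omega
      · omega
      · omega
      · have := mG g hg; omega
    have ab : ∀ a b, c m = a * q → c (m + 1) = b * q → a < b := fun a b h1 h2 =>
      lt_of_mul_lt_mul_right (a := q) (by omega) (Nat.zero_le _)
    rcases qN with qN | qN
    · left; omega
    right
    rcases q0 with q0 | q0
    swap
    · have e1 : c m = 0 * q := by omega
      have e2 : c (m + 1) = a0 * q := by omega
      exact ⟨0, a0, ab _ _ e1 e2, h01.trans h1N, e1, e2, Or.inl ⟨rfl, rfl⟩⟩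
    rcases q1 with q1 | q1
    · have e1 : c m = a1 * q := by omega
      have e2 : c (m + 1) = N * q := by omega
      exact ⟨a1, N, ab _ _ e1 e2, le_rfl, e1, e2, Or.inr (Or.inr ⟨rfl, rfl⟩)⟩
    obtain ⟨a, ha, e1⟩ : ∃ a ∈ G, c m = a * q := by
      rcases hi with h | h | h | ⟨g, hg, h⟩
      · exact ⟨a0, g0, by omega⟩
      · omega
      · omega
      · exact ⟨g, hg, h.symm⟩
    obtain ⟨b, hb, e2⟩ : ∃ b ∈ G, c (m + 1) = b * q := by
      rcases hk with h | h | h | ⟨g, hg, h⟩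
      · omega
      · exact ⟨a1, g1, by omega⟩
      · exact ⟨a1, g1, by omega⟩
      · exact ⟨g, hg, h.symm⟩
    refine ⟨a, b, ab _ _ e1 e2, (hG b hb).2.trans h1N, e1, e2, Or.inr (Or.inl ⟨ha, hb, ?_⟩)⟩
    intro g hg
    rcases hcg m hm (g * q) ((mem _).2 (Or.inr (Or.inr (Or.inr ⟨g, hg, rfl⟩)))) with h | h
    · left; rw [e1] at h; exact Nat.le_of_mul_le_mul_right h hq
    · right; rw [e2] at h; exact Nat.le_of_mul_le_mul_right h hq
  set J := (range M).filter fun m => ¬ (c (m + 1) ≤ N * q ∧ (q : ℝ) ≤ (c (m + 1) : ℝ) - c m ∧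
    (Tent f s η (c m) (c (m + 1)) ∨ Lin f s η (c m) (c (m + 1)))) with hJ
  have good : ∀ m ∈ range M \ J, c (m + 1) ≤ N * q ∧ (q : ℝ) ≤ (c (m + 1) : ℝ) - c m ∧
      (Tent f s η (c m) (c (m + 1)) ∨ Lin f s η (c m) (c (m + 1))) := by
    intro m hm
    rw [mem_sdiff] at hm
    by_contra h
    exact hm.2 (mem_filter.2 ⟨hm.1, h⟩)
  refine ⟨M, c, J, c0, cM, hlt, ?_, filter_subset _ _, ?_, fun m hm => (good m hm).2, ?_⟩
  · have h1 : #C ≤ #(G.image (· * q)) + 1 + 1 + 1 :=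
      (card_insert_le _ _).trans (Nat.succ_le_succ ((card_insert_le _ _).trans
        (Nat.succ_le_succ (card_insert_le _ _))))
    have h2 : #G ≤ #(range (N + 1)) := card_le_card fun g hg =>
      mem_range.2 (Nat.lt_succ_of_le ((hG g hg).2.trans h1N))
    have h3 : #(G.image (· * q)) ≤ #G := card_image_le
    rw [card_range] at h2
    omega
  · set S : Finset ℕ := insert 0 (insert a1 (insert N
      (((bad ×ˢ range B).image fun p => p.1 * B + p.2) ∪
        ((range N' ×ˢ range L).image fun p => (p.1 + 1) * B - p.2)))) with hS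
    have hSc : #S ≤ 3 + bad.card * B + N' * L := by
      have h1 := card_union_le ((bad ×ˢ range B).image fun p => p.1 * B + p.2)
        ((range N' ×ˢ range L).image fun p => (p.1 + 1) * B - p.2)
      have h2 : #((bad ×ˢ range B).image fun p => p.1 * B + p.2) ≤ bad.card * B :=
        card_image_le.trans (by rw [card_product, card_range])
      have h3 : #((range N' ×ˢ range L).image fun p => (p.1 + 1) * B - p.2) ≤ N' * L :=
        card_image_le.trans (by rw [card_product, card_range, card_range])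
      have h4 : #S ≤ _ + 1 + 1 + 1 := (card_insert_le _ _).trans (Nat.succ_le_succ
        ((card_insert_le _ _).trans (Nat.succ_le_succ (card_insert_le _ _))))
      omega
    have key : ∀ m ∈ J, (c (m + 1) : ℝ) - c m ≤ L * q ∧ c m ∈ S.image (· * q) := by
      intro m hm
      obtain ⟨hm, hbad⟩ := mem_filter.1 hm
      have hL' : (1 : ℝ) ≤ L := by exact_mod_cast hL1
      rcases cls m (mem_range.1 hm) with ⟨e1, e2, _⟩ | ⟨a, b, hab, hb, e1, e2, h⟩
      · refine ⟨?_, mem_image.2 ⟨N, by simp [hS], e1.symm⟩⟩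
        have : (n : ℝ) ≤ (N * q : ℕ) + q := by exact_mod_cast hn2
        rw [e1, e2]; nlinarith
      have hbq : b * q ≤ N * q := Nat.mul_le_mul_right q hb
      have hab' : (a : ℝ) + 1 ≤ b := by exact_mod_cast hab
      have hlen : (q : ℝ) ≤ ((b * q : ℕ) : ℝ) - (a * q : ℕ) := by push_cast; nlinarith
      rw [e1, e2] at hbad
      rw [e1, e2]
      have nt : ¬ (Tent f s η (a * q) (b * q) ∨ Lin f s η (a * q) (b * q)) :=
        fun h => hbad ⟨hbq, hlen, h⟩
      rw [not_or] at nt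
      have short : ((b * q : ℕ) : ℝ) - (a * q : ℕ) < L * q := by
        by_contra hc
        rw [not_lt] at hc
        refine nt.1 (tent_of f s η n q a b hs0 hs1 hq (hbq.trans hn1) hmono ?_ ?_)
        · nlinarith [mul_le_mul_of_nonneg_left hc hη.le]
        · intro y h1 h2
          rcases h with ⟨_, h⟩ | ⟨ha, hb', hg⟩ | ⟨h, h'⟩
          · right; rw [h]; exact hU y (h2.trans hb)
          · exact hgap a ha b hb' hg y h1 h2
          · left; rw [h]; exact hV y (h01.trans (h ▸ h1)) (h2.trans hb)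
      refine ⟨short.le, mem_image.2 ⟨a, ?_, rfl⟩⟩
      have hs : b < a + L := by
        have : (b : ℝ) < a + L := by
          push_cast at short
          by_contra hc
          rw [not_lt] at hc
          nlinarith [mul_le_mul_of_nonneg_right hc hq'.le]
        exact_mod_cast this
      rcases h with ⟨h, _⟩ | ⟨ha, hb', hg⟩ | ⟨h, _⟩
      · simp [hS, h]
      swap
      · simp [hS, h]
      have d1 : a / B * B + a % B = a := Nat.div_add_mod' a B
      have d2 : a % B < B := Nat.mod_lt _ hB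
      have d3 : a / B < N' := Nat.div_lt_of_lt_mul (lt_of_lt_of_le hab hb)
      have d4 : (a / B + 1) * B = a / B * B + B := by ring
      refine mem_insert_of_mem (mem_insert_of_mem (mem_insert_of_mem (mem_union.2 ?_)))
      rcases le_or_gt b ((a / B + 1) * B) with hin | hout
      · left
        refine mem_image.2 ⟨(a / B, a % B), mem_product.2 ⟨?_, mem_range.2 d2⟩, d1⟩
        by_contra hnb
        obtain ⟨T, x, hT⟩ := hlin _ d3 hnb
        have hc := hch a ha b hb' hab.le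
        refine nt.2 (lin_of f s η (η * q / 2) T x _ _ (Nat.mul_lt_mul_of_pos_right hab hq)
          hc.1 hc.2 (by nlinarith [mul_le_mul_of_nonneg_left hlen hη.le]) fun y h1 h2 => hT y ?_ ?_)
        · exact le_trans (Nat.mul_le_mul_right q (by omega)) h1
        · exact h2.trans (Nat.mul_le_mul_right q hin)
      · right
        refine mem_image.2 ⟨(a / B, (a / B + 1) * B - a), mem_product.2
          ⟨mem_range.2 d3, mem_range.2 (by simp only; omega)⟩, by simp only; omega⟩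
    have hJc : #J ≤ 3 + bad.card * B + N' * L := by
      refine le_trans (card_le_card_of_injOn c (fun m hm => (key m hm).2) ?_)
        (card_image_le.trans hSc)
      intro i hi j hj hij
      have hi := mem_range.1 (mem_filter.1 hi).1
      have hj := mem_range.1 (mem_filter.1 hj).1
      rcases lt_trichotomy i j with h | h | h
      · have := hlt i j h hj.le; omega
      · exact h
      · have := hlt j i h hi.le; omega
    refine (sum_le_card_nsmul _ _ _ fun m hm => (key m hm).1).trans ?_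
    rw [nsmul_eq_mul]
    exact mul_le_mul_of_nonneg_right (by exact_mod_cast hJc) (by positivity)
  · intro t ht1 ht2
    let u : ℕ → ℝ := fun y => f y - s * y
    let g : ℕ → ℝ := fun y => f y - y
    let ψ : ℕ → ℝ := fun y => (u (min (max y (a0 * q)) (a1 * q)) - u (a0 * q)) / 2 +
      (g (min (max y (a1 * q)) (N * q)) - g (a1 * q))
    have p1 : ∀ y, y ≤ a0 * q → ψ y = 0 := fun y h => by
      simp only [ψ]
      rw [max_eq_right h, max_eq_right (h.trans m01), min_eq_left m01, min_eq_left m1N]; ring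
    have p2 : ∀ y, a0 * q ≤ y → y ≤ a1 * q → ψ y = (u y - u (a0 * q)) / 2 := fun y h h' => by
      simp only [ψ]
      rw [max_eq_left h, max_eq_right h', min_eq_left h', min_eq_left m1N]; ring
    have p3 : ∀ y, N * q ≤ y → ψ y = (u (a1 * q) - u (a0 * q)) / 2 + (g (N * q) - g (a1 * q)) :=
      fun y h => by
        simp only [ψ]
        rw [max_eq_left (m01.trans (m1N.trans h)), max_eq_left (m1N.trans h),
          min_eq_right (m1N.trans h), min_eq_right h]
    have key : ∀ m, m < M → 0 ≤ ψ (c (m + 1)) - ψ (c m) ∧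
        (c (m + 1) ≤ N * q → phi f s (c m) (c (m + 1)) ≤ ψ (c (m + 1)) - ψ (c m)) := by
      intro m hm
      rcases cls m hm with ⟨e1, e2, h⟩ | ⟨a, b, hab, hb, e1, e2, h⟩
      · rw [e1, e2, p3 _ h.le, p3 _ le_rfl, sub_self]
        exact ⟨le_rfl, fun h' => by omega⟩
      have hlen : ((a * q : ℕ) : ℝ) ≤ (b * q : ℕ) := by
        exact_mod_cast Nat.mul_le_mul_right q hab.le
      have w := mul_nonneg (sub_nonneg.2 hs1) (sub_nonneg.2 hlen)
      rw [e1, e2]
      suffices hh : phi f s (a * q) (b * q) ≤ ψ (b * q) - ψ (a * q) from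
        ⟨(le_max_left _ _).trans hh, fun _ => hh⟩
      unfold phi
      rcases h with ⟨h, h'⟩ | ⟨ha, hb', _⟩ | ⟨h, h'⟩
      · have := hU a (hab.le.trans hb)
        rw [p1 (b * q) (by rw [h']), p1 (a * q) (by rw [h]; omega), sub_self]
        rw [← h'] at this
        refine max_le le_rfl (max_le ?_ ?_) <;> nlinarith
      · have := hch a ha b hb' hab.le
        rw [p2 _ (mG b hb').1 (mG b hb').2, p2 _ (mG a ha).1 (mG a ha).2]
        simp only [u]
        refine max_le ?_ (max_le ?_ ?_) <;> nlinarith [this.1, this.2]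
      · have := hV N (h01.trans h1N) le_rfl
        rw [h, h'] at w
        rw [h, h', p3 _ le_rfl, p2 _ m01 le_rfl]
        simp only [u, g]
        refine max_le ?_ (max_le ?_ ?_) <;> nlinarith
    have s1 : ∑ m ∈ range M \ J, phi f s (c m) (c (m + 1)) ≤
        ∑ m ∈ range M, (ψ (c (m + 1)) - ψ (c m)) :=
      (sum_le_sum fun m hm => (key m (mem_range.1 (mem_sdiff.1 hm).1)).2 (good m hm).1).trans
        (sum_le_sum_of_subset_of_nonneg sdiff_subset fun m hm _ => (key m (mem_range.1 hm)).1)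
    rw [sum_range_sub (fun m => ψ (c m)), c0, cM, p3 n hn1, p1 0 (Nat.zero_le _)] at s1
    refine s1.trans ?_
    have b0 := le_mx' (range (n + 1)) (fun k => f n - f k - t * ((n : ℝ) - k)) (a0 * q)
      (mem_range.2 (by omega))
    have b1 := le_mx' (range (n + 1)) (fun k => f n - f k - t * ((n : ℝ) - k)) (a1 * q)
      (mem_range.2 (by omega))
    have b2 := hmono (N * q) n hn1 le_rfl
    have r0 : (0 : ℝ) ≤ (a0 * q : ℕ) := Nat.cast_nonneg _
    have r1 : ((a0 * q : ℕ) : ℝ) ≤ (a1 * q : ℕ) := by exact_mod_cast m01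
    have r2 : ((a1 * q : ℕ) : ℝ) ≤ (N * q : ℕ) := by exact_mod_cast m1N
    have r3 : ((N * q : ℕ) : ℝ) ≤ n := by exact_mod_cast hn1
    have r4 : (n : ℝ) ≤ (N * q : ℕ) + q := by exact_mod_cast hn2
    simp only [u, g] at b0 b1 ⊢
    nlinarith [mul_nonneg (sub_nonneg.2 ht1) r0, mul_nonneg (sub_nonneg.2 ht2) (sub_nonneg.2 r2),
      mul_nonneg (sub_nonneg.2 ht2) (sub_nonneg.2 r3), mul_nonneg (sub_nonneg.2 ht1) (sub_nonneg.2 r3),
      mul_nonneg hs0 (sub_nonneg.2 r3)]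

lemma lin_cell (f : ℕ → ℝ) (e : ℝ) (n q K σ : ℕ) (hq : 0 < q) (hK : 0 < K) (he : 0 ≤ e)
    (hn : (σ * K + K) * q ≤ n)
    (hf : ∀ i k, i ≤ k → k ≤ n → f i ≤ f k ∧ f k - f i ≤ 2 * ((k : ℝ) - i) + q)
    (hd : df f q K σ ≤ e ^ 2 / (K * q)) :
    ∃ T x : ℝ, ∀ y, σ * K * q ≤ y → y ≤ (σ * K + K) * q → |f y - x - T * y| ≤ e + 3 * q := by
  have hq' : (0 : ℝ) < q := by exact_mod_cast hq
  have hK' : (1 : ℝ) ≤ K := by exact_mod_cast hK
  set τ := (f ((σ * K + K) * q) - f (σ * K * q)) / K with hτ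
  have h0 := hf (σ * K * q) _ (Nat.mul_le_mul_right q (Nat.le_add_right _ K)) hn
  have t0 : 0 ≤ τ := div_nonneg (sub_nonneg.2 h0.1) (by linarith)
  have t1 : τ ≤ 3 * q := by
    rw [hτ, div_le_iff₀ (by linarith)]
    have := h0.2
    push_cast at this
    nlinarith
  refine ⟨τ / q, f (σ * K * q) - τ * (σ * K : ℕ), fun y h1 h2 => ?_⟩
  obtain ⟨j, hj⟩ : ∃ j, y / q = σ * K + j :=
    Nat.exists_eq_add_of_le ((Nat.le_div_iff_mul_le hq).2 h1)
  have g1 : y / q * q ≤ y := Nat.div_mul_le_self y q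
  have g2 : y < y / q * q + q := Nat.lt_div_mul_add hq
  have g4 : y / q ≤ σ * K + K := Nat.div_le_of_le_mul (by rw [mul_comm]; exact h2)
  rw [hj] at g1 g2 g4
  have b := df_bound f q K σ hq hK j (by omega)
  rw [← hτ] at b
  have b2 : (K : ℝ) * q * df f q K σ ≤ e ^ 2 := by
    rw [le_div_iff₀ (by positivity)] at hd; linarith
  have b3 := abs_le.1 (abs_le_of_sq_le_sq' (b.trans b2) he |> abs_le.2)
  have m := hf _ _ g1 (h2.trans hn)
  have r1 : (((σ * K + j) * q : ℕ) : ℝ) ≤ y := by exact_mod_cast g1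
  have r2 : (y : ℝ) ≤ ((σ * K + j) * q : ℕ) + q := by exact_mod_cast g2.le
  set z := (y : ℝ) - ((σ * K + j) * q : ℕ) with hz
  have e1 : τ / q * y = τ * (σ * K : ℕ) + j * τ + τ * (z / q) := by
    rw [hz]; push_cast; field_simp; ring
  have z0 : 0 ≤ z / q := div_nonneg (by linarith) hq'.le
  have z1 : z / q ≤ 1 := by rw [div_le_one hq']; linarith
  have z2 : τ * (z / q) ≤ 3 * q := (mul_le_of_le_one_right t0 z1).trans t1
  have z3 := mul_nonneg t0 z0
  rw [e1, abs_le]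
  constructor <;> linarith [m.1, m.2, b3.1, b3.2]

end Dg

open Dg in
theorem dec : DecStmt := by
  classical
  intro ε η hε hη
  obtain ⟨L, hL⟩ : ∃ L : ℕ, 2 ≤ η * L :=
    ⟨⌈2 / η⌉₊, by have := Nat.le_ceil (2 / η); rw [div_le_iff₀ hη] at this; linarith⟩
  obtain ⟨B, hB0, hB1, hB2⟩ : ∃ B : ℕ, 0 < B ∧ 12 ≤ η * B ∧ 2 * (3 * L + L * L + 1 : ℝ) ≤ ε * B := by
    obtain ⟨B, hB⟩ := exists_nat_gt (12 / η + 2 * (3 * L + L * L + 1 : ℝ) / ε)
    have p1 : 0 < 12 / η := by positivity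
    have p2 : 0 < 2 * (3 * L + L * L + 1 : ℝ) / ε := by positivity
    refine ⟨B, by exact_mod_cast (by linarith : (0 : ℝ) < B), ?_, ?_⟩
    · have : 12 / η ≤ B := by linarith
      rw [div_le_iff₀ hη] at this; linarith
    · have : 2 * (3 * L + L * L + 1 : ℝ) / ε ≤ B := by linarith
      rw [div_le_iff₀ hε] at this; linarith
  obtain ⟨R, hR0, hR1⟩ : ∃ R : ℕ, 0 < R ∧ 288 * (L : ℝ) * B * B ≤ ε * η ^ 2 * R := by
    obtain ⟨R, hR⟩ := exists_nat_gt (288 * (L : ℝ) * B * B / (ε * η ^ 2))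
    have p1 : 0 ≤ 288 * (L : ℝ) * B * B / (ε * η ^ 2) := by positivity
    refine ⟨R, by exact_mod_cast (by linarith : (0 : ℝ) < R), ?_⟩
    rw [div_lt_iff₀ (by positivity)] at hR; linarith
  set K := B * B with hK
  have hK0 : 0 < K := Nat.mul_pos hB0 hB0
  set P := K ^ R with hP
  have hP0 : 0 < P := pow_pos hK0 R
  have hP1 : (1 : ℝ) ≤ P := by exact_mod_cast hP0
  refine ⟨1 / (2 * P) ^ 2, by positivity, fun κ hκ hκ0 => ⟨P * P, fun n hn s f hs0 hs1 hf => ?_⟩⟩
  set q0 := n / P with hq0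
  have a1 : P ≤ q0 := (Nat.le_div_iff_mul_le hP0).2 hn
  have a2 : q0 * P ≤ n := Nat.div_mul_le_self n P
  have a3 : n < q0 * P + P := Nat.lt_div_mul_add hP0
  have hq00 : 0 < q0 := lt_of_lt_of_le hP0 a1
  have a1' : (P : ℝ) ≤ q0 := by exact_mod_cast a1
  have a2' : (q0 : ℝ) * P ≤ n := by exact_mod_cast a2
  have a3' : (n : ℝ) ≤ q0 * P + P := by exact_mod_cast a3.le
  have hn0 : (0 : ℝ) ≤ n := Nat.cast_nonneg _
  have s1 : √κ ≤ 1 / (2 * P) := by
    rw [Real.sqrt_le_left (by positivity), div_pow, one_pow]; exact hκ0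
  have s2 : √κ * n ≤ q0 := by
    have : 1 / (2 * (P : ℝ)) * n ≤ q0 := by
      rw [div_mul_eq_mul_div, one_mul, div_le_iff₀ (by positivity)]; nlinarith
    exact (mul_le_mul_of_nonneg_right s1 hn0).trans this
  have s3 : κ * n ≤ q0 := by
    have h1 : √κ ≤ 1 := s1.trans (by rw [div_le_one (by positivity)]; linarith)
    have h2 : κ ≤ √κ := by
      nlinarith [Real.mul_self_sqrt hκ.le, Real.sqrt_nonneg κ]
    exact (mul_le_mul_of_nonneg_right h2 hn0).trans s2
  have hE : En f q0 (K ^ R) ≤ 9 * n := by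
    have : ∀ j ∈ range P, (f ((j + 1) * q0) - f (j * q0)) ^ 2 / q0 ≤ 9 * (q0 : ℝ) := by
      intro j hj
      have h := hf (j * q0) ((j + 1) * q0) (Nat.mul_le_mul_right _ (Nat.le_succ j))
        (le_trans (by rw [mul_comm]; exact Nat.mul_le_mul_left _ (mem_range.1 hj)) a2)
      have h2 := h.2
      push_cast at h2
      rw [div_le_iff₀ (by linarith)]
      nlinarith [h.1]
    refine (sum_le_card_nsmul _ _ _ this).trans ?_
    rw [card_range, nsmul_eq_mul]; linarith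
  obtain ⟨r, hr, hsum⟩ := scale f q0 K R _ hR0 hE
  set q1 := K ^ r * q0 with hq1
  set N' := K ^ (R - r - 1) with hN'
  have hN0 : 0 < N' := pow_pos hK0 _
  have c1 : q0 ≤ q1 := Nat.le_mul_of_pos_left _ (pow_pos hK0 r)
  have hq10 : 0 < q1 := lt_of_lt_of_le hq00 c1
  have c2 : q1 ≤ B * q1 := Nat.le_mul_of_pos_left _ hB0
  have c3 : N' * K * K ^ r = P := by
    rw [hN', hP, ← pow_succ, ← pow_add]; congr 1; omega
  have c4 : B * N' * (B * q1) = q0 * P := by rw [← c3, hq1, hK]; ring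
  have c5 : B * N' ≤ P := by
    rw [← c3, hK]
    calc B * N' = N' * (B * 1) * 1 := by ring
      _ ≤ _ := Nat.mul_le_mul (Nat.mul_le_mul_left _ (Nat.mul_le_mul_left _ hB0)) (pow_pos hK0 r)
  have c1' : (q0 : ℝ) ≤ q1 := by exact_mod_cast c1
  have hq1' : (0 : ℝ) < q1 := by exact_mod_cast hq10
  have hB' : (1 : ℝ) ≤ B := by exact_mod_cast hB0
  have hN1 : (1 : ℝ) ≤ N' := by exact_mod_cast hN0
  set e : ℝ := η * (B * q1) / 4 with he
  set bad := (range N').filter fun σ => e ^ 2 / (K * q1) < df f q1 K σ with hbad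
  have hb : (bad.card : ℝ) * (e ^ 2 / (K * q1)) ≤ 9 * n / R := by
    have h1 := card_nsmul_le_sum bad (fun σ => df f q1 K σ) _ fun σ h => (mem_filter.1 h).2.le
    rw [nsmul_eq_mul] at h1
    exact h1.trans ((sum_le_sum_of_subset_of_nonneg (filter_subset _ _)
      fun σ _ _ => df_nonneg f q1 K σ hq10 hK0).trans hsum)
  obtain ⟨M, c, J, h1, h2, h3, h4, h5, h6, h7, h8⟩ := core f s η n (B * q1) B N' L bad hs0 hs1 hη hL
    (Nat.mul_pos hB0 hq10) hB0 (by omega) (by omega) (fun i k a b => (hf i k a b).1) (by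
      intro σ hσ hnb
      have hd : df f q1 K σ ≤ e ^ 2 / (K * q1) := by
        by_contra hc
        exact hnb (mem_filter.2 ⟨mem_range.2 hσ, not_le.1 hc⟩)
      have e1 : σ * B * (B * q1) = σ * K * q1 := by rw [hK]; ring
      have e2 : (σ + 1) * B * (B * q1) = (σ * K + K) * q1 := by rw [hK]; ring
      obtain ⟨T, x, h⟩ := lin_cell f e n q1 K σ hq10 hK0 (by positivity) (by
        rw [← e2]
        refine le_trans ?_ (c4 ▸ a2)
        rw [mul_comm B N']
        exact Nat.mul_le_mul_right _ (Nat.mul_le_mul_right _ hσ))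
        (fun i k a b => ⟨(hf i k a b).1, by linarith [(hf i k a b).2]⟩) hd
      refine ⟨T, x, fun y a b => (h y (e1 ▸ a) (e2 ▸ b)).trans ?_⟩
      push_cast
      linarith only [mul_le_mul_of_nonneg_right hB1 hq1'.le, he])
  have d1 : (B : ℝ) * N' * (B * q1) ≤ n := by exact_mod_cast c4 ▸ a2
  have hL0 : (0 : ℝ) ≤ L := Nat.cast_nonneg _
  have d2 : 2 * (3 * L + L * L + 1 : ℝ) * (N' * (B * q1)) ≤ ε * n :=
    (mul_le_mul_of_nonneg_right hB2 (by positivity)).trans (by
      linarith only [mul_le_mul_of_nonneg_left d1 hε.le])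
  have d3 : (B : ℝ) * q1 ≤ N' * (B * q1) := le_mul_of_one_le_left (by positivity) hN1
  refine ⟨M, c, J, h1, h2, h3, ?_, h5, h6.trans ?_, fun m hm => ⟨?_, (h7 m hm).2⟩,
    fun t a b => (h8 t a b).trans ?_⟩
  · have : (M : ℝ) ≤ P + 3 := by exact_mod_cast (by omega : M ≤ P + 3)
    rw [le_div_iff₀ (by positivity)] at hκ0
    rw [le_div_iff₀ hκ]
    have h9 : (M : ℝ) ≤ (2 * P) ^ 2 := by nlinarith only [this, hP1]
    linarith only [mul_le_mul_of_nonneg_right h9 hκ.le, hκ0]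
  · have hR' : (0 : ℝ) < R := by exact_mod_cast hR0
    have e3 : e ^ 2 / (K * q1) = η ^ 2 * q1 / 16 := by
      rw [he, hK]; push_cast; field_simp; ring
    rw [e3, le_div_iff₀ hR'] at hb
    have d4 : (bad.card : ℝ) * B * (L * (B * q1)) ≤ ε * n / 2 := by
      have h9 : (0 : ℝ) < η ^ 2 * R := by positivity
      refine le_of_mul_le_mul_right ?_ h9
      linarith only [mul_le_mul_of_nonneg_right hb (by positivity : (0 : ℝ) ≤ L * B * B),
        mul_le_mul_of_nonneg_right hR1 hn0]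
    push_cast
    linarith only [mul_le_mul_of_nonneg_left d3 hL0, d2, d4,
      (by positivity : (0 : ℝ) ≤ N' * (B * q1))]
  · refine s2.trans (c1'.trans (le_trans ?_ (h7 m hm).1))
    exact_mod_cast c2
  · push_cast
    linarith only [mul_nonneg (by positivity : (0 : ℝ) ≤ 3 * L + L * L)
      (by positivity : (0 : ℝ) ≤ N' * (B * q1)), d2, d3]

end Pool.Agent.Lib.MP_108739_an.F
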