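import Pool.Agent.Lib.MP_108739_an.F.TDefs
import Pool.Agent.Lib.MP_108739_an.F.Ent1

/-! Most flags see many squares at a definite distance along their tube. -/

open Finset

namespace Pool.Agent.Lib.MP_108739_an.F
open Classical

namespace Ends

variable {Ω α β γ : Type} [Fintype Ω] {w w1 : Ω → ℝ}

lemma sparse (hw : Nn w) (hw1 : Nn w1) (g : Ω → α) {θ : ℝ} (hθ : 0 ≤ θ) :
    tot (res w1 fun o => ms w1 g o ≤ θ * ms w g o) ≤ θ * tot w := by
  have hT : ∀ o, g o ∈ univ.image g := fun o => mem_image_of_mem g (mem_univ o)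
  rw [tot_split (w := w) hT, tot_split hT, mul_sum]
  refine sum_le_sum fun t ht => ?_
  obtain ⟨o, -, rfl⟩ := mem_image.1 ht
  rw [res_res, ← ms_eq_tot]
  by_cases h : ms w1 g o ≤ θ * ms w g o
  · refine le_trans ?_ h
    rw [ms_eq_tot]
    exact tot_res_mono hw1 fun o' _ h' => h'.2
  · have : tot (res w1 fun o' => ms w1 g o' ≤ θ * ms w g o' ∧ g o' = g o) = 0 := by
      unfold tot res
      refine sum_eq_zero fun o' _ => if_neg fun h' => h ?_
      rw [← ms_det (w := w1) g o' o h'.2, ← ms_det (w := w) g o' o h'.2]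
      exact h'.1
    rw [this]
    exact mul_nonneg hθ (ms_nonneg hw g o)

lemma mass_le (hw : Nn w) (hw1 : Nn w1) (hle : ∀ o, w1 o ≤ w o) {g : Ω → α} {f : Ω → γ} {θ : ℝ}
    (hθ : 0 ≤ θ) (h : ∀ o, 0 < w1 o → ms w (pr g f) o ≤ θ * ms w g o) (o : Ω) (B : Ω → Prop)
    (hB : ∀ o', B o' → g o' = g o) (T : Finset γ) (hT : ∀ o', 0 < w1 o' → B o' → f o' ∈ T) :
    tot (res w1 B) ≤ #T * (θ * ms w g o) := by
  have s1 : tot (res w1 B) ≤ tot (res w1 fun o' => ∃ v ∈ T, B o' ∧ f o' = v) :=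
    tot_res_mono hw1 fun o' h1 h2 => ⟨f o', hT o' h1 h2, h2, rfl⟩
  refine s1.trans ((tot_res_exists hw1 T _).trans ?_)
  rw [← nsmul_eq_mul]
  refine sum_le_card_nsmul _ _ _ fun v _ => ?_
  by_cases hex : ∃ p, 0 < w1 p ∧ B p ∧ f p = v
  · obtain ⟨p, hp, hb, rfl⟩ := hex
    have e : ms w g p = ms w g o := ms_det g p o (hB p hb)
    rw [← e]
    refine le_trans ?_ (h p hp)
    unfold tot res ms
    refine sum_le_sum fun o' _ => ?_
    by_cases h' : B o' ∧ f o' = f p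
    · rw [if_pos h', if_pos]
      · exact hle o'
      · exact Prod.ext ((hB o' h'.1).trans (hB p hb).symm) h'.2
    · rw [if_neg h']
      split_ifs
      · exact hw o'
      · exact le_rfl
  · have : tot (res w1 fun o' => B o' ∧ f o' = v) = 0 := by
      unfold tot res
      refine sum_eq_zero fun o' _ => ?_
      split_ifs with h'
      · by_contra h0
        exact hex ⟨o', lt_of_le_of_ne (hw1 o') (Ne.symm h0), h'.1, h'.2⟩
      · rfl
    rw [this]
    exact mul_nonneg hθ (ms_nonneg hw g o)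

lemma div_close {a b d k : ℕ} (hd : 0 < d) (h : a ≤ b + k * d) : a / d ≤ b / d + k := by
  rw [← Nat.add_mul_div_right b k hd]
  exact Nat.div_le_div_right h

lemma div_near {a b d : ℕ} (hd : 0 < d) (h : |(a : ℤ) - b| ≤ 1) :
    |((a / d : ℕ) : ℤ) - (b / d : ℕ)| ≤ 1 := by
  rw [abs_le] at h ⊢
  have h1 : a / d ≤ b / d + 1 := div_close hd (by omega)
  have h2 : b / d ≤ a / d + 1 := div_close hd (by omega)
  omega

variable (c : Cfg Ω β)

omit [Fintype Ω] in
lemma xk_near {i k : ℕ} (hik : i ≤ k) {o o' : Ω} (h : |(c.xk k o' : ℤ) - c.xk k o| ≤ 1) :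
    |(c.xk i o' : ℤ) - c.xk i o| ≤ 1 := by
  have e : ∀ p, c.xk i p = c.xk k p / 2 ^ ((c.n - i) - (c.n - k)) := by
    intro p
    unfold Cfg.xk
    rw [Nat.div_div_eq_div_mul, ← pow_add]
    congr 2
    omega
  rw [e, e]
  exact div_near (by positivity) h

omit [Fintype Ω] in
lemma yk_le {k : ℕ} {o o' : Ω} (ht : c.tube o' = c.tube o) (h : c.xk k o ≤ c.xk k o' + 1) :
    c.yk k o' ≤ c.yk k o + 2 := by
  have ha : c.a o' = c.a o := congrArg Prod.fst ht
  have hy : c.y o' + c.a o' * c.x o' / 2 ^ c.n = c.y o + c.a o * c.x o / 2 ^ c.n :=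
    congrArg (fun z => z.2.1) ht
  rw [ha] at hy
  unfold Cfg.xk at h
  unfold Cfg.yk
  set d := 2 ^ (c.n - k) with hd
  have hd0 : 0 < d := by positivity
  have h1 : c.x o < d * (c.x o / d + 1) := Nat.lt_mul_div_succ _ hd0
  have h2 : d * (c.x o' / d) ≤ c.x o' := Nat.mul_div_le _ _
  have h3 : c.x o ≤ c.x o' + 2 * d := by nlinarith
  have h4 : c.a o * c.x o ≤ c.a o * c.x o' + 2 * d * 2 ^ c.n := by
    have := (c.ha o).le
    nlinarith [Nat.mul_le_mul_left (c.a o) h3, Nat.mul_le_mul_left (2 * d) this]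
  have h5 := div_close (d := 2 ^ c.n) (by positivity) h4
  exact div_close hd0 (by omega)

/-- mass of the flags on the tube of `o` in the three columns next to `o` -/
noncomputable def A (w1 : Ω → ℝ) (o : Ω) (i : ℕ) : ℝ :=
  tot (res w1 fun o' => c.tube o' = c.tube o ∧ |(c.xk i o' : ℤ) - c.xk i o| ≤ 1)

lemma A_anti (hw1 : Nn w1) (o : Ω) {i k : ℕ} (h : i ≤ k) : A c w1 o k ≤ A c w1 o i :=
  tot_res_mono hw1 fun _ _ h' => ⟨h'.1, xk_near c h h'.2⟩

lemma A_zero (o : Ω) : A c w1 o 0 = ms w1 c.tube o := by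
  rw [ms_eq_tot]
  unfold A
  congr 1
  refine res_congr fun o' => ⟨fun h => h.1, fun h => ⟨h, ?_⟩⟩
  have e : ∀ p, c.xk 0 p = 0 := fun p => Nat.div_eq_of_lt (by simpa using c.hx p)
  rw [e, e]
  simp

lemma A_top (hw : Nn w) (hw1 : Nn w1) (hle : ∀ o, w1 o ≤ w o) {θ : ℝ} (hθ : 0 ≤ θ) {k : ℕ}
    (h : ∀ o, 0 < w1 o → ms w (pr c.tube (c.pk k)) o ≤ θ * ms w c.tube o) (o : Ω) :
    A c w1 o k ≤ 15 * (θ * ms w c.tube o) := by
  have s := mass_le hw hw1 hle hθ h o
    (fun o' => c.tube o' = c.tube o ∧ |(c.xk k o' : ℤ) - c.xk k o| ≤ 1) (fun _ h' => h'.1)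
    (Icc (c.xk k o - 1) (c.xk k o + 1) ×ˢ Icc (c.yk k o - 2) (c.yk k o + 2) ×ˢ {c.b o})
    (fun o' _ h' => by
      have h1 := abs_le.1 h'.2
      have h2 := yk_le c (k := k) h'.1 (by omega)
      have h3 := yk_le c (k := k) h'.1.symm (by omega)
      have h4 : c.b o' = c.b o := congrArg (fun z => z.2.2) h'.1
      simp only [Cfg.pk, mem_product, mem_Icc, mem_singleton]
      refine ⟨⟨by omega, by omega⟩, ⟨by omega, by omega⟩, h4⟩)
  refine s.trans (mul_le_mul_of_nonneg_right ?_ (mul_nonneg hθ (ms_nonneg hw _ o)))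
  rw [card_product, card_product, Nat.card_Icc, Nat.card_Icc, card_singleton]
  have h1 : c.xk k o + 1 + 1 - (c.xk k o - 1) ≤ 3 := by omega
  have h2 : c.yk k o + 2 + 1 - (c.yk k o - 2) ≤ 5 := by omega
  have := Nat.mul_le_mul h1 (Nat.mul_le_mul_right 1 h2)
  exact_mod_cast this

lemma A_step (hw : Nn w) (hw1 : Nn w1) (hle : ∀ o, w1 o ≤ w o) {θ : ℝ} (hθ : 0 ≤ θ) {k : ℕ}
    (h : ∀ o, 0 < w1 o → ms w (pr c.tube (c.pk k)) o ≤ θ * ms w c.tube o) (o : Ω) (i m : ℕ) :
    A c w1 o i ≤ A c w1 o (i + m) + #((c.far w i m o).image (c.pk k)) * (θ * ms w c.tube o) := by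
  have s := mass_le hw hw1 hle hθ h o
    (fun o' => c.tube o' = c.tube o ∧ |(c.xk i o' : ℤ) - c.xk i o| ≤ 1 ∧
      2 ≤ |(c.xk (i + m) o' : ℤ) - c.xk (i + m) o|) (fun _ h' => h'.1)
    ((c.far w i m o).image (c.pk k)) (fun o' h0 h' => mem_image_of_mem _ (by
      simp only [Cfg.far, mem_filter, mem_univ, true_and]
      exact ⟨lt_of_lt_of_le h0 (hle o'), h'⟩))
  refine le_trans ?_ (add_le_add le_rfl s)
  refine le_trans (tot_res_mono hw1 fun o' _ h' => ?_) (tot_res_or hw1 _ _)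
  by_cases h2 : |(c.xk (i + m) o' : ℤ) - c.xk (i + m) o| ≤ 1
  · exact Or.inl ⟨h'.1, h2⟩
  · exact Or.inr ⟨h'.1, h'.2, by omega⟩

end Ends

open Ends in
theorem ends : EndsStmt := by
  intro Ω β _ c w w1 r m a0 hw hw1 hle hm ha h hr
  have p2 : ∀ x : ℝ, 0 < (2 : ℝ) ^ x := fun x => by positivity
  refine le_trans (tot_res_mono hw1 fun o ho hno => ?_) (sparse hw hw1 c.tube (p2 _).le)
  by_contra hs
  rw [not_le] at hs
  set N := c.n / m with hN
  set M := ms w c.tube o with hM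
  have hMp : 0 < M := ms_pos hw _ (lt_of_lt_of_le ho (hle o))
  set q : ℝ := (2 : ℝ) ^ (-(m : ℝ)) * M with hq
  have hqp : 0 < q := mul_pos (p2 _) hMp
  have key : ∀ u, u ≤ a0 / m + 1 → q - u * (q / 2 ^ (N + 1)) ≤ A c w1 o (u * m) := by
    intro u
    induction u with
    | zero =>
      intro _
      rw [zero_mul, A_zero]
      simpa using hs.le
    | succ u ih =>
      intro hu
      have hum : u * m ≤ a0 := (Nat.mul_le_mul_right m (by omega : u ≤ a0 / m)).trans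
        (Nat.div_mul_le_self _ _)
      have s1 := ih (by omega)
      have s2 := A_step c hw hw1 hle (p2 _).le h o (u * m) m
      have s3 : (#((c.far w (u * m) m o).image (c.pk a0)) : ℝ) ≤ (2 : ℝ) ^ (r - m - (N : ℝ) - 1) := by
        by_contra h3
        exact hno ⟨u, hum, (not_le.1 h3).le⟩
      have s4 : (2 : ℝ) ^ (r - m - (N : ℝ) - 1) * ((2 : ℝ) ^ (-r) * M) = q / 2 ^ (N + 1) := by
        rw [hq, ← mul_assoc, ← Real.rpow_add two_pos, ← Real.rpow_natCast, mul_div_right_comm,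
          ← Real.rpow_sub two_pos]
        congr 2
        push_cast
        ring
      have s5 := mul_le_mul_of_nonneg_right s3 (mul_nonneg (p2 (-r)).le hMp.le)
      rw [s4] at s5
      rw [show (u + 1) * m = u * m + m by ring]
      push_cast
      linarith
  have k1 := key _ le_rfl
  have k2 : A c w1 o ((a0 / m + 1) * m) ≤ A c w1 o a0 := by
    refine A_anti c hw1 o ?_
    have := Nat.lt_mul_div_succ a0 (by omega : 0 < m)
    rw [mul_comm]
    omega
  have k3 := A_top c hw hw1 hle (p2 _).le h o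
  have k4 : (2 : ℝ) ^ (-r) * M ≤ q / 32 := by
    have : (2 : ℝ) ^ (-r) ≤ (2 : ℝ) ^ (-(m : ℝ)) / 32 := by
      have e : (2 : ℝ) ^ (-(m : ℝ)) / 32 = (2 : ℝ) ^ (-(m : ℝ) - (5 : ℕ)) := by
        rw [Real.rpow_sub two_pos, Real.rpow_natCast]
        norm_num
      rw [e]
      refine Real.rpow_le_rpow_of_exponent_le one_le_two ?_
      have : (0 : ℝ) ≤ N := Nat.cast_nonneg _
      push_cast
      linarith
    have := mul_le_mul_of_nonneg_right this hMp.le
    rw [hq]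
    linarith
  have k5 : ((a0 / m + 1 : ℕ) : ℝ) * (q / 2 ^ (N + 1)) ≤ q / 2 := by
    have h1 : a0 / m + 1 ≤ 2 ^ N := by
      have : a0 / m ≤ N := Nat.div_le_div_right ha
      have := Nat.lt_two_pow_self (n := N)
      omega
    have h2 : ((a0 / m + 1 : ℕ) : ℝ) ≤ 2 ^ N := by exact_mod_cast h1
    calc _ ≤ (2 : ℝ) ^ N * (q / 2 ^ (N + 1)) := mul_le_mul_of_nonneg_right h2 (by positivity)
      _ = q / 2 := by
        field_simp
        ring
  linarith

end Pool.Agent.Lib.MP_108739_an.F
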