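import Pool.Agent.Lib.MP_108739_an.F.FinB
import Pool.Agent.Lib.MP_108739_an.HA.Defs

/-! The incidence estimate from its entropy form. -/

open Finset

namespace Pool.Agent.Lib.MP_108739_an.F

namespace Fn

noncomputable section
open Classical

def fl (ν : ℕ) (P : Finset (ℕ × ℕ)) (D : ℕ × ℕ → Finset ℕ) : Finset ((ℕ × ℕ) × ℕ) :=
  (P ×ˢ range (2 ^ ν)).filter fun z => z.2 ∈ D z.1

variable {ν : ℕ} {P : Finset (ℕ × ℕ)} {D : ℕ × ℕ → Finset ℕ}

theorem mem_fl (o : fl ν P D) : o.1.1 ∈ P ∧ o.1.2 < 2 ^ ν ∧ o.1.2 ∈ D o.1.1 := by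
  have := o.2
  simp only [fl, mem_filter, mem_product, mem_range] at this
  exact ⟨this.1.1, this.1.2, this.2⟩

def cf (D : ℕ × ℕ → Finset ℕ) (hP : ∀ p ∈ P, p.1 < 2 ^ ν ∧ p.2 < 2 ^ ν) : Cfg (fl ν P D) Unit where
  n := ν
  b := un
  x := fun o => o.1.1.2
  y := fun o => o.1.1.1
  a := fun o => o.1.2
  hx := fun o => (hP _ (mem_fl o).1).2
  hy := fun o => (hP _ (mem_fl o).1).1
  ha := fun o => (mem_fl o).2.1

def wt (ν : ℕ) (P : Finset (ℕ × ℕ)) (D : ℕ × ℕ → Finset ℕ) : fl ν P D → ℝ :=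
  fun o => (#(D o.1.1) : ℝ)⁻¹

theorem sum_fl (hD : ∀ p ∈ P, ∀ s ∈ D p, s < 2 ^ ν) (F : (ℕ × ℕ) × ℕ → ℝ) :
    ∑ o : fl ν P D, F o.1 = ∑ p ∈ P, ∑ s ∈ D p, F (p, s) := by
  rw [sum_coe_sort (fl ν P D) F, fl, sum_filter, sum_product]
  refine sum_congr rfl fun p hp => ?_
  rw [← sum_filter]
  refine sum_congr ?_ fun _ _ => rfl
  ext s
  simp only [mem_filter, mem_range]
  exact ⟨fun h => h.2, fun h => ⟨hD p hp s h, h⟩⟩

theorem ms_fl {α : Type} (hD : ∀ p ∈ P, ∀ s ∈ D p, s < 2 ^ ν) (g : fl ν P D → α) (o : fl ν P D)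
    (Q : (ℕ × ℕ) × ℕ → Prop) (hQ : ∀ o' : fl ν P D, g o' = g o ↔ Q o'.1) :
    ms (wt ν P D) g o = ∑ p ∈ P, (#{s ∈ D p | Q (p, s)} : ℝ) * (#(D p) : ℝ)⁻¹ := by
  have h1 : ms (wt ν P D) g o =
      ∑ o' : fl ν P D, (fun z : (ℕ × ℕ) × ℕ => if Q z then (#(D z.1) : ℝ)⁻¹ else 0) o'.1 :=
    sum_congr rfl fun o' _ => by simp only [wt, hQ o']
  rw [h1, sum_fl hD (fun z : (ℕ × ℕ) × ℕ => if Q z then (#(D z.1) : ℝ)⁻¹ else 0)]
  refine sum_congr rfl fun p _ => ?_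
  rw [← sum_filter]
  simp only [sum_const, nsmul_eq_mul]

theorem tot_fl (hD : ∀ p ∈ P, ∀ s ∈ D p, s < 2 ^ ν) (h0 : ∀ p ∈ P, 0 < (#(D p) : ℝ)) :
    tot (wt ν P D) = #P := by
  have h1 : tot (wt ν P D) =
      ∑ o' : fl ν P D, (fun z : (ℕ × ℕ) × ℕ => (#(D z.1) : ℝ)⁻¹) o'.1 := rfl
  rw [h1, sum_fl hD (fun z : (ℕ × ℕ) × ℕ => (#(D z.1) : ℝ)⁻¹), card_eq_sum_ones P]
  push_cast
  refine sum_congr rfl fun p hp => ?_
  rw [sum_const, nsmul_eq_mul, mul_inv_cancel₀ (h0 p hp).ne']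

theorem ms_pk (hP : ∀ p ∈ P, p.1 < 2 ^ ν ∧ p.2 < 2 ^ ν) (hD : ∀ p ∈ P, ∀ s ∈ D p, s < 2 ^ ν)
    (h0 : ∀ p ∈ P, 0 < (#(D p) : ℝ)) (k : ℕ) (o : fl ν P D) :
    ms (wt ν P D) ((cf D hP).pk k) o = #{p ∈ P | p.1 / 2 ^ (ν - k) = o.1.1.1 / 2 ^ (ν - k) ∧
      p.2 / 2 ^ (ν - k) = o.1.1.2 / 2 ^ (ν - k)} := by
  rw [ms_fl hD _ o (fun z => z.1.1 / 2 ^ (ν - k) = o.1.1.1 / 2 ^ (ν - k) ∧
      z.1.2 / 2 ^ (ν - k) = o.1.1.2 / 2 ^ (ν - k))
    (fun o' => by simp [Cfg.pk, Cfg.xk, Cfg.yk, cf, un, and_comm])]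
  rw [card_filter]
  push_cast
  refine sum_congr rfl fun p hp => ?_
  split_ifs with h
  · rw [filter_true_of_mem fun _ _ => h, mul_inv_cancel₀ (h0 p hp).ne']
  · rw [filter_false_of_mem fun _ _ => h]; simp

theorem ms_ak (hP : ∀ p ∈ P, p.1 < 2 ^ ν ∧ p.2 < 2 ^ ν) (hD : ∀ p ∈ P, ∀ s ∈ D p, s < 2 ^ ν)
    (j : ℕ) (o : fl ν P D) :
    ms (wt ν P D) (pr ((cf D hP).ak j) ((cf D hP).pk ν)) o =
      (#{s ∈ D o.1.1 | s / 2 ^ (ν - j) = o.1.2 / 2 ^ (ν - j)} : ℝ) * (#(D o.1.1) : ℝ)⁻¹ := by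
  rw [ms_fl hD _ o (fun z => z.2 / 2 ^ (ν - j) = o.1.2 / 2 ^ (ν - j) ∧ z.1 = o.1.1)
    (fun o' => by
      simp [pr, Cfg.pk, Cfg.xk, Cfg.yk, Cfg.ak, cf, un, Prod.ext_iff, and_comm])]
  rw [sum_eq_single o.1.1]
  · simp
  · intro p _ hp
    simp [hp]
  · exact fun h => absurd (mem_fl o).1 h

theorem ms_inj (hP : ∀ p ∈ P, p.1 < 2 ^ ν ∧ p.2 < 2 ^ ν) (o : fl ν P D) :
    ms (wt ν P D) (pr ((cf D hP).pk ν) (cf D hP).tube) o ≤ wt ν P D o := by
  unfold ms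
  rw [sum_eq_single o]
  · simp
  · intro o' _ h
    rw [if_neg]
    intro h'
    apply h
    simp only [pr, Cfg.pk, Cfg.xk, Cfg.yk, Cfg.tube, cf, Prod.mk.injEq, Nat.sub_self, pow_zero,
      Nat.div_one] at h'
    exact Subtype.ext (Prod.ext (Prod.ext h'.1.2.1 h'.1.1) h'.2.1)
  · simp

theorem lg_pw (j : ℕ) (t : ℝ) : lg (((2 : ℝ) ^ j) ^ t) = t * j := by
  unfold lg
  rw [Real.logb_rpow_eq_mul_logb_of_pos (by positivity), Real.logb_pow]
  simp

theorem lg_two : lg 2 = 1 := by simp [lg]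

theorem lg_inv' (a : ℝ) : lg a⁻¹ = -lg a := Real.logb_inv 2 a

end

end Fn

open Fn in
theorem fF (hT : TeStmt) : HA.FStmt := by
  classical
  refine ⟨3 / 2, by norm_num, fun e e2 he he2 => ?_⟩
  set s0 := min (min e (e2 / 2)) (1 / 2) with hs0
  have s0p : 0 < s0 := by positivity
  have s0a : s0 ≤ e := (min_le_left _ _).trans (min_le_left _ _)
  have s0b : s0 ≤ e2 / 2 := (min_le_left _ _).trans (min_le_right _ _)
  have s0c : s0 ≤ 1 / 2 := min_le_right _ _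
  obtain ⟨B, hB1, hB⟩ := core hT e s0 he s0p (by linarith)
  refine ⟨(2 : ℝ) ^ (-B), by positivity,
    fun ν t κ γ n P D ht ht' hκ hκ1 hγ hn hP hKT hD hnD hγD h2e => ?_⟩
  set T := P.biUnion fun p => (D p).image fun s => (s, p.1 + s * p.2 / 2 ^ ν) with hTdef
  rcases hn.eq_or_lt with hn0 | hn0
  · rw [← hn0, Real.zero_rpow (by norm_num)]; simp
  rcases P.eq_empty_or_nonempty with hP0 | ⟨p0, hp0⟩
  · rw [hP0]; simp
  have h0 : ∀ p ∈ P, 0 < (#(D p) : ℝ) := fun p hp => hn0.trans_le (hnD p hp)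
  have P0 : (0 : ℝ) < #P := by exact_mod_cast card_pos.2 ⟨p0, hp0⟩
  have γ0 : 0 < γ := by linarith
  have hfull : ∀ p ∈ P, ∀ s0 < 2 ^ ν, {s ∈ D p | s / 2 ^ ν = s0 / 2 ^ ν} = D p :=
    fun p hp s0 hs => filter_true_of_mem fun s h => by
      rw [Nat.div_eq_of_lt (hD p hp s h), Nat.div_eq_of_lt hs]
  have hTn : n ≤ #T := by
    refine (hnD p0 hp0).trans ?_
    have h1 : #((D p0).image fun s => (s, p0.1 + s * p0.2 / 2 ^ ν)) = #(D p0) :=
      card_image_of_injective _ fun a b h => congrArg Prod.fst h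
    rw [← h1]
    exact_mod_cast card_le_card (subset_biUnion_of_mem
      (fun p => (D p).image fun s => (s, p.1 + s * p.2 / 2 ^ ν)) hp0)
  have T0 : (0 : ℝ) < #T := hn0.trans_le hTn
  have lκ : lg κ ≤ 0 := by have := lg_le' hκ hκ1; simpa [lg] using this
  have hlog : -B - e * ν + 3 / 2 * lg κ + lg #P - t * ν / 2 + 3 / 2 * lg n - lg γ / 2 ≤ lg #T := by
    rcases le_or_gt t e with hte | hte
    · have a1 : (#P : ℝ) ≤ 2 * ((2 : ℝ) ^ ν) ^ t := by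
        have := hKT ν le_rfl 0 0
        rwa [filter_true_of_mem fun p hp =>
          ⟨Nat.div_eq_of_lt (hP p hp).1, Nat.div_eq_of_lt (hP p hp).2⟩] at this
      have a2 := lg_le' P0 a1
      rw [lg_mul' (by norm_num) (by positivity), lg_pw, lg_two] at a2
      have a3 := hγD p0 hp0 ν le_rfl (0 / 2 ^ ν)
      rw [hfull p0 hp0 0 (by positivity)] at a3
      have a4 := lg_le' hn0 ((hnD p0 hp0).trans a3)
      rw [lg_mul' γ0 (by positivity), lg_pw] at a4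
      have a5 := lg_le' hn0 hTn
      have a6 : min t (2 - t) * ν ≤ t * ν :=
        mul_le_mul_of_nonneg_right (min_le_left _ _) (Nat.cast_nonneg _)
      have a7 : t * ν ≤ e * ν := mul_le_mul_of_nonneg_right hte (Nat.cast_nonneg _)
      linarith
    · obtain ⟨s1, hs1⟩ := card_pos.1 (by exact_mod_cast h0 p0 hp0 : 0 < #(D p0))
      have hG : ∀ (o : fl ν P D) (j : ℕ), Gj (cf D hP) (wt ν P D) o j = lg #(D o.1.1) -
          lg #{s ∈ D o.1.1 | s / 2 ^ (ν - j) = o.1.2 / 2 ^ (ν - j)} ∧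
          (0 : ℝ) < #{s ∈ D o.1.1 | s / 2 ^ (ν - j) = o.1.2 / 2 ^ (ν - j)} := fun o j => by
        have c0 : (0 : ℝ) < #{s ∈ D o.1.1 | s / 2 ^ (ν - j) = o.1.2 / 2 ^ (ν - j)} := by
          exact Nat.cast_pos.2 (card_pos.2 ⟨o.1.2, mem_filter.2 ⟨(mem_fl o).2.2, rfl⟩⟩)
        refine ⟨?_, c0⟩
        have : Gj (cf D hP) (wt ν P D) o j =
          -lg (ms (wt ν P D) (pr ((cf D hP).ak j) ((cf D hP).pk ν)) o) := rfl
        rw [this, ms_ak hP hD, lg_mul' c0 (inv_pos.2 (h0 _ (mem_fl o).1)), lg_inv']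
        ring
      have hw : ∀ o : fl ν P D, -lg (wt ν P D o) = lg #(D o.1.1) := fun o => by
        simp only [wt, lg_inv', neg_neg]
      have hGn : ∀ o : fl ν P D, Gj (cf D hP) (wt ν P D) o ν = lg #(D o.1.1) := fun o => by
        rw [(hG o ν).1]
        have : {s ∈ D o.1.1 | s / 2 ^ (ν - ν) = o.1.2 / 2 ^ (ν - ν)} = {o.1.2} := by
          ext s
          simp only [Nat.sub_self, pow_zero, Nat.div_one, mem_filter, mem_singleton]
          exact ⟨fun h => h.2, fun h => ⟨h ▸ (mem_fl o).2.2, h⟩⟩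
        rw [this]; simp [lg]
      have key := hB (fl ν P D) (cf D hP) (wt ν P D) t (lg γ) (-lg κ) (lg n)
        (T.image fun z => (z.1, z.2, ())) (fun o => inv_pos.2 (h0 _ (mem_fl o).1))
        ⟨⟨(p0, s1), by simp [fl, hp0, hs1, hD p0 hp0 s1 hs1]⟩⟩ ht
        (le_min (by linarith) (by linarith)) ?_ ?_ ?_ ?_ ?_ (ms_inj hP) ?_ ?_
      · rw [tot_fl hD h0, card_image_of_injective _ (fun a b h => by
          simp only [Prod.mk.injEq] at h; exact Prod.ext h.1 h.2.1)] at key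
        have : ((cf D hP).n : ℝ) = ν := rfl
        rw [this] at key
        linarith
      · intro o k hk
        have hk' : k ≤ ν := hk
        have c0 : ∀ k, (1 : ℝ) ≤ ms (wt ν P D) ((cf D hP).pk k) o := fun k => by
          rw [ms_pk hP hD h0]
          exact Nat.one_le_cast.2 (card_pos.2 ⟨o.1.1, mem_filter.2 ⟨(mem_fl o).1, rfl, rfl⟩⟩)
        rw [lg_div' (by linarith [c0 k]) (by linarith [c0 (cf D hP).n])]
        have a1 := lg_le' one_pos (c0 (cf D hP).n)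
        have a2 : ms (wt ν P D) ((cf D hP).pk k) o ≤ 2 * ((2 : ℝ) ^ (ν - k)) ^ t := by
          rw [ms_pk hP hD h0]; exact hKT _ (Nat.sub_le _ _) _ _
        have a3 := lg_le' (by linarith [c0 k]) a2
        rw [lg_mul' (by norm_num) (by positivity), lg_pw, lg_two, Nat.cast_sub hk'] at a3
        have a4 : lg 1 = 0 := by simp [lg]
        have : ((cf D hP).n : ℝ) = ν := rfl
        rw [this]
        linarith
      · intro o
        rw [(hG o 0).1, Nat.sub_zero, hfull _ (mem_fl o).1 _ (mem_fl o).2.1, sub_self]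
      · intro o
        rw [hw]; exact hGn o
      · intro o j hj
        have hj' : j ≤ ν := hj
        have e1 : Gj (cf D hP) (wt ν P D) o (cf D hP).n = lg #(D o.1.1) := hGn o
        have : ((cf D hP).n : ℝ) = ν := rfl
        rw [e1, (hG o j).1, this]
        have a1 := lg_le' (hG o j).2 (hγD _ (mem_fl o).1 (ν - j) (Nat.sub_le _ _) _)
        rw [lg_mul' γ0 (by positivity), lg_pw, Nat.cast_sub hj'] at a1
        linarith
      · intro o j hj hle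
        have hj' : j ≤ ν := hj
        have j1 : (j : ℝ) ≤ ν := by exact_mod_cast hj'
        have j0 : (0 : ℝ) ≤ j := Nat.cast_nonneg _
        by_cases h : (2 : ℝ) ^ (ν - j) ≤ κ * 2 ^ ν
        · have a1 := lg_le' (hG o j).2 (h2e _ (mem_fl o).1 (ν - j) h _)
          rw [lg_mul' (by positivity) (h0 _ (mem_fl o).1), lg_pw] at a1
          rw [(hG o j).1] at hle
          have a2 : s0 * j ≤ e2 / 2 * j := mul_le_mul_of_nonneg_right s0b j0
          have a3 : e2 * j ≤ e2 * ν := mul_le_mul_of_nonneg_left j1 he2.le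
          have a4 : e2 * j ≤ 0 := by linarith
          have a5 : (j : ℝ) ≤ 0 := by
            by_contra hc
            exact absurd (mul_pos he2 (not_le.1 hc)) (not_lt.2 a4)
          linarith
        · have a1 := lg_le' (by positivity) (not_le.1 h).le
          have a2 : ∀ m : ℕ, lg ((2 : ℝ) ^ m) = m := fun m => by simp [lg, Real.logb_pow]
          rw [lg_mul' hκ (by positivity), a2, a2, Nat.cast_sub hj'] at a1
          linarith
      · intro o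
        rw [hw]; exact lg_le' hn0 (hnD _ (mem_fl o).1)
      · intro o
        refine mem_image.2 ⟨(o.1.2, o.1.1.1 + o.1.2 * o.1.1.2 / 2 ^ ν), ?_, rfl⟩
        exact mem_biUnion.2 ⟨o.1.1, (mem_fl o).1, mem_image.2 ⟨o.1.2, (mem_fl o).2.2, rfl⟩⟩
  have hpos : 0 < (2 : ℝ) ^ (-B) * ((2 : ℝ) ^ ν) ^ (-e) * κ ^ (3 / 2 : ℝ) * #P *
      ((2 : ℝ) ^ ν) ^ (-t / 2) * n ^ (3 / 2 : ℝ) / √γ := by positivity
  refine (Real.logb_le_logb (b := 2) (by norm_num) hpos T0).1 (le_trans (le_of_eq ?_) hlog)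
  have r1 : ∀ {a : ℝ} (x : ℝ), 0 < a → lg (a ^ x) = x * lg a := fun x ha =>
    Real.logb_rpow_eq_mul_logb_of_pos ha
  change lg _ = _
  rw [lg_div' (by positivity) (by positivity), lg_mul' (by positivity) (by positivity),
    lg_mul' (by positivity) (by positivity), lg_mul' (by positivity) P0,
    lg_mul' (by positivity) (by positivity), lg_mul' (by positivity) (by positivity),
    lg_pw, lg_pw, r1 _ hκ, r1 _ hn0, r1 _ two_pos, lg_two, Real.sqrt_eq_rpow, r1 _ γ0]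
  ring

end Pool.Agent.Lib.MP_108739_an.F
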