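import Pool.Agent.Lib.MP_108739_an.F.TDefs

/-! Counting the squares near a given square. -/

open Finset

namespace Pool.Agent.Lib.MP_108739_an.F
open Classical

variable {Ω β : Type} [Fintype Ω] (c : Cfg Ω β)

omit [Fintype Ω] in
lemma geoA_xk {i y : ℕ} (hi : i ≤ y) (hy : y ≤ c.n) (o : Ω) :
    c.xk i o = c.xk y o / 2 ^ (y - i) := by
  unfold Cfg.xk
  rw [Nat.div_div_eq_div_mul, ← pow_add]
  congr 2
  omega

omit [Fintype Ω] in
lemma geoA_yk {i y : ℕ} (hi : i ≤ y) (hy : y ≤ c.n) (o : Ω) :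
    c.yk i o = c.yk y o / 2 ^ (y - i) := by
  unfold Cfg.yk
  rw [Nat.div_div_eq_div_mul, ← pow_add]
  congr 2
  omega

omit [Fintype Ω] in
lemma geoA_ak {j : ℕ} (hj : j ≤ c.n) (o : Ω) : c.ak j o < 2 ^ j := by
  unfold Cfg.ak
  apply Nat.div_lt_of_lt_mul
  rw [← pow_add, Nat.sub_add_cancel hj]
  exact c.ha o

lemma geoA_mem {w : Ω → ℝ} {i : ℕ} {o o' : Ω} : o' ∈ c.nb w i o ↔ 0 < w o' ∧ c.b o' = c.b o ∧
    |(c.xk i o' : ℤ) - c.xk i o| ≤ 1 ∧ |(c.yk i o' : ℤ) - c.yk i o| ≤ 3 := by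
  simp [Cfg.nb]

lemma geoA_box (w : Ω → ℝ) (i : ℕ) (o : Ω) : #(c.sqs w i i o) ≤ 21 := by
  have h : c.sqs w i i o ⊆ Icc (-1 : ℤ) 1 ×ˢ Icc ((c.yk i o : ℤ) - 3) ((c.yk i o : ℤ) + 3) := by
    intro q hq
    obtain ⟨o', ho', rfl⟩ := mem_image.1 hq
    obtain ⟨-, -, h1, h2⟩ := (geoA_mem c).1 ho'
    rw [abs_le] at h1 h2
    simp only [Cfg.lq, Nat.sub_self, pow_zero, one_mul, mem_product, mem_Icc]
    omega
  refine (card_le_card h).trans ?_
  rw [card_product, Int.card_Icc, Int.card_Icc]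
  have : (c.yk i o : ℤ) + 3 + 1 - ((c.yk i o : ℤ) - 3) = 7 := by ring
  rw [this]
  decide

lemma geoA_pk (w : Ω → ℝ) (i : ℕ) (o : Ω) : #((c.nb w i o).image (c.pk i)) ≤ 21 := by
  refine le_trans ?_ (geoA_box c w i o)
  have h : (c.nb w i o).image (c.pk i) ⊆ (c.sqs w i i o).image
      fun q : ℤ × ℤ => ((q.1 + (c.xk i o : ℤ)).toNat, q.2.toNat, c.b o) := by
    intro p hp
    obtain ⟨o', ho', rfl⟩ := mem_image.1 hp
    refine mem_image.2 ⟨_, mem_image_of_mem _ ho', ?_⟩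
    obtain ⟨-, hb, -, -⟩ := (geoA_mem c).1 ho'
    simp [Cfg.lq, Cfg.pk, hb]
  exact (card_le_card h).trans card_image_le

theorem geoA : GeoA := by
  intro Ω β _ c w f U i y o hc hi hy
  refine ⟨?_, geoA_box c w i o, ?_, geoA_ak c (by omega) o⟩
  · set g : ℕ × ℕ × β → ℤ × ℤ := fun z => ((z.1 : ℤ) - 2 ^ (y - i) * (c.xk i o : ℤ), (z.2.1 : ℤ))
    have h : c.sqs w i y o ⊆ ((c.nb w i o).image (c.pk i)).biUnion fun p =>
        ((univ.filter fun o' => 0 < w o' ∧ c.pk i o' = p).image (c.pk y)).image g := by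
      intro q hq
      obtain ⟨o', ho', rfl⟩ := mem_image.1 hq
      refine mem_biUnion.2 ⟨_, mem_image_of_mem _ ho', mem_image.2 ⟨c.pk y o', ?_, rfl⟩⟩
      exact mem_image_of_mem _ (by simpa using ((geoA_mem c).1 ho').1)
    have h1 : (#(c.sqs w i y o) : ℝ) ≤ ∑ p ∈ (c.nb w i o).image (c.pk i),
        (#(((univ.filter fun o' => 0 < w o' ∧ c.pk i o' = p).image (c.pk y)).image g) : ℝ) := by
      exact_mod_cast (card_le_card h).trans card_biUnion_le
    refine h1.trans ?_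
    have h2 : ∀ p ∈ (c.nb w i o).image (c.pk i),
        (#(((univ.filter fun o' => 0 < w o' ∧ c.pk i o' = p).image (c.pk y)).image g) : ℝ) ≤
          (2 : ℝ) ^ (f y - f i + U) := by
      intro p hp
      obtain ⟨o', -, rfl⟩ := mem_image.1 hp
      refine le_trans ?_ (hc i y o' hi hy)
      have : #(((univ.filter fun o'' => 0 < w o'' ∧ c.pk i o'' = c.pk i o').image (c.pk y)).image g)
          ≤ #(vals w (c.pk y) (c.pk i) o') := by
        refine card_image_le.trans (card_le_card fun z hz => ?_)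
        unfold vals
        simpa using hz
      exact_mod_cast this
    refine (sum_le_card_nsmul _ _ _ h2).trans ?_
    rw [nsmul_eq_mul]
    have h3 : (#((c.nb w i o).image (c.pk i)) : ℝ) ≤ 21 := by exact_mod_cast geoA_pk c w i o
    exact mul_le_mul_of_nonneg_right h3 (by positivity)
  · intro q hq
    obtain ⟨o', ho', rfl⟩ := mem_image.1 hq
    obtain ⟨-, -, h1, -⟩ := (geoA_mem c).1 ho'
    rw [geoA_xk c hi hy o', abs_le] at h1
    simp only [Cfg.lq]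
    have hL : 0 < 2 ^ (y - i) := by positivity
    have e1 := Nat.div_add_mod (c.xk y o') (2 ^ (y - i))
    have e2 := Nat.mod_lt (c.xk y o') hL
    generalize c.xk y o' / 2 ^ (y - i) = d at *
    generalize c.xk y o' % 2 ^ (y - i) = r at *
    have e3 : (c.xk y o' : ℤ) = ((2 ^ (y - i) : ℕ) : ℤ) * d + r := by exact_mod_cast e1.symm
    have e4 : (r : ℤ) < ((2 ^ (y - i) : ℕ) : ℤ) := by exact_mod_cast e2
    have e5 : (2 : ℤ) ^ (y - i) = ((2 ^ (y - i) : ℕ) : ℤ) := by push_cast; rfl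
    rw [e3, e5]
    generalize ((2 ^ (y - i) : ℕ) : ℤ) = L at *
    have e6 : (0 : ℤ) ≤ r := Int.natCast_nonneg r
    constructor <;> nlinarith [h1.1, h1.2]

end Pool.Agent.Lib.MP_108739_an.F
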