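import Pool.Agent.Lib.MP_108739_an.F.TDefs

/-! Passing from squares near a fattened tube to their parents. -/

open Finset

namespace Pool.Agent.Lib.MP_108739_an.F
open Classical

namespace GB

lemma of_floor {L W b q1 q2 p1 p2 : ℤ} (hL : 0 < L)
    (h : |q2 + b * q1 / L - (p2 + b * p1 / L)| ≤ W) :
    |L * (q2 - p2) + b * (q1 - p1)| ≤ L * W + L := by
  have a1 := Int.mul_ediv_add_emod (b * q1) L
  have a2 := Int.mul_ediv_add_emod (b * p1) L
  have a3 := Int.emod_nonneg (b * q1) hL.ne'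
  have a4 := Int.emod_lt_of_pos (b * q1) hL
  have a5 := Int.emod_nonneg (b * p1) hL.ne'
  have a6 := Int.emod_lt_of_pos (b * p1) hL
  obtain ⟨h1, h2⟩ := abs_le.1 h
  have b1 := mul_le_mul_of_nonneg_left h1 hL.le
  have b2 := mul_le_mul_of_nonneg_left h2 hL.le
  rw [abs_le]
  constructor <;> nlinarith

lemma to_floor {L K b q1 q2 p1 p2 : ℤ} (hL : 0 < L)
    (h : |L * (q2 - p2) + b * (q1 - p1)| ≤ L * K) :
    |q2 + b * q1 / L - (p2 + b * p1 / L)| ≤ K + 1 := by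
  have a1 := Int.mul_ediv_add_emod (b * q1) L
  have a2 := Int.mul_ediv_add_emod (b * p1) L
  have a3 := Int.emod_nonneg (b * q1) hL.ne'
  have a4 := Int.emod_lt_of_pos (b * q1) hL
  have a5 := Int.emod_nonneg (b * p1) hL.ne'
  have a6 := Int.emod_lt_of_pos (b * p1) hL
  obtain ⟨h1, h2⟩ := abs_le.1 h
  rw [abs_le]
  constructor
  · apply le_of_mul_le_mul_left _ hL
    nlinarith
  · apply le_of_mul_le_mul_left _ hL
    nlinarith

lemma core {M L b rb d1 d2 e1 e2 : ℤ} (hM : 1 ≤ M) (hL : 0 < L) (hb0 : 0 ≤ M * b + rb)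
    (hb : M * b + rb ≤ M * L) (hr0 : 0 ≤ rb) (hr : rb ≤ M) (he1 : |e1| ≤ M) (he2 : |e2| ≤ M)
    (hd : |d1| ≤ 2 * L)
    (h : |M * L * (M * d2 + e2) + (M * b + rb) * (M * d1 + e1)| ≤ M * L * M + M * L) :
    |L * d2 + b * d1| ≤ L * 6 := by
  have hM0 : 0 < M := by omega
  have hML : 0 < M * L := mul_pos hM0 hL
  have t1 : |M * L * e2| ≤ M * L * M := by
    rw [abs_mul, abs_of_pos hML]
    exact mul_le_mul_of_nonneg_left he2 hML.le
  have t2 : |(M * b + rb) * e1| ≤ M * L * M := by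
    rw [abs_mul, abs_of_nonneg hb0]
    exact mul_le_mul hb he1 (abs_nonneg _) hML.le
  have t3 : |rb * (M * d1)| ≤ M * (M * (2 * L)) := by
    rw [abs_mul, abs_mul, abs_of_nonneg hr0, abs_of_pos hM0]
    exact mul_le_mul hr (mul_le_mul_of_nonneg_left hd hM0.le) (by positivity) hM0.le
  have t4 : M * L ≤ M * L * M := le_mul_of_one_le_right hML.le hM
  have e : M * M * (L * d2 + b * d1) = (M * L * (M * d2 + e2) + (M * b + rb) * (M * d1 + e1))
      - M * L * e2 - (M * b + rb) * e1 - rb * (M * d1) := by ring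
  have hMM : 0 < M * M := mul_pos hM0 hM0
  obtain ⟨h1, h2⟩ := abs_le.1 h
  obtain ⟨t11, t12⟩ := abs_le.1 t1
  obtain ⟨t21, t22⟩ := abs_le.1 t2
  obtain ⟨t31, t32⟩ := abs_le.1 t3
  rw [abs_le]
  constructor
  · apply le_of_mul_le_mul_left _ hMM
    rw [e]
    nlinarith
  · apply le_of_mul_le_mul_left _ hMM
    rw [e]
    nlinarith

lemma idx {M L b q1 q2 p1 p2 : ℤ} (hM : 1 ≤ M) (hL : 0 < L) (hb0 : 0 ≤ b) (hb : b ≤ M * L)
    (hd : |q1 / M - p1 / M| ≤ 2 * L)
    (h : |q2 + b * q1 / (M * L) - (p2 + b * p1 / (M * L))| ≤ M) :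
    |q2 / M + b / M * (q1 / M) / L - (p2 / M + b / M * (p1 / M) / L)| ≤ 8 := by
  have hM0 : 0 < M := by omega
  have h1 := of_floor (mul_pos hM0 hL) h
  have f (a : ℤ) : M * (a / M) + a % M = a ∧ 0 ≤ a % M ∧ a % M < M :=
    ⟨Int.mul_ediv_add_emod a M, Int.emod_nonneg a hM0.ne', Int.emod_lt_of_pos a hM0⟩
  obtain ⟨b1, b2, b3⟩ := f b
  obtain ⟨x1, x2, x3⟩ := f q1
  obtain ⟨y1, y2, y3⟩ := f q2
  obtain ⟨u1, u2, u3⟩ := f p1
  obtain ⟨v1, v2, v3⟩ := f p2
  have h2 : |L * (q2 / M - p2 / M) + b / M * (q1 / M - p1 / M)| ≤ L * 6 := by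
    refine core (M := M) (rb := b % M) (e1 := q1 % M - p1 % M) (e2 := q2 % M - p2 % M) hM hL
      (by omega) (by omega) b2 b3.le (abs_le.2 ⟨by omega, by omega⟩)
      (abs_le.2 ⟨by omega, by omega⟩) hd ?_
    have k1 : M * (q2 / M - p2 / M) + (q2 % M - p2 % M) = q2 - p2 := by
      rw [mul_sub]
      omega
    have k2 : M * (q1 / M - p1 / M) + (q1 % M - p1 % M) = q1 - p1 := by
      rw [mul_sub]
      omega
    rw [k1, k2, b1]
    exact h1
  have h3 := to_floor hL h2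
  omega

lemma div_step {n k m : ℕ} (x : ℕ) (h : k + m ≤ n) :
    x / 2 ^ (n - k) = x / 2 ^ (n - (k + m)) / 2 ^ m := by
  rw [Nat.div_div_eq_div_mul, ← pow_add]
  congr 2
  omega

lemma div_step_int {n k m : ℕ} (x : ℕ) (h : k + m ≤ n) :
    ((x / 2 ^ (n - k) : ℕ) : ℤ) = ((x / 2 ^ (n - (k + m)) : ℕ) : ℤ) / 2 ^ m := by
  rw [div_step x h, Int.natCast_div]
  simp

lemma mem_vals {Ω α β : Type} [Fintype Ω] {w : Ω → ℝ} {f : Ω → α} {g : Ω → β} {o o' : Ω}
    (h : 0 < w o') (e : g o' = g o) : f o' ∈ vals w f g o := by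
  simp only [vals, mem_image, mem_filter, mem_univ, true_and]
  exact ⟨o', ⟨h, e⟩, rfl⟩

variable {Ω β : Type} (c : Cfg Ω β)

lemma lq_par {i y m : ℕ} (hi : i ≤ y) (h : y + m ≤ c.n) (o o' : Ω) :
    ((c.lq i (y + m) o o').1 / 2 ^ m, (c.lq i (y + m) o o').2 / 2 ^ m) = c.lq i y o o' := by
  have e : y + m - i = (y - i) + m := by omega
  have h2 : (2 : ℤ) ^ m ≠ 0 := by positivity
  simp only [Cfg.lq, Cfg.xk, Cfg.yk]
  rw [div_step_int (c.x o') h, div_step_int (c.y o') h, e, pow_add]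
  refine Prod.ext ?_ rfl
  simp only
  rw [mul_right_comm, Int.sub_mul_ediv_right _ _ h2]

lemma lq_fst {i y : ℕ} (hi : i ≤ y) (h : y ≤ c.n) (o o' : Ω) :
    2 ^ (y - i) * ((c.xk i o' : ℤ) - c.xk i o) ≤ (c.lq i y o o').1 ∧
      (c.lq i y o o').1 < 2 ^ (y - i) * ((c.xk i o' : ℤ) - c.xk i o) + 2 ^ (y - i) := by
  have h0 : (0 : ℤ) < 2 ^ (y - i) := by positivity
  have e : (c.xk i o' : ℤ) = (c.xk y o' : ℤ) / 2 ^ (y - i) := by
    have := div_step_int (n := c.n) (k := i) (m := y - i) (c.x o') (by omega)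
    rw [show i + (y - i) = y by omega] at this
    exact this
  have a1 := Int.mul_ediv_add_emod (c.xk y o' : ℤ) (2 ^ (y - i))
  have a2 := Int.emod_nonneg (c.xk y o' : ℤ) h0.ne'
  have a3 := Int.emod_lt_of_pos (c.xk y o' : ℤ) h0
  rw [← e] at a1
  simp only [Cfg.lq, mul_sub]
  constructor <;> linarith

end GB

open GB in
theorem geoB : GeoB := by
  intro Ω β _ c w f U i y m o hc hi hy
  have e : y + m - i = (y - i) + m := by omega
  let π : ℤ × ℤ → ℤ × ℤ := fun q => (q.1 / 2 ^ m, q.2 / 2 ^ m)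
  have hπ : ∀ o', π (c.lq i (y + m) o o') = c.lq i y o o' := fun o' => lq_par c hi hy o o'
  unfold Cfg.Rc hlR
  set S := {q ∈ c.sqs w i (y + m) o | |q.2 + ((c.lt i (y + m) o).1 : ℤ) * q.1 /
    ((2 ^ (y + m - i) : ℕ) : ℤ) - (c.lt i (y + m) o).2| ≤ ((2 ^ m : ℕ) : ℤ)} with hS
  set T := {q ∈ c.sqs w i y o | |q.2 + ((c.lt i y o).1 : ℤ) * q.1 /
    ((2 ^ (y - i) : ℕ) : ℤ) - (c.lt i y o).2| ≤ ((8 : ℕ) : ℤ)} with hT
  have hmap : ∀ q ∈ S, π q ∈ T := by
    intro q hq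
    obtain ⟨hq1, hq2⟩ := mem_filter.1 hq
    obtain ⟨o', ho', rfl⟩ := mem_image.1 hq1
    refine mem_filter.2 ⟨by rw [hπ]; exact mem_image_of_mem _ ho', ?_⟩
    obtain ⟨-, -, -, hx, -⟩ := mem_filter.1 ho'
    have hL : (0 : ℤ) < 2 ^ (y - i) := by positivity
    have hM : (1 : ℤ) ≤ 2 ^ m := one_le_pow₀ (by norm_num)
    have hb : (c.ak (y + m - i) o : ℤ) ≤ 2 ^ m * 2 ^ (y - i) := by
      have h1 : c.ak (y + m - i) o < 2 ^ (y + m - i) := by
        refine Nat.div_lt_of_lt_mul ?_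
        rw [← pow_add, show c.n - (y + m - i) + (y + m - i) = c.n by omega]
        exact c.ha o
      rw [← pow_add, show m + (y - i) = y + m - i by omega]
      exact_mod_cast h1.le
    have hb' : (c.ak (y - i) o : ℤ) = (c.ak (y + m - i) o : ℤ) / 2 ^ m := by
      have := div_step_int (n := c.n) (k := y - i) (m := m) (c.a o) (by omega)
      rw [← e] at this
      exact this
    have p1 := congrArg Prod.fst (hπ o')
    have p2 := congrArg Prod.fst (hπ o)
    have p3 := congrArg Prod.snd (hπ o)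
    simp only [π] at p1 p2 p3
    have hd : |(c.lq i (y + m) o o').1 / 2 ^ m - (c.lq i (y + m) o o).1 / 2 ^ m| ≤
        2 * 2 ^ (y - i) := by
      rw [p1, p2]
      obtain ⟨a1, a2⟩ := lq_fst c hi (by omega) o o'
      obtain ⟨a3, a4⟩ := lq_fst c hi (by omega) o o
      obtain ⟨x1, x2⟩ := abs_le.1 hx
      have x3 := mul_le_mul_of_nonneg_left x1 hL.le
      have x4 := mul_le_mul_of_nonneg_left x2 hL.le
      rw [sub_self, mul_zero] at a3 a4
      rw [abs_le]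
      constructor <;> linarith
    have hq3 : |(c.lq i (y + m) o o').2 + (c.ak (y + m - i) o : ℤ) * (c.lq i (y + m) o o').1 /
        (2 ^ m * 2 ^ (y - i)) - ((c.lq i (y + m) o o).2 + (c.ak (y + m - i) o : ℤ) *
          (c.lq i (y + m) o o).1 / (2 ^ m * 2 ^ (y - i)))| ≤ 2 ^ m := by
      have e2 : ((2 ^ (y + m - i) : ℕ) : ℤ) = 2 ^ m * 2 ^ (y - i) := by
        rw [← pow_add, show m + (y - i) = y + m - i by omega]
        push_cast
        rfl
      simp only [Cfg.lt, ind, e2] at hq2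
      push_cast at hq2
      exact hq2
    have key := idx hM hL (Int.natCast_nonneg _) hb hd hq3
    simp only [Cfg.lt, ind, π]
    push_cast
    rw [hb', ← p2, ← p3]
    exact key
  have hfib : ∀ p ∈ T, (#{q ∈ S | π q = p} : ℝ) ≤ (2 : ℝ) ^ (f (y + m) - f y + U) := by
    intro p hp
    obtain ⟨o1, ho1, rfl⟩ := mem_image.1 (mem_filter.1 hp).1
    refine le_trans ?_ (hc y (y + m) o1 (by omega) hy)
    have hsub : {q ∈ S | π q = c.lq i y o o1} ⊆ (vals w (c.pk (y + m)) (c.pk y) o1).image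
        fun v => ((v.1 : ℤ) - 2 ^ (y + m - i) * (c.xk i o : ℤ), (v.2.1 : ℤ)) := by
      intro q hq
      obtain ⟨hq1, hq2⟩ := mem_filter.1 hq
      obtain ⟨o', ho', rfl⟩ := mem_image.1 (mem_filter.1 hq1).1
      rw [hπ] at hq2
      obtain ⟨-, hw', hb', -⟩ := mem_filter.1 ho'
      obtain ⟨-, -, hb1, -⟩ := mem_filter.1 ho1
      have a1 : c.xk y o' = c.xk y o1 := by
        have := congrArg Prod.fst hq2
        simp only [Cfg.lq] at this
        omega
      have a2 : c.yk y o' = c.yk y o1 := by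
        have := congrArg Prod.snd hq2
        simp only [Cfg.lq] at this
        omega
      refine mem_image.2 ⟨c.pk (y + m) o', mem_vals hw' ?_, rfl⟩
      simp only [Cfg.pk, a1, a2, hb', hb1]
    exact_mod_cast (card_le_card hsub).trans card_image_le
  rw [card_eq_sum_card_fiberwise (f := π) (s := S) (t := T) fun q hq => hmap q hq]
  push_cast
  refine (sum_le_sum hfib).trans ?_
  rw [sum_const, nsmul_eq_mul, mul_comm]

end Pool.Agent.Lib.MP_108739_an.F
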