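import Pool.Agent.Lib.MP_108739_an.F.GeoG1

/-! The far squares on a tube are counted by the local tube. -/

open Finset

namespace Pool.Agent.Lib.MP_108739_an.F
open Classical

lemma G1.card_image_le {ι α β : Type} [DecidableEq α] [DecidableEq β] (S : Finset ι)
    (f : ι → α) (g : ι → β) (h : ∀ a ∈ S, ∀ b ∈ S, g a = g b → f a = f b) :
    #(S.image f) ≤ #(S.image g) := by
  have ex : ∀ v : S.image f, ∃ a ∈ S, f a = v := fun v => mem_image.mp v.2
  choose r hr hf using ex
  rw [← card_attach (s := S.image f)]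
  refine card_le_card_of_injOn (fun v => g (r v)) (fun v _ => mem_image_of_mem g (hr v)) ?_
  intro v _ v' _ e
  exact Subtype.ext (by rw [← hf v, ← hf v', h _ (hr v) _ (hr v') e])

theorem geoC : GeoC := by
  intro Ω β _ c w i y m m' a0 o hi hy ha hm
  have h1 := G1.card_image_le (c.far w i m o) (c.pk a0)
    (fun o' => (c.yk a0 o' % 3, c.xk a0 o' % 2 ^ m', c.lq i y o o')) ?_
  · refine h1.trans ?_
    have e : 3 * 2 ^ m' * c.Rc w i y 8 o = #(range 3 ×ˢ range (2 ^ m') ×ˢ
        {q ∈ c.sqs w i y o | |q.2 + ((c.lt i y o).1 : ℤ) * q.1 / ((2 ^ (y - i) : ℕ) : ℤ) -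
          (c.lt i y o).2| ≤ ((8 : ℕ) : ℤ)}) := by
      rw [card_product, card_product, card_range, card_range, mul_assoc]
      rfl
    rw [e]
    refine card_le_card fun z hz => ?_
    obtain ⟨o', ho', rfl⟩ := mem_image.mp hz
    obtain ⟨-, hw, ht, hx, -⟩ := mem_filter.mp ho'
    have g := c.G1 w hi hy hw ht hx
    exact mem_product.mpr ⟨mem_range.mpr (Nat.mod_lt _ (by norm_num)), mem_product.mpr
      ⟨mem_range.mpr (Nat.mod_lt _ (by positivity)),
        mem_filter.mpr ⟨mem_image_of_mem _ g.1, g.2⟩⟩⟩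
  · intro p hp q hq e
    obtain ⟨-, -, tp, -⟩ := mem_filter.mp hp
    obtain ⟨-, -, tq, -⟩ := mem_filter.mp hq
    have t : c.tube p = c.tube q := tp.trans tq.symm
    have e1 : c.yk a0 p % 3 = c.yk a0 q % 3 := congrArg (fun z => z.1) e
    have e2 : c.xk a0 p % 2 ^ m' = c.xk a0 q % 2 ^ m' := congrArg (fun z => z.2.1) e
    have e3 : (c.xk y p : ℤ) - 2 ^ (y - i) * (c.xk i o : ℤ) =
        (c.xk y q : ℤ) - 2 ^ (y - i) * (c.xk i o : ℤ) := congrArg (fun z => z.2.2.1) e
    have e4 : c.xk y p = c.xk y q := by exact_mod_cast sub_left_injective e3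
    have d : ∀ z, c.xk a0 z / 2 ^ m' = c.xk y z / 2 ^ (c.n - a0 + m' - (c.n - y)) := by
      intro z
      simp only [Cfg.xk]
      rw [Nat.div_div_eq_div_mul, Nat.div_div_eq_div_mul, ← pow_add, ← pow_add]
      congr 2
      omega
    have ex : c.xk a0 p = c.xk a0 q := by
      rw [← Nat.div_add_mod (c.xk a0 p) (2 ^ m'), ← Nat.div_add_mod (c.xk a0 q) (2 ^ m'), d, d,
        e2, e4]
    have hy2 := abs_le.mp (c.tube_yk t a0 (by rw [ex]; simp))
    have ey : c.yk a0 p = c.yk a0 q := by omega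
    have eb : c.b p = c.b q := congrArg (fun z => z.2.2) t
    simp only [Cfg.pk, ex, ey, eb]

end Pool.Agent.Lib.MP_108739_an.F
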