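import Pool.Agent.Lib.MP_108739_an.F.TDefs

/-! Flags on one tube have close local indices. -/

open Finset

namespace Pool.Agent.Lib.MP_108739_an.F
open Classical

namespace G1

lemma core {α β L x x' y y' u u' v v' t t' c : ℝ} (α0 : 0 ≤ α) (α1 : α ≤ 1) (hb0 : β ≤ α)
    (hb1 : (α - β) * L ≤ 1) (hd : |u' - u| ≤ 2 * L) (hs : |(y' - y) + α * (x' - x)| ≤ 1)
    (hu : u ≤ x ∧ x ≤ u + 1) (hu' : u' ≤ x' ∧ x' ≤ u' + 1) (hv : v ≤ y ∧ y ≤ v + 1)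
    (hv' : v' ≤ y' ∧ y' ≤ v' + 1) (ht : t ≤ β * (u - c) ∧ β * (u - c) ≤ t + 1)
    (ht' : t' ≤ β * (u' - c) ∧ β * (u' - c) ≤ t' + 1) : |v' + t' - (v + t)| ≤ 8 := by
  obtain ⟨d1, d2⟩ := abs_le.mp hd
  obtain ⟨s1, s2⟩ := abs_le.mp hs
  have e0 : 0 ≤ α - β := sub_nonneg.mpr hb0
  have p1 : (α - β) * (u' - u) ≤ (α - β) * (2 * L) := mul_le_mul_of_nonneg_left d2 e0
  have p2 : (α - β) * (-(2 * L)) ≤ (α - β) * (u' - u) := mul_le_mul_of_nonneg_left d1 e0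
  have q1 : α * ((x' - x) - (u' - u)) ≤ α * 1 :=
    mul_le_mul_of_nonneg_left (by linarith [hu.1, hu'.2]) α0
  have q2 : α * (-1) ≤ α * ((x' - x) - (u' - u)) :=
    mul_le_mul_of_nonneg_left (by linarith [hu.2, hu'.1]) α0
  rw [abs_le]
  constructor <;> nlinarith [hv.1, hv.2, hv'.1, hv'.2, ht.1, ht.2, ht'.1, ht'.2]

lemma nat_div (x : ℕ) {Q : ℕ} (hQ : 0 < Q) :
    ((x / Q : ℕ) : ℝ) ≤ (x : ℝ) / Q ∧ (x : ℝ) / Q ≤ ((x / Q : ℕ) : ℝ) + 1 := by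
  have hQ' : (0 : ℝ) < Q := by exact_mod_cast hQ
  refine ⟨Nat.cast_div_le, ?_⟩
  rw [div_le_iff₀ hQ']
  have h : x ≤ (x / Q + 1) * Q := by
    have h1 := Nat.div_add_mod x Q
    have h2 := Nat.mod_lt x hQ
    nlinarith
  exact_mod_cast h

lemma int_div (z : ℤ) {L : ℕ} (hL : 0 < L) :
    ((z / (L : ℤ) : ℤ) : ℝ) ≤ (z : ℝ) / L ∧ (z : ℝ) / L ≤ ((z / (L : ℤ) : ℤ) : ℝ) + 1 := by
  have hL' : (0 : ℝ) < L := by exact_mod_cast hL
  have hz : (0 : ℤ) < L := by exact_mod_cast hL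
  have h1 := Int.emod_add_mul_ediv z L
  have h2 := Int.emod_nonneg z hz.ne'
  have h3 := Int.emod_lt_of_pos z hz
  rw [le_div_iff₀ hL', div_le_iff₀ hL']
  constructor
  · have : z / (L : ℤ) * (L : ℤ) ≤ z := by linarith
    exact_mod_cast this
  · have : z ≤ (z / (L : ℤ) + 1) * (L : ℤ) := by linarith
    exact_mod_cast this

/-- neighbouring cells contain close points -/
lemma near_of_div {x x' P : ℕ} (hP : 0 < P) (h : |((x' / P : ℕ) : ℤ) - ((x / P : ℕ) : ℤ)| ≤ 1) :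
    |(x' : ℤ) - x| < 2 * P := by
  have a1 : (P : ℤ) * ((x / P : ℕ) : ℤ) + ((x % P : ℕ) : ℤ) = x := by
    exact_mod_cast Nat.div_add_mod x P
  have a2 : (P : ℤ) * ((x' / P : ℕ) : ℤ) + ((x' % P : ℕ) : ℤ) = x' := by
    exact_mod_cast Nat.div_add_mod x' P
  have b1 : ((x % P : ℕ) : ℤ) < P := by exact_mod_cast Nat.mod_lt x hP
  have b2 : ((x' % P : ℕ) : ℤ) < P := by exact_mod_cast Nat.mod_lt x' hP
  have c1 : (0 : ℤ) ≤ ((x % P : ℕ) : ℤ) := by positivity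
  have c2 : (0 : ℤ) ≤ ((x' % P : ℕ) : ℤ) := by positivity
  have hP' : (0 : ℤ) ≤ P := by positivity
  obtain ⟨h1, h2⟩ := abs_le.mp h
  have p1 := mul_le_mul_of_nonneg_left h1 hP'
  have p2 := mul_le_mul_of_nonneg_left h2 hP'
  rw [abs_lt]
  constructor <;> linarith

/-- close points lie in close cells -/
lemma div_of_near {x x' P r : ℕ} (hP : 0 < P) (h : |(x' : ℤ) - x| ≤ r * P) :
    |((x' / P : ℕ) : ℤ) - ((x / P : ℕ) : ℤ)| ≤ r := by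
  obtain ⟨h1, h2⟩ := abs_le.mp h
  have k1 : x' ≤ x + r * P := by exact_mod_cast (by linarith : (x' : ℤ) ≤ x + r * P)
  have k2 : x ≤ x' + r * P := by exact_mod_cast (by linarith : (x : ℤ) ≤ x' + r * P)
  have m1 := Nat.div_le_div_right (c := P) k1
  have m2 := Nat.div_le_div_right (c := P) k2
  rw [Nat.add_mul_div_right _ _ hP] at m1 m2
  rw [abs_le]
  constructor <;> omega

end G1

namespace Cfg
variable {Ω β : Type} (c : Cfg Ω β)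

lemma tube_abs {o o' : Ω} (ht : c.tube o' = c.tube o) :
    |(2 : ℤ) ^ c.n * ((c.y o' : ℤ) - c.y o) + (c.a o : ℤ) * ((c.x o' : ℤ) - c.x o)| < 2 ^ c.n := by
  have ha : c.a o' = c.a o := congrArg (fun t => t.1) ht
  have hy : c.y o' + c.a o' * c.x o' / 2 ^ c.n = c.y o + c.a o * c.x o / 2 ^ c.n :=
    congrArg (fun t => t.2.1) ht
  rw [ha] at hy
  have hN : 0 < 2 ^ c.n := by positivity
  have a1 := Nat.div_add_mod (c.a o * c.x o) (2 ^ c.n)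
  have a2 := Nat.div_add_mod (c.a o * c.x o') (2 ^ c.n)
  have b1 := Nat.mod_lt (c.a o * c.x o) hN
  have b2 := Nat.mod_lt (c.a o * c.x o') hN
  generalize c.a o * c.x o / 2 ^ c.n = p at *
  generalize c.a o * c.x o' / 2 ^ c.n = p' at *
  generalize c.a o * c.x o % 2 ^ c.n = r at *
  generalize c.a o * c.x o' % 2 ^ c.n = r' at *
  zify at a1 a2 b1 b2 hy
  have e : (2 : ℤ) ^ c.n * ((c.y o' : ℤ) - c.y o) + (c.a o : ℤ) * ((c.x o' : ℤ) - c.x o) =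
      r' - r := by
    linear_combination a1 - a2 + (2 : ℤ) ^ c.n * hy
  have c1 : (0 : ℤ) ≤ r := by positivity
  have c2 : (0 : ℤ) ≤ r' := by positivity
  rw [e, abs_lt]
  constructor <;> linarith

/-- on a tube the second coordinates are not further apart than the first ones -/
lemma tube_y {o o' : Ω} (ht : c.tube o' = c.tube o) :
    |(c.y o' : ℤ) - c.y o| ≤ |(c.x o' : ℤ) - c.x o| + 1 := by
  have h := c.tube_abs ht
  have ha : (c.a o : ℤ) ≤ 2 ^ c.n := by exact_mod_cast (c.ha o).le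
  have hN : (0 : ℤ) < 2 ^ c.n := by positivity
  have h1 : |(2 : ℤ) ^ c.n * ((c.y o' : ℤ) - c.y o)| ≤
      |(2 : ℤ) ^ c.n * ((c.y o' : ℤ) - c.y o) + (c.a o : ℤ) * ((c.x o' : ℤ) - c.x o)| +
        |(c.a o : ℤ) * ((c.x o' : ℤ) - c.x o)| := by
    have := abs_sub ((2 : ℤ) ^ c.n * ((c.y o' : ℤ) - c.y o) +
      (c.a o : ℤ) * ((c.x o' : ℤ) - c.x o)) ((c.a o : ℤ) * ((c.x o' : ℤ) - c.x o))
    rwa [add_sub_cancel_right] at this
  rw [abs_mul, abs_mul, abs_of_pos hN, Nat.abs_cast] at h1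
  have h2 := mul_le_mul_of_nonneg_right ha (abs_nonneg ((c.x o' : ℤ) - c.x o))
  refine le_of_mul_le_mul_left ?_ hN
  linarith

lemma tube_yk {o o' : Ω} (ht : c.tube o' = c.tube o) (k : ℕ)
    (hx : |(c.xk k o' : ℤ) - c.xk k o| ≤ 1) : |(c.yk k o' : ℤ) - c.yk k o| ≤ 2 := by
  have hP : 0 < 2 ^ (c.n - k) := by positivity
  have h1 := G1.near_of_div hP hx
  have h2 := c.tube_y ht
  exact G1.div_of_near (r := 2) hP (by push_cast at h1 ⊢; linarith)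

omit c in
lemma div_pow_le (x : ℕ) {n i k : ℕ} (hi : i ≤ k) (hk : k ≤ n) :
    x / 2 ^ (n - i) = x / 2 ^ (n - k) / 2 ^ (k - i) := by
  rw [Nat.div_div_eq_div_mul, ← pow_add]
  congr 2
  omega

variable [Fintype Ω]

lemma G1 (w : Ω → ℝ) {i y : ℕ} {o o' : Ω} (hi : i ≤ y) (hy : y ≤ c.n) (hw : 0 < w o')
    (ht : c.tube o' = c.tube o) (hx : |(c.xk i o' : ℤ) - c.xk i o| ≤ 1) :
    o' ∈ c.nb w i o ∧ |ind (2 ^ (y - i)) (c.ak (y - i) o) (c.lq i y o o') -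
      ind (2 ^ (y - i)) (c.ak (y - i) o) (c.lq i y o o)| ≤ 8 := by
  refine ⟨mem_filter.mpr ⟨mem_univ _, hw, congrArg (fun t => t.2.2) ht, hx,
    (c.tube_yk ht i hx).trans (by norm_num)⟩, ?_⟩
  have hL : 0 < 2 ^ (y - i) := by positivity
  have hQ : 0 < 2 ^ (c.n - y) := by positivity
  have hM : 0 < 2 ^ (c.n - (y - i)) := by positivity
  have hd : |(c.xk y o' : ℤ) - c.xk y o| < 2 * ((2 ^ (y - i) : ℕ) : ℤ) := by
    refine G1.near_of_div hL ?_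
    simp only [xk] at hx ⊢
    rwa [← div_pow_le _ hi hy, ← div_pow_le _ hi hy]
  have hN : (2 : ℝ) ^ c.n = ((2 ^ (c.n - (y - i)) : ℕ) : ℝ) * ((2 ^ (y - i) : ℕ) : ℝ) := by
    push_cast
    rw [← pow_add]
    congr 1
    omega
  have hs : |(2 : ℝ) ^ c.n * ((c.y o' : ℝ) - c.y o) + (c.a o : ℝ) * ((c.x o' : ℝ) - c.x o)| <
      2 ^ c.n := by exact_mod_cast c.tube_abs ht
  have ha : (c.a o : ℝ) ≤ 2 ^ c.n := by exact_mod_cast (c.ha o).le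
  have hb := G1.nat_div (c.a o) hM
  have t1 := G1.int_div ((c.ak (y - i) o : ℤ) * (c.lq i y o o).1) hL
  have t2 := G1.int_div ((c.ak (y - i) o : ℤ) * (c.lq i y o o').1) hL
  have hQ1 : (1 : ℝ) ≤ ((2 ^ (c.n - y) : ℕ) : ℝ) := by exact_mod_cast hQ
  have hL' : (0 : ℝ) < ((2 ^ (y - i) : ℕ) : ℝ) := by exact_mod_cast hL
  have hM' : (0 : ℝ) < ((2 ^ (c.n - (y - i)) : ℕ) : ℝ) := by exact_mod_cast hM
  have hN0 : (0 : ℝ) < 2 ^ c.n := by positivity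
  have key := G1.core (α := (c.a o : ℝ) / 2 ^ c.n)
    (β := (c.ak (y - i) o : ℝ) / ((2 ^ (y - i) : ℕ) : ℝ)) (L := ((2 ^ (y - i) : ℕ) : ℝ))
    (c := 2 ^ (y - i) * (c.xk i o : ℝ))
    (t := (((c.ak (y - i) o : ℤ) * (c.lq i y o o).1 / ((2 ^ (y - i) : ℕ) : ℤ) : ℤ) : ℝ))
    (t' := (((c.ak (y - i) o : ℤ) * (c.lq i y o o').1 / ((2 ^ (y - i) : ℕ) : ℤ) : ℤ) : ℝ))
    (by positivity) ((div_le_one hN0).mpr ha) ?_ ?_ ?_ ?_ (G1.nat_div (c.x o) hQ)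
    (G1.nat_div (c.x o') hQ) (G1.nat_div (c.y o) hQ) (G1.nat_div (c.y o') hQ) ?_ ?_
  · rw [← Int.cast_le (R := ℝ)]
    simp only [ind, Int.cast_abs, Int.cast_sub, Int.cast_add]
    exact key
  · rw [hN, ← div_div]
    exact div_le_div_of_nonneg_right hb.1 hL'.le
  · rw [hN, ← div_div, ← sub_div, div_mul_cancel₀ _ hL'.ne']
    have := hb.2
    simp only [ak]
    linarith
  · exact_mod_cast hd.le
  · have e : (c.y o' : ℝ) / ((2 ^ (c.n - y) : ℕ) : ℝ) - (c.y o : ℝ) / ((2 ^ (c.n - y) : ℕ) : ℝ) +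
        (c.a o : ℝ) / 2 ^ c.n * ((c.x o' : ℝ) / ((2 ^ (c.n - y) : ℕ) : ℝ) -
          (c.x o : ℝ) / ((2 ^ (c.n - y) : ℕ) : ℝ)) =
        ((2 : ℝ) ^ c.n * ((c.y o' : ℝ) - c.y o) + (c.a o : ℝ) * ((c.x o' : ℝ) - c.x o)) /
          (2 ^ c.n * ((2 ^ (c.n - y) : ℕ) : ℝ)) := by
      field_simp
    rw [e, abs_div, abs_of_pos (by positivity : (0 : ℝ) < 2 ^ c.n * ((2 ^ (c.n - y) : ℕ) : ℝ)),
      div_le_one (by positivity)]
    nlinarith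
  · rw [div_mul_eq_mul_div]
    simp only [lq] at t1 ⊢
    exact_mod_cast t1
  · rw [div_mul_eq_mul_div]
    simp only [lq] at t2 ⊢
    exact_mod_cast t2

end Cfg

end Pool.Agent.Lib.MP_108739_an.F
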