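import Pool.Agent.Lib.MP_108739_an.F.GeoA
import Pool.Agent.Lib.MP_108739_an.F.GeoG1

/-! Double counting of slopes and far points. -/

open Finset

namespace Pool.Agent.Lib.MP_108739_an.F
open Classical

lemma geoD_card3 (T : Finset ℕ) (h : ∀ u ∈ T, ∀ v ∈ T, u ≤ v + 2) : #T ≤ 3 := by
  rcases T.eq_empty_or_nonempty with rfl | hT
  · simp
  · have : T ⊆ Icc (T.min' hT) (T.min' hT + 2) := fun u hu =>
      mem_Icc.2 ⟨T.min'_le u hu, h u hu _ (T.min'_mem hT)⟩
    refine (card_le_card this).trans ?_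
    rw [Nat.card_Icc]
    omega

lemma geoD_gap (D x x' : ℕ) (hD : 0 < D) (h : x' / D + 2 ≤ x / D) : x' + D ≤ x := by
  have f1 := Nat.div_add_mod x' D
  have g1 := Nat.mod_lt x' hD
  have f2 := Nat.mul_div_le x D
  have f3 : D * (x' / D + 2) ≤ D * (x / D) := Nat.mul_le_mul_left _ h
  rw [mul_add] at f3
  omega

lemma geoD_far (D M x x' y y' b d : ℕ) (hD : 0 < D) (hM : 0 < M) (hx : x' + D ≤ x)
    (ha : y' + (b + 2 * M + d) * x' / (D * M) = y + (b + 2 * M + d) * x / (D * M))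
    (hb : y' + b * x' / (D * M) = y + b * x / (D * M)) : False := by
  have hN : 0 < D * M := Nat.mul_pos hD hM
  have e1 := Nat.mul_div_le ((b + 2 * M + d) * x') (D * M)
  have e2 := Nat.div_add_mod ((b + 2 * M + d) * x) (D * M)
  have e3 := Nat.div_add_mod (b * x') (D * M)
  have e4 := Nat.mul_div_le (b * x) (D * M)
  have l2 := Nat.mod_lt ((b + 2 * M + d) * x) hN
  have l3 := Nat.mod_lt (b * x') hN
  have hq : (b + 2 * M + d) * x' / (D * M) + b * x / (D * M) =
      (b + 2 * M + d) * x / (D * M) + b * x' / (D * M) := by omega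
  have hq2 := congrArg (fun z => D * M * z) hq
  simp only [mul_add] at hq2
  have h3 : (2 * M + d) * (x' + D) ≤ (2 * M + d) * x := Nat.mul_le_mul_left _ hx
  have r1 : (b + 2 * M + d) * x' = b * x' + (2 * M + d) * x' := by ring
  have r2 : (b + 2 * M + d) * x = b * x + (2 * M + d) * x := by ring
  have r3 : (2 * M + d) * (x' + D) = (2 * M + d) * x' + 2 * (D * M) + d * D := by ring
  omega

lemma geoD_slope (D M x x' y y' a b : ℕ) (hD : 0 < D) (hM : 0 < M)
    (hx : (2 : ℤ) ≤ |((x' / D : ℕ) : ℤ) - ((x / D : ℕ) : ℤ)|)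
    (ha : y' + a * x' / (D * M) = y + a * x / (D * M))
    (hb : y' + b * x' / (D * M) = y + b * x / (D * M)) : a / M ≤ b / M + 2 := by
  have key : a < b + 2 * M := by
    by_contra hc
    obtain ⟨d, rfl⟩ := Nat.exists_eq_add_of_le (not_lt.1 hc)
    rcases le_abs'.1 hx with h | h
    · exact geoD_far D M x x' y y' b d hD hM (geoD_gap D x x' hD (by omega)) ha hb
    · exact geoD_far D M x' x y' y b d hD hM (geoD_gap D x' x hD (by omega)) ha.symm hb.symm
  calc a / M ≤ (b + M * 2) / M := Nat.div_le_div_right (by omega)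
    _ = b / M + 2 := Nat.add_mul_div_left _ _ hM

variable {Ω β : Type} [Fintype Ω] (c : Cfg Ω β)

omit [Fintype Ω] in
lemma geoD_pkn {o o' : Ω} (h : c.pk c.n o = c.pk c.n o') :
    c.x o = c.x o' ∧ c.y o = c.y o' ∧ c.b o = c.b o' := by
  simpa [Cfg.pk, Cfg.xk, Cfg.yk] using h

theorem geoD : GeoD := by
  intro Ω β _ c w f U ρ i y m o0 S hc hi hy hS
  set j := c.n - (i + m) with hj
  set Q := (c.sqs w i y o0).filter fun q =>
    |q.2 + ((c.lt i y o0).1 : ℤ) * q.1 / ((2 ^ (y - i) : ℕ) : ℤ) - (c.lt i y o0).2| ≤ ((8 : ℕ) : ℤ)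
    with hQ
  have hR : c.Rc w i y 8 o0 = #Q := rfl
  set W := Q.biUnion fun q => ((c.nb w i o0).filter fun o' => c.lq i y o0 o' = q).image (c.pk c.n)
    with hW
  have hWc : (#W : ℝ) ≤ #Q * (2 : ℝ) ^ (f c.n - f y + U) := by
    have h1 : (#W : ℝ) ≤ ∑ q ∈ Q,
        (#(((c.nb w i o0).filter fun o' => c.lq i y o0 o' = q).image (c.pk c.n)) : ℝ) := by
      exact_mod_cast card_biUnion_le
    refine h1.trans ((sum_le_card_nsmul _ _ _ fun q hq => ?_).trans (nsmul_eq_mul _ _).le)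
    obtain ⟨o1, ho1, rfl⟩ := mem_image.1 (mem_filter.1 hq).1
    refine le_trans ?_ (hc y c.n o1 hy le_rfl)
    have : #(((c.nb w i o0).filter fun o' => c.lq i y o0 o' = c.lq i y o0 o1).image (c.pk c.n))
        ≤ #(vals w (c.pk c.n) (c.pk y) o1) := by
      refine card_le_card fun z hz => ?_
      obtain ⟨o2, ho2, rfl⟩ := mem_image.1 hz
      obtain ⟨ho2, he⟩ := mem_filter.1 ho2
      obtain ⟨hw2, hb2, -, -⟩ := (geoA_mem c).1 ho2
      obtain ⟨-, hb1, -, -⟩ := (geoA_mem c).1 ho1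
      unfold vals
      simp only [mem_image, mem_filter, mem_univ, true_and]
      refine ⟨o2, ⟨hw2, ?_⟩, rfl⟩
      simp only [Cfg.lq, Prod.mk.injEq, sub_left_inj, Nat.cast_inj] at he
      simp only [Cfg.pk, he.1, he.2, hb1, hb2]
    exact_mod_cast this
  let r : ℕ → ℕ × ℕ × β → Prop := fun v p =>
    ∃ o ∈ S, c.ak j o = v ∧ p ∈ (c.far w i m o).image (c.pk c.n)
  have hmain : #(S.image (c.ak j)) • ρ ≤ #W • (3 : ℝ) := by
    refine card_nsmul_le_card_nsmul r (fun v hv => ?_) (fun p _ => ?_)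
    · obtain ⟨o, ho, rfl⟩ := mem_image.1 hv
      obtain ⟨hp, ha, hρ⟩ := hS o ho
      refine hρ.trans ?_
      have : #((c.far w i m o).image (c.pk c.n)) ≤ #(W.bipartiteAbove r (c.ak j o)) := by
        refine card_le_card fun p hp' => ?_
        refine (mem_bipartiteAbove r).2 ⟨?_, o, ho, rfl, hp'⟩
        obtain ⟨o', ho', rfl⟩ := mem_image.1 hp'
        obtain ⟨-, hw', ht, hx, -⟩ := mem_filter.1 ho'
        obtain ⟨g1, g2⟩ := c.G1 w hi hy hw' ht hx
        obtain ⟨ex, ey, eb⟩ := geoD_pkn c hp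
        have exk : ∀ k, c.xk k o = c.xk k o0 := fun k => by simp only [Cfg.xk, ex]
        have eyk : ∀ k, c.yk k o = c.yk k o0 := fun k => by simp only [Cfg.yk, ey]
        have hnb : o' ∈ c.nb w i o0 := by
          rw [geoA_mem] at g1 ⊢
          rwa [exk, eyk, eb] at g1
        have l1 : c.lq i y o o' = c.lq i y o0 o' := by simp only [Cfg.lq, exk]
        have l2 : c.lq i y o o = c.lq i y o0 o0 := by simp only [Cfg.lq, exk, eyk]
        rw [l1, l2, ha] at g2
        refine mem_biUnion.2 ⟨c.lq i y o0 o', mem_filter.2 ⟨mem_image_of_mem _ hnb, g2⟩, ?_⟩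
        exact mem_image_of_mem _ (mem_filter.2 ⟨hnb, rfl⟩)
      exact_mod_cast this
    · have : #((S.image (c.ak j)).bipartiteBelow r p) ≤ 3 := by
        refine geoD_card3 _ fun u hu v hv => ?_
        obtain ⟨-, o1, h1, rfl, hp1⟩ := (mem_bipartiteBelow r).1 hu
        obtain ⟨-, o2, h2, rfl, hp2⟩ := (mem_bipartiteBelow r).1 hv
        obtain ⟨o3, h3, e3⟩ := mem_image.1 hp1
        obtain ⟨o4, h4, e4⟩ := mem_image.1 hp2
        obtain ⟨-, -, t3, -, d3⟩ := mem_filter.1 h3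
        obtain ⟨-, -, t4, -, -⟩ := mem_filter.1 h4
        obtain ⟨x12, y12, -⟩ := geoD_pkn c ((hS o1 h1).1.trans (hS o2 h2).1.symm)
        obtain ⟨x34, y34, -⟩ := geoD_pkn c (e3.trans e4.symm)
        simp only [Cfg.tube, Prod.mk.injEq] at t3 t4
        have hN : 2 ^ c.n = 2 ^ j * 2 ^ (c.n - j) := by
          rw [← pow_add]
          congr 1
          omega
        refine geoD_slope (2 ^ j) (2 ^ (c.n - j)) (c.x o1) (c.x o3) (c.y o1) (c.y o3) (c.a o1)
          (c.a o2) (by positivity) (by positivity) d3 ?_ ?_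
        · rw [← hN, ← t3.2.1, t3.1]
        · rw [← hN, x12, y12, x34, y34, ← t4.2.1, t4.1]
      exact_mod_cast this
  rw [nsmul_eq_mul, nsmul_eq_mul] at hmain
  rw [hR]
  nlinarith

end Pool.Agent.Lib.MP_108739_an.F
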