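import Pool.Agent.Lib.MP_108739_an.F.HLDefs

/-! Proof of the high-low counting statement. -/

namespace Pool.Agent.Lib.MP_108739_an.F

open Finset

noncomputable section

namespace HLp

def ind (a S u : ℤ) : ℝ := if -(a * S) ≤ u ∧ u < a * S then 1 else 0

def kk (J S u : ℤ) : ℝ := ind 12 S u - 12 / (J : ℝ) * ind J S u

def ps (S x : ℝ) : ℝ := max (2 - |x| / S) 0

lemma ind_nonneg (a S u : ℤ) : 0 ≤ ind a S u := by unfold ind; split_ifs <;> norm_num

lemma ind_le (a S u : ℤ) : ind a S u ≤ 1 := by unfold ind; split_ifs <;> norm_num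

lemma ps_nonneg (S x : ℝ) : 0 ≤ ps S x := le_max_right _ _

lemma ps_le {S : ℝ} (hS : 0 < S) (x : ℝ) : ps S x ≤ 2 := by
  have : 0 ≤ |x| / S := by positivity
  exact max_le (by linarith) (by norm_num)

lemma ps_lip {S : ℝ} (hS : 0 < S) (x y : ℝ) : |ps S x - ps S y| ≤ |x - y| / S := by
  refine (abs_max_sub_max_le_abs _ _ _).trans ?_
  have h : 2 - |x| / S - (2 - |y| / S) = (|y| - |x|) / S := by ring
  rw [h, abs_div, abs_of_pos hS]
  refine div_le_div_of_nonneg_right ?_ hS.le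
  rw [abs_sub_comm x y]
  exact abs_abs_sub_abs_le_abs_sub y x

lemma ap_ind (D m a u0 : ℤ) (hD : 0 < D) (hm : 0 < m) (ha : 0 ≤ a) :
    |∑ c ∈ Icc (-(2 * (D * m))) (2 * (D * m)), ps ((D * m : ℤ) : ℝ) c * ind a (D * m) (u0 + c * D)
      - 2 * a * m * ps ((D * m : ℤ) : ℝ) (-(u0 : ℝ) / D)| ≤ 2 * a ^ 2 * m / D := by
  set t := u0 / D with ht
  have hr0 : 0 ≤ u0 % D := Int.emod_nonneg _ hD.ne'
  have hr1 : u0 % D < D := Int.emod_lt_of_pos _ hD
  have hu : D * t + u0 % D = u0 := Int.mul_ediv_add_emod u0 D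
  set P := Ico (-(a * m) - t) (a * m - t) with hP
  have hS : (0 : ℝ) < ((D * m : ℤ) : ℝ) := by exact_mod_cast mul_pos hD hm
  have hDr : (0 : ℝ) < D := by exact_mod_cast hD
  have hmr : (0 : ℝ) < m := by exact_mod_cast hm
  have har : (0 : ℝ) ≤ a := by exact_mod_cast ha
  have mem : ∀ c, c ∈ P ↔ -(a * (D * m)) ≤ u0 + c * D ∧ u0 + c * D < a * (D * m) := by
    intro c
    rw [hP, mem_Ico]
    constructor
    · rintro ⟨h1, h2⟩
      have e1 : 0 ≤ D * (c + a * m + t) := mul_nonneg hD.le (by omega)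
      have e2 : 0 ≤ D * (a * m - t - c - 1) := mul_nonneg hD.le (by omega)
      constructor <;> nlinarith
    · rintro ⟨h1, h2⟩
      constructor
      · by_contra hc
        have e1 : 0 ≤ D * (-(a * m) - t - c - 1) := mul_nonneg hD.le (by omega)
        nlinarith
      · by_contra hc
        have e1 : 0 ≤ D * (c - (a * m - t)) := mul_nonneg hD.le (by omega)
        nlinarith
  have e1 : ∑ c ∈ Icc (-(2 * (D * m))) (2 * (D * m)),
      ps ((D * m : ℤ) : ℝ) c * ind a (D * m) (u0 + c * D) = ∑ c ∈ P, ps ((D * m : ℤ) : ℝ) c := by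
    rw [sum_subset (s₂ := Icc (-(2 * (D * m))) (2 * (D * m)) ∪ P) subset_union_left,
      ← sum_subset (s₁ := P) subset_union_right]
    · refine sum_congr rfl fun c hc => ?_
      rw [ind, if_pos ((mem c).1 hc), mul_one]
    · intro c _ hc
      rw [ind, if_neg (fun h => hc ((mem c).2 h)), mul_zero]
    · intro c _ hc
      have h2 : 2 * (D * m) ≤ |c| := by
        rw [mem_Icc] at hc
        rcases abs_cases c with h | h <;> omega
      have h3 : 2 * ((D * m : ℤ) : ℝ) ≤ |(c : ℝ)| := by exact_mod_cast h2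
      have h4 : 2 ≤ |(c : ℝ)| / ((D * m : ℤ) : ℝ) := by rwa [le_div_iff₀ hS]
      rw [ps, max_eq_right (by linarith), zero_mul]
  have hc : (#P : ℝ) = 2 * a * m := by
    have h0 : 0 ≤ a * m := mul_nonneg ha hm.le
    have : (#P : ℤ) = 2 * a * m := by
      rw [hP, Int.card_Ico_of_le _ _ (by omega)]; ring
    exact_mod_cast this
  rw [e1, ← hc, ← nsmul_eq_mul, ← sum_const, ← sum_sub_distrib]
  refine (abs_sum_le_sum_abs _ _).trans ?_
  refine (sum_le_card_nsmul _ _ ((a : ℝ) / D) fun c hc => ?_).trans ?_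
  · refine (ps_lip hS _ _).trans ?_
    obtain ⟨h1, h2⟩ := (mem c).1 hc
    have h3 : |u0 + c * D| ≤ a * (D * m) := abs_le.2 ⟨h1, h2.le⟩
    have h4 : |(u0 : ℝ) + c * D| ≤ a * ((D * m : ℤ) : ℝ) := by exact_mod_cast h3
    have h5 : (c : ℝ) - -(u0 : ℝ) / D = ((u0 : ℝ) + c * D) / D := by field_simp; ring
    rw [h5, abs_div, abs_of_pos hDr, div_right_comm]
    gcongr
    rwa [div_le_iff₀ hS]
  · rw [nsmul_eq_mul, hc]
    apply le_of_eq
    ring

lemma ap_kk (D m J u0 : ℤ) (hD : 0 < D) (hm : 0 < m) (hJ : 12 ≤ J) :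
    |∑ c ∈ Icc (-(2 * (D * m))) (2 * (D * m)), ps ((D * m : ℤ) : ℝ) c * kk J (D * m) (u0 + c * D)|
      ≤ 48 * J * m / D := by
  have h1 := ap_ind D m 12 u0 hD hm (by norm_num)
  have h2 := ap_ind D m J u0 hD hm (by omega)
  have hJr : (12 : ℝ) ≤ J := by exact_mod_cast hJ
  have hDr : (0 : ℝ) < D := by exact_mod_cast hD
  have hmr : (0 : ℝ) < m := by exact_mod_cast hm
  have hJ0 : (0 : ℝ) < J := by linarith
  set A1 := ∑ c ∈ Icc (-(2 * (D * m))) (2 * (D * m)),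
    ps ((D * m : ℤ) : ℝ) c * ind 12 (D * m) (u0 + c * D)
  set A2 := ∑ c ∈ Icc (-(2 * (D * m))) (2 * (D * m)),
    ps ((D * m : ℤ) : ℝ) c * ind J (D * m) (u0 + c * D)
  set p := ps ((D * m : ℤ) : ℝ) (-(u0 : ℝ) / D)
  have e : ∑ c ∈ Icc (-(2 * (D * m))) (2 * (D * m)),
      ps ((D * m : ℤ) : ℝ) c * kk J (D * m) (u0 + c * D) =
      (A1 - 2 * ((12 : ℤ) : ℝ) * m * p) - 12 / (J : ℝ) * (A2 - 2 * J * m * p) := by
    have : A1 - 2 * ((12 : ℤ) : ℝ) * m * p - 12 / (J : ℝ) * (A2 - 2 * J * m * p) =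
        A1 - 12 / (J : ℝ) * A2 := by
      push_cast; field_simp; ring
    rw [this]
    simp only [A1, A2, kk, mul_sum, ← sum_sub_distrib]
    exact sum_congr rfl fun c _ => by ring
  rw [e]
  refine (abs_sub _ _).trans ?_
  rw [abs_mul, abs_of_pos (by positivity : (0 : ℝ) < 12 / (J : ℝ))]
  have h3 : 12 / (J : ℝ) * |A2 - 2 * J * m * p| ≤ 12 / (J : ℝ) * (2 * J ^ 2 * m / D) := by gcongr
  have h4 : 12 / (J : ℝ) * (2 * J ^ 2 * m / D) = 24 * J * (m / D) := by field_simp; ring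
  have h5 : (2 : ℝ) * ((12 : ℤ) : ℝ) ^ 2 * m / D = 288 * (m / D) := by push_cast; ring
  have h6 : (0 : ℝ) < m / D := by positivity
  have h7 : 48 * (J : ℝ) * m / D = 48 * J * (m / D) := by ring
  nlinarith

lemma sum_ind (U : Finset ℤ) (a S : ℤ) (h : 0 ≤ a * S) : ∑ u ∈ U, ind a S u ≤ 2 * a * S := by
  have h1 : ∑ u ∈ U, ind a S u = (#{u ∈ U | -(a * S) ≤ u ∧ u < a * S} : ℝ) := by
    simp [ind]
  have h2 : #{u ∈ U | -(a * S) ≤ u ∧ u < a * S} ≤ #(Ico (-(a * S)) (a * S)) :=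
    card_le_card fun u hu => mem_Ico.2 (mem_filter.1 hu).2
  have h3 : (#(Ico (-(a * S)) (a * S)) : ℤ) = 2 * a * S := by
    rw [Int.card_Ico_of_le _ _ (by omega)]; ring
  rw [h1]
  have h4 : (#{u ∈ U | -(a * S) ≤ u ∧ u < a * S} : ℤ) ≤ 2 * a * S := by omega
  exact_mod_cast h4

lemma abs_kk (J S u : ℤ) (hJ : 12 ≤ J) : |kk J S u| ≤ ind 12 S u + 12 / (J : ℝ) * ind J S u := by
  have hJr : (12 : ℝ) ≤ J := by exact_mod_cast hJ
  have h1 := ind_nonneg 12 S u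
  have h2 : 0 ≤ 12 / (J : ℝ) * ind J S u := mul_nonneg (by positivity) (ind_nonneg _ _ _)
  rw [kk, abs_le]
  constructor <;> linarith

lemma abs_kk_le (J S u : ℤ) (hJ : 12 ≤ J) : |kk J S u| ≤ 2 := by
  have hJr : (12 : ℝ) ≤ J := by exact_mod_cast hJ
  have h1 : 12 / (J : ℝ) ≤ 1 := by rw [div_le_one (by linarith)]; exact hJr
  have h2 : 12 / (J : ℝ) * ind J S u ≤ 1 * 1 :=
    mul_le_mul h1 (ind_le _ _ _) (ind_nonneg _ _ _) (by norm_num)
  linarith [abs_kk J S u hJ, ind_le 12 S u]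

lemma sum_kk (U : Finset ℤ) (J S : ℤ) (hJ : 12 ≤ J) (hS : 0 ≤ S) :
    ∑ u ∈ U, |kk J S u| ≤ 48 * S := by
  have hJr : (12 : ℝ) ≤ J := by exact_mod_cast hJ
  refine (sum_le_sum fun u _ => abs_kk J S u hJ).trans ?_
  rw [sum_add_distrib, ← mul_sum]
  have h1 := sum_ind U 12 S (by omega)
  have h2 := sum_ind U J S (mul_nonneg (by omega) hS)
  have h3 : 12 / (J : ℝ) * ∑ u ∈ U, ind J S u ≤ 12 / (J : ℝ) * (2 * J * S) := by gcongr
  have h4 : 12 / (J : ℝ) * (2 * J * S) = 24 * S := by field_simp; ring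
  push_cast at h1
  linarith

lemma kk_zero (J S u : ℤ) (hJ : 12 ≤ J) (hS : 0 ≤ S) (hu : u ∉ Ico (-(J * S)) (J * S)) :
    kk J S u = 0 := by
  rw [mem_Ico] at hu
  have h : 12 * S ≤ J * S := mul_le_mul_of_nonneg_right hJ hS
  rw [kk, ind, ind, if_neg hu, if_neg (by omega)]
  simp

lemma shift (U : Finset ℤ) (J S p : ℤ) (F : ℤ → ℝ) (hJ : 12 ≤ J) (hS : 0 ≤ S)
    (hU : ∀ v ∈ Ico (-(J * S)) (J * S), v + p ∈ U) :
    ∑ u ∈ U, kk J S (u - p) * F u = ∑ v ∈ Ico (-(J * S)) (J * S), kk J S v * F (v + p) := by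
  rw [← sum_subset (s₁ := (Ico (-(J * S)) (J * S)).image (· + p))]
  · rw [sum_image (fun a _ b _ h => by simpa using h)]
    simp
  · intro u hu
    obtain ⟨v, hv, rfl⟩ := mem_image.1 hu
    exact hU v hv
  · intro u _ hu
    rw [kk_zero J S _ hJ hS (fun h => hu (mem_image.2 ⟨u - p, h, by simp⟩)), zero_mul]

/-- the bilinear kernel -/
def TT (U : Finset ℤ) (J S : ℤ) (q q' : ℤ × ℤ) : ℝ :=
  ∑ c ∈ Icc (-(2 * S)) (2 * S), ps (S : ℝ) c *
    ∑ u ∈ U, kk J S (u - (S * q.2 + c * q.1)) * kk J S (u - (S * q'.2 + c * q'.1))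

lemma TT_symm (U : Finset ℤ) (J S : ℤ) (q q' : ℤ × ℤ) : TT U J S q q' = TT U J S q' q := by
  simp only [TT, mul_comm]

lemma TT_eq (U : Finset ℤ) (J S : ℤ) (q q' : ℤ × ℤ) (hJ : 12 ≤ J) (hS : 0 ≤ S)
    (hU : ∀ c ∈ Icc (-(2 * S)) (2 * S), ∀ v ∈ Ico (-(J * S)) (J * S),
      v + (S * q.2 + c * q.1) ∈ U) :
    TT U J S q q' = ∑ v ∈ Ico (-(J * S)) (J * S), kk J S v * ∑ c ∈ Icc (-(2 * S)) (2 * S),
      ps (S : ℝ) c * kk J S (v + S * (q.2 - q'.2) + c * (q.1 - q'.1)) := by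
  simp only [mul_sum]
  rw [sum_comm, TT]
  refine sum_congr rfl fun c hc => ?_
  rw [shift U J S _ _ hJ hS (hU c hc), mul_sum]
  refine sum_congr rfl fun v _ => ?_
  have : v + (S * q.2 + c * q.1) - (S * q'.2 + c * q'.1) =
    v + S * (q.2 - q'.2) + c * (q.1 - q'.1) := by ring
  rw [this]; ring

lemma TT_le (U : Finset ℤ) (J S : ℤ) (q q' : ℤ × ℤ) (hJ : 12 ≤ J) (hS : 0 < S)
    (hq : q'.1 ≤ q.1) (hd : q'.1 < q.1 → q.1 - q'.1 ∣ S)
    (hU : ∀ c ∈ Icc (-(2 * S)) (2 * S), ∀ v ∈ Ico (-(J * S)) (J * S),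
      v + (S * q.2 + c * q.1) ∈ U) :
    |TT U J S q q'| ≤ if |q.2 - q'.2| ≤ 2 * J + 2 * |q.1 - q'.1| then
      9216 * (J : ℝ) * S ^ 2 / (|((q.1 - q'.1 : ℤ) : ℝ)| + 1) ^ 2 else 0 := by
  rw [TT_eq U J S q q' hJ hS.le hU]
  have hJr : (12 : ℝ) ≤ J := by exact_mod_cast hJ
  have hSr : (1 : ℝ) ≤ S := by exact_mod_cast hS
  split_ifs with h
  · have key : ∀ u0 : ℤ, |∑ c ∈ Icc (-(2 * S)) (2 * S), ps (S : ℝ) c *
        kk J S (u0 + c * (q.1 - q'.1))| ≤ 192 * J * S / (|((q.1 - q'.1 : ℤ) : ℝ)| + 1) ^ 2 := by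
      intro u0
      rcases hq.eq_or_lt with h0 | h0
      · have h1 : q.1 - q'.1 = 0 := by omega
        rw [h1]
        refine (abs_sum_le_sum_abs _ _).trans ?_
        refine (sum_le_card_nsmul _ _ 4 fun c _ => ?_).trans ?_
        · rw [abs_mul, abs_of_nonneg (ps_nonneg _ _)]
          have := mul_le_mul (ps_le (by linarith : (0 : ℝ) < S) c) (abs_kk_le J S (u0 + c * 0) hJ)
            (abs_nonneg _) (by norm_num)
          linarith
        · have h3 : (#(Icc (-(2 * S)) (2 * S)) : ℤ) = 4 * S + 1 := by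
            rw [Int.card_Icc_of_le _ _ (by omega)]; ring
          have h4 : (#(Icc (-(2 * S)) (2 * S)) : ℝ) = 4 * S + 1 := by exact_mod_cast h3
          rw [nsmul_eq_mul, h4]
          norm_num
          nlinarith
      · obtain ⟨m, hm⟩ := hd h0
        set D := q.1 - q'.1 with hDd
        have hD : 0 < D := by omega
        have hm0 : 0 < m := by
          by_contra hc
          have : D * m ≤ 0 := mul_nonpos_of_nonneg_of_nonpos hD.le (by omega)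
          omega
        have hDr : (1 : ℝ) ≤ D := by exact_mod_cast hD
        have hmr : (0 : ℝ) < m := by exact_mod_cast hm0
        rw [hm]
        refine (ap_kk D m J u0 hD hm0 hJ).trans ?_
        rw [abs_of_pos (by linarith : (0 : ℝ) < D), div_le_div_iff₀ (by linarith) (by positivity)]
        push_cast
        have h5 : ((D : ℝ) + 1) ^ 2 ≤ 4 * D ^ 2 := by nlinarith
        have h6 : 48 * (J : ℝ) * m * ((D : ℝ) + 1) ^ 2 ≤ 48 * (J : ℝ) * m * (4 * D ^ 2) := by gcongr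
        nlinarith
    refine (abs_sum_le_sum_abs _ _).trans ?_
    refine (sum_le_sum (g := fun v => |kk J S v| *
      (192 * J * S / (|((q.1 - q'.1 : ℤ) : ℝ)| + 1) ^ 2)) fun v _ => ?_).trans ?_
    · rw [abs_mul]
      exact mul_le_mul_of_nonneg_left (key _) (abs_nonneg _)
    · rw [← sum_mul]
      refine (mul_le_mul_of_nonneg_right (sum_kk _ J S hJ hS.le) (by positivity)).trans ?_
      apply le_of_eq
      ring
  · rw [sum_eq_zero, abs_zero]
    intro v hv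
    rw [sum_eq_zero, mul_zero]
    intro c hc
    rw [kk_zero J S _ hJ hS.le, mul_zero]
    rw [mem_Ico] at hv ⊢
    rw [mem_Icc] at hc
    rw [abs_of_nonneg (by omega : 0 ≤ q.1 - q'.1)] at h
    set D := q.1 - q'.1
    have hD : 0 ≤ D := by omega
    have e1 : 0 ≤ (c + 2 * S) * D := mul_nonneg (by omega) hD
    have e2 : 0 ≤ (2 * S - c) * D := mul_nonneg (by omega) hD
    rintro ⟨h1, h2⟩
    rcases abs_cases (q.2 - q'.2) with h3 | h3
    · have e3 : 0 ≤ S * (q.2 - q'.2 - (2 * J + 2 * D) - 1) := mul_nonneg hS.le (by omega)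
      nlinarith
    · have e3 : 0 ≤ S * (-(q.2 - q'.2) - (2 * J + 2 * D) - 1) := mul_nonneg hS.le (by omega)
      nlinarith

lemma sum_inv (N : ℕ) (X : Finset ℤ) (x0 : ℤ) (hX : ∀ x ∈ X, |x0 - x| < N) :
    ∑ x ∈ X, 1 / (|((x0 - x : ℤ) : ℝ)| + 1) ≤ 2 * (1 + Real.log N) := by
  have hm : ∀ x ∈ X, (x0 - x).natAbs ∈ range N := by
    intro x hx
    have := hX x hx
    rw [mem_range]
    rw [← Int.natCast_natAbs] at this
    exact_mod_cast this
  rw [← sum_fiberwise_of_maps_to hm]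
  have h1 : ∑ d ∈ range N, ∑ x ∈ X with (x0 - x).natAbs = d, 1 / (|((x0 - x : ℤ) : ℝ)| + 1) ≤
      ∑ d ∈ range N, 2 * (1 / ((d : ℝ) + 1)) := by
    refine sum_le_sum fun d _ => ?_
    refine (sum_le_card_nsmul _ _ (1 / ((d : ℝ) + 1)) fun x hx => ?_).trans ?_
    · have h2 := (mem_filter.1 hx).2
      have h3 : |((x0 - x : ℤ) : ℝ)| = d := by
        rw [← h2, ← Int.cast_abs, ← Int.natCast_natAbs]; simp
      rw [h3]
    · rw [nsmul_eq_mul]
      gcongr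
      have h2 : #{x ∈ X | (x0 - x).natAbs = d} ≤ #({x0 - d, x0 + d} : Finset ℤ) := by
        refine card_le_card fun x hx => ?_
        have h2 := (mem_filter.1 hx).2
        simp only [mem_insert, mem_singleton]
        omega
      exact_mod_cast h2.trans card_le_two
  refine h1.trans ?_
  rw [← mul_sum]
  gcongr
  have h2 := harmonic_le_one_add_log N
  have h3 : ((harmonic N : ℚ) : ℝ) = ∑ d ∈ range N, 1 / ((d : ℝ) + 1) := by
    simp [harmonic]
  linarith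

lemma row (L : ℕ) (J : ℤ) (B : ℝ) (A : Finset (ℤ × ℤ)) (q : ℤ × ℤ) (hJ : 0 ≤ J) (hB : 0 ≤ B)
    (hq : -(L : ℤ) ≤ q.1 ∧ q.1 < 2 * (L : ℤ)) (hA : ∀ q ∈ A, -(L : ℤ) ≤ q.1 ∧ q.1 < 2 * (L : ℤ)) :
    ∑ q' ∈ A, (if |q.2 - q'.2| ≤ 2 * J + 2 * |q.1 - q'.1| then
      B / (|((q.1 - q'.1 : ℤ) : ℝ)| + 1) ^ 2 else 0) ≤
      (4 * J + 4) * B * (2 * (1 + Real.log ((3 * L : ℕ) : ℝ))) := by
  have hJr : (0 : ℝ) ≤ J := by exact_mod_cast hJ
  have hm : ∀ q' ∈ A, q'.1 ∈ Ico (-(L : ℤ)) (2 * L) := fun q' h => mem_Ico.2 (hA q' h)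
  rw [← sum_fiberwise_of_maps_to hm]
  refine le_trans ?_ (mul_le_mul_of_nonneg_left (sum_inv (3 * L) (Ico (-(L : ℤ)) (2 * L)) q.1
    fun x hx => ?_) (by positivity))
  · rw [mul_sum]
    refine sum_le_sum fun x _ => ?_
    rw [← sum_filter, filter_filter]
    refine (sum_le_card_nsmul _ _ (B / (|((q.1 - x : ℤ) : ℝ)| + 1) ^ 2) fun q' hq' => ?_).trans ?_
    · rw [(mem_filter.1 hq').2.1]
    · have h0 : 0 ≤ |q.1 - x| := abs_nonneg _
      have h1 : #{q' ∈ A | q'.1 = x ∧ |q.2 - q'.2| ≤ 2 * J + 2 * |q.1 - q'.1|} ≤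
          #(Icc (q.2 - (2 * J + 2 * |q.1 - x|)) (q.2 + (2 * J + 2 * |q.1 - x|))) := by
        refine card_le_card_of_injOn (fun q' => q'.2) (fun q' hq' => ?_) fun a ha b hb hab => ?_
        · obtain ⟨_, h2, h3⟩ := mem_filter.1 (mem_coe.1 hq')
          rw [h2, abs_le] at h3
          simp only [coe_Icc, Set.mem_Icc]
          omega
        · exact Prod.ext ((mem_filter.1 (mem_coe.1 ha)).2.1.trans
            (mem_filter.1 (mem_coe.1 hb)).2.1.symm) hab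
      have h2 : (#(Icc (q.2 - (2 * J + 2 * |q.1 - x|)) (q.2 + (2 * J + 2 * |q.1 - x|))) : ℤ) =
          4 * J + 4 * |q.1 - x| + 1 := by
        rw [Int.card_Icc_of_le _ _ (by omega)]; ring
      have h3 : (#{q' ∈ A | q'.1 = x ∧ |q.2 - q'.2| ≤ 2 * J + 2 * |q.1 - q'.1|} : ℤ) ≤
          4 * J + 4 * |q.1 - x| + 1 := by omega
      have h4 : (#{q' ∈ A | q'.1 = x ∧ |q.2 - q'.2| ≤ 2 * J + 2 * |q.1 - q'.1|} : ℝ) ≤
          4 * J + 4 * |((q.1 - x : ℤ) : ℝ)| + 1 := by exact_mod_cast h3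
      rw [nsmul_eq_mul]
      set d := |((q.1 - x : ℤ) : ℝ)|
      have hd : 0 ≤ d := abs_nonneg _
      have h5 : 4 * J + 4 * d + 1 ≤ (4 * J + 4) * (d + 1) := by nlinarith
      refine (mul_le_mul_of_nonneg_right (h4.trans h5) (by positivity)).trans (le_of_eq ?_)
      field_simp
  · rw [mem_Ico] at hx
    push_cast
    rw [abs_lt]
    omega

lemma low (L K : ℕ) (m : ℤ) (A : Finset (ℤ × ℤ)) (s : ℕ × ℤ) (i j : ℤ) (hL : 1 ≤ L) (hK : 16 ≤ K)
    (hA : ∀ q ∈ A, -(L : ℤ) ≤ q.1 ∧ q.1 < 2 * (L : ℤ))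
    (hs : 100 * hlR L A K s ≤ K * hlR L A 8 s) (hi : 0 ≤ i ∧ i < m) (hj : 0 ≤ j ∧ j < L * m) :
    (hlR L A 8 s : ℝ) / 2 ≤ ∑ q ∈ A, kk ((K : ℤ) - 4) (L * m)
      (s.2 * (L * m) + j - (L * m * q.2 + (s.1 * m + i) * q.1)) := by
  have hL0 : (0 : ℤ) < L := by omega
  have hm : 0 < m := by omega
  have hS : 0 < (L : ℤ) * m := mul_pos hL0 hm
  have geo : ∀ q ∈ A, ∃ e : ℤ, -(3 * (L * m)) ≤ e ∧ e ≤ 2 * (L * m) ∧
      s.2 * (L * m) + j - (L * m * q.2 + (s.1 * m + i) * q.1) =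
        e - L * m * (q.2 + (s.1 : ℤ) * q.1 / (L : ℤ) - s.2) := by
    intro q hq
    obtain ⟨h1, h2⟩ := hA q hq
    have hr0 : 0 ≤ (s.1 : ℤ) * q.1 % L := Int.emod_nonneg _ hL0.ne'
    have hr1 : (s.1 : ℤ) * q.1 % L < L := Int.emod_lt_of_pos _ hL0
    have hu : (L : ℤ) * ((s.1 : ℤ) * q.1 / L) + (s.1 : ℤ) * q.1 % L = s.1 * q.1 :=
      Int.mul_ediv_add_emod _ _
    have e1 : 0 ≤ i * (q.1 + L) := mul_nonneg hi.1 (by omega)
    have e2 : 0 ≤ i * (2 * L - q.1) := mul_nonneg hi.1 (by omega)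
    have e3 : 0 ≤ (m - i) * L := mul_nonneg (by omega) hL0.le
    have e4 : 0 ≤ m * ((s.1 : ℤ) * q.1 % L) := mul_nonneg hm.le hr0
    have e5 : 0 ≤ m * (L - (s.1 : ℤ) * q.1 % L) := mul_nonneg hm.le (by omega)
    refine ⟨j - i * q.1 - m * ((s.1 : ℤ) * q.1 % L), by nlinarith, by nlinarith, ?_⟩
    linear_combination m * hu
  simp only [kk, sum_sub_distrib, ← mul_sum]
  have h1 : (hlR L A 8 s : ℝ) ≤ ∑ q ∈ A, ind 12 (L * m)
      (s.2 * (L * m) + j - (L * m * q.2 + (s.1 * m + i) * q.1)) := by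
    rw [hlR, card_filter]
    push_cast
    refine sum_le_sum fun q hq => ?_
    split_ifs with h
    · obtain ⟨e, he1, he2, he⟩ := geo q hq
      rw [he, ind, if_pos]
      rw [abs_le] at h
      set d := q.2 + (s.1 : ℤ) * q.1 / (L : ℤ) - s.2
      have e1 : 0 ≤ L * m * (d + 8) := mul_nonneg hS.le (by omega)
      have e2 : 0 ≤ L * m * (8 - d) := mul_nonneg hS.le (by omega)
      constructor <;> nlinarith
    · exact ind_nonneg _ _ _
  have h2 : ∑ q ∈ A, ind ((K : ℤ) - 4) (L * m)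
      (s.2 * (L * m) + j - (L * m * q.2 + (s.1 * m + i) * q.1)) ≤ (hlR L A K s : ℝ) := by
    rw [hlR, card_filter]
    push_cast
    refine sum_le_sum fun q hq => ?_
    split_ifs with h
    · exact ind_le _ _ _
    · obtain ⟨e, he1, he2, he⟩ := geo q hq
      rw [he, ind, if_neg]
      set d := q.2 + (s.1 : ℤ) * q.1 / (L : ℤ) - s.2
      rintro ⟨h3, h4⟩
      rcases abs_cases d with h5 | h5
      · have e1 : 0 ≤ L * m * (d - K - 1) := mul_nonneg hS.le (by omega)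
        nlinarith
      · have e1 : 0 ≤ L * m * (-d - K - 1) := mul_nonneg hS.le (by omega)
        nlinarith
  have hKr : (16 : ℝ) ≤ K := by exact_mod_cast hK
  have h3 : (100 : ℝ) * hlR L A K s ≤ K * hlR L A 8 s := by exact_mod_cast hs
  have h4 : (0 : ℝ) ≤ hlR L A 8 s := by positivity
  have h5 : 12 / (((K : ℤ) - 4 : ℤ) : ℝ) * ∑ q ∈ A, ind ((K : ℤ) - 4) (L * m)
      (s.2 * (L * m) + j - (L * m * q.2 + (s.1 * m + i) * q.1)) ≤ (hlR L A 8 s : ℝ) / 2 := by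
    push_cast at h2 ⊢
    rw [div_mul_eq_mul_div, div_le_iff₀ (by linarith)]
    nlinarith
  linarith

end HLp

open HLp in
theorem hl : HLStmt := by
  refine ⟨1179648, by norm_num, fun L K A Sf hL hK hA hS => ?_⟩
  obtain ⟨m, hmd⟩ : ∃ m : ℤ, m = Nat.cast (3 * L).factorial := ⟨_, rfl⟩
  have hm : 0 < m := by rw [hmd]; exact_mod_cast Nat.factorial_pos _
  have hL0 : (0 : ℤ) < L := by omega
  set S : ℤ := L * m with hSd
  have hS0 : 0 < S := mul_pos hL0 hm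
  set J : ℤ := (K : ℤ) - 4 with hJd
  have hJ : 12 ≤ J := by omega
  set Ix := Sf ×ˢ (Ico 0 m ×ˢ Ico 0 S) with hIx
  set φ : (ℕ × ℤ) × ℤ × ℤ → ℤ × ℤ := fun z => (z.1.1 * m + z.2.1, z.1.2 * S + z.2.2) with hφ
  set U : Finset ℤ := Ix.image (fun z => (φ z).2) ∪
    ((Icc (-(2 * S)) (2 * S) ×ˢ A) ×ˢ Ico (-(J * S)) (J * S)).image
      fun z => z.2 + (S * z.1.2.2 + z.1.1 * z.1.2.1) with hU
  have hUq : ∀ q ∈ A, ∀ c ∈ Icc (-(2 * S)) (2 * S), ∀ v ∈ Ico (-(J * S)) (J * S),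
      v + (S * q.2 + c * q.1) ∈ U := fun q hq c hc v hv =>
    mem_union_right _ (mem_image.2 ⟨((c, q), v), mem_product.2 ⟨mem_product.2 ⟨hc, hq⟩, hv⟩, rfl⟩)
  set G : ℤ × ℤ → ℝ := fun z => ps (S : ℝ) z.1 *
    (∑ q ∈ A, kk J S (z.2 - (S * q.2 + z.1 * q.1))) ^ 2 with hG
  have hG0 : ∀ z, 0 ≤ G z := fun z => mul_nonneg (ps_nonneg _ _) (sq_nonneg _)
  have hSr : (0 : ℝ) < S := by exact_mod_cast hS0
  have hmr : (0 : ℝ) < m := by exact_mod_cast hm
  have hc : ∀ z ∈ Ix, 0 ≤ (φ z).1 ∧ (φ z).1 ≤ S := by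
    intro z hz
    obtain ⟨h1, h2⟩ := mem_product.1 hz
    obtain ⟨h2, _⟩ := mem_product.1 h2
    rw [mem_Ico] at h2
    have h3 : (z.1.1 : ℤ) + 1 ≤ L := by exact_mod_cast (hS _ h1).1
    have e1 : 0 ≤ (z.1.1 : ℤ) * m := mul_nonneg (by omega) hm.le
    have e2 : 0 ≤ ((L : ℤ) - z.1.1 - 1) * m := mul_nonneg (by omega) hm.le
    simp only [hφ]
    constructor <;> nlinarith
  have inj : Set.InjOn φ Ix := by
    intro z hz z' hz' h
    obtain ⟨_, h2⟩ := mem_product.1 (mem_coe.1 hz)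
    obtain ⟨h2, h3⟩ := mem_product.1 h2
    obtain ⟨_, h2'⟩ := mem_product.1 (mem_coe.1 hz')
    obtain ⟨h2', h3'⟩ := mem_product.1 h2'
    rw [mem_Ico] at h2 h3 h2' h3'
    simp only [hφ, Prod.mk.injEq] at h
    have uq : ∀ a a' r r' M : ℤ, 0 ≤ r ∧ r < M → 0 ≤ r' ∧ r' < M → a * M + r = a' * M + r' →
        a = a' := by
      intro a a' r r' M h1 h2 h3
      by_contra hne
      rcases lt_or_gt_of_ne hne with h | h
      · have : 0 ≤ (a' - a - 1) * M := mul_nonneg (by omega) (by omega)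
        nlinarith
      · have : 0 ≤ (a - a' - 1) * M := mul_nonneg (by omega) (by omega)
        nlinarith
    have a1 := uq _ _ _ _ _ h2 h2' h.1
    have a2 := uq _ _ _ _ _ h3 h3' h.2
    obtain ⟨b1, b2⟩ := h
    rw [a1] at b1
    rw [a2] at b2
    exact Prod.ext (Prod.ext (by exact_mod_cast a1) a2) (Prod.ext (by omega) (by omega))
  have l1 : (m : ℝ) * S / 4 * ∑ s ∈ Sf, (hlR L A 8 s : ℝ) ^ 2 ≤ ∑ z ∈ Ix, G (φ z) := by
    rw [hIx, sum_product, mul_sum]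
    refine sum_le_sum fun s hs => ?_
    refine le_trans (le_of_eq ?_) (card_nsmul_le_sum _ _ (((hlR L A 8 s : ℝ) / 2) ^ 2)
      fun y hy => ?_)
    · have c1 : (#(Ico 0 m) : ℝ) = m := by
        have : (#(Ico 0 m) : ℤ) = m := by rw [Int.card_Ico_of_le _ _ hm.le]; ring
        exact_mod_cast this
      have c2 : (#(Ico 0 S) : ℝ) = S := by
        have : (#(Ico 0 S) : ℤ) = S := by rw [Int.card_Ico_of_le _ _ hS0.le]; ring
        exact_mod_cast this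
      rw [nsmul_eq_mul, card_product, Nat.cast_mul, c1, c2]
      ring
    · obtain ⟨c1, c2⟩ := hc (s, y) (mem_product.2 ⟨hs, hy⟩)
      obtain ⟨h2, h3⟩ := mem_product.1 hy
      rw [mem_Ico] at h2 h3
      have h4 := low L K m A s y.1 y.2 hL hK hA (hS s hs).2 h2 h3
      have h5 : 1 ≤ ps (S : ℝ) ((φ (s, y)).1 : ℤ) := by
        refine le_max_of_le_left ?_
        have c3 : |(((φ (s, y)).1 : ℤ) : ℝ)| ≤ S := by
          rw [← Int.cast_abs, abs_of_nonneg c1]; exact_mod_cast c2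
        have := (div_le_one hSr).2 c3
        linarith
      have h6 := pow_le_pow_left₀ (by positivity) h4 2
      refine h6.trans ?_
      exact le_mul_of_one_le_left (sq_nonneg _) h5
  have l2 : ∑ z ∈ Ix, G (φ z) ≤ ∑ z ∈ Icc (-(2 * S)) (2 * S) ×ˢ U, G z := by
    rw [← sum_image inj]
    refine sum_le_sum_of_subset_of_nonneg (fun y hy => ?_) fun y _ _ => hG0 y
    obtain ⟨z, hz, rfl⟩ := mem_image.1 hy
    obtain ⟨c1, c2⟩ := hc z hz
    exact mem_product.2 ⟨mem_Icc.2 ⟨by omega, by omega⟩,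
      mem_union_left _ (mem_image.2 ⟨z, hz, rfl⟩)⟩
  have l3 : ∑ z ∈ Icc (-(2 * S)) (2 * S) ×ˢ U, G z = ∑ q ∈ A, ∑ q' ∈ A, TT U J S q q' := by
    have a1 : ∀ z : ℤ × ℤ, G z = ∑ q ∈ A, ∑ q' ∈ A, ps (S : ℝ) z.1 *
        (kk J S (z.2 - (S * q.2 + z.1 * q.1)) * kk J S (z.2 - (S * q'.2 + z.1 * q'.1))) := by
      intro z
      simp only [hG]
      rw [sq, sum_mul_sum]
      simp only [mul_sum]
    rw [sum_congr rfl fun z _ => a1 z, sum_comm]
    refine sum_congr rfl fun q _ => ?_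
    rw [sum_comm]
    refine sum_congr rfl fun q' _ => ?_
    rw [sum_product, TT]
    simp only [mul_sum]
  have hJr : (12 : ℝ) ≤ J := by exact_mod_cast hJ
  have dv : ∀ q ∈ A, ∀ q' ∈ A, q'.1 < q.1 → q.1 - q'.1 ∣ S := by
    intro q hq q' hq' h
    have h1 := hA q hq
    have h2 := hA q' hq'
    have h3 : (q.1 - q'.1).toNat ∣ (3 * L).factorial := Nat.dvd_factorial (by omega) (by omega)
    have h4 : (((q.1 - q'.1).toNat : ℕ) : ℤ) ∣ m := hmd ▸ Int.natCast_dvd_natCast.2 h3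
    rw [Int.toNat_of_nonneg (by omega)] at h4
    exact h4.mul_left _
  have l4 : ∑ q ∈ A, ∑ q' ∈ A, TT U J S q q' ≤
      #A * ((4 * J + 4) * (9216 * (J : ℝ) * S ^ 2) * (2 * (1 + Real.log ((3 * L : ℕ) : ℝ)))) := by
    rw [← nsmul_eq_mul]
    refine sum_le_card_nsmul _ _ _ fun q hq => ?_
    refine le_trans (sum_le_sum fun q' hq' => ?_)
      (row L J _ A q (by omega) (by positivity) (hA q hq) hA)
    refine (le_abs_self _).trans ?_
    rcases le_total q'.1 q.1 with h | h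
    · exact TT_le U J S q q' hJ hS0 h (dv q hq q' hq') (hUq q hq)
    · have := TT_le U J S q' q hJ hS0 h (dv q' hq' q hq) (hUq q' hq')
      rw [TT_symm, abs_sub_comm q.2, abs_sub_comm q.1, ← Int.cast_abs, abs_sub_comm q.1,
        Int.cast_abs]
      exact this
  have hLr : (1 : ℝ) ≤ L := by exact_mod_cast hL
  have hKr : (16 : ℝ) ≤ K := by exact_mod_cast hK
  have g1 : 1 + Real.log ((3 * L : ℕ) : ℝ) ≤ 4 * Real.log (2 * L) := by
    have a1 : Real.log 2 ≤ Real.log (2 * L) := Real.log_le_log (by norm_num) (by linarith)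
    have a2 : Real.log ((3 * L : ℕ) : ℝ) ≤ Real.log (2 * (2 * L)) :=
      Real.log_le_log (by push_cast; linarith) (by push_cast; linarith)
    rw [Real.log_mul (by norm_num) (by positivity)] at a2
    linarith [Real.log_two_gt_d9]
  have g0 : 0 ≤ Real.log (2 * L) := Real.log_nonneg (by linarith)
  have hJK : (J : ℝ) = K - 4 := by rw [hJd]; push_cast; ring
  have hSL : (S : ℝ) = L * m := by rw [hSd]; push_cast; ring
  have l5 : (#A : ℝ) * ((4 * J + 4) * (9216 * (J : ℝ) * S ^ 2) *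
      (2 * (1 + Real.log ((3 * L : ℕ) : ℝ)))) ≤
      #A * ((4 * K) * (9216 * (K : ℝ) ^ 2 * S ^ 2) * (2 * (4 * Real.log (2 * L)))) := by
    have a0 : 0 ≤ 1 + Real.log ((3 * L : ℕ) : ℝ) := by positivity
    gcongr
    · linarith
    · nlinarith
  have l6 := (l1.trans l2).trans (l3.le.trans (l4.trans l5))
  have hp : (0 : ℝ) < (m : ℝ) * S / 4 := by positivity
  refine le_of_mul_le_mul_left (l6.trans (le_of_eq ?_)) hp
  rw [hSL]
  ring

end

end Pool.Agent.Lib.MP_108739_an.F
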