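import Pool.Agent.Lib.MP_108739_an.F.TDefs

/-! The one-scale lemma: few support points on a typical tube when the covering numbers grow
slowly from the fine end. -/

open Finset

namespace Pool.Agent.Lib.MP_108739_an.F

noncomputable section
open Classical

namespace L1

section gen
variable {Ω α β : Type} [Fintype Ω]

lemma ms_nonneg {w : Ω → ℝ} (hw : Nn w) (F : Ω → α) (o : Ω) : 0 ≤ ms w F o :=
  sum_nonneg fun o' _ => by split_ifs; exacts [hw o', le_rfl]

lemma le_ms {w : Ω → ℝ} (hw : Nn w) (F : Ω → α) (o : Ω) : w o ≤ ms w F o := by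
  have := single_le_sum (f := fun o' => if F o' = F o then w o' else 0) (s := univ)
    (fun o' _ => by split_ifs; exacts [hw o', le_rfl]) (mem_univ o)
  simpa [ms] using this

lemma sum_div_le {w : Ω → ℝ} (hw : Nn w) (F : Ω → α) (A : Ω → Prop) (V : Finset α)
    (h : ∀ o, A o → 0 < w o → F o ∈ V) :
    ∑ o, (if A o then w o / ms w F o else 0) ≤ (#V : ℝ) := by
  have h1 : ∀ o, (if A o then w o / ms w F o else 0) ≤
      ∑ v ∈ V, (if F o = v then w o else 0) / ∑ o', if F o' = v then w o' else 0 := by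
    intro o
    have hnn : ∀ v ∈ V, 0 ≤ (if F o = v then w o else 0) / ∑ o', if F o' = v then w o' else 0 :=
      fun v _ => div_nonneg (by split_ifs; exacts [hw o, le_rfl])
        (sum_nonneg fun o' _ => by split_ifs; exacts [hw o', le_rfl])
    split_ifs with hA
    · rcases (hw o).eq_or_lt with h0 | h0
      · rw [← h0, zero_div]; rw [← h0] at hnn; exact sum_nonneg hnn
      · have := single_le_sum hnn (h o hA h0)
        simpa [ms] using this
    · exact sum_nonneg hnn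
  calc _ ≤ ∑ o, ∑ v ∈ V, (if F o = v then w o else 0) / ∑ o', if F o' = v then w o' else 0 :=
        sum_le_sum fun o _ => h1 o
    _ = ∑ v ∈ V, (∑ o, if F o = v then w o else 0) / ∑ o', if F o' = v then w o' else 0 := by
        rw [sum_comm]; exact sum_congr rfl fun v _ => by rw [sum_div]
    _ ≤ ∑ v ∈ V, (1 : ℝ) := sum_le_sum fun v _ => div_self_le_one _
    _ = _ := by simp

lemma lg_le {x : ℝ} (hx : 0 < x) : lg x ≤ (x - 1) / Real.log 2 :=
  div_le_div_of_nonneg_right (Real.log_le_sub_one_of_pos hx) (Real.log_pos one_lt_two).le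

lemma E_lg_le {w r : Ω → ℝ} (hw : Nn w) (hr : ∀ o, 0 < w o → 0 < r o) (hE : E w r ≤ tot w) :
    E w (fun o => lg (r o)) ≤ 0 := by
  have h1 : E w (fun o => lg (r o)) ≤ ∑ o, (w o * r o - w o) / Real.log 2 := by
    refine sum_le_sum fun o _ => ?_
    rcases (hw o).eq_or_lt with h0 | h0
    · simp [← h0]
    · have := mul_le_mul_of_nonneg_left (lg_le (hr o h0)) h0.le
      calc _ ≤ _ := this
        _ = _ := by ring
  rw [← sum_div, sum_sub_distrib] at h1
  exact h1.trans (div_nonpos_of_nonpos_of_nonneg (sub_nonpos.2 hE) (Real.log_pos one_lt_two).le)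

lemma mem_vals {w : Ω → ℝ} {f : Ω → α} {g : Ω → β} {o : Ω} {v : α} :
    v ∈ vals w f g o ↔ ∃ o', 0 < w o' ∧ g o' = g o ∧ f o' = v := by
  simp [vals, and_assoc]

lemma vals_pos {w : Ω → ℝ} (f : Ω → α) (g : Ω → β) {o : Ω} (h0 : 0 < w o) :
    (0 : ℝ) < #(vals w f g o) := by
  have : f o ∈ vals w f g o := mem_image.2 ⟨o, by simp [h0], rfl⟩
  exact_mod_cast card_pos.2 ⟨_, this⟩

lemma H_le_vals {w : Ω → ℝ} (hw : Nn w) (f : Ω → α) (g : Ω → β) :
    H w f g ≤ E w fun o => lg (#(vals w f g o)) := by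
  have key := E_lg_le (w := w)
    (r := fun o => ms w g o / ms w (pr f g) o / #(vals w f g o)) hw
    (fun o h0 => div_pos (div_pos (h0.trans_le (le_ms hw _ _)) (h0.trans_le (le_ms hw _ _)))
      (vals_pos f g h0)) (by
      have h1 : E w (fun o => ms w g o / ms w (pr f g) o / #(vals w f g o)) =
          ∑ o', w o' * ((∑ o, if g o = g o' then w o / ms w (pr f g) o else 0) /
            #(vals w f g o')) := by
        simp only [E, sum_div, mul_sum]
        rw [sum_comm]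
        refine sum_congr rfl fun o _ => ?_
        rw [ms, sum_div, sum_div, mul_sum]
        refine sum_congr rfl fun o' _ => ?_
        by_cases hg : g o' = g o
        · have hv : vals w f g o' = vals w f g o := by simp only [vals, hg]
          rw [if_pos hg, if_pos hg.symm, hv]; ring
        · rw [if_neg hg, if_neg fun h => hg h.symm]; simp
      rw [h1]
      refine sum_le_sum fun o' _ => ?_
      refine mul_le_of_le_one_right (hw o') (div_le_one_of_le₀ ?_ (by positivity))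
      refine (sum_div_le hw (pr f g) (fun o => g o = g o')
        ((vals w f g o').image fun v => (v, g o')) ?_).trans ?_
      · intro o hg h0
        exact mem_image.2 ⟨f o, mem_image.2 ⟨o, by simp [h0, hg], rfl⟩, by simp [pr, hg]⟩
      · exact_mod_cast card_image_le)
  have h2 : H w f g = E w (fun o => lg (ms w g o / ms w (pr f g) o / #(vals w f g o))) +
      E w fun o => lg (#(vals w f g o)) := by
    simp only [H, E, ← sum_add_distrib]
    refine sum_congr rfl fun o _ => ?_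
    rcases (hw o).eq_or_lt with h0 | h0
    · simp [← h0]
    · have ha : 0 < ms w g o / ms w (pr f g) o :=
        div_pos (h0.trans_le (le_ms hw _ _)) (h0.trans_le (le_ms hw _ _))
      have hb := vals_pos f g h0
      simp only [lg]
      rw [Real.logb_div ha.ne' hb.ne']; ring
  linarith

end gen

lemma div_near {x x' m t : ℕ} (hm : 0 < m) (h : x' ≤ x + t * m) : x' / m ≤ x / m + t := by
  rw [← Nat.add_mul_div_right x t hm]; exact Nat.div_le_div_right h

lemma on_int {N a x x' y y' : ℕ} (hN : 0 < N) (h : y + a * x / N = y' + a * x' / N) :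
    |(a : ℤ) * ((x : ℤ) - x') - N * ((y' : ℤ) - y)| < N := by
  have h1 := Nat.div_add_mod (a * x) N
  have h2 := Nat.div_add_mod (a * x') N
  have h3 := Nat.mod_lt (a * x) hN
  have h4 := Nat.mod_lt (a * x') hN
  generalize a * x / N = u at *
  generalize a * x' / N = u' at *
  generalize a * x % N = r at *
  generalize a * x' % N = r' at *
  zify at h h1 h2 h3 h4
  have : (a : ℤ) * ((x : ℤ) - x') - N * ((y' : ℤ) - y) = r - r' := by
    have h5 : (y' : ℤ) - y = u - u' := by linarith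
    rw [h5]; linarith
  rw [this, abs_lt]; constructor <;> omega

section cfg
variable {Ω β : Type} [Fintype Ω] (c : Cfg Ω β)

def Near (j : ℕ) (q q' : ℕ × ℕ × β) : Prop :=
  q'.2.2 = q.2.2 ∧ |(q.1 : ℤ) - q'.1| ≤ 2 ^ j ∧ |(q.2.1 : ℤ) - q'.2.1| ≤ 2 ^ j ∧
    (j = 0 ∨ (2 : ℤ) ^ j ≤ 2 * |(q.1 : ℤ) - q'.1|)

def On (o : Ω) (q' : ℕ × ℕ × β) : Prop :=
  c.y o + c.a o * c.x o / 2 ^ c.n = q'.2.1 + c.a o * q'.1 / 2 ^ c.n

def supp (w : Ω → ℝ) : Finset (ℕ × ℕ × β) := (univ.filter fun o => 0 < w o).image (c.pk c.n)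

omit [Fintype Ω] in
lemma pk_n (o : Ω) : c.pk c.n o = (c.x o, c.y o, c.b o) := by simp [Cfg.pk, Cfg.xk, Cfg.yk]

lemma count {w : Ω → ℝ} {f : ℕ → ℝ} {U : ℝ} (hC : c.Cov w f U) {j : ℕ} (hj : j ≤ c.n)
    (q : ℕ × ℕ × β) :
    (#((supp c w).filter (Near j q)) : ℝ) ≤ 9 * (2 : ℝ) ^ (f c.n - f (c.n - j) + U) := by
  set T : Finset (ℕ × ℕ) := Icc (q.1 / 2 ^ j - 1) (q.1 / 2 ^ j + 1) ×ˢ
    Icc (q.2.1 / 2 ^ j - 1) (q.2.1 / 2 ^ j + 1) with hT
  have hm : 0 < 2 ^ j := by positivity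
  have hmap : ∀ q' ∈ (supp c w).filter (Near j q), (q'.1 / 2 ^ j, q'.2.1 / 2 ^ j) ∈ T := by
    intro q' hq'
    obtain ⟨-, h1, h2, -⟩ := (mem_filter.1 hq').2
    rw [abs_le] at h1 h2
    have e : ((2 ^ j : ℕ) : ℤ) = 2 ^ j := by push_cast; rfl
    have a1 := div_near (x := q.1) (x' := q'.1) (t := 1) hm (by omega)
    have a2 := div_near (x := q'.1) (x' := q.1) (t := 1) hm (by omega)
    have a3 := div_near (x := q.2.1) (x' := q'.2.1) (t := 1) hm (by omega)
    have a4 := div_near (x := q'.2.1) (x' := q.2.1) (t := 1) hm (by omega)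
    simp only [hT, mem_product, mem_Icc]
    exact ⟨⟨Nat.sub_le_iff_le_add.2 a2, a1⟩, Nat.sub_le_iff_le_add.2 a4, a3⟩
  have hcard : #T ≤ 9 := by
    have h3 : ∀ u : ℕ, #(Icc (u - 1) (u + 1)) ≤ 3 := fun u => by rw [Nat.card_Icc]; omega
    rw [hT, card_product]
    exact Nat.mul_le_mul (h3 _) (h3 _)
  rw [card_eq_sum_card_fiberwise hmap]
  push_cast
  have hB : (0 : ℝ) ≤ (2 : ℝ) ^ (f c.n - f (c.n - j) + U) := by positivity
  refine (sum_le_card_nsmul _ _ ((2 : ℝ) ^ (f c.n - f (c.n - j) + U)) ?_).trans ?_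
  · intro t _
    rcases (((supp c w).filter (Near j q)).filter
      fun q' => (q'.1 / 2 ^ j, q'.2.1 / 2 ^ j) = t).eq_empty_or_nonempty with he | ⟨q1, hq1⟩
    · rw [he]; simpa using hB
    · obtain ⟨hq1, ht1⟩ := mem_filter.1 hq1
      obtain ⟨hs1, hn1⟩ := mem_filter.1 hq1
      obtain ⟨o1, -, rfl⟩ := mem_image.1 hs1
      refine le_trans ?_ (hC (c.n - j) c.n o1 (Nat.sub_le _ _) le_rfl)
      refine Nat.cast_le.2 (card_le_card fun q' hq' => ?_)
      obtain ⟨hq', ht⟩ := mem_filter.1 hq'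
      obtain ⟨hs, hn⟩ := mem_filter.1 hq'
      obtain ⟨o, ho, rfl⟩ := mem_image.1 hs
      refine mem_vals.2 ⟨o, (mem_filter.1 ho).2, ?_, rfl⟩
      have hb := hn.1.trans hn1.1.symm
      have ht' := ht.trans ht1.symm
      rw [pk_n, pk_n] at hb ht'
      simp only [Prod.mk.injEq] at ht' hb
      simp only [Cfg.pk, Cfg.xk, Cfg.yk, Nat.sub_sub_self hj, ht'.1, ht'.2, hb]
  · rw [nsmul_eq_mul]
    exact mul_le_mul_of_nonneg_right (by exact_mod_cast hcard) hB

omit [Fintype Ω] in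
lemma slope_near {j : ℕ} (hj : j ≤ c.n) {q q' : ℕ × ℕ × β} (hn : Near j q q') {o o1 : Ω}
    (h : c.pk c.n o = q) (h1 : c.pk c.n o1 = q) (hO : On c o q') (hO1 : On c o1 q') :
    c.ak j o ≤ c.ak j o1 + 4 := by
  have hm : 0 < 2 ^ (c.n - j) := by positivity
  refine div_near hm ?_
  rcases hn.2.2.2 with h0 | hs
  · have := c.ha o
    subst h0
    simp only [Nat.sub_zero]; omega
  · have hN : 0 < 2 ^ c.n := by positivity
    have b1 := on_int hN hO
    have b2 := on_int hN hO1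
    rw [pk_n] at h h1
    have hx : c.x o = q.1 := by rw [← h]
    have hx1 : c.x o1 = q.1 := by rw [← h1]
    have hy : c.y o = q.2.1 := by rw [← h]
    have hy1 : c.y o1 = q.2.1 := by rw [← h1]
    rw [hx, hy] at b1
    rw [hx1, hy1] at b2
    have e : ((2 ^ c.n : ℕ) : ℤ) = 2 ^ (c.n - j) * 2 ^ j := by
      push_cast; rw [← pow_add, Nat.sub_add_cancel hj]
    by_contra hlt
    have hlt' : (4 : ℤ) * 2 ^ (c.n - j) ≤ (c.a o : ℤ) - c.a o1 := by
      have : c.a o1 + 4 * 2 ^ (c.n - j) ≤ c.a o := by omega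
      zify at this; linarith
    set D : ℤ := (q.1 : ℤ) - q'.1
    have b3 : |((c.a o : ℤ) - c.a o1) * D| < 2 * ((2 ^ c.n : ℕ) : ℤ) := by
      have := abs_sub ((c.a o : ℤ) * D - (2 ^ c.n : ℕ) * ((q'.2.1 : ℤ) - q.2.1))
        ((c.a o1 : ℤ) * D - (2 ^ c.n : ℕ) * ((q'.2.1 : ℤ) - q.2.1))
      have e2 : (c.a o : ℤ) * D - (2 ^ c.n : ℕ) * ((q'.2.1 : ℤ) - q.2.1) -
        ((c.a o1 : ℤ) * D - (2 ^ c.n : ℕ) * ((q'.2.1 : ℤ) - q.2.1)) =
          ((c.a o : ℤ) - c.a o1) * D := by ring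
      rw [e2] at this; linarith
    have hp : (0 : ℤ) < 2 ^ (c.n - j) := by positivity
    have hp2 : (0 : ℤ) < 2 ^ j := by positivity
    rw [abs_mul, abs_of_nonneg (by linarith), e] at b3
    have := mul_le_mul hlt' hs hp2.le (by linarith)
    nlinarith

lemma le_mx {ι : Type} (s : Finset ι) (F : ι → ℝ) {i : ι} (hi : i ∈ s) : F i ≤ mx s F :=
  (le_fold_max _).2 (Or.inr ⟨i, hi, le_rfl⟩)

lemma arc {w : Ω → ℝ} (hw : Nn w) (s : ℝ) {j : ℕ} (hj : j ≤ c.n) {q q' : ℕ × ℕ × β}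
    (hn : Near j q q') :
    ∑ o, (if c.pk c.n o = q ∧ On c o q' then w o * (2 : ℝ) ^ (-c.frI w s 0 c.n o) else 0) ≤
      9 * (2 : ℝ) ^ (-(s * j)) * ∑ o, if c.pk c.n o = q then w o else 0 := by
  set M : ℝ := ∑ o, if c.pk c.n o = q then w o else 0 with hM
  have hM0 : 0 ≤ M := sum_nonneg fun o' _ => by split_ifs; exacts [hw o', le_rfl]
  have h1 : ∀ o, (if c.pk c.n o = q ∧ On c o q' then w o * (2 : ℝ) ^ (-c.frI w s 0 c.n o) else 0)
      ≤ ((2 : ℝ) ^ (-(s * j)) * M) * if c.pk c.n o = q ∧ On c o q' then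
        w o / ms w (pr (c.ak j) (c.pk c.n)) o else 0 := by
    intro o
    split_ifs with hA
    · rcases (hw o).eq_or_lt with h0 | h0
      · simp [← h0]
      · have hp : 0 < ms w (pr (c.ak j) (c.pk c.n)) o := h0.trans_le (le_ms hw _ _)
        have hp0 : 0 < ms w (pr (c.ak 0) (c.pk c.n)) o := h0.trans_le (le_ms hw _ _)
        have hle : ms w (pr (c.ak 0) (c.pk c.n)) o ≤ M := by
          refine sum_le_sum fun o' _ => ?_
          by_cases e : pr (c.ak 0) (c.pk c.n) o' = pr (c.ak 0) (c.pk c.n) o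
          · have e' : c.pk c.n o' = q := (congrArg Prod.snd e).trans hA.1
            rw [if_pos e, if_pos e']
          · rw [if_neg e]; split_ifs; exacts [hw o', le_rfl]
        have hf := le_mx (range (c.n + 1)) (fun y : ℕ => s * y -
          lg (ms w (pr (c.ak 0) (c.pk c.n)) o / ms w (pr (c.ak (0 + y)) (c.pk c.n)) o))
          (i := j) (mem_range.2 (by omega))
        rw [zero_add] at hf
        have h2 : (2 : ℝ) ^ (-c.frI w s 0 c.n o) ≤ (2 : ℝ) ^ (-(s * j) +
            lg (ms w (pr (c.ak 0) (c.pk c.n)) o / ms w (pr (c.ak j) (c.pk c.n)) o)) :=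
          Real.rpow_le_rpow_of_exponent_le one_le_two (by unfold Cfg.frI; linarith)
        rw [Real.rpow_add two_pos, lg, Real.rpow_logb two_pos (by norm_num) (div_pos hp0 hp)] at h2
        have h3 : ms w (pr (c.ak 0) (c.pk c.n)) o / ms w (pr (c.ak j) (c.pk c.n)) o ≤
            M / ms w (pr (c.ak j) (c.pk c.n)) o := div_le_div_of_nonneg_right hle hp.le
        have h4 : (0 : ℝ) ≤ (2 : ℝ) ^ (-(s * j)) := by positivity
        calc _ ≤ w o * ((2 : ℝ) ^ (-(s * j)) * (M / ms w (pr (c.ak j) (c.pk c.n)) o)) :=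
              mul_le_mul_of_nonneg_left (h2.trans (mul_le_mul_of_nonneg_left h3 h4)) h0.le
          _ = _ := by ring
    · simp
  refine (sum_le_sum fun o _ => h1 o).trans ?_
  rw [← mul_sum]
  have h5 : ∑ o, (if c.pk c.n o = q ∧ On c o q' then
      w o / ms w (pr (c.ak j) (c.pk c.n)) o else 0) ≤ 9 := by
    by_cases hex : ∃ o1, c.pk c.n o1 = q ∧ On c o1 q'
    · obtain ⟨o1, hq1, hO1⟩ := hex
      refine le_trans (le_of_eq ?_) ((sum_div_le hw (pr (c.ak j) (c.pk c.n))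
        (fun o => c.pk c.n o = q ∧ On c o q')
        ((Icc (c.ak j o1 - 4) (c.ak j o1 + 4)).image fun v => (v, q)) ?_).trans ?_)
      · exact sum_congr rfl fun o _ => by congr
      · intro o hA _
        have a1 := slope_near c hj hn hA.1 hq1 hA.2 hO1
        have a2 := slope_near c hj hn hq1 hA.1 hO1 hA.2
        exact mem_image.2 ⟨c.ak j o, mem_Icc.2 ⟨by omega, a1⟩, by simp [pr, hA.1]⟩
      · have : #((Icc (c.ak j o1 - 4) (c.ak j o1 + 4)).image fun v => (v, q)) ≤ 9 :=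
          card_image_le.trans (by rw [Nat.card_Icc]; omega)
        exact_mod_cast this
    · rw [sum_eq_zero fun o _ => if_neg fun h => hex ⟨o, h⟩]; norm_num
  have h4 : (0 : ℝ) ≤ (2 : ℝ) ^ (-(s * j)) * M := by positivity
  calc _ ≤ ((2 : ℝ) ^ (-(s * j)) * M) * 9 := mul_le_mul_of_nonneg_left h5 h4
    _ = _ := by ring

lemma exists_scale (n : ℕ) (D : ℤ) (h0 : 0 ≤ D) (h : D ≤ 2 ^ n) :
    ∃ j ≤ n, D ≤ 2 ^ j ∧ (j = 0 ∨ (2 : ℤ) ^ j ≤ 2 * D) := by
  induction n with
  | zero => exact ⟨0, le_rfl, h, Or.inl rfl⟩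
  | succ n ih =>
    by_cases hn : D ≤ 2 ^ n
    · obtain ⟨j, hj, h1⟩ := ih hn
      exact ⟨j, by omega, h1⟩
    · exact ⟨n + 1, le_rfl, h, Or.inr (by rw [pow_succ]; linarith)⟩

lemma vals_le (w : Ω → ℝ) (o : Ω) : (#(vals w (c.pk c.n) c.tube o) : ℝ) ≤
    ∑ j ∈ range (c.n + 1), ∑ q' ∈ (supp c w).filter (Near j (c.pk c.n o)),
      if On c o q' then (1 : ℝ) else 0 := by
  have h1 : vals w (c.pk c.n) c.tube o ⊆ (range (c.n + 1)).biUnion fun j =>
      ((supp c w).filter (Near j (c.pk c.n o))).filter (On c o) := by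
    intro q' hq'
    obtain ⟨o', h0, ht, rfl⟩ := mem_vals.1 hq'
    simp only [Cfg.tube, Prod.mk.injEq] at ht
    obtain ⟨ha, hy, hb⟩ := ht
    rw [ha] at hy
    have hN : 0 < 2 ^ c.n := by positivity
    have hx := c.hx o
    have hx' := c.hx o'
    have hao := c.ha o
    have b1 := on_int hN hy.symm
    have e : ((2 ^ c.n : ℕ) : ℤ) = 2 ^ c.n := by push_cast; rfl
    obtain ⟨j, hj, h2, h3⟩ := exists_scale c.n |(c.x o : ℤ) - c.x o'| (abs_nonneg _)
      (by rw [abs_le]; constructor <;> omega)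
    refine mem_biUnion.2 ⟨j, mem_range.2 (by omega), mem_filter.2 ⟨mem_filter.2
      ⟨mem_image.2 ⟨o', by simp [h0], rfl⟩, ?_⟩, ?_⟩⟩
    · rw [pk_n, pk_n]
      refine ⟨hb, h2, le_trans ?_ h2, h3⟩
      show |(c.y o : ℤ) - c.y o'| ≤ _
      by_contra hlt
      have h4 : |(c.x o : ℤ) - c.x o'| + 1 ≤ |(c.y o' : ℤ) - c.y o| := by
        rw [abs_sub_comm (c.y o' : ℤ)]; omega
      have h5 := abs_sub ((c.a o : ℤ) * ((c.x o : ℤ) - c.x o'))
        ((c.a o : ℤ) * ((c.x o : ℤ) - c.x o') - (2 ^ c.n : ℕ) * ((c.y o' : ℤ) - c.y o))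
      rw [sub_sub_cancel, abs_mul, abs_mul, Nat.abs_cast, Nat.abs_cast] at h5
      have h6 : (c.a o : ℤ) ≤ (2 ^ c.n : ℕ) := by exact_mod_cast hao.le
      have h7 := mul_le_mul_of_nonneg_right h6 (abs_nonneg ((c.x o : ℤ) - c.x o'))
      have h8 := mul_le_mul_of_nonneg_left h4 (Int.natCast_nonneg (2 ^ c.n))
      linarith
    · rw [pk_n]; exact hy.symm
  refine (Nat.cast_le.2 ((card_le_card h1).trans card_biUnion_le)).trans (le_of_eq ?_)
  push_cast
  refine sum_congr rfl fun j _ => ?_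
  rw [card_filter]; push_cast; rfl

lemma mean_le {w : Ω → ℝ} (hw : Nn w) {s d U : ℝ} {f : ℕ → ℝ} (hC : c.Cov w f U)
    (hf : ∀ k, k ≤ c.n → f c.n - f k ≤ s * ((c.n : ℝ) - k) + d) :
    ∑ o, w o * (2 : ℝ) ^ (-c.frI w s 0 c.n o) * #(vals w (c.pk c.n) c.tube o) ≤
      81 * ((c.n : ℝ) + 1) * (2 : ℝ) ^ (d + U) * tot w := by
  set S : Finset (ℕ × ℕ × β) := univ.image (c.pk c.n) with hS
  have h1 : ∀ o, w o * (2 : ℝ) ^ (-c.frI w s 0 c.n o) * #(vals w (c.pk c.n) c.tube o) ≤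
      ∑ j ∈ range (c.n + 1), ∑ q ∈ S, ∑ q' ∈ (supp c w).filter (Near j q),
        if c.pk c.n o = q ∧ On c o q' then w o * (2 : ℝ) ^ (-c.frI w s 0 c.n o) else 0 := by
    intro o
    have h0 : 0 ≤ w o * (2 : ℝ) ^ (-c.frI w s 0 c.n o) := mul_nonneg (hw o) (by positivity)
    refine (mul_le_mul_of_nonneg_left (vals_le c w o) h0).trans (le_of_eq ?_)
    rw [mul_sum]
    refine sum_congr rfl fun j _ => ?_
    rw [sum_eq_single_of_mem (c.pk c.n o) (mem_image_of_mem _ (mem_univ o))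
      (fun q _ hq => sum_eq_zero fun q' _ => if_neg fun h => hq h.1.symm), mul_sum]
    exact sum_congr rfl fun q' _ => by by_cases h : On c o q' <;> simp [h]
  refine (sum_le_sum fun o _ => h1 o).trans ?_
  rw [sum_comm]
  have h2 : ∀ j ∈ range (c.n + 1), ∑ o, ∑ q ∈ S, ∑ q' ∈ (supp c w).filter (Near j q),
      (if c.pk c.n o = q ∧ On c o q' then w o * (2 : ℝ) ^ (-c.frI w s 0 c.n o) else 0) ≤
        81 * (2 : ℝ) ^ (d + U) * tot w := by
    intro j hj
    have hj' : j ≤ c.n := by have := mem_range.1 hj; omega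
    rw [sum_comm]
    have h3 : tot w = ∑ q ∈ S, ∑ o, if c.pk c.n o = q then w o else 0 := by
      rw [sum_comm]
      refine sum_congr rfl fun o _ => ?_
      rw [sum_ite_eq, if_pos (mem_image_of_mem _ (mem_univ o))]
    rw [h3, mul_sum]
    refine sum_le_sum fun q _ => ?_
    rw [sum_comm]
    set M : ℝ := ∑ o, if c.pk c.n o = q then w o else 0 with hM
    have hM0 : 0 ≤ M := sum_nonneg fun o' _ => by split_ifs; exacts [hw o', le_rfl]
    refine (sum_le_card_nsmul _ _ (9 * (2 : ℝ) ^ (-(s * j)) * M)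
      fun q' hq' => arc c hw s hj' (mem_filter.1 hq').2).trans ?_
    rw [nsmul_eq_mul]
    refine (mul_le_mul_of_nonneg_right (count c hC hj' q) (by positivity)).trans ?_
    have h4 := hf (c.n - j) (Nat.sub_le _ _)
    rw [Nat.cast_sub hj'] at h4
    have h5 : (2 : ℝ) ^ (f c.n - f (c.n - j) + U) * (2 : ℝ) ^ (-(s * j)) ≤ (2 : ℝ) ^ (d + U) := by
      rw [← Real.rpow_add two_pos]
      exact Real.rpow_le_rpow_of_exponent_le one_le_two (by linarith)
    nlinarith [mul_le_mul_of_nonneg_right h5 hM0]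
  refine (sum_le_card_nsmul _ _ _ h2).trans (le_of_eq ?_)
  rw [card_range, nsmul_eq_mul]; push_cast; ring

end cfg

end L1

open L1 in
theorem l1 : L1Stmt := by
  refine ⟨lg 81, Real.logb_nonneg one_lt_two (by norm_num), ?_⟩
  intro Ω β _ c w s d U f hw _ hC hf
  set A : ℝ := 81 * ((c.n : ℝ) + 1) * (2 : ℝ) ^ (d + U) with hA
  have hA0 : 0 < A := by positivity
  have key := E_lg_le (w := w) (r := fun o =>
    (2 : ℝ) ^ (-c.frI w s 0 c.n o) * #(vals w (c.pk c.n) c.tube o) / A) hw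
    (fun o h0 => div_pos (mul_pos (by positivity) (vals_pos _ _ h0)) hA0) (by
      have := mean_le c hw hC hf
      simp only [E, ← mul_div_assoc, ← sum_div, ← mul_assoc]
      rw [div_le_iff₀ hA0]; linarith)
  have hlA : lg A = d + U + lg ((c.n : ℝ) + 1) + lg 81 := by
    simp only [lg, hA]
    rw [Real.logb_mul (by positivity) (by positivity), Real.logb_mul (by norm_num) (by positivity),
      Real.logb_rpow two_pos (by norm_num)]
    ring
  have h2 : E w (fun o => lg (#(vals w (c.pk c.n) c.tube o))) = E w (fun o => lg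
      ((2 : ℝ) ^ (-c.frI w s 0 c.n o) * #(vals w (c.pk c.n) c.tube o) / A)) +
      lg A * tot w + c.Fr w s := by
    simp only [E, tot, Cfg.Fr, Cfg.FrW, mul_sum, ← sum_add_distrib]
    refine sum_congr rfl fun o _ => ?_
    rcases (hw o).eq_or_lt with h0 | h0
    · simp [← h0]
    · have hb := vals_pos (c.pk c.n) c.tube h0
      simp only [lg]
      rw [Real.logb_div (by positivity) hA0.ne', Real.logb_mul (by positivity) hb.ne',
        Real.logb_rpow two_pos (by norm_num)]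
      ring
  have h3 := H_le_vals hw (c.pk c.n) c.tube
  rw [← hlA]
  unfold Cfg.h
  linarith

end

end Pool.Agent.Lib.MP_108739_an.F
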