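import Mathlib

/-! The high-low counting statement for discretised lines. -/

namespace Pool.Agent.Lib.MP_108739_an.F

open Finset

/-- number of points of `A` whose index in direction `b / L` is within `r` of `z` -/
def hlR (L : ℕ) (A : Finset (ℤ × ℤ)) (r : ℕ) (s : ℕ × ℤ) : ℕ :=
  #{q ∈ A | |q.2 + (s.1 : ℤ) * q.1 / (L : ℤ) - s.2| ≤ (r : ℤ)}

/-- Second moment bound over the tubes that hold a large share of their `K`-fattening. -/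
def HLStmt : Prop := ∃ C : ℝ, 0 < C ∧ ∀ (L K : ℕ) (A : Finset (ℤ × ℤ)) (S : Finset (ℕ × ℤ)),
  1 ≤ L → 16 ≤ K → (∀ q ∈ A, -(L : ℤ) ≤ q.1 ∧ q.1 < 2 * (L : ℤ)) →
  (∀ s ∈ S, s.1 < L ∧ 100 * hlR L A K s ≤ K * hlR L A 8 s) →
  ∑ s ∈ S, (hlR L A 8 s : ℝ) ^ 2 ≤ C * (K : ℝ) ^ 3 * L * Real.log (2 * L) * #A

end Pool.Agent.Lib.MP_108739_an.F
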