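import Pool.Agent.Lib.MP_108739_an.F.RwDefs
import Pool.Agent.Lib.MP_108739_an.F.HLDefs

/-! Definitions and statements for the tent estimate and the estimate for a general profile. -/

open Finset

namespace Pool.Agent.Lib.MP_108739_an.F

noncomputable section
open Classical

/-- position of the tube of slope `b / L` through `q` -/
def ind (L b : ℕ) (q : ℤ × ℤ) : ℤ := q.2 + (b : ℤ) * q.1 / (L : ℤ)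

namespace Cfg
variable {Ω β : Type} [Fintype Ω] (c : Cfg Ω β)

/-- points of positive weight near the square of level `i` through `o` -/
def nb (w : Ω → ℝ) (i : ℕ) (o : Ω) : Finset Ω := univ.filter fun o' =>
  0 < w o' ∧ c.b o' = c.b o ∧ |(c.xk i o' : ℤ) - c.xk i o| ≤ 1 ∧ |(c.yk i o' : ℤ) - c.yk i o| ≤ 3

/-- level `y` coordinates of `o'` relative to the level `i` column of `o` -/
def lq (i y : ℕ) (o o' : Ω) : ℤ × ℤ :=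
  ((c.xk y o' : ℤ) - 2 ^ (y - i) * (c.xk i o : ℤ), (c.yk y o' : ℤ))

def sqs (w : Ω → ℝ) (i y : ℕ) (o : Ω) : Finset (ℤ × ℤ) := (c.nb w i o).image (c.lq i y o)

/-- the local tube of the flag `o` -/
def lt (i y : ℕ) (o : Ω) : ℕ × ℤ :=
  (c.ak (y - i) o, ind (2 ^ (y - i)) (c.ak (y - i) o) (c.lq i y o o))

/-- number of level `y` squares near the local tube of `o` -/
def Rc (w : Ω → ℝ) (i y W : ℕ) (o : Ω) : ℕ := hlR (2 ^ (y - i)) (c.sqs w i y o) W (c.lt i y o)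

/-- flags on the tube of `o` at distance between the levels `i` and `i + m` -/
def far (w : Ω → ℝ) (i m : ℕ) (o : Ω) : Finset Ω := univ.filter fun o' =>
  0 < w o' ∧ c.tube o' = c.tube o ∧ |(c.xk i o' : ℤ) - c.xk i o| ≤ 1 ∧
    2 ≤ |(c.xk (i + m) o' : ℤ) - c.xk (i + m) o|

/-- a part `w1` of the weight on which the two pointwise bounds hold -/
structure Gd (w w1 : Ω → ℝ) (s : ℝ) (f : ℕ → ℝ) (U V : ℝ) : Prop where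
  nn : Nn w
  n1 : Nn w1
  le : ∀ o, w1 o ≤ w o
  s0 : 0 ≤ s
  s1 : s ≤ 1
  hU : 0 ≤ U
  hV : 0 ≤ V
  cov : c.Cov w f U
  dir : ∀ o, 0 < w1 o → ∀ j ≤ c.n,
    ms w (pr (c.ak j) (c.pk c.n)) o ≤ (2 : ℝ) ^ (V - s * j) * ms w (c.pk c.n) o
  dfn : ∀ o, 0 < w1 o → ∀ i k, i ≤ k → k ≤ c.n →
    ms w (c.pk k) o ≤ (2 : ℝ) ^ (V - (f k - f i)) * ms w (c.pk i) o

end Cfg

def GeoA : Prop := ∀ (Ω β : Type) [Fintype Ω] (c : Cfg Ω β) (w : Ω → ℝ) (f : ℕ → ℝ) (U : ℝ)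
  (i y : ℕ) (o : Ω), c.Cov w f U → i ≤ y → y ≤ c.n →
    (#(c.sqs w i y o) : ℝ) ≤ 21 * (2 : ℝ) ^ (f y - f i + U) ∧ #(c.sqs w i i o) ≤ 21 ∧
    (∀ q ∈ c.sqs w i y o, -((2 ^ (y - i) : ℕ) : ℤ) ≤ q.1 ∧ q.1 < 2 * ((2 ^ (y - i) : ℕ) : ℤ)) ∧
    c.ak (y - i) o < 2 ^ (y - i)

def GeoB : Prop := ∀ (Ω β : Type) [Fintype Ω] (c : Cfg Ω β) (w : Ω → ℝ) (f : ℕ → ℝ) (U : ℝ)
  (i y m : ℕ) (o : Ω), c.Cov w f U → i ≤ y → y + m ≤ c.n →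
    (c.Rc w i (y + m) (2 ^ m) o : ℝ) ≤ (2 : ℝ) ^ (f (y + m) - f y + U) * c.Rc w i y 8 o

def GeoC : Prop := ∀ (Ω β : Type) [Fintype Ω] (c : Cfg Ω β) (w : Ω → ℝ)
  (i y m m' a0 : ℕ) (o : Ω), i ≤ y → y ≤ c.n → a0 ≤ c.n → a0 ≤ y + m' →
    #((c.far w i m o).image (c.pk a0)) ≤ 3 * 2 ^ m' * c.Rc w i y 8 o

def GeoD : Prop := ∀ (Ω β : Type) [Fintype Ω] (c : Cfg Ω β) (w : Ω → ℝ) (f : ℕ → ℝ) (U ρ : ℝ)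
  (i y m : ℕ) (o0 : Ω) (S : Finset Ω), c.Cov w f U → i ≤ y → y ≤ c.n →
    (∀ o ∈ S, c.pk c.n o = c.pk c.n o0 ∧ c.ak (y - i) o = c.ak (y - i) o0 ∧
      ρ ≤ #((c.far w i m o).image (c.pk c.n))) →
    ρ * #(S.image (c.ak (c.n - (i + m)))) ≤ 3 * (2 : ℝ) ^ (f c.n - f y + U) * c.Rc w i y 8 o0

def PairStmt : Prop := ∃ C : ℝ, 1 ≤ C ∧ ∀ (Ω β : Type) [Fintype Ω] (c : Cfg Ω β) (w : Ω → ℝ)
  (f : ℕ → ℝ) (U : ℝ) (i y m : ℕ) (o0 : Ω) (S : Finset Ω), c.Cov w f U → i ≤ y → y ≤ c.n → 4 ≤ m →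
    (∀ o ∈ S, 0 < w o ∧ c.pk i o = c.pk i o0 ∧
      100 * c.Rc w i y (2 ^ m) o ≤ 2 ^ m * c.Rc w i y 8 o) →
    Set.InjOn (pr (c.pk y) (c.ak (y - i))) S →
    ∑ o ∈ S, (c.Rc w i y 8 o : ℝ) ≤
      C * (c.n + 1) * (2 : ℝ) ^ (3 * m + ((y : ℝ) - i) + (f y - f i) + U)

def CaStmt : Prop := ∃ C : ℝ, 1 ≤ C ∧ ∀ (Ω β : Type) [Fintype Ω] (c : Cfg Ω β) (w w1 : Ω → ℝ)
  (s : ℝ) (f : ℕ → ℝ) (U V θ : ℝ) (i y m : ℕ), c.Gd w w1 s f U V → i ≤ y → y ≤ c.n → 4 ≤ m →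
    (∀ o, 0 < w1 o → 100 * c.Rc w i y (2 ^ m) o ≤ 2 ^ m * c.Rc w i y 8 o ∧ θ ≤ c.Rc w i y 8 o) →
    θ * tot w1 ≤ C * (c.n + 1) * (2 : ℝ) ^ (2 * V + U + 3 * m + (1 - s) * ((y : ℝ) - i)) * tot w

def CbStmt : Prop := ∃ C : ℝ, 1 ≤ C ∧ ∀ (Ω β : Type) [Fintype Ω] (c : Cfg Ω β) (w w1 : Ω → ℝ)
  (s : ℝ) (f : ℕ → ℝ) (U V ρ : ℝ) (i y m : ℕ), c.Gd w w1 s f U V → i ≤ y → y ≤ c.n → 4 ≤ m →
    (∀ o, 0 < w1 o → 100 * c.Rc w i y (2 ^ m) o ≤ 2 ^ m * c.Rc w i y 8 o ∧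
      ρ ≤ #((c.far w i m o).image (c.pk c.n))) →
    ρ * tot w1 ≤ C * (c.n + 1) * (2 : ℝ) ^ (2 * V + 2 * U + 3 * m + ((y : ℝ) - i) + (f c.n - f y)
      - s * ((c.n : ℝ) - i - m)) * tot w

def EndsStmt : Prop := ∀ (Ω β : Type) [Fintype Ω] (c : Cfg Ω β) (w w1 : Ω → ℝ) (r : ℝ)
  (m a0 : ℕ), Nn w → Nn w1 → (∀ o, w1 o ≤ w o) → 1 ≤ m → a0 ≤ c.n →
    (∀ o, 0 < w1 o → ms w (pr c.tube (c.pk a0)) o ≤ (2 : ℝ) ^ (-r) * ms w c.tube o) →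
    ((c.n / m : ℕ) : ℝ) + m + 5 ≤ r →
    tot (res w1 fun o => ¬ ∃ u, u * m ≤ a0 ∧ (2 : ℝ) ^ (r - m - ((c.n / m : ℕ) : ℝ) - 1) ≤
      #((c.far w (u * m) m o).image (c.pk a0))) ≤ (2 : ℝ) ^ (-(m : ℝ)) * tot w

def TCoreStmt : Prop := ∃ C : ℝ, 1 ≤ C ∧ ∀ (Ω β : Type) [Fintype Ω] (c : Cfg Ω β) (w w1 : Ω → ℝ)
  (s : ℝ) (f : ℕ → ℝ) (U V r : ℝ) (m a0 : ℕ), c.Gd w w1 s f U V → 4 ≤ m → a0 ≤ c.n →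
    (∀ y ≤ a0, (2 - s) * y - V ≤ f y - f 0) →
    (∀ o, 0 < w1 o → ms w (pr c.tube (c.pk a0)) o ≤ (2 : ℝ) ^ (-r) * ms w c.tube o) →
    phi f s 0 c.n + 9 * m + 5 * V + 3 * U + ((c.n / m : ℕ) : ℝ) * (U + 8) + 9 ≤ r →
    tot w1 ≤ C * (((c.n / m : ℕ) : ℝ) + 1) ^ 2 * (c.n + 1) * (2 : ℝ) ^ (-(m : ℝ)) * tot w

def L1Stmt : Prop := ∃ C : ℝ, 0 ≤ C ∧
  ∀ (Ω β : Type) [Fintype Ω] (c : Cfg Ω β) (w : Ω → ℝ) (s d U : ℝ) (f : ℕ → ℝ), Nn w → 0 ≤ s →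
    c.Cov w f U → (∀ k ≤ c.n, f c.n - f k ≤ s * ((c.n : ℝ) - k) + d) →
    c.h w ≤ (d + U + lg (c.n + 1) + C) * tot w + c.Fr w s

def TypeStmt : Prop := ∀ (Ω β : Type) [Fintype Ω] (c : Cfg Ω β) (w : Ω → ℝ) (U : ℝ) (M : ℕ),
  Nn w → 0 < U → 2 * c.n / U + 1 ≤ M → ∃ (τ : Ω → ℕ → ℝ) (bad : Ω → Prop),
    tot (res w bad) ≤ ((c.n : ℝ) + 1) ^ 2 * (2 : ℝ) ^ (-U) * tot w ∧
    #((univ.filter fun o => 0 < w o ∧ ¬ bad o).image τ) ≤ (c.n + 2) ^ (M + 1) ∧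
    (∀ o, 0 < w o → ¬ bad o → ∀ i k, i ≤ k → k ≤ c.n → τ o i ≤ τ o k ∧
      τ o k - τ o i ≤ 2 * ((k : ℝ) - i) + 2 * U ∧
      |τ o k - τ o i - lg (ms w (c.pk i) o / ms w (c.pk k) o)| ≤ U) ∧
    ∀ o, c.Cov (res w fun o' => ¬ bad o' ∧ τ o' = τ o) (τ o) U

def ProfStmt : Prop := ∀ s0 ε : ℝ, 0 < s0 → 0 < ε → ∃ κ K C : ℝ, 0 < κ ∧ 0 ≤ K ∧ 0 ≤ C ∧
  ∀ (Ω β : Type) [Fintype Ω] (c : Cfg Ω β) (w : Ω → ℝ) (s t B : ℝ) (f : ℕ → ℝ), Nn w → s0 ≤ s →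
    s ≤ t → t ≤ 2 - s →
    (∀ i k, i ≤ k → k ≤ c.n → f i ≤ f k ∧ f k - f i ≤ 2 * ((k : ℝ) - i) + κ * c.n) →
    c.Cov w f (κ * c.n) → 0 ≤ B → (∀ k ≤ c.n, f c.n - f k - t * ((c.n : ℝ) - k) ≤ B) →
    c.h w ≤ (B + ((t - s) / 2 + ε) * c.n) * tot w + K * (c.Fr w s + c.Df w f) + C * tot w

end

end Pool.Agent.Lib.MP_108739_an.F
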