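import Pool.Agent.Lib.MP_108739_an.F.Win2
import Pool.Agent.Lib.MP_108739_an.F.TDefs

/-! The estimate for a weight with one profile. -/

open Finset

namespace Pool.Agent.Lib.MP_108739_an.F
open Classical

namespace Rw

lemma tent_shift {f : ℕ → ℝ} {s η η' : ℝ} {i k : ℕ} (hik : i ≤ k) (h : Tent f s η i k)
    (hη : η ≤ η') : Tent (fun y => f (i + y)) s η' 0 (k - i) := by
  intro y _ hy
  have h1 := h (i + y) (by omega) (by omega)
  have e1 : i + (k - i) = k := by omega
  have e2 : ((k - i : ℕ) : ℝ) = (k : ℝ) - i := Nat.cast_sub hik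
  have h0 : (0 : ℝ) ≤ (k : ℝ) - i := by rw [← e2]; positivity
  simp only [e1, e2, Nat.add_zero, Nat.cast_zero, sub_zero]
  have e3 : ((i + y : ℕ) : ℝ) - i = y := by push_cast; ring
  have e4 : (k : ℝ) - ((i + y : ℕ) : ℝ) = (k : ℝ) - i - y := by push_cast; ring
  rw [e3, e4] at h1
  have := mul_le_mul_of_nonneg_right hη h0
  linarith

lemma phi_shift (f : ℕ → ℝ) (s : ℝ) {i k : ℕ} (hik : i ≤ k) :
    phi (fun y => f (i + y)) s 0 (k - i) = phi f s i k := by
  have e1 : i + (k - i) = k := by omega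
  have e2 : ((k - i : ℕ) : ℝ) = (k : ℝ) - i := Nat.cast_sub hik
  simp only [phi, e1, e2, Nat.add_zero, Nat.cast_zero, sub_zero]

/-- one window that is a tent or almost linear -/
lemma window (hT : TentStmt) (hR : RegStmt) {s0 ε : ℝ} (h0 : 0 < s0) (hε : 0 < ε) :
    ∃ η K C : ℝ, 0 < η ∧ 0 ≤ K ∧ 0 ≤ C ∧
      ∀ (Ω β : Type) [Fintype Ω] (c : Cfg Ω β) (w : Ω → ℝ) (s U : ℝ) (f : ℕ → ℝ) (i k : ℕ),
      Nn w → s0 ≤ s → s ≤ 1 → i ≤ k → k ≤ c.n → c.Cov w f U → U ≤ η * ((k : ℝ) - i) →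
      (Tent f s η i k ∨ Lin f s η i k) →
      c.hw w i k ≤ (phi f s i k + 2 * ε * ((k : ℝ) - i)) * tot w +
        K * (c.Fr w s + c.Df w f + lg (c.n + 2) * tot w) + C * tot w := by
  obtain ⟨ηT, KT, CT, a1, a2, a3, HT⟩ := hT ε hε
  obtain ⟨ηR, KR, CR, b1, b2, b3, HR⟩ := hR s0 ε h0 hε
  refine ⟨min ηT (min (ηR / 3) (ε / (2 * (KR + 1)))), KT + KR, CT + CR, by positivity,
    by positivity, by positivity, ?_⟩
  intro Ω β _ c w s U f i k hw hs hs1 hik hk hC hU hc
  set η := min ηT (min (ηR / 3) (ε / (2 * (KR + 1)))) with hη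
  have η0 : 0 < η := by positivity
  have η1 : η ≤ ηT := min_le_left _ _
  have η2 : η ≤ ηR / 3 := (min_le_right _ _).trans (min_le_left _ _)
  have η3 : η ≤ ε / (2 * (KR + 1)) := (min_le_right _ _).trans (min_le_right _ _)
  have e2 : ((k - i : ℕ) : ℝ) = (k : ℝ) - i := Nat.cast_sub hik
  have l0 : (0 : ℝ) ≤ (k : ℝ) - i := by rw [← e2]; positivity
  have en : (((c.win i k).n : ℕ) : ℝ) = (k : ℝ) - i := e2
  have t0 := tot_nonneg hw
  have hF := c.Fr_win hw hik hk s
  have hD := c.Df_win hw hik hk f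
  have F0 := c.Fr_nonneg hw s
  have D0 := c.Df_nonneg hw f
  have L0 : 0 ≤ lg (c.n + 2) * tot w :=
    mul_nonneg (lg_nonneg (by have : (0 : ℝ) ≤ c.n := by positivity
                              linarith)) t0
  have hCw := Cfg.Cov.win c hC hik hk
  set P := c.Fr w s + c.Df w f + lg (c.n + 2) * tot w with hP
  have P0 : 0 ≤ P := by positivity
  have el : 0 ≤ ε * ((k : ℝ) - i) * tot w := by positivity
  rcases hc with hc | ⟨t, t1, t2, t3, t4⟩
  · have h1 := HT Ω _ (c.win i k) w s (fun y => f (i + y)) hw (by linarith) hs1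
      (Cfg.Cov.mono _ hCw (fun a b _ _ => by
        rw [en]; have := mul_le_mul_of_nonneg_right η1 l0; linarith))
      (tent_shift hik hc η1)
    rw [en, Cfg.win_n, phi_shift f s hik] at h1
    have h2 : KT * ((c.win i k).Fr w s + (c.win i k).Df w fun y => f (i + y)) ≤ KT * P :=
      mul_le_mul_of_nonneg_left (by linarith) a2
    have h3 := mul_nonneg b2 P0
    have h4 := mul_nonneg b3 t0
    unfold Cfg.hw
    linarith
  · have key : ∀ a b : ℕ, a ≤ b → b ≤ k - i →
        |f (i + b) - f (i + a) - (t * b - t * a)| ≤ 2 * η * ((k : ℝ) - i) := by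
      intro a b hab hb
      have u1 := abs_le.1 (t4 (i + a) (by omega) (by omega))
      have u2 := abs_le.1 (t4 (i + b) (by omega) (by omega))
      have e3 : ((i + a : ℕ) : ℝ) - i = a := by push_cast; ring
      have e4 : ((i + b : ℕ) : ℝ) - i = b := by push_cast; ring
      rw [e3] at u1; rw [e4] at u2
      rw [abs_le]; constructor <;> linarith [u1.1, u1.2, u2.1, u2.2]
    have h1 := HR Ω _ (c.win i k) w s t hw hs t1 t2
      (Cfg.Cov.mono _ hCw (fun a b hab hb => by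
        rw [en]
        have := (abs_le.1 (key a b hab hb)).2
        have := mul_le_mul_of_nonneg_right η2 l0
        linarith))
    have h5 := (c.win i k).Df_le hw (f := fun y => f (i + y)) (g := fun y => t * y)
      (u := 2 * η * ((k : ℝ) - i)) (by positivity) (fun a b hab hb => by
        have := (abs_le.1 (key a b hab hb)).1
        linarith)
    rw [en] at h1
    have h2 : KR * ((c.win i k).Fr w s + (c.win i k).Df w fun y => t * y) ≤
        KR * (P + 2 * η * ((k : ℝ) - i) * tot w) :=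
      mul_le_mul_of_nonneg_left (by linarith) b2
    have h6 : KR * (2 * η) ≤ ε := by
      rw [le_div_iff₀ (by positivity)] at η3
      nlinarith
    have h7 : KR * (2 * η) * (((k : ℝ) - i) * tot w) ≤ ε * (((k : ℝ) - i) * tot w) :=
      mul_le_mul_of_nonneg_right h6 (by positivity)
    have h8 : (t - s) / 2 * ((k : ℝ) - i) ≤ phi f s i k := by
      refine le_trans (le_of_eq ?_) ((le_max_right _ _).trans (le_max_right _ _))
      rw [t3]; ring
    have h9 := mul_le_mul_of_nonneg_right h8 t0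
    have h3 := mul_nonneg a2 P0
    have h4 := mul_nonneg a3 t0
    unfold Cfg.hw
    linarith

/-- a weight with one profile -/
lemma prof (hD : DecStmt) (hT : TentStmt) (hR : RegStmt) {s0 ε : ℝ} (h0 : 0 < s0) (hε : 0 < ε) :
    ∃ (κ K C : ℝ) (n0 : ℕ), 0 < κ ∧ κ ≤ ε ∧ K * κ ≤ ε ∧ 0 ≤ K ∧ 0 ≤ C ∧ 1 ≤ n0 ∧
      ∀ (Ω β : Type) [Fintype Ω] (c : Cfg Ω β) (w : Ω → ℝ) (s t : ℝ) (f : ℕ → ℝ),
      Nn w → s0 ≤ s → s ≤ t → t ≤ 2 - s → n0 ≤ c.n →
      (∀ i k, i ≤ k → k ≤ c.n → f i ≤ f k ∧ f k - f i ≤ 2 * ((k : ℝ) - i) + κ * c.n) →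
      c.Cov w f (κ * c.n) →
      c.h w ≤ (mx (range (c.n + 1)) (fun k => f c.n - f k - t * ((c.n : ℝ) - k)) +
          ((t - s) / 2 + 4 * ε) * c.n) * tot w +
        K * (c.Fr w s + c.Df w f + lg (c.n + 2) * tot w) + C * tot w := by
  obtain ⟨η, K, C, η0, K0, C0, HW⟩ := window hT hR h0 hε
  obtain ⟨k0, k00, HD⟩ := hD ε η hε η0
  set ρ := min η (min (ε / (K + 1)) (min k0 (min ε 1))) with hρ
  have ρ0 : 0 < ρ := by positivity
  have ρ1 : ρ ≤ η := min_le_left _ _
  have ρ2 : ρ ≤ ε / (K + 1) := (min_le_right _ _).trans (min_le_left _ _)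
  have ρ3 : ρ ≤ k0 := (min_le_right _ _).trans ((min_le_right _ _).trans (min_le_left _ _))
  have ρ4 : ρ ≤ ε := (min_le_right _ _).trans ((min_le_right _ _).trans
    ((min_le_right _ _).trans (min_le_left _ _)))
  have ρ5 : ρ ≤ 1 := (min_le_right _ _).trans ((min_le_right _ _).trans
    ((min_le_right _ _).trans (min_le_right _ _)))
  have ρ6 : ρ ^ 2 ≤ ρ := by nlinarith
  obtain ⟨n0, HD⟩ := HD (ρ ^ 2) (by positivity) (ρ6.trans ρ3)
  refine ⟨ρ ^ 2, K / ρ, (C + 6) / ρ ^ 2, max n0 1, by positivity, ρ6.trans ρ4, ?_, by positivity,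
    by positivity, le_max_right _ _, ?_⟩
  · have e : K / ρ * ρ ^ 2 = K * ρ := by field_simp
    rw [e]
    rw [le_div_iff₀ (by positivity)] at ρ2
    nlinarith
  intro Ω β _ c w s t f hw hs hst ht hn hf hC
  obtain ⟨M, z, J, z0, zM, zm', hM, hJ', hJ, hN, hS⟩ := HD c.n ((le_max_left _ _).trans hn) s f
    (by linarith) (by linarith) hf
  rw [Real.sqrt_sq ρ0.le] at hN
  have zm : ∀ m, m < M → z m < z (m + 1) := fun m hm => zm' m (m + 1) (by omega) hm
  have hS := hS t hst ht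
  have t0 := tot_nonneg hw
  have n1 : (1 : ℝ) ≤ c.n := by exact_mod_cast (le_max_right _ _).trans hn
  have zle : ∀ d m, m + d = M → z m ≤ c.n := by
    intro d
    induction d with
    | zero => intro m hm; rw [← zM, ← hm]; rfl
    | succ d ih =>
      intro m hm
      exact (zm m (by omega)).le.trans (ih (m + 1) (by omega))
  set P := c.Fr w s + c.Df w f + lg (c.n + 2) * tot w with hP
  have P0 : 0 ≤ P := by
    have := c.Fr_nonneg hw s
    have := c.Df_nonneg hw f
    have := mul_nonneg (lg_nonneg (x := c.n + 2) (by linarith)) t0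
    positivity
  have h1 := c.h_le_sum hw M z z0 zM (fun m hm => (zm m hm).le)
  rw [← sum_sdiff hJ'] at h1
  have h2 : ∑ m ∈ J, c.hw w (z m) (z (m + 1)) ≤ ε * c.n * tot w := by
    refine le_trans (sum_le_sum fun m hm => c.hw_triv hw
      (zm m (mem_range.1 (hJ' hm))).le) ?_
    rw [← sum_mul]
    exact mul_le_mul_of_nonneg_right hJ t0
  have tel : ∑ m ∈ range M, ((z (m + 1) : ℝ) - z m) = c.n := by
    rw [sum_range_sub (fun m => (z m : ℝ)), z0, zM]; simp
  have h3 : ∑ m ∈ range M \ J, ((z (m + 1) : ℝ) - z m) ≤ c.n := by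
    rw [← tel]
    refine sum_le_sum_of_subset_of_nonneg sdiff_subset fun m hm _ => ?_
    have : (z m : ℝ) ≤ z (m + 1) := by exact_mod_cast (zm m (mem_range.1 hm)).le
    linarith
  have h4 : (#(range M \ J) : ℝ) * (ρ * c.n) ≤ c.n := by
    refine le_trans ?_ h3
    rw [← nsmul_eq_mul, ← sum_const]
    exact sum_le_sum fun m hm => (hN m hm).1
  have h5 : (#(range M \ J) : ℝ) ≤ 1 / ρ := by
    rw [le_div_iff₀ ρ0]
    nlinarith
  have h6 : (#(range M \ J) : ℝ) ≤ 1 / ρ ^ 2 := by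
    refine le_trans ?_ hM
    have := card_le_card (sdiff_subset (s := range M) (t := J))
    rw [card_range] at this
    exact_mod_cast this
  have h7 : ∑ m ∈ range M \ J, c.hw w (z m) (z (m + 1)) ≤ ∑ m ∈ range M \ J,
      ((phi f s (z m) (z (m + 1)) + 2 * ε * ((z (m + 1) : ℝ) - z m)) * tot w +
        (K * P + C * tot w)) := by
    refine sum_le_sum fun m hm => ?_
    have hm1 := mem_range.1 (mem_sdiff.1 hm).1
    obtain ⟨u1, u2⟩ := hN m hm
    have := HW Ω β c w s (ρ ^ 2 * c.n) f (z m) (z (m + 1)) hw hs (by linarith) (zm m hm1).le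
      (zle (M - (m + 1)) (m + 1) (by omega)) hC (by
        have := mul_le_mul ρ1 u1 (by positivity) η0.le
        nlinarith) u2
    linarith
  rw [sum_add_distrib, ← sum_mul, sum_add_distrib, ← mul_sum, sum_const, nsmul_eq_mul] at h7
  have h8 : (#(range M \ J) : ℝ) * (K * P) ≤ 1 / ρ * (K * P) :=
    mul_le_mul_of_nonneg_right h5 (by positivity)
  have h9 : (#(range M \ J) : ℝ) * (C * tot w) ≤ 1 / ρ ^ 2 * (C * tot w) :=
    mul_le_mul_of_nonneg_right h6 (by positivity)
  have h10 : (M : ℝ) * (6 * tot w) ≤ 1 / ρ ^ 2 * (6 * tot w) :=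
    mul_le_mul_of_nonneg_right hM (by positivity)
  have h11 : (∑ m ∈ range M \ J, phi f s (z m) (z (m + 1)) +
      2 * ε * ∑ m ∈ range M \ J, ((z (m + 1) : ℝ) - z m)) * tot w ≤
      (mx (range (c.n + 1)) (fun k => f c.n - f k - t * ((c.n : ℝ) - k)) + (t - s) * c.n / 2 +
        ε * c.n + 2 * ε * c.n) * tot w := by
    refine mul_le_mul_of_nonneg_right ?_ t0
    have := mul_le_mul_of_nonneg_left h3 (by positivity : 0 ≤ 2 * ε)
    linarith
  have e1 : K / ρ * P = 1 / ρ * (K * P) := by ring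
  have e2 : (C + 6) / ρ ^ 2 * tot w = 1 / ρ ^ 2 * (C * tot w) + 1 / ρ ^ 2 * (6 * tot w) := by ring
  rw [e1, e2]
  linarith

lemma lg_small {δ : ℝ} (hδ : 0 < δ) : ∃ C : ℝ, 0 ≤ C ∧ ∀ n : ℕ, lg (n + 2) ≤ δ * n + C := by
  refine ⟨lg (1 + 1 / δ) + 2, ?_, fun n => ?_⟩
  · have : 0 ≤ lg (1 + 1 / δ) := lg_nonneg (by have : 0 < 1 / δ := by positivity
                                               linarith)
    linarith
  · have h0 : (0 : ℝ) < 1 + 1 / δ := by positivity
    have hn : (0 : ℝ) ≤ n := by positivity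
    have h1 : lg (n + 2) ≤ lg ((1 + 1 / δ) * (δ * n + 2)) := by
      refine lg_mono (by positivity) ?_
      have e : (1 + 1 / δ) * (δ * n + 2) = n + 2 + (δ * n + 2 / δ) := by field_simp; ring
      have : 0 ≤ δ * n + 2 / δ := by positivity
      linarith
    rw [lg_mul h0 (by positivity)] at h1
    have := lg_le_self (x := δ * n + 2) (by positivity)
    linarith

end Rw

theorem prof (hD : DecStmt) (hT : TentStmt) (hR : RegStmt) : ProfStmt := by
  intro s0 ε h0 hε
  obtain ⟨κ, K, C, n0, κ0, -, -, K0, C0, -, H⟩ := Rw.prof hD hT hR h0 (ε := ε / 5) (by positivity)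
  obtain ⟨C1, C10, hC1⟩ := Rw.lg_small (δ := ε / 5 / (K + 1)) (by positivity)
  refine ⟨κ, K, C + K * C1 + n0, κ0, K0, by positivity, ?_⟩
  intro Ω β _ c w s t B f hw hs hst ht hf hC hB hk
  have t0 := tot_nonneg hw
  have F0 := c.Fr_nonneg hw s
  have D0 := c.Df_nonneg hw f
  have n0' : (0 : ℝ) ≤ c.n := by positivity
  have p1 := mul_nonneg C0 t0
  have p2 := mul_nonneg (mul_nonneg K0 C10) t0
  have p3 : 0 ≤ (n0 : ℝ) * tot w := by positivity
  rcases le_or_gt n0 c.n with hn | hn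
  · have h1 := H Ω β c w s t f hw hs hst ht hn hf hC
    have h2 : mx (range (c.n + 1)) (fun k => f c.n - f k - t * ((c.n : ℝ) - k)) ≤ B :=
      mx_le hB fun k hk' => hk k (by have := mem_range.1 hk'; omega)
    have h3 := mul_le_mul_of_nonneg_right h2 t0
    have h4 : K * (ε / 5 / (K + 1)) ≤ ε / 5 := by
      rw [← mul_div_assoc, div_le_iff₀ (by positivity)]
      nlinarith
    have h5 := mul_le_mul_of_nonneg_right h4 (mul_nonneg n0' t0)
    have h6 := mul_le_mul_of_nonneg_left (mul_le_mul_of_nonneg_right (hC1 c.n) t0) K0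
    linarith
  · have h1 := c.h_triv hw
    have h2 : (c.n : ℝ) * tot w ≤ n0 * tot w :=
      mul_le_mul_of_nonneg_right (by exact_mod_cast hn.le) t0
    have h3 : 0 ≤ (B + ((t - s) / 2 + ε) * c.n) * tot w := by
      have : 0 ≤ t - s := by linarith
      positivity
    have h4 : 0 ≤ K * (c.Fr w s + c.Df w f) := by positivity
    linarith

end Pool.Agent.Lib.MP_108739_an.F
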