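import Pool.Agent.Lib.MP_108739_an.F.Defs

/-! Interfaces between the parts of the incidence estimate. -/

open Finset

namespace Pool.Agent.Lib.MP_108739_an.F

/-- the estimate for regular configurations -/
def RegStmt : Prop := ∀ s0 e : ℝ, 0 < s0 → 0 < e → Reg s0 e

/-- the estimate with one Frostman exponent for the slopes -/
def RwStmt : Prop := ∀ s0 ε : ℝ, 0 < s0 → 0 < ε → ∃ K C : ℝ, 0 ≤ K ∧ 0 ≤ C ∧
  ∀ (Ω β : Type) [Fintype Ω] (c : Cfg Ω β) (w : Ω → ℝ) (s t : ℝ), Nn w → s0 ≤ s → s ≤ t →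
    t ≤ 2 - s →
    c.h w ≤ c.Kt w t + ((t - s) / 2 + ε) * c.n * tot w + K * c.Fr w s + C * tot w

/-- the estimate with `r` ranges of slope scales -/
def TeStmt : Prop := ∀ (s0 ε : ℝ) (r : ℕ), 0 < s0 → 0 < ε → ∃ K C : ℝ, 0 ≤ K ∧ 0 ≤ C ∧
  ∀ (Ω β : Type) [Fintype Ω] (c : Cfg Ω β) (w : Ω → ℝ) (t : ℝ) (j : ℕ → ℕ) (s : ℕ → ℝ), Nn w →
    (∀ i < r, j i ≤ j (i + 1)) → j r = c.n → (∀ i < r, s0 ≤ s i ∧ s i ≤ t ∧ t ≤ 2 - s i) →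
    c.h w ≤ c.Kt w t +
      (j 0 + ∑ i ∈ range r, ((t - s i) / 2 + ε) * ((j (i + 1) : ℝ) - j i)) * tot w +
      K * ∑ i ∈ range r, c.FrW w (s i) (j i) (j (i + 1) - j i) + C * lg (c.n + 2) * tot w

end Pool.Agent.Lib.MP_108739_an.F
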