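import Pool.Agent.Lib.MP_108739_an.F.RegE
import Pool.Agent.Lib.MP_108739_an.F.RDefs

/-! The estimate for regular configurations. -/

open Finset

namespace Pool.Agent.Lib.MP_108739_an.F
open Classical

/-- the conclusion of `Reg` for given constants -/
def RegAt (s0 e η K C : ℝ) : Prop :=
  ∀ (Ω β : Type) [Fintype Ω] (c : Cfg Ω β) (w : Ω → ℝ) (s t : ℝ), Nn w → s0 ≤ s → s ≤ t →
    t ≤ 2 - s → c.Cov w (fun k => t * k) (η * c.n) →
    c.h w ≤ ((t - s) / 2 + e) * c.n * tot w + K * (c.Fr w s + c.Df w fun k => t * k) + C * tot w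

/-- the improvement on one configuration -/
def OneAt (s0 e0 c0 M : ℝ) : Prop :=
  ∀ (Ω β : Type) [Fintype Ω] (c : Cfg Ω β) (w : Ω → ℝ) (s t e u K U : ℝ), Nn w → s0 ≤ s → s ≤ t →
    t ≤ 2 - s → e0 ≤ e → 0 ≤ u → 1 ≤ K → 0 ≤ U → c.RGd s t u K ((t - s) / 2 + e) w →
    c.Cov w (fun k => t * k) U →
    c0 * c.n * tot w ≤ M * (c.dl s t u K ((t - s) / 2 + e) w + c.rho s t u K w +
      I w c.a (c.pk c.n) c.b + (U + K * lg (c.n + 2)) * tot w)

lemma rg_oneAt (hA : AbcSlackStmt) {s0 e0 : ℝ} (hs : 0 < s0) (he : 0 < e0) (he1 : e0 ≤ 1) :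
    ∃ c0 M : ℝ, 0 < c0 ∧ c0 ≤ e0 ∧ 1 ≤ M ∧ OneAt s0 e0 c0 M := by
  set ε := min e0 s0 / 2 with hε
  have m1 := min_le_left e0 s0
  have m2 := min_le_right e0 s0
  have hε0 : 0 < ε := by have := lt_min he hs; linarith
  obtain ⟨T, e', KA, CA, hT, he', hKA, hCA, h⟩ := hA ε ε hε0 hε0
  have hT0 : (1 : ℝ) ≤ T := by exact_mod_cast hT
  refine ⟨e0 / 2 * (ε / 4), 40 + CA + T + 50 * KA, by positivity, by nlinarith, by linarith, ?_⟩
  intro Ω β _ c w s t e u K U hw h1 h2 h3 h4 hu hK hU hG hcov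
  set m := ⌊ε * c.n / (4 * T)⌋₊ with hm
  have hn0 : (0 : ℝ) ≤ c.n := Nat.cast_nonneg _
  have f1 : (m : ℝ) ≤ ε * c.n / (4 * T) := Nat.floor_le (by positivity)
  have f2 : ε * c.n / (4 * T) < m + 1 := Nat.lt_floor_add_one _
  rw [le_div_iff₀ (by positivity)] at f1
  rw [div_lt_iff₀ (by positivity)] at f2
  have hδ : e0 / 2 ≤ min 1 ((t - s) / 2 + e + (s - ε)) - ε - (t - ((t - s) / 2 + e)) := by
    rcases min_cases 1 ((t - s) / 2 + e + (s - ε)) with h | h <;> rw [h.1] <;> linarith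
  have k := Cfg.rg_one (δ := e0 / 2) (m := m) h hT he'.le hKA hCA hw hG hu hK hcov hε0 (by linarith)
    (by linarith) (by linarith) (by linarith) (by linarith) hδ (by push_cast; linarith)
  have ht := tot_nonneg hw
  have d1 := hG.dl_nonneg
  have d2 := c.rg_rho_nonneg (s := s) (t := t) hw hu (show 0 ≤ K by linarith)
  have d3 := I_nonneg hw c.a (c.pk c.n) c.b
  have hl := rg_one_le_lg c.n
  set ℓ := lg ((c.n : ℝ) + 2)
  set D := c.dl s t u K ((t - s) / 2 + e) w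
  set R := c.rho s t u K w
  set J := I w c.a (c.pk c.n) c.b
  set W := tot w
  have a1 : 0 ≤ ℓ * W := by positivity
  have a2 : W ≤ ℓ * W := by nlinarith
  have a3 : ℓ * W ≤ K * ℓ * W := by nlinarith
  have a4 : e0 / 2 * (ε / 4) * c.n * W ≤ e0 / 2 * ((m * T : ℕ) : ℝ) * W + T * W := by
    have : e0 / 2 * (ε / 4) * c.n ≤ e0 / 2 * ((m * T : ℕ) : ℝ) + T := by
      push_cast; nlinarith
    nlinarith
  have a5 : 0 ≤ U * W := by positivity
  have b1 := mul_nonneg hKA d1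
  have b2 := mul_nonneg hKA d2
  have b3 := mul_nonneg hKA d3
  have b4 := mul_nonneg hKA a5
  have b5 := mul_nonneg hCA (add_nonneg (add_nonneg (add_nonneg d1 d2) d3) a5)
  have b6 := mul_nonneg (show (0 : ℝ) ≤ T by linarith)
    (add_nonneg (add_nonneg (add_nonneg d1 d2) d3) a5)
  have b7 := mul_le_mul_of_nonneg_left a2 hKA
  have b8 := mul_le_mul_of_nonneg_left a3 hKA
  have b9 := mul_le_mul_of_nonneg_left (a2.trans a3) hCA
  have b10 := mul_le_mul_of_nonneg_left (a2.trans a3) (show (0 : ℝ) ≤ T by linarith)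
  have b11 := mul_nonneg hKA a1
  linarith

variable {Ω β : Type} [Fintype Ω] {w : Ω → ℝ}

lemma rg_Df_win (c : Cfg Ω β) (hw : Nn w) {i k : ℕ} (hi : i ≤ k) (hk : k ≤ c.n) (t : ℝ) :
    (c.win i k).Df w (fun y => t * y) ≤ c.Df w fun y => t * y := by
  have h1 := c.Df_win hw hi hk fun y => t * y
  have h2 := (c.win i k).Df_le hw (f := fun y => t * ((i + y : ℕ) : ℝ)) (g := fun y => t * y)
    le_rfl (fun a b _ _ => by push_cast; linarith)
  linarith

lemma rg_Cov_win {c : Cfg Ω β} {t U V : ℝ} (h : c.Cov w (fun y => t * y) U) {i k : ℕ} (hi : i ≤ k)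
    (hk : k ≤ c.n) (hV : U ≤ V) : (c.win i k).Cov w (fun y => t * y) V :=
  Cfg.Cov.mono _ (Cfg.Cov.win c h hi hk) fun a b _ _ => by push_cast; linarith

lemma rg_gd {s0 e η K C θ U s t : ℝ} (h : RegAt s0 e η K C) (hη : 0 < η) (hK : 0 ≤ K) (hC : 0 ≤ C)
    (he : 0 ≤ e) (hθ : 0 ≤ θ) (c : Cfg Ω β) (hw : Nn w) (h1 : s0 ≤ s) (h2 : s ≤ t) (h3 : t ≤ 2 - s)
    (hcov : c.Cov w (fun k => t * k) U) (hU : U ≤ η * (θ * c.n)) :
    c.RGd s t (θ * c.n + C + K * lg (c.n + 2)) (K + 1) ((t - s) / 2 + e) w := by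
  intro A i k hi hk
  have hv : Nn (res w A) := hw.res A
  set v := res w A
  have ht := tot_nonneg hv
  have f1 := c.Fr_nonneg hv s
  have f2 := c.Df_nonneg hv fun k => t * k
  have hl := rg_one_le_lg c.n
  have hik : (i : ℝ) ≤ k := by exact_mod_cast hi
  have hn0 : (0 : ℝ) ≤ c.n := Nat.cast_nonneg _
  have p1 : 0 ≤ θ * c.n * tot v := by positivity
  have p2 : 0 ≤ C * tot v := by positivity
  have p3 : 0 ≤ K * (lg (c.n + 2) * tot v) := mul_nonneg hK (mul_nonneg (by linarith) ht)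
  have p4 := mul_nonneg hK (add_nonneg f1 f2)
  unfold Cfg.rho
  by_cases hc : θ * c.n ≤ (k : ℝ) - i
  · have hn : (((c.win i k).n : ℕ) : ℝ) = (k : ℝ) - i := by rw [c.win_n, Nat.cast_sub hi]
    have a := h Ω _ (c.win i k) v s t hv h1 h2 h3 (rg_Cov_win (Cfg.Cov.res c hcov A) hi hk (by
      rw [hn]; exact hU.trans (mul_le_mul_of_nonneg_left hc hη.le)))
    rw [hn] at a
    have a1 := c.Fr_win hv hi hk s
    have a2 := rg_Df_win c hv hi hk t
    have a3 := mul_le_mul_of_nonneg_left (add_le_add a1 a2) hK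
    unfold Cfg.hw
    linarith
  · have a := c.hw_triv hv hi
    have a1 := mul_le_mul_of_nonneg_right (not_le.1 hc).le ht
    have a2 : 0 ≤ ((t - s) / 2 + e) * ((k : ℝ) - i) * tot v :=
      mul_nonneg (mul_nonneg (by linarith) (by linarith)) ht
    linarith

lemma rg_sum_I (c : Cfg Ω β) (hw : Nn w) {M L : ℕ} (h : M * L ≤ c.n) :
    ∑ m ∈ range M, I w (c.win (m * L) ((m + 1) * L)).a
      ((c.win (m * L) ((m + 1) * L)).pk (c.win (m * L) ((m + 1) * L)).n)
      (c.win (m * L) ((m + 1) * L)).b ≤ L * tot w := by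
  rcases Nat.eq_zero_or_pos M with rfl | hM
  · have := tot_nonneg hw
    simp; positivity
  have hL : L ≤ c.n := le_trans (Nat.le_mul_of_pos_left L hM) h
  have k : ∀ m ∈ range M, I w (c.win (m * L) ((m + 1) * L)).a
      ((c.win (m * L) ((m + 1) * L)).pk (c.win (m * L) ((m + 1) * L)).n)
      (c.win (m * L) ((m + 1) * L)).b ≤
      H w (c.ak L) (c.pk (m * L)) - H w (c.ak L) (c.pk ((m + 1) * L)) := by
    intro m hm
    have e0 : (m + 1) * L = m * L + L := by ring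
    have e1 : (m + 1) * L ≤ c.n := (Nat.mul_le_mul_right L (mem_range.1 hm)).trans h
    have e2 : m * L ≤ (m + 1) * L := by omega
    have e3 : (m + 1) * L - m * L = L := by omega
    have d := (c.win_pk e2 e1 le_rfl).2
    rw [show m * L + ((m + 1) * L - m * L) = (m + 1) * L by omega] at d
    rw [c.win_a e1, e3]
    have : H w (c.ak L) (c.pk ((m + 1) * L)) ≤ H w (c.ak L)
        (pr ((c.win (m * L) ((m + 1) * L)).pk (c.win (m * L) ((m + 1) * L)).n) (c.pk (m * L))) :=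
      H_mono hw Det.fst (Det.pr d (c.det_pk e2))
    exact sub_le_sub_left this _
  refine (sum_le_sum k).trans ?_
  rw [sum_range_sub' (fun m => H w (c.ak L) (c.pk (m * L)))]
  have a := H_le_mem hw (τ := c.ak L) (T := range (2 ^ L)) (fun o => mem_range.2 (c.ak_lt hL o))
    (c.pk (0 * L))
  rw [card_range] at a
  push_cast at a
  rw [lg_two_pow] at a
  have := H_nonneg hw (c.ak L) (c.pk (M * L))
  linarith

lemma rg_sum_h (c : Cfg Ω β) (hw : Nn w) {M L : ℕ} (h : M * L ≤ c.n) (h' : c.n ≤ M * L + M) :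
    c.h w ≤ ∑ m ∈ range M, (c.win (m * L) ((m + 1) * L)).h w + (7 * M + 6) * tot w := by
  have a := c.h_le_sum hw (M + 1) (fun m => if m ≤ M then m * L else c.n) (by simp) (by simp)
    (fun m hm => by
      have : m ≤ M := by omega
      simp only [this, if_true]
      split_ifs
      · exact Nat.mul_le_mul_right L (Nat.le_succ m)
      · exact (Nat.mul_le_mul_right L this).trans h)
  rw [sum_range_succ] at a
  have e1 : ∑ m ∈ range M, c.hw w (if m ≤ M then m * L else c.n)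
      (if m + 1 ≤ M then (m + 1) * L else c.n) =
      ∑ m ∈ range M, (c.win (m * L) ((m + 1) * L)).h w :=
    sum_congr rfl fun m hm => by
      have := mem_range.1 hm
      rw [if_pos (by omega), if_pos (by omega)]; rfl
  rw [e1, if_pos le_rfl, if_neg (by omega)] at a
  have b := c.hw_triv hw h
  have b1 : (c.n : ℝ) - (M * L : ℕ) ≤ M := by
    have : (c.n : ℝ) ≤ (M * L : ℕ) + M := by exact_mod_cast h'
    linarith
  have b2 := mul_le_mul_of_nonneg_right b1 (tot_nonneg hw)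
  push_cast at a b b2
  linarith

lemma rg_lg_lin {σ : ℝ} (hσ : 0 < σ) : ∃ C : ℝ, 0 ≤ C ∧ ∀ n : ℕ, lg ((n : ℝ) + 2) ≤ σ * n + C := by
  refine ⟨2 * σ + |lg σ|, by positivity, fun n => ?_⟩
  have h0 : (0 : ℝ) < n + 2 := by positivity
  have h1 := lg_mul hσ h0
  have h2 := lg_le_self (mul_pos hσ h0).le
  have h3 := neg_abs_le (lg σ)
  linarith

lemma rg_win {s0 e0 c0 M e η K C U s t : ℝ} (h : OneAt s0 e0 c0 M) (hc : 0 < c0) (hce : c0 ≤ e0)
    (hM : 1 ≤ M) (he : e0 ≤ e) (hR : RegAt s0 e η K C) (hη : 0 < η) (hK : 0 ≤ K) (hC : 0 ≤ C)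
    (c : Cfg Ω β) (hw : Nn w) (h1 : s0 ≤ s) (h2 : s ≤ t) (h3 : t ≤ 2 - s)
    (hcov : c.Cov w (fun k => t * k) U) (hU0 : 0 ≤ U) {i k L : ℕ} (hi : i ≤ k) (hk : k ≤ c.n)
    (hL : k - i = L) (hU : U ≤ η * (c0 / M / 12 * L)) (hU' : U ≤ c0 / M / 12 * L) :
    (c.win i k).h w ≤ ((t - s) / 2 + e - 3 * (c0 / M) / 4) * L * tot w +
      I w (c.win i k).a ((c.win i k).pk (c.win i k).n) (c.win i k).b +
      (2 * C * tot w + (5 * K + 3) * lg (c.n + 2) * tot w +
        2 * (K + 1) * (c.Fr w s + c.Df w fun k => t * k)) := by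
  have hn : (c.win i k).n = L := hL
  have hM0 : 0 < M := by linarith
  have hγ : 0 < c0 / M := by positivity
  have hcv := rg_Cov_win hcov hi hk le_rfl
  have hL0 : (0 : ℝ) ≤ L := Nat.cast_nonneg _
  have hl := rg_one_le_lg L
  have g := rg_gd (θ := c0 / M / 12) hR hη hK hC (by linarith) (by positivity) (c.win i k) hw h1 h2 h3
    hcv (by rw [hn]; exact hU)
  have a := h Ω _ (c.win i k) w s t e _ (K + 1) U hw h1 h2 h3 he
    (by rw [hn]; have := mul_nonneg hK (show 0 ≤ lg ((L : ℝ) + 2) by linarith); positivity)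
    (by linarith) hU0 g hcv
  have a1 := c.Fr_win hw hi hk s
  have a2 := rg_Df_win c hw hi hk t
  have ht := tot_nonneg hw
  have a3 : lg ((L : ℝ) + 2) ≤ lg ((c.n : ℝ) + 2) := by
    refine lg_mono (by positivity) ?_
    have : (L : ℝ) ≤ c.n := by exact_mod_cast (by omega : L ≤ c.n)
    linarith
  unfold Cfg.dl Cfg.rho at a
  set J := I w (c.win i k).a ((c.win i k).pk (c.win i k).n) (c.win i k).b
  rw [hn] at a
  have a4 := mul_le_mul_of_nonneg_left (add_le_add a1 a2) (show 0 ≤ K + 1 by linarith)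
  have a5 := mul_le_mul_of_nonneg_right a3 ht
  have a6 := mul_le_mul_of_nonneg_left a5 hK
  have a7 := mul_le_mul_of_nonneg_right hU' ht
  have e1 : c0 * L * tot w = M * (c0 / M * L * tot w) := by field_simp
  rw [e1] at a
  have a8 := le_of_mul_le_mul_left a hM0
  linarith

lemma rg_step {s0 e0 c0 M e : ℝ} (h : OneAt s0 e0 c0 M) (hc : 0 < c0) (hce : c0 ≤ e0) (hM : 1 ≤ M)
    (he : e0 ≤ e) (hR : Reg s0 e) : Reg s0 (e - c0 / (4 * M)) := by
  obtain ⟨η, K, C, hη, hK, hC, hR⟩ := hR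
  have hM0 : 0 < M := by linarith
  have hγ : 0 < c0 / M := by positivity
  have hγ1 : c0 / M ≤ c0 := div_le_self hc.le hM
  have e4 : c0 / (4 * M) = c0 / M / 4 := by field_simp
  obtain ⟨N, hN⟩ := exists_nat_ge (4 / (c0 / M))
  have hN0 : (0 : ℝ) < N := lt_of_lt_of_le (by positivity) hN
  have hN1 : 0 < N := by exact_mod_cast hN0
  rw [div_le_iff₀ hγ] at hN
  obtain ⟨C', hC', hlg⟩ := rg_lg_lin (σ := c0 / M / 4 / (N * (5 * K + 3))) (by positivity)
  have m0 : 0 < min η 1 := lt_min hη one_pos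
  refine ⟨min η 1 * (c0 / M / 12) / (2 * N), N * (2 * (K + 1)),
    N * (2 * C) + N * (5 * K + 3) * C' + (7 * N + 6), by positivity, by positivity, by positivity,
    fun Ω β _ c w s t hw h1 h2 h3 hcov => ?_⟩
  rw [e4]
  set γ := c0 / M with hγd
  have ht := tot_nonneg hw
  have hn0 : (0 : ℝ) ≤ c.n := Nat.cast_nonneg _
  have f0 := add_nonneg (c.Fr_nonneg hw s) (c.Df_nonneg hw fun k => t * k)
  have q1 : N * (c.n / N) ≤ c.n := Nat.mul_div_le _ _
  have q2 : c.n < N * (c.n / N + 1) := Nat.lt_mul_div_succ _ hN1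
  set L := c.n / N
  have q1' : (N : ℝ) * L ≤ c.n := by exact_mod_cast q1
  have q2' : (c.n : ℝ) ≤ N * (L + 1) := by exact_mod_cast q2.le
  have hL0 : (0 : ℝ) ≤ L := Nat.cast_nonneg _
  have z1 : 0 ≤ N * (2 * (K + 1)) * (c.Fr w s + c.Df w fun k => t * k) := by positivity
  have z2 : 0 ≤ N * (2 * C) * tot w := by positivity
  have z3 : 0 ≤ N * (5 * K + 3) * C' * tot w := by positivity
  have z4 : 0 ≤ N * tot w := by positivity
  rcases Nat.eq_zero_or_pos L with hL | hL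
  · have a := c.h_triv hw
    rw [hL] at q2'
    have a1 := mul_le_mul_of_nonneg_right q2' ht
    have a2 : 0 ≤ ((t - s) / 2 + (e - γ / 4)) * c.n * tot w :=
      mul_nonneg (mul_nonneg (by linarith) hn0) ht
    push_cast at a1
    linarith
  have hL1 : (1 : ℝ) ≤ L := by exact_mod_cast hL
  have u1 : min η 1 * (γ / 12) / (2 * N) * c.n ≤ min η 1 * (γ / 12 * L) := by
    have : (c.n : ℝ) ≤ 2 * N * L := by nlinarith
    calc _ ≤ min η 1 * (γ / 12) / (2 * N) * (2 * N * L) := by gcongr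
      _ = _ := by field_simp
  have u0 : 0 ≤ γ / 12 * L := by positivity
  have u2 := u1.trans (mul_le_mul_of_nonneg_right (min_le_left η 1) u0)
  have u3 := u1.trans (mul_le_mul_of_nonneg_right (min_le_right η 1) u0)
  rw [one_mul] at u3
  have k := sum_le_sum fun m (hm : m ∈ range N) => rg_win h hc hce hM he hR hη hK hC c hw h1 h2 h3 hcov
    (by positivity) (i := m * L) (k := (m + 1) * L) (L := L) (Nat.mul_le_mul_right L (Nat.le_succ m))
    ((Nat.mul_le_mul_right L (mem_range.1 hm)).trans q1) (by rw [add_mul]; omega) u2 u3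
  rw [sum_add_distrib, sum_add_distrib, sum_const, sum_const, card_range, nsmul_eq_mul,
    nsmul_eq_mul] at k
  have b1 := rg_sum_I c hw q1
  have b2 := rg_sum_h c hw q1 (by rw [mul_add] at q2; omega)
  have b3 : 4 * (L * tot w) ≤ N * γ * (L * tot w) := mul_le_mul_of_nonneg_right hN (by positivity)
  have b4 : ((t - s) / 2 + e - γ / 2) * (N * L * tot w) ≤ ((t - s) / 2 + e - γ / 2) * (c.n * tot w) :=
    mul_le_mul_of_nonneg_left (mul_le_mul_of_nonneg_right q1' ht) (by linarith)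
  have b5 : N * (5 * K + 3) * lg ((c.n : ℝ) + 2) ≤ γ / 4 * c.n + N * (5 * K + 3) * C' := by
    calc _ ≤ N * (5 * K + 3) * (γ / 4 / (N * (5 * K + 3)) * c.n + C') := by gcongr; exact hlg _
      _ = _ := by field_simp
  have b6 := mul_le_mul_of_nonneg_right b5 ht
  rw [← hγd] at k
  linarith

lemma rg_mono {s0 e e' : ℝ} (h : Reg s0 e) (he : e ≤ e') : Reg s0 e' := by
  obtain ⟨η, K, C, h1, h2, h3, h4⟩ := h
  refine ⟨η, K, C, h1, h2, h3, fun Ω β _ c w s t hw a1 a2 a3 a4 => ?_⟩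
  have := h4 Ω β c w s t hw a1 a2 a3 a4
  have b := mul_le_mul_of_nonneg_right he
    (mul_nonneg (Nat.cast_nonneg (α := ℝ) c.n) (tot_nonneg hw))
  linarith

lemma rg_top (s0 : ℝ) : Reg s0 1 := by
  refine ⟨1, 0, 0, one_pos, le_rfl, le_rfl, fun Ω β _ c w s t hw _ a2 _ _ => ?_⟩
  have := c.h_triv hw
  have b := mul_nonneg (show 0 ≤ (t - s) / 2 by linarith)
    (mul_nonneg (Nat.cast_nonneg (α := ℝ) c.n) (tot_nonneg hw))
  linarith

theorem reg (hA : AbcSlackStmt) : RegStmt := by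
  intro s0 e0 hs he
  by_cases he1 : 1 ≤ e0
  · exact rg_mono (rg_top s0) he1
  obtain ⟨c0, M, h1, h2, h3, h4⟩ := rg_oneAt hA hs he (not_le.1 he1).le
  have hθ : 0 < c0 / (4 * M) := by positivity
  have k : ∀ n : ℕ, Reg s0 (1 - n * (c0 / (4 * M))) ∨ Reg s0 e0 := by
    intro n
    induction n with
    | zero => left; simpa using rg_top s0
    | succ n ih =>
      rcases ih with ih | ih
      · by_cases hh : e0 ≤ 1 - n * (c0 / (4 * M))
        · left
          refine rg_mono (rg_step h4 h1 h2 h3 hh ih) (le_of_eq ?_)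
          push_cast; ring
        · exact Or.inr (rg_mono ih (not_le.1 hh).le)
      · exact Or.inr ih
  obtain ⟨n, hn⟩ := exists_nat_ge (1 / (c0 / (4 * M)))
  rw [div_le_iff₀ hθ] at hn
  rcases k n with h | h
  · exact rg_mono h (by linarith)
  · exact h

end Pool.Agent.Lib.MP_108739_an.F
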