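import Pool.Agent.Lib.MP_108739_an.F.Ent1

/-! Windows of point scales: subadditivity. -/

set_option linter.unusedSectionVars false
set_option linter.unusedVariables false

open Finset

namespace Pool.Agent.Lib.MP_108739_an.F
open Classical

variable {Ω β ι : Type} [Fintype Ω] {w : Ω → ℝ} (c : Cfg Ω β)

namespace Cfg

lemma div_det {a b u v : ℕ} (h : u ≤ v) (e : a / 2 ^ u = b / 2 ^ u) : a / 2 ^ v = b / 2 ^ v := by
  obtain ⟨d, rfl⟩ := Nat.exists_eq_add_of_le h
  rw [pow_add, ← Nat.div_div_eq_div_mul, ← Nat.div_div_eq_div_mul, e]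
lemma div_lt {a n j : ℕ} (h : j ≤ n) (ha : a < 2 ^ n) : a / 2 ^ (n - j) < 2 ^ j := by
  rw [Nat.div_lt_iff_lt_mul (by positivity), ← pow_add, Nat.add_sub_cancel' h]; exact ha
lemma mod_div {z n i k j : ℕ} (hi : i ≤ k) (h : k ≤ n) (hj : j ≤ k - i) :
    z / 2 ^ (n - k) % 2 ^ (k - i) / 2 ^ (k - i - j) = z / 2 ^ (n - (i + j)) % 2 ^ j := by
  conv_lhs => rw [show k - i = k - i - j + j by omega, pow_add, Nat.add_sub_cancel,
    Nat.mod_mul_right_div_self, Nat.div_div_eq_div_mul, ← pow_add]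
  congr 3; omega
omit [Fintype Ω] in
lemma det_pk {i k : ℕ} (h : i ≤ k) : Det (c.pk k) (c.pk i) := fun o o' e => by
  simp only [pk, xk, yk, Prod.mk.injEq] at e ⊢
  exact ⟨div_det (by omega) e.1, div_det (by omega) e.2.1, e.2.2⟩
omit [Fintype Ω] in
lemma det_ak {i k : ℕ} (h : i ≤ k) : Det (c.ak k) (c.ak i) := fun o o' e => div_det (by omega) e
omit [Fintype Ω] in
lemma det_pk_b (k : ℕ) : Det (c.pk k) c.b := fun _ _ e => congrArg (·.2.2) e
omit [Fintype Ω] in
lemma det_b_pk : Det c.b (c.pk 0) := fun o o' e => by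
  simp only [pk, xk, yk, Nat.sub_zero, Nat.div_eq_of_lt (c.hx _), Nat.div_eq_of_lt (c.hy _), e]
omit [Fintype Ω] in
lemma ak_zero (o : Ω) : c.ak 0 o = 0 := Nat.div_eq_of_lt (c.ha o)
omit [Fintype Ω] in
lemma ak_n : c.ak c.n = c.a := by funext o; simp [ak]
omit [Fintype Ω] in
lemma ak_lt {j : ℕ} (h : j ≤ c.n) (o : Ω) : c.ak j o < 2 ^ j := div_lt h (c.ha o)
omit [Fintype Ω] in
lemma xk_lt {j : ℕ} (h : j ≤ c.n) (o : Ω) : c.xk j o < 2 ^ j := div_lt h (c.hx o)
omit [Fintype Ω] in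
lemma yk_lt {j : ℕ} (h : j ≤ c.n) (o : Ω) : c.yk j o < 2 ^ j := div_lt h (c.hy o)
omit [Fintype Ω] in
lemma win_n (i k : ℕ) : (c.win i k).n = k - i := rfl
omit [Fintype Ω] in
lemma win_a {i k : ℕ} (h : k ≤ c.n) : (c.win i k).a = c.ak (k - i) :=
  funext fun o => Nat.mod_eq_of_lt (c.ak_lt (by omega) o)
omit [Fintype Ω] in
lemma win_ak {i k j : ℕ} (h : k ≤ c.n) (hj : j ≤ k - i) : (c.win i k).ak j = c.ak j := by
  funext o
  change (c.win i k).a o / 2 ^ (k - i - j) = _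
  rw [c.win_a h, ak, ak, Nat.div_div_eq_div_mul, ← pow_add]
  congr 2; omega
omit [Fintype Ω] in
lemma win_xk {i k j : ℕ} (hi : i ≤ k) (h : k ≤ c.n) (hj : j ≤ k - i) (o : Ω) :
    (c.win i k).xk j o = c.xk (i + j) o % 2 ^ j := mod_div hi h hj
omit [Fintype Ω] in
lemma win_yk {i k j : ℕ} (hi : i ≤ k) (h : k ≤ c.n) (hj : j ≤ k - i) (o : Ω) :
    (c.win i k).yk j o = c.yk (i + j) o % 2 ^ j := mod_div hi h hj
omit [Fintype Ω] in
lemma win_pk {i k j : ℕ} (hi : i ≤ k) (h : k ≤ c.n) (hj : j ≤ k - i) :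
    Det ((c.win i k).pk j) (c.pk (i + j)) ∧ Det (c.pk (i + j)) ((c.win i k).pk j) := by
  have ex : ∀ o, (c.win i k).xk j o = c.xk (i + j) o % 2 ^ j := c.win_xk hi h hj
  have ey : ∀ o, (c.win i k).yk j o = c.yk (i + j) o % 2 ^ j := c.win_yk hi h hj
  have s : ∀ z : ℕ, z / 2 ^ (c.n - i) = z / 2 ^ (c.n - (i + j)) / 2 ^ j := fun z => by
    rw [Nat.div_div_eq_div_mul, ← pow_add]; congr 2; omega
  constructor
  · intro o o' e
    simp only [pk, Prod.mk.injEq, ex, ey] at e ⊢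
    obtain ⟨e1, e2, e3⟩ := e
    change c.pk i o = c.pk i o' at e3
    simp only [pk, xk, yk, Prod.mk.injEq, s] at e3
    refine ⟨?_, ?_, e3.2.2⟩
    · rw [← Nat.div_add_mod (c.xk (i + j) o) (2 ^ j), ← Nat.div_add_mod (c.xk (i + j) o') (2 ^ j), e1]
      exact congrArg (2 ^ j * · + _) e3.1
    · rw [← Nat.div_add_mod (c.yk (i + j) o) (2 ^ j), ← Nat.div_add_mod (c.yk (i + j) o') (2 ^ j), e2]
      exact congrArg (2 ^ j * · + _) e3.2.1
  · intro o o' e
    have e3 := c.det_pk (Nat.le_add_right i j) o o' e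
    simp only [pk, Prod.mk.injEq, ex, ey] at e ⊢
    exact ⟨by rw [e.1], by rw [e.2.1], e3⟩
lemma ms_win_pk {i k j : ℕ} (hi : i ≤ k) (h : k ≤ c.n) (hj : j ≤ k - i) :
    ms w ((c.win i k).pk j) = ms w (c.pk (i + j)) :=
  ms_congr (c.win_pk hi h hj).1 (c.win_pk hi h hj).2
lemma card_vals_pk (w : Ω → ℝ) {i k : ℕ} (hi : i ≤ k) (h : k ≤ c.n) (o : Ω) :
    #(vals w (c.pk k) (c.pk i) o) ≤ 4 ^ (k - i) := by
  have := card_le_card_of_injOn (s := vals w (c.pk k) (c.pk i) o)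
    (t := range (2 ^ (k - i)) ×ˢ range (2 ^ (k - i)))
    (fun v => (v.1 % 2 ^ (k - i), v.2.1 % 2 ^ (k - i)))
    (fun v _ => by simp [Nat.mod_lt]) (fun v hv v' hv' e => by
      obtain ⟨o1, _, e1, rfl⟩ := mem_vals.1 hv
      obtain ⟨o2, _, e2, rfl⟩ := mem_vals.1 hv'
      have := (c.win_pk hi h le_rfl).1 o1 o2 (by
        simp only [Prod.mk.injEq] at e
        simp only [pk, xk, yk, win, Nat.sub_self, pow_zero, Nat.div_one, Prod.mk.injEq]
        refine ⟨e.1, e.2, ?_⟩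
        simpa only [pk, xk, yk, Prod.mk.injEq] using e1.trans e2.symm)
      rwa [Nat.add_sub_cancel' hi] at this)
  rwa [card_product, card_range, ← mul_pow] at this
lemma near_aux {N M a x x' y y' : ℕ} (hM : 0 < M) (ha : a < N) (e : x / M = x' / M)
    (t : y + a * x / N = y' + a * x' / N) : y / M ≤ y' / M + 1 := by
  have h1 : x' ≤ x + M := by
    have := Nat.div_mul_le_self x M
    have := Nat.lt_div_mul_add (a := x') hM
    rw [← e] at this; omega
  have h2 : a * x' / N ≤ a * x / N + M := by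
    rw [← Nat.add_mul_div_left _ _ (by omega : 0 < N)]
    exact Nat.div_le_div_right (by nlinarith)
  rw [← Nat.add_div_right _ hM]
  exact Nat.div_le_div_right (by omega)
omit [Fintype Ω] in
lemma yk_near {k : ℕ} {o o' : Ω} (e : c.xk k o = c.xk k o') (t : c.tube o = c.tube o') :
    c.yk k o ≤ c.yk k o' + 1 := by
  simp only [tube, Prod.mk.injEq] at t
  obtain ⟨t1, t2, _⟩ := t
  rw [← t1] at t2
  exact near_aux (by positivity) (c.ha o) e t2
lemma card_vals_tube (w : Ω → ℝ) {k : ℕ} (h : k ≤ c.n) (o : Ω) :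
    #(vals w (c.pk k) c.tube o) ≤ 4 * 2 ^ k := by
  have := card_le_card_of_injOn (s := vals w (c.pk k) c.tube o) (t := range (2 ^ k) ×ˢ range 4)
    (fun v => (v.1, v.2.1 % 4)) (fun v hv => by
      obtain ⟨o1, _, _, rfl⟩ := mem_vals.1 hv
      simp [Nat.mod_lt, pk, c.xk_lt h]) (fun v hv v' hv' e => by
      obtain ⟨o1, _, e1, rfl⟩ := mem_vals.1 hv
      obtain ⟨o2, _, e2, rfl⟩ := mem_vals.1 hv'
      simp only [Prod.mk.injEq] at e
      have e3 := e1.trans e2.symm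
      have a := c.yk_near e.1 e3
      have b := c.yk_near e.1.symm e3.symm
      have e4 : c.yk k o1 % 4 = c.yk k o2 % 4 := e.2
      exact Prod.ext e.1 (Prod.ext (show c.yk k o1 = c.yk k o2 by omega) (congrArg (·.2.2) e3)))
  rwa [card_product, card_range, card_range, mul_comm] at this
lemma hw_full : c.hw w 0 c.n = c.h w := by
  have p := c.win_pk (Nat.zero_le c.n) le_rfl le_rfl
  rw [Nat.zero_add] at p
  have t : ∀ o, (c.win 0 c.n).tube o = ((c.tube o).1, (c.tube o).2.1, c.pk 0 o) := fun o => by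
    simp [tube, win, xk, yk, ak, Nat.mod_eq_of_lt, c.hx, c.hy, c.ha]
  refine H_congr (Det.fst.trans p.1) (Det.fst.trans p.2) (fun o o' e => ?_) fun o o' e => ?_
  · simp only [t, Prod.mk.injEq] at e
    exact Prod.ext e.1 (Prod.ext e.2.1 (c.det_pk_b 0 o o' e.2.2))
  · rw [t, t, e, c.det_b_pk o o' (congrArg (·.2.2) e)]
lemma hw_win {i k i' k' : ℕ} (hi : i' ≤ k') (hk : k' ≤ k - i) (hik : i ≤ k) (h : k ≤ c.n) :
    (c.win i k).hw w i' k' = c.hw w (i + i') (i + k') := by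
  have e : i + k' - (i + i') = k' - i' := by omega
  have p1 := (c.win i k).win_pk hi hk le_rfl
  have p2 := c.win_pk hik h hk
  have p3 := c.win_pk (Nat.add_le_add_left hi i) (show i + k' ≤ c.n by omega) le_rfl
  have p4 := c.win_pk hik h (hi.trans hk)
  rw [Nat.add_sub_cancel' hi] at p1
  rw [Nat.add_sub_cancel' (Nat.add_le_add_left hi i)] at p3
  have md : ∀ z : ℕ, z % 2 ^ k' % 2 ^ (k' - i') = z % 2 ^ (k' - i') := fun z =>
    Nat.mod_mod_of_dvd _ (pow_dvd_pow 2 (Nat.sub_le _ _))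
  have t : ∀ o, ((c.win i k).win i' k').tube o = (((c.win (i + i') (i + k')).tube o).1,
      ((c.win (i + i') (i + k')).tube o).2.1, (c.win i k).pk i' o) := fun o => by
    have a := c.win_ak h (show k' - i' ≤ k - i by omega)
    have x := c.win_xk hik h hk o
    have y := c.win_yk hik h hk o
    change (_ % _, _ % _ + _ % _ * (_ % _) / _, _) = (_ % _, _ % _ + _ % _ * (_ % _) / _, _)
    rw [a, x, y, md, md, e]
    simp only [win_n, e]
    rfl
  refine H_congr (Det.fst.trans (p1.1.trans (p2.1.trans p3.2)))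
    (Det.fst.trans (p3.1.trans (p2.2.trans p1.2))) (fun o o' e => ?_) fun o o' e => ?_
  · simp only [t, Prod.mk.injEq] at e
    exact Prod.ext e.1 (Prod.ext e.2.1 (p4.1 o o' e.2.2))
  · rw [t, t, e, p4.2 o o' (congrArg (·.2.2) e)]
lemma hw_nonneg (hw : Nn w) (i k : ℕ) : 0 ≤ c.hw w i k := H_nonneg hw _ _
lemma h_triv (hw : Nn w) : c.h w ≤ c.n * tot w := by
  have h1 : c.h w ≤ H w c.x c.tube := H_mono hw (fun o o' e => by
    simp only [pr, tube, Prod.mk.injEq] at e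
    obtain ⟨e1, e2, e3, e4⟩ := e
    rw [e1, e2] at e3
    simp only [pk, xk, yk, e1, e4, Nat.add_right_cancel e3]) Det.rfl
  have h2 := H_le_mem hw (T := range (2 ^ c.n)) (fun o => mem_range.2 (c.hx o)) c.tube
  rw [card_range, Nat.cast_pow, Nat.cast_ofNat, lg_two_pow] at h2
  exact h1.trans h2
lemma hw_triv (hw : Nn w) {i k : ℕ} (hi : i ≤ k) : c.hw w i k ≤ ((k : ℝ) - i) * tot w := by
  have := (c.win i k).h_triv hw
  rwa [win_n, Nat.cast_sub hi] at this
lemma idx_aux {A B C a x y : ℕ} (hA : 0 < A) (hB : 0 < B) (hC : 0 < C) (ha : a < A * B * C) :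
    ((y + a * x / (A * B * C)) / A : ℕ) ≤ (y / A % B + a / (A * C) * (x / A % B) / B) +
      B * (y / (A * B)) + a * (x / (A * B)) * B / (A * B * C) + 5 ∧
    (y / A % B + a / (A * C) * (x / A % B) / B) + B * (y / (A * B)) +
      a * (x / (A * B)) * B / (A * B * C) ≤ (y + a * x / (A * B * C)) / A := by
  have N0 : 0 < A * B * C := by positivity
  rw [← Nat.div_div_eq_div_mul y A B, ← Nat.div_div_eq_div_mul x A B]
  have ey := Nat.mod_add_div (y / A) B
  have ex := Nat.mod_add_div (x / A) B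
  have lx := Nat.mod_lt (x / A) hB
  generalize x / A % B = x1 at *
  generalize x / A / B = x2 at *
  have b1 : A * (x1 + B * x2) ≤ x := ex ▸ Nat.mul_div_le x A
  have b2 : x < A * (x1 + B * x2) + A := ex ▸ Nat.lt_mul_div_succ x hA
  have c1 := Nat.mul_div_le a (A * C)
  have c2 := Nat.lt_mul_div_succ a (show 0 < A * C by positivity)
  generalize a / (A * C) = a1 at *
  have d1 := Nat.mul_div_le (a1 * x1) B
  have d2 := Nat.lt_mul_div_succ (a1 * x1) hB
  generalize a1 * x1 / B = u at *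
  have f1 := Nat.mul_div_le (a * x2 * B) (A * B * C)
  have f2 := Nat.lt_mul_div_succ (a * x2 * B) N0
  generalize a * x2 * B / (A * B * C) = v at *
  have lo : A * (u + v) ≤ a * x / (A * B * C) := by
    rw [Nat.le_div_iff_mul_le N0]
    have g1 : A * B * C * u ≤ a * x1 := by
      calc A * B * C * u = A * C * (B * u) := by ring
        _ ≤ A * C * (a1 * x1) := by gcongr
        _ = A * C * a1 * x1 := by ring
        _ ≤ a * x1 := by gcongr
    calc A * (u + v) * (A * B * C) = A * (A * B * C * u + A * B * C * v) := by ring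
      _ ≤ A * (a * x1 + a * x2 * B) := by gcongr
      _ = a * (A * (x1 + B * x2)) := by ring
      _ ≤ a * x := by gcongr
  have hi : a * x / (A * B * C) ≤ A * (u + v + 4) := by
    refine Nat.div_le_of_le_mul ?_
    have g1 : a * x1 ≤ A * B * C * (u + 2) := by
      calc a * x1 ≤ A * C * (a1 + 1) * x1 := by gcongr
        _ = A * C * (a1 * x1 + x1) := by ring
        _ ≤ A * C * (B * (u + 1) + B) := by gcongr
        _ = A * B * C * (u + 2) := by ring
    calc a * x ≤ a * (A * (x1 + B * x2) + A) := by gcongr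
      _ = A * (a * x1 + a * x2 * B + a) := by ring
      _ ≤ A * (A * B * C * (u + 2) + A * B * C * (v + 1) + A * B * C) := by gcongr
      _ = A * B * C * (A * (u + v + 4)) := by ring
  have p1 : (y + a * x / (A * B * C)) / A ≤ (y + A * (u + v + 4)) / A :=
    Nat.div_le_div_right (by omega)
  have p2 : (y + A * (u + v)) / A ≤ (y + a * x / (A * B * C)) / A :=
    Nat.div_le_div_right (by omega)
  rw [Nat.add_mul_div_left _ _ hA] at p1 p2
  omega
omit [Fintype Ω] in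
lemma win_idx {i k : ℕ} (hi : i ≤ k) (h : k ≤ c.n) (o : Ω) :
    (((c.tube o).2.1 / 2 ^ (c.n - k) : ℕ) : ℤ) - 2 ^ (k - i) * (c.yk i o : ℕ) -
      (c.a o * c.xk i o * 2 ^ (k - i) / 2 ^ c.n : ℕ) - 5 ≤ ((c.win i k).tube o).2.1 ∧
    (((c.win i k).tube o).2.1 : ℤ) < (((c.tube o).2.1 / 2 ^ (c.n - k) : ℕ) : ℤ) -
      2 ^ (k - i) * (c.yk i o : ℕ) - (c.a o * c.xk i o * 2 ^ (k - i) / 2 ^ c.n : ℕ) - 5 + (8 : ℕ) := by
  have e1 : 2 ^ (c.n - k) * 2 ^ (k - i) * 2 ^ i = 2 ^ c.n := by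
    rw [← pow_add, ← pow_add]; congr 1; omega
  have e2 : 2 ^ (c.n - k) * 2 ^ (k - i) = 2 ^ (c.n - i) := by rw [← pow_add]; congr 1; omega
  have e3 : 2 ^ (c.n - k) * 2 ^ i = 2 ^ (c.n - (k - i)) := by rw [← pow_add]; congr 1; omega
  have := idx_aux (A := 2 ^ (c.n - k)) (B := 2 ^ (k - i)) (C := 2 ^ i) (a := c.a o) (x := c.x o)
    (y := c.y o) (by positivity) (by positivity) (by positivity) (e1 ▸ c.ha o)
  rw [e1, e2, e3] at this
  have t : ((c.win i k).tube o).2.1 = c.y o / 2 ^ (c.n - k) % 2 ^ (k - i) +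
      c.a o / 2 ^ (c.n - (k - i)) * (c.x o / 2 ^ (c.n - k) % 2 ^ (k - i)) / 2 ^ (k - i) := by
    change _ + (c.win i k).a o * _ / _ = _
    rw [c.win_a h]; rfl
  rw [← t] at this
  change (c.tube o).2.1 / _ ≤ _ + _ * c.yk i o + c.a o * c.xk i o * _ / _ + 5 ∧
    _ + _ * c.yk i o + c.a o * c.xk i o * _ / _ ≤ (c.tube o).2.1 / _ at this
  have c2 : (2 : ℤ) ^ (k - i) * (c.yk i o : ℕ) = ((2 ^ (k - i) * c.yk i o : ℕ) : ℤ) := by
    push_cast; rfl
  rw [c2]
  omega
/-- the tube of a window takes few values on a tube -/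
lemma H_win_tube (hw : Nn w) {i k : ℕ} (hi : i ≤ k) (h : k ≤ c.n) :
    H w (c.win i k).tube (pr c.tube (c.pk i)) ≤ 3 * tot w := by
  have h1 := H_le_int hw (F := fun o => (((c.win i k).tube o).2.1 : ℤ))
    (G := fun o => (((c.tube o).2.1 / 2 ^ (c.n - k) : ℕ) : ℤ) - 2 ^ (k - i) * (c.yk i o : ℕ) -
      (c.a o * c.xk i o * 2 ^ (k - i) / 2 ^ c.n : ℕ) - 5) (g := pr c.tube (c.pk i)) (K := 8)
    (by norm_num) (fun o o' e => by
      have e1 : c.tube o = c.tube o' := congrArg (·.1) e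
      have e2 : c.a o = c.a o' := congrArg (·.1) e1
      have e3 : c.xk i o = c.xk i o' := congrArg (·.2.1) e
      have e4 : c.yk i o = c.yk i o' := congrArg (·.2.2.1) e
      simp only [e1, e2, e3, e4]) fun o _ => c.win_idx hi h o
  have e8 : lg ((8 : ℕ) : ℝ) = 3 := by
    rw [show ((8 : ℕ) : ℝ) = 2 ^ 3 by norm_num, lg_two_pow]; norm_num
  rw [e8] at h1
  refine le_trans (H_mono hw (fun o o' e => ?_) Det.rfl) h1
  have e1 : (((c.win i k).tube o).2.1 : ℤ) = ((c.win i k).tube o').2.1 := congrArg (·.1) e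
  have e2 : c.a o = c.a o' := congrArg (·.2.1.1) e
  refine Prod.ext ?_ (Prod.ext (by exact_mod_cast e1) (congrArg (·.2.2) e))
  change c.a o / _ % _ = c.a o' / _ % _
  rw [e2]
lemma H_pk_tube (hw : Nn w) {i k : ℕ} (hi : i ≤ k) (h : k ≤ c.n) :
    H w (c.pk k) (pr c.tube (c.pk i)) ≤ c.hw w i k + 3 * tot w := by
  have h1 := H_tri hw (c.pk k) (c.win i k).tube (pr c.tube (c.pk i))
  have h2 := c.H_win_tube hw hi h
  have p := c.win_pk hi h le_rfl
  rw [Nat.add_sub_cancel' hi] at p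
  have h3 : H w (c.pk k) (pr (c.win i k).tube (pr c.tube (c.pk i))) ≤ c.hw w i k :=
    H_mono hw (Det.fst.trans p.1) Det.fst
  linarith
lemma H_pk_tube0 (hw : Nn w) {k : ℕ} (h : k ≤ c.n) :
    H w (c.pk k) c.tube ≤ c.hw w 0 k + 3 * tot w :=
  le_trans (H_mono hw Det.fst (Det.rfl.pr fun o o' e => c.det_b_pk o o' (congrArg (·.2.2) e)))
    (c.H_pk_tube hw (Nat.zero_le k) h)
lemma h_le_coarse (hw : Nn w) {j : ℕ} (h : j ≤ c.n) :
    c.h w ≤ H w (c.pk j) c.tube + c.hw w j c.n + 3 * tot w := by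
  have h1 := H_tri hw (c.pk c.n) (c.pk j) c.tube
  have h2 := c.H_pk_tube hw h le_rfl
  have h3 : H w (c.pk c.n) (pr (c.pk j) c.tube) ≤ H w (c.pk c.n) (pr c.tube (c.pk j)) :=
    H_mono hw Det.fst (Det.snd.pr Det.fst)
  unfold Cfg.h; linarith
lemma H_pk_xk (hw : Nn w) {k : ℕ} (h : k ≤ c.n) :
    H w (c.pk k) (pr (c.xk k) c.tube) ≤ 2 * tot w := by
  have h1 := H_le_mem hw (τ := fun o => c.yk k o % 4) (T := range 4)
    (fun o => mem_range.2 (Nat.mod_lt _ (by norm_num))) (pr (c.xk k) c.tube)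
  have e4 : lg ((4 : ℕ) : ℝ) = 2 := by
    rw [show ((4 : ℕ) : ℝ) = 2 ^ 2 by norm_num, lg_two_pow]; norm_num
  rw [card_range, e4] at h1
  refine le_trans (H_mono hw (fun o o' e => ?_) Det.rfl) h1
  have e1 : c.yk k o % 4 = c.yk k o' % 4 := congrArg (·.1) e
  have e2 : c.xk k o = c.xk k o' := congrArg (·.2.1) e
  have e3 : c.tube o = c.tube o' := congrArg (·.2.2) e
  have a := c.yk_near e2 e3
  have b := c.yk_near e2.symm e3.symm
  exact Prod.ext e2 (Prod.ext (show c.yk k o = c.yk k o' by omega) (congrArg (·.2.2) e3))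
lemma hw_sub (hw : Nn w) {i j k : ℕ} (hi : i ≤ j) (hj : j ≤ k) (h : k ≤ c.n) :
    c.hw w i k ≤ c.hw w i j + c.hw w j k + 6 * tot w := by
  have a : j - i ≤ k - i := by omega
  have h1 := (c.win i k).h_le_coarse hw (j := j - i) a
  have h2 := (c.win i k).H_pk_tube0 hw (k := j - i) a
  rw [win_n, c.hw_win a le_rfl (hi.trans hj) h, Nat.add_sub_cancel' hi,
    Nat.add_sub_cancel' (hi.trans hj)] at h1
  rw [c.hw_win (Nat.zero_le _) a (hi.trans hj) h, Nat.add_sub_cancel' hi, Nat.add_zero] at h2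
  change (c.win i k).h w ≤ _
  linarith
lemma h_le_sum (hw : Nn w) (M : ℕ) (z : ℕ → ℕ) (h0 : z 0 = 0) (hM : z M = c.n)
    (hz : ∀ m < M, z m ≤ z (m + 1)) :
    c.h w ≤ ∑ m ∈ range M, c.hw w (z m) (z (m + 1)) + 6 * M * tot w := by
  have mono : ∀ m k, m + k ≤ M → z m ≤ z (m + k) := fun m k => by
    induction k with
    | zero => exact fun _ => le_rfl
    | succ k ih => exact fun h => (ih (by omega)).trans (hz _ (by omega))
  have key : ∀ m ≤ M, c.hw w 0 (z m) ≤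
      ∑ m ∈ range m, c.hw w (z m) (z (m + 1)) + 6 * m * tot w := fun m => by
    induction m with
    | zero => intro _; simpa [h0] using c.hw_triv hw (le_refl 0)
    | succ m ih =>
      intro h
      have a := mono (m + 1) (M - (m + 1)) (by omega)
      rw [Nat.add_sub_cancel' h, hM] at a
      have := c.hw_sub hw (Nat.zero_le _) (hz m h) a
      have := ih (by omega)
      rw [sum_range_succ]; push_cast; linarith
  have := key M le_rfl
  rwa [hM, hw_full] at this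
lemma h_le_split (hw : Nn w) {τ : Ω → ι} {T : Finset ι} (h : ∀ o, τ o ∈ T) :
    c.h w ≤ ∑ t ∈ T, c.h (res w fun o => τ o = t) + lg #T * tot w := H_le_split hw h _ _
lemma h_le_res_add (hw : Nn w) (A : Ω → Prop) :
    c.h w ≤ c.h (res w A) + c.h (res w fun o => ¬ A o) + tot w := H_le_res_add hw A _ _

end Cfg

end Pool.Agent.Lib.MP_108739_an.F
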