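import Pool.Agent.Lib.MP_108739_an.F.Ent2
import Pool.Agent.Lib.MP_108739_an.F.Win1

/-! The penalties under windows and restrictions. -/

open Finset

namespace Pool.Agent.Lib.MP_108739_an.F
open Classical

section aux
variable {Ω α β γ δ : Type} [Fintype Ω] {w : Ω → ℝ}

lemma w2_cost_nonneg (hw : Nn w) (A : Ω → Prop) (g : Ω → α) {o : Ω} (h : 0 < res w A o) :
    0 ≤ lg (ms w g o / ms (res w A) g o) :=
  lg_nonneg ((one_le_div (ms_pos (hw.res A) g h)).2 (ms_res_le hw A g o))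

lemma w2_up (hw : Nn w) (A : Ω → Prop) (f : Ω → α) (g : Ω → β) {o : Ω} (h : 0 < res w A o) :
    lg (ms w g o / ms w f o) ≤
      lg (ms (res w A) g o / ms (res w A) f o) + lg (ms w g o / ms (res w A) g o) := by
  have h1 := ms_pos (hw.res A) f h
  have h2 := ms_pos (hw.res A) g h
  have h3 := ms_pos hw f (res_pos h).2
  have h4 := ms_pos hw g (res_pos h).2
  have h5 := lg_mono h1 (ms_res_le hw A f o)
  rw [lg_div h4 h3, lg_div h2 h1, lg_div h4 h2]
  linarith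

lemma w2_down (hw : Nn w) (A : Ω → Prop) (f : Ω → α) (g : Ω → β) {o : Ω} (h : 0 < res w A o) :
    lg (ms (res w A) g o / ms (res w A) f o) ≤
      lg (ms w g o / ms w f o) + lg (ms w f o / ms (res w A) f o) := by
  have h1 := ms_pos (hw.res A) f h
  have h2 := ms_pos (hw.res A) g h
  have h3 := ms_pos hw f (res_pos h).2
  have h4 := ms_pos hw g (res_pos h).2
  have h5 := lg_mono h2 (ms_res_le hw A g o)
  rw [lg_div h4 h3, lg_div h2 h1, lg_div h3 h1]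
  linarith

/-- coarsening the condition in the Frostman penalty -/
lemma w2_coarse (hw : Nn w) {g : Ω → α} {g' : Ω → β} {b : Ω → γ} (a : ℕ → Ω → δ) (h : Det g' g)
    (m : ℕ) (h' : ∀ y, Det (a y) b) (s : ℝ) :
    E w (fun o => mx (range (m + 1)) fun y => s * y - lg (ms w (pr b g) o / ms w (pr (a y) g) o)) ≤
      E w (fun o => mx (range (m + 1)) fun y =>
        s * y - lg (ms w (pr b g') o / ms w (pr (a y) g') o)) + lg (m + 2) * tot w := by
  have h1 := ls hw (range (m + 1)) (fun y o => ms w (pr (a y) g) o * ms w (pr b g') o /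
      (ms w (pr b g) o * ms w (pr (a y) g') o))
    (fun y _ o => div_nonneg (mul_nonneg (ms_nonneg hw _ o) (ms_nonneg hw _ o))
      (mul_nonneg (ms_nonneg hw _ o) (ms_nonneg hw _ o)))
    (fun y _ => ratio_coarse hw h (Det.fst.trans (h' y)))
  rw [card_range, show ((m + 1 : ℕ) : ℝ) + 1 = m + 2 by push_cast; ring] at h1
  refine le_trans ?_ (add_le_add le_rfl h1)
  rw [← E_add]
  refine E_mono hw fun o ho => mx_add_le fun y _ => ?_
  have p1 := ms_pos hw (pr (a y) g) ho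
  have p2 := ms_pos hw (pr b g') ho
  have p3 := ms_pos hw (pr b g) ho
  have p4 := ms_pos hw (pr (a y) g') ho
  rw [lg_div p3 p1, lg_div p2 p4, lg_div (mul_pos p1 p2) (mul_pos p3 p4), lg_mul p1 p2,
    lg_mul p3 p4]
  linarith

lemma w2_card_vals (w : Ω → ℝ) {f : Ω → α} {f' : Ω → β} {g : Ω → γ} {g' : Ω → δ} (h1 : Det f' f)
    (h2 : Det g g') (o : Ω) : #(vals w f g o) ≤ #(vals w f' g' o) := by
  let u : β → α := fun v => if h : ∃ p, f' p = v then f h.choose else f o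
  have hu : ∀ p, u (f' p) = f p := by
    intro p
    have h : ∃ q, f' q = f' p := ⟨p, rfl⟩
    simp only [u, dif_pos h]
    exact h1 _ _ h.choose_spec
  refine le_trans (card_le_card (t := (vals w f' g' o).image u) ?_) card_image_le
  intro v hv
  unfold vals at hv ⊢
  obtain ⟨p, hp, rfl⟩ := mem_image.1 hv
  rw [mem_filter] at hp
  exact mem_image.2 ⟨f' p, mem_image.2 ⟨p, mem_filter.2 ⟨hp.1, hp.2.1, h2 _ _ hp.2.2⟩, rfl⟩, hu p⟩

end aux

variable {Ω β ι : Type} [Fintype Ω] {w : Ω → ℝ} (c : Cfg Ω β)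

namespace Cfg

lemma Kt_nonneg (hw : Nn w) (t : ℝ) : 0 ≤ c.Kt w t := E_nonneg hw fun _ _ => mx_nonneg _ _
lemma FrW_nonneg (hw : Nn w) (s : ℝ) (j m : ℕ) : 0 ≤ c.FrW w s j m :=
  E_nonneg hw fun _ _ => mx_nonneg _ _
lemma Fr_nonneg (hw : Nn w) (s : ℝ) : 0 ≤ c.Fr w s := c.FrW_nonneg hw s 0 c.n
lemma Df_nonneg (hw : Nn w) (f : ℕ → ℝ) : 0 ≤ c.Df w f := E_nonneg hw fun _ _ => mx_nonneg _ _
lemma frI_res (hw : Nn w) (A : Ω → Prop) (s : ℝ) (j m : ℕ) {o : Ω} (h : 0 < res w A o) :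
    c.frI (res w A) s j m o ≤ c.frI w s j m o + lg (ms w (pr (c.ak j) (c.pk c.n)) o /
      ms (res w A) (pr (c.ak j) (c.pk c.n)) o) := by
  refine mx_le_add (w2_cost_nonneg hw A _ h) fun y _ => ?_
  have := w2_up hw A (pr (c.ak (j + y)) (c.pk c.n)) (pr (c.ak j) (c.pk c.n)) h
  linarith
lemma ktI_res (hw : Nn w) (A : Ω → Prop) (t : ℝ) {o : Ω} (h : 0 < res w A o) :
    c.ktI (res w A) t o ≤ c.ktI w t o +
      lg (ms w (c.pk c.n) o / ms (res w A) (c.pk c.n) o) := by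
  refine mx_le_add (w2_cost_nonneg hw A _ h) fun k _ => ?_
  have := w2_down hw A (c.pk c.n) (c.pk k) h
  linarith
lemma dfI_res (hw : Nn w) (A : Ω → Prop) (f : ℕ → ℝ) {o : Ω} (h : 0 < res w A o) :
    c.dfI (res w A) f o ≤ c.dfI w f o + mx (range (c.n + 1)) fun i =>
      lg (ms w (c.pk i) o / ms (res w A) (c.pk i) o) := by
  refine mx_le_add (mx_nonneg _ _) fun q hq => ?_
  have h1 := w2_up hw A (c.pk q.2) (c.pk q.1) h
  have h2 := le_mx (fun i => lg (ms w (c.pk i) o / ms (res w A) (c.pk i) o))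
    (mem_product.1 (mem_filter.1 hq).1).1
  linarith
lemma FrW_res (hw : Nn w) (A : Ω → Prop) (s : ℝ) (j m : ℕ) :
    c.FrW (res w A) s j m ≤ c.FrW w s j m + tot w := by
  have h1 := E_mono (hw.res A) fun o ho => c.frI_res hw A s j m (o := o) ho
  rw [E_add] at h1
  have h2 := E_res_le hw A (F := c.frI w s j m) fun _ _ => mx_nonneg _ _
  have h3 := cost_event hw A (pr (c.ak j) (c.pk c.n))
  exact le_trans h1 (add_le_add h2 h3)
lemma Kt_res (hw : Nn w) (A : Ω → Prop) (t : ℝ) : c.Kt (res w A) t ≤ c.Kt w t + tot w := by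
  have h1 := E_mono (hw.res A) fun o ho => c.ktI_res hw A t (o := o) ho
  rw [E_add] at h1
  have h2 := E_res_le hw A (F := c.ktI w t) fun _ _ => mx_nonneg _ _
  have h3 := cost_event hw A (c.pk c.n)
  exact le_trans h1 (add_le_add h2 h3)
lemma Df_res (hw : Nn w) (A : Ω → Prop) (f : ℕ → ℝ) :
    c.Df (res w A) f ≤ c.Df w f + (1 + lg (c.n + 2)) * tot w := by
  have h1 := E_mono (hw.res A) fun o ho => c.dfI_res hw A f (o := o) ho
  rw [E_add] at h1
  have h2 := E_res_le hw A (F := c.dfI w f) fun _ _ => mx_nonneg _ _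
  have h3 := cost_event_mx hw A (range (c.n + 1)) c.pk
  rw [card_range, show ((c.n + 1 : ℕ) : ℝ) + 1 = c.n + 2 by push_cast; ring] at h3
  exact le_trans h1 (add_le_add h2 h3)
lemma FrW_split (hw : Nn w) {τ : Ω → ι} {T : Finset ι} (h : ∀ o, τ o ∈ T) (s : ℝ) (j m : ℕ) :
    ∑ t ∈ T, c.FrW (res w fun o => τ o = t) s j m ≤ c.FrW w s j m + lg #T * tot w := by
  have h3 := cost_class hw h fun _ => pr (c.ak j) (c.pk c.n)
  have h2 := E_split (w := w) h (c.frI w s j m)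
  refine le_trans ?_ (add_le_add h2.ge h3)
  rw [← sum_add_distrib]
  refine sum_le_sum fun t _ => ?_
  rw [← E_add]
  exact E_mono (hw.res _) fun o ho => c.frI_res hw _ s j m ho
lemma Kt_split (hw : Nn w) {τ : Ω → ι} {T : Finset ι} (h : ∀ o, τ o ∈ T) (s : ℝ) :
    ∑ t ∈ T, c.Kt (res w fun o => τ o = t) s ≤ c.Kt w s + lg #T * tot w := by
  have h3 := cost_class hw h fun _ => c.pk c.n
  have h2 := E_split (w := w) h (c.ktI w s)
  refine le_trans ?_ (add_le_add h2.ge h3)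
  rw [← sum_add_distrib]
  refine sum_le_sum fun t _ => ?_
  rw [← E_add]
  exact E_mono (hw.res _) fun o ho => c.ktI_res hw _ s ho
lemma FrW_win (hw : Nn w) {i k j m : ℕ} (hi : i ≤ k) (h : k ≤ c.n) (hj : j + m ≤ k - i) (s : ℝ) :
    (c.win i k).FrW w s j m ≤ c.FrW w s j m + lg (c.n + 2) * tot w := by
  have d1 : Det (c.pk c.n) ((c.win i k).pk (c.win i k).n) :=
    (c.det_pk (by omega : i + (k - i) ≤ c.n)).trans (c.win_pk hi h le_rfl).2
  have h1 := w2_coarse hw (b := c.ak j) (fun y => c.ak (j + y)) d1 m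
    (fun y => c.det_ak (Nat.le_add_right j y)) s
  have h2 : lg ((m : ℝ) + 2) * tot w ≤ lg (c.n + 2) * tot w := by
    refine mul_le_mul_of_nonneg_right (lg_mono (by positivity) ?_) (tot_nonneg hw)
    have : (m : ℝ) ≤ c.n := by exact_mod_cast (by omega : m ≤ c.n)
    linarith
  refine le_trans (le_trans ?_ h1) (add_le_add le_rfl h2)
  refine E_mono hw fun o _ => mx_le (mx_nonneg _ _) fun y hy => ?_
  have hy' : y ≤ m := Nat.lt_succ_iff.1 (mem_range.1 hy)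
  rw [c.win_ak h (by omega : j ≤ k - i), c.win_ak h (by omega : j + y ≤ k - i)]
  exact le_mx (fun y : ℕ => s * y - lg (ms w (pr (c.ak j) ((c.win i k).pk (c.win i k).n)) o /
    ms w (pr (c.ak (j + y)) ((c.win i k).pk (c.win i k).n)) o)) hy
lemma FrW_mono (hw : Nn w) (s : ℝ) (j : ℕ) {m m' : ℕ} (h : m ≤ m') :
    c.FrW w s j m ≤ c.FrW w s j m' :=
  E_mono hw fun o _ => mx_le (mx_nonneg _ _) fun y hy =>
    le_mx (fun y : ℕ => s * y - lg (ms w (pr (c.ak j) (c.pk c.n)) o /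
      ms w (pr (c.ak (j + y)) (c.pk c.n)) o))
      (mem_range.2 (lt_of_lt_of_le (mem_range.1 hy) (by omega)))
lemma Fr_win (hw : Nn w) {i k : ℕ} (hi : i ≤ k) (h : k ≤ c.n) (s : ℝ) :
    (c.win i k).Fr w s ≤ c.Fr w s + lg (c.n + 2) * tot w := by
  have h1 := c.FrW_win hw hi h (j := 0) (m := k - i) (by omega) s
  have h2 := c.FrW_mono hw s 0 (by omega : k - i ≤ c.n)
  exact le_trans h1 (add_le_add h2 le_rfl)

omit [Fintype Ω] in
lemma w2_fat_det (j : ℕ) : Det (pr (c.ak j) (c.pk c.n)) ((c.fat j).pk (c.fat j).n) := by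
  intro o o' h
  simp only [pr, pk, xk, yk, Nat.sub_self, pow_zero, Nat.div_one, Prod.mk.injEq] at h
  obtain ⟨h1, h2, h3, h4⟩ := h
  simp only [pk, xk, yk, fat, ft, shr, h1, h2, h3, h4]

omit [Fintype Ω] in
lemma w2_fat_ak (j : ℕ) : Det ((c.fat j).pk (c.fat j).n) (c.ak j) := by
  intro o o' h
  exact congrArg (fun z => z.2.2.1) h

omit [Fintype Ω] in
lemma w2_fat_eq {j y : ℕ} (h : j + y ≤ c.n) (o : Ω) :
    (c.fat j).ak y o = c.ak (j + y) o % 2 ^ y := by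
  show c.a o % 2 ^ (c.n - j) / 2 ^ (c.n - j - y) = c.a o / 2 ^ (c.n - (j + y)) % 2 ^ y
  rw [show c.n - (j + y) = c.n - j - y by omega,
    show 2 ^ (c.n - j) = 2 ^ (c.n - j - y) * 2 ^ y by rw [← pow_add]; congr 1; omega,
    Nat.mod_mul_right_div_self]

omit [Fintype Ω] in
lemma w2_ak_div {j y : ℕ} (h : j + y ≤ c.n) (o : Ω) : c.ak (j + y) o / 2 ^ y = c.ak j o := by
  show c.a o / 2 ^ (c.n - (j + y)) / 2 ^ y = c.a o / 2 ^ (c.n - j)
  rw [Nat.div_div_eq_div_mul, ← pow_add]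
  congr 2
  omega

lemma w2_ms_fat {j y : ℕ} (h : j + y ≤ c.n) :
    ms w (pr ((c.fat j).ak y) ((c.fat j).pk (c.fat j).n)) =
      ms w (pr (c.ak (j + y)) ((c.fat j).pk (c.fat j).n)) := by
  refine ms_congr (Det.pr ?_ Det.snd) (Det.pr ?_ Det.snd)
  · intro o o' e
    have e1 : (c.fat j).ak y o = (c.fat j).ak y o' := Det.fst o o' e
    have e2 : c.ak j o = c.ak j o' := c.w2_fat_ak j o o' (Det.snd o o' e)
    rw [c.w2_fat_eq h, c.w2_fat_eq h] at e1
    rw [← c.w2_ak_div h, ← c.w2_ak_div h] at e2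
    rw [← Nat.div_add_mod (c.ak (j + y) o) (2 ^ y), ← Nat.div_add_mod (c.ak (j + y) o') (2 ^ y),
      e1, e2]
  · intro o o' e
    have e1 : c.ak (j + y) o = c.ak (j + y) o' := Det.fst o o' e
    rw [c.w2_fat_eq h, c.w2_fat_eq h, e1]

lemma Fr_fat (hw : Nn w) {j : ℕ} (h : j ≤ c.n) (s : ℝ) :
    (c.fat j).Fr w s ≤ c.FrW w s j (c.n - j) + lg (c.n + 2) * tot w := by
  have h1 := w2_coarse hw (b := c.ak j) (fun y => c.ak (j + y)) (c.w2_fat_det j) (c.n - j)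
    (fun y => c.det_ak (Nat.le_add_right j y)) s
  have h2 : lg (((c.n - j : ℕ) : ℝ) + 2) * tot w ≤ lg (c.n + 2) * tot w := by
    refine mul_le_mul_of_nonneg_right (lg_mono (by positivity) ?_) (tot_nonneg hw)
    have : ((c.n - j : ℕ) : ℝ) ≤ c.n := by exact_mod_cast Nat.sub_le _ _
    linarith
  have e : ∀ y, ms w (pr (c.ak (j + y)) (pr (c.ak j) (c.pk c.n))) =
      ms w (pr (c.ak (j + y)) (c.pk c.n)) := fun y =>
    ms_congr (Det.fst.pr (Det.snd.trans Det.snd))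
      (Det.fst.pr ((Det.fst.trans (c.det_ak (Nat.le_add_right j y))).pr Det.snd))
  have e0 : ms w (pr (c.ak j) (pr (c.ak j) (c.pk c.n))) = ms w (pr (c.ak j) (c.pk c.n)) := e 0
  simp only [e, e0] at h1
  refine le_trans (le_trans ?_ h1) (add_le_add le_rfl h2)
  refine E_mono hw fun o _ => mx_le (mx_nonneg _ _) fun y hy => ?_
  have hy' : y ≤ c.n - j := Nat.lt_succ_iff.1 (mem_range.1 hy)
  rw [zero_add, c.w2_ms_fat (by omega : j + 0 ≤ c.n), c.w2_ms_fat (by omega : j + y ≤ c.n)]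
  exact le_mx (fun y : ℕ => s * y - lg (ms w (pr (c.ak j) ((c.fat j).pk (c.fat j).n)) o /
    ms w (pr (c.ak (j + y)) ((c.fat j).pk (c.fat j).n)) o)) hy
lemma dfI_win {i k : ℕ} (hi : i ≤ k) (h : k ≤ c.n) (f : ℕ → ℝ) (o : Ω) :
    (c.win i k).dfI w (fun y => f (i + y)) o ≤ c.dfI w f o := by
  refine mx_le (mx_nonneg _ _) fun q hq => ?_
  obtain ⟨h1, h2⟩ := mem_filter.1 hq
  obtain ⟨h3, h4⟩ := mem_product.1 h1
  rw [mem_range, win_n] at h3 h4
  rw [c.ms_win_pk hi h (by omega : q.1 ≤ k - i), c.ms_win_pk hi h (by omega : q.2 ≤ k - i)]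
  exact le_mx (fun q : ℕ × ℕ => f q.2 - f q.1 - lg (ms w (c.pk q.1) o / ms w (c.pk q.2) o))
    (i := (i + q.1, i + q.2)) (mem_filter.2 ⟨mem_product.2
      ⟨mem_range.2 (by simp only; omega), mem_range.2 (by simp only; omega)⟩,
      by simp only; omega⟩)
lemma dfI_le {f g : ℕ → ℝ} {u : ℝ} (hu : 0 ≤ u)
    (h : ∀ i k, i ≤ k → k ≤ c.n → g k - g i ≤ f k - f i + u) (o : Ω) :
    c.dfI w g o ≤ c.dfI w f o + u := by
  refine mx_le_add hu fun q hq => ?_
  obtain ⟨h1, h2⟩ := mem_filter.1 hq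
  have := h q.1 q.2 h2 (Nat.lt_succ_iff.1 (mem_range.1 (mem_product.1 h1).2))
  linarith
lemma Df_win (hw : Nn w) {i k : ℕ} (hi : i ≤ k) (h : k ≤ c.n) (f : ℕ → ℝ) :
    (c.win i k).Df w (fun y => f (i + y)) ≤ c.Df w f :=
  E_mono hw fun o _ => c.dfI_win hi h f o
lemma Df_le (hw : Nn w) {f g : ℕ → ℝ} {u : ℝ} (hu : 0 ≤ u)
    (h : ∀ i k, i ≤ k → k ≤ c.n → g k - g i ≤ f k - f i + u) :
    c.Df w g ≤ c.Df w f + u * tot w := by
  rw [← E_const]
  exact le_trans (E_mono hw fun o _ => c.dfI_le hu h o) (E_add _ _).le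
lemma H_ge_Df (hw : Nn w) (f : ℕ → ℝ) {i k : ℕ} (hi : i ≤ k) (h : k ≤ c.n) :
    (f k - f i) * tot w - c.Df w f ≤ H w (c.pk k) (c.pk i) := by
  rw [← E_const]
  refine le_trans (E_sub _ _).ge (E_mono hw fun o _ => ?_)
  rw [ms_congr (w := w) (Det.fst (f := c.pk k) (g := c.pk i)) (Det.rfl.pr (c.det_pk hi))]
  have := le_mx (fun q : ℕ × ℕ => f q.2 - f q.1 - lg (ms w (c.pk q.1) o / ms w (c.pk q.2) o))
    (s := (range (c.n + 1) ×ˢ range (c.n + 1)).filter fun q => q.1 ≤ q.2)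
    (i := (i, k)) (mem_filter.2 ⟨mem_product.2
      ⟨mem_range.2 (by simp only; omega), mem_range.2 (by simp only; omega)⟩, hi⟩)
  unfold dfI
  linarith
lemma Cov.res {f : ℕ → ℝ} {U : ℝ} (h : c.Cov w f U) (A : Ω → Prop) : c.Cov (res w A) f U := by
  intro i k o hi hk
  refine le_trans ?_ (h i k o hi hk)
  refine Nat.cast_le.2 (card_le_card fun v hv => ?_)
  obtain ⟨p, h1, h2, h3⟩ := mem_vals.1 hv
  exact mem_vals.2 ⟨p, (res_pos h1).2, h2, h3⟩
lemma Cov.win {f : ℕ → ℝ} {U : ℝ} (h : c.Cov w f U) {i k : ℕ} (hi : i ≤ k) (hk : k ≤ c.n) :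
    (c.win i k).Cov w (fun y => f (i + y)) U := by
  intro i' k' o hi' hk'
  rw [win_n] at hk'
  refine le_trans ?_ (h (i + i') (i + k') o (by omega) (by omega))
  exact Nat.cast_le.2 (w2_card_vals w (c.win_pk hi hk hk').2
    (c.win_pk hi hk (hi'.trans hk')).1 o)
lemma Cov.mono {f g : ℕ → ℝ} {U V : ℝ} (h : c.Cov w f U)
    (h' : ∀ i k, i ≤ k → k ≤ c.n → f k - f i + U ≤ g k - g i + V) : c.Cov w g V :=
  fun i k o hi hk => (h i k o hi hk).trans
    (Real.rpow_le_rpow_of_exponent_le (by norm_num) (h' i k hi hk))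
lemma Cov.H_le (hw : Nn w) {f : ℕ → ℝ} {U : ℝ} (h : c.Cov w f U) {i k : ℕ} (hi : i ≤ k)
    (hk : k ≤ c.n) : H w (c.pk k) (c.pk i) ≤ (f k - f i + U) * tot w := by
  by_cases hp : ∃ o, 0 < w o
  · obtain ⟨o, ho⟩ := hp
    have h1 : (1 : ℝ) ≤ #(vals w (c.pk k) (c.pk i) o) := by
      have : 0 < #(vals w (c.pk k) (c.pk i) o) :=
        card_pos.2 ⟨c.pk k o, mem_vals.2 ⟨o, ho, rfl, rfl⟩⟩
      exact_mod_cast this
    have := H_le_card hw (h1.trans (h i k o hi hk)) fun o _ => h i k o hi hk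
    rwa [lg_two_rpow] at this
  · rw [← E_const]
    exact E_mono hw fun o ho => absurd ⟨o, ho⟩ hp

end Cfg

end Pool.Agent.Lib.MP_108739_an.F
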