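import Pool.Agent.Lib.MP_108739_an.F.TDefs
import Pool.Agent.Lib.MP_108739_an.F.Win2

/-! The estimate with one Frostman exponent, from types and profiles. -/

open Finset

namespace Pool.Agent.Lib.MP_108739_an.F
open Classical

lemma rw_lg {A δ : ℝ} (hA : 0 ≤ A) (hδ : 0 < δ) :
    ∃ C : ℝ, 0 ≤ C ∧ ∀ n : ℕ, A * lg (n + 2) ≤ δ * n + C := by
  have hl : 0 < (A + 1) / δ := by positivity
  refine ⟨2 * δ + A * |lg ((A + 1) / δ)|, by positivity, fun n => ?_⟩
  have h0 : (0 : ℝ) < n + 2 := by positivity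
  have h1 := lg_div h0 hl
  have h2 := lg_le_self (div_pos h0 hl).le
  have h3 : lg (n + 2) ≤ (n + 2) / ((A + 1) / δ) + |lg ((A + 1) / δ)| := by
    linarith [le_abs_self (lg ((A + 1) / δ))]
  have h4 := mul_le_mul_of_nonneg_left h3 hA
  have h5 : A * ((n + 2) / ((A + 1) / δ)) ≤ δ * (n + 2) := by
    rw [div_div_eq_mul_div, ← mul_div_assoc, div_le_iff₀ (by positivity)]
    nlinarith [mul_pos h0 hδ]
  linarith

lemma rw_tail {δ : ℝ} (hδ : 0 < δ) :
    ∃ C : ℝ, 0 ≤ C ∧ ∀ n : ℕ, n * (((n : ℝ) + 1) ^ 2 * (2 : ℝ) ^ (-(δ * n))) ≤ C := by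
  obtain ⟨C, _, h⟩ := rw_lg (A := 3) (by norm_num) hδ
  refine ⟨(2 : ℝ) ^ C, by positivity, fun n => ?_⟩
  have h0 : (0 : ℝ) < n + 2 := by positivity
  have h1 : ((n : ℝ) + 2) ^ 3 = (2 : ℝ) ^ (3 * lg (n + 2)) := by
    rw [mul_comm, Real.rpow_mul two_pos.le, two_rpow_lg h0]
    exact_mod_cast rfl
  have h2 : (n : ℝ) * ((n : ℝ) + 1) ^ 2 ≤ ((n : ℝ) + 2) ^ 3 := by
    have : (0 : ℝ) ≤ n := Nat.cast_nonneg n
    nlinarith [mul_nonneg this this]
  rw [← mul_assoc]
  refine (mul_le_mul_of_nonneg_right (h2.trans_eq h1) (by positivity)).trans ?_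
  rw [← Real.rpow_add two_pos]
  exact Real.rpow_le_rpow_of_exponent_le one_le_two (by linarith [h n])

lemma rw_class {Ω β : Type} [Fintype Ω] (c : Cfg Ω β) {w : Ω → ℝ} (hw : Nn w) (A : Ω → Prop)
    {f : ℕ → ℝ} {U : ℝ} (hU : 0 ≤ U) (t : ℝ)
    (h : ∀ o, 0 < w o → A o → ∀ i k, i ≤ k → k ≤ c.n →
      |f k - f i - lg (ms w (c.pk i) o / ms w (c.pk k) o)| ≤ U) :
    mx (range (c.n + 1)) (fun k => f c.n - f k - t * ((c.n : ℝ) - k)) * tot (res w A) ≤
        E (res w A) (c.ktI w t) + U * tot (res w A) ∧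
      c.Df (res w A) f ≤ U * tot (res w A) + E (res w A) fun o => mx (range (c.n + 1)) fun i =>
        lg (ms w (c.pk i) o / ms (res w A) (c.pk i) o) := by
  constructor
  · rw [← E_const, ← E_const, ← E_add]
    refine E_mono (hw.res A) fun o ho => mx_le_add hU fun k hk => ?_
    have := (abs_le.1 (h o (res_pos ho).2 (res_pos ho).1 k c.n
      (Nat.lt_succ_iff.1 (mem_range.1 hk)) le_rfl)).2
    linarith
  · rw [← E_const, ← E_add]
    refine E_mono (hw.res A) fun o ho => (c.dfI_res hw A f ho).trans (add_le_add_left ?_ _)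
    refine mx_le hU fun q hq => ?_
    obtain ⟨h1, h2⟩ := mem_filter.1 hq
    exact (abs_le.1 (h o (res_pos ho).2 (res_pos ho).1 q.1 q.2 h2
      (Nat.lt_succ_iff.1 (mem_range.1 (mem_product.1 h1).2)))).2

theorem rw (hT : TypeStmt) (hP : ProfStmt) : RwStmt := by
  intro s0 ε hs0 hε
  obtain ⟨κ, K, C, hκ, hK, hC, hp⟩ := hP s0 (ε / 4) hs0 (by positivity)
  obtain ⟨u, hu, u1, u2⟩ : ∃ u : ℝ, 0 < u ∧ 2 * u ≤ κ ∧ (K + 1) * u ≤ ε / 4 := by
    refine ⟨min (κ / 2) (ε / 4 / (K + 1)), by positivity, ?_, ?_⟩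
    · linarith [min_le_left (κ / 2) (ε / 4 / (K + 1))]
    · exact (le_div_iff₀' (by positivity)).1 (min_le_right _ _)
  obtain ⟨M, hM⟩ := exists_nat_ge (2 / u + 1)
  obtain ⟨C1, hC1, h1⟩ := rw_lg (A := (2 * K + 1) * (M + 2) + K) (δ := ε / 2) (by positivity)
    (by positivity)
  obtain ⟨C2, hC2, h2⟩ := rw_tail hu
  refine ⟨K, C + C1 + C2, hK, by positivity, fun Ω β _ c w s t hw a1 a2 a3 => ?_⟩
  have t0 := tot_nonneg hw
  have hts : 0 ≤ (t - s) / 2 := by linarith
  rcases Nat.eq_zero_or_pos c.n with hn | hn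
  · have b1 := c.h_triv hw
    have b2 := c.Kt_nonneg hw t
    have b3 := mul_nonneg hK (c.Fr_nonneg hw s)
    have b4 : 0 ≤ (C + C1 + C2) * tot w := by positivity
    rw [hn] at b1 ⊢
    push_cast at b1 ⊢
    linarith
  have hn' : (0 : ℝ) < c.n := Nat.cast_pos.2 hn
  obtain ⟨τ, bad, p1, p2, p3, p4⟩ := hT Ω β c w (u * c.n) M hw (by positivity) (by
    rwa [mul_div_mul_right _ _ hn'.ne'])
  set S := (univ.filter fun o => 0 < w o ∧ ¬ bad o).image τ with hS
  let σ : Ω → Option (ℕ → ℝ) := fun o => if 0 < w o ∧ ¬ bad o then some (τ o) else none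
  have hσ : ∀ o, σ o ∈ insertNone S := fun o => by
    rw [mem_insertNone]
    intro f hf
    by_cases ho : 0 < w o ∧ ¬ bad o
    · simp only [σ, if_pos ho, Option.mem_def, Option.some.injEq] at hf
      exact mem_image.2 ⟨o, mem_filter.2 ⟨mem_univ _, ho⟩, hf⟩
    · simp [σ, if_neg ho] at hf
  have hσ' : ∀ o f, σ o = some f → 0 < w o ∧ ¬ bad o ∧ τ o = f := fun o f hf => by
    by_cases ho : 0 < w o ∧ ¬ bad o
    · simp only [σ, if_pos ho, Option.some.injEq] at hf
      exact ⟨ho.1, ho.2, hf⟩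
    · simp [σ, if_neg ho] at hf
  have hc : lg (insertNone S).card ≤ (M + 2) * lg (c.n + 2) := by
    have e : ((c.n : ℝ) + 2) ^ (M + 2) = (2 : ℝ) ^ ((M + 2) * lg (c.n + 2)) := by
      rw [mul_comm, Real.rpow_mul two_pos.le, two_rpow_lg (by positivity)]
      exact_mod_cast rfl
    rw [card_insertNone]
    refine lg_le_of_le_rpow (by positivity) (le_trans ?_ e.le)
    have q1 : 1 ≤ (c.n + 2) ^ (M + 1) := Nat.one_le_pow _ _ (by omega)
    have q2 : S.card + 1 ≤ (c.n + 2) ^ (M + 2) := by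
      rw [pow_succ]
      nlinarith
    exact_mod_cast q2
  have key : ∀ x ∈ insertNone S, c.h (res w fun o => σ o = x) ≤
      E (res w fun o => σ o = x) (c.ktI w t) +
      ((K + 1) * (u * c.n) + ((t - s) / 2 + ε / 4) * c.n + C) * tot (res w fun o => σ o = x) +
      K * c.Fr (res w fun o => σ o = x) s +
      K * E (res w fun o => σ o = x) (fun o => mx (range (c.n + 1)) fun i =>
        lg (ms w (c.pk i) o / ms (res w fun o => σ o = x) (c.pk i) o)) +
      if x = none then C2 * tot w else 0 := by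
    intro x hx
    have hx0 := hw.res fun o => σ o = x
    rcases x with _ | f
    · have b1 := c.h_triv hx0
      have b2 : tot (res w fun o => σ o = none) ≤ tot (res w bad) :=
        tot_res_mono hw fun o ho h => by
          by_contra hb
          simp [σ, ho, hb] at h
      have b3 := mul_le_mul_of_nonneg_left (b2.trans p1) hn'.le
      have b4 := mul_le_mul_of_nonneg_right (h2 c.n) t0
      have b5 : 0 ≤ E (res w fun o => σ o = none) (c.ktI w t) :=
        E_nonneg hx0 fun _ _ => mx_nonneg _ _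
      have b6 := mul_nonneg hK (c.Fr_nonneg hx0 s)
      have b7 := mul_nonneg hK (E_nonneg (F := fun o => mx (range (c.n + 1)) fun i =>
        lg (ms w (c.pk i) o / ms (res w fun o => σ o = none) (c.pk i) o)) hx0
        fun _ _ => mx_nonneg _ _)
      have b8 : 0 ≤ ((K + 1) * (u * c.n) + ((t - s) / 2 + ε / 4) * c.n + C) *
          tot (res w fun o => σ o = none) := mul_nonneg (by positivity) (tot_nonneg hx0)
      rw [if_pos rfl]
      linarith
    · obtain ⟨o, ho, rfl⟩ := mem_image.1 (some_mem_insertNone.1 hx)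
      obtain ⟨o1, o2⟩ := (mem_filter.1 ho).2
      have e : (res w fun o' => σ o' = some (τ o)) = res w fun o' => ¬ bad o' ∧ τ o' = τ o := by
        funext o'
        rcases (hw o').eq_or_lt with h | h
        · simp [res, ← h]
        · by_cases hb : bad o' <;> simp [res, σ, h, hb]
      have hu' := mul_le_mul_of_nonneg_right u1 hn'.le
      have hun : 0 ≤ u * c.n := by positivity
      obtain ⟨r1, r2⟩ := rw_class c hw (fun o' => σ o' = some (τ o)) (f := τ o) hun t
        fun o' _ h i k hi hk => by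
          obtain ⟨q1, q2, q3⟩ := hσ' o' _ h
          exact q3 ▸ (p3 o' q1 q2 i k hi hk).2.2
      have b1 := hp Ω β c _ s t _ (τ o) hx0 a1 a2 a3
        (fun i k hi hk => ⟨(p3 o o1 o2 i k hi hk).1, by linarith [(p3 o o1 o2 i k hi hk).2.1]⟩)
        (e ▸ Cfg.Cov.mono c (p4 o) fun _ _ _ _ => by linarith) (mx_nonneg _ _)
        fun k hk => le_mx (fun k => τ o c.n - τ o k - t * ((c.n : ℝ) - k))
          (mem_range.2 (Nat.lt_succ_of_le hk))
      have b2 := mul_le_mul_of_nonneg_left r2 hK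
      rw [if_neg (Option.some_ne_none _)]
      linarith
  have s1 := (c.h_le_split hw hσ).trans (add_le_add_left (sum_le_sum key) _)
  simp only [sum_add_distrib, ← mul_sum] at s1
  rw [← E_split hσ, ← tot_split hσ, sum_ite_eq', if_pos none_mem_insertNone] at s1
  have s2 := mul_le_mul_of_nonneg_left (c.FrW_split hw hσ s 0 c.n) hK
  have s3 := mul_le_mul_of_nonneg_left (cost_class_mx hw hσ (range (c.n + 1)) fun _ i => c.pk i) hK
  rw [card_range] at s3
  push_cast at s3
  rw [add_assoc (c.n : ℝ), one_add_one_eq_two] at s3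
  have s4 := mul_le_mul_of_nonneg_right hc (by positivity : 0 ≤ (2 * K + 1) * tot w)
  have s5 := mul_le_mul_of_nonneg_right (h1 c.n) t0
  have s6 := mul_le_mul_of_nonneg_right u2 (by positivity : 0 ≤ c.n * tot w)
  unfold Cfg.Fr at s1 ⊢
  unfold Cfg.Kt
  linarith

end Pool.Agent.Lib.MP_108739_an.F
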