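import Pool.Agent.Lib.MP_108739_an.F.TDefs

/-! The core of the tent estimate: the flags whose coarse square carries a small part of the tube
have small mass. -/

open Finset

namespace Pool.Agent.Lib.MP_108739_an.F

noncomputable section
open Classical

namespace TC

variable {Ω β : Type} [Fintype Ω]

omit [Fintype Ω] in
lemma res_pos {w : Ω → ℝ} {A : Ω → Prop} {o : Ω} (h : 0 < res w A o) : A o ∧ 0 < w o := by
  unfold res at h
  split_ifs at h with hA
  · exact ⟨hA, h⟩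
  · exact absurd h (lt_irrefl _)

omit [Fintype Ω] in
lemma res_nn {w : Ω → ℝ} (hw : Nn w) (A : Ω → Prop) : Nn (res w A) := fun o => by
  unfold res; split_ifs; exacts [hw o, le_rfl]

omit [Fintype Ω] in
lemma res_le {w : Ω → ℝ} (hw : Nn w) (A : Ω → Prop) (o : Ω) : res w A o ≤ w o := by
  unfold res; split_ifs; exacts [le_rfl, hw o]

omit [Fintype Ω] in
lemma res_eq {w : Ω → ℝ} {A : Ω → Prop} {o : Ω} (h : A o) : res w A o = w o := if_pos h

lemma gd_res {c : Cfg Ω β} {w w1 : Ω → ℝ} {s : ℝ} {f : ℕ → ℝ} {U V : ℝ} (h : c.Gd w w1 s f U V)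
    (A : Ω → Prop) : c.Gd w (res w1 A) s f U V :=
  ⟨h.nn, res_nn h.n1 A, fun o => (res_le h.n1 A o).trans (h.le o), h.s0, h.s1, h.hU, h.hV, h.cov,
    fun o ho => h.dir o (res_pos ho).2, fun o ho => h.dfn o (res_pos ho).2⟩

lemma Rc_mono (c : Cfg Ω β) (w : Ω → ℝ) (i y : ℕ) {W W' : ℕ} (h : W ≤ W') (o : Ω) :
    c.Rc w i y W o ≤ c.Rc w i y W' o := by
  unfold Cfg.Rc hlR
  refine card_le_card fun q hq => ?_
  rw [mem_filter] at hq ⊢
  exact ⟨hq.1, hq.2.trans (by exact_mod_cast h)⟩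

lemma Rc_le (c : Cfg Ω β) (w : Ω → ℝ) (i y W : ℕ) (o : Ω) : c.Rc w i y W o ≤ #(c.sqs w i y o) :=
  card_filter_le _ _

lemma cov_mono {c : Cfg Ω β} {w : Ω → ℝ} {f : ℕ → ℝ} {U : ℝ} (h : c.Cov w f U) {o : Ω}
    (h0 : 0 < w o) {y : ℕ} (hy : y ≤ c.n) : f y ≤ f c.n + U := by
  have h1 : c.pk c.n o ∈ vals w (c.pk c.n) (c.pk y) o := by
    simp only [vals, mem_image, mem_filter, mem_univ, true_and]
    exact ⟨o, ⟨h0, rfl⟩, rfl⟩
  have h2 : (1 : ℝ) ≤ #(vals w (c.pk c.n) (c.pk y) o) := by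
    exact_mod_cast card_pos.2 ⟨_, h1⟩
  have h3 := h2.trans (h y c.n o hy le_rfl)
  by_contra hlt
  have := Real.rpow_lt_one_of_one_lt_of_neg (x := 2) (z := f c.n - f y + U) one_lt_two (by linarith)
  linarith

omit [Fintype Ω] in
lemma card_pk_le (c : Cfg Ω β) (S : Finset Ω) (a : ℕ) :
    #(S.image (c.pk a)) ≤ #(S.image (c.pk c.n)) := by
  have : S.image (c.pk a) = (S.image (c.pk c.n)).image
      fun q => (q.1 / 2 ^ (c.n - a), q.2.1 / 2 ^ (c.n - a), q.2.2) := by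
    rw [image_image]
    refine image_congr fun o _ => ?_
    simp [Cfg.pk, Cfg.xk, Cfg.yk]
  rw [this]; exact card_image_le

lemma exp_le {a b : ℝ} (h : (2 : ℝ) ^ a ≤ 2 ^ b) : a ≤ b :=
  (Real.rpow_le_rpow_left_iff one_lt_two).1 h

lemma le_exp {a b : ℝ} (h : a ≤ b) : (2 : ℝ) ^ a ≤ 2 ^ b :=
  Real.rpow_le_rpow_of_exponent_le one_le_two h

lemma three_le (m : ℕ) (e : ℝ) : 3 * (2 : ℝ) ^ m * 2 ^ e ≤ (2 : ℝ) ^ (2 + m + e) := by
  rw [Real.rpow_add two_pos, Real.rpow_add two_pos, Real.rpow_natCast, Real.rpow_two]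
  gcongr; norm_num

/-- exponent of the threshold -/
def ex (f : ℕ → ℝ) (s U V : ℝ) (m u v : ℕ) : ℝ :=
  f (u * m + v * m) - f 0 - ((u : ℝ) * m + v * m) - (1 - s) * ((u : ℝ) * m) +
    (3 * V + U + 4 * m + 5) + v * (U + 7)

/-- the class of the flags with first levels `u`, `v` -/
def Cl (c : Cfg Ω β) (w : Ω → ℝ) (f : ℕ → ℝ) (s U V r' : ℝ) (m a0 u v : ℕ) (o : Ω) : Prop :=
  (2 : ℝ) ^ r' ≤ #((c.far w (u * m) m o).image (c.pk a0)) ∧
  100 * c.Rc w (u * m) (u * m + v * m) (2 ^ m) o ≤ 2 ^ m * c.Rc w (u * m) (u * m + v * m) 8 o ∧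
  (2 : ℝ) ^ ex f s U V m u v ≤ c.Rc w (u * m) (u * m + v * m) 8 o ∧
  (c.Rc w (u * m) (u * m + v * m) 8 o : ℝ) ≤ (2 : ℝ) ^ (m + ex f s U V m u v) ∧
  u * m + v * m ≤ c.n

lemma exists_cl (hA : GeoA) (hB : GeoB) (hC : GeoC) {c : Cfg Ω β} {w w1 : Ω → ℝ} {s : ℝ}
    {f : ℕ → ℝ} {U V r' : ℝ} {m a0 : ℕ} (G : c.Gd w w1 s f U V) (hm : 4 ≤ m) (ha : a0 ≤ c.n)
    (hf : ∀ y ≤ a0, (2 - s) * y - V ≤ f y - f 0)
    (hr : f c.n - f 0 - c.n + 8 * m + 5 * V + 3 * U + ((c.n / m : ℕ) : ℝ) * (U + 7) + 8 ≤ r')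
    {o : Ω} (h0 : 0 < w1 o) {u : ℕ} (hu : u * m ≤ a0)
    (hfar : (2 : ℝ) ^ r' ≤ #((c.far w (u * m) m o).image (c.pk a0))) :
    ∃ v ≤ c.n / m, Cl c w f s U V r' m a0 u v o := by
  have hm0 : 0 < m := by omega
  have hU := G.hU
  have hV := G.hV
  have hmR : (4 : ℝ) ≤ m := by exact_mod_cast hm
  have hun : u * m ≤ c.n := hu.trans ha
  set vm := (c.n - u * m) / m with hvm
  have hv1 : u * m + vm * m ≤ c.n := by
    have := Nat.div_mul_le_self (c.n - u * m) m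
    rw [← hvm] at this; omega
  have hv2 : c.n < u * m + vm * m + m := by
    have := Nat.lt_div_mul_add (a := c.n - u * m) hm0
    rw [← hvm] at this; omega
  have hv3 : vm ≤ c.n / m := Nat.div_le_div_right (Nat.sub_le _ _)
  have hex : ∃ v, v ≤ vm ∧ (2 : ℝ) ^ ex f s U V m u v < c.Rc w (u * m) (u * m + v * m) 8 o := by
    by_contra hno
    have h1 : (c.Rc w (u * m) (u * m + vm * m) 8 o : ℝ) ≤ (2 : ℝ) ^ ex f s U V m u vm :=
      not_lt.1 fun h => hno ⟨vm, le_rfl, h⟩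
    have h2 := hC Ω β c w (u * m) (u * m + vm * m) m m a0 o (Nat.le_add_right _ _) hv1 ha
      (by omega)
    have h3 : (#((c.far w (u * m) m o).image (c.pk a0)) : ℝ) ≤
        3 * 2 ^ m * (c.Rc w (u * m) (u * m + vm * m) 8 o : ℝ) := by exact_mod_cast h2
    have h4 := exp_le (hfar.trans (h3.trans
      ((mul_le_mul_of_nonneg_left h1 (by positivity)).trans (three_le m _))))
    have h5 := cov_mono G.cov (h0.trans_le (G.le o)) hv1
    have h6 : (c.n : ℝ) < (u : ℝ) * m + vm * m + m := by exact_mod_cast hv2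
    have h7 : (vm : ℝ) * (U + 7) ≤ ((c.n / m : ℕ) : ℝ) * (U + 7) :=
      mul_le_mul_of_nonneg_right (by exact_mod_cast hv3) (by linarith)
    have h8 : 0 ≤ (1 - s) * ((u : ℝ) * m) := mul_nonneg (by linarith [G.s1]) (by positivity)
    unfold ex at h4
    linarith
  obtain ⟨hv, hlt⟩ := Nat.find_spec hex
  have hmin := fun v (h : v < Nat.find hex) => Nat.find_min hex h
  generalize Nat.find hex = v at hv hlt hmin
  rcases v with _ | v
  · exfalso
    have h1 := (hA Ω β c w f U (u * m) (u * m) o G.cov le_rfl hun).2.1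
    have h2 := (Rc_le c w (u * m) (u * m) 8 o).trans h1
    have h3 : (c.Rc w (u * m) (u * m) 8 o : ℝ) ≤ 21 := by exact_mod_cast h2
    have h4 := hf (u * m) hu
    push_cast at h4
    have h5 : (2 : ℝ) ^ (5 : ℝ) ≤ (2 : ℝ) ^ ex f s U V m u 0 := le_exp (by
      unfold ex; simp only [zero_mul, add_zero, Nat.cast_zero]; linarith)
    have h6 : (2 : ℝ) ^ (5 : ℝ) = 32 := by
      rw [show (5 : ℝ) = (5 : ℕ) by norm_num, Real.rpow_natCast]; norm_num
    simp only [zero_mul, add_zero] at hlt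
    linarith
  · have e : u * m + (v + 1) * m = u * m + v * m + m := by ring
    have hyn : u * m + (v + 1) * m ≤ c.n :=
      le_trans (Nat.add_le_add_left (Nat.mul_le_mul_right m hv) _) hv1
    have h1 : (c.Rc w (u * m) (u * m + v * m) 8 o : ℝ) ≤ (2 : ℝ) ^ ex f s U V m u v :=
      not_lt.1 fun h => hmin v (Nat.lt_succ_self v) ⟨by omega, h⟩
    have h2 := hB Ω β c w f U (u * m) (u * m + v * m) m o G.cov (Nat.le_add_right _ _)
      (e ▸ hyn)
    rw [← e] at h2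
    have h3 : (c.Rc w (u * m) (u * m + (v + 1) * m) (2 ^ m) o : ℝ) ≤
        (2 : ℝ) ^ (m + ex f s U V m u (v + 1) - 7) := by
      refine h2.trans ((mul_le_mul_of_nonneg_left h1 (by positivity)).trans (le_of_eq ?_))
      rw [← Real.rpow_add two_pos]
      congr 1
      unfold ex; push_cast; ring
    have h7 : (2 : ℝ) ^ (m + ex f s U V m u (v + 1) - 7) =
        2 ^ m * (2 : ℝ) ^ ex f s U V m u (v + 1) / 128 := by
      rw [Real.rpow_sub two_pos, Real.rpow_add two_pos, Real.rpow_natCast,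
        show (7 : ℝ) = (7 : ℕ) by norm_num, Real.rpow_natCast]; norm_num
    refine ⟨v + 1, hv.trans hv3, hfar, ?_, hlt.le, ?_, hyn⟩
    · have h4 : (0 : ℝ) < 2 ^ m := by positivity
      have h5 := mul_le_mul_of_nonneg_left hlt.le h4.le
      have h6 : (0 : ℝ) ≤ 2 ^ m * (2 : ℝ) ^ ex f s U V m u (v + 1) := by positivity
      have : (100 : ℝ) * (c.Rc w (u * m) (u * m + (v + 1) * m) (2 ^ m) o : ℝ) ≤
          2 ^ m * (c.Rc w (u * m) (u * m + (v + 1) * m) 8 o : ℝ) := by linarith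
      exact_mod_cast this
    · have h8 : 8 ≤ 2 ^ m := le_trans (by norm_num) (Nat.pow_le_pow_right two_pos hm)
      exact (Nat.cast_le.2 (Rc_mono c w _ _ h8 o)).trans (h3.trans (le_exp (by linarith)))

lemma cancel {a b m T K : ℝ} (hK : 0 ≤ K) (t : ℝ) (h : (2 : ℝ) ^ a * T ≤ K * 2 ^ b * t)
    (ht : 0 ≤ t) (hab : b - a ≤ -m) : T ≤ K * 2 ^ (-m) * t := by
  have h1 : (2 : ℝ) ^ b ≤ 2 ^ a * 2 ^ (-m) := by
    rw [← Real.rpow_add two_pos]; exact le_exp (by linarith)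
  have ha : (0 : ℝ) < 2 ^ a := by positivity
  refine le_of_mul_le_mul_left (h.trans ?_) ha
  calc K * 2 ^ b * t ≤ K * (2 ^ a * 2 ^ (-m)) * t := by gcongr
    _ = _ := by ring

end TC

open TC in
theorem tcore (hA : GeoA) (hB : GeoB) (hC : GeoC) (hCa : CaStmt) (hCb : CbStmt) (hE : EndsStmt) :
    TCoreStmt := by
  obtain ⟨Ca, hCa1, hCa⟩ := hCa
  obtain ⟨Cb, hCb1, hCb⟩ := hCb
  refine ⟨1 + (Ca + Cb), by linarith, ?_⟩
  intro Ω β _ c w w1 s f U V r m a0 G hm ha hf hr0 hr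
  have hU := G.hU
  have hV := G.hV
  have hm0 : 0 < m := by omega
  have hmR : (4 : ℝ) ≤ m := by exact_mod_cast hm
  set N : ℝ := ((c.n / m : ℕ) : ℝ) with hN
  have hN0 : 0 ≤ N := by positivity
  have hNU : 0 ≤ N * U := mul_nonneg hN0 hU
  have p0 : 0 ≤ phi f s 0 c.n := le_max_left _ _
  have p1 : f c.n - f 0 - c.n ≤ phi f s 0 c.n := by
    refine le_trans ?_ ((le_max_left _ _).trans (le_max_right _ _)); simp
  have p2 : (f c.n - f 0 - s * c.n) / 2 ≤ phi f s 0 c.n := by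
    refine le_trans ?_ ((le_max_right _ _).trans (le_max_right _ _)); simp
  have ht : 0 ≤ tot w := sum_nonneg fun o _ => G.nn o
  have hEnd := hE Ω β c w w1 r m a0 G.nn G.n1 G.le hm0 ha hr0 (by linarith)
  set r' : ℝ := r - m - N - 1 with hr'
  set P : Ω → Prop := fun o => ¬ ∃ u, u * m ≤ a0 ∧
    (2 : ℝ) ^ r' ≤ #((c.far w (u * m) m o).image (c.pk a0)) with hP
  set J := range (c.n / m + 1) ×ˢ range (c.n / m + 1) with hJ
  have hcov : tot w1 ≤ tot (res w1 P) +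
      ∑ q ∈ J, tot (res w1 (Cl c w f s U V r' m a0 q.1 q.2)) := by
    simp only [tot]
    rw [sum_comm, ← sum_add_distrib]
    refine sum_le_sum fun o _ => ?_
    have hs : ∀ q ∈ J, 0 ≤ res w1 (Cl c w f s U V r' m a0 q.1 q.2) o :=
      fun q _ => res_nn G.n1 _ o
    rcases (G.n1 o).eq_or_lt with h0 | h0
    · rw [← h0]; exact add_nonneg (res_nn G.n1 _ o) (sum_nonneg hs)
    · by_cases hPo : P o
      · rw [res_eq hPo]; linarith [sum_nonneg hs]
      · obtain ⟨u, hu, hfar⟩ := not_not.1 hPo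
        obtain ⟨v, hv, hcl⟩ := exists_cl hA hB hC G hm ha hf (r' := r') (by linarith) h0 hu hfar
        have hu' : u ≤ c.n / m := (Nat.le_div_iff_mul_le hm0).2 (hu.trans ha)
        have hq : (u, v) ∈ J := mem_product.2 ⟨mem_range.2 (by omega), mem_range.2 (by omega)⟩
        have h1 := single_le_sum hs hq
        rw [res_eq hcl] at h1
        linarith [res_nn G.n1 P o]
  have hK : ∀ K : ℝ, 1 ≤ K → 0 ≤ K * ((c.n : ℝ) + 1) := fun K h => by positivity
  have hw0 : (0 : ℝ) ≤ ((c.n : ℝ) + 1) * 2 ^ (-(m : ℝ)) * tot w := by positivity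
  have hcl : ∀ q ∈ J, tot (res w1 (Cl c w f s U V r' m a0 q.1 q.2)) ≤
      (Ca + Cb) * (((c.n : ℝ) + 1) * 2 ^ (-(m : ℝ)) * tot w) := by
    rintro ⟨u, v⟩ hq
    have hv : v ≤ c.n / m := by have := mem_range.1 (mem_product.1 hq).2; omega
    have hvN : (v : ℝ) * (U + 7) ≤ N * (U + 7) :=
      mul_le_mul_of_nonneg_right (by rw [hN]; exact_mod_cast hv) (by linarith)
    have hv0 : 0 ≤ (v : ℝ) * (U + 7) := by positivity
    show tot (res w1 (Cl c w f s U V r' m a0 u v)) ≤ _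
    by_cases hne : ∃ o, 0 < res w1 (Cl c w f s U V r' m a0 u v) o
    · obtain ⟨o1, ho1⟩ := hne
      obtain ⟨⟨c1, -, -, c4, hyn⟩, -⟩ := res_pos ho1
      by_cases hy : u * m + v * m ≤ a0
      · have h1 := hCa Ω β c w _ s f U V ((2 : ℝ) ^ ex f s U V m u v) (u * m) (u * m + v * m) m
          (gd_res G (Cl c w f s U V r' m a0 u v)) (Nat.le_add_right _ _) hyn hm
          (fun o ho => ⟨(res_pos ho).1.2.1, (res_pos ho).1.2.2.1⟩)
        have h2 := hf _ hy
        have h3 := cancel (m := m) (hK Ca hCa1) _ h1 ht (by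
          unfold ex; push_cast at h2 ⊢; linarith)
        nlinarith [mul_nonneg (zero_le_one.trans hCb1) hw0]
      · have h1 := hCb Ω β c w _ s f U V ((2 : ℝ) ^ r') (u * m) (u * m + v * m) m
          (gd_res G (Cl c w f s U V r' m a0 u v)) (Nat.le_add_right _ _) hyn hm
          (fun o ho => ⟨(res_pos ho).1.2.1,
            (res_pos ho).1.1.trans (Nat.cast_le.2 (card_pk_le c _ a0))⟩)
        have h2 := hC Ω β c w (u * m) (u * m + v * m) m 0 a0 o1 (Nat.le_add_right _ _) hyn ha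
          (by omega)
        have h4 : (#((c.far w (u * m) m o1).image (c.pk a0)) : ℝ) ≤
            3 * 2 ^ 0 * (c.Rc w (u * m) (u * m + v * m) 8 o1 : ℝ) := by exact_mod_cast h2
        have h5 := exp_le (c1.trans (h4.trans
          ((mul_le_mul_of_nonneg_left c4 (by positivity)).trans (three_le 0 _))))
        have h8 : 0 ≤ (1 - s) * ((u : ℝ) * m) := mul_nonneg (by linarith [G.s1]) (by positivity)
        have h9 : s * m ≤ m := mul_le_of_le_one_left (by positivity) G.s1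
        have h3 := cancel (m := m) (hK Cb hCb1) _ h1 ht (by
          unfold ex at h5; push_cast at h5 ⊢; linarith)
        nlinarith [mul_nonneg (zero_le_one.trans hCa1) hw0]
    · refine le_trans (sum_nonpos fun o _ => not_lt.1 fun h => hne ⟨o, h⟩) ?_
      exact mul_nonneg (by linarith) hw0
  have hsum := sum_le_card_nsmul _ _ _ hcl
  have hcard : (#J : ℝ) = (N + 1) ^ 2 := by
    rw [hJ, card_product, card_range, hN]; push_cast; ring
  rw [nsmul_eq_mul, hcard] at hsum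
  have h1 : (2 : ℝ) ^ (-(m : ℝ)) * tot w ≤
      (N + 1) ^ 2 * (((c.n : ℝ) + 1) * 2 ^ (-(m : ℝ)) * tot w) := by
    have a1 : (1 : ℝ) ≤ (N + 1) ^ 2 := one_le_pow₀ (by linarith)
    have a2 : (0 : ℝ) ≤ (c.n : ℝ) := by positivity
    have a3 : (0 : ℝ) ≤ (2 : ℝ) ^ (-(m : ℝ)) * tot w := by positivity
    nlinarith [mul_nonneg a2 a3, mul_le_mul_of_nonneg_right a1 hw0]
  calc tot w1 ≤ (N + 1) ^ 2 * (((c.n : ℝ) + 1) * 2 ^ (-(m : ℝ)) * tot w) +
        (N + 1) ^ 2 * ((Ca + Cb) * (((c.n : ℝ) + 1) * 2 ^ (-(m : ℝ)) * tot w)) := by linarith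
    _ = _ := by ring

end

end Pool.Agent.Lib.MP_108739_an.F
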