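import Pool.Agent.Lib.MP_108739_an.F.RDefs
import Pool.Agent.Lib.MP_108739_an.F.Win2

/-! The estimate with several ranges of slope scales. -/

open Finset

namespace Pool.Agent.Lib.MP_108739_an.F

noncomputable section
open Classical

namespace Te
variable {Ω α β γ : Type} [Fintype Ω] {w : Ω → ℝ}

lemma H_two (hw : Nn w) {f : Ω → α} {g : Ω → γ} (S q G G2 : Ω → ℤ) (hG : Det g G)
    (h1 : ∀ o, G o ≤ S o ∧ S o < G o + 3) (hG2 : Det (pr S g) G2)
    (h2 : ∀ o, G2 o ≤ q o ∧ q o < G2 o + 2) (hf : Det (pr (pr S q) g) f) :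
    H w f g ≤ 3 * tot w := by
  have a1 := H_mono hw hf (Det.rfl (f := g))
  rw [H_chain hw] at a1
  have a2 := H_le_int hw (F := S) (K := 3) (by norm_num) hG fun o _ => by exact_mod_cast h1 o
  have a3 := H_le_int hw (F := q) (K := 2) (by norm_num) hG2 fun o _ => by exact_mod_cast h2 o
  have b1 : lg ((3 : ℕ) : ℝ) ≤ 2 := by
    have := lg_mono (x := ((3 : ℕ) : ℝ)) (y := 2 ^ 2) (by norm_num) (by norm_num)
    rw [lg_two_pow] at this
    exact_mod_cast this
  have b2 : lg ((2 : ℕ) : ℝ) = 1 := by rw [Nat.cast_ofNat]; exact lg_two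
  have t0 := tot_nonneg hw
  rw [b2] at a3
  nlinarith

lemma ar1 (P Q a x : ℕ) (hP : 0 < P) (hQ : 0 < Q) :
    a / P * P * x / (Q * P) + a % P * (x / Q) / P ≤ a * x / (Q * P) ∧
      a * x / (Q * P) < a / P * P * x / (Q * P) + a % P * (x / Q) / P + 3 := by
  have hN : 0 < Q * P := Nat.mul_pos hQ hP
  have e0 := Nat.div_add_mod a P
  have e1 := Nat.mod_lt a hP
  have e2 := Nat.mul_div_le x Q
  have e3 := Nat.lt_mul_div_succ x hQ
  have e4 := Nat.mul_div_le (a / P * P * x) (Q * P)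
  have e5 := Nat.lt_mul_div_succ (a / P * P * x) hN
  have e6 := Nat.mul_div_le (a % P * (x / Q)) P
  have e7 := Nat.lt_mul_div_succ (a % P * (x / Q)) hP
  generalize a / P * P * x / (Q * P) = u at *
  generalize a % P * (x / Q) / P = v at *
  generalize x / Q = X at *
  generalize a % P = r at *
  generalize a / P = A at *
  subst e0
  have f1 : r * (Q * X) ≤ r * x := Nat.mul_le_mul_left r e2
  have f2 : Q * (P * v) ≤ Q * (r * X) := Nat.mul_le_mul_left Q e6
  have f3 : r * x ≤ r * (Q * (X + 1)) := Nat.mul_le_mul_left r e3.le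
  have f4 : Q * (r * X) ≤ Q * (P * (v + 1)) := Nat.mul_le_mul_left Q e7.le
  have f5 : Q * r ≤ Q * P := Nat.mul_le_mul_left Q e1.le
  constructor
  · rw [Nat.le_div_iff_mul_le hN]; nlinarith
  · rw [Nat.div_lt_iff_lt_mul hN]; nlinarith

lemma ar2 (M Q A x y : ℕ) (hM : 0 < M) (hQ : 0 < Q) (hA : A < Q) :
    y / M + A * (x / M) / Q ≤ (y + A * x / Q) / M ∧
      (y + A * x / Q) / M < y / M + A * (x / M) / Q + 3 := by
  have e0 := Nat.mul_div_le y M
  have e1 := Nat.lt_mul_div_succ y hM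
  have e2 := Nat.mul_div_le x M
  have e3 := Nat.lt_mul_div_succ x hM
  have e4 := Nat.mul_div_le (A * (x / M)) Q
  have e5 := Nat.lt_mul_div_succ (A * (x / M)) hQ
  generalize A * (x / M) / Q = u at *
  generalize x / M = X at *
  generalize y / M = Y at *
  have f1 : M * u ≤ A * x / Q := by
    rw [Nat.le_div_iff_mul_le hQ]
    have := Nat.mul_le_mul_left A e2
    have := Nat.mul_le_mul_left M e4
    nlinarith
  have f2 : A * x / Q < M * (u + 2) := by
    rw [Nat.div_lt_iff_lt_mul hQ]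
    have := Nat.mul_le_mul_left A e3.le
    have := Nat.mul_le_mul_left M e5.le
    have := Nat.mul_lt_mul_of_pos_left hA hM
    nlinarith
  constructor
  · rw [Nat.le_div_iff_mul_le hM]; nlinarith
  · rw [Nat.div_lt_iff_lt_mul hM]; nlinarith

lemma ar3 (P u v : ℕ) (hP : 0 < P) (hv : v < P) :
    (u + v) / P ≤ u / P + 1 ∧ u / P ≤ (u + v) / P := by
  refine ⟨?_, Nat.div_le_div_right (Nat.le_add_right _ _)⟩
  rw [← Nat.add_div_right u hP]
  exact Nat.div_le_div_right (by omega)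

lemma H_fat_tube (c : Cfg Ω β) (hw : Nn w) {j : ℕ} (h : j ≤ c.n) :
    H w (c.fat j).tube c.tube ≤ 3 * tot w := by
  obtain ⟨P, hP⟩ : ∃ P, P = 2 ^ (c.n - j) := ⟨_, rfl⟩
  have P0 : 0 < P := by rw [hP]; positivity
  have hN : 2 ^ c.n = 2 ^ j * P := by rw [hP, ← pow_add]; congr 1; omega
  have hx : ∀ o, c.xk (c.n - j) o % P = c.x o / 2 ^ j := fun o => by
    have := c.xk_lt (Nat.sub_le c.n j) o
    rw [hP, Nat.mod_eq_of_lt this]
    unfold Cfg.xk
    rw [Nat.sub_sub_self h]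
  obtain ⟨v, hv⟩ : ∃ v : Ω → ℕ, ∀ o, v o = c.a o % P * (c.x o / 2 ^ j) / P := ⟨_, fun _ => rfl⟩
  have vP : ∀ o, v o < P := fun o => by
    rw [hv, Nat.div_lt_iff_lt_mul P0, ← hx]
    exact Nat.mul_lt_mul'' (Nat.mod_lt _ P0) (Nat.mod_lt _ P0)
  have ht : ∀ o, (c.fat j).tube o = (c.a o % P, c.shr j o % P + v o,
      c.a o / P, c.shr j o / P, c.b o) := fun o => by
    rw [hv, ← hx, hP]; rfl
  refine H_two hw (fun o => ((c.shr j o + v o : ℕ) : ℤ)) (fun o => ((c.shr j o / P : ℕ) : ℤ))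
    (fun o => ((c.tube o).2.1 : ℤ) - 2) (fun o => ((c.shr j o + v o : ℕ) : ℤ) / P - 1)
    (fun o o' e => by beta_reduce; rw [e]) (fun o => ?_)
    (fun o o' e => by
      have e1 : ((c.shr j o + v o : ℕ) : ℤ) = ((c.shr j o' + v o' : ℕ) : ℤ) := congrArg Prod.fst e
      beta_reduce
      rw [e1]) (fun o => ?_) (fun o o' e => ?_)
  · have := ar1 P (2 ^ j) (c.a o) (c.x o) P0 (by positivity)
    have e1 : c.shr j o = c.y o + c.a o / P * P * c.x o / (2 ^ j * P) := by
      rw [← hN, hP]; rfl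
    have e2 : (c.tube o).2.1 = c.y o + c.a o * c.x o / (2 ^ j * P) := by rw [← hN]; rfl
    rw [← hv] at this
    rw [e1, e2]
    omega
  · have := ar3 P (c.shr j o) (v o) P0 (vP o)
    rw [← Int.natCast_div]
    omega
  · have e1 : ((c.shr j o + v o : ℕ) : ℤ) = ((c.shr j o' + v o' : ℕ) : ℤ) :=
      congrArg (fun z => z.1.1) e
    have e2 : ((c.shr j o / P : ℕ) : ℤ) = ((c.shr j o' / P : ℕ) : ℤ) := congrArg (fun z => z.1.2) e
    have e3 : c.a o = c.a o' := congrArg (fun z => z.2.1) e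
    have e4 : c.b o = c.b o' := congrArg (fun z => z.2.2.2) e
    have e5 : c.shr j o / P = c.shr j o' / P := by exact_mod_cast e2
    have d1 := Nat.div_add_mod (c.shr j o) P
    have d2 := Nat.div_add_mod (c.shr j o') P
    rw [e5] at d1
    have e6 : c.shr j o % P + v o = c.shr j o' % P + v o' := by omega
    rw [ht, ht, e3, e4, e5, e6]

lemma H_win_fat (c : Cfg Ω β) (hw : Nn w) {j y : ℕ} (h : y + j ≤ c.n) :
    H w (c.win y (y + j)).tube ((c.fat j).pk y) ≤ 3 * tot w := by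
  obtain ⟨M, hM⟩ : ∃ M, M = 2 ^ (c.n - (y + j)) := ⟨_, rfl⟩
  obtain ⟨Q, hQ⟩ : ∃ Q, Q = 2 ^ j := ⟨_, rfl⟩
  have M0 : 0 < M := by rw [hM]; positivity
  have Q0 : 0 < Q := by rw [hQ]; positivity
  have hj : j ≤ c.n := by omega
  have hP : 2 ^ (c.n - j) = M * 2 ^ y := by rw [hM, ← pow_add]; congr 1; omega
  have hN : 2 ^ c.n = Q * 2 ^ (c.n - j) := by rw [hQ, ← pow_add]; congr 1; omega
  have hY : 2 ^ (c.n - y) = M * Q := by rw [hM, hQ, ← pow_add]; congr 1; omega
  have hA : ∀ o, c.ak j o < Q := fun o => by rw [hQ]; exact c.ak_lt hj o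
  have hu : ∀ o, c.shr j o = c.y o + c.ak j o * c.x o / Q := fun o => by
    unfold Cfg.shr
    rw [hN, mul_right_comm, Nat.mul_div_mul_right _ _ (by positivity)]
  have ht : ∀ o, (c.win y (y + j)).tube o = (c.ak j o,
      c.y o / M % Q + c.ak j o * (c.x o / M % Q) / Q, c.x o / M / Q, c.y o / M / Q, c.b o) :=
    fun o => by
      have e : y + j - y = j := by omega
      simp only [Cfg.tube, Cfg.win, Cfg.pk, Cfg.xk, Cfg.yk, e, ← hM, ← hQ, hY,
        Nat.mod_eq_of_lt (hA o), Nat.div_div_eq_div_mul]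
  have hp : ∀ o, (c.fat j).pk y o = (c.x o / M / Q, c.shr j o % (M * 2 ^ y) / M,
      c.ak j o, c.shr j o / (M * 2 ^ y), c.b o) := fun o => by
    have e : c.n - j - y = c.n - (y + j) := by omega
    have e1 := Nat.mod_eq_of_lt (c.xk_lt (Nat.sub_le c.n j) o)
    have e2 : c.xk (c.n - j) o = c.x o / Q := by
      unfold Cfg.xk
      rw [Nat.sub_sub_self hj, hQ]
    have e3 : (c.fat j).pk y o = (c.xk (c.n - j) o % 2 ^ (c.n - j) / 2 ^ (c.n - j - y),
      c.shr j o % 2 ^ (c.n - j) / 2 ^ (c.n - j - y), c.ak j o, c.shr j o / 2 ^ (c.n - j), c.b o) :=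
      rfl
    rw [e3, e1, e2, e, ← hM, hP, Nat.div_div_eq_div_mul, Nat.div_div_eq_div_mul, mul_comm Q M]
  have hU : ∀ u : ℕ, u / M = 2 ^ y * (u / (M * 2 ^ y)) + u % (M * 2 ^ y) / M := fun u => by
    rw [Nat.mod_mul_right_div_self, ← Nat.div_div_eq_div_mul, Nat.div_add_mod]
  obtain ⟨Z, hZ⟩ : ∃ Z : Ω → ℕ, ∀ o, Z o = c.y o / M % Q + c.ak j o * (c.x o / M % Q) / Q :=
    ⟨_, fun _ => rfl⟩
  have hS : ∀ o, c.y o / M + c.ak j o * (c.x o / M) / Q =
      Q * (c.y o / M / Q) + Z o + c.ak j o * (c.x o / M / Q) := fun o => by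
    have d1 := Nat.div_add_mod (c.y o / M) Q
    have d2 : c.ak j o * (c.x o / M) =
        c.ak j o * (c.x o / M % Q) + Q * (c.ak j o * (c.x o / M / Q)) := by
      conv_lhs => rw [← Nat.div_add_mod (c.x o / M) Q]
      ring
    rw [d2, Nat.add_mul_div_left _ _ Q0, hZ]
    omega
  have Zb : ∀ o, Z o < 2 * Q := fun o => by
    have d1 := Nat.mod_lt (c.y o / M) Q0
    have d2 : c.ak j o * (c.x o / M % Q) / Q < Q := by
      rw [Nat.div_lt_iff_lt_mul Q0]
      exact Nat.mul_lt_mul'' (hA o) (Nat.mod_lt _ Q0)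
    rw [hZ]; omega
  have dp : ∀ o o', (c.fat j).pk y o = (c.fat j).pk y o' → c.x o / M / Q = c.x o' / M / Q ∧
      c.ak j o = c.ak j o' ∧ c.b o = c.b o' ∧ c.shr j o / M = c.shr j o' / M := fun o o' e => by
    rw [hp, hp] at e
    simp only [Prod.mk.injEq] at e
    exact ⟨e.1, e.2.2.1, e.2.2.2.2, by rw [hU, hU (c.shr j o'), e.2.1, e.2.2.2.1]⟩
  have dW : ∀ o o', ((c.y o / M + c.ak j o * (c.x o / M) / Q : ℕ) : ℤ) =
      ((c.y o' / M + c.ak j o' * (c.x o' / M) / Q : ℕ) : ℤ) →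
      (c.fat j).pk y o = (c.fat j).pk y o' →
      Q * (c.y o / M / Q) + Z o = Q * (c.y o' / M / Q) + Z o' := fun o o' e1 e2 => by
    obtain ⟨b1, b2, -, -⟩ := dp o o' e2
    have e3 : c.y o / M + c.ak j o * (c.x o / M) / Q =
      c.y o' / M + c.ak j o' * (c.x o' / M) / Q := by exact_mod_cast e1
    rw [hS, hS, b1, b2] at e3
    omega
  refine H_two hw (fun o => ((c.y o / M + c.ak j o * (c.x o / M) / Q : ℕ) : ℤ))
    (fun o => ((c.y o / M / Q : ℕ) : ℤ)) (fun o => ((c.shr j o / M : ℕ) : ℤ) - 2)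
    (fun o => (((Q * (c.y o / M / Q) + Z o) / Q : ℕ) : ℤ) - 1)
    (fun o o' e => by beta_reduce; rw [(dp o o' e).2.2.2]) (fun o => ?_)
    (fun o o' e => by beta_reduce; rw [dW o o' (congrArg Prod.fst e) (congrArg Prod.snd e)])
    (fun o => ?_) (fun o o' e => ?_)
  · have := ar2 M Q (c.ak j o) (c.x o) (c.y o) M0 Q0 (hA o)
    rw [← hu] at this
    omega
  · have d1 : Z o / Q < 2 := (Nat.div_lt_iff_lt_mul Q0).2 (Zb o)
    rw [Nat.mul_add_div Q0]
    generalize Z o / Q = z at *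
    omega
  · have e1 := dW o o' (congrArg (fun z => z.1.1) e) (congrArg Prod.snd e)
    have e2 : ((c.y o / M / Q : ℕ) : ℤ) = ((c.y o' / M / Q : ℕ) : ℤ) := congrArg (fun z => z.1.2) e
    have e3 : c.y o / M / Q = c.y o' / M / Q := by exact_mod_cast e2
    obtain ⟨b1, b2, b3, -⟩ := dp o o' (congrArg Prod.snd e)
    rw [e3] at e1
    have e4 : Z o = Z o' := by omega
    rw [ht, ht, ← hZ, ← hZ, b1, b2, b3, e3, e4]

lemma kt_arg (d : Cfg Ω β) (hw : Nn w) (t : ℝ) : ∃ τ : Ω → ℕ, (∀ o, τ o ∈ range (d.n + 1)) ∧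
    ∀ o, 0 < w o → d.ktI w t o =
      lg (ms w (d.pk (τ o)) o / ms w (d.pk d.n) o) - t * ((d.n : ℝ) - τ o) := by
  have : ∀ o, ∃ y ∈ range (d.n + 1), 0 < w o → d.ktI w t o =
      lg (ms w (d.pk y) o / ms w (d.pk d.n) o) - t * ((d.n : ℝ) - y) := fun o => by
    rcases mx_cases (range (d.n + 1)) fun k =>
      lg (ms w (d.pk k) o / ms w (d.pk d.n) o) - t * ((d.n : ℝ) - k) with e | ⟨y, hy, e⟩
    · refine ⟨d.n, self_mem_range_succ _, fun p => ?_⟩
      rw [div_self (ms_pos hw _ p).ne', lg_one, sub_self, mul_zero, sub_zero]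
      exact e
    · exact ⟨y, hy, fun _ => e⟩
  choose τ h1 h2 using this
  exact ⟨τ, h1, h2⟩

lemma kt_add (d : Cfg Ω β) (hw : Nn w) (t : ℝ) (p : Ω → γ)
    (hp : ∀ y ≤ d.n, Det (pr p (d.pk y)) (d.pk d.n)) :
    ∃ τ : Ω → ℕ, (∀ o, τ o ∈ range (d.n + 1)) ∧ d.Kt w t + H w p (d.pk d.n) ≤
      ∑ y ∈ range (d.n + 1), (H (res w fun o => τ o = y) p (d.pk y) -
        t * ((d.n : ℝ) - y) * tot (res w fun o => τ o = y)) + lg #(range (d.n + 1)) * tot w := by
  obtain ⟨τ, h1, h2⟩ := kt_arg d hw t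
  refine ⟨τ, h1, ?_⟩
  refine le_trans ?_ (add_le_add_right (cost_class hw h1 fun y => d.pk y) _)
  rw [← sum_add_distrib]
  unfold Cfg.Kt H
  rw [← E_add, E_split h1]
  refine sum_le_sum fun y hy => ?_
  rw [← E_const, ← E_sub, ← E_add]
  refine E_mono (hw.res _) fun o q => ?_
  obtain ⟨e, q0⟩ := res_pos q
  have hy' : y ≤ d.n := Nat.lt_succ_iff.1 (mem_range.1 hy)
  have m1 : ms w (pr p (d.pk d.n)) = ms w (pr p (d.pk y)) :=
    ms_congr (Det.fst.pr (Det.snd.trans (d.det_pk hy'))) (Det.fst.pr (hp y hy'))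
  have p1 := ms_pos hw (d.pk y) q0
  have p2 := ms_pos hw (d.pk d.n) q0
  have p3 := ms_pos hw (pr p (d.pk y)) q0
  have p4 := ms_pos (hw.res fun o => τ o = y) (d.pk y) q
  have p5 := ms_pos (hw.res fun o => τ o = y) (pr p (d.pk y)) q
  have p6 := lg_mono p5 (ms_res_le hw (fun o => τ o = y) (pr p (d.pk y)) o)
  rw [h2 o q0, e, m1, lg_div p1 p2, lg_div p2 p3, lg_div p4 p5, lg_div p1 p4]
  linarith

lemma kt_win (c : Cfg Ω β) (hw : Nn w) (t : ℝ) {i k : ℕ} (hi : i ≤ k) (h : k ≤ c.n) :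
    (c.win i k).Kt w t + H w (c.pk c.n) (c.pk k) - t * ((c.n : ℝ) - k) * tot w ≤ c.Kt w t := by
  unfold Cfg.Kt H
  rw [← E_const, ← E_add, ← E_sub]
  refine E_mono hw fun o q => ?_
  have m1 : ms w (pr (c.pk c.n) (c.pk k)) = ms w (c.pk c.n) :=
    ms_congr Det.fst (Det.rfl.pr (c.det_pk h))
  have key : ∀ l ≤ c.n, lg (ms w (c.pk l) o / ms w (c.pk c.n) o) - t * ((c.n : ℝ) - l) ≤
      c.ktI w t o := fun l hl =>
    le_mx (fun k => lg (ms w (c.pk k) o / ms w (c.pk c.n) o) - t * ((c.n : ℝ) - k))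
      (mem_range.2 (Nat.lt_succ_of_le hl))
  have : (c.win i k).ktI w t o ≤ c.ktI w t o -
      (lg (ms w (c.pk k) o / ms w (c.pk c.n) o) - t * ((c.n : ℝ) - k)) := by
    refine mx_le (sub_nonneg.2 (key k h)) fun l hl => ?_
    have hl' : l ≤ k - i := Nat.lt_succ_iff.1 (mem_range.1 hl)
    have a1 := key (i + l) (by omega)
    have e : i + (k - i) = k := by omega
    rw [c.win_n, c.ms_win_pk hi h hl', c.ms_win_pk hi h le_rfl, e, Nat.cast_sub hi]
    have p1 := ms_pos hw (c.pk (i + l)) q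
    have p2 := ms_pos hw (c.pk k) q
    have p3 := ms_pos hw (c.pk c.n) q
    rw [lg_div p1 p3, Nat.cast_add] at a1
    rw [lg_div p1 p2, lg_div p2 p3]
    linarith
  rw [m1]
  linarith

omit [Fintype Ω] in
lemma fat_det (c : Cfg Ω β) (j y k : ℕ) : Det (pr (c.pk c.n) ((c.fat j).pk y)) ((c.fat j).pk k) := by
  intro o o' e
  have e1 : c.pk c.n o = c.pk c.n o' := congrArg Prod.fst e
  have e2 : c.ak j o = c.ak j o' := congrArg (fun z => z.2.2.2.1) e
  simp only [Cfg.pk, Cfg.xk, Cfg.yk, Nat.sub_self, pow_zero, Nat.div_one, Prod.mk.injEq] at e1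
  simp only [Cfg.pk, Cfg.xk, Cfg.yk, Cfg.fat, Cfg.ft, Cfg.shr, e1.1, e1.2.1, e1.2.2, e2]

lemma h_fat (c : Cfg Ω β) (hw : Nn w) {j : ℕ} (h : j ≤ c.n) :
    c.h w ≤ 3 * tot w + (c.fat j).h w + H w (c.pk c.n) ((c.fat j).pk (c.fat j).n) := by
  have a1 := H_tri hw (c.pk c.n) (c.fat j).tube c.tube
  have a2 := H_fat_tube c hw h
  have a3 : H w (c.pk c.n) (pr (c.fat j).tube c.tube) ≤ H w (c.pk c.n) (c.fat j).tube :=
    H_mono hw Det.fst Det.fst
  have a4 := H_tri hw (c.pk c.n) ((c.fat j).pk (c.fat j).n) (c.fat j).tube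
  have a5 : H w (c.pk c.n) (pr ((c.fat j).pk (c.fat j).n) (c.fat j).tube) ≤
      H w (c.pk c.n) ((c.fat j).pk (c.fat j).n) := H_mono hw Det.fst Det.fst
  unfold Cfg.h
  linarith

lemma H_fat_win (c : Cfg Ω β) (hw : Nn w) {j y : ℕ} (h : y + j ≤ c.n) :
    H w (c.pk c.n) ((c.fat j).pk y) ≤
      3 * tot w + (c.win y (y + j)).h w + H w (c.pk c.n) (c.pk (y + j)) := by
  have a1 := H_tri hw (c.pk c.n) (c.win y (y + j)).tube ((c.fat j).pk y)
  have a2 := H_win_fat c hw h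
  have a3 : H w (c.pk c.n) (pr (c.win y (y + j)).tube ((c.fat j).pk y)) ≤
      H w (c.pk c.n) (c.win y (y + j)).tube := H_mono hw Det.fst Det.fst
  have a4 := H_tri hw (c.pk c.n) (c.pk (y + j)) (c.win y (y + j)).tube
  have a5 : H w (c.pk c.n) (pr (c.pk (y + j)) (c.win y (y + j)).tube) ≤
      H w (c.pk c.n) (c.pk (y + j)) := H_mono hw Det.fst Det.fst
  have e : y + (y + j - y) = y + j := by omega
  have d := (c.win_pk (i := y) (k := y + j) (j := y + j - y) (Nat.le_add_right _ _) h le_rfl).1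
  rw [e] at d
  have a6 : H w (c.pk (y + j)) (c.win y (y + j)).tube ≤ (c.win y (y + j)).h w :=
    H_mono hw (Det.fst.trans d) Det.rfl
  linarith

end Te

theorem te (hW : RwStmt) : TeStmt := by
  intro s0 ε r h0 hε
  induction r with
  | zero =>
    refine ⟨0, 0, le_rfl, le_rfl, fun Ω β _ c w t j s hw _ hn _ => ?_⟩
    have a1 := c.h_triv hw
    have a2 := c.Kt_nonneg hw t
    rw [hn]
    simp only [range_zero, sum_empty, add_zero, zero_mul]
    linarith
  | succ r ih =>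
    obtain ⟨K, C, hK, hC, ih⟩ := ih
    obtain ⟨K0, C0, hK0, hC0, hW⟩ := hW s0 ε h0 hε
    refine ⟨K + K0, C + C0 + K0 + 8 + 2 * K * r, by positivity, by positivity,
      fun Ω β _ c w t j s hw hj hn hs => ?_⟩
    have hjn : j r ≤ c.n := hn ▸ hj r (Nat.lt_succ_self r)
    have mono : ∀ i ≤ r, j i ≤ j r := fun i hi => by
      induction hi using Nat.decreasingInduction with
      | self => exact le_rfl
      | of_succ k hk ih => exact (hj k (by omega)).trans ih
    obtain ⟨L, hL⟩ : ∃ L, L = lg (c.n + 2) := ⟨_, rfl⟩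
    have n0 : (0 : ℝ) ≤ c.n := Nat.cast_nonneg _
    have L1 : 1 ≤ L := by
      rw [hL, ← lg_two]; exact lg_mono two_pos (by linarith)
    have W0 := tot_nonneg hw
    obtain ⟨τ, hτ, a3⟩ := Te.kt_add (c.fat (j r)) hw t (c.pk c.n) fun y _ => Te.fat_det c _ _ _
    have hn' : (c.fat (j r)).n = c.n - j r := rfl
    obtain ⟨T, hT⟩ : ∃ T, T = range ((c.fat (j r)).n + 1) := ⟨_, rfl⟩
    rw [← hT] at hτ a3
    have LT : lg #T * tot w ≤ L * tot w := by
      refine mul_le_mul_of_nonneg_right ?_ W0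
      rw [hT, card_range, hL, hn']
      refine lg_mono (by positivity) ?_
      have : ((c.n - j r : ℕ) : ℝ) ≤ c.n := by exact_mod_cast Nat.sub_le _ _
      push_cast; linarith
    have a1 := Te.h_fat c hw hjn
    obtain ⟨s1, s2, s3⟩ := hs r (Nat.lt_succ_self r)
    have a2 := hW Ω _ (c.fat (j r)) w (s r) t hw s1 s2 s3
    have a2' := mul_le_mul_of_nonneg_left (c.Fr_fat hw hjn (s r)) hK0
    obtain ⟨B, hB⟩ : ∃ B : ℝ, B = j 0 + ∑ i ∈ range r, ((t - s i) / 2 + ε) * ((j (i + 1) : ℝ) - j i) :=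
      ⟨_, rfl⟩
    have a4 : ∀ y ∈ T, H (res w fun o => τ o = y) (c.pk c.n) ((c.fat (j r)).pk y) -
        t * (((c.fat (j r)).n : ℝ) - y) * tot (res w fun o => τ o = y) ≤
        c.Kt (res w fun o => τ o = y) t + (3 + B + (K * r + C) * L) * tot (res w fun o => τ o = y) +
          K * ∑ i ∈ range r, c.FrW (res w fun o => τ o = y) (s i) (j i) (j (i + 1) - j i) :=
      fun y hy => by
        have hy' : y + j r ≤ c.n := by
          rw [hT, mem_range, hn'] at hy; omega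
        have hv := hw.res fun o => τ o = y
        generalize res w (fun o => τ o = y) = v at hv ⊢
        have V0 := tot_nonneg hv
        have e : y + j r - y = j r := by omega
        have b1 := Te.H_fat_win c hv hy'
        have b2 := ih Ω _ (c.win y (y + j r)) v t j s hv (fun i hi => hj i (by omega)) e.symm
          fun i hi => hs i (by omega)
        have b3 := Te.kt_win c hv t (Nat.le_add_right y (j r)) hy'
        have b4 : ∑ i ∈ range r, (c.win y (y + j r)).FrW v (s i) (j i) (j (i + 1) - j i) ≤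
            ∑ i ∈ range r, c.FrW v (s i) (j i) (j (i + 1) - j i) + r * (L * tot v) := by
          refine (sum_le_sum (g := fun i => c.FrW v (s i) (j i) (j (i + 1) - j i) + L * tot v)
            fun i hi => ?_).trans (by rw [sum_add_distrib, sum_const, card_range, nsmul_eq_mul])
          have i1 := mem_range.1 hi
          have i2 := hj i (by omega)
          have i3 := mono (i + 1) i1
          rw [hL]
          exact c.FrW_win hv (Nat.le_add_right _ _) hy' (by omega) _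
        have b5 := mul_le_mul_of_nonneg_left b4 hK
        have b6 : C * lg (((c.win y (y + j r)).n : ℝ) + 2) * tot v ≤ C * L * tot v := by
          refine mul_le_mul_of_nonneg_right (mul_le_mul_of_nonneg_left ?_ hC) V0
          rw [c.win_n, e, hL]
          refine lg_mono (by positivity) ?_
          have : ((j r : ℕ) : ℝ) ≤ c.n := by exact_mod_cast hjn
          linarith
        rw [← hB] at b2
        rw [hn', Nat.cast_sub hjn]
        rw [Nat.cast_add] at b3
        linarith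
    have a5 := sum_le_sum a4
    rw [sum_add_distrib, sum_add_distrib, ← mul_sum, ← mul_sum, ← tot_split hτ, sum_comm] at a5
    have a6 := c.Kt_split hw hτ t
    have a7 : ∑ i ∈ range r, ∑ y ∈ T, c.FrW (res w fun o => τ o = y) (s i) (j i) (j (i + 1) - j i) ≤
        ∑ i ∈ range r, c.FrW w (s i) (j i) (j (i + 1) - j i) + r * (L * tot w) := by
      refine (sum_le_sum (g := fun i => c.FrW w (s i) (j i) (j (i + 1) - j i) + L * tot w)
        fun i _ => ?_).trans (by rw [sum_add_distrib, sum_const, card_range, nsmul_eq_mul])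
      have := c.FrW_split hw hτ (s i) (j i) (j (i + 1) - j i)
      linarith
    have a8 := mul_le_mul_of_nonneg_left a7 hK
    have F0 : 0 ≤ ∑ i ∈ range r, c.FrW w (s i) (j i) (j (i + 1) - j i) :=
      sum_nonneg fun i _ => c.FrW_nonneg hw _ _ _
    have F1 := c.FrW_nonneg hw (s r) (j r) (c.n - j r)
    have g1 := mul_nonneg hK0 F0
    have g2 := mul_nonneg hK F1
    have g3 : tot w ≤ L * tot w := le_mul_of_one_le_left W0 L1
    have g4 := mul_le_mul_of_nonneg_left g3 hC0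
    rw [sum_range_succ, sum_range_succ, hn, ← add_assoc (j 0 : ℝ), ← hB, ← hL]
    rw [← hL] at a2'
    rw [hn', Nat.cast_sub hjn] at a2
    linarith

end

end Pool.Agent.Lib.MP_108739_an.F
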