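import Pool.Agent.Lib.MP_108739_an.F.TDefs
import Pool.Agent.Lib.MP_108739_an.F.Win2

/-! The tent estimate from the core estimate and the estimate above the apex. -/

open Finset

namespace Pool.Agent.Lib.MP_108739_an.F
open Classical

lemma tn_apex {f : ℕ → ℝ} {s η : ℝ} {n : ℕ} (hs0 : 0 ≤ s) (hs1 : s ≤ 1) (hη : 0 ≤ η * n)
    (h : Tent f s η 0 n) : ∃ a0 : ℕ, a0 ≤ n ∧ (∀ y ≤ a0, (2 - s) * y - η * n ≤ f y - f 0) ∧
      ∀ y, a0 ≤ y → y ≤ n → f n - f y ≤ s * ((n : ℝ) - y) + (η * n + 2) := by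
  have h' : ∀ y : ℕ, y ≤ n →
      min ((2 - s) * (y : ℝ)) (f n - f 0 - s * ((n : ℝ) - y)) - η * n ≤ f y - f 0 := by
    intro y hy
    have := h y (Nat.zero_le _) hy
    simpa using this
  let P : ℕ → Prop := fun y => (2 - s) * (y : ℝ) ≤ f n - f 0 - s * ((n : ℝ) - y)
  have hle : Nat.findGreatest P n ≤ n := Nat.findGreatest_le n
  refine ⟨Nat.findGreatest P n, hle, ?_, ?_⟩
  · intro y hy
    by_cases h0 : Nat.findGreatest P n = 0
    · have : y = 0 := by omega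
      subst this
      simp only [Nat.cast_zero, mul_zero, sub_self]
      linarith
    · have hP : P (Nat.findGreatest P n) := Nat.findGreatest_of_ne_zero rfl h0
      have hyc : (y : ℝ) ≤ (Nat.findGreatest P n : ℕ) := by exact_mod_cast hy
      have hPy : (2 - s) * (y : ℝ) ≤ f n - f 0 - s * ((n : ℝ) - y) := by
        have h1 : (2 - 2 * s) * (y : ℝ) ≤ (2 - 2 * s) * (Nat.findGreatest P n : ℕ) :=
          mul_le_mul_of_nonneg_left hyc (by linarith)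
        simp only [P] at hP
        linarith
      have := h' y (hy.trans hle)
      rw [min_eq_left hPy] at this
      exact this
  · intro y hy hyn
    rcases eq_or_lt_of_le hyn with rfl | hlt
    · simp only [sub_self, mul_zero, zero_add]
      linarith
    · have hn : ¬ P (y + 1) := Nat.findGreatest_is_greatest (by omega) hlt
      simp only [P, not_le] at hn
      push_cast at hn
      have h1 := h' y hyn
      have h2 : f n - f 0 - s * ((n : ℝ) - y) - 2 ≤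
          min ((2 - s) * (y : ℝ)) (f n - f 0 - s * ((n : ℝ) - y)) :=
        le_min (by linarith) (by linarith)
      linarith

lemma tn_le {A B x V : ℝ} (hA : 0 < A) (hB : 0 < B) (h : x - lg (A / B) ≤ V) :
    B ≤ (2 : ℝ) ^ (V - x) * A := by
  rw [lg_div hA hB] at h
  have h1 : (2 : ℝ) ^ lg B ≤ (2 : ℝ) ^ ((V - x) + lg A) :=
    Real.rpow_le_rpow_of_exponent_le (by norm_num) (by linarith)
  rwa [two_rpow_lg hB, Real.rpow_add (by norm_num), two_rpow_lg hA] at h1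

lemma tn_exp {δ : ℝ} (hδ : 0 < δ) {n : ℝ} (hn : 1 ≤ n) {m : ℝ} (hm : δ * n ≤ m) :
    (n + 2) * (n + 1) * (2 : ℝ) ^ (-m) ≤ 12 / (δ * Real.log 2) ^ 2 := by
  have hl : 0 < Real.log 2 := Real.log_pos (by norm_num)
  have hy : 0 < δ * Real.log 2 := by positivity
  have h1 : (2 : ℝ) ^ (-m) ≤ (2 : ℝ) ^ (-(δ * n)) :=
    Real.rpow_le_rpow_of_exponent_le (by norm_num) (by linarith)
  have h2 : (δ * Real.log 2 * n) ^ 2 / 2 ≤ (2 : ℝ) ^ (δ * n) := by
    rw [Real.rpow_def_of_pos (by norm_num)]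
    have h3 := Real.quadratic_le_exp_of_nonneg (x := Real.log 2 * (δ * n)) (by positivity)
    have h4 : 0 ≤ Real.log 2 * (δ * n) := by positivity
    have h5 : δ * Real.log 2 * n = Real.log 2 * (δ * n) := by ring
    rw [h5]
    linarith
  have h6 : 0 < (2 : ℝ) ^ (δ * n) := by positivity
  have h7 : (n + 2) * (n + 1) ≤ 6 * n ^ 2 := by nlinarith
  calc (n + 2) * (n + 1) * (2 : ℝ) ^ (-m) ≤ 6 * n ^ 2 * (2 : ℝ) ^ (-(δ * n)) :=
        mul_le_mul h7 h1 (by positivity) (by positivity)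
    _ = 6 * n ^ 2 / (2 : ℝ) ^ (δ * n) := by
        rw [Real.rpow_neg (by norm_num), div_eq_mul_inv]
    _ ≤ 12 / (δ * Real.log 2) ^ 2 := by
        rw [div_le_div_iff₀ h6 (by positivity)]
        nlinarith

lemma tn_lg {δ x : ℝ} (hδ : 0 < δ) (hx : 0 < x) : lg x ≤ δ * x + |lg δ| := by
  have h1 := lg_le_self (x := δ * x) (by positivity)
  rw [lg_mul hδ hx] at h1
  have := neg_abs_le (lg δ)
  linarith

section
variable {Ω β : Type} [Fintype Ω] (c : Cfg Ω β) {w : Ω → ℝ}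

lemma tn_gd (hw : Nn w) {s U : ℝ} {f : ℕ → ℝ} (hs0 : 0 ≤ s) (hs1 : s ≤ 1) (hU : 0 ≤ U)
    (hc : c.Cov w f U) (A : Ω → Prop) :
    c.Gd w (res w fun o => A o ∧ c.frI w s 0 c.n o ≤ U ∧ c.dfI w f o ≤ U) s f U U where
  nn := hw
  n1 := hw.res _
  le := res_le hw _
  s0 := hs0
  s1 := hs1
  hU := hU
  hV := hU
  cov := hc
  dir := by
    intro o ho j hj
    obtain ⟨⟨-, h1, -⟩, h0⟩ := res_pos ho
    have h2 := le_mx (s := range (c.n + 1)) (fun y : ℕ => s * y -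
      lg (ms w (pr (c.ak 0) (c.pk c.n)) o / ms w (pr (c.ak (0 + y)) (c.pk c.n)) o))
      (i := j) (by simp; omega)
    have h3 : ms w (pr (c.ak 0) (c.pk c.n)) = ms w (c.pk c.n) :=
      ms_congr Det.snd (Det.pr (fun o o' _ => by rw [c.ak_zero, c.ak_zero]) Det.rfl)
    have h4 := h2.trans h1
    simp only [zero_add] at h4
    rw [h3] at h4
    exact tn_le (ms_pos hw _ h0) (ms_pos hw _ h0) h4
  dfn := by
    intro o ho i k hi hk
    obtain ⟨⟨-, -, h1⟩, h0⟩ := res_pos ho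
    have h2 := le_mx
      (s := (range (c.n + 1) ×ˢ range (c.n + 1)).filter fun q => q.1 ≤ q.2)
      (fun q : ℕ × ℕ => f q.2 - f q.1 - lg (ms w (c.pk q.1) o / ms w (c.pk q.2) o))
      (i := (i, k)) (by simp; omega)
    exact tn_le (ms_pos hw _ h0) (ms_pos hw _ h0) (h2.trans h1)

lemma tn_split (hw : Nn w) {s U : ℝ} {f : ℕ → ℝ} (hU : 0 < U) (A : Ω → Prop) :
    tot (res w A) ≤ tot (res w fun o => A o ∧ c.frI w s 0 c.n o ≤ U ∧ c.dfI w f o ≤ U) +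
      (c.Fr w s + c.Df w f) / U := by
  have h1 := markov hw (F := c.frI w s 0 c.n) (fun o _ => mx_nonneg _ _) U
  have h2 := markov hw (F := c.dfI w f) (fun o _ => mx_nonneg _ _) U
  have h3 : tot (res w A) ≤ tot (res w fun o =>
      (A o ∧ c.frI w s 0 c.n o ≤ U ∧ c.dfI w f o ≤ U) ∨
        (U ≤ c.frI w s 0 c.n o ∨ U ≤ c.dfI w f o)) := by
    refine tot_res_mono hw fun o _ hA => ?_
    rcases le_total (c.frI w s 0 c.n o) U with ha | ha
    · rcases le_total (c.dfI w f o) U with hb | hb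
      · exact Or.inl ⟨hA, ha, hb⟩
      · exact Or.inr (Or.inr hb)
    · exact Or.inr (Or.inl ha)
  have h4 := tot_res_or hw (fun o => A o ∧ c.frI w s 0 c.n o ≤ U ∧ c.dfI w f o ≤ U)
    (fun o => U ≤ c.frI w s 0 c.n o ∨ U ≤ c.dfI w f o)
  have h5 := tot_res_or hw (fun o => U ≤ c.frI w s 0 c.n o) (fun o => U ≤ c.dfI w f o)
  have h6 : tot (res w fun o => U ≤ c.frI w s 0 c.n o) + tot (res w fun o => U ≤ c.dfI w f o) ≤
      (c.Fr w s + c.Df w f) / U := by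
    rw [le_div_iff₀ hU]
    have e1 : c.Fr w s = E w (c.frI w s 0 c.n) := rfl
    have e2 : c.Df w f = E w (c.dfI w f) := rfl
    rw [e1, e2]
    linarith
  linarith

/-- the part above the apex -/
lemma tn_top {C2 : ℝ}
    (HL : ∀ (Ω β : Type) [Fintype Ω] (c : Cfg Ω β) (w : Ω → ℝ) (s d U : ℝ) (f : ℕ → ℝ), Nn w →
      0 ≤ s → c.Cov w f U → (∀ k ≤ c.n, f c.n - f k ≤ s * ((c.n : ℝ) - k) + d) →
      c.h w ≤ (d + U + lg (c.n + 1) + C2) * tot w + c.Fr w s)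
    (hw : Nn w) {s d U : ℝ} {f : ℕ → ℝ} (hs0 : 0 ≤ s) (hc : c.Cov w f U) {a0 : ℕ} (ha : a0 ≤ c.n)
    (h : ∀ y, a0 ≤ y → y ≤ c.n → f c.n - f y ≤ s * ((c.n : ℝ) - y) + d) :
    c.hw w a0 c.n ≤ (d + U + 2 * lg (c.n + 2) + C2) * tot w + c.Fr w s := by
  have h1 := HL Ω _ (c.win a0 c.n) w s d U (fun y => f (a0 + y)) hw hs0
    (Cfg.Cov.win c hc ha le_rfl) (by
      intro k hk
      rw [c.win_n] at hk ⊢
      have h2 := h (a0 + k) (by omega) (by omega)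
      have e : a0 + (c.n - a0) = c.n := by omega
      rw [e, Nat.cast_sub ha]
      push_cast at h2
      linarith)
  have h2 := c.Fr_win hw ha le_rfl s
  have h3 : lg (((c.win a0 c.n).n : ℝ) + 1) ≤ lg (c.n + 2) := by
    refine lg_mono (by positivity) ?_
    rw [c.win_n]
    have : ((c.n - a0 : ℕ) : ℝ) ≤ c.n := by exact_mod_cast Nat.sub_le _ _
    linarith
  have h4 := mul_le_mul_of_nonneg_right h3 (tot_nonneg hw)
  have e : c.hw w a0 c.n = (c.win a0 c.n).h w := rfl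
  rw [e]
  linarith

end

theorem tent (hC : TCoreStmt) (hL : L1Stmt) : TentStmt := by
  intro ε hε
  obtain ⟨C1, hC1, HC⟩ := hC
  obtain ⟨C2, hC2, HL⟩ := hL
  obtain ⟨δ, hδ, hδ1, hδε⟩ : ∃ δ : ℝ, 0 < δ ∧ δ ≤ 1 ∧ 22 * δ ≤ ε :=
    ⟨min (ε / 22) 1, lt_min (by positivity) one_pos, min_le_right _ _, by
      have := min_le_left (ε / 22) 1
      linarith⟩
  have hl2 : 0 < Real.log 2 := Real.log_pos (by norm_num)
  obtain ⟨B, hB0, hB⟩ : ∃ B : ℝ, 0 ≤ B ∧ B = C1 * (1 / δ + 1) ^ 2 * (12 / (δ * Real.log 2) ^ 2) :=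
    ⟨_, by positivity, rfl⟩
  refine ⟨δ ^ 2, 1 + 3 / δ ^ 2, 64 + 8 / δ + B + C2 + 2 * |lg δ|, by positivity, by positivity,
    by positivity, ?_⟩
  intro Ω β _ c w s f hw hs0 hs1 hc hT
  have ht := tot_nonneg hw
  have hF := c.Fr_nonneg hw s
  have hD := c.Df_nonneg hw f
  have hphi : 0 ≤ phi f s 0 c.n := le_max_left _ _
  rcases Nat.eq_zero_or_pos c.n with h0 | hn
  · have h1 := c.h_triv hw
    rw [h0] at h1
    simp only [Nat.cast_zero, zero_mul] at h1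
    refine h1.trans ?_
    positivity
  have hn1 : (1 : ℝ) ≤ c.n := by exact_mod_cast hn
  have hU : 0 < δ ^ 2 * c.n := by positivity
  obtain ⟨a0, ha, hlo, hhi⟩ := tn_apex hs0 hs1 hU.le hT
  obtain ⟨m, hm4, hm1, hm2⟩ : ∃ m : ℕ, 4 ≤ m ∧ δ * c.n ≤ m ∧ (m : ℝ) ≤ δ * c.n + 5 := by
    refine ⟨⌈δ * c.n⌉₊ + 4, by omega, ?_, ?_⟩
    · have := Nat.le_ceil (δ * c.n)
      push_cast
      linarith
    · have := Nat.ceil_lt_add_one (a := δ * c.n) (by positivity)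
      push_cast
      linarith
  have hq : ((c.n / m : ℕ) : ℝ) ≤ 1 / δ := by
    have hm0 : (0 : ℝ) < m := by
      have : 0 < δ * c.n := by positivity
      linarith
    refine Nat.cast_div_le.trans ?_
    rw [div_le_div_iff₀ hm0 hδ]
    linarith
  have hq0 : (0 : ℝ) ≤ ((c.n / m : ℕ) : ℝ) := Nat.cast_nonneg _
  obtain ⟨r, hr⟩ : ∃ r : ℝ, r = phi f s 0 c.n + 9 * m + 5 * (δ ^ 2 * c.n) + 3 * (δ ^ 2 * c.n) +
    ((c.n / m : ℕ) : ℝ) * (δ ^ 2 * c.n + 8) + 9 := ⟨_, rfl⟩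
  have hr0 : 0 ≤ r := by rw [hr]; positivity
  have h1 := c.h_le_coarse hw ha
  have h2 := tn_top c HL hw hs0 hc ha hhi
  have h3 := H_le_tail hw (f := c.pk a0) (g := c.tube) (K := 4 * 2 ^ a0) (r := r)
    (by have : (1 : ℝ) ≤ 2 ^ a0 := one_le_pow₀ (by norm_num)
        linarith) hr0 (fun o _ => by exact_mod_cast c.card_vals_tube w ha o)
  have h4 : lg (4 * 2 ^ a0) ≤ c.n + 2 := by
    have e : (4 * 2 ^ a0 : ℝ) = 2 ^ (a0 + 2) := by ring
    rw [e, lg_two_pow]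
    push_cast
    have : (a0 : ℝ) ≤ c.n := by exact_mod_cast ha
    linarith
  have h5 := tn_split c hw (s := s) (f := f) hU
    (fun o => (2 : ℝ) ^ r * ms w (pr (c.pk a0) c.tube) o ≤ ms w c.tube o)
  have h6 := HC Ω β c w _ s f _ _ r m a0 (tn_gd c hw hs0 hs1 hU.le hc
    (fun o => (2 : ℝ) ^ r * ms w (pr (c.pk a0) c.tube) o ≤ ms w c.tube o)) hm4 ha hlo (by
      intro o ho
      obtain ⟨⟨h7, -⟩, -⟩ := res_pos ho
      have e : ms w (pr c.tube (c.pk a0)) = ms w (pr (c.pk a0) c.tube) :=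
        ms_congr (Det.pr Det.snd Det.fst) (Det.pr Det.snd Det.fst)
      have h8 : (0 : ℝ) < (2 : ℝ) ^ r := by positivity
      rw [e, Real.rpow_neg (by norm_num), inv_mul_eq_div, le_div_iff₀ h8]
      linarith) hr.ge
  have h7 : ((c.n : ℝ) + 2) * (C1 * (((c.n / m : ℕ) : ℝ) + 1) ^ 2 * (c.n + 1) *
      (2 : ℝ) ^ (-(m : ℝ))) ≤ B := by
    have h8 := tn_exp hδ hn1 hm1
    have h9 : (((c.n / m : ℕ) : ℝ) + 1) ^ 2 ≤ (1 / δ + 1) ^ 2 := by gcongr
    calc ((c.n : ℝ) + 2) * (C1 * (((c.n / m : ℕ) : ℝ) + 1) ^ 2 * (c.n + 1) * (2 : ℝ) ^ (-(m : ℝ)))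
        = C1 * (((c.n / m : ℕ) : ℝ) + 1) ^ 2 * ((c.n + 2) * (c.n + 1) * (2 : ℝ) ^ (-(m : ℝ))) := by
          ring
      _ ≤ B := by
          rw [hB]
          gcongr
  have h8 : ((c.n : ℝ) + 2) * ((c.Fr w s + c.Df w f) / (δ ^ 2 * c.n)) ≤
      3 / δ ^ 2 * (c.Fr w s + c.Df w f) := by
    have h9 : ((c.n : ℝ) + 2) / (δ ^ 2 * c.n) ≤ 3 / δ ^ 2 := by
      rw [div_le_div_iff₀ hU (by positivity)]
      have : 0 < δ ^ 2 := by positivity
      nlinarith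
    calc ((c.n : ℝ) + 2) * ((c.Fr w s + c.Df w f) / (δ ^ 2 * c.n))
        = ((c.n : ℝ) + 2) / (δ ^ 2 * c.n) * (c.Fr w s + c.Df w f) := by ring
      _ ≤ _ := mul_le_mul_of_nonneg_right h9 (by positivity)
  obtain ⟨T, hTd⟩ : ∃ T, T = tot (res w fun o =>
    (2 : ℝ) ^ r * ms w (pr (c.pk a0) c.tube) o ≤ ms w c.tube o) := ⟨_, rfl⟩
  have hT0 : 0 ≤ T := by rw [hTd]; exact tot_nonneg (hw.res _)
  rw [← hTd] at h3 h5
  have h9 : lg (4 * 2 ^ a0) * T ≤ B * tot w + 3 / δ ^ 2 * (c.Fr w s + c.Df w f) := by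
    have h10 := mul_le_mul_of_nonneg_right h4 hT0
    have h11 := mul_le_mul_of_nonneg_left (h5.trans (add_le_add_left h6 _))
      (show (0 : ℝ) ≤ c.n + 2 by positivity)
    have h12 := mul_le_mul_of_nonneg_right h7 ht
    rw [mul_add] at h11
    linarith
  have h10 : r + 1 + 3 + (δ ^ 2 * c.n + 2 + δ ^ 2 * c.n + 2 * lg (c.n + 2) + C2) ≤
      phi f s 0 c.n + ε * c.n + (64 + 8 / δ + C2 + 2 * |lg δ|) := by
    have h11 := tn_lg hδ (show (0 : ℝ) < c.n + 2 by positivity)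
    have h12 : δ ^ 2 * c.n ≤ δ * c.n := by
      refine mul_le_mul_of_nonneg_right ?_ (by positivity)
      nlinarith
    have h13 : ((c.n / m : ℕ) : ℝ) * (δ ^ 2 * c.n + 8) ≤ δ * c.n + 8 / δ := by
      calc ((c.n / m : ℕ) : ℝ) * (δ ^ 2 * c.n + 8) ≤ 1 / δ * (δ ^ 2 * c.n + 8) := by gcongr
        _ = δ * c.n + 8 / δ := by field_simp
    have h14 := mul_le_mul_of_nonneg_right hδε (show (0 : ℝ) ≤ c.n by positivity)
    rw [hr]
    linarith
  have h11 := mul_le_mul_of_nonneg_right h10 ht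
  linarith

end Pool.Agent.Lib.MP_108739_an.F
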