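import Pool.Agent.Lib.MP_108739_an.F.TDefs
import Pool.Agent.Lib.MP_108739_an.F.Ent2
import Pool.Agent.Lib.MP_108739_an.F.Win1

/-! Classification of points by the rounded profile of masses of their squares. -/

open Finset

namespace Pool.Agent.Lib.MP_108739_an.F
open Classical

lemma typ_thr {a : ℕ → ℕ} {n : ℕ} (ha : ∀ i k, i ≤ k → k ≤ n → a i ≤ a k) {k : ℕ} (hk : k ≤ n)
    (v : ℕ) : a k ≤ v ↔ k < #((range (n + 1)).filter fun j => a j ≤ v) := by
  constructor
  · intro h
    have : range (k + 1) ⊆ (range (n + 1)).filter fun j => a j ≤ v := fun j hj => by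
      have := mem_range.1 hj
      exact mem_filter.2 ⟨mem_range.2 (by omega), (ha j k (by omega) hk).trans h⟩
    have := card_le_card this
    rwa [card_range] at this
  · intro h
    by_contra hc
    have : ((range (n + 1)).filter fun j => a j ≤ v) ⊆ range k := fun j hj => by
      obtain ⟨h1, h2⟩ := mem_filter.1 hj
      have h1 := mem_range.1 h1
      refine mem_range.2 (lt_of_not_ge fun h3 => hc ((ha k j h3 (by omega)).trans h2))
    have := card_le_card this
    rw [card_range] at this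
    omega

lemma typ_card {Ω α γ : Type} [Fintype γ] [DecidableEq α] (S : Finset Ω) (τ : Ω → α) (θ : Ω → γ)
    (h : ∀ o ∈ S, ∀ o' ∈ S, θ o = θ o' → τ o = τ o') : #(S.image τ) ≤ Fintype.card γ := by
  have e : ∀ y ∈ S.image τ, ∃ o ∈ S, τ o = y := fun y hy => mem_image.1 hy
  choose g hg using e
  rw [← card_attach, ← card_univ]
  refine card_le_card_of_injOn (fun y => θ (g y.1 y.2)) (fun _ _ => by simp) fun y _ y' _ hy => ?_
  exact Subtype.ext ((hg y.1 y.2).2.symm.trans ((h _ (hg y.1 y.2).1 _ (hg y'.1 y'.2).1 hy).trans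
    (hg y'.1 y'.2).2))

lemma typ_sum {Ω α : Type} [Fintype Ω] {w : Ω → ℝ} (hw : Nn w) (f : Ω → α) (V : Finset α)
    (A : Ω → Prop) (h : ∀ o, f o ∈ V → A o) :
    ∑ v ∈ V, tot (res w fun o => f o = v) ≤ tot (res w A) := by
  unfold tot res
  rw [Finset.sum_comm]
  refine Finset.sum_le_sum fun o _ => ?_
  by_cases ho : f o ∈ V
  · rw [if_pos (h o ho), Finset.sum_eq_single (f o)]
    · rw [if_pos rfl]
    · intro v _ hv
      rw [if_neg fun h' => hv h'.symm]
    · exact fun hn => absurd ho hn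
  · rw [Finset.sum_eq_zero fun v hv => if_neg (by rintro rfl; exact ho hv)]
    split_ifs
    · exact hw o
    · exact le_rfl

lemma typ_mem {Ω α β : Type} [Fintype Ω] {w : Ω → ℝ} {f : Ω → α} {g : Ω → β} {o : Ω} {v : α}
    (h : v ∈ vals w f g o) : ∃ o', 0 < w o' ∧ g o' = g o ∧ f o' = v := by
  simpa [vals, and_assoc] using h

theorem typ : TypeStmt := by
  intro Ω β _ c w U M hw hU hM
  let F : Ω → ℕ → ℝ := fun o k => lg (ms w (c.pk 0) o / ms w (c.pk k) o)
  let a : Ω → ℕ → ℕ := fun o k => ⌊F o k / U⌋₊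
  let r : ℕ × ℕ → Ω → ℝ := fun q o =>
    ms w (c.pk q.1) o / ((4 : ℝ) ^ (q.2 - q.1) * ms w (pr (c.pk q.2) (c.pk q.1)) o)
  let S := (range (c.n + 1) ×ˢ range (c.n + 1)).filter fun q => q.1 ≤ q.2
  let bad : Ω → Prop := fun o => ∃ q ∈ S, U ≤ lg (r q o) ∧ 0 < r q o
  have mp : ∀ {o}, 0 < w o → ∀ k, 0 < ms w (c.pk k) o := fun h k => ms_pos hw _ h
  have dF : ∀ {o}, 0 < w o → ∀ i k, lg (ms w (c.pk i) o / ms w (c.pk k) o) = F o k - F o i := by
    intro o h i k
    simp only [F]
    rw [lg_div (mp h _) (mp h _), lg_div (mp h _) (mp h _), lg_div (mp h _) (mp h _)]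
    ring
  have mF : ∀ {o}, 0 < w o → ∀ {i k}, i ≤ k → F o i ≤ F o k := by
    intro o h i k hik
    have := lg_nonneg ((one_le_div (mp h k)).2 (ms_mono hw (c.det_pk hik) o))
    rw [dF h] at this
    linarith
  have F0 : ∀ {o}, 0 < w o → F o 0 = 0 := by
    intro o h
    simp only [F]
    rw [div_self (mp h 0).ne', lg_one]
  have pF : ∀ {o}, 0 < w o → ∀ k, 0 ≤ F o k := fun h k => F0 h ▸ mF h (Nat.zero_le k)
  have lo : ∀ {o}, 0 < w o → ∀ k, U * a o k ≤ F o k := by
    intro o h k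
    have := Nat.floor_le (div_nonneg (pF h k) hU.le)
    rw [le_div_iff₀ hU] at this
    simp only [a]
    linarith
  have hi : ∀ o k, F o k < U * a o k + U := by
    intro o k
    have := Nat.lt_floor_add_one (F o k / U)
    rw [div_lt_iff₀ hU] at this
    simp only [a]
    linarith
  have ma : ∀ {o}, 0 < w o → ∀ {i k}, i ≤ k → a o i ≤ a o k := fun h _ _ hik =>
    Nat.floor_mono (div_le_div_of_nonneg_right (mF h hik) hU.le)
  have nb : ∀ {o}, 0 < w o → ¬ bad o → ∀ {i k}, i ≤ k → k ≤ c.n →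
      F o k - F o i ≤ 2 * ((k : ℝ) - i) + U := by
    intro o h hb i k hik hk
    have e : ms w (pr (c.pk k) (c.pk i)) = ms w (c.pk k) :=
      ms_congr Det.fst (Det.pr Det.rfl (c.det_pk hik))
    have e4 : lg ((4 : ℝ) ^ (k - i)) = 2 * ((k : ℝ) - i) := by
      rw [show (4 : ℝ) = 2 ^ 2 by norm_num, ← pow_mul, lg_two_pow]
      push_cast [Nat.cast_sub hik]
      ring
    have p4 : (0 : ℝ) < 4 ^ (k - i) := by positivity
    by_contra hc
    refine hb ⟨(i, k), mem_filter.2 ⟨mem_product.2 ⟨mem_range.2 (by omega),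
      mem_range.2 (by omega)⟩, hik⟩, ?_, ?_⟩
    · simp only [r]
      rw [e, lg_div (mp h _) (mul_pos p4 (mp h _)), lg_mul p4 (mp h _), e4]
      have := dF h i k
      rw [lg_div (mp h _) (mp h _)] at this
      linarith
    · simp only [r]
      rw [e]
      exact div_pos (mp h _) (mul_pos p4 (mp h _))
  have three : ∀ o, 0 < w o → ¬ bad o → ∀ i k, i ≤ k → k ≤ c.n →
      U * a o (min i c.n) ≤ U * a o (min k c.n) ∧
      U * a o (min k c.n) - U * a o (min i c.n) ≤ 2 * ((k : ℝ) - i) + 2 * U ∧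
      |U * a o (min k c.n) - U * a o (min i c.n) -
        lg (ms w (c.pk i) o / ms w (c.pk k) o)| ≤ U := by
    intro o h hb i k hik hk
    rw [min_eq_left hk, min_eq_left (hik.trans hk), dF h, abs_le]
    have h1 := lo h i
    have h2 := lo h k
    have h3 := hi o i
    have h4 := hi o k
    have h5 := nb h hb hik hk
    exact ⟨mul_le_mul_of_nonneg_left (by exact_mod_cast ma h hik) hU.le, by linarith,
      by linarith, by linarith⟩
  refine ⟨fun o k => U * a o (min k c.n), bad, ?_, ?_, three, ?_⟩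
  · refine (tot_res_exists hw S fun q o => U ≤ lg (r q o) ∧ 0 < r q o).trans ?_
    refine (Finset.sum_le_card_nsmul S _ ((2 : ℝ) ^ (-U) * tot w) fun q hq => ?_).trans ?_
    · obtain ⟨h1, h2⟩ := mem_filter.1 hq
      have h3 := mem_range.1 (mem_product.1 h1).2
      refine ratio_tail hw (r q) (fun o => div_nonneg (ms_nonneg hw _ _)
        (mul_nonneg (by positivity) (ms_nonneg hw _ _))) ?_ U
      refine ratio_card hw (by positivity) fun o _ => ?_
      exact_mod_cast c.card_vals_pk w h2 (by omega) o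
    · rw [nsmul_eq_mul, mul_assoc]
      refine mul_le_mul_of_nonneg_right ?_ (mul_nonneg (by positivity) (tot_nonneg hw))
      have : #S ≤ (c.n + 1) ^ 2 := (card_filter_le _ _).trans (by simp [sq])
      exact_mod_cast this
  · let θ : Ω → Fin (M + 1) → Fin (c.n + 2) := fun o v =>
      ⟨#((range (c.n + 1)).filter fun j => a o j ≤ v),
        Nat.lt_succ_of_le ((card_filter_le _ _).trans (card_range _).le)⟩
    refine (typ_card _ _ θ fun o ho o' ho' h => ?_).trans (by simp)
    simp only [mem_filter, mem_univ, true_and] at ho ho'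
    obtain ⟨h1, h2⟩ := ho
    obtain ⟨h1', h2'⟩ := ho'
    have aM : ∀ {o}, 0 < w o → ¬ bad o → ∀ {k}, k ≤ c.n → a o k < M + 1 := by
      intro o h hb k hk
      have h3 := nb h hb (Nat.zero_le c.n) le_rfl
      have h4 := mF h hk
      have h5 := lo h k
      rw [F0 h] at h3
      have h6 : 2 * (c.n : ℝ) + U ≤ M * U := by
        rw [← div_le_iff₀ hU, add_div, div_self hU.ne']
        exact hM
      have h7 : U * (a o k : ℝ) ≤ U * M := by
        simp only [Nat.cast_zero] at h3
        linarith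
      have h8 : (a o k : ℝ) ≤ M := le_of_mul_le_mul_left h7 hU
      exact Nat.lt_succ_of_le (by exact_mod_cast h8)
    have key : ∀ k ≤ c.n, ∀ v : Fin (M + 1), a o k ≤ v ↔ a o' k ≤ v := by
      intro k hk v
      rw [typ_thr (fun _ _ h _ => ma h1 h) hk, typ_thr (fun _ _ h _ => ma h1' h) hk]
      exact (congrArg (fun z : Fin (c.n + 2) => k < z.1) (congrFun h v)).to_iff
    funext k
    have hk := min_le_right k c.n
    rw [le_antisymm ((key _ hk ⟨_, aM h1' h2' hk⟩).2 le_rfl) ((key _ hk ⟨_, aM h1 h2 hk⟩).1 le_rfl)]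
  · intro o i k o2 hik hk
    set V := vals (res w fun o' => ¬ bad o' ∧ (fun k => U * (a o' (min k c.n) : ℝ)) =
      fun k => U * (a o (min k c.n) : ℝ)) (c.pk k) (c.pk i) o2 with hV
    set e : ℝ := U * a o (min k c.n) - U * a o (min i c.n) + U with he
    have mem : ∀ v ∈ V, ∃ o', c.pk k o' = v ∧ c.pk i o' = c.pk i o2 ∧ 0 < w o' ∧
        ms w (c.pk i) o2 ≤ (2 : ℝ) ^ e * tot (res w fun o => c.pk k o = v) := by
      intro v hv
      obtain ⟨o', h1, h2, rfl⟩ := typ_mem hv
      obtain ⟨⟨h3, h4⟩, h5⟩ := res_pos h1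
      refine ⟨o', rfl, h2, h5, ?_⟩
      have h6 := (abs_le.1 (three o' h5 h3 i k hik hk).2.2).1
      rw [congrFun h4 k, congrFun h4 i] at h6
      rw [← ms_eq_tot, ← ms_det (w := w) (c.pk i) o' o2 h2, ← div_le_iff₀ (mp h5 k),
        ← two_rpow_lg (div_pos (mp h5 i) (mp h5 k))]
      exact Real.rpow_le_rpow_of_exponent_le one_le_two (by linarith)
    rcases V.eq_empty_or_nonempty with h0 | ⟨v0, hv0⟩
    · rw [h0, card_empty, Nat.cast_zero]
      positivity
    obtain ⟨o1, -, h1, h2, -⟩ := mem v0 hv0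
    have m0 : 0 < ms w (c.pk i) o2 := ms_det (w := w) (c.pk i) o1 o2 h1 ▸ mp h2 i
    have s1 := typ_sum hw (c.pk k) V (fun o' => c.pk i o' = c.pk i o2) fun o' ho' => by
      obtain ⟨o3, h3, h4, -⟩ := mem _ ho'
      exact (c.det_pk hik o' o3 h3.symm).trans h4
    rw [← ms_eq_tot] at s1
    have s2 := Finset.card_nsmul_le_sum V
      (fun v => (2 : ℝ) ^ e * tot (res w fun o => c.pk k o = v)) _
      fun v hv => (mem v hv).choose_spec.2.2.2
    rw [nsmul_eq_mul, ← Finset.mul_sum] at s2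
    exact le_of_mul_le_mul_right (s2.trans (mul_le_mul_of_nonneg_left s1 (by positivity))) m0

end Pool.Agent.Lib.MP_108739_an.F
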