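import Pool.Agent.Lib.MP_108739_an.F.Abc
import Pool.Agent.Lib.MP_108739_an.F.Ca
import Pool.Agent.Lib.MP_108739_an.F.Cb
import Pool.Agent.Lib.MP_108739_an.F.Dec
import Pool.Agent.Lib.MP_108739_an.F.Ends
import Pool.Agent.Lib.MP_108739_an.F.GeoA
import Pool.Agent.Lib.MP_108739_an.F.GeoB
import Pool.Agent.Lib.MP_108739_an.F.GeoC
import Pool.Agent.Lib.MP_108739_an.F.GeoD
import Pool.Agent.Lib.MP_108739_an.F.HL
import Pool.Agent.Lib.MP_108739_an.F.L1
import Pool.Agent.Lib.MP_108739_an.F.Pair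
import Pool.Agent.Lib.MP_108739_an.F.Prof
import Pool.Agent.Lib.MP_108739_an.F.Rw
import Pool.Agent.Lib.MP_108739_an.F.TCore
import Pool.Agent.Lib.MP_108739_an.F.Te
import Pool.Agent.Lib.MP_108739_an.F.Tent
import Pool.Agent.Lib.MP_108739_an.F.Type
import Pool.Agent.Lib.MP_108739_an.F.Reg
import Pool.Agent.Lib.MP_108739_an.F.Fin

/-! The two-ends incidence estimate. -/

namespace Pool.Agent.Lib.MP_108739_an.F

theorem fAll : HA.FStmt :=
  fF (te (rw typ (prof dec
    (tent (tcore geoA geoB geoC (ca (pair hl geoA)) (cb (pair hl geoA) geoD) ends) l1) (reg abc))))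

end Pool.Agent.Lib.MP_108739_an.F
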