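import Pool.Agent.Lib.MP_108739_an.F.Defs

/-! Statement of the decomposition of a branching function into windows. -/

open Finset

namespace Pool.Agent.Lib.MP_108739_an.F

def DecStmt : Prop := ∀ ε η : ℝ, 0 < ε → 0 < η → ∃ κ0 : ℝ, 0 < κ0 ∧ ∀ κ : ℝ, 0 < κ → κ ≤ κ0 →
  ∃ n0 : ℕ, ∀ n, n0 ≤ n → ∀ (s : ℝ) (f : ℕ → ℝ), 0 ≤ s → s ≤ 1 →
    (∀ i k, i ≤ k → k ≤ n → f i ≤ f k ∧ f k - f i ≤ 2 * ((k : ℝ) - i) + κ * n) →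
    ∃ (M : ℕ) (c : ℕ → ℕ) (J : Finset ℕ), c 0 = 0 ∧ c M = n ∧
      (∀ i j, i < j → j ≤ M → c i < c j) ∧ (M : ℝ) ≤ 1 / κ ∧ J ⊆ range M ∧
      ∑ m ∈ J, ((c (m + 1) : ℝ) - c m) ≤ ε * n ∧
      (∀ m ∈ range M \ J, √κ * n ≤ (c (m + 1) : ℝ) - c m ∧
        (Tent f s η (c m) (c (m + 1)) ∨ Lin f s η (c m) (c (m + 1)))) ∧
      ∀ t, s ≤ t → t ≤ 2 - s → ∑ m ∈ range M \ J, phi f s (c m) (c (m + 1)) ≤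
        mx (range (n + 1)) (fun k => f n - f k - t * ((n : ℝ) - k)) + (t - s) * n / 2 + ε * n

end Pool.Agent.Lib.MP_108739_an.F
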