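import Mathlib

/-! Definitions for the two-ends incidence estimate: entropy of weights, configurations. -/

open Finset

namespace Pool.Agent.Lib.MP_108739_an.F

noncomputable section
open Classical

/-- logarithm to base two -/
def lg (x : ℝ) : ℝ := Real.logb 2 x

/-- maximum of `0` and finitely many values -/
def mx {ι : Type} (s : Finset ι) (F : ι → ℝ) : ℝ := s.fold max 0 F

section ent
variable {Ω α β γ : Type} [Fintype Ω]

def Nn (w : Ω → ℝ) : Prop := ∀ o, 0 ≤ w o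

def tot (w : Ω → ℝ) : ℝ := ∑ o, w o

def E (w F : Ω → ℝ) : ℝ := ∑ o, w o * F o

/-- mass of the fibre of `f` through `o` -/
def ms (w : Ω → ℝ) (f : Ω → α) (o : Ω) : ℝ := ∑ o', if f o' = f o then w o' else 0

def pr (f : Ω → α) (g : Ω → β) : Ω → α × β := fun o => (f o, g o)

def un : Ω → Unit := fun _ => ()

/-- conditional entropy in bits for a weight that is not normalised -/
def H (w : Ω → ℝ) (f : Ω → α) (g : Ω → β) : ℝ := E w fun o => lg (ms w g o / ms w (pr f g) o)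

/-- conditional mutual information -/
def I (w : Ω → ℝ) (f : Ω → α) (g : Ω → β) (k : Ω → γ) : ℝ := H w f k - H w f (pr g k)

def res (w : Ω → ℝ) (A : Ω → Prop) : Ω → ℝ := fun o => if A o then w o else 0

/-- `g` determines `f` -/
def Det (g : Ω → β) (f : Ω → α) : Prop := ∀ o o', g o = g o' → f o = f o'

/-- values of `f` on the part of the fibre of `g` through `o` that has positive weight -/
def vals (w : Ω → ℝ) (f : Ω → α) (g : Ω → β) (o : Ω) : Finset α :=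
  (univ.filter fun o' => 0 < w o' ∧ g o' = g o).image f

def law (w : Ω → ℝ) (f : Ω → α) : α →₀ ℝ := ∑ o, Finsupp.single (f o) (w o)

/-- conditional law of `f` on the fibre of `g` through `o` -/
def lw (w : Ω → ℝ) (f : Ω → α) (g : Ω → β) (o : Ω) : α →₀ ℝ :=
  (ms w g o)⁻¹ • law (res w fun o' => g o' = g o) f

def n1 (F : α →₀ ℝ) : ℝ := ∑ v ∈ F.support, |F v|

def sh (d : ℤ) (F : ℤ →₀ ℝ) : ℤ →₀ ℝ := F.mapDomain (· + d)

/-- `ξ` is uniform on `[0,h)` and independent of `G` -/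
def Unif (w : Ω → ℝ) (ξ : Ω → ℤ) (h : ℕ) (G : Ω → β) : Prop :=
  (∀ o, 0 ≤ ξ o ∧ ξ o < h) ∧ ∀ o, ms w (pr ξ G) o = ms w G o / h

/-- index of the level `y` cell in base `D` -/
def cl (D n y : ℕ) (Y : Ω → ℕ) : Ω → ℕ := fun o => Y o / D ^ (n - y)

/-- failure of the Frostman bound for `Y` given `g`, with slack -/
def Pen (w : Ω → ℝ) (g : Ω → β) (T n : ℕ) (e b : ℝ) (Y : Ω → ℕ) : ℝ :=
  E w fun o => mx (range (n + 1)) fun y =>
    b * y * T - e * n * T - lg (ms w g o / ms w (pr (cl (2 ^ T) n y Y) g) o)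

/-- the child at level `x` does not sit next to half of the mass -/
def Br (w : Ω → ℝ) (D n : ℕ) (Y : Ω → ℕ) (x : ℕ) (o : Ω) : Prop :=
  tot (res w fun o' => cl D n x Y o' = cl D n x Y o ∧
    |(cl D n (x + 1) Y o' : ℤ) - cl D n (x + 1) Y o| ≤ 1) ≤ ms w (cl D n x Y) o / 2

end ent

/-- points `(x,y)`, slopes `a`, all below `2^n`, and a label `b` on which one conditions -/
structure Cfg (Ω β : Type) where
  n : ℕ
  b : Ω → β
  x : Ω → ℕ
  y : Ω → ℕ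
  a : Ω → ℕ
  hx : ∀ o, x o < 2 ^ n
  hy : ∀ o, y o < 2 ^ n
  ha : ∀ o, a o < 2 ^ n

namespace Cfg
variable {Ω β : Type} [Fintype Ω] (c : Cfg Ω β)

def xk (k : ℕ) : Ω → ℕ := fun o => c.x o / 2 ^ (c.n - k)
def yk (k : ℕ) : Ω → ℕ := fun o => c.y o / 2 ^ (c.n - k)
def ak (k : ℕ) : Ω → ℕ := fun o => c.a o / 2 ^ (c.n - k)

/-- the square of level `k` with the label -/
def pk (k : ℕ) : Ω → ℕ × ℕ × β := fun o => (c.xk k o, c.yk k o, c.b o)

def tube : Ω → ℕ × ℕ × β := fun o => (c.a o, c.y o + c.a o * c.x o / 2 ^ c.n, c.b o)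

def h (w : Ω → ℝ) : ℝ := H w (c.pk c.n) c.tube

/-- window of point scales -/
def win (i k : ℕ) : Cfg Ω (ℕ × ℕ × β) where
  n := k - i
  b := c.pk i
  x := fun o => c.xk k o % 2 ^ (k - i)
  y := fun o => c.yk k o % 2 ^ (k - i)
  a := fun o => c.ak (k - i) o % 2 ^ (k - i)
  hx := fun _ => Nat.mod_lt _ (by positivity)
  hy := fun _ => Nat.mod_lt _ (by positivity)
  ha := fun _ => Nat.mod_lt _ (by positivity)

def hw (w : Ω → ℝ) (i k : ℕ) : ℝ := (c.win i k).h w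

/-- second coordinate sheared by the slope of level `j` -/
def shr (j : ℕ) : Ω → ℕ := fun o => c.y o + c.ak j o * 2 ^ (c.n - j) * c.x o / 2 ^ c.n

/-- the fat tube of level `j` -/
def ft (j : ℕ) : Ω → ℕ × ℕ × β := fun o => (c.ak j o, c.shr j o / 2 ^ (c.n - j), c.b o)

/-- rescaling of the fat tubes of level `j` -/
def fat (j : ℕ) : Cfg Ω (ℕ × ℕ × β) where
  n := c.n - j
  b := c.ft j
  x := fun o => c.xk (c.n - j) o % 2 ^ (c.n - j)
  y := fun o => c.shr j o % 2 ^ (c.n - j)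
  a := fun o => c.a o % 2 ^ (c.n - j)
  hx := fun _ => Nat.mod_lt _ (by positivity)
  hy := fun _ => Nat.mod_lt _ (by positivity)
  ha := fun _ => Nat.mod_lt _ (by positivity)

def ktI (w : Ω → ℝ) (t : ℝ) (o : Ω) : ℝ := mx (range (c.n + 1)) fun k =>
  lg (ms w (c.pk k) o / ms w (c.pk c.n) o) - t * ((c.n : ℝ) - k)

def frI (w : Ω → ℝ) (s : ℝ) (j m : ℕ) (o : Ω) : ℝ := mx (range (m + 1)) fun y =>
  s * y - lg (ms w (pr (c.ak j) (c.pk c.n)) o / ms w (pr (c.ak (j + y)) (c.pk c.n)) o)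

def dfI (w : Ω → ℝ) (f : ℕ → ℝ) (o : Ω) : ℝ :=
  mx ((range (c.n + 1) ×ˢ range (c.n + 1)).filter fun q => q.1 ≤ q.2) fun q =>
    f q.2 - f q.1 - lg (ms w (c.pk q.1) o / ms w (c.pk q.2) o)

def Kt (w : Ω → ℝ) (t : ℝ) : ℝ := E w (c.ktI w t)
def FrW (w : Ω → ℝ) (s : ℝ) (j m : ℕ) : ℝ := E w (c.frI w s j m)
def Fr (w : Ω → ℝ) (s : ℝ) : ℝ := c.FrW w s 0 c.n
def Df (w : Ω → ℝ) (f : ℕ → ℝ) : ℝ := E w (c.dfI w f)

def Cov (w : Ω → ℝ) (f : ℕ → ℝ) (U : ℝ) : Prop := ∀ i k o, i ≤ k → k ≤ c.n →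
  (#(vals w (c.pk k) (c.pk i) o) : ℝ) ≤ (2 : ℝ) ^ (f k - f i + U)

/-- an almost extremal regular configuration with almost independent slopes -/
def Ext (w : Ω → ℝ) (s t b σ : ℝ) : Prop :=
  (∀ (A : Ω → Prop) (i k : ℕ), i ≤ k → k ≤ c.n →
    c.hw (res w A) i k ≤ b * ((k : ℝ) - i) * tot (res w A) + σ * c.n * tot w) ∧
  b * c.n * tot w - σ * c.n * tot w ≤ c.h w ∧
  I w c.a (c.pk c.n) c.b ≤ σ * c.n * tot w ∧ c.Fr w s ≤ σ * c.n * tot w ∧
  c.Df w (fun k => t * k) ≤ σ * c.n * tot w ∧ c.Cov w (fun k => t * k) (σ * c.n)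

end Cfg

/-- `f` lies above the tent on `[i,k]` -/
def Tent (f : ℕ → ℝ) (s η : ℝ) (i k : ℕ) : Prop := ∀ y, i ≤ y → y ≤ k →
  min ((2 - s) * ((y : ℝ) - i)) (f k - f i - s * ((k : ℝ) - y)) - η * ((k : ℝ) - i) ≤ f y - f i

/-- `f` is almost linear on `[i,k]` with an admissible slope -/
def Lin (f : ℕ → ℝ) (s η : ℝ) (i k : ℕ) : Prop := ∃ t, s ≤ t ∧ t ≤ 2 - s ∧
  f k - f i = t * ((k : ℝ) - i) ∧
  ∀ y, i ≤ y → y ≤ k → |f y - f i - t * ((y : ℝ) - i)| ≤ η * ((k : ℝ) - i)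

def phi (f : ℕ → ℝ) (s : ℝ) (i k : ℕ) : ℝ :=
  max 0 (max (f k - f i - ((k : ℝ) - i)) ((f k - f i - s * ((k : ℝ) - i)) / 2))

/-- the estimate for regular configurations with excess `e` -/
def Reg (s0 e : ℝ) : Prop := ∃ η K C : ℝ, 0 < η ∧ 0 ≤ K ∧ 0 ≤ C ∧
  ∀ (Ω β : Type) [Fintype Ω] (c : Cfg Ω β) (w : Ω → ℝ) (s t : ℝ), Nn w → s0 ≤ s → s ≤ t →
    t ≤ 2 - s → c.Cov w (fun k => t * k) (η * c.n) →
    c.h w ≤ ((t - s) / 2 + e) * c.n * tot w + K * (c.Fr w s + c.Df w fun k => t * k) + C * tot w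

end

end Pool.Agent.Lib.MP_108739_an.F
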