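import Pool.Agent.Lib.MP_108739_an.F.RDefs

/-! Small tools for the last step of the incidence estimate: Jensen, pigeonhole, breakpoints. -/

open Finset

namespace Pool.Agent.Lib.MP_108739_an.F.Fn

noncomputable section
open Classical

variable {Ω α β : Type} [Fintype Ω]

theorem ms_nn {w : Ω → ℝ} (hw : Nn w) (f : Ω → α) (o : Ω) : 0 ≤ ms w f o :=
  sum_nonneg fun o' _ => by split_ifs; exacts [hw o', le_rfl]

theorem le_ms' {w : Ω → ℝ} (hw : Nn w) (f : Ω → α) (o : Ω) : w o ≤ ms w f o := by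
  have := single_le_sum (f := fun o' => if f o' = f o then w o' else 0)
    (fun o' _ => by split_ifs; exacts [hw o', le_rfl]) (mem_univ o)
  simpa [ms] using this

omit [Fintype Ω] in
theorem res_nn {w : Ω → ℝ} (hw : Nn w) (A : Ω → Prop) : Nn (res w A) := fun o => by
  unfold res; split_ifs; exacts [hw o, le_rfl]

omit [Fintype Ω] in
theorem res_le {w : Ω → ℝ} (hw : Nn w) (A : Ω → Prop) (o : Ω) : res w A o ≤ w o := by
  unfold res; split_ifs; exacts [le_rfl, hw o]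

theorem ms_res_le {w : Ω → ℝ} (hw : Nn w) (A : Ω → Prop) (f : Ω → α) (o : Ω) :
    ms (res w A) f o ≤ ms w f o :=
  sum_le_sum fun o' _ => by split_ifs; exacts [res_le hw A o', le_rfl]

theorem E_le {w F G : Ω → ℝ} (hw : Nn w) (h : ∀ o, 0 < w o → F o ≤ G o) : E w F ≤ E w G :=
  sum_le_sum fun o _ => by
    rcases (hw o).eq_or_lt with h0 | h0
    · simp [← h0]
    · exact mul_le_mul_of_nonneg_left (h o h0) (hw o)

theorem E_add' (w F G : Ω → ℝ) : E w (fun o => F o + G o) = E w F + E w G := by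
  simp [E, mul_add, sum_add_distrib]

theorem E_const' (w : Ω → ℝ) (a : ℝ) : E w (fun _ => a) = a * tot w := by
  simp [E, tot, mul_sum, mul_comm]

theorem E_smul' (w F : Ω → ℝ) (a : ℝ) : E w (fun o => a * F o) = a * E w F := by
  simp [E, mul_sum, mul_left_comm]

theorem lg_mul' {a b : ℝ} (ha : 0 < a) (hb : 0 < b) : lg (a * b) = lg a + lg b :=
  Real.logb_mul ha.ne' hb.ne'

theorem lg_div' {a b : ℝ} (ha : 0 < a) (hb : 0 < b) : lg (a / b) = lg a - lg b :=
  Real.logb_div ha.ne' hb.ne'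

theorem lg_le' {a b : ℝ} (ha : 0 < a) (h : a ≤ b) : lg a ≤ lg b :=
  Real.logb_le_logb_of_le (by norm_num) ha h

theorem sum_div_ms (w : Ω → ℝ) (g : Ω → β) (S : Finset β) (hS : ∀ o, g o ∈ S)
    (φ : β → ℝ) (hφ : ∀ v, 0 ≤ φ v) : ∑ o, w o * (φ (g o) / ms w g o) ≤ ∑ v ∈ S, φ v := by
  rw [← sum_fiberwise_of_maps_to (s := univ) (t := S) (g := g) (fun o _ => hS o)]
  refine sum_le_sum fun v _ => ?_
  have h1 : ∀ o ∈ univ.filter (fun o => g o = v), w o * (φ (g o) / ms w g o) =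
      w o * (φ v / ∑ o' ∈ univ.filter (fun o => g o = v), w o') := by
    intro o ho
    have : g o = v := (mem_filter.1 ho).2
    rw [ms, this, sum_filter]
  rw [sum_congr rfl h1, ← sum_mul]
  set M := ∑ o' ∈ univ.filter (fun o => g o = v), w o'
  rcases eq_or_ne M 0 with h0 | h0
  · simp [h0, hφ v]
  · rw [mul_div_cancel₀ _ h0]

/-- Jensen for the logarithm -/
theorem E_lg_le {w : Ω → ℝ} (hw : Nn w) (r : Ω → ℝ) (hr : ∀ o, 0 < w o → 0 < r o) {B : ℝ}
    (hB : 0 < B) (h : ∑ o, w o * r o ≤ B * tot w) : E w (fun o => lg (r o)) ≤ lg B * tot w := by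
  have l2 : 0 < Real.log 2 := Real.log_pos (by norm_num)
  have h1 : E w (fun o => lg (r o)) ≤
      E w (fun o => lg B + (Real.log 2)⁻¹ * (B⁻¹ * r o + -1)) := by
    refine E_le hw fun o ho => ?_
    have h2 := Real.log_le_sub_one_of_pos (div_pos (hr o ho) hB)
    rw [Real.log_div (hr o ho).ne' hB.ne'] at h2
    unfold lg Real.logb
    rw [div_le_iff₀ l2, add_mul, div_mul_cancel₀ _ l2.ne', mul_comm (Real.log 2)⁻¹, mul_assoc,
      inv_mul_cancel₀ l2.ne', mul_one]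
    rw [div_eq_inv_mul] at h2
    linarith
  rw [E_add', E_const', E_smul', E_add', E_smul', E_const'] at h1
  have h3 : B⁻¹ * E w r ≤ tot w := by
    rw [inv_mul_le_iff₀ hB]; exact h
  have h4 : (Real.log 2)⁻¹ * (B⁻¹ * E w r + -1 * tot w) ≤ 0 :=
    mul_nonpos_of_nonneg_of_nonpos (inv_pos.2 l2).le (by linarith)
  linarith

/-- loss of mass on an event, on the fibres of `g` -/
theorem E_loss {w : Ω → ℝ} (hw : Nn w) (A : Ω → Prop) (g : Ω → β) {L : ℝ} (hL : 0 < L)
    (h : tot w ≤ L * tot (res w A)) :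
    E (res w A) (fun o => lg (ms w g o / ms (res w A) g o)) ≤ lg L * tot (res w A) := by
  have hw' := res_nn hw A
  refine E_lg_le hw' _ (fun o ho => ?_) hL (le_trans ?_ h)
  · have := ho.trans_le (le_ms' hw' g o)
    exact div_pos (this.trans_le (ms_res_le hw A g o)) this
  · refine (sum_div_ms _ g (univ.image g) (fun o => mem_image_of_mem g (mem_univ o))
      (fun v => ∑ o', if g o' = v then w o' else 0)
      (fun v => sum_nonneg fun o' _ => by split_ifs; exacts [hw o', le_rfl])).trans ?_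
    rw [sum_comm]
    refine le_of_eq (sum_congr rfl fun o _ => ?_)
    rw [sum_ite_eq]
    simp

theorem E_card {w : Ω → ℝ} (hw : Nn w) (h0 : 0 < tot w) (g : Ω → β) (S : Finset β)
    (hS : ∀ o, g o ∈ S) (hp : 0 < (#S : ℝ)) :
    E w (fun o => lg (tot w / ms w g o)) ≤ lg #S * tot w := by
  refine E_lg_le hw _ (fun o ho => div_pos h0 (ho.trans_le (le_ms' hw g o))) hp ?_
  refine (sum_div_ms w g S hS (fun _ => tot w) (fun _ => h0.le)).trans ?_
  simp

theorem pigeon (w : Ω → ℝ) {ι : Type} [Fintype ι] [Nonempty ι] (τ : Ω → ι) :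
    ∃ t, tot w ≤ Fintype.card ι * tot (res w fun o => τ o = t) := by
  have h1 : ∑ t : ι, tot w / Fintype.card ι ≤ ∑ t : ι, tot (res w fun o => τ o = t) := by
    have : (0 : ℝ) < Fintype.card ι := by exact_mod_cast Fintype.card_pos
    rw [sum_const, card_univ, nsmul_eq_mul, mul_div_cancel₀ _ this.ne']
    unfold tot res
    rw [sum_comm]
    refine le_of_eq (sum_congr rfl fun o _ => ?_)
    rw [sum_ite_eq]
    simp
  obtain ⟨t, -, ht⟩ := exists_le_of_sum_le univ_nonempty h1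
  have : (0 : ℝ) < Fintype.card ι := by exact_mod_cast Fintype.card_pos
  exact ⟨t, by rwa [div_le_iff₀ this, mul_comm] at ht⟩

theorem argmin_from (G : ℕ → ℝ) (n a : ℕ) : ∃ j, j ≤ n ∧ (a ≤ n → a ≤ j ∧
    ∀ y, a ≤ y → y ≤ n → G j ≤ G y) := by
  by_cases h : a ≤ n
  · obtain ⟨j, hj, hm⟩ := exists_min_image (Icc a n) G ⟨a, by simp [h]⟩
    exact ⟨j, (mem_Icc.1 hj).2, fun _ => ⟨(mem_Icc.1 hj).1, fun y h1 h2 => hm y (by simp [h1, h2])⟩⟩
  · exact ⟨0, Nat.zero_le _, fun h' => absurd h' h⟩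

/-- successive minimisers -/
theorem breaks (G s : ℕ → ℝ) (n : ℕ) : ∃ j : ℕ → ℕ, (∀ i, j i ≤ n) ∧ (∀ i, j i ≤ j (i + 1)) ∧
    (∀ i y, j i ≤ y → y ≤ n → G (j i) - s i * j i ≤ G y - s i * y) ∧
    (∀ i, G (j (i + 1)) - s (i + 1) * j (i + 1) ≤ G (j i) - s (i + 1) * j i) ∧
    G (j 0) - s 0 * j 0 ≤ G 0 := by
  choose m hm1 hm2 using fun i a => argmin_from (fun y => G y - s i * y) n a
  let j : ℕ → ℕ := fun i => Nat.rec (m 0 0) (fun i a => m (i + 1) a) i
  have j0 : j 0 = m 0 0 := rfl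
  have js : ∀ i, j (i + 1) = m (i + 1) (j i) := fun _ => rfl
  have hn : ∀ i, j i ≤ n := fun i => by
    cases i with
    | zero => exact hm1 0 0
    | succ i => exact hm1 _ _
  refine ⟨j, hn, fun i => (hm2 (i + 1) (j i) (hn i)).1, fun i y h1 h2 => ?_,
    fun i => (hm2 (i + 1) (j i) (hn i)).2 _ le_rfl (hn i), ?_⟩
  · cases i with
    | zero => exact (hm2 0 0 (Nat.zero_le _)).2 y (Nat.zero_le _) h2
    | succ i => exact (hm2 (i + 1) (j i) (hn i)).2 y ((hm2 (i + 1) (j i) (hn i)).1.trans h1) h2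
  · rw [j0]; simpa using (hm2 0 0 (Nat.zero_le _)).2 0 le_rfl (Nat.zero_le _)

theorem mx_le' {ι : Type} (s : Finset ι) (F : ι → ℝ) {b : ℝ} (h0 : 0 ≤ b) (h : ∀ i ∈ s, F i ≤ b) :
    mx s F ≤ b := (fold_max_le _).2 ⟨h0, h⟩

theorem lg_small (A e : ℝ) (hA : 0 ≤ A) (he : 0 < e) :
    ∃ B : ℝ, 1 ≤ B ∧ ∀ n : ℕ, A * lg (n + 2) + 1 ≤ e * n + B := by
  have l2 : 0 < Real.log 2 := Real.log_pos (by norm_num)
  set a := A / Real.log 2 with ha
  have a0 : 0 ≤ a := div_nonneg hA l2.le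
  have hd : 0 < (a + 1) / e := by positivity
  refine ⟨1 + 2 * e + a * |Real.log ((a + 1) / e)|, by
    have := abs_nonneg (Real.log ((a + 1) / e)); nlinarith [mul_nonneg a0 this], fun n => ?_⟩
  have hn : (0 : ℝ) < n + 2 := by positivity
  have h1 := Real.log_le_sub_one_of_pos (div_pos hn hd)
  rw [Real.log_div hn.ne' hd.ne'] at h1
  have h2 : A * lg (n + 2) = a * Real.log (n + 2) := by
    unfold lg Real.logb; rw [ha]; ring
  have h3 : a * ((n + 2) / ((a + 1) / e)) ≤ e * (n + 2) := by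
    have : a * ((n + 2) / ((a + 1) / e)) = (a / (a + 1)) * (e * (n + 2)) := by
      field_simp
    rw [this]
    exact mul_le_of_le_one_left (by positivity) (by rw [div_le_one (by positivity)]; linarith)
  have h4 := le_abs_self (Real.log ((a + 1) / e))
  have h5 : a * Real.log (n + 2) ≤ a * ((n + 2) / ((a + 1) / e) + |Real.log ((a + 1) / e)|) :=
    mul_le_mul_of_nonneg_left (by linarith) a0
  rw [h2]
  nlinarith

end

end Pool.Agent.Lib.MP_108739_an.F.Fn
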