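import Pool.Agent.Lib.MP_108739_an.F.FinA

/-! The last step of the incidence estimate for an abstract configuration. -/

open Finset

namespace Pool.Agent.Lib.MP_108739_an.F.Fn

noncomputable section
open Classical

/-- information of the slope of level `j` at a point -/
def Gj {Ω : Type} [Fintype Ω] (c : Cfg Ω Unit) (w : Ω → ℝ) (o : Ω) (j : ℕ) : ℝ :=
  -lg (ms w (pr (c.ak j) (c.pk c.n)) o)

theorem tele (G s : ℕ → ℝ) (j : ℕ → ℕ) (n r : ℕ) (ε lγ : ℝ) (hε : 0 ≤ ε) (hn : ∀ i, j i ≤ n)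
    (hm : ∀ i, j i ≤ j (i + 1))
    (h3 : ∀ i, G (j (i + 1)) - s (i + 1) * j (i + 1) ≤ G (j i) - s (i + 1) * j i)
    (hs : ∀ i, s (i + 1) ≤ s i + ε) (hl : G n - G (j r) ≤ lγ + s r * ((n : ℝ) - j r))
    (J : ℕ → ℕ) (hJ : ∀ i ≤ r, J i = j i) (hJr : J (r + 1) = n) :
    G n - G (j 0) - ε * n - lγ ≤ ∑ i ∈ range (r + 1), s i * ((J (i + 1) : ℝ) - J i) := by
  have h1 : ∀ k, G (j k) - G (j 0) - ε * ((j k : ℝ) - j 0) ≤
      ∑ i ∈ range k, s i * ((j (i + 1) : ℝ) - j i) := by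
    intro k
    induction k with
    | zero => simp
    | succ k ih =>
      rw [sum_range_succ]
      have a1 : (j k : ℝ) ≤ j (k + 1) := by exact_mod_cast hm k
      have a2 := mul_le_mul_of_nonneg_right (hs k) (sub_nonneg.2 a1)
      have a3 := h3 k
      nlinarith
  rw [sum_range_succ, hJr, hJ r le_rfl]
  have h2 : ∑ i ∈ range r, s i * ((J (i + 1) : ℝ) - J i) =
      ∑ i ∈ range r, s i * ((j (i + 1) : ℝ) - j i) :=
    sum_congr rfl fun i hi => by
      rw [hJ i (mem_range.1 hi).le, hJ (i + 1) (mem_range.1 hi)]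
  rw [h2]
  have a1 : (j r : ℝ) ≤ n := by exact_mod_cast hn r
  have a2 : (0 : ℝ) ≤ j 0 := Nat.cast_nonneg _
  have := h1 r
  nlinarith

theorem core (hT : TeStmt) (e s0 : ℝ) (he : 0 < e) (hs0 : 0 < s0) (hs1 : s0 ≤ 1) :
    ∃ B : ℝ, 1 ≤ B ∧ ∀ (Ω : Type) [Fintype Ω] (c : Cfg Ω Unit) (w : Ω → ℝ) (t lγ jb ln : ℝ)
      (T : Finset (ℕ × ℕ × Unit)), (∀ o, 0 < w o) → Nonempty Ω → 0 ≤ t → s0 ≤ min t (2 - t) →
      (∀ o, ∀ k ≤ c.n, lg (ms w (c.pk k) o / ms w (c.pk c.n) o) ≤ 1 + t * ((c.n : ℝ) - k)) →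
      (∀ o, Gj c w o 0 = 0) → (∀ o, Gj c w o c.n = -lg (w o)) →
      (∀ o, ∀ j ≤ c.n, Gj c w o c.n - Gj c w o j ≤ lγ + min t (2 - t) * ((c.n : ℝ) - j)) →
      (∀ o, ∀ j ≤ c.n, Gj c w o j ≤ s0 * j → (j : ℝ) ≤ jb) →
      (∀ o, ms w (pr (c.pk c.n) c.tube) o ≤ w o) → (∀ o, ln ≤ -lg (w o)) → (∀ o, c.tube o ∈ T) →
      lg (tot w) + 3 / 2 * ln - t * c.n / 2 - lγ / 2 - 3 / 2 * jb - e * c.n - B ≤ lg #T := by
  set ε := e / 3 with hε
  have ε0 : 0 < ε := by positivity
  obtain ⟨r, hr⟩ := exists_nat_ge (1 / ε)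
  obtain ⟨K, C, hK, hC, hte⟩ := hT s0 ε (r + 1) hs0 ε0
  obtain ⟨B, hB1, hB⟩ := lg_small ((2 + K * (r + 1)) * (r + 1) + C) (e / 2) (by positivity)
    (by positivity)
  refine ⟨B, hB1, fun Ω _ c w t lγ jb ln T hw hne ht hst hk hG0 hGn hlast hend hinj hln hT => ?_⟩
  have hwn : Nn w := fun o => (hw o).le
  set ts := min t (2 - t) with hts
  have ts1 : ts ≤ 1 := by
    rcases le_total t 1 with h | h
    · exact (min_le_left _ _).trans h
    · exact (min_le_right _ _).trans (by linarith)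
  let s : ℕ → ℝ := fun i => min (s0 + i * ε) ts
  have sz : s 0 = s0 := by simp [s, hst]
  have sr : s r = ts := min_eq_right (by
    have : 1 ≤ r * ε := by rwa [div_le_iff₀ ε0] at hr
    linarith)
  have ss : ∀ i, s (i + 1) ≤ s i + ε := fun i => by
    simp only [s]
    rcases le_total (s0 + i * ε) ts with h | h
    · rw [min_eq_left h]; refine (min_le_left _ _).trans (le_of_eq ?_); push_cast; ring
    · rw [min_eq_right h]; exact (min_le_right _ _).trans (by linarith)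
  have sb : ∀ i, s0 ≤ s i ∧ s i ≤ t ∧ t ≤ 2 - s i := fun i => by
    have a1 : s i ≤ ts := min_le_right _ _
    have a2 : ts ≤ t := min_le_left _ _
    have a3 : ts ≤ 2 - t := min_le_right _ _
    have a4 : (0 : ℝ) ≤ i * ε := by positivity
    exact ⟨le_min (by linarith) hst, by linarith, by linarith⟩
  choose j jn jm j2 j3 j5 using fun o => breaks (Gj c w o) s c.n
  let τ : Ω → (Fin (r + 1) → Fin (c.n + 1)) := fun o i => ⟨j o i, Nat.lt_succ_of_le (jn o i)⟩
  obtain ⟨τ0, hτ⟩ := pigeon w τ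
  set L : ℝ := (Fintype.card (Fin (r + 1) → Fin (c.n + 1)) : ℝ) with hL
  have L0 : 0 < L := by rw [hL]; exact_mod_cast Fintype.card_pos
  have hlgL : lg L ≤ (r + 1) * lg (c.n + 2) := by
    rw [hL, Fintype.card_fun, Fintype.card_fin, Fintype.card_fin]
    push_cast
    unfold lg
    rw [Real.logb_pow]
    push_cast
    exact mul_le_mul_of_nonneg_left (lg_le' (by positivity) (by linarith)) (by positivity)
  set A : Ω → Prop := fun o => τ o = τ0 with hA
  set w' := res w A with hw'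
  have hw'n : Nn w' := res_nn hwn A
  have W0 : 0 < tot w := sum_pos (fun o _ => hw o) univ_nonempty
  have W' : 0 < tot w' := by
    by_contra h
    have := mul_nonpos_of_nonneg_of_nonpos L0.le (not_lt.1 h)
    linarith
  have hcl : ∀ o, 0 < w' o → A o ∧ w' o = w o := fun o ho => by
    by_cases h : A o
    · exact ⟨h, by simp [hw', res, h]⟩
    · simp [hw', res, h] at ho
  let J : ℕ → ℕ := fun i => if h : i < r + 1 then (τ0 ⟨i, h⟩ : ℕ) else c.n
  have hJ : ∀ o, A o → ∀ i ≤ r, J i = j o i := fun o ho i hi => by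
    have h : i < r + 1 := Nat.lt_succ_of_le hi
    simp only [J, dif_pos h]
    rw [← show τ o = τ0 from ho]
  have hJr : J (r + 1) = c.n := by simp [J]
  have hJn : ∀ i, J i ≤ c.n := fun i => by
    simp only [J]; split_ifs with h
    · exact Nat.le_of_lt_succ (τ0 ⟨i, h⟩).2
    · exact le_rfl
  obtain ⟨o0, ho0⟩ : ∃ o, 0 < w' o := by
    by_contra h
    push Not at h
    exact absurd (sum_nonpos fun o _ => h o) (not_le.2 W')
  have hJm : ∀ i < r + 1, J i ≤ J (i + 1) := fun i hi => by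
    rcases (Nat.le_of_lt_succ hi).eq_or_lt with h | h
    · rw [h, hJr]; exact hJn _
    · rw [hJ o0 (hcl o0 ho0).1 i h.le, hJ o0 (hcl o0 ho0).1 (i + 1) h]; exact jm o0 i
  have key := hte Ω Unit c w' t J s hw'n hJm hJr (fun i _ => sb i)
  have pos : ∀ {β : Type} (g : Ω → β) (o : Ω), 0 < w' o → 0 < ms w' g o := fun g o ho =>
    ho.trans_le (le_ms' hw'n g o)
  have pos0 : ∀ {β : Type} (g : Ω → β) (o : Ω), 0 < ms w g o := fun g o =>
    (hw o).trans_le (le_ms' hwn g o)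
  have loss0 : ∀ {β : Type} (g : Ω → β) (o : Ω), 0 < w' o → 0 ≤ lg (ms w g o / ms w' g o) :=
    fun g o ho => by
      have := lg_le' (pos g o ho) (ms_res_le hwn A g o)
      rw [lg_div' (pos0 g o) (pos g o ho)]; linarith
  have hKt : c.Kt w' t ≤ (1 + lg L) * tot w' := by
    have h1 : c.Kt w' t ≤ E w' (fun o => 1 + lg (ms w (c.pk c.n) o / ms w' (c.pk c.n) o)) := by
      refine E_le hw'n fun o ho => mx_le' _ _ (by linarith [loss0 (c.pk c.n) o ho]) fun k hk' => ?_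
      have a1 := hk o k (Nat.le_of_lt_succ (mem_range.1 hk'))
      have a2 := lg_le' (pos (c.pk k) o ho) (ms_res_le hwn A (c.pk k) o)
      rw [lg_div' (pos0 _ o) (pos0 _ o)] at a1
      rw [lg_div' (pos _ o ho) (pos _ o ho), lg_div' (pos0 _ o) (pos _ o ho)]
      linarith
    rw [E_add', E_const'] at h1
    have := E_loss hwn A (c.pk c.n) L0 hτ
    linarith
  have hFr : ∀ i ∈ range (r + 1), c.FrW w' (s i) (J i) (J (i + 1) - J i) ≤ lg L * tot w' := by
    intro i hi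
    have hi' := Nat.le_of_lt_succ (mem_range.1 hi)
    refine le_trans ?_ (E_loss hwn A (pr (c.ak (J i)) (c.pk c.n)) L0 hτ)
    refine E_le hw'n fun o ho => mx_le' _ _ (loss0 _ o ho) fun y hy => ?_
    have hy' : J i + y ≤ c.n := by
      have := Nat.le_of_lt_succ (mem_range.1 hy)
      have := hJm i (mem_range.1 hi)
      have := hJn (i + 1)
      omega
    have a1 := j2 o i (J i + y) (by rw [← hJ o (hcl o ho).1 i hi']; omega) hy'
    rw [← hJ o (hcl o ho).1 i hi'] at a1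
    have a2 := lg_le' (pos (pr (c.ak (J i + y)) (c.pk c.n)) o ho)
      (ms_res_le hwn A (pr (c.ak (J i + y)) (c.pk c.n)) o)
    rw [lg_div' (pos _ o ho) (pos _ o ho), lg_div' (pos0 _ o) (pos _ o ho)]
    unfold Gj at a1
    push_cast at a1
    linarith
  have hFs : ∑ i ∈ range (r + 1), c.FrW w' (s i) (J i) (J (i + 1) - J i) ≤
      (r + 1) * (lg L * tot w') := by
    refine (sum_le_sum hFr).trans (le_of_eq ?_)
    rw [sum_const, card_range, nsmul_eq_mul]; push_cast; ring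
  set S := ∑ i ∈ range (r + 1), s i * ((J (i + 1) : ℝ) - J i) with hS
  have hsum : ∑ i ∈ range (r + 1), ((t - s i) / 2 + ε) * ((J (i + 1) : ℝ) - J i) =
      (t / 2 + ε) * ((c.n : ℝ) - J 0) - S / 2 := by
    have := sum_range_sub (fun i => (J i : ℝ)) (r + 1)
    rw [hJr] at this
    rw [← this, hS, mul_sum, sum_div, ← sum_sub_distrib]
    exact sum_congr rfl fun i _ => by ring
  have hj0 : (J 0 : ℝ) ≤ jb := by
    have a1 := j5 o0
    rw [hG0, sz] at a1
    rw [hJ o0 (hcl o0 ho0).1 0 (Nat.zero_le _)]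
    exact hend o0 _ (jn o0 0) (by linarith)
  have J00 : (0 : ℝ) ≤ J 0 := Nat.cast_nonneg _
  have hpt : ∀ o, 0 < w' o → -lg (w o) - J 0 - ε * c.n - lγ ≤ S := fun o ho => by
    have a1 := tele (Gj c w o) s (j o) c.n r ε lγ ε0.le (jn o) (jm o) (j3 o) ss
      (by rw [sr]; exact hlast o _ (jn o r)) J (hJ o (hcl o ho).1) hJr
    have a2 := j5 o
    rw [hG0, sz, ← hJ o (hcl o ho).1 0 (Nat.zero_le _)] at a2
    rw [hGn, ← hJ o (hcl o ho).1 0 (Nat.zero_le _)] at a1
    have := mul_le_mul_of_nonneg_right hs1 J00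
    linarith
  have T0 : 0 < (#T : ℝ) := by exact_mod_cast card_pos.2 ⟨_, hT o0⟩
  have hcard := E_card hw'n W' c.tube T hT T0
  have hWL : lg (tot w) - lg L ≤ lg (tot w') := by
    have := lg_le' W0 hτ
    rw [lg_mul' L0 W'] at this
    linarith
  have hmain : E w' (fun _ => lg (tot w) - lg L + 3 / 2 * ln - (S + J 0 + ε * c.n + lγ) / 2) ≤
      E w' (fun o => lg (tot w' / ms w' c.tube o) +
        lg (ms w' c.tube o / ms w' (pr (c.pk c.n) c.tube) o)) := by
    refine E_le hw'n fun o ho => ?_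
    rw [lg_div' W' (pos _ o ho), lg_div' (pos _ o ho) (pos _ o ho)]
    have a1 := lg_le' (pos (pr (c.pk c.n) c.tube) o ho) ((ms_res_le hwn A _ o).trans (hinj o))
    have a2 := hpt o ho
    have a3 := hln o
    linarith
  rw [E_const', E_add'] at hmain
  have hh : E w' (fun o => lg (ms w' c.tube o / ms w' (pr (c.pk c.n) c.tube) o)) = c.h w' := rfl
  rw [hh] at hmain
  rw [hsum] at key
  have hKF := mul_le_mul_of_nonneg_left hFs hK
  have fin : lg (tot w) - lg L + 3 / 2 * ln - (S + J 0 + ε * c.n + lγ) / 2 ≤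
      lg #T + (1 + lg L) + (J 0 + ((t / 2 + ε) * ((c.n : ℝ) - J 0) - S / 2)) +
        K * ((r + 1) * lg L) + C * lg (c.n + 2) := by
    refine le_of_mul_le_mul_right ?_ W'
    have e1 : (lg #T + (1 + lg L) + (J 0 + ((t / 2 + ε) * ((c.n : ℝ) - J 0) - S / 2)) +
        K * ((r + 1) * lg L) + C * lg (c.n + 2)) * tot w' = lg #T * tot w' + (1 + lg L) * tot w' +
        (J 0 + ((t / 2 + ε) * ((c.n : ℝ) - J 0) - S / 2)) * tot w' +
        K * ((r + 1) * (lg L * tot w')) + C * lg (c.n + 2) * tot w' := by ring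
    rw [e1]
    linarith
  have b1 := hB c.n
  have b2 : (2 + K * (r + 1)) * lg L ≤ (2 + K * (r + 1)) * ((r + 1) * lg (c.n + 2)) :=
    mul_le_mul_of_nonneg_left hlgL (by positivity)
  have b3 : 0 ≤ (t / 2 + ε) * (J 0 : ℝ) := by positivity
  have b4 : ε * c.n = e * c.n / 3 := by rw [hε]; ring
  have b5 : (t / 2 + ε) * ((c.n : ℝ) - J 0) = t * c.n / 2 + ε * c.n - (t / 2 + ε) * J 0 := by ring
  have b6 : (2 + K * (r + 1)) * lg L = 2 * lg L + K * ((r + 1) * lg L) := by ring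
  have b7 : ((2 + K * (r + 1)) * (r + 1) + C) * lg (c.n + 2) =
      (2 + K * (r + 1)) * ((r + 1) * lg (c.n + 2)) + C * lg (c.n + 2) := by ring
  have b8 : e / 2 * c.n = e * c.n / 2 := by ring
  linarith

end

end Pool.Agent.Lib.MP_108739_an.F.Fn
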