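import Pool.Agent.Lib.MP_108739_an.F.GeoA

/-! The sum of the tube counts over the heavy pairs (square, arc) in one square. -/

open Finset

namespace Pool.Agent.Lib.MP_108739_an.F
open Classical

variable {Ω β : Type} [Fintype Ω] (c : Cfg Ω β)

omit [Fintype Ω] in
lemma pair_pk {i : ℕ} {o o' : Ω} (h : c.pk i o = c.pk i o') :
    c.xk i o = c.xk i o' ∧ c.yk i o = c.yk i o' ∧ c.b o = c.b o' := by
  simpa [Cfg.pk] using h

omit [Fintype Ω] in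
lemma pair_lq {i : ℕ} (y : ℕ) {o o' : Ω} (h : c.pk i o = c.pk i o') : c.lq i y o = c.lq i y o' := by
  funext z
  simp [Cfg.lq, (pair_pk c h).1]

lemma pair_nb (w : Ω → ℝ) {i : ℕ} {o o' : Ω} (h : c.pk i o = c.pk i o') :
    c.nb w i o = c.nb w i o' := by
  obtain ⟨h1, h2, h3⟩ := pair_pk c h
  ext z
  rw [geoA_mem, geoA_mem, h1, h2, h3]

lemma pair_sqs (w : Ω → ℝ) {i : ℕ} (y : ℕ) {o o' : Ω} (h : c.pk i o = c.pk i o') :
    c.sqs w i y o = c.sqs w i y o' := by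
  unfold Cfg.sqs
  rw [pair_nb c w h, pair_lq c y h]

lemma pair_fib (w : Ω → ℝ) (i y : ℕ) (o0 : Ω) (S : Finset Ω)
    (hS : ∀ o ∈ S, 0 < w o ∧ c.pk i o = c.pk i o0)
    (hI : Set.InjOn (pr (c.pk y) (c.ak (y - i))) S) (e : ℕ × ℤ) :
    #{o ∈ S | c.lt i y o = e} ≤ hlR (2 ^ (y - i)) (c.sqs w i y o0) 8 e := by
  unfold hlR
  refine card_le_card_of_injOn (c.lq i y o0) ?_ ?_
  · intro o ho
    obtain ⟨ho, he⟩ := mem_filter.1 (mem_coe.1 ho)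
    obtain ⟨hw, hp⟩ := hS o ho
    obtain ⟨h1, h2, h3⟩ := pair_pk c hp
    refine mem_coe.2 (mem_filter.2 ⟨mem_image_of_mem _ ((geoA_mem c).2 ⟨hw, h3, ?_, ?_⟩), ?_⟩)
    · simp [h1]
    · simp [h2]
    · rw [← he, ← pair_lq c y hp]
      simp [Cfg.lt, ind]
  · intro o ho o' ho' h
    obtain ⟨ho, he⟩ := mem_filter.1 (mem_coe.1 ho)
    obtain ⟨ho', he'⟩ := mem_filter.1 (mem_coe.1 ho')
    have ha : c.ak (y - i) o = c.ak (y - i) o' := congrArg Prod.fst (he.trans he'.symm)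
    have hb : c.b o = c.b o' :=
      (pair_pk c (hS o ho).2).2.2.trans (pair_pk c (hS o' ho').2).2.2.symm
    simp only [Cfg.lq, Prod.mk.injEq, sub_left_inj, Nat.cast_inj] at h
    refine hI (mem_coe.2 ho) (mem_coe.2 ho') ?_
    simp [pr, Cfg.pk, h.1, h.2, ha, hb]

theorem pair (hH : HLStmt) (hA : GeoA) : PairStmt := by
  obtain ⟨C, hC, hH⟩ := hH
  refine ⟨max 1 (21 * C), le_max_left _ _, ?_⟩
  intro Ω β _ c w f U i y m o0 S hc hi hy hm hS hI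
  obtain ⟨a1, -, a3, -⟩ := hA Ω β c w f U i y o0 hc hi hy
  have hR : ∀ o ∈ S, ∀ W, c.Rc w i y W o = hlR (2 ^ (y - i)) (c.sqs w i y o0) W (c.lt i y o) := by
    intro o ho W
    unfold Cfg.Rc
    rw [pair_sqs c w y (hS o ho).2.1]
  have hK : 16 ≤ 2 ^ m := by
    calc 16 = 2 ^ 4 := by norm_num
      _ ≤ 2 ^ m := Nat.pow_le_pow_right (by norm_num) hm
  have h1 := hH (2 ^ (y - i)) (2 ^ m) (c.sqs w i y o0) (S.image (c.lt i y)) Nat.one_le_two_pow hK a3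
    (by
      intro e he
      obtain ⟨o, ho, rfl⟩ := mem_image.1 he
      refine ⟨(hA Ω β c w f U i y o hc hi hy).2.2.2, ?_⟩
      rw [← hR o ho, ← hR o ho]
      exact (hS o ho).2.2)
  have h2 : ∑ o ∈ S, (c.Rc w i y 8 o : ℝ) ≤
      ∑ e ∈ S.image (c.lt i y), (hlR (2 ^ (y - i)) (c.sqs w i y o0) 8 e : ℝ) ^ 2 := by
    rw [sum_congr rfl fun o ho => by rw [hR o ho],
      sum_comp (fun e => (hlR (2 ^ (y - i)) (c.sqs w i y o0) 8 e : ℝ)) (c.lt i y)]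
    refine sum_le_sum fun e _ => ?_
    rw [nsmul_eq_mul, sq]
    refine mul_le_mul_of_nonneg_right ?_ (Nat.cast_nonneg _)
    exact_mod_cast pair_fib c w i y o0 S (fun o ho => ⟨(hS o ho).1, (hS o ho).2.1⟩) hI e
  refine h2.trans (h1.trans ?_)
  have h3 : Real.log (2 * ((2 ^ (y - i) : ℕ) : ℝ)) ≤ (c.n : ℝ) + 1 := by
    have e : 2 * ((2 ^ (y - i) : ℕ) : ℝ) = 2 ^ (y - i + 1) := by push_cast; ring
    rw [e, Real.log_pow]
    have l2 : Real.log 2 ≤ 1 := by linarith [Real.log_two_lt_d9]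
    have l0 : 0 ≤ Real.log 2 := Real.log_nonneg (by norm_num)
    have hn : ((y - i + 1 : ℕ) : ℝ) ≤ (c.n : ℝ) + 1 := by exact_mod_cast (by omega : y - i + 1 ≤ c.n + 1)
    nlinarith [Nat.cast_nonneg (α := ℝ) (y - i + 1)]
  have h4 : (2 : ℝ) ^ (3 * m + ((y : ℝ) - i) + (f y - f i) + U) =
      ((2 ^ m : ℕ) : ℝ) ^ 3 * ((2 ^ (y - i) : ℕ) : ℝ) * (2 : ℝ) ^ (f y - f i + U) := by
    have e : 3 * m + ((y : ℝ) - i) + (f y - f i) + U =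
        ((m * 3 : ℕ) : ℝ) + ((y - i : ℕ) : ℝ) + (f y - f i + U) := by
      rw [Nat.cast_sub hi]; push_cast; ring
    rw [e, Real.rpow_add two_pos, Real.rpow_add two_pos, Real.rpow_natCast, Real.rpow_natCast]
    push_cast
    rw [pow_mul]
  rw [h4]
  have p0 : 0 ≤ C * ((2 ^ m : ℕ) : ℝ) ^ 3 * ((2 ^ (y - i) : ℕ) : ℝ) := by positivity
  have p1 : 0 ≤ ((c.n : ℝ) + 1) * (((2 ^ m : ℕ) : ℝ) ^ 3 * ((2 ^ (y - i) : ℕ) : ℝ) *
      (2 : ℝ) ^ (f y - f i + U)) := by positivity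
  calc C * ((2 ^ m : ℕ) : ℝ) ^ 3 * ((2 ^ (y - i) : ℕ) : ℝ) *
        Real.log (2 * ((2 ^ (y - i) : ℕ) : ℝ)) * #(c.sqs w i y o0)
      ≤ C * ((2 ^ m : ℕ) : ℝ) ^ 3 * ((2 ^ (y - i) : ℕ) : ℝ) * ((c.n : ℝ) + 1) *
        (21 * (2 : ℝ) ^ (f y - f i + U)) :=
        mul_le_mul (mul_le_mul_of_nonneg_left h3 p0) a1 (Nat.cast_nonneg _) (by positivity)
    _ = 21 * C * (((c.n : ℝ) + 1) * (((2 ^ m : ℕ) : ℝ) ^ 3 * ((2 ^ (y - i) : ℕ) : ℝ) *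
        (2 : ℝ) ^ (f y - f i + U))) := by ring
    _ ≤ max 1 (21 * C) * (((c.n : ℝ) + 1) * (((2 ^ m : ℕ) : ℝ) ^ 3 * ((2 ^ (y - i) : ℕ) : ℝ) *
        (2 : ℝ) ^ (f y - f i + U))) := mul_le_mul_of_nonneg_right (le_max_right _ _) p1
    _ = _ := by ring

end Pool.Agent.Lib.MP_108739_an.F
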