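import Pool.Agent.Lib.MP_108739_an.F.RegDefs
import Pool.Agent.Lib.MP_108739_an.F.Ent1

/-! Comparison of tubes of different levels. -/

open Finset

namespace Pool.Agent.Lib.MP_108739_an.F
open Classical

variable {Ω β : Type} [Fintype Ω] {w : Ω → ℝ} (c : Cfg Ω β)

namespace RegA

lemma H_near {α γ : Type} (hw : Nn w) {f : Ω → α} {g : Ω → γ} (F : Ω → ℕ)
    (h1 : Det (pr F g) f) (h2 : ∀ o o', g o = g o' → F o ≤ F o' + 7) : H w f g ≤ 4 * tot w := by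
  refine (H_mono hw h1 Det.rfl).trans ?_
  have e : lg 16 = 4 := by
    have := lg_two_pow 4
    norm_num at this
    exact this
  rw [← e]
  refine H_le_card hw (by norm_num) fun o _ => ?_
  have : vals w F g o ⊆ Icc (F o - 7) (F o + 7) := by
    intro v hv
    obtain ⟨o', -, a, rfl⟩ := mem_vals.1 hv
    have b1 := h2 o o' a.symm
    have b2 := h2 o' o a
    rw [mem_Icc]
    omega
  have h3 := card_le_card this
  rw [Nat.card_Icc] at h3
  have h4 : #(vals w F g o) ≤ 16 := by omega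
  exact_mod_cast h4

lemma dv (p : ℕ) {q : ℕ} (hq : 0 < q) :
    ((p / q : ℕ) : ℝ) * q ≤ p ∧ (p : ℝ) + 1 ≤ ((p / q : ℕ) + 1) * q := by
  constructor
  · exact_mod_cast Nat.div_mul_le_self p q
  · have := Nat.lt_mul_div_succ p hq
    rw [mul_comm] at this
    exact_mod_cast this

lemma dr (p : ℕ) {q : ℕ} (hq : 0 < q) :
    ((p / q : ℕ) : ℝ) ≤ (p : ℝ) / q ∧ (p : ℝ) / q < (p / q : ℕ) + 1 := by
  have h : (0 : ℝ) < q := by exact_mod_cast hq
  obtain ⟨a, b⟩ := dv p hq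
  rw [le_div_iff₀ h, div_lt_iff₀ h]
  exact ⟨a, by linarith⟩

lemma fin {F G k : ℕ} {m : ℝ} (hm : 0 < m) (hk : k ≤ 8) (h : F * m < (G + k) * m) :
    F ≤ G + 7 := by
  have h1 : (F : ℝ) < G + k := lt_of_mul_lt_mul_right h hm.le
  have h2 : F < G + k := by exact_mod_cast h1
  omega

/-- the sheared coordinate against the real number `y + a₀ x / N` -/
lemma shr_bd (y a0 x : ℕ) {N m : ℕ} (hN : 0 < N) (hm : 0 < m) :
    (((y + a0 * x / N) / m : ℕ) : ℝ) * m ≤ y + a0 * ((x : ℝ) / N) ∧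
      y + a0 * ((x : ℝ) / N) < (((y + a0 * x / N) / m : ℕ) + 1) * m := by
  obtain ⟨a1, a2⟩ := dv (y + a0 * x / N) hm
  obtain ⟨b1, b2⟩ := dr (a0 * x) hN
  rw [Nat.cast_add] at a1 a2
  rw [Nat.cast_mul, mul_div_assoc] at b1 b2
  constructor <;> linarith

noncomputable def xi (o : Ω) : ℝ := (c.x o : ℝ) / (2 ^ c.n : ℕ)

noncomputable def u (o : Ω) : ℝ := c.y o + c.a o * xi c o

omit [Fintype Ω] in
lemma xi_bd (o : Ω) : 0 ≤ xi c o ∧ xi c o ≤ 1 := by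
  unfold xi
  refine ⟨by positivity, (div_le_one (by positivity)).2 ?_⟩
  exact_mod_cast (c.hx o).le

omit [Fintype Ω] in
lemma u_tube {o o' : Ω} (h : c.tube o = c.tube o') : u c o < u c o' + 1 := by
  have e : c.y o + c.a o * c.x o / 2 ^ c.n = c.y o' + c.a o' * c.x o' / 2 ^ c.n :=
    congrArg (fun t : ℕ × ℕ × β => t.2.1) h
  have a := (shr_bd (c.y o) (c.a o) (c.x o) (N := 2 ^ c.n) (by positivity) one_pos).2
  have b := (shr_bd (c.y o') (c.a o') (c.x o') (N := 2 ^ c.n) (by positivity) one_pos).1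
  rw [e] at a
  unfold u xi
  rw [Nat.cast_one, mul_one] at a b
  linarith

omit [Fintype Ω] in
lemma u_ft (j : ℕ) (o : Ω) :
    ((c.shr j o / 2 ^ (c.n - j) : ℕ) : ℝ) * (2 ^ (c.n - j) : ℕ) ≤ u c o ∧
      u c o < ((c.shr j o / 2 ^ (c.n - j) : ℕ) + 2) * (2 ^ (c.n - j) : ℕ) := by
  obtain ⟨a1, a2⟩ := shr_bd (c.y o) (c.ak j o * 2 ^ (c.n - j)) (c.x o) (N := 2 ^ c.n)
    (m := 2 ^ (c.n - j)) (by positivity) (by positivity)
  obtain ⟨b1, b2⟩ := dv (c.a o) (q := 2 ^ (c.n - j)) (by positivity)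
  obtain ⟨x0, x1⟩ := xi_bd c o
  have m0 : (0 : ℝ) < (2 ^ (c.n - j) : ℕ) := by positivity
  rw [Nat.cast_mul] at a1 a2
  change ((c.shr j o / 2 ^ (c.n - j) : ℕ) : ℝ) * _ ≤ _ + _ * xi c o at a1
  change _ + _ * xi c o < (((c.shr j o / 2 ^ (c.n - j) : ℕ) : ℝ) + 1) * _ at a2
  change (c.ak j o : ℝ) * _ ≤ _ at b1
  change _ ≤ ((c.ak j o : ℝ) + 1) * _ at b2
  unfold u
  constructor <;> nlinarith

omit [Fintype Ω] in
lemma xi_xk {L : ℕ} (h : L ≤ c.n) (o : Ω) : (c.xk L o : ℝ) / (2 ^ L : ℕ) ≤ xi c o ∧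
    xi c o ≤ ((c.xk L o : ℝ) + 1) / (2 ^ L : ℕ) := by
  obtain ⟨b1, b2⟩ := dv (c.x o) (q := 2 ^ (c.n - L)) (by positivity)
  change (c.xk L o : ℝ) * _ ≤ _ at b1
  change _ ≤ ((c.xk L o : ℝ) + 1) * _ at b2
  have e : ((2 ^ c.n : ℕ) : ℝ) = (2 ^ (c.n - L) : ℕ) * (2 ^ L : ℕ) := by
    rw [← Nat.cast_mul, ← pow_add, Nat.sub_add_cancel h]
  have m0 : (0 : ℝ) < (2 ^ (c.n - L) : ℕ) := by positivity
  have m1 : (0 : ℝ) < (2 ^ L : ℕ) := by positivity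
  unfold xi
  rw [e, div_le_div_iff₀ m1 (by positivity), div_le_div_iff₀ (by positivity) m1]
  constructor <;> nlinarith

/-- a product of a digit block with the first coordinate -/
lemma prod_bd (W X : ℕ) {P : ℕ} (hP : 0 < P) (hW : W < P) {ξ : ℝ} (h1 : (X : ℝ) / P ≤ ξ)
    (h2 : ξ ≤ ((X : ℝ) + 1) / P) :
    ((W * X / P : ℕ) : ℝ) ≤ W * ξ ∧ W * ξ < (W * X / P : ℕ) + 2 := by
  obtain ⟨b1, b2⟩ := dr (W * X) hP
  rw [Nat.cast_mul, mul_div_assoc] at b1 b2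
  have p0 : (0 : ℝ) < P := by exact_mod_cast hP
  have w0 : (0 : ℝ) ≤ W := Nat.cast_nonneg _
  have w1 : (W : ℝ) / P ≤ 1 := (div_le_one p0).2 (by exact_mod_cast hW.le)
  have e1 := mul_le_mul_of_nonneg_left h1 w0
  have e2 := mul_le_mul_of_nonneg_left h2 w0
  have e3 : (W : ℝ) * ((X + 1) / P) = W * (X / P) + W / P := by ring
  constructor <;> linarith

omit [Fintype Ω] in
lemma ak_ak {i j : ℕ} (hi : i ≤ j) (h : j ≤ c.n) (o : Ω) : c.ak i o = c.ak j o / 2 ^ (j - i) := by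
  unfold Cfg.ak
  rw [Nat.div_div_eq_div_mul, ← pow_add]
  congr 2
  omega

omit [Fintype Ω] in
lemma u_rZ {j L : ℕ} (h : j + L ≤ c.n) (o : Ω) :
    (c.rZ j L o : ℝ) * (2 ^ (c.n - (j + L)) : ℕ) ≤ u c o ∧
      u c o < (c.rZ j L o + 4) * (2 ^ (c.n - (j + L)) : ℕ) := by
  obtain ⟨a1, a2⟩ := shr_bd (c.y o) (c.ak j o * 2 ^ (c.n - j)) (c.x o) (N := 2 ^ c.n)
    (m := 2 ^ (c.n - (j + L))) (by positivity) (by positivity)
  obtain ⟨b1, b2⟩ := dv (c.a o) (q := 2 ^ (c.n - (j + L))) (by positivity)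
  obtain ⟨x0, x1⟩ := xi_bd c o
  obtain ⟨y1, y2⟩ := xi_xk c (L := L) (by omega) o
  obtain ⟨p1, p2⟩ := prod_bd (c.rW j L o) (c.xk L o) (P := 2 ^ L) (by positivity)
    (Nat.mod_lt _ (by positivity)) y1 y2
  have m0 : (0 : ℝ) < (2 ^ (c.n - (j + L)) : ℕ) := by positivity
  have e : c.ak (j + L) o * 2 ^ (c.n - (j + L)) =
      c.ak j o * 2 ^ (c.n - j) + c.rW j L o * 2 ^ (c.n - (j + L)) := by
    have e1 : c.n - j = L + (c.n - (j + L)) := by omega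
    rw [ak_ak c (Nat.le_add_right j L) h, Nat.add_sub_cancel_left, e1, pow_add, ← mul_assoc,
      ← add_mul, Cfg.rW, Nat.div_add_mod']
  have e' := congrArg (Nat.cast : ℕ → ℝ) e
  rw [Nat.cast_add, Nat.cast_mul, Nat.cast_mul (c.rW j L o)] at e'
  change (c.rS j L o : ℝ) * _ ≤ _ + _ * xi c o at a1
  change _ + _ * xi c o < ((c.rS j L o : ℝ) + 1) * _ at a2
  change (c.ak (j + L) o : ℝ) * _ ≤ _ at b1
  change _ ≤ ((c.ak (j + L) o : ℝ) + 1) * _ at b2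
  rw [add_mul] at b2
  rw [e'] at b1 b2
  have q1 := mul_le_mul_of_nonneg_right p1 m0.le
  have q2 := mul_le_mul_of_nonneg_right p2.le m0.le
  have q3 := mul_le_mul_of_nonneg_right b1 x0
  have q4 := mul_le_mul_of_nonneg_right b2 x0
  have q5 := mul_le_mul_of_nonneg_left x1 m0.le
  unfold u Cfg.rZ
  rw [Nat.cast_add]
  constructor <;> nlinarith

omit [Fintype Ω] in
lemma div_lt {i z : ℕ} (h : i ≤ c.n) (hz : z < 2 ^ c.n) : z / 2 ^ (c.n - i) < 2 ^ i := by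
  rw [Nat.div_lt_iff_lt_mul (by positivity), ← pow_add, Nat.add_sub_cancel' h]
  exact hz

omit [Fintype Ω] in
lemma win_tube {i : ℕ} (h : i ≤ c.n) (o : Ω) : (c.win 0 i).tube o =
    (c.ak i o, c.yk i o + c.ak i o * c.xk i o / 2 ^ i, 0, 0, c.b o) := by
  have a1 : c.ak i o % 2 ^ i = c.ak i o := Nat.mod_eq_of_lt (div_lt c h (c.ha o))
  have a2 : c.xk i o % 2 ^ i = c.xk i o := Nat.mod_eq_of_lt (div_lt c h (c.hx o))
  have a3 : c.yk i o % 2 ^ i = c.yk i o := Nat.mod_eq_of_lt (div_lt c h (c.hy o))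
  have a4 : c.xk 0 o = 0 := Nat.div_eq_of_lt (c.hx o)
  have a5 : c.yk 0 o = 0 := Nat.div_eq_of_lt (c.hy o)
  simp only [Cfg.tube, Cfg.win, Cfg.pk, Nat.sub_zero, a1, a2, a3, a4, a5]

omit [Fintype Ω] in
lemma u_win {i : ℕ} (h : i ≤ c.n) (o : Ω) :
    ((c.yk i o + c.ak i o * c.xk i o / 2 ^ i : ℕ) : ℝ) * (2 ^ (c.n - i) : ℕ) ≤ u c o ∧
      u c o < ((c.yk i o + c.ak i o * c.xk i o / 2 ^ i : ℕ) + 4) * (2 ^ (c.n - i) : ℕ) := by
  obtain ⟨a1, a2⟩ := dv (c.y o) (q := 2 ^ (c.n - i)) (by positivity)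
  obtain ⟨b1, b2⟩ := dv (c.a o) (q := 2 ^ (c.n - i)) (by positivity)
  obtain ⟨x0, x1⟩ := xi_bd c o
  obtain ⟨y1, y2⟩ := xi_xk c h o
  obtain ⟨p1, p2⟩ := prod_bd (c.ak i o) (c.xk i o) (P := 2 ^ i) (by positivity)
    (div_lt c h (c.ha o)) y1 y2
  have m0 : (0 : ℝ) < (2 ^ (c.n - i) : ℕ) := by positivity
  change (c.yk i o : ℝ) * _ ≤ _ at a1
  change _ ≤ ((c.yk i o : ℝ) + 1) * _ at a2
  change (c.ak i o : ℝ) * _ ≤ _ at b1
  change _ ≤ ((c.ak i o : ℝ) + 1) * _ at b2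
  have q1 := mul_le_mul_of_nonneg_right p1 m0.le
  have q2 := mul_le_mul_of_nonneg_right p2.le m0.le
  have q3 := mul_le_mul_of_nonneg_right b1 x0
  have q4 := mul_le_mul_of_nonneg_right b2 x0
  have q5 := mul_le_mul_of_nonneg_left x1 m0.le
  unfold u
  rw [Nat.cast_add]
  constructor <;> nlinarith

lemma close {p p' m : ℕ} (hm : 0 < m) (h : p / m = p' / m) : (p : ℝ) ≤ p' + m := by
  have a := (dv p hm).2
  have b := (dv p' hm).1
  rw [h] at a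
  linarith

end RegA

open RegA

namespace Cfg

lemma H_ft_tube (hw : Nn w) {j : ℕ} (h : j ≤ c.n) : H w (c.ft j) c.tube ≤ 4 * tot w := by
  have _ := h
  refine H_near hw (fun o => c.shr j o / 2 ^ (c.n - j)) (fun o o' e => ?_) fun o o' e => ?_
  · have e1 : c.shr j o / 2 ^ (c.n - j) = c.shr j o' / 2 ^ (c.n - j) := congrArg Prod.fst e
    have e2 : c.a o = c.a o' := congrArg (fun t : ℕ × ℕ × ℕ × β => t.2.1) e
    have e3 : c.b o = c.b o' := congrArg (fun t : ℕ × ℕ × ℕ × β => t.2.2.2) e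
    simp only [ft, ak, e1, e2, e3]
  · have a := (u_ft c j o).1
    have b := (u_ft c j o').2
    have d := u_tube c e
    have m1 : (1 : ℝ) ≤ (2 ^ (c.n - j) : ℕ) := by exact_mod_cast Nat.one_le_two_pow
    refine fin (k := 3) (m := (2 ^ (c.n - j) : ℕ)) (by linarith) (by norm_num) ?_
    rw [Nat.cast_ofNat]
    linarith

lemma H_rZ_tube (hw : Nn w) {j L : ℕ} (h : j + L ≤ c.n) :
    H w (c.rZ j L) c.tube ≤ 4 * tot w := by
  refine H_near hw (c.rZ j L) Det.fst fun o o' e => ?_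
  have a := (u_rZ c h o).1
  have b := (u_rZ c h o').2
  have d := u_tube c e
  have m1 : (1 : ℝ) ≤ (2 ^ (c.n - (j + L)) : ℕ) := by exact_mod_cast Nat.one_le_two_pow
  refine fin (k := 5) (m := (2 ^ (c.n - (j + L)) : ℕ)) (by linarith) (by norm_num) ?_
  rw [Nat.cast_ofNat]
  linarith

lemma H_win_ft (hw : Nn w) {i j : ℕ} (hi : i ≤ j) (h : j ≤ c.n) :
    H w (c.win 0 i).tube (c.ft j) ≤ 4 * tot w := by
  refine H_near hw (fun o => c.yk i o + c.ak i o * c.xk i o / 2 ^ i) (fun o o' e => ?_)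
    fun o o' e => ?_
  · have e1 : c.yk i o + c.ak i o * c.xk i o / 2 ^ i =
        c.yk i o' + c.ak i o' * c.xk i o' / 2 ^ i := congrArg Prod.fst e
    have e2 : c.ak j o = c.ak j o' := congrArg (fun t : ℕ × ℕ × ℕ × β => t.2.1) e
    have e3 : c.b o = c.b o' := congrArg (fun t : ℕ × ℕ × ℕ × β => t.2.2.2) e
    rw [win_tube c (hi.trans h), win_tube c (hi.trans h), e1, e3, ak_ak c hi h o, e2,
      ← ak_ak c hi h o']
  · have e1 : c.shr j o / 2 ^ (c.n - j) = c.shr j o' / 2 ^ (c.n - j) :=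
      congrArg (fun t : ℕ × ℕ × β => t.2.1) e
    have a := (u_win c (hi.trans h) o).1
    have b := (u_win c (hi.trans h) o').2
    have d1 := (u_ft c j o).2
    have d2 := (u_ft c j o').1
    rw [e1] at d1
    have m1 : ((2 ^ (c.n - j) : ℕ) : ℝ) ≤ (2 ^ (c.n - i) : ℕ) :=
      Nat.cast_le.2 (Nat.pow_le_pow_right two_pos (by omega))
    refine fin (k := 6) (m := (2 ^ (c.n - i) : ℕ)) (by positivity) (by norm_num) ?_
    rw [Nat.cast_ofNat]
    linarith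

lemma H_rS_pk (hw : Nn w) {j L : ℕ} (h : j + L ≤ c.n) :
    H w (c.rS j L) (pr (c.pk (j + L)) (c.ak j)) ≤ 4 * tot w := by
  refine H_near hw (c.rS j L) Det.fst fun o o' e => ?_
  have e1 : c.xk (j + L) o = c.xk (j + L) o' :=
    congrArg (fun t : (ℕ × ℕ × β) × ℕ => t.1.1) e
  have e2 : c.yk (j + L) o = c.yk (j + L) o' :=
    congrArg (fun t : (ℕ × ℕ × β) × ℕ => t.1.2.1) e
  have e3 : c.ak j o = c.ak j o' := congrArg Prod.snd e
  have a := (shr_bd (c.y o) (c.ak j o * 2 ^ (c.n - j)) (c.x o) (N := 2 ^ c.n)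
    (m := 2 ^ (c.n - (j + L))) (by positivity) (by positivity)).1
  have b := (shr_bd (c.y o') (c.ak j o' * 2 ^ (c.n - j)) (c.x o') (N := 2 ^ c.n)
    (m := 2 ^ (c.n - (j + L))) (by positivity) (by positivity)).2
  change (c.rS j L o : ℝ) * _ ≤ _ at a
  change _ < ((c.rS j L o' : ℝ) + 1) * _ at b
  rw [e3] at a
  have d1 := close (by positivity) e1
  have d2 := close (by positivity) e2
  have n0 : (0 : ℝ) < (2 ^ c.n : ℕ) := by positivity
  have m0 : (0 : ℝ) < (2 ^ (c.n - (j + L)) : ℕ) := by positivity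
  have d3 : ((c.ak j o' * 2 ^ (c.n - j) : ℕ) : ℝ) / (2 ^ c.n : ℕ) ≤ 1 := by
    rw [div_le_one n0]
    exact_mod_cast (Nat.div_mul_le_self _ _).trans (c.ha o').le
  have d4 : 0 ≤ ((c.ak j o' * 2 ^ (c.n - j) : ℕ) : ℝ) / (2 ^ c.n : ℕ) := by positivity
  have d5 := mul_le_mul_of_nonneg_left d1 d4
  have d6 := mul_le_mul_of_nonneg_right d3 m0.le
  rw [← mul_div_assoc, ← div_mul_eq_mul_div] at a b
  refine fin (k := 3) m0 (by norm_num) ?_
  rw [Nat.cast_ofNat]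
  linarith

end Cfg

end Pool.Agent.Lib.MP_108739_an.F
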