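import Pool.Agent.Lib.MP_108739_an.F.RegA
import Pool.Agent.Lib.MP_108739_an.F.Win1
import Pool.Agent.Lib.MP_108739_an.F.Win2

/-! The entropy terms of the regular step. -/

open Finset

namespace Pool.Agent.Lib.MP_108739_an.F
open Classical

variable {Ω β ι : Type} [Fintype Ω] {w : Ω → ℝ} (c : Cfg Ω β)

omit [Fintype Ω] in
lemma rg_res_true : res w (fun _ => True) = w := by
  funext o; simp [res]

lemma rg_lg_card {T : Finset ι} {n : ℕ} (h : #T ≤ n + 2) : lg #T ≤ lg ((n : ℝ) + 2) := by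
  rcases Nat.eq_zero_or_pos #T with h0 | h0
  · rw [h0]
    have : lg ((0 : ℕ) : ℝ) = 0 := by simp [lg]
    rw [this]
    exact lg_nonneg (by have : (0 : ℝ) ≤ n := Nat.cast_nonneg n; linarith)
  · exact lg_mono (by exact_mod_cast h0) (by exact_mod_cast h)

lemma rg_one_le_lg (n : ℕ) : 1 ≤ lg ((n : ℝ) + 2) := by
  have : (0 : ℝ) ≤ n := Nat.cast_nonneg n
  calc (1 : ℝ) = lg 2 := lg_two.symm
    _ ≤ _ := lg_mono (by norm_num) (by linarith)

namespace Cfg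

omit [Fintype Ω] in
lemma rg_pk_n {o o' : Ω} (h : c.pk c.n o = c.pk c.n o') :
    c.x o = c.x o' ∧ c.y o = c.y o' ∧ c.b o = c.b o' := by
  simpa [pk, xk, yk] using h

omit [Fintype Ω] in
lemma rg_ak_div {j L : ℕ} (h : j + L ≤ c.n) (o : Ω) : c.ak (j + L) o / 2 ^ L = c.ak j o := by
  unfold ak; rw [Nat.div_div_eq_div_mul, ← pow_add]; congr 2; omega

omit [Fintype Ω] in
lemma rg_xk_div {j L : ℕ} (h : j + L ≤ c.n) (o : Ω) : c.xk (j + L) o / 2 ^ L = c.xk j o := by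
  unfold xk; rw [Nat.div_div_eq_div_mul, ← pow_add]; congr 2; omega

omit [Fintype Ω] in
lemma rg_rS_div {j L : ℕ} (h : j + L ≤ c.n) (o : Ω) :
    c.rS j L o / 2 ^ L = c.shr j o / 2 ^ (c.n - j) := by
  unfold rS; rw [Nat.div_div_eq_div_mul, ← pow_add]; congr 2; omega

omit [Fintype Ω] in
lemma rg_tube_a : Det c.tube c.a := fun _ _ h => congrArg Prod.fst h
omit [Fintype Ω] in
lemma rg_tube_b : Det c.tube c.b := fun _ _ h => congrArg (fun q => q.2.2) h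
omit [Fintype Ω] in
lemma rg_a_ak (k : ℕ) : Det c.a (c.ak k) := fun _ _ h => by unfold ak; rw [h]
omit [Fintype Ω] in
lemma rg_ft_a (j : ℕ) : Det (c.ft j) (c.ak j) := fun _ _ h => congrArg Prod.fst h
omit [Fintype Ω] in
lemma rg_ft_b (j : ℕ) : Det (c.ft j) c.b := fun _ _ h => congrArg (fun q => q.2.2) h
omit [Fintype Ω] in
lemma rg_pk_xk (k : ℕ) : Det (c.pk k) (c.xk k) := fun _ _ h => congrArg Prod.fst h
omit [Fintype Ω] in
lemma rg_ak_rW (j L : ℕ) : Det (c.ak (j + L)) (c.rW j L) := fun _ _ h => by unfold rW; rw [h]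
omit [Fintype Ω] in
lemma rg_rW_ak {j L : ℕ} (h : j + L ≤ c.n) : Det (pr (c.rW j L) (c.ft j)) (c.ak (j + L)) := by
  intro o o' e
  have e1 : c.rW j L o = c.rW j L o' := congrArg Prod.fst e
  have e2 : c.ak j o = c.ak j o' := congrArg (fun q => q.2.1) e
  rw [← c.rg_ak_div h, ← c.rg_ak_div h] at e2
  unfold rW at e1
  rw [← Nat.div_add_mod (c.ak (j + L) o) (2 ^ L), ← Nat.div_add_mod (c.ak (j + L) o') (2 ^ L),
    e1, e2]
omit [Fintype Ω] in
lemma rg_p_shr (j : ℕ) : Det (pr (c.pk c.n) (c.ak j)) (c.shr j) := by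
  intro o o' e
  obtain ⟨e1, e2, -⟩ := c.rg_pk_n (congrArg Prod.fst e)
  have e3 : c.ak j o = c.ak j o' := congrArg Prod.snd e
  unfold shr; rw [e1, e2, e3]
omit [Fintype Ω] in
lemma rg_p_ft (j : ℕ) : Det (pr (c.pk c.n) (pr (c.ak j) c.b)) (c.ft j) := by
  intro o o' e
  have e3 : c.ak j o = c.ak j o' := congrArg (fun q => q.2.1) e
  have e4 : c.b o = c.b o' := congrArg (fun q => q.2.2) e
  have e0 : c.pk c.n o = c.pk c.n o' := congrArg Prod.fst e
  have e5 := c.rg_p_shr j o o' (Prod.ext e0 e3)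
  unfold ft; rw [e3, e4, e5]

lemma rg_pk_ft (hw : Nn w) {i j : ℕ} (hi : i ≤ j) (h : j ≤ c.n) :
    H w (c.pk i) (c.ft j) ≤ c.hw w 0 i + 4 * tot w := by
  have h1 := H_tri hw (c.pk i) (c.win 0 i).tube (c.ft j)
  have h2 := c.H_win_ft hw hi h
  have h3 : H w (c.pk i) (pr (c.win 0 i).tube (c.ft j)) ≤ c.hw w 0 i := by
    have d := (c.win_pk (i := 0) (k := i) (j := i - 0) (Nat.zero_le _) (hi.trans h) le_rfl).1
    rw [show 0 + (i - 0) = i by omega] at d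
    exact H_mono hw (Det.fst.trans d) Det.fst
  linarith

lemma rg_q_tube (hw : Nn w) {j L : ℕ} (h : j + L ≤ c.n) :
    H w (pr (c.ft j) (c.rZ j L)) c.tube ≤ 8 * tot w := by
  rw [H_chain hw]
  have h1 := c.H_ft_tube hw (show j ≤ c.n by omega)
  have h2 := c.H_rZ_tube hw h
  have h3 : H w (c.rZ j L) (pr (c.ft j) c.tube) ≤ H w (c.rZ j L) c.tube :=
    H_mono hw Det.fst Det.snd
  linarith

lemma rg_h_xk (hw : Nn w) {z : ℕ} (h : z ≤ c.n) :
    c.h w ≤ H w (c.xk z) c.tube + c.hw w z c.n + 5 * tot w := by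
  have h1 := c.h_le_coarse hw h
  have h2 := H_tri hw (c.pk z) (c.xk z) c.tube
  have h3 := c.H_pk_xk hw h
  linarith

lemma rg_b1 (hw : Nn w) {j L : ℕ} (h : j + L ≤ c.n) :
    H w (c.rZ j L) (pr (c.rW j L) (c.ft j)) ≤ H w (c.pk (j + L)) c.b - H w (c.pk (j + L)) c.tube
      - H w (c.pk j) c.b + I w c.a (c.pk c.n) c.b + c.hw w 0 j + 16 * tot w := by
  set κ := pr (c.ak (j + L)) c.b with hκ
  set q := pr (c.ft j) (c.rZ j L) with hq
  have e1 : H w q κ = H w (c.ft j) κ + H w (c.rZ j L) (pr (c.ft j) κ) := H_chain hw _ _ _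
  have e2 : H w (c.rZ j L) (pr (c.rW j L) (c.ft j)) ≤ H w (c.rZ j L) (pr (c.ft j) κ) :=
    H_mono hw Det.fst (Det.pr Det.snd (Det.pr (c.rg_rW_ak h) (Det.snd.trans (c.rg_ft_b j))))
  have e3 : H w (pr q (c.pk (j + L))) κ ≤ H w (pr (c.pk (j + L)) q) κ :=
    H_mono hw (Det.pr (Det.fst.trans Det.snd) (Det.fst.trans Det.fst)) Det.rfl
  rw [H_chain hw q, H_chain hw (c.pk (j + L))] at e3
  have e4 : H w (c.pk (j + L)) κ ≤ H w (c.pk (j + L)) c.b := H_mono hw Det.fst Det.snd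
  have e5 : H w q (pr (c.pk (j + L)) κ) ≤ H w (c.rS j L) (pr (c.pk (j + L)) (c.ak j)) := by
    refine H_mono hw ?_ (Det.pr Det.fst
      ((Det.snd.trans Det.fst).trans (c.det_ak (Nat.le_add_right j L))))
    intro o o' e
    have a1 : c.rS j L o = c.rS j L o' := congrArg Prod.fst e
    have a2 : c.pk (j + L) o = c.pk (j + L) o' := congrArg (fun q => q.2.1) e
    have a3 : c.ak (j + L) o = c.ak (j + L) o' := congrArg (fun q => q.2.2.1) e
    have a4 : c.b o = c.b o' := congrArg (fun q => q.2.2.2) e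
    have a5 := c.det_ak (Nat.le_add_right j L) o o' a3
    have a6 := c.rg_pk_xk L o o' (c.det_pk (Nat.le_add_left L j) o o' a2)
    have a7 := c.rg_ak_rW j L o o' a3
    refine Prod.ext ?_ ?_
    · show c.ft j o = c.ft j o'
      unfold ft; rw [← c.rg_rS_div h, ← c.rg_rS_div h, a1, a4, a5]
    · show c.rZ j L o = c.rZ j L o'
      unfold rZ; rw [a1, a6, a7]
  have e5' := c.H_rS_pk hw h
  have e6 := H_tri hw (c.pk (j + L)) q c.tube
  have e6a := c.rg_q_tube hw h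
  have e6b : H w (c.pk (j + L)) (pr q c.tube) ≤ H w (c.pk (j + L)) (pr q κ) :=
    H_mono hw Det.fst (Det.pr Det.fst (Det.snd.trans
      (Det.pr (c.rg_tube_a.trans (c.rg_a_ak _)) c.rg_tube_b)))
  have e7 := H_tri hw (c.pk j) (c.ft j) κ
  have e7a : H w (c.pk j) (pr (c.ft j) κ) ≤ H w (c.pk j) (c.ft j) := H_mono hw Det.fst Det.fst
  have e7b := c.rg_pk_ft hw (le_refl j) (show j ≤ c.n by omega)
  have e8 : I w (c.pk j) (c.ak (j + L)) c.b ≤ I w (c.pk c.n) c.a c.b :=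
    I_mono hw (Det.fst.trans (c.det_pk (by omega))) (Det.fst.trans (c.rg_a_ak _))
  rw [I_symm hw (c.pk c.n)] at e8
  have e9 : I w (c.pk j) (c.ak (j + L)) c.b = H w (c.pk j) c.b - H w (c.pk j) κ := rfl
  linarith

lemma rg_I_ft {γ : Type} (hw : Nn w) (j : ℕ) {f : Ω → γ} (hf : Det c.a f) :
    I w f (c.ft j) (pr (c.ak j) c.b) ≤ I w c.a (c.pk c.n) c.b := by
  have e1 : I w f (c.ft j) (pr (c.ak j) c.b) ≤ I w c.a (c.pk c.n) (pr (c.ak j) c.b) :=
    I_mono hw (Det.fst.trans hf) (c.rg_p_ft j)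
  have e2 : I w (c.pk c.n) c.a (pr (c.ak j) c.b) ≤ I w (c.pk c.n) c.a c.b :=
    I_cond_le hw Det.snd (Det.pr (Det.fst.trans (c.rg_a_ak j)) Det.snd)
  rw [I_symm hw (c.pk c.n), I_symm hw (c.pk c.n)] at e2
  linarith

lemma rg_b2 (hw : Nn w) {j L : ℕ} (h : j + L ≤ c.n) {X : Ω → ℤ} (hX : Det (c.rS j L) X) :
    I w (c.rW j L) (pr X (c.xk L)) (c.ft j) ≤ I w c.a (c.pk c.n) c.b := by
  have d1 : Det (pr (c.pk c.n) (c.ft j)) (c.rS j L) := by
    intro o o' e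
    have e0 : c.pk c.n o = c.pk c.n o' := congrArg Prod.fst e
    have e1 : c.ft j o = c.ft j o' := congrArg Prod.snd e
    have := c.rg_p_shr j o o' (Prod.ext e0 (c.rg_ft_a j o o' e1))
    unfold rS; rw [this]
  have e1 : I w (c.rW j L) (pr X (c.xk L)) (c.ft j) ≤ I w c.a (c.pk c.n) (c.ft j) :=
    I_mono hw (Det.fst.trans ((c.rg_a_ak _).trans (c.rg_ak_rW j L)))
      (Det.pr (d1.trans hX) (Det.fst.trans ((c.det_pk (by omega)).trans (c.rg_pk_xk L))))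
  have e2 : I w c.a (c.pk c.n) (c.ft j) ≤ I w c.a (c.pk c.n) (pr (c.ak j) c.b) :=
    I_cond_le hw (Det.pr (c.rg_ft_a j) (c.rg_ft_b j)) (c.rg_p_ft j)
  have e3 : I w (c.pk c.n) c.a (pr (c.ak j) c.b) ≤ I w (c.pk c.n) c.a c.b :=
    I_cond_le hw Det.snd (Det.pr (Det.fst.trans (c.rg_a_ak j)) Det.snd)
  rw [I_symm hw (c.pk c.n), I_symm hw (c.pk c.n)] at e3
  linarith

lemma rg_b3 (hw : Nn w) {j L : ℕ} (hL : L ≤ j) (h : j + L ≤ c.n) :
    I w (c.xk L) (c.rZ j L) (pr (c.rW j L) (c.ft j)) ≤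
      c.hw w 0 L + c.hw w L c.n - c.h w + 17 * tot w := by
  have e0 : I w (c.xk L) (c.rZ j L) (pr (c.rW j L) (c.ft j)) =
      H w (c.xk L) (pr (c.rW j L) (c.ft j)) -
        H w (c.xk L) (pr (c.rZ j L) (pr (c.rW j L) (c.ft j))) := rfl
  have e1 : H w (c.xk L) (pr (c.rW j L) (c.ft j)) ≤ H w (c.pk L) (c.ft j) :=
    H_mono hw (Det.fst.trans (c.rg_pk_xk L)) Det.snd
  have e2 := c.rg_pk_ft hw hL (show j ≤ c.n by omega)
  have e3 := H_tri hw (c.xk L) (pr (c.ft j) (c.rZ j L)) c.tube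
  have e4 := c.rg_q_tube hw h
  have e5 : H w (c.xk L) (pr (pr (c.ft j) (c.rZ j L)) c.tube) ≤
      H w (c.xk L) (pr (c.rZ j L) (pr (c.rW j L) (c.ft j))) :=
    H_mono hw Det.fst (Det.pr (Det.fst.trans Det.snd) (Det.pr
      (Det.snd.trans (c.rg_tube_a.trans ((c.rg_a_ak _).trans (c.rg_ak_rW j L))))
      (Det.fst.trans Det.fst)))
  have e6 := c.rg_h_xk hw (show L ≤ c.n by omega)
  linarith

lemma rg_Df_split (hw : Nn w) {τ : Ω → ι} {T : Finset ι} (h : ∀ o, τ o ∈ T) (f : ℕ → ℝ) :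
    ∑ t ∈ T, c.Df (res w fun o => τ o = t) f ≤ c.Df w f + (lg #T + lg (c.n + 2)) * tot w := by
  have e1 := cost_class_mx hw h (range (c.n + 1)) (fun _ i => c.pk i)
  have e2 : ∀ t ∈ T, c.Df (res w fun o => τ o = t) f ≤ E (res w fun o => τ o = t) (c.dfI w f) +
      E (res w fun o => τ o = t) (fun o => mx (range (c.n + 1)) fun i =>
        lg (ms w (c.pk i) o / ms (res w fun o => τ o = t) (c.pk i) o)) := by
    intro t _
    rw [← E_add]
    exact E_mono (hw.res _) fun o ho => c.dfI_res hw _ f ho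
  have e3 := sum_le_sum e2
  rw [sum_add_distrib, ← E_split h] at e3
  have e4 : ((#(range (c.n + 1)) : ℕ) : ℝ) + 1 = c.n + 2 := by rw [card_range]; push_cast; ring
  rw [e4] at e1
  exact e3.trans (add_le_add le_rfl e1)

variable {s t u K b : ℝ}

lemma rg_rho_nonneg (hw : Nn w) (hu : 0 ≤ u) (hK : 0 ≤ K) : 0 ≤ c.rho s t u K w := by
  have := tot_nonneg hw
  have := c.Fr_nonneg hw s
  have := c.Df_nonneg hw fun k => t * k
  unfold rho; positivity

lemma rg_rho_split (hw : Nn w) (hK : 0 ≤ K) {τ : Ω → ι} {T : Finset ι} (h : ∀ o, τ o ∈ T)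
    (hT : #T ≤ c.n + 2) : ∑ i ∈ T, c.rho s t u K (res w fun o => τ o = i) ≤
      c.rho s t u K w + 3 * K * lg (c.n + 2) * tot w := by
  have e1 := c.rg_Df_split hw h fun k => t * k
  have e2 := c.FrW_split hw h s 0 c.n
  have e3 := tot_split (w := w) h
  have e4 := mul_le_mul_of_nonneg_right (rg_lg_card hT) (tot_nonneg hw)
  unfold rho Fr
  rw [sum_add_distrib, ← mul_sum, ← mul_sum, sum_add_distrib, ← e3]
  have e5 := mul_le_mul_of_nonneg_left (show ∑ i ∈ T, c.FrW (res w fun o => τ o = i) s 0 c.n +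
    ∑ i ∈ T, c.Df (res w fun o => τ o = i) (fun k => t * k) ≤ c.FrW w s 0 c.n +
      c.Df w (fun k => t * k) + 3 * (lg (c.n + 2) * tot w) by linarith) hK
  linarith

lemma rg_dl_split (hw : Nn w) (hK : 0 ≤ K) {τ : Ω → ι} {T : Finset ι} (h : ∀ o, τ o ∈ T)
    (hT : #T ≤ c.n + 2) : ∑ i ∈ T, c.dl s t u K b (res w fun o => τ o = i) ≤
      c.dl s t u K b w + (1 + 3 * K) * lg (c.n + 2) * tot w := by
  have e1 := c.rg_rho_split (s := s) (t := t) (u := u) hw hK h hT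
  have e2 := c.h_le_split hw h
  have e3 := tot_split (w := w) h
  have e4 := mul_le_mul_of_nonneg_right (rg_lg_card hT) (tot_nonneg hw)
  unfold dl
  rw [sum_add_distrib, sum_sub_distrib, ← mul_sum, ← e3]
  linarith

variable {c}

lemma RGd.res (h : c.RGd s t u K b w) (A : Ω → Prop) : c.RGd s t u K b (res w A) := by
  intro B i k hi hk
  rw [res_res]
  exact h _ i k hi hk

lemma RGd.le (h : c.RGd s t u K b w) {i k : ℕ} (hi : i ≤ k) (hk : k ≤ c.n) :
    c.hw w i k ≤ b * ((k : ℝ) - i) * tot w + c.rho s t u K w := by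
  have := h (fun _ => True) i k hi hk
  rwa [rg_res_true] at this

lemma RGd.dl_nonneg (h : c.RGd s t u K b w) : 0 ≤ c.dl s t u K b w := by
  have := h.le (Nat.zero_le c.n) le_rfl
  rw [c.hw_full] at this
  unfold dl; push_cast at this; linarith

lemma RGd.b4 (h : c.RGd s t u K b w) (hw : Nn w) {j z : ℕ} (hj : j ≤ c.n) (hz : z ≤ c.n) :
    b * z * tot w - H w (c.xk z) (c.ft j) ≤ c.dl s t u K b w + 9 * tot w := by
  have e1 := c.rg_h_xk hw hz
  have e2 := H_tri hw (c.xk z) (c.ft j) c.tube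
  have e3 := c.H_ft_tube hw hj
  have e4 : H w (c.xk z) (pr (c.ft j) c.tube) ≤ H w (c.xk z) (c.ft j) := H_mono hw Det.fst Det.fst
  have e5 := h.le hz le_rfl
  unfold dl; linarith

end Cfg

end Pool.Agent.Lib.MP_108739_an.F
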