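import Pool.Agent.Lib.MP_108739_an.F.RegB

/-! The penalty of the first coordinate in the regular step. -/

open Finset

namespace Pool.Agent.Lib.MP_108739_an.F
open Classical

variable {Ω β ι : Type} [Fintype Ω] {w : Ω → ℝ} {c : Cfg Ω β} {s t u K b : ℝ}

namespace Cfg

omit [Fintype Ω] in
lemma rc_cl_xk (c : Cfg Ω β) {T m y : ℕ} (hy : y ≤ m) (hm : m * T ≤ c.n) :
    cl (2 ^ T) m y (c.xk (m * T)) = c.xk (y * T) := by
  funext o
  have e : m * T = y * T + T * (m - y) := by
    rw [mul_comm T, ← add_mul]; congr 1; omega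
  have := c.rg_xk_div (j := y * T) (L := T * (m - y)) (e ▸ hm) o
  rw [← e, pow_mul] at this
  exact this

lemma RGd.penY (h : c.RGd s t u K b w) (hw : Nn w) (hK : 0 ≤ K) {j T m : ℕ} {e : ℝ} (he : 0 ≤ e)
    (hj : j ≤ c.n) (hT : 1 ≤ T) (hm : m * T ≤ c.n) :
    Pen w (c.ft j) T m e b (c.xk (m * T)) ≤
      c.dl s t u K b w + ((1 + 3 * K) * lg (c.n + 2) + 9) * tot w := by
  set G : Ω → ℕ → ℝ := fun o y => b * y * T - e * m * T -
    lg (ms w (c.ft j) o / ms w (pr (cl (2 ^ T) m y (c.xk (m * T))) (c.ft j)) o) with hG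
  have ex : ∀ o, ∃ y ∈ range (m + 2), (y = m + 1 ∧ mx (range (m + 1)) (G o) = 0) ∨
      (y ≤ m ∧ mx (range (m + 1)) (G o) = G o y) := fun o => by
    rcases mx_cases (range (m + 1)) (G o) with z | ⟨y, hy, z⟩
    · exact ⟨m + 1, mem_range.2 (by omega), Or.inl ⟨rfl, z⟩⟩
    · have := mem_range.1 hy
      exact ⟨y, mem_range.2 (by omega), Or.inr ⟨by omega, z⟩⟩
  choose τ hτ hc using ex
  have hmn : m ≤ c.n := (Nat.le_mul_of_pos_right m hT).trans hm
  have e1 := c.rg_dl_split (s := s) (t := t) (u := u) (b := b) hw hK hτ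
    (by rw [card_range]; omega)
  have e2 := tot_split (w := w) hτ
  have e3 : ∀ y ∈ range (m + 2), E (F.res w fun o => τ o = y) (fun o => mx (range (m + 1)) (G o)) ≤
      c.dl s t u K b (F.res w fun o => τ o = y) + 9 * tot (F.res w fun o => τ o = y) := by
    intro y _
    have hr := hw.res fun o => τ o = y
    have t0 := tot_nonneg hr
    by_cases hy : y ≤ m
    · have a1 : E (F.res w fun o => τ o = y) (fun o => mx (range (m + 1)) (G o)) ≤
          E (F.res w fun o => τ o = y) (fun o => b * ((y * T : ℕ) : ℝ) -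
            lg (ms w (c.ft j) o / ms w (pr (c.xk (y * T)) (c.ft j)) o)) :=
        E_mono hr fun o p => by
          have q := (res_pos p).1
          rcases hc o with ⟨z, -⟩ | ⟨-, z⟩
          · omega
          · have : 0 ≤ e * m * T := by positivity
            rw [z, q, hG]
            beta_reduce
            rw [c.rc_cl_xk hy hm]
            push_cast
            linarith
      rw [E_sub, E_const] at a1
      have a2 := H_res_le_E hw (fun o => τ o = y) (c.xk (y * T)) (c.ft j)
      have a3 := (h.res fun o => τ o = y).b4 hr hj ((Nat.mul_le_mul_right T hy).trans hm)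
      linarith
    · have a1 : E (F.res w fun o => τ o = y) (fun o => mx (range (m + 1)) (G o)) ≤
          0 * tot (F.res w fun o => τ o = y) := E_le_const hr fun o p => by
        have q := (res_pos p).1
        rcases hc o with ⟨-, z⟩ | ⟨z, -⟩
        · exact z.le
        · omega
      have a2 := (h.res fun o => τ o = y).dl_nonneg
      linarith
  have e4 := sum_le_sum e3
  rw [← E_split hτ, sum_add_distrib, ← mul_sum, ← e2] at e4
  have e5 : Pen w (c.ft j) T m e b (c.xk (m * T)) = E w fun o => mx (range (m + 1)) (G o) := rfl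
  rw [e5]
  linarith

end Cfg

end Pool.Agent.Lib.MP_108739_an.F
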