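import Pool.Agent.Lib.MP_108739_an.F.RegB

/-! The penalty of the slope digits in the regular step. -/

open Finset

namespace Pool.Agent.Lib.MP_108739_an.F
open Classical

variable {Ω β ι : Type} [Fintype Ω] {w : Ω → ℝ} (c : Cfg Ω β)

namespace Cfg

omit [Fintype Ω] in
lemma rd_ak {i k : ℕ} (hi : i ≤ k) (hk : k ≤ c.n) : Det (c.ak k) (c.ak i) := by
  intro o o' e
  obtain ⟨d, rfl⟩ := Nat.exists_eq_add_of_le hi
  rw [← c.rg_ak_div hk, ← c.rg_ak_div hk, e]

omit [Fintype Ω] in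
lemma rd_cl {j T m y : ℕ} (hy : y ≤ m) (h : j + m * T ≤ c.n) :
    cl (2 ^ T) m y (c.rW j (m * T)) = c.rW j (y * T) := by
  funext o
  obtain ⟨d, rfl⟩ := Nat.exists_eq_add_of_le hy
  have e1 : j + (y + d) * T = j + y * T + d * T := by ring
  have e2 : (2 : ℕ) ^ ((y + d) * T) = 2 ^ (d * T) * 2 ^ (y * T) := by
    rw [← pow_add]; congr 1; ring
  have e3 : ((2 : ℕ) ^ T) ^ (y + d - y) = 2 ^ (d * T) := by
    rw [Nat.add_sub_cancel_left, ← pow_mul, mul_comm]
  unfold cl rW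
  rw [e3, e2, Nat.mod_mul_right_div_self, e1, c.rg_ak_div (e1 ▸ h)]

lemma penW (hw : Nn w) (A : Ω → Prop) {j T m : ℕ} {e g : ℝ} (he : 0 ≤ e) (hT : 1 ≤ T)
    (h : j + m * T ≤ c.n)
    (hA : ∀ o, A o → 0 < w o → ∀ z : ℕ, z ≤ m * T →
      g * z ≤ lg (ms w (pr (c.ak j) c.b) o / ms w (pr (c.ak (j + z)) c.b) o)) :
    Pen (res w A) (c.ft j) T m e g (c.rW j (m * T)) ≤
      E (res w A) (fun o => lg (ms w (pr (c.ak j) c.b) o / ms (res w A) (pr (c.ak j) c.b) o)) +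
        I (res w A) c.a (c.pk c.n) c.b + (1 + lg (c.n + 2)) * tot (res w A) := by
  have hv := hw.res A
  set v := res w A with hvd
  have dk : Det (c.ft j) (pr (c.ak j) c.b) := Det.pr (c.rg_ft_a j) (c.rg_ft_b j)
  have a1 := pmi_pos hv (c.ak (j + m * T)) (c.ft j) (pr (c.ak j) c.b)
  rw [ms_congr (g := pr (c.ak (j + m * T)) (pr (c.ft j) (pr (c.ak j) c.b)))
      (f := pr (c.ak (j + m * T)) (c.ft j)) (Det.pr Det.fst (Det.snd.trans Det.fst))
      (Det.pr Det.fst (Det.pr Det.snd (Det.snd.trans dk))),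
    ms_congr (g := pr (c.ft j) (pr (c.ak j) c.b)) (f := c.ft j) Det.fst (Det.pr Det.rfl dk),
    ms_congr (g := pr (c.ak (j + m * T)) (pr (c.ak j) c.b)) (f := pr (c.ak (j + m * T)) c.b)
      (Det.pr Det.fst (Det.snd.trans Det.snd))
      (Det.pr Det.fst (Det.pr (Det.fst.trans (c.rd_ak (Nat.le_add_right _ _) h)) Det.snd))] at a1
  have a2 := c.rg_I_ft hv j (c.rg_a_ak (j + m * T))
  have a3 := ls hv (range (m + 1)) (fun y o =>
      ms v (pr (c.ak (j + m * T)) c.b) o * ms v (pr (c.ak (j + y * T)) (c.ft j)) o /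
        (ms v (pr (c.ak (j + y * T)) c.b) o * ms v (pr (c.ak (j + m * T)) (c.ft j)) o))
    (fun y _ o => div_nonneg (mul_nonneg (ms_nonneg hv _ o) (ms_nonneg hv _ o))
      (mul_nonneg (ms_nonneg hv _ o) (ms_nonneg hv _ o)))
    (fun y hy => ratio_coarse hv (c.rg_ft_b j) (Det.fst.trans (c.rd_ak
      (Nat.add_le_add_left (Nat.mul_le_mul_right T (Nat.lt_succ_iff.1 (mem_range.1 hy))) j) h)))
  have a4 : lg ((#(range (m + 1)) : ℝ) + 1) ≤ lg ((c.n : ℝ) + 2) := by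
    have b1 : m ≤ c.n := le_trans (Nat.le_mul_of_pos_right m hT) (le_trans (Nat.le_add_left _ _) h)
    have b2 : (m : ℝ) ≤ c.n := by exact_mod_cast b1
    rw [card_range]
    refine lg_mono (by positivity) ?_
    push_cast; linarith
  have a5 := mul_le_mul_of_nonneg_right a4 (tot_nonneg hv)
  have a6 : Pen v (c.ft j) T m e g (c.rW j (m * T)) ≤ E v fun o =>
      lg (ms w (pr (c.ak j) c.b) o / ms v (pr (c.ak j) c.b) o) +
      max 0 (lg (ms v (pr (c.ak (j + m * T)) (c.ft j)) o * ms v (pr (c.ak j) c.b) o /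
        (ms v (c.ft j) o * ms v (pr (c.ak (j + m * T)) c.b) o))) +
      mx (range (m + 1)) fun y => lg
        (ms v (pr (c.ak (j + m * T)) c.b) o * ms v (pr (c.ak (j + y * T)) (c.ft j)) o /
        (ms v (pr (c.ak (j + y * T)) c.b) o * ms v (pr (c.ak (j + m * T)) (c.ft j)) o)) := by
    refine E_mono hv fun o ho => ?_
    obtain ⟨hAo, hwo⟩ := res_pos ho
    have p1 := ms_pos hv (pr (c.ak j) c.b) ho
    have p2 := ms_pos hw (pr (c.ak j) c.b) hwo
    have p3 := ms_pos hv (pr (c.ak (j + m * T)) (c.ft j)) ho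
    have p4 := ms_pos hv (c.ft j) ho
    have p5 := ms_pos hv (pr (c.ak (j + m * T)) c.b) ho
    have q1 : 0 ≤ lg (ms w (pr (c.ak j) c.b) o / ms v (pr (c.ak j) c.b) o) :=
      lg_nonneg ((one_le_div p1).2 (ms_res_le hw A _ o))
    refine le_trans (mx_le_add (add_nonneg q1 (le_max_left _ _)) fun y hy => ?_) (add_comm _ _).le
    have hy' : y ≤ m := Nat.lt_succ_iff.1 (mem_range.1 hy)
    have hz : y * T ≤ m * T := Nat.mul_le_mul_right T hy'
    have p6 := ms_pos hv (pr (c.ak (j + y * T)) (c.ft j)) ho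
    have p7 := ms_pos hv (pr (c.ak (j + y * T)) c.b) ho
    have p8 := ms_pos hw (pr (c.ak (j + y * T)) c.b) hwo
    have q2 := hA o hAo hwo (y * T) hz
    have q3 : lg (ms v (pr (c.ak (j + y * T)) c.b) o) ≤ lg (ms w (pr (c.ak (j + y * T)) c.b) o) :=
      lg_mono p7 (ms_res_le hw A _ o)
    have q4 := le_max_right 0 (lg (ms v (pr (c.ak (j + m * T)) (c.ft j)) o *
      ms v (pr (c.ak j) c.b) o / (ms v (c.ft j) o * ms v (pr (c.ak (j + m * T)) c.b) o)))
    have q5 : 0 ≤ e * m * T := by positivity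
    rw [c.rd_cl hy' h, ms_congr (g := pr (c.rW j (y * T)) (c.ft j))
      (f := pr (c.ak (j + y * T)) (c.ft j))
      (Det.pr (c.rg_rW_ak (le_trans (Nat.add_le_add_left hz j) h)) Det.snd)
      (Det.pr (Det.fst.trans (c.rg_ak_rW j _)) Det.snd),
      lg_div p4 p6, lg_div (mul_pos p5 p6) (mul_pos p7 p3), lg_mul p5 p6, lg_mul p7 p3,
      lg_div p2 p1]
    rw [lg_div p2 p8] at q2
    generalize max 0 (lg (ms v (pr (c.ak (j + m * T)) (c.ft j)) o *
      ms v (pr (c.ak j) c.b) o / (ms v (c.ft j) o * ms v (pr (c.ak (j + m * T)) c.b) o))) = M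
      at q4 ⊢
    rw [lg_div (mul_pos p3 p1) (mul_pos p4 p5), lg_mul p3 p1, lg_mul p4 p5] at q4
    push_cast at q2
    linarith
  rw [E_add, E_add] at a6
  linarith

end Cfg

end Pool.Agent.Lib.MP_108739_an.F
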