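import Pool.Agent.Lib.MP_108739_an.F.Defs

/-! Auxiliary quantities of the regular step. -/

open Finset

namespace Pool.Agent.Lib.MP_108739_an.F

noncomputable section
open Classical

namespace Cfg
variable {Ω β : Type} [Fintype Ω] (c : Cfg Ω β)

/-- the digits of the slope between the levels `j` and `j + L` -/
def rW (j L : ℕ) : Ω → ℕ := fun o => c.ak (j + L) o % 2 ^ L

/-- the sheared second coordinate at level `j + L` -/
def rS (j L : ℕ) : Ω → ℕ := fun o => c.shr j o / 2 ^ (c.n - (j + L))

/-- approximate index of the tube of level `j + L` -/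
def rZ (j L : ℕ) : Ω → ℕ := fun o => c.rS j L o + c.rW j L o * c.xk L o / 2 ^ L

/-- the error term of the window bound -/
def rho (s t u K : ℝ) (w : Ω → ℝ) : ℝ := u * tot w + K * (c.Fr w s + c.Df w fun k => t * k)

/-- the deficiency of a weight -/
def dl (s t u K b : ℝ) (w : Ω → ℝ) : ℝ := b * c.n * tot w - c.h w + c.rho s t u K w

/-- all windows of all restrictions have rate at most `b` -/
def RGd (s t u K b : ℝ) (w : Ω → ℝ) : Prop := ∀ (A : Ω → Prop) (i k : ℕ), i ≤ k → k ≤ c.n →
  c.hw (res w A) i k ≤ b * ((k : ℝ) - i) * tot (res w A) + c.rho s t u K (res w A)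

end Cfg

end

end Pool.Agent.Lib.MP_108739_an.F
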