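import Pool.Agent.Lib.MP_108739_an.F.RegC
import Pool.Agent.Lib.MP_108739_an.F.RegD
import Pool.Agent.Lib.MP_108739_an.F.AbcDefs

/-! The regular step on one configuration. -/

open Finset

namespace Pool.Agent.Lib.MP_108739_an.F
open Classical

/-- the conclusion of the ABC estimate for given constants -/
def AbcAt (b₀ ε : ℝ) (T : ℕ) (e K C : ℝ) : Prop :=
  ∀ (Ω β : Type) [Fintype Ω] (w : Ω → ℝ) (g : Ω → β) (n : ℕ) (X : Ω → ℤ) (Y W : Ω → ℕ)
    (b c : ℝ), Nn w → b₀ ≤ b → b₀ ≤ c → (∀ o, Y o < (2 ^ T) ^ n) → (∀ o, W o < (2 ^ T) ^ n) →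
    (min 1 (b + c) - ε) * n * T * tot w ≤ H w (Zc (2 ^ T) n X Y W) (pr W g) +
      K * (I w W (pr X Y) g + I w Y (Zc (2 ^ T) n X Y W) (pr W g) +
        Pen w g T n e b Y + Pen w g T n e c W) + C * tot w

variable {Ω β ι : Type} [Fintype Ω] {w : Ω → ℝ} {c : Cfg Ω β} {s t u K b U : ℝ}

namespace Cfg

lemma rg_Df_le_rho (hw : Nn w) (hu : 0 ≤ u) (hK : 1 ≤ K) :
    c.Df w (fun k => t * k) ≤ c.rho s t u K w ∧ c.Fr w s ≤ c.rho s t u K w := by
  have h1 := tot_nonneg hw
  have h2 := c.Fr_nonneg hw s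
  have h3 := c.Df_nonneg hw fun k => t * k
  have h4 := mul_nonneg hu h1
  have h5 := mul_le_mul_of_nonneg_right hK (add_nonneg h2 h3)
  unfold rho
  constructor <;> linarith

lemma rg_cls {b₀ ε e KA CA g : ℝ} {T : ℕ} (hA : AbcAt b₀ ε T e KA CA) (hT : 1 ≤ T) (he : 0 ≤ e)
    (hKA : 0 ≤ KA) (hw : Nn w) (hG : c.RGd s t u K b w) (hu : 0 ≤ u) (hK : 1 ≤ K)
    (hcov : c.Cov w (fun k => t * k) U) (hb : b₀ ≤ b) (hg : b₀ ≤ g) (A : Ω → Prop) {j m : ℕ}
    (hL : m * T ≤ j) (h : j + m * T ≤ c.n)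
    (hq : ∀ o, A o → 0 < w o → ∀ z : ℕ, z ≤ m * T →
      g * z ≤ lg (ms w (pr (c.ak j) c.b) o / ms w (pr (c.ak (j + z)) c.b) o)) :
    (min 1 (b + g) - ε - (t - b)) * (m * T : ℕ) * tot (res w A) ≤
      (1 + 2 * KA) * c.dl s t u K b (res w A) + (2 + KA) * c.rho s t u K (res w A) +
      (1 + 2 * KA) * I (res w A) c.a (c.pk c.n) c.b +
      KA * E (res w A) (fun o => lg (ms w (pr (c.ak j) c.b) o / ms (res w A) (pr (c.ak j) c.b) o)) +
      (U + 19 + CA + KA * (27 + (2 + 3 * K) * lg (c.n + 2))) * tot (res w A) := by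
  have pW := c.penW hw A he hT h hq
  set v := res w A with hv
  have hv0 : Nn v := hw.res A
  have hGv : c.RGd s t u K b v := hG.res A
  set L := m * T with hLd
  have hp : (2 ^ T) ^ m = 2 ^ L := by rw [← pow_mul, mul_comm]
  have hZ : Zc (2 ^ T) m (fun o => (c.rS j L o : ℤ) * 2 ^ L) (c.xk L) (c.rW j L) =
      fun o => (c.rZ j L o : ℤ) := by
    funext o
    unfold Zc rZ
    have : (((2 ^ T : ℕ) : ℤ)) ^ m = 2 ^ L := by exact_mod_cast hp
    rw [this, add_comm, Int.add_mul_ediv_right _ _ (by positivity)]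
    push_cast; ring
  have a := hA Ω _ v (c.ft j) m (fun o => (c.rS j L o : ℤ) * 2 ^ L) (c.xk L) (c.rW j L) b g hv0 hb hg
    (fun o => by rw [hp]; exact c.xk_lt (by omega) o)
    (fun o => by rw [hp]; exact Nat.mod_lt _ (by positivity))
  rw [hZ] at a
  have dz : Det (c.rZ j L) fun o => (c.rZ j L o : ℤ) := Det.comp _
  have z1 : H v (fun o => (c.rZ j L o : ℤ)) (pr (c.rW j L) (c.ft j)) ≤
      H v (c.rZ j L) (pr (c.rW j L) (c.ft j)) := H_mono hv0 (Det.fst.trans dz) Det.rfl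
  have z2 := c.rg_b1 hv0 h
  have z3 : H v (c.pk (j + L)) c.b ≤ H v (c.pk (j + L)) (c.pk 0) :=
    H_mono hv0 Det.fst c.det_b_pk
  have z4 := Cov.H_le c hv0 (Cov.res c hcov A) (Nat.zero_le (j + L)) h
  have z5 : H v (c.pk j) (c.pk 0) ≤ H v (c.pk j) c.b := H_mono hv0 Det.fst (c.det_pk_b 0)
  have z6 := c.H_ge_Df hv0 (fun k => t * k) (Nat.zero_le j) (show j ≤ c.n by omega)
  have z7 := c.h_le_coarse hv0 h
  have z8 := hGv.le h le_rfl
  have z9 := hGv.le (Nat.zero_le j) (show j ≤ c.n by omega)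
  have z10 := (rg_Df_le_rho (c := c) (s := s) (t := t) hv0 hu hK).1
  have y1 := c.rg_b2 hv0 h (X := fun o => (c.rS j L o : ℤ) * 2 ^ L)
    (Det.comp fun q : ℕ => (q : ℤ) * 2 ^ L)
  have y2 : I v (c.xk L) (fun o => (c.rZ j L o : ℤ)) (pr (c.rW j L) (c.ft j)) ≤
      I v (c.xk L) (c.rZ j L) (pr (c.rW j L) (c.ft j)) := I_mono hv0 Det.fst (Det.fst.trans dz)
  have y3 := c.rg_b3 hv0 hL h
  have y4 := hGv.le (Nat.zero_le L) (show L ≤ c.n by omega)
  have y5 := hGv.le (show L ≤ c.n by omega) le_rfl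
  have y6 := hGv.penY hv0 (by linarith) (j := j) (T := T) (m := m) he (by omega) hT (by omega)
  have hH : H v (fun o => (c.rZ j L o : ℤ)) (pr (c.rW j L) (c.ft j)) ≤
      (t - b) * L * tot v + c.dl s t u K b v + 2 * c.rho s t u K v +
        I v c.a (c.pk c.n) c.b + (U + 19) * tot v := by
    unfold dl; push_cast at z4 z6 z8 z9; linarith
  have hI : I v (c.rW j L) (pr (fun o => (c.rS j L o : ℤ) * 2 ^ L) (c.xk L)) (c.ft j) +
      I v (c.xk L) (fun o => (c.rZ j L o : ℤ)) (pr (c.rW j L) (c.ft j)) +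
      Pen v (c.ft j) T m e b (c.xk L) + Pen v (c.ft j) T m e g (c.rW j L) ≤
      2 * c.dl s t u K b v + c.rho s t u K v + 2 * I v c.a (c.pk c.n) c.b +
      E v (fun o => lg (ms w (pr (c.ak j) c.b) o / ms v (pr (c.ak j) c.b) o)) +
      (27 + (2 + 3 * K) * lg (c.n + 2)) * tot v := by
    have : c.hw v 0 L + c.hw v L c.n - c.h v ≤ c.dl s t u K b v + c.rho s t u K v := by
      unfold dl; push_cast at y4; linarith
    linarith
  have hI' := mul_le_mul_of_nonneg_left hI hKA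
  have hc : (m : ℝ) * T = L := by rw [hLd]; push_cast; ring
  rw [mul_assoc (min 1 (b + g) - ε), hc] at a
  linarith

lemma rg_frb (hw : Nn w) (s : ℝ) :
    E w (fun o => mx (range (c.n + 1)) fun y => s * y - lg (ms w c.b o / ms w (pr (c.ak y) c.b) o))
      ≤ c.Fr w s + lg (c.n + 2) * tot w := by
  have e0 : ms w (pr (c.ak 0) c.b) = ms w c.b :=
    ms_congr Det.snd (Det.pr (fun o o' _ => by rw [c.ak_zero, c.ak_zero]) Det.rfl)
  have l := ls hw (range (c.n + 1)) (fun y o => ms w (pr (c.ak y) c.b) o *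
      ms w (pr (c.ak 0) (c.pk c.n)) o / (ms w (pr (c.ak 0) c.b) o * ms w (pr (c.ak y) (c.pk c.n)) o))
    (fun y _ o => div_nonneg (mul_nonneg (ms_nonneg hw _ _) (ms_nonneg hw _ _))
      (mul_nonneg (ms_nonneg hw _ _) (ms_nonneg hw _ _)))
    (fun y _ => ratio_coarse hw (c.det_pk_b c.n) (Det.fst.trans (c.det_ak (Nat.zero_le y))))
  have e4 : ((#(range (c.n + 1)) : ℕ) : ℝ) + 1 = c.n + 2 := by rw [card_range]; push_cast; ring
  rw [e4] at l
  refine le_trans ?_ (add_le_add le_rfl l)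
  unfold Fr FrW
  rw [← E_add]
  refine E_mono hw fun o ho => ?_
  unfold frI
  refine mx_add_le fun y _ => ?_
  rw [e0, zero_add]
  have p1 := ms_pos hw c.b ho
  have p2 := ms_pos hw (pr (c.ak y) c.b) ho
  have p3 := ms_pos hw (pr (c.ak 0) (c.pk c.n)) ho
  have p4 := ms_pos hw (pr (c.ak y) (c.pk c.n)) ho
  rw [lg_div p1 p2, lg_div p3 p4, lg_div (mul_pos p2 p3) (mul_pos p1 p4), lg_mul p2 p3,
    lg_mul p1 p4]
  linarith

lemma rg_pos (hw : Nn w) {L : ℕ} (hL : L ≤ c.n) :
    E w (fun o => max 0 (lg (ms w c.b o / ((2 : ℝ) ^ L * ms w (pr (c.ak L) c.b) o)))) ≤ tot w := by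
  refine ls_one hw _ (fun o => div_nonneg (ms_nonneg hw _ _)
    (mul_nonneg (by positivity) (ms_nonneg hw _ _))) (ratio_card hw (by positivity) fun o _ => ?_)
  have : vals w (c.ak L) c.b o ⊆ range (2 ^ L) := by
    intro v hv
    simp only [vals, mem_image] at hv
    obtain ⟨o', -, rfl⟩ := hv
    exact mem_range.2 (c.ak_lt hL o')
  have := card_le_card this
  rw [card_range] at this
  exact_mod_cast this

/-- the regular step on one configuration -/
lemma rg_one {ε e KA CA δ : ℝ} {T : ℕ} (hA : AbcAt ε ε T e KA CA) (hT : 1 ≤ T) (he : 0 ≤ e)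
    (hKA : 0 ≤ KA) (hCA : 0 ≤ CA) (hw : Nn w) (hG : c.RGd s t u K b w) (hu : 0 ≤ u) (hK : 1 ≤ K)
    (hcov : c.Cov w (fun k => t * k) U) (hε : 0 < ε) (hε1 : ε ≤ 1) (hb : ε ≤ b) (hs : 2 * ε ≤ s)
    (hδ0 : 0 ≤ δ) (hδ1 : δ ≤ 1) (hδ : δ ≤ min 1 (b + (s - ε)) - ε - (t - b)) {m : ℕ}
    (hm : 4 * ((m * T : ℕ) : ℝ) ≤ ε * c.n) :
    δ * (m * T : ℕ) * tot w ≤
      (1 + 2 * KA) * (c.dl s t u K b w + (1 + 3 * K) * lg (c.n + 2) * tot w) +
      (2 + KA) * (c.rho s t u K w + 3 * K * lg (c.n + 2) * tot w) +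
      (1 + 2 * KA) * I w c.a (c.pk c.n) c.b + KA * (lg (c.n + 2) * tot w) +
      (U + 19 + CA + KA * (27 + (2 + 3 * K) * lg (c.n + 2))) * tot w +
      (c.rho s t u K w + (lg (c.n + 2) + 1) * tot w) := by
  set L := m * T with hLd
  have hn0 : (0 : ℝ) ≤ c.n := Nat.cast_nonneg _
  have hL0 : (0 : ℝ) ≤ L := Nat.cast_nonneg _
  have hLn : L ≤ c.n := by
    have : (L : ℝ) ≤ c.n := by nlinarith
    exact_mod_cast this
  have ex : ∀ F : ℕ → ℝ, ∃ j ∈ Icc L c.n, ∀ i ∈ Icc L c.n, F j ≤ F i := fun F =>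
    exists_min_image _ F ⟨L, mem_Icc.2 ⟨le_rfl, hLn⟩⟩
  choose am ham1 ham2 using ex
  set G : Ω → ℕ → ℝ := fun o j => lg (ms w c.b o / ms w (pr (c.ak j) c.b) o) with hGd
  set τ : Ω → ℕ := fun o => am fun j => G o j - (s - ε) * j with hτ
  have hτ1 : ∀ o, τ o ∈ Icc L c.n := fun o => ham1 _
  have hτ2 : ∀ o, ∀ i ∈ Icc L c.n, G o (τ o) - (s - ε) * τ o ≤ G o i - (s - ε) * i :=
    fun o => ham2 fun j => G o j - (s - ε) * j
  have hτ3 : Det (pr c.a c.b) τ := by
    intro o o' h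
    have : G o = G o' := by
      funext j
      have e1 := ((Det.snd (f := c.a) (g := c.b)).trans (ms_det (w := w) c.b)) o o' h
      have e2 := ((Det.pr ((Det.fst (f := c.a) (g := c.b)).trans (c.rg_a_ak j)) Det.snd).trans
        (ms_det (w := w) (pr (c.ak j) c.b))) o o' h
      simp only [hGd]; rw [e1, e2]
    simp only [hτ]; rw [this]
  have hcard : #(Icc L c.n) ≤ c.n + 2 := by rw [Nat.card_Icc]; omega
  set ℓ := lg ((c.n : ℝ) + 2) with hℓ
  have hℓ1 : 1 ≤ ℓ := rg_one_le_lg _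
  have hU : ∀ v : Ω → ℝ, Nn v → c.Cov v (fun k => t * k) U → 0 ≤ (U + 19) * tot v := by
    intro v hv hc
    have h1 := Cov.H_le c hv hc (le_refl 0) (Nat.zero_le _)
    have h2 := H_nonneg hv (c.pk 0) (c.pk 0)
    have h3 := tot_nonneg hv
    linarith
  -- the bound on each class
  have key : ∀ j ∈ Icc L c.n, δ * L * tot (res w fun o => τ o = j) ≤
      (1 + 2 * KA) * c.dl s t u K b (res w fun o => τ o = j) +
      (2 + KA) * c.rho s t u K (res w fun o => τ o = j) +
      (1 + 2 * KA) * I (res w fun o => τ o = j) c.a (c.pk c.n) c.b +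
      KA * E (res w fun o => τ o = j) (fun o => lg (ms w (pr (c.ak j) c.b) o /
        ms (res w fun o => τ o = j) (pr (c.ak j) c.b) o)) +
      (U + 19 + CA + KA * (27 + (2 + 3 * K) * ℓ)) * tot (res w fun o => τ o = j) +
      δ * L * E (res w fun o => τ o = j) (fun o => if c.n < τ o + L then 1 else 0) := by
    intro j hj
    have hv : Nn (res w fun o => τ o = j) := hw.res _
    have ht := tot_nonneg hv
    by_cases hb' : j + L ≤ c.n
    · have k1 := rg_cls hA hT he hKA hw hG hu hK hcov hb (show ε ≤ s - ε by linarith)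
        (fun o => τ o = j) (mem_Icc.1 hj).1 hb' (by
          intro o ho hp z hz
          have q := hτ2 o (j + z) (mem_Icc.2 ⟨by have := (mem_Icc.1 hj).1; omega, by omega⟩)
          rw [ho] at q
          have p1 := ms_pos hw c.b hp
          have p2 := ms_pos hw (pr (c.ak j) c.b) hp
          have p3 := ms_pos hw (pr (c.ak (j + z)) c.b) hp
          simp only [hGd] at q
          rw [lg_div p1 p2, lg_div p1 p3] at q
          rw [lg_div p2 p3]
          push_cast at q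
          linarith)
      have k2 : 0 ≤ E (res w fun o => τ o = j) (fun o => if c.n < τ o + L then 1 else 0) :=
        E_nonneg hv fun o _ => by split_ifs <;> norm_num
      have k3 := mul_le_mul_of_nonneg_right (mul_le_mul_of_nonneg_right hδ hL0) ht
      have k4 := mul_nonneg (mul_nonneg hδ0 hL0) k2
      linarith
    · have k1 : E (res w fun o => τ o = j) (fun o => if c.n < τ o + L then 1 else 0) =
          tot (res w fun o => τ o = j) := by
        rw [E_congr hv (G := fun _ => 1) fun o ho => by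
          rw [(res_pos ho).1, if_pos (by omega)], E_const, one_mul]
      have k2 := (hG.res fun o => τ o = j).dl_nonneg
      have k3 := c.rg_rho_nonneg (s := s) (t := t) hv hu (show 0 ≤ K by linarith)
      have k4 := I_nonneg hv c.a (c.pk c.n) c.b
      have k5 : 0 ≤ E (res w fun o => τ o = j) (fun o => lg (ms w (pr (c.ak j) c.b) o /
          ms (res w fun o => τ o = j) (pr (c.ak j) c.b) o)) :=
        E_nonneg hv fun o ho => lg_nonneg ((one_le_div (ms_pos hv _ ho)).2 (ms_res_le hw _ _ _))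
      have k6 := hU _ hv (Cov.res c hcov _)
      have k7 : 0 ≤ (CA + KA * (27 + (2 + 3 * K) * ℓ)) * tot (res w fun o => τ o = j) := by
        have : 0 ≤ K := by linarith
        have : 0 ≤ ℓ := by linarith
        positivity
      rw [k1]
      have : 0 ≤ (1 + 2 * KA) * c.dl s t u K b (res w fun o => τ o = j) := by positivity
      have : 0 ≤ (2 + KA) * c.rho s t u K (res w fun o => τ o = j) := by positivity
      have : 0 ≤ (1 + 2 * KA) * I (res w fun o => τ o = j) c.a (c.pk c.n) c.b := by positivity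
      have := mul_nonneg hKA k5
      linarith
  have hind : E w (fun o => if c.n < τ o + L then 1 else 0) =
      tot (res w fun o => c.n < τ o + L) := by convert E_ind (w := w) fun o => c.n < τ o + L
  have S := sum_le_sum key
  simp only [sum_add_distrib, ← mul_sum] at S
  rw [← tot_split hτ1, ← E_split hτ1, ← I_split hτ1, hind] at S
  have s1 := c.rg_dl_split (s := s) (t := t) (u := u) (b := b) hw (show 0 ≤ K by linarith) hτ1 hcard
  have s2 := c.rg_rho_split (s := s) (t := t) (u := u) hw (show 0 ≤ K by linarith) hτ1 hcard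
  have s3 : I w c.a (c.pk c.n) (pr c.b τ) ≤ I w c.a (c.pk c.n) c.b := by
    rw [I_symm hw c.a, I_symm hw c.a]
    exact I_cond_le hw Det.fst (Det.pr Det.snd hτ3)
  have s4 := (cost_class hw hτ1 fun j => pr (c.ak j) c.b).trans
    (mul_le_mul_of_nonneg_right (rg_lg_card hcard) (tot_nonneg hw))
  -- the mass of the bad classes
  have s5 : (L : ℝ) * tot (res w fun o => c.n < τ o + L) ≤ c.Fr w s + ℓ * tot w + tot w := by
    have f1 := rg_frb (c := c) hw s
    have f2 := rg_pos (c := c) hw hLn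
    refine le_trans ?_ (add_le_add f1 f2)
    rw [← E_add, ← hind, ← E_mul]
    refine E_mono hw fun o ho => ?_
    have m1 := mx_nonneg (range (c.n + 1)) fun y => s * y - G o y
    have m2 := le_max_left 0 (lg (ms w c.b o / ((2 : ℝ) ^ L * ms w (pr (c.ak L) c.b) o)))
    split_ifs with hbad
    · have q := hτ2 o L (mem_Icc.2 ⟨le_rfl, hLn⟩)
      have m3 := le_mx (fun y => s * y - G o y)
        (mem_range.2 (Nat.lt_succ_of_le (mem_Icc.1 (hτ1 o)).2))
      have m4 := le_max_right 0 (lg (ms w c.b o / ((2 : ℝ) ^ L * ms w (pr (c.ak L) c.b) o)))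
      have p1 := ms_pos hw c.b ho
      have p2 := ms_pos hw (pr (c.ak L) c.b) ho
      have m5 : lg (ms w c.b o / ((2 : ℝ) ^ L * ms w (pr (c.ak L) c.b) o)) = G o L - L := by
        simp only [hGd]
        rw [lg_div p1 p2, lg_div p1 (by positivity), lg_mul (by positivity) p2, lg_two_pow]; ring
      have m6 : (c.n : ℝ) ≤ τ o + L := by exact_mod_cast hbad.le
      have m7 := mul_le_mul_of_nonneg_left m6 hε.le
      have m8 := mul_le_mul_of_nonneg_right hε1 hL0
      have m9 := mul_nonneg (show 0 ≤ s - ε by linarith) hL0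
      simp only [hGd] at m1 m3 q m5 ⊢
      linarith
    · simp only [hGd] at m1
      linarith
  have s6 := (rg_Df_le_rho (c := c) (s := s) (t := t) hw hu hK).2
  have s7 : δ * L * tot (res w fun o => c.n < τ o + L) ≤ L * tot (res w fun o => c.n < τ o + L) := by
    have := mul_le_mul_of_nonneg_right hδ1
      (mul_nonneg hL0 (tot_nonneg (hw.res fun o => c.n < τ o + L)))
    linarith
  have t1 := mul_le_mul_of_nonneg_left s1 (show 0 ≤ 1 + 2 * KA by linarith)
  have t2 := mul_le_mul_of_nonneg_left s2 (show 0 ≤ 2 + KA by linarith)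
  have t3 := mul_le_mul_of_nonneg_left s3 (show 0 ≤ 1 + 2 * KA by linarith)
  have t4 := mul_le_mul_of_nonneg_left s4 hKA
  linarith

end Cfg

end Pool.Agent.Lib.MP_108739_an.F
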