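import Pool.Agent.Lib.MP_108739_an.F.RDefs
import Pool.Agent.Lib.MP_108739_an.F.DecDefs

/-! Statement of the tent lemma. -/

open Finset

namespace Pool.Agent.Lib.MP_108739_an.F

/-- the tent lemma (section 4) -/
def TentStmt : Prop := ∀ ε : ℝ, 0 < ε → ∃ η K C : ℝ, 0 < η ∧ 0 ≤ K ∧ 0 ≤ C ∧
  ∀ (Ω β : Type) [Fintype Ω] (c : Cfg Ω β) (w : Ω → ℝ) (s : ℝ) (f : ℕ → ℝ), Nn w → 0 ≤ s →
    s ≤ 1 → c.Cov w f (η * c.n) → Tent f s η 0 c.n →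
    c.h w ≤ (phi f s 0 c.n + ε * c.n) * tot w + K * (c.Fr w s + c.Df w f) + C * tot w

end Pool.Agent.Lib.MP_108739_an.F
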